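import Pool.Agent.Lib.H97Z.D1

/-! Chunk A1: Fredholm alternative over `ZMod 2` -/

set_option autoImplicit false

namespace Pool.Agent.Lib.H97Z

/-- PROOF. Consider the subspace `W` of `I → ZMod 2`, the range of the linear map
`x ↦ (fun i => ∑ j, M i j * x j)` (`Matrix.mulVecLin`).  If `b ∉ W` then there is a linear functional
`φ` on `I → ZMod 2` with `φ = 0` on `W` and `φ b ≠ 0` (`Submodule.exists_le_ker_of_notMem` or
`Submodule.exists_dual_map_eq_bot_of_notMem`).  Put `y i := φ (Pi.single i 1)`; then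
`φ v = ∑ i, y i * v i` for all `v` (`LinearMap.pi_apply_eq_sum_univ`).  Applied to the images of
`Pi.single j 1`: `∑ i, y i * M i j = 0`, so `φ b = ∑ i, y i * b i = 0`, contradiction. -/
theorem dual_solve {I J : Type} [Fintype I] [Fintype J] (M : I → J → ZMod 2) (b : I → ZMod 2)
    (h : ∀ y : I → ZMod 2, (∀ j, ∑ i, y i * M i j = 0) → ∑ i, y i * b i = 0) :
    ∃ x : J → ZMod 2, ∀ i, ∑ j, M i j * x j = b i := by
  classical
  let W : Submodule (ZMod 2) (I → ZMod 2) := LinearMap.range (Matrix.mulVecLin (Matrix.of M))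
  by_cases hb : b ∈ W
  · obtain ⟨x, hx⟩ := hb
    refine ⟨x, fun i => ?_⟩
    have := congrFun hx i
    rw [Matrix.mulVecLin_apply, Matrix.mulVec, dotProduct] at this
    exact this
  · exfalso
    obtain ⟨φ, hφ, hW⟩ := Submodule.exists_le_ker_of_notMem hb
    let y : I → ZMod 2 := fun i => φ (Pi.single i 1)
    have hy : ∀ v : I → ZMod 2, φ v = ∑ i, y i * v i := by
      intro v
      rw [LinearMap.pi_apply_eq_sum_univ φ v]
      refine Finset.sum_congr rfl fun i _ => ?_
      rw [smul_eq_mul, mul_comm]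
      congr 2
      funext j
      by_cases hij : i = j
      · subst hij
        rw [if_pos rfl, Pi.single_eq_same]
      · rw [if_neg hij, Pi.single_eq_of_ne (fun h => hij h.symm)]
    apply hφ
    rw [hy]
    refine h y fun j => ?_
    have h1 : Matrix.mulVecLin (Matrix.of M) (Pi.single j 1) ∈ W := ⟨_, rfl⟩
    have h2 : φ (Matrix.mulVecLin (Matrix.of M) (Pi.single j 1)) = 0 := hW h1
    rw [hy] at h2
    rw [← h2]
    refine Finset.sum_congr rfl fun i _ => ?_
    rw [Matrix.mulVecLin_apply, Matrix.mulVec_single_one]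
    rfl

end Pool.Agent.Lib.H97Z
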