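import Pool.Agent.Lib.H97Z.A1

/-! Chunk A2: systems in which every vertex lies in at most two equations -/

set_option autoImplicit false

namespace Pool.Agent.Lib.H97Z

open Classical in
/-- PROOF. `dual_solve` with `M i v := if inc i v then 1 else 0`.  Let `y` satisfy
`∑ i, y i * M i v = 0` for all `v`.  We show `y = 0`.  Put `f v := 1` if there is `i` with `inc i v` and
`y i = 1`, else `0`.
(1) `inc i u → inc i v → f u = f v`: by symmetry let `f u = 1`, so `inc i' u`, `y i' = 1` for some `i'`.  If
`i' = i` then `f v = 1`.  Otherwise `i`, `i'` are all the `k` with `inc k u` (`h2`), so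
`0 = ∑ k, y k * M k u = y i + y i'`, `y i = 1` and `f v = 1`.
(2) If all `i`, `j` with `inc i v`, `inc j v` are equal then `f v = 0`: the sum at `v` has at most one
nonzero term `y i`, so `y i = 0`.
By `hf`: `f v = 0` whenever `inc i v`; with `hne`, `y i ≠ 1` for every `i`.  So `y = 0` and
`∑ i, y i * l i = 0`. -/
theorem solve_inc {V I : Type} [Fintype V] [Fintype I] (inc : I → V → Prop)
    (h2 : ∀ v i j k, inc i v → inc j v → inc k v → i = j ∨ i = k ∨ j = k)
    (hne : ∀ i, ∃ v, inc i v)
    (hf : ∀ f : V → ZMod 2, (∀ i u v, inc i u → inc i v → f u = f v) →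
      (∀ v, (∀ i j, inc i v → inc j v → i = j) → f v = 0) → ∀ i v, inc i v → f v = 0)
    (l : I → ZMod 2) :
    ∃ h : V → ZMod 2, ∀ i, ∑ v, (if inc i v then h v else 0) = l i := by
  have key : ∀ y : I → ZMod 2, (∀ v, ∑ i, y i * (if inc i v then (1 : ZMod 2) else 0) = 0) → ∀ i, y i = 0 := by
    intro y hy
    have h01 : ∀ z : ZMod 2, z = 0 ∨ z = 1 := by decide
    let f : V → ZMod 2 := fun v => if ∃ i, inc i v ∧ y i = 1 then 1 else 0
    have hs : ∀ v, ∑ i ∈ Finset.univ.filter (fun i => inc i v), y i = 0 := by
      intro v
      rw [← hy v, Finset.sum_filter]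
      refine Finset.sum_congr rfl fun i _ => ?_
      split_ifs <;> simp
    have hstep : ∀ i u v, inc i u → inc i v → f u = 1 → f v = 1 := by
      intro i u v hu hv h1
      have h3 : ∃ i', inc i' u ∧ y i' = 1 := by
        by_contra hc
        have : f u = 0 := if_neg hc
        rw [this] at h1
        exact zero_ne_one h1
      obtain ⟨i', hi', hy'⟩ := h3
      by_cases hii : i' = i
      · subst hii
        exact if_pos ⟨i', hv, hy'⟩
      · have h4 : Finset.univ.filter (fun k => inc k u) = {i, i'} := by
          ext k
          rw [Finset.mem_filter, Finset.mem_insert, Finset.mem_singleton]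
          constructor
          · rintro ⟨-, hk⟩
            rcases h2 u i i' k hu hi' hk with h | h | h
            · exact absurd h.symm hii
            · exact Or.inl h.symm
            · exact Or.inr h.symm
          · rintro (rfl | rfl)
            · exact ⟨Finset.mem_univ _, hu⟩
            · exact ⟨Finset.mem_univ _, hi'⟩
        have h5 := hs u
        rw [h4, Finset.sum_pair (fun h => hii h.symm), hy'] at h5
        have h6 : y i = 1 := by
          rcases h01 (y i) with h | h
          · rw [h, zero_add] at h5
            exact absurd h5 one_ne_zero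
          · exact h
        exact if_pos ⟨i, hv, h6⟩
    have hfc : ∀ i v, inc i v → f v = 0 := by
      refine hf f ?_ ?_
      · intro i u v hu hv
        rcases h01 (f u) with h | h
        · rcases h01 (f v) with h' | h'
          · rw [h, h']
          · rw [hstep i v u hv hu h', h']
        · rw [h, hstep i u v hu hv h]
      · intro v hv
        refine if_neg ?_
        rintro ⟨i, hi, hyi⟩
        have h4 : Finset.univ.filter (fun k => inc k v) = {i} := by
          ext k
          rw [Finset.mem_filter, Finset.mem_singleton]
          constructor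
          · rintro ⟨-, hk⟩
            exact hv k i hk hi
          · rintro rfl
            exact ⟨Finset.mem_univ _, hi⟩
        have h5 := hs v
        rw [h4, Finset.sum_singleton, hyi] at h5
        exact one_ne_zero h5
    intro i
    rcases h01 (y i) with h | h
    · exact h
    · obtain ⟨v, hv⟩ := hne i
      have h1 : f v = 1 := if_pos ⟨i, hv, h⟩
      rw [hfc i v hv] at h1
      exact absurd h1 zero_ne_one
  obtain ⟨h, hh⟩ := dual_solve (fun i v => if inc i v then (1 : ZMod 2) else 0) l (by
    intro y hy
    refine Finset.sum_eq_zero fun i _ => ?_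
    rw [key y hy i, zero_mul])
  refine ⟨h, fun i => ?_⟩
  rw [← hh i]
  refine Finset.sum_congr rfl fun v _ => ?_
  split_ifs <;> simp

end Pool.Agent.Lib.H97Z
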