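import Pool.Agent.Lib.H97Z.A2

/-! Chunk B1: potentials on the link of a pair -/

set_option autoImplicit false

namespace Pool.Agent.Lib.H97Z

variable {V : Type} [Fintype V] [DecidableEq V] {L : Lev V}

/-- Two vertices of a special block have hue 0 and two have hue 1. -/
theorem b1_shue (hL : Good L) {x y z w : V} (h : L.S x y z w) : L.hue x + L.hue y + L.hue z + L.hue w = 0 := by
  have h1 := hL.Shue _ _ _ _ h
  have h2 := hL.Shue_zw h
  generalize L.hue x = a at *
  generalize L.hue y = b at *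
  generalize L.hue z = c at *
  generalize L.hue w = d at *
  revert a b c d
  decide

/-- A regular block is not special. -/
theorem b1_rs (hL : Good L) {x y z w : V} (h : L.R x y z w) (h' : L.S x y z w ∨ L.S x z y w ∨ L.S x w y z) : False := by
  have h1 := hL.Rhue _ _ _ _ h
  have h2 : L.hue x + L.hue y + L.hue z + L.hue w = 0 := by
    rcases h' with h' | h' | h'
    · exact b1_shue hL h'
    · rw [← b1_shue hL h']
      ring
    · rw [← b1_shue hL h']
      ring
  rw [h1] at h2
  exact one_ne_zero h2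

/-- PROOF. `solve_inc` with `I := {ρ : Finset V // ∃ u v, L.R x z u v ∧ ρ = {x, z, u, v}}` and
`inc ρ v := v ∈ ρ ∧ v ≠ x ∧ v ≠ z`.  If `ρ = {x, z, u, v}` (four distinct vertices, `Good.Rne_xy` ...) then
`inc ρ` holds exactly for `u`, `v`, and the sum is `h u + h v`.
`h2`: if `v` is in `ρ₁, ρ₂, ρ₃` then `ρ_i = {x, z, v, t_i}` with `L.R x z v t_i`; two of the `t_i` are equal
(`Good.two_max`).
`hf`: `f` is constant along regular edges, `RC L x z f`, and vanishes at all vertices which lie in
at most one regular block through `x`, `z`.  If `L.S x y z w` then `y` and `w` are such vertices: two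
different regular blocks `{x, z, w, t₁}`, `{x, z, w, t₂}` and the special block give three blocks through
`x, z, w`: `Good.two_max` says `t₁ = t₂` or `t_i = y`, but `L.R x z w y` is impossible, since in a
special block two vertices have hue `0` and two have hue `1` (`Good.Rhue`, `Good.Shue`).  The same for
`L.S x z a d`.  Now apply `van` of `Good.pure` (if `L.hue x = L.hue z`), `Good.bd` (if `L.F x z`) or `Good.mix`. -/
theorem pot (hL : Good L) {x z : V} (hxz : x ≠ z) (l : Finset V → ZMod 2) :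
    ∃ h : V → ZMod 2, ∀ u v, L.R x z u v → h u + h v = l {x, z, u, v} := by
  classical
  let I := {ρ : Finset V // ∃ u v, L.R x z u v ∧ ρ = {x, z, u, v}}
  let inc : I → V → Prop := fun ρ v => v ∈ ρ.1 ∧ v ≠ x ∧ v ≠ z
  have hex : ∀ (ρ : I) (t : V), inc ρ t → ∃ t', L.R x z t t' ∧ ρ.1 = {x, z, t, t'} := by
    rintro ⟨ρ, u, v, huv, rfl⟩ t ⟨ht, htx, htz⟩
    simp only [Finset.mem_insert, Finset.mem_singleton] at ht
    rcases ht with rfl | rfl | rfl | rfl
    · exact absurd rfl htx
    · exact absurd rfl htz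
    · exact ⟨v, huv, rfl⟩
    · refine ⟨u, hL.R_xywz huv, ?_⟩
      change ({x, z, u, t} : Finset V) = {x, z, t, u}
      rw [Finset.pair_comm u t]
  have hin : ∀ (u v : V) (huv : L.R x z u v) (t : V), inc ⟨{x, z, u, v}, u, v, huv, rfl⟩ t ↔ t = u ∨ t = v := by
    intro u v huv t
    constructor
    · rintro ⟨ht, htx, htz⟩
      simp only [Finset.mem_insert, Finset.mem_singleton] at ht
      rcases ht with rfl | rfl | rfl | rfl
      · exact absurd rfl htx
      · exact absurd rfl htz
      · exact Or.inl rfl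
      · exact Or.inr rfl
    · rintro (rfl | rfl)
      · exact ⟨by simp, (hL.Rne_xz huv).symm, (hL.Rne_yz huv).symm⟩
      · exact ⟨by simp, (hL.Rne_xw huv).symm, (hL.Rne_yw huv).symm⟩
  have h2 : ∀ v i j k, inc i v → inc j v → inc k v → i = j ∨ i = k ∨ j = k := by
    intro v i j k hi hj hk
    obtain ⟨ti, h1, e1⟩ := hex i v hi
    obtain ⟨tj, h2, e2⟩ := hex j v hj
    obtain ⟨tk, h3, e3⟩ := hex k v hk
    rcases hL.two_max (hL.Blk_of_R h1) (hL.Blk_of_R h2) (hL.Blk_of_R h3) with h | h | h
    · exact Or.inl (Subtype.ext (by rw [e1, e2, h]))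
    · exact Or.inr (Or.inl (Subtype.ext (by rw [e1, e3, h])))
    · exact Or.inr (Or.inr (Subtype.ext (by rw [e2, e3, h])))
  have hne : ∀ i, ∃ v, inc i v := by
    rintro ⟨ρ, u, v, huv, rfl⟩
    exact ⟨u, (hin u v huv u).2 (Or.inl rfl)⟩
  have hf : ∀ f : V → ZMod 2, (∀ i u v, inc i u → inc i v → f u = f v) →
      (∀ v, (∀ i j, inc i v → inc j v → i = j) → f v = 0) → ∀ i v, inc i v → f v = 0 := by
    intro f hf1 hf2
    have hrc : RC L x z f := fun u v huv => hf1 ⟨{x, z, u, v}, u, v, huv, rfl⟩ u v ((hin u v huv u).2 (Or.inl rfl)) ((hin u v huv v).2 (Or.inr rfl))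
    have hz : ∀ v t, (L.S x z v t ∨ L.S x v z t ∨ L.S x t z v) → f v = 0 := by
      intro v t hS
      refine hf2 v fun i j hi hj => ?_
      obtain ⟨ti, h1, e1⟩ := hex i v hi
      obtain ⟨tj, h2, e2⟩ := hex j v hj
      have hB : Blk L x z v t := by
        rcases hS with h | h | h
        · exact Or.inr (Or.inl h)
        · exact Or.inr (Or.inr (Or.inl h))
        · exact Or.inr (Or.inr (Or.inr h))
      rcases hL.two_max (hL.Blk_of_R h1) (hL.Blk_of_R h2) hB with h | h | h
      · exact Subtype.ext (by rw [e1, e2, h])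
      · subst h
        exact (b1_rs hL h1 hS).elim
      · subst h
        exact (b1_rs hL h2 hS).elim
    have hall : ∀ v, v ≠ x → v ≠ z → f v = 0 := by
      by_cases hh : L.hue x = L.hue z
      · obtain ⟨y, w, y', w', P⟩ := hL.pure x z hxz hh
        exact P.van f hrc (hz w y (Or.inr (Or.inr P.s1))) (hz y w (Or.inr (Or.inl P.s1)))
      · by_cases hF : L.F x z
        · obtain ⟨y, w, a, d, B⟩ := hL.bd x z hF
          exact B.van f hrc (hz w y (Or.inr (Or.inr B.s1))) (hz y w (Or.inr (Or.inl B.s1)))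
        · obtain ⟨y, w, y', w', a, d, a', d', M⟩ := hL.mix x z hh hF
          exact M.van f hrc (hz w y (Or.inr (Or.inr M.s1))) (hz w' y' (Or.inr (Or.inr M.s2)))
            (hz y w (Or.inr (Or.inl M.s1))) (hz y' w' (Or.inr (Or.inl M.s2)))
    exact fun i v hi => hall v hi.2.1 hi.2.2
  obtain ⟨h, hh⟩ := solve_inc inc h2 hne hf (fun ρ => l ρ.1)
  refine ⟨h, fun u v huv => ?_⟩
  refine Eq.trans ?_ (hh ⟨{x, z, u, v}, u, v, huv, rfl⟩)
  have e0 : h u + h v = ∑ t, if t ∈ ({u, v} : Finset V) then h t else 0 := by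
    rw [Finset.sum_ite_mem, Finset.univ_inter, Finset.sum_pair (hL.Rne_zw huv)]
  rw [e0]
  refine Finset.sum_congr rfl fun t _ => ?_
  by_cases ht : inc ⟨{x, z, u, v}, u, v, huv, rfl⟩ t
  · rw [if_pos ht, if_pos (by simpa using (hin u v huv t).1 ht)]
  · rw [if_neg ht, if_neg (fun h' => ht ((hin u v huv t).2 (by simpa using h')))]

end Pool.Agent.Lib.H97Z
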