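import Pool.Agent.Lib.H97Z.A2

/-! Chunk B2: potentials on the rotation at a vertex -/

set_option autoImplicit false

namespace Pool.Agent.Lib.H97Z

variable {V : Type} [Fintype V] [DecidableEq V] {L : Lev V}

/-- The diagonals of a special block are determined by its set of vertices.
PROOF. `{x, y, z, w} = {x, y', z', w'}`; all vertices of a special block are distinct.  So `y' ∈ {y, z, w}`.
If `y' = z`: then `{z', w'} = {y, w}` and `L.S x z y w` (up to `Good.S_xywz`), against `Good.Sex`.  If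
`y' = w`: `{z', w'} = {y, z}`, `L.S x w y z`, against `Good.Sex` for `L.S x y w z`.  So `y' = y` and
`{z', w'} = {z, w}`. -/
theorem spec_unique (hL : Good L) {x y z w y' z' w' : V} (h : L.S x y z w) (h' : L.S x y' z' w')
    (he : ({x, y, z, w} : Finset V) = {x, y', z', w'}) :
    y' = y ∧ ((z' = z ∧ w' = w) ∨ (z' = w ∧ w' = z)) := by
  have m1 : y' ∈ ({x, y, z, w} : Finset V) := by rw [he]; simp
  have m2 : z' ∈ ({x, y, z, w} : Finset V) := by rw [he]; simp
  have m3 : w' ∈ ({x, y, z, w} : Finset V) := by rw [he]; simp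
  simp only [Finset.mem_insert, Finset.mem_singleton] at m1 m2 m3
  have n1 := hL.Sne_xy h'
  have n2 := hL.Sne_xz h'
  have n3 := hL.Sne_xw h'
  have n4 := hL.Sne_yz h'
  have n5 := hL.Sne_yw h'
  have n6 := hL.Sne_zw h'
  rcases m1 with rfl | rfl | rfl | rfl
  · exact absurd rfl n1
  · refine ⟨rfl, ?_⟩
    rcases m2 with rfl | rfl | rfl | rfl
    · exact absurd rfl n2
    · exact absurd rfl n4
    · rcases m3 with rfl | rfl | rfl | rfl
      · exact absurd rfl n3
      · exact absurd rfl n5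
      · exact absurd rfl n6
      · exact Or.inl ⟨rfl, rfl⟩
    · rcases m3 with rfl | rfl | rfl | rfl
      · exact absurd rfl n3
      · exact absurd rfl n5
      · exact Or.inr ⟨rfl, rfl⟩
      · exact absurd rfl n6
  · exfalso
    rcases m2 with rfl | rfl | rfl | rfl
    · exact absurd rfl n2
    · rcases m3 with rfl | rfl | rfl | rfl
      · exact absurd rfl n3
      · exact absurd rfl n6
      · exact absurd rfl n5
      · exact hL.Sex _ _ _ _ h h'
    · exact absurd rfl n4
    · rcases m3 with rfl | rfl | rfl | rfl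
      · exact absurd rfl n3
      · exact hL.Sex _ _ _ _ h (hL.S_xywz h')
      · exact absurd rfl n5
      · exact absurd rfl n6
  · exfalso
    rcases m2 with rfl | rfl | rfl | rfl
    · exact absurd rfl n2
    · rcases m3 with rfl | rfl | rfl | rfl
      · exact absurd rfl n3
      · exact absurd rfl n6
      · exact hL.Sex _ _ _ _ (hL.S_xywz h) h'
      · exact absurd rfl n5
    · rcases m3 with rfl | rfl | rfl | rfl
      · exact absurd rfl n3
      · exact hL.Sex _ _ _ _ (hL.S_xywz h) (hL.S_xywz h')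
      · exact absurd rfl n6
      · exact absurd rfl n5
    · exact absurd rfl n4

/-- PROOF. `solve_inc` with `I := {ρ : Finset V // ∃ y z w, L.S x y z w ∧ ρ = {x, y, z, w}}` and
`inc ρ v := ∃ y w, L.S x y v w ∧ ρ = {x, y, v, w}`; by `spec_unique` `inc ρ` holds exactly for `z`, `w` if
`ρ = {x, y, z, w}`, `L.S x y z w`.  `h2`: the special blocks with side `{x, v}`: at most two by `all` of
`Good.pure`, `Good.mix`, `Good.bd`.  `hf`: `f` is constant along the rotation and vanishes at the boundary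
neighbours `u`, `u'` of `x` (`RotAt.f1`, and `BdAt.all` for the pair `{x, u}`: only one special
block with side `{x, u}`), so it is `0` by `RotAt.con`.  Choose `l ρ` to be `l y z w` for a chosen
representation of `ρ`; by `spec_unique` and `hl` it does not depend on the choice. -/
theorem rotpot (hL : Good L) (x : V) (l : V → V → V → ZMod 2)
    (hl : ∀ y z w, l y z w = l y w z) :
    ∃ g : V → ZMod 2, ∀ y z w, L.S x y z w → g z + g w = l y z w := by
  classical
  let I := {ρ : Finset V // ∃ y z w, L.S x y z w ∧ ρ = {x, y, z, w}}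
  let inc : I → V → Prop := fun ρ v => ∃ y w, L.S x y v w ∧ ρ.1 = {x, y, v, w}
  have hin : ∀ (y z w : V) (h : L.S x y z w) (t : V), inc ⟨{x, y, z, w}, y, z, w, h, rfl⟩ t ↔ t = z ∨ t = w := by
    intro y z w h t
    constructor
    · rintro ⟨y', w', h', e⟩
      rcases (spec_unique hL h h' e).2 with hh | hh
      · exact Or.inl hh.1
      · exact Or.inr hh.1
    · rintro (rfl | rfl)
      · exact ⟨y, w, h, rfl⟩
      · exact ⟨y, z, hL.S_xywz h, by
          change ({x, y, z, t} : Finset V) = {x, y, t, z}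
          rw [Finset.pair_comm z t]⟩
  have two : ∀ v, v ≠ x → ∃ p q p' q', ∀ y w, L.S x y v w → (y = p ∧ w = q) ∨ (y = p' ∧ w = q') := by
    intro v hv
    by_cases hh : L.hue x = L.hue v
    · obtain ⟨y, w, y', w', P⟩ := hL.pure x v hv.symm hh
      exact ⟨y, w, y', w', P.all⟩
    · by_cases hF : L.F x v
      · obtain ⟨y, w, a, d, B⟩ := hL.bd x v hF
        exact ⟨y, w, y, w, fun p q hpq => Or.inl (B.all p q hpq)⟩
      · obtain ⟨y, w, y', w', a, d, a', d', M⟩ := hL.mix x v hh hF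
        exact ⟨y, w, y', w', M.all⟩
  have h2 : ∀ v i j k, inc i v → inc j v → inc k v → i = j ∨ i = k ∨ j = k := by
    rintro v i j k ⟨y1, w1, s1, e1⟩ ⟨y2, w2, s2, e2⟩ ⟨y3, w3, s3, e3⟩
    obtain ⟨p, q, p', q', hall⟩ := two v (hL.Sne_xz s1).symm
    rcases hall _ _ s1 with ⟨rfl, rfl⟩ | ⟨rfl, rfl⟩ <;> rcases hall _ _ s2 with ⟨rfl, rfl⟩ | ⟨rfl, rfl⟩ <;>
      rcases hall _ _ s3 with ⟨rfl, rfl⟩ | ⟨rfl, rfl⟩
    · exact Or.inl (Subtype.ext (e1.trans e2.symm))
    · exact Or.inl (Subtype.ext (e1.trans e2.symm))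
    · exact Or.inr (Or.inl (Subtype.ext (e1.trans e3.symm)))
    · exact Or.inr (Or.inr (Subtype.ext (e2.trans e3.symm)))
    · exact Or.inr (Or.inr (Subtype.ext (e2.trans e3.symm)))
    · exact Or.inr (Or.inl (Subtype.ext (e1.trans e3.symm)))
    · exact Or.inl (Subtype.ext (e1.trans e2.symm))
    · exact Or.inl (Subtype.ext (e1.trans e2.symm))
  have hne : ∀ i, ∃ v, inc i v := by
    rintro ⟨ρ, y, z, w, h, rfl⟩
    exact ⟨z, (hin y z w h z).2 (Or.inl rfl)⟩
  have hf : ∀ f : V → ZMod 2, (∀ i u v, inc i u → inc i v → f u = f v) →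
      (∀ v, (∀ i j, inc i v → inc j v → i = j) → f v = 0) → ∀ i v, inc i v → f v = 0 := by
    rintro f hf1 hf2 i v ⟨y, w, s1, e1⟩
    obtain ⟨u, u', hR⟩ := hL.rot x
    have hu : f u = 0 := by
      refine hf2 u ?_
      rintro i j ⟨y1, w1, s1, e1⟩ ⟨y2, w2, s2, e2⟩
      obtain ⟨y0, w0, a, d, B⟩ := hL.bd x u hR.f1
      obtain ⟨rfl, rfl⟩ := B.all _ _ s1
      obtain ⟨rfl, rfl⟩ := B.all _ _ s2
      exact Subtype.ext (e1.trans e2.symm)
    rw [← hu]
    refine hR.con f (fun y z w h => ?_) v u (hL.Sne_xz s1).symm (hL.Fne hR.f1).symm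
    exact hf1 ⟨{x, y, z, w}, y, z, w, h, rfl⟩ z w ((hin y z w h z).2 (Or.inl rfl)) ((hin y z w h w).2 (Or.inr rfl))
  let lab : I → ZMod 2 := fun ρ => l ρ.2.choose ρ.2.choose_spec.choose ρ.2.choose_spec.choose_spec.choose
  have hlab : ∀ (y z w : V) (h : L.S x y z w), lab ⟨{x, y, z, w}, y, z, w, h, rfl⟩ = l y z w := by
    intro y z w h
    have hs := (⟨{x, y, z, w}, y, z, w, h, rfl⟩ : I).2.choose_spec.choose_spec.choose_spec
    have hgen : ∀ y' z' w', L.S x y' z' w' → ({x, y, z, w} : Finset V) = {x, y', z', w'} → l y' z' w' = l y z w := by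
      intro y' z' w' h' e'
      obtain ⟨rfl, ⟨rfl, rfl⟩ | ⟨rfl, rfl⟩⟩ := spec_unique hL h h' e'
      · rfl
      · exact hl _ _ _
    exact hgen _ _ _ hs.1 hs.2
  obtain ⟨g, hg⟩ := solve_inc inc h2 hne hf lab
  refine ⟨g, fun y z w h => ?_⟩
  refine Eq.trans ?_ ((hg ⟨{x, y, z, w}, y, z, w, h, rfl⟩).trans (hlab y z w h))
  have e0 : g z + g w = ∑ t, if t ∈ ({z, w} : Finset V) then g t else 0 := by
    rw [Finset.sum_ite_mem, Finset.univ_inter, Finset.sum_pair (hL.Sne_zw h)]
  rw [e0]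
  refine Finset.sum_congr rfl fun t _ => ?_
  by_cases ht : inc ⟨{x, y, z, w}, y, z, w, h, rfl⟩ t
  · rw [if_pos ht, if_pos (by simpa using (hin y z w h t).1 ht)]
  · rw [if_neg ht, if_neg (fun h' => ht ((hin y z w h t).2 (by simpa using h')))]

end Pool.Agent.Lib.H97Z
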