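import Pool.Agent.Lib.H97Z.D1

/-! Chunk B3: vertices in the parts of a mixed link -/

set_option autoImplicit false

namespace Pool.Agent.Lib.H97Z

variable {V : Type} [Fintype V] [DecidableEq V] {L : Lev V}

/-- PROOF. Let `f₀ v' := 1` if `f v' = f v` for every `f` with `RC L x z f`, else `0` (classical).
`RC L x z f₀`: if `L.R x z u u'` then `f u = f u'` for all such `f`.  `v ≠ x, z` (`Good.Rne_xz` ...).
Case `L.F x z`: `BdAt` data `y w a d`.  `hue` is `RC` for a mixed pair (`Good.Rhue_mix`) and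
`L.hue y ≠ L.hue x = L.hue v` (`Good.Shue_ne`), so `f₀ y = 0`.  If `f₀ w = 0` then `f₀ v = 0` by `van`, but `f₀ v = 1`.
So `f w = f v` for all `RC` functions `f`; by `cl` also `f a = f v`.  Take `y w a d` in `Ub`, `t := L.b x z a d`.
Case not `L.F x z`: `MixAt` data; `f₀ y = f₀ y' = 0` in the same way, so `f₀ w = 1` or `f₀ w' = 1`.  In the first
case take `y w a d`, in the second `y' w' a' d'`. -/
theorem ub_exists (hL : Good L) {x z v v' : V} (h : L.R x z v v') (hh : L.hue x ≠ L.hue z)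
    (hv : L.hue v = L.hue x) : ∃ t, Ub L x z v t := by
  classical
  let f₀ : V → ZMod 2 := fun t => if ∀ f, RC L x z f → f t = f v then 1 else 0
  have hrc : RC L x z f₀ := by
    intro u u' hu
    have e : (∀ f, RC L x z f → f u = f v) ↔ (∀ f, RC L x z f → f u' = f v) :=
      ⟨fun h1 f hf => (hf u u' hu).symm.trans (h1 f hf), fun h1 f hf => (hf u u' hu).trans (h1 f hf)⟩
    change (if ∀ f, RC L x z f → f u = f v then (1 : ZMod 2) else 0) = if ∀ f, RC L x z f → f u' = f v then 1 else 0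
    by_cases h1 : ∀ f, RC L x z f → f u = f v
    · rw [if_pos h1, if_pos (e.1 h1)]
    · rw [if_neg h1, if_neg (fun h2 => h1 (e.2 h2))]
  have hv1 : f₀ v = 1 := if_pos fun f _ => rfl
  have hhue : RC L x z L.hue := fun u u' hu => hL.Rhue_mix hu hh
  have h0 : ∀ t, L.hue t = L.hue z → f₀ t = 0 := by
    intro t ht
    refine if_neg fun h1 => hh ?_
    rw [← hv, ← ht]
    exact (h1 _ hhue).symm
  have h1 : ∀ t, f₀ t ≠ 0 → ∀ f, RC L x z f → f v = f t := by
    intro t ht f hf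
    by_contra hc
    exact ht (if_neg fun h2 => hc (h2 f hf).symm)
  have hvx : v ≠ x := (hL.Rne_xz h).symm
  have hvz : v ≠ z := (hL.Rne_yz h).symm
  by_cases hF : L.F x z
  · obtain ⟨y, w, a, d, B⟩ := hL.bd x z hF
    have hw : f₀ w ≠ 0 := fun h2 => by
      have h3 := B.van f₀ hrc h2 (h0 y (hL.Shue_ne B.s1 hh).2) v hvx hvz
      rw [hv1] at h3
      exact one_ne_zero h3
    exact ⟨_, y, w, a, d, B.s1, B.t1, rfl, fun f hf => ⟨h1 w hw f hf, (h1 w hw f hf).trans (B.cl f hf).1⟩⟩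
  · obtain ⟨y, w, y', w', a, d, a', d', M⟩ := hL.mix x z hh hF
    by_cases hw : f₀ w = 0
    · have hw' : f₀ w' ≠ 0 := fun h2 => by
        have h3 := M.van f₀ hrc hw h2 (h0 y (hL.Shue_ne M.s1 hh).2) (h0 y' (hL.Shue_ne M.s2 hh).2) v hvx hvz
        rw [hv1] at h3
        exact one_ne_zero h3
      exact ⟨_, y', w', a', d', M.s2, M.t2, rfl, fun f hf => ⟨h1 w' hw' f hf, (h1 w' hw' f hf).trans (M.cl f hf).2.2.1⟩⟩
    · exact ⟨_, y, w, a, d, M.s1, M.t1, rfl, fun f hf => ⟨h1 w hw f hf, (h1 w hw f hf).trans (M.cl f hf).1⟩⟩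

end Pool.Agent.Lib.H97Z
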