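import Pool.Agent.Lib.H97Z.D1

/-! Chunk B5: symmetries of the link data -/

set_option autoImplicit false

namespace Pool.Agent.Lib.H97Z

variable {V : Type} [Fintype V] [DecidableEq V] {L : Lev V}

theorem b5_rc (hL : Good L) {x z : V} {f : V → ZMod 2} (h : RC L z x f) : RC L x z f := fun u v huv =>
  h u v (hL.R_yxzw huv)

theorem b5_one (hL : Good L) {x z : V} {f : V → ZMod 2} (h : One L z x f) : One L x z f := fun u v huv =>
  h u v (hL.R_yxzw huv)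

/-- The hue of the second vertex of a diagonal. -/
theorem b5_hue (hL : Good L) {x z a d : V} (h : L.S x z a d) (ha : L.hue a = L.hue x) : L.hue d = L.hue z := by
  have h1 := hL.Shue _ _ _ _ h
  have h2 := hL.Shue_zw h
  generalize L.hue x = p at *
  generalize L.hue z = q at *
  generalize L.hue a = r at *
  generalize L.hue d = t at *
  revert p q r t
  decide

/-- PROOF. Exchange the two special blocks; `van`: if `f w' = 0` and `f y' = 0` then `f y = f w' = 0`,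
`f w = f y' = 0` by `cl`. -/
theorem PureAt.swap {x z y w y' w' : V} (h : PureAt L x z y w y' w') :
    PureAt L x z y' w' y w :=
  ⟨h.s2, h.s1, fun ⟨h1, h2⟩ => h.ne ⟨h1.symm, h2.symm⟩, fun p q hpq => (h.all p q hpq).symm,
    fun f hf => ⟨(h.cl f hf).2, (h.cl f hf).1⟩,
    fun f hf h1 h2 => h.van f hf ((h.cl f hf).1.trans h2) ((h.cl f hf).2.symm.trans h1)⟩

/-- PROOF. `L.S x y z w → L.S z w x y`; `RC L z x f ↔ RC L x z f` by `Good.R_yxzw`. -/
theorem PureAt.symm (hL : Good L) {x z y w y' w' : V} (h : PureAt L x z y w y' w') :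
    PureAt L z x w y w' y' :=
  ⟨hL.S_zwxy h.s1, hL.S_zwxy h.s2, fun ⟨h1, h2⟩ => h.ne ⟨h2, h1⟩,
    fun p q hpq => (h.all q p (hL.S_zwxy hpq)).imp (fun hh => ⟨hh.2, hh.1⟩) (fun hh => ⟨hh.2, hh.1⟩),
    fun f hf => ⟨(h.cl f (b5_rc hL hf)).2.symm, (h.cl f (b5_rc hL hf)).1.symm⟩,
    fun f hf h1 h2 v hv hv' => h.van f (b5_rc hL hf) h2 h1 v hv' hv⟩

/-- PROOF. Exchange the roles. -/
theorem MixAt.swap {x z y w y' w' a d a' d' : V} (h : MixAt L x z y w y' w' a d a' d') :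
    MixAt L x z y' w' y w a' d' a d :=
  ⟨h.s2, h.s1, fun ⟨h1, h2⟩ => h.ne ⟨h1.symm, h2.symm⟩, fun p q hpq => (h.all p q hpq).symm, h.t2, h.t1, h.ha', h.ha,
    fun p q hpq hp => (h.tall p q hpq hp).symm, by rw [add_comm]; exact h.bit,
    fun f hf => ⟨(h.cl f hf).2.2.1, (h.cl f hf).2.2.2, (h.cl f hf).1, (h.cl f hf).2.1⟩,
    fun f hf h1 h2 h3 h4 => h.van f hf h2 h1 h4 h3,
    fun f hf => ⟨(h.par f hf).2, (h.par f hf).1⟩⟩

/-- PROOF. `L.S x y z w → L.S z w x y`, `L.S x z a d → L.S z x d a`; `Good.b12`, `Good.b34`; the hue of `d`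
and `d'` is the hue of `z` (`Good.Shue_zw`, `hh`). -/
theorem MixAt.symm (hL : Good L) {x z y w y' w' a d a' d' : V} (hh : L.hue x ≠ L.hue z)
    (h : MixAt L x z y w y' w' a d a' d') : MixAt L z x w y w' y' d' a' d a := by
  have hd := b5_hue hL h.t1 h.ha
  have hd' := b5_hue hL h.t2 h.ha'
  refine ⟨hL.S_zwxy h.s1, hL.S_zwxy h.s2, fun ⟨h1, h2⟩ => h.ne ⟨h2, h1⟩,
    fun p q hpq => (h.all q p (hL.S_zwxy hpq)).imp (fun hh => ⟨hh.2, hh.1⟩) (fun hh => ⟨hh.2, hh.1⟩),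
    hL.S_yxwz h.t2, hL.S_yxwz h.t1, hd', hd, fun p q hpq hp => ?_, ?_, fun f hf => ?_,
    fun f hf h1 h2 h3 h4 v hv hv' => h.van f (b5_rc hL hf) h3 h4 h1 h2 v hv' hv, fun f hf => ?_⟩
  · have hq : L.hue q = L.hue x := b5_hue hL hpq hp
    rcases h.tall q p (hL.S_yxwz hpq) hq with hh | hh
    · exact Or.inr ⟨hh.2, hh.1⟩
    · exact Or.inl ⟨hh.2, hh.1⟩
  · rw [hL.b12 z x d' a', hL.b34 x z d' a', hL.b12 z x d a, hL.b34 x z d a, add_comm]
    exact h.bit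
  · obtain ⟨c1, c2, c3, c4⟩ := h.cl f (b5_rc hL hf)
    exact ⟨c4.symm, c3.symm, c2.symm, c1.symm⟩
  · obtain ⟨p1, p2⟩ := h.par f (b5_one hL hf)
    constructor
    · rw [← p2]
      ring
    · rw [← p1]
      ring

/-- PROOF. As `MixAt.symm`. -/
theorem BdAt.symm (hL : Good L) {x z y w a d : V} (hh : L.hue x ≠ L.hue z)
    (h : BdAt L x z y w a d) : BdAt L z x w y d a := by
  have hd := b5_hue hL h.t1 h.ha
  refine ⟨hL.S_zwxy h.s1, fun p q hpq => ?_, hL.S_yxwz h.t1, hd, fun p q hpq hp => ?_, ?_, fun f hf => ?_,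
    fun f hf h1 h2 v hv hv' => h.van f (b5_rc hL hf) h2 h1 v hv' hv, fun f hf => ?_⟩
  · obtain ⟨h1, h2⟩ := h.all q p (hL.S_zwxy hpq)
    exact ⟨h2, h1⟩
  · have hq : L.hue q = L.hue x := b5_hue hL hpq hp
    obtain ⟨h1, h2⟩ := h.tall q p (hL.S_yxwz hpq) hq
    exact ⟨h2, h1⟩
  · rw [hL.c12, hL.b12 z x d a, hL.b34 x z d a]
    exact h.c
  · obtain ⟨c1, c2⟩ := h.cl f (b5_rc hL hf)
    exact ⟨c2.symm, c1.symm⟩
  · rw [← h.par f (b5_one hL hf)]
    ring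

end Pool.Agent.Lib.H97Z
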