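import Pool.Agent.Lib.H97Z.B1
import Pool.Agent.Lib.H97Z.B5

/-! Chunk B4: a function which separates the two halves of a mixed link -/

set_option autoImplicit false

namespace Pool.Agent.Lib.H97Z

variable {V : Type} [Fintype V] [DecidableEq V] {L : Lev V}

/-- The conditions: regular blocks, the two diagonal special blocks, the two points. -/
def b4_inc (L : Lev V) (x z a d a' d' w w' : V) : {ρ : Finset V // ∃ u v, L.R x z u v ∧ ρ = {x, z, u, v}} ⊕ (Bool ⊕ Bool) → V → Prop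
  | Sum.inl ρ, v => v ∈ ρ.1 ∧ v ≠ x ∧ v ≠ z
  | Sum.inr (Sum.inl false), v => v = a ∨ v = d
  | Sum.inr (Sum.inl true), v => v = a' ∨ v = d'
  | Sum.inr (Sum.inr false), v => v = w
  | Sum.inr (Sum.inr true), v => v = w'

/-- t is the fourth vertex of the block of the condition. -/
def b4_T (L : Lev V) (x z y w y' w' a d a' d' : V) : {ρ : Finset V // ∃ u v, L.R x z u v ∧ ρ = {x, z, u, v}} ⊕ (Bool ⊕ Bool) → V → V → Prop
  | Sum.inl ρ, v, t => L.R x z v t ∧ ρ.1 = {x, z, v, t}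
  | Sum.inr (Sum.inl false), v, t => (v = a ∧ t = d) ∨ (v = d ∧ t = a)
  | Sum.inr (Sum.inl true), v, t => (v = a' ∧ t = d') ∨ (v = d' ∧ t = a')
  | Sum.inr (Sum.inr false), v, t => v = w ∧ t = y
  | Sum.inr (Sum.inr true), v, t => v = w' ∧ t = y'

def b4_lab (I : Type) : I ⊕ (Bool ⊕ Bool) → ZMod 2
  | Sum.inl _ => 0
  | Sum.inr (Sum.inl _) => 0
  | Sum.inr (Sum.inr false) => 0
  | Sum.inr (Sum.inr true) => 1

theorem b4_in (hL : Good L) {x z u v : V} (huv : L.R x z u v) (t : V) : (t ∈ ({x, z, u, v} : Finset V) ∧ t ≠ x ∧ t ≠ z) ↔ t = u ∨ t = v := by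
  constructor
  · rintro ⟨ht, htx, htz⟩
    simp only [Finset.mem_insert, Finset.mem_singleton] at ht
    rcases ht with rfl | rfl | rfl | rfl
    · exact absurd rfl htx
    · exact absurd rfl htz
    · exact Or.inl rfl
    · exact Or.inr rfl
  · rintro (rfl | rfl)
    · exact ⟨by simp, (hL.Rne_xz huv).symm, (hL.Rne_yz huv).symm⟩
    · exact ⟨by simp, (hL.Rne_xw huv).symm, (hL.Rne_yw huv).symm⟩

/-- PROOF. `solve_inc` with the index type `I := {ρ // ∃ u v, L.R x z u v ∧ ρ = {x, z, u, v}} ⊕ (Bool ⊕ Bool)`: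
`inc (inl ρ) v := v ∈ ρ ∧ v ≠ x ∧ v ≠ z`; `inc (inr (inl false)) v := v = a ∨ v = d`,
`inc (inr (inl true)) v := v = a' ∨ v = d'`; `inc (inr (inr false)) v := v = w`, `inc (inr (inr true)) v := v = w'`.
Labels: `0`, except `1` for the last one.  A solution `h` has `h u = h v` for `L.R x z u v`, `h a = h d`,
`h a' = h d'`, `h w = 0`, `h w' = 1`, and `cl` gives the rest.
`h2`: the blocks through `x, z, v` are at most two (`Good.two_max`); the block `{x,z|y,w}` (that is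
`L.S x y z w`) is replaced by the point condition at `w` (and nothing at `y`), the blocks `{x,z|a,d}`,
`{x,z|a',d'}` by the second kind of conditions: so for every `v` an injection of the conditions at
`v` into the set of blocks through `x, z, v`.
`hf`: `f` is constant along regular edges, `f a = f d`, `f a' = f d'`, and vanishes at `y` and `y'` (the
block `{x,z|y,w}` goes through `x, z, y` and has no condition at `y`, so at most one condition is
left).  By `cl`: `f w = f a = f d = f y' = 0` and `f w' = f a' = f d' = f y = 0`, so `f = 0` by `van`. -/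
theorem kappa (hL : Good L) {x z y w y' w' a d a' d' : V} (hh : L.hue x ≠ L.hue z)
    (hM : MixAt L x z y w y' w' a d a' d') :
    ∃ κ : V → ZMod 2, RC L x z κ ∧ κ w = 0 ∧ κ a = 0 ∧ κ d = 0 ∧ κ y' = 0 ∧
      κ w' = 1 ∧ κ a' = 1 ∧ κ d' = 1 ∧ κ y = 1 := by
  classical
  have hw := hL.Shue_ne hM.s1 hh
  have hw' := hL.Shue_ne hM.s2 hh
  have hd := b5_hue hL hM.t1 hM.ha
  have hd' := b5_hue hL hM.t2 hM.ha'
  have hha := hM.ha
  have hha' := hM.ha'
  have had : a ≠ d := hL.Sne_zw hM.t1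
  have had' : a' ≠ d' := hL.Sne_zw hM.t2
  have hex : ∀ i t, b4_inc L x z a d a' d' w w' i t → ∃ t', b4_T L x z y w y' w' a d a' d' i t t' := by
    rintro (⟨ρ, u, v, huv, rfl⟩ | (_ | _) | (_ | _)) t ht
    · rcases (b4_in hL huv t).1 ht with rfl | rfl
      · exact ⟨v, huv, rfl⟩
      · refine ⟨u, hL.R_xywz huv, ?_⟩
        change ({x, z, u, t} : Finset V) = {x, z, t, u}
        rw [Finset.pair_comm u t]
    · rcases ht with rfl | rfl
      · exact ⟨_, Or.inl ⟨rfl, rfl⟩⟩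
      · exact ⟨_, Or.inr ⟨rfl, rfl⟩⟩
    · rcases ht with rfl | rfl
      · exact ⟨_, Or.inl ⟨rfl, rfl⟩⟩
      · exact ⟨_, Or.inr ⟨rfl, rfl⟩⟩
    · exact ⟨_, ht, rfl⟩
    · exact ⟨_, ht, rfl⟩
  have hty : ∀ i t t', b4_T L x z y w y' w' a d a' d' i t t' → (L.R x z t t' ∨ L.S x z t t' ∨ L.S x t' z t) := by
    rintro (⟨ρ, u, v, huv, rfl⟩ | (_ | _) | (_ | _)) t t' ht
    · exact Or.inl ht.1
    · rcases ht with ⟨rfl, rfl⟩ | ⟨rfl, rfl⟩
      · exact Or.inr (Or.inl hM.t1)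
      · exact Or.inr (Or.inl (hL.S_xywz hM.t1))
    · rcases ht with ⟨rfl, rfl⟩ | ⟨rfl, rfl⟩
      · exact Or.inr (Or.inl hM.t2)
      · exact Or.inr (Or.inl (hL.S_xywz hM.t2))
    · obtain ⟨rfl, rfl⟩ := ht
      exact Or.inr (Or.inr hM.s1)
    · obtain ⟨rfl, rfl⟩ := ht
      exact Or.inr (Or.inr hM.s2)
  have hD : ∀ b t t', b4_T L x z y w y' w' a d a' d' (Sum.inr (Sum.inl b)) t t' → L.S x z t t' := by
    rintro (_ | _) t t' ht
    · rcases ht with ⟨rfl, rfl⟩ | ⟨rfl, rfl⟩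
      · exact hM.t1
      · exact hL.S_xywz hM.t1
    · rcases ht with ⟨rfl, rfl⟩ | ⟨rfl, rfl⟩
      · exact hM.t2
      · exact hL.S_xywz hM.t2
  have hB : ∀ b t t', b4_T L x z y w y' w' a d a' d' (Sum.inr (Sum.inr b)) t t' → L.S x t' z t := by
    rintro (_ | _) t t' ⟨rfl, rfl⟩
    · exact hM.s1
    · exact hM.s2
  have hDB : ∀ t t', L.S x z t t' → L.S x t' z t → False := fun t t' h1 h2 => hL.Sex _ _ _ _ (hL.S_xywz h1) h2
  have hblk : ∀ i t t', b4_T L x z y w y' w' a d a' d' i t t' → Blk L x z t t' := by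
    intro i t t' ht
    rcases hty i t t' ht with h | h | h
    · exact Or.inl h
    · exact Or.inr (Or.inl h)
    · exact Or.inr (Or.inr (Or.inr h))
  have hadj : ¬ (a = a' ∧ d = d') := by
    rintro ⟨rfl, rfl⟩
    have h1 := hM.bit
    rw [z2_add_self] at h1
    exact zero_ne_one h1
  have huniq : ∀ i j t t', b4_T L x z y w y' w' a d a' d' i t t' → b4_T L x z y w y' w' a d a' d' j t t' → i = j := by
    rintro (ρ | b | b) (ρ' | b' | b') t t' hi hj
    · rw [Subtype.ext (hi.2.trans hj.2.symm)]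
    · exact (b1_rs hL hi.1 (Or.inl (hD _ _ _ hj))).elim
    · exact (b1_rs hL hi.1 (Or.inr (Or.inr (hB _ _ _ hj)))).elim
    · exact (b1_rs hL hj.1 (Or.inl (hD _ _ _ hi))).elim
    · rcases b with _ | _ <;> rcases b' with _ | _
      · rfl
      · exfalso
        rcases hi with ⟨rfl, rfl⟩ | ⟨rfl, rfl⟩ <;> rcases hj with ⟨h1, h2⟩ | ⟨h1, h2⟩
        · exact hadj ⟨h1, h2⟩
        · exact hh (by rw [← hha, h1, hd'])
        · exact hh (by rw [← hha', ← h1, hd])
        · exact hadj ⟨h2, h1⟩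
      · exfalso
        rcases hi with ⟨rfl, rfl⟩ | ⟨rfl, rfl⟩ <;> rcases hj with ⟨h1, h2⟩ | ⟨h1, h2⟩
        · exact hadj ⟨h1.symm, h2.symm⟩
        · exact hh (by rw [← hha', h1, hd])
        · exact hh (by rw [← hha, ← h1, hd'])
        · exact hadj ⟨h2.symm, h1.symm⟩
      · rfl
    · exact (hDB _ _ (hD _ _ _ hi) (hB _ _ _ hj)).elim
    · exact (b1_rs hL hj.1 (Or.inr (Or.inr (hB _ _ _ hi)))).elim
    · exact (hDB _ _ (hD _ _ _ hj) (hB _ _ _ hi)).elim
    · rcases b with _ | _ <;> rcases b' with _ | _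
      · rfl
      · exact (hM.ne ⟨hi.2.symm.trans hj.2, hi.1.symm.trans hj.1⟩).elim
      · exact (hM.ne ⟨hj.2.symm.trans hi.2, hj.1.symm.trans hi.1⟩).elim
      · rfl
  have h2 : ∀ v i j k, b4_inc L x z a d a' d' w w' i v → b4_inc L x z a d a' d' w w' j v → b4_inc L x z a d a' d' w w' k v → i = j ∨ i = k ∨ j = k := by
    intro v i j k hi hj hk
    obtain ⟨ti, h1⟩ := hex i v hi
    obtain ⟨tj, h2⟩ := hex j v hj
    obtain ⟨tk, h3⟩ := hex k v hk
    rcases hL.two_max (hblk _ _ _ h1) (hblk _ _ _ h2) (hblk _ _ _ h3) with rfl | rfl | rfl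
    · exact Or.inl (huniq _ _ _ _ h1 h2)
    · exact Or.inr (Or.inl (huniq _ _ _ _ h1 h3))
    · exact Or.inr (Or.inr (huniq _ _ _ _ h2 h3))
  have hne : ∀ i, ∃ v, b4_inc L x z a d a' d' w w' i v := by
    rintro (⟨ρ, u, v, huv, rfl⟩ | (_ | _) | (_ | _))
    · exact ⟨u, (b4_in hL huv u).2 (Or.inl rfl)⟩
    · exact ⟨a, Or.inl rfl⟩
    · exact ⟨a', Or.inl rfl⟩
    · exact ⟨w, rfl⟩
    · exact ⟨w', rfl⟩
  have hf : ∀ f : V → ZMod 2, (∀ i u v, b4_inc L x z a d a' d' w w' i u → b4_inc L x z a d a' d' w w' i v → f u = f v) →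
      (∀ v, (∀ i j, b4_inc L x z a d a' d' w w' i v → b4_inc L x z a d a' d' w w' j v → i = j) → f v = 0) → ∀ i v, b4_inc L x z a d a' d' w w' i v → f v = 0 := by
    intro f hf1 hf2
    have hrc : RC L x z f := fun u v huv => hf1 (Sum.inl ⟨{x, z, u, v}, u, v, huv, rfl⟩) u v ((b4_in hL huv u).2 (Or.inl rfl)) ((b4_in hL huv v).2 (Or.inr rfl))
    have hzero : ∀ p q, L.S x p z q → f p = 0 := by
      intro p q hS
      have hp := (hL.Shue_ne hS hh).2
      have hno : ∀ i, b4_T L x z y w y' w' a d a' d' i p q → False := by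
        rintro (ρ | b | b) hi
        · exact b1_rs hL hi.1 (Or.inr (Or.inl hS))
        · exact hL.Sex _ _ _ _ hS (hD _ _ _ hi)
        · rcases b with _ | _
          · exact hh (by rw [← hw.1, ← hi.1, hp])
          · exact hh (by rw [← hw'.1, ← hi.1, hp])
      refine hf2 p fun i j hi hj => ?_
      obtain ⟨ti, h1⟩ := hex i p hi
      obtain ⟨tj, h2⟩ := hex j p hj
      have hBl : Blk L x z p q := Or.inr (Or.inr (Or.inl hS))
      rcases hL.two_max (hblk _ _ _ h1) (hblk _ _ _ h2) hBl with rfl | rfl | rfl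
      · exact huniq _ _ _ _ h1 h2
      · exact (hno _ h1).elim
      · exact (hno _ h2).elim
    obtain ⟨c1, c2, c3, c4⟩ := hM.cl f hrc
    have hy := hzero y w hM.s1
    have hy' := hzero y' w' hM.s2
    have e1 : f a = f d := hf1 (Sum.inr (Sum.inl false)) a d (Or.inl rfl) (Or.inr rfl)
    have e2 : f a' = f d' := hf1 (Sum.inr (Sum.inl true)) a' d' (Or.inl rfl) (Or.inr rfl)
    have hfw : f w = 0 := by rw [c1, e1, c2, hy']
    have hfw' : f w' = 0 := by rw [c3, e2, c4, hy]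
    have hall := hM.van f hrc hfw hfw' hy hy'
    rintro (⟨ρ, u, v, huv, rfl⟩ | (_ | _) | (_ | _)) t ht
    · exact hall t ht.2.1 ht.2.2
    · rcases ht with rfl | rfl
      · exact hall _ (hL.Sne_xz hM.t1).symm (hL.Sne_yz hM.t1).symm
      · exact hall _ (hL.Sne_xw hM.t1).symm (hL.Sne_yw hM.t1).symm
    · rcases ht with rfl | rfl
      · exact hall _ (hL.Sne_xz hM.t2).symm (hL.Sne_yz hM.t2).symm
      · exact hall _ (hL.Sne_xw hM.t2).symm (hL.Sne_yw hM.t2).symm
    · have ht' : t = w := ht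
      rw [ht']
      exact hfw
    · have ht' : t = w' := ht
      rw [ht']
      exact hfw'
  obtain ⟨h, hs⟩ := solve_inc (b4_inc L x z a d a' d' w w') h2 hne hf (b4_lab _)
  have hsum2 : ∀ i p q, p ≠ q → (∀ t, b4_inc L x z a d a' d' w w' i t ↔ t = p ∨ t = q) → h p + h q = b4_lab _ i := by
    intro i p q hpq hiff
    refine Eq.trans ?_ (hs i)
    have e0 : h p + h q = ∑ t, if t ∈ ({p, q} : Finset V) then h t else 0 := by
      rw [Finset.sum_ite_mem, Finset.univ_inter, Finset.sum_pair hpq]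
    rw [e0]
    refine Finset.sum_congr rfl fun t _ => ?_
    by_cases ht : b4_inc L x z a d a' d' w w' i t
    · rw [if_pos ht, if_pos (by simpa using (hiff t).1 ht)]
    · rw [if_neg ht, if_neg (fun h' => ht ((hiff t).2 (by simpa using h')))]
  have hsum1 : ∀ i p, (∀ t, b4_inc L x z a d a' d' w w' i t ↔ t = p) → h p = b4_lab _ i := by
    intro i p hiff
    refine Eq.trans ?_ (hs i)
    have e0 : h p = ∑ t, if t ∈ ({p} : Finset V) then h t else 0 := by
      rw [Finset.sum_ite_mem, Finset.univ_inter, Finset.sum_singleton]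
    rw [e0]
    refine Finset.sum_congr rfl fun t _ => ?_
    by_cases ht : b4_inc L x z a d a' d' w w' i t
    · rw [if_pos ht, if_pos (by simpa using (hiff t).1 ht)]
    · rw [if_neg ht, if_neg (fun h' => ht ((hiff t).2 (by simpa using h')))]
  have hz2 : ∀ p q : ZMod 2, p + q = 0 → p = q := by decide
  have hrc : RC L x z h := fun u v huv => hz2 _ _ (hsum2 (Sum.inl ⟨{x, z, u, v}, u, v, huv, rfl⟩) u v (hL.Rne_zw huv) (fun t => b4_in hL huv t))
  have e1 : h a = h d := hz2 _ _ (hsum2 (Sum.inr (Sum.inl false)) a d had fun t => Iff.rfl)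
  have e2 : h a' = h d' := hz2 _ _ (hsum2 (Sum.inr (Sum.inl true)) a' d' had' fun t => Iff.rfl)
  have e3 : h w = 0 := hsum1 (Sum.inr (Sum.inr false)) w fun t => Iff.rfl
  have e4 : h w' = 1 := hsum1 (Sum.inr (Sum.inr true)) w' fun t => Iff.rfl
  obtain ⟨c1, c2, c3, c4⟩ := hM.cl h hrc
  have ha0 : h a = 0 := by rw [← c1, e3]
  have ha1 : h a' = 1 := by rw [← c3, e4]
  exact ⟨h, hrc, e3, ha0, by rw [← e1, ha0], by rw [← c2, ← e1, ha0], e4, ha1, by rw [← e2, ha1], by rw [← c4, ← e2, ha1]⟩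

end Pool.Agent.Lib.H97Z
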