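import Pool.Agent.Lib.H97Z.B5

/-! Chunk B6: symmetries of the equations -/

set_option autoImplicit false

namespace Pool.Agent.Lib.H97Z

variable {V : Type} [Fintype V] [DecidableEq V] {L : Lev V}

/-- PROOF. `Lab L s z x h ↔ Lab L s x z h` (`Good.R_yxzw`, and `{z, x, u, v} = {x, z, u, v}` as finsets:
`Finset.insert_comm`). -/
theorem Lab.symm (hL : Good L) {s : Finset V → ZMod 2} {x z : V} {h : V → ZMod 2}
    (hh : Lab L s x z h) : Lab L s z x h := fun u v huv => by
  rw [hh u v (hL.R_yxzw huv), Finset.insert_comm]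

/-- PROOF. Reorder the sum. -/
theorem EqM.swap {s : Finset V → ZMod 2} {x z y w y' w' a d a' d' : V}
    (h : EqM L s x z y w y' w' a d a' d') : EqM L s x z y' w' y w a' d' a d := fun k hk =>
  ⟨(h k hk).2, (h k hk).1⟩

/-- PROOF. `Lab.symm`, `Good.b12`, `Good.b34`, reorder. -/
theorem EqM.symm (hL : Good L) {s : Finset V → ZMod 2} {x z y w y' w' a d a' d' : V}
    (h : EqM L s x z y w y' w' a d a' d') : EqM L s z x w y w' y' d' a' d a := fun k hk => by
  obtain ⟨h1, h2⟩ := h k (hk.symm hL)
  rw [hL.b12 d' a' z x, hL.b34 a' d' z x, hL.b12 d a z x, hL.b34 a d z x]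
  constructor
  · linear_combination h2
  · linear_combination h1

/-- PROOF. `Lab.symm`, `Good.b12`, `Good.b34`, reorder. -/
theorem EqB.symm (hL : Good L) {s : Finset V → ZMod 2} {x z y w a d : V}
    (h : EqB L s x z y w a d) : EqB L s z x w y d a := fun k hk => by
  have h1 := h k (hk.symm hL)
  rw [hL.b12 z x d a, hL.b34 x z d a, hL.b12 d a z x, hL.b34 a d z x]
  linear_combination h1

end Pool.Agent.Lib.H97Z
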