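import Pool.Agent.Lib.H97Z.D1

/-! Chunk C0: definitions for the linear system -/

set_option autoImplicit false

namespace Pool.Agent.Lib.H97Z

variable {V : Type} [Fintype V] [DecidableEq V] {L : Lev V}

open Classical in
/-- The regular blocks through `x`, `z`. -/
noncomputable def Reg (L : Lev V) (x z : V) : Finset (Finset V) :=
  Finset.univ.filter fun ρ => ∃ u v, L.R x z u v ∧ ρ = {x, z, u, v}

open Classical in
/-- The special blocks through `x`, `z`. -/
noncomputable def Spc (L : Lev V) (x z : V) : Finset (Finset V) :=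
  Finset.univ.filter fun ρ => ∃ u v, (L.S x u z v ∨ L.S x z u v) ∧ ρ = {x, z, u, v}

open Classical in
/-- The value of `K` on a block through `x`, `z`. -/
noncomputable def val (K : V → ZMod 2) (x z : V) (ρ : Finset V) : ZMod 2 :=
  if ∃ v ∈ ρ, v ≠ x ∧ v ≠ z ∧ K v = 1 then 1 else 0

open Classical in
/-- The special blocks around `x`, as triples `(y, z, w)` with `z` of the hue of `x`. -/
noncomputable def Nb (L : Lev V) (x : V) : Finset (V × V × V) :=
  Finset.univ.filter fun t => L.S x t.1 t.2.1 t.2.2 ∧ L.hue t.2.1 = L.hue x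

/-- Chosen link data for all pairs. -/
structure Dat (L : Lev V) where
  (py pw py' pw' : V → V → V)
  hp : ∀ x z, x ≠ z → L.hue x = L.hue z → PureAt L x z (py x z) (pw x z) (py' x z) (pw' x z)
  (my mw my' mw' ma md ma' md' : V → V → V)
  hm : ∀ x z, L.hue x = 0 → L.hue z = 1 → ¬ L.F x z →
    MixAt L x z (my x z) (mw x z) (my' x z) (mw' x z) (ma x z) (md x z) (ma' x z) (md' x z)
  (qy qw qa qd : V → V → V)
  hq : ∀ x z, L.hue x = 0 → L.hue z = 1 → L.F x z →
    BdAt L x z (qy x z) (qw x z) (qa x z) (qd x z)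
  κ : V → V → V → ZMod 2
  hκ : ∀ x z, L.hue x = 0 → L.hue z = 1 → ¬ L.F x z → RC L x z (κ x z) ∧
    κ x z (mw x z) = 0 ∧ κ x z (ma x z) = 0 ∧ κ x z (md x z) = 0 ∧ κ x z (my' x z) = 0 ∧
    κ x z (mw' x z) = 1 ∧ κ x z (ma' x z) = 1 ∧ κ x z (md' x z) = 1 ∧ κ x z (my x z) = 1

/-- The pairs with an equation for the total sum. -/
def act1 (L : Lev V) (x z : V) : Prop := x ≠ z ∧ (L.hue x = L.hue z ∨ (L.hue x = 0 ∧ L.hue z = 1))

/-- The pairs with a second equation. -/
def act2 (L : Lev V) (x z : V) : Prop := L.hue x = 0 ∧ L.hue z = 1 ∧ ¬ L.F x z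

open Classical in
/-- Right side of the first equation. -/
noncomputable def TT (D : Dat L) (x z : V) : ZMod 2 :=
  if L.hue x = L.hue z then
    1 + L.b x (D.py x z) z (D.pw x z) + L.b z (D.pw x z) x (D.py x z) +
      L.b x (D.py' x z) z (D.pw' x z) + L.b z (D.pw' x z) x (D.py' x z)
  else if L.F x z then
    1 + L.b x (D.qy x z) z (D.qw x z) + L.b z (D.qw x z) x (D.qy x z) +
      L.b x z (D.qa x z) (D.qd x z) + L.b (D.qa x z) (D.qd x z) x z
  else
    (1 + L.b z (D.mw x z) x (D.my x z) + L.b x (D.my' x z) z (D.mw' x z) +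
      L.b (D.ma x z) (D.md x z) x z) +
    (1 + L.b z (D.mw' x z) x (D.my' x z) + L.b x (D.my x z) z (D.mw x z) +
      L.b (D.ma' x z) (D.md' x z) x z)

/-- Right side of the second equation. -/
def KK (D : Dat L) (x z : V) : ZMod 2 :=
  1 + L.b z (D.mw' x z) x (D.my' x z) + L.b x (D.my x z) z (D.mw x z) +
    L.b (D.ma' x z) (D.md' x z) x z

open Classical in
/-- Half of the dual vector attached to `y₁`, `y₂`. -/
noncomputable def YY (D : Dat L) (y₁ y₂ : V → V → ZMod 2) (x z v : V) : ZMod 2 :=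
  (if act1 L x z then y₁ x z else 0) + (if act2 L x z then y₂ x z * D.κ x z v else 0)

/-- The dual vector attached to `y₁`, `y₂`. -/
noncomputable def GG (D : Dat L) (y₁ y₂ : V → V → ZMod 2) (x z v : V) : ZMod 2 :=
  YY D y₁ y₂ x z v + YY D y₁ y₂ z x v

open Classical in
/-- The dual condition at the block `ρ`. -/
def DualAt (D : Dat L) (ρ₀ ρ₁ : Finset V) (y₁ y₂ : V → V → ZMod 2) (e₀ e₁ : ZMod 2)
    (ρ : Finset V) : Prop :=
  (∑ x, ∑ z, if act1 L x z ∧ ρ ∈ Reg L x z then y₁ x z else 0) +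
  (∑ x, ∑ z, if act2 L x z ∧ ρ ∈ Reg L x z then y₂ x z * val (D.κ x z) x z ρ else 0) +
  (if ρ = ρ₀ then e₀ else 0) + (if ρ = ρ₁ then e₁ else 0) = 0

end Pool.Agent.Lib.H97Z
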