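import Pool.Agent.Lib.H97Z.C0

/-! Chunk C1: the handshake formula on the link of a pair -/

set_option autoImplicit false

namespace Pool.Agent.Lib.H97Z

variable {V : Type} [Fintype V] [DecidableEq V] {L : Lev V}

theorem c1_mem_reg {x z : V} {ρ : Finset V} : ρ ∈ Reg L x z ↔
    ∃ u v, L.R x z u v ∧ ρ = {x, z, u, v} := by
  simp only [Reg, Finset.mem_filter, Finset.mem_univ, true_and]

theorem c1_mem_spc {x z : V} {ρ : Finset V} : ρ ∈ Spc L x z ↔
    ∃ u v, (L.S x u z v ∨ L.S x z u v) ∧ ρ = {x, z, u, v} := by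
  simp only [Spc, Finset.mem_filter, Finset.mem_univ, true_and]

omit [Fintype V] in
/-- the sum of the hues -/
theorem c1_sum4 {a b c d : V} (hab : a ≠ b) (hac : a ≠ c) (had : a ≠ d) (hbc : b ≠ c) (hbd : b ≠ d)
    (hcd : c ≠ d) (f : V → ZMod 2) : ∑ v ∈ ({a, b, c, d} : Finset V), f v = f a + f b + f c + f d := by
  rw [Finset.sum_insert (by simp [hab, hac, had]), Finset.sum_insert (by simp [hbc, hbd]),
    Finset.sum_pair hcd]
  ring

theorem c1_sum4' {T : Type} [DecidableEq T] {a b c d : T} (hab : a ≠ b) (hac : a ≠ c)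
    (had : a ≠ d) (hbc : b ≠ c) (hbd : b ≠ d) (hcd : c ≠ d) (f : T → ZMod 2) :
    ∑ v ∈ ({a, b, c, d} : Finset T), f v = f a + f b + f c + f d := by
  rw [Finset.sum_insert (by simp [hab, hac, had]), Finset.sum_insert (by simp [hbc, hbd]),
    Finset.sum_pair hcd]
  ring

theorem c1_disj (hL : Good L) (x z : V) : Disjoint (Reg L x z) (Spc L x z) := by
  rw [Finset.disjoint_left]
  intro ρ h1 h2
  obtain ⟨u, v, hR, e1⟩ := c1_mem_reg.1 h1
  obtain ⟨p, q, hS, e2⟩ := c1_mem_spc.1 h2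
  have s1 : ∑ v ∈ ρ, L.hue v = 1 := by
    rw [e1, c1_sum4 (hL.Rne_xy hR) (hL.Rne_xz hR) (hL.Rne_xw hR) (hL.Rne_yz hR) (hL.Rne_yw hR)
      (hL.Rne_zw hR)]
    exact hL.Rhue _ _ _ _ hR
  have s2 : ∑ v ∈ ρ, L.hue v = 0 := by
    have key : ∀ a b c d : ZMod 2, a ≠ b → c ≠ d → a + b + (c + d) = 0 := by decide
    rcases hS with hS | hS
    · rw [e2, c1_sum4 (hL.Sne_xz hS) (hL.Sne_xy hS) (hL.Sne_xw hS) (hL.Sne_yz hS).symm
        (hL.Sne_zw hS) (hL.Sne_yw hS)]
      have := key _ _ _ _ (hL.Shue _ _ _ _ hS) (hL.Shue_zw hS)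
      rw [← this]
      ring
    · rw [e2, c1_sum4 (hL.Sne_xy hS) (hL.Sne_xz hS) (hL.Sne_xw hS) (hL.Sne_yz hS)
        (hL.Sne_yw hS) (hL.Sne_zw hS)]
      have := key _ _ _ _ (hL.Shue _ _ _ _ hS) (hL.Shue_zw hS)
      rw [← this]
      ring
  rw [s1] at s2
  exact absurd s2 (by decide)

theorem c1_mem_B (_hL : Good L) {x z : V} {ρ : Finset V} : ρ ∈ Reg L x z ∪ Spc L x z ↔
    ∃ u v, Blk L x z u v ∧ ρ = {x, z, u, v} := by
  rw [Finset.mem_union, c1_mem_reg, c1_mem_spc]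
  constructor
  · rintro (⟨u, v, h, e⟩ | ⟨u, v, h | h, e⟩)
    · exact ⟨u, v, Or.inl h, e⟩
    · exact ⟨u, v, Or.inr (Or.inr (Or.inl h)), e⟩
    · exact ⟨u, v, Or.inr (Or.inl h), e⟩
  · rintro ⟨u, v, h | h | h | h, e⟩
    · exact Or.inl ⟨u, v, h, e⟩
    · exact Or.inr ⟨u, v, Or.inr h, e⟩
    · exact Or.inr ⟨u, v, Or.inl h, e⟩
    · refine Or.inr ⟨v, u, Or.inl h, ?_⟩
      rw [e]
      congr 2
      exact Finset.pair_comm u v

theorem c1_card (hL : Good L) {x z v : V} (hxz : x ≠ z) (hvx : v ≠ x) (hvz : v ≠ z) :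
    ((Reg L x z ∪ Spc L x z).filter (fun ρ => v ∈ ρ)).card = 2 := by
  obtain ⟨u, u', huu, hu, hu', hall⟩ := hL.two x z v hxz hvx.symm hvz.symm
  obtain ⟨-, -, a1, -, a2, a3⟩ := hL.Blk_ne4 hu
  have hne : ({x, z, v, u} : Finset V) ≠ {x, z, v, u'} := by
    intro he
    have h1 : u ∈ ({x, z, v, u'} : Finset V) := by rw [← he]; simp
    simp only [Finset.mem_insert, Finset.mem_singleton] at h1
    rcases h1 with h1 | h1 | h1 | h1
    · exact a1 h1.symm
    · exact a2 h1.symm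
    · exact a3 h1.symm
    · exact huu h1
  have hset : (Reg L x z ∪ Spc L x z).filter (fun ρ => v ∈ ρ) =
      {({x, z, v, u} : Finset V), {x, z, v, u'}} := by
    ext ρ
    rw [Finset.mem_filter, c1_mem_B hL, Finset.mem_insert, Finset.mem_singleton]
    constructor
    · rintro ⟨⟨p, q, hpq, e⟩, hv⟩
      rw [e] at hv
      simp only [Finset.mem_insert, Finset.mem_singleton] at hv
      rcases hv with hv | hv | hv | hv
      · exact absurd hv hvx
      · exact absurd hv hvz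
      · subst hv
        rcases hall q hpq with h | h
        · left; rw [e, h]
        · right; rw [e, h]
      · subst hv
        have e' : ρ = {x, z, v, p} := by
          rw [e]; congr 2; exact Finset.pair_comm _ _
        rcases hall p (hL.Blk34 hpq) with h | h
        · left; rw [e', h]
        · right; rw [e', h]
    · rintro (h | h)
      · rw [h]
        exact ⟨⟨v, u, hu, rfl⟩, by simp⟩
      · rw [h]
        exact ⟨⟨v, u', hu', rfl⟩, by simp⟩
  rw [hset, Finset.card_pair hne]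

theorem c1_total (hL : Good L) {x z : V} (hxz : x ≠ z) (f : V → ZMod 2) :
    ∑ ρ ∈ Reg L x z ∪ Spc L x z, ∑ v ∈ ρ.filter (fun v => v ≠ x ∧ v ≠ z), f v = 0 := by
  have h1 : ∀ ρ : Finset V, ∑ v ∈ ρ.filter (fun v => v ≠ x ∧ v ≠ z), f v =
      ∑ v : V, if v ∈ ρ ∧ (v ≠ x ∧ v ≠ z) then f v else 0 := by
    intro ρ
    rw [← Finset.sum_filter]
    congr 1
    ext v
    simp
  simp only [h1]
  rw [Finset.sum_comm]
  refine Finset.sum_eq_zero fun v _ => ?_
  by_cases hv : v ≠ x ∧ v ≠ z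
  · have h2 : ∀ ρ : Finset V, (if v ∈ ρ ∧ (v ≠ x ∧ v ≠ z) then f v else 0) =
        if v ∈ ρ then f v else 0 := by
      intro ρ
      simp [hv.1, hv.2]
    simp only [h2]
    rw [← Finset.sum_filter, Finset.sum_const, c1_card hL hxz hv.1 hv.2, two_nsmul]
    exact z2_add_self _
  · refine Finset.sum_eq_zero fun ρ _ => ?_
    rw [if_neg]
    rintro ⟨-, h⟩
    exact hv h

omit [Fintype V] in
theorem c1_filter {x z u v : V} (hxu : x ≠ u) (hxv : x ≠ v) (hzu : z ≠ u) (hzv : z ≠ v) :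
    ({x, z, u, v} : Finset V).filter (fun t => t ≠ x ∧ t ≠ z) = {u, v} := by
  ext t
  simp only [Finset.mem_filter, Finset.mem_insert, Finset.mem_singleton]
  constructor
  · rintro ⟨h | h | h | h, h1, h2⟩
    · exact absurd h h1
    · exact absurd h h2
    · exact Or.inl h
    · exact Or.inr h
  · rintro (h | h)
    · subst h
      exact ⟨Or.inr (Or.inr (Or.inl rfl)), hxu.symm, hzu.symm⟩
    · subst h
      exact ⟨Or.inr (Or.inr (Or.inr rfl)), hxv.symm, hzv.symm⟩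

omit [Fintype V] in
theorem c1_val {x z u v : V} {K : V → ZMod 2} (hxu : x ≠ u) (hzu : z ≠ u)
    (hKuv : K u = K v) : val K x z {x, z, u, v} = K u := by
  unfold val
  by_cases h : K u = 1
  · rw [if_pos, h]
    exact ⟨u, by simp, hxu.symm, hzu.symm, h⟩
  · rw [if_neg]
    · rcases z2_cases (K u) with h1 | h1
      · exact h1.symm
      · exact absurd h1 h
    · rintro ⟨t, ht, h1, h2, h3⟩
      simp only [Finset.mem_insert, Finset.mem_singleton] at ht
      rcases ht with ht | ht | ht | ht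
      · exact h1 ht
      · exact h2 ht
      · rw [ht] at h3; exact h h3
      · rw [ht, ← hKuv] at h3; exact h h3

/-- PROOF. Let `B := Reg L x z ∪ Spc L x z` (a disjoint union, by hues).  For `v ≠ x, z` exactly two
elements of `B` contain `v`: by `Good.two` for `x, z, v` they are `{x, z, v, u}`, `{x, z, v, u'}` with the two
`t` such that `Blk L x z v t` (and these sets are different, as `u ≠ u'`).  So
`∑ ρ ∈ B, ∑ v ∈ ρ with v ≠ x ∧ v ≠ z, K v * h v = ∑ v, 2 • (K v * h v) = 0` (`Finset.sum_comm`), that is, the sum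
over `Reg` equals the sum over `Spc`.  For `ρ = {x, z, u, v} ∈ Reg L x z` (`L.R x z u v`): `K u = K v`, so
`val K x z ρ = K u` and `K u * h u + K v * h v = K u * (h u + h v) = val K x z ρ * s ρ`. -/
theorem hand (hL : Good L) {x z : V} (hxz : x ≠ z) {s : Finset V → ZMod 2} {K h : V → ZMod 2}
    (hK : RC L x z K) (hh : Lab L s x z h) :
    ∑ ρ ∈ Reg L x z, val K x z ρ * s ρ =
      ∑ ρ ∈ Spc L x z, ∑ v ∈ ρ.filter (fun v => v ≠ x ∧ v ≠ z), K v * h v := by
  have h1 := c1_total hL hxz (fun v => K v * h v)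
  rw [Finset.sum_union (c1_disj hL x z)] at h1
  have h2 : ∑ ρ ∈ Reg L x z, ∑ v ∈ ρ.filter (fun v => v ≠ x ∧ v ≠ z), K v * h v =
      ∑ ρ ∈ Reg L x z, val K x z ρ * s ρ := by
    refine Finset.sum_congr rfl fun ρ hρ => ?_
    obtain ⟨u, v, hR, e⟩ := c1_mem_reg.1 hρ
    rw [e, c1_filter (hL.Rne_xz hR) (hL.Rne_xw hR) (hL.Rne_yz hR) (hL.Rne_yw hR),
      Finset.sum_pair (hL.Rne_zw hR), c1_val (hL.Rne_xz hR) (hL.Rne_yz hR) (hK u v hR),
      ← hh u v hR, hK u v hR]
    ring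
  rw [h2] at h1
  have key : ∀ a b : ZMod 2, a + b = 0 → a = b := by decide
  exact key _ _ h1

end Pool.Agent.Lib.H97Z
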