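import Pool.Agent.Lib.H97Z.C0
import Pool.Agent.Lib.H97Z.B2

/-! Chunk C3: sums over the special blocks around a vertex -/

set_option autoImplicit false

namespace Pool.Agent.Lib.H97Z

variable {V : Type} [Fintype V] [DecidableEq V] {L : Lev V}

theorem c3_two {T : Type} [Fintype T] {P : T → Prop} [DecidablePred P] {p q : T} (hpq : p ≠ q) (hp : P p) (hq : P q)
    (hall : ∀ t, P t → t = p ∨ t = q) (f : T → ZMod 2) :
    ∑ t : T, (if P t then f t else 0) = f p + f q := by
  classical
  rw [← Finset.sum_filter]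
  have h : Finset.univ.filter (fun t => P t) = {p, q} := by
    ext t
    rw [Finset.mem_filter, Finset.mem_insert, Finset.mem_singleton]
    constructor
    · rintro ⟨-, h⟩
      exact hall t h
    · rintro (h | h)
      · rw [h]; exact ⟨Finset.mem_univ _, hp⟩
      · rw [h]; exact ⟨Finset.mem_univ _, hq⟩
  rw [h, Finset.sum_pair hpq]

theorem c3_one {T : Type} [Fintype T] {P : T → Prop} [DecidablePred P] {p : T} (hp : P p)
    (hall : ∀ t, P t → t = p) (f : T → ZMod 2) :
    ∑ t : T, (if P t then f t else 0) = f p := by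
  classical
  rw [← Finset.sum_filter]
  have h : Finset.univ.filter (fun t => P t) = {p} := by
    ext t
    rw [Finset.mem_filter, Finset.mem_singleton]
    constructor
    · rintro ⟨-, h⟩
      exact hall t h
    · intro h
      rw [h]; exact ⟨Finset.mem_univ _, hp⟩
  rw [h, Finset.sum_singleton]

open Classical in
/-- the sum over `Nb` as a triple sum -/
theorem c3_Nb (x : V) (f : V → V → V → ZMod 2) : ∑ t ∈ Nb L x, f t.1 t.2.1 t.2.2 =
    ∑ y, ∑ z, ∑ w, if L.S x y z w ∧ L.hue z = L.hue x then f y z w else 0 := by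
  unfold Nb
  rw [Finset.sum_filter, Fintype.sum_prod_type]
  refine Finset.sum_congr rfl fun y _ => ?_
  rw [Fintype.sum_prod_type]

/-- In `ZMod 2` the number of vertices of the other hue is `0`. -/
theorem c3_even (hL : Good L) (h : ZMod 2) :
    ∑ y : V, (if L.hue y = h then (1 : ZMod 2) else 0) = 0 := by
  rw [← Finset.sum_filter, Finset.sum_const, nsmul_eq_mul, mul_one]
  exact (ZMod.natCast_eq_zero_iff_even).2 (hL.even h)

open Classical in
theorem c3_G (hL : Good L) {x u u' : V} (hR : RotAt L x u u') (y : V) :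
    ∑ z, ∑ w, (if L.S x y z w ∧ L.hue z = L.hue x then L.b x y z w else 0) =
      (if L.hue y = L.hue x + 1 then (1 : ZMod 2) else 0) + (if y = u then L.c x u else 0) +
        (if y = u' then L.c x u' else 0) := by
  rw [← Fintype.sum_prod_type' (f := fun z w =>
    if L.S x y z w ∧ L.hue z = L.hue x then L.b x y z w else 0)]
  by_cases hF : L.F x y
  · have hy := z2_ne' (hL.Fhue _ _ hF)
    obtain ⟨p, q, a, d, hB⟩ := hL.bd x y hF
    rw [c3_one (P := fun t : V × V => L.S x y t.1 t.2 ∧ L.hue t.1 = L.hue x) (p := (a, d))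
      ⟨hB.t1, hB.ha⟩ (fun t ht => by
        obtain ⟨h1, h2⟩ := hB.tall _ _ ht.1 ht.2
        exact Prod.ext h1 h2) (fun t => L.b x y t.1 t.2)]
    have hc := hB.c
    have hb : L.b x y a d = 1 + L.c x y := by
      rw [hc]
      generalize L.b x y a d = t
      revert t
      decide
    show L.b x y a d = _
    rw [hb, if_pos hy]
    rcases hR.all y hF with h | h
    · rw [if_pos h, if_neg (fun h' => hR.ne (h.symm.trans h')), h, add_zero]
    · rw [if_neg (fun h' => hR.ne (h'.symm.trans h)), if_pos h, h, add_zero]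
  · have hyu : y ≠ u := fun h => hF (by rw [h]; exact hR.f1)
    have hyu' : y ≠ u' := fun h => hF (by rw [h]; exact hR.f2)
    rw [if_neg hyu, if_neg hyu', add_zero, add_zero]
    by_cases hy : L.hue y = L.hue x + 1
    · have hne : L.hue x ≠ L.hue y := by
        rw [hy]
        exact (z2_add_one_ne _).symm
      obtain ⟨p, q, p', q', a, d, a', d', hM⟩ := hL.mix x y hne hF
      have hpq : (a, d) ≠ (a', d') := by
        intro h
        rw [Prod.mk.injEq] at h
        have hb := hM.bit
        rw [h.1, h.2, z2_add_self] at hb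
        exact absurd hb (by decide)
      rw [c3_two (P := fun t : V × V => L.S x y t.1 t.2 ∧ L.hue t.1 = L.hue x) (p := (a, d))
        (q := (a', d')) hpq ⟨hM.t1, hM.ha⟩ ⟨hM.t2, hM.ha'⟩ (fun t ht => by
          rcases hM.tall _ _ ht.1 ht.2 with ⟨h1, h2⟩ | ⟨h1, h2⟩
          · exact Or.inl (Prod.ext h1 h2)
          · exact Or.inr (Prod.ext h1 h2)) (fun t => L.b x y t.1 t.2), if_pos hy]
      exact hM.bit
    · rw [if_neg hy]
      refine Finset.sum_eq_zero fun t _ => ?_
      rw [if_neg]
      rintro ⟨h, -⟩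
      exact hy (z2_ne' (hL.Shue _ _ _ _ h))

/-- PROOF. Group by `y` (`Finset.sum_fiberwise`): every `y` in `Nb L x` has a hue different from
`x`.  If `L.F x y` (that is `y = u` or `y = u'`) there is exactly one element `(y, z, w)` of `Nb L x`, with
`(z, w) = (a, d)` of `BdAt L x y`, and `L.b x y a d = L.c x y + 1`.  Otherwise there are exactly two, with
`(z, w) = (a, d), (a', d')` of `MixAt L x y`, and their bits have the sum `1` (`MixAt.bit`).  The number of
`y` with `L.hue y ≠ L.hue x`, `¬ L.F x y` is even (`Good.even` minus two).  So the sum is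
`(L.c x u + 1) + (L.c x u' + 1)`. -/
theorem sum_own (hL : Good L) {x u u' : V} (hR : RotAt L x u u') :
    ∑ t ∈ Nb L x, L.b x t.1 t.2.1 t.2.2 = L.c x u + L.c x u' := by
  rw [c3_Nb x (fun y z w => L.b x y z w)]
  simp only [c3_G hL hR]
  rw [Finset.sum_add_distrib, Finset.sum_add_distrib, c3_even hL, Finset.sum_ite_eq',
    Finset.sum_ite_eq', if_pos (Finset.mem_univ _), if_pos (Finset.mem_univ _), zero_add]

end Pool.Agent.Lib.H97Z
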