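import Pool.Agent.Lib.H97Z.C0
import Pool.Agent.Lib.H97Z.B2
import Pool.Agent.Lib.H97Z.C3

/-! Chunk C3b: sums over the special blocks around a vertex -/

set_option autoImplicit false

namespace Pool.Agent.Lib.H97Z

variable {V : Type} [Fintype V] [DecidableEq V] {L : Lev V}

open Classical in
/-- group by `z` -/
theorem c3b_z (_hL : Good L) {x z y w y' w' : V} (hz : L.hue x = L.hue z)
    (hP : PureAt L x z y w y' w') (f : V → V → ZMod 2) :
    ∑ p, ∑ q, (if L.S x p z q ∧ L.hue z = L.hue x then f p q else 0) = f y w + f y' w' := by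
  rw [← Fintype.sum_prod_type' (f := fun p q =>
    if L.S x p z q ∧ L.hue z = L.hue x then f p q else 0)]
  exact c3_two (P := fun t : V × V => L.S x t.1 z t.2 ∧ L.hue z = L.hue x) (p := (y, w))
    (q := (y', w')) (fun h => hP.ne (by
      rw [Prod.mk.injEq] at h; exact h)) ⟨hP.s1, hz.symm⟩ ⟨hP.s2, hz.symm⟩ (fun t ht => by
        rcases hP.all _ _ ht.1 with ⟨h1, h2⟩ | ⟨h1, h2⟩
        · exact Or.inl (Prod.ext h1 h2)
        · exact Or.inr (Prod.ext h1 h2)) (fun t => f t.1 t.2)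

open Classical in
/-- group by `w` -/
theorem c3b_w (hL : Good L) {x u u' : V} (hR : RotAt L x u u') (w : V) (a : ZMod 2) :
    ∑ y, ∑ z, (if L.S x y z w ∧ L.hue z = L.hue x then a else 0) =
      (if w = u then a else 0) + (if w = u' then a else 0) := by
  rw [← Fintype.sum_prod_type' (f := fun y z =>
    if L.S x y z w ∧ L.hue z = L.hue x then a else 0)]
  by_cases hF : L.F x w
  · obtain ⟨p, q, e, d, hB⟩ := hL.bd x w hF
    have h1 := (hL.Shue_ne hB.s1 (hL.Fhue _ _ hF)).1
    rw [c3_one (P := fun t : V × V => L.S x t.1 t.2 w ∧ L.hue t.2 = L.hue x) (p := (p, q))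
      ⟨hL.S_xywz hB.s1, h1⟩ (fun t ht => by
        obtain ⟨h1, h2⟩ := hB.all _ _ (hL.S_xywz ht.1)
        exact Prod.ext h1 h2) (fun _ => a)]
    rcases hR.all w hF with h | h
    · rw [if_pos h, if_neg (fun h' => hR.ne (h.symm.trans h')), add_zero]
    · rw [if_neg (fun h' => hR.ne (h'.symm.trans h)), if_pos h, zero_add]
  · have hyu : w ≠ u := fun h => hF (by rw [h]; exact hR.f1)
    have hyu' : w ≠ u' := fun h => hF (by rw [h]; exact hR.f2)
    rw [if_neg hyu, if_neg hyu', add_zero]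
    by_cases hw : L.hue x = L.hue w
    · refine Finset.sum_eq_zero fun t _ => ?_
      rw [if_neg]
      rintro ⟨h, h2⟩
      exact hL.Shue_zw h (h2.trans hw)
    · obtain ⟨p, q, p', q', e, d, e', d', hM⟩ := hL.mix x w hw hF
      have h1 := (hL.Shue_ne hM.s1 hw).1
      have h2 := (hL.Shue_ne hM.s2 hw).1
      rw [c3_two (P := fun t : V × V => L.S x t.1 t.2 w ∧ L.hue t.2 = L.hue x) (p := (p, q))
        (q := (p', q')) (fun h => hM.ne (by rw [Prod.mk.injEq] at h; exact h))
        ⟨hL.S_xywz hM.s1, h1⟩ ⟨hL.S_xywz hM.s2, h2⟩ (fun t ht => by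
          rcases hM.all _ _ (hL.S_xywz ht.1) with ⟨h1, h2⟩ | ⟨h1, h2⟩
          · exact Or.inl (Prod.ext h1 h2)
          · exact Or.inr (Prod.ext h1 h2)) (fun _ => a)]
      exact z2_add_self a

open Classical in
theorem c3b_Nbz (x : V) (f : V → V → V → ZMod 2) : ∑ t ∈ Nb L x, f t.1 t.2.1 t.2.2 =
    ∑ z, ∑ y, ∑ w, if L.S x y z w ∧ L.hue z = L.hue x then f y z w else 0 := by
  rw [c3_Nb, Finset.sum_comm]

open Classical in
theorem c3b_Nbw (x : V) (f : V → V → V → ZMod 2) : ∑ t ∈ Nb L x, f t.1 t.2.1 t.2.2 =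
    ∑ w, ∑ y, ∑ z, if L.S x y z w ∧ L.hue z = L.hue x then f y z w else 0 := by
  rw [c3_Nb]
  have h : ∀ y : V, ∑ z, ∑ w, (if L.S x y z w ∧ L.hue z = L.hue x then f y z w else 0) =
      ∑ w, ∑ z, (if L.S x y z w ∧ L.hue z = L.hue x then f y z w else 0) := fun y =>
    Finset.sum_comm
  simp only [h]
  rw [Finset.sum_comm]

/-- PROOF. The sum is `∑ t ∈ Nb L x, (g t.2.1 + g t.2.2)`.  Group the first part by `z`: for every `z ≠ x` of the
hue of `x` there are exactly two elements with this `z` (`PureAt.all`, `PureAt.ne`), so it is `0`.  Group the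
second part by `w`: `w` has the other hue, `L.S x y z w ↔ L.S x y w z`, so the elements with this `w` are
the special blocks with side `{x, w}`: two if `¬ L.F x w` (`MixAt.all`, `MixAt.ne`), one if `L.F x w`
(`BdAt.all`), that is for `w = u, u'`.  So the second part is `g u + g u'`. -/
theorem sum_ends (hL : Good L) {x u u' : V} (hR : RotAt L x u u') {g : V → ZMod 2}
    {l : V → V → V → ZMod 2} (hg : ∀ y z w, L.S x y z w → g z + g w = l y z w) :
    ∑ t ∈ Nb L x, l t.1 t.2.1 t.2.2 = g u + g u' := by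
  classical
  have h1 : ∑ t ∈ Nb L x, l t.1 t.2.1 t.2.2 = ∑ t ∈ Nb L x, (g t.2.1 + g t.2.2) := by
    refine Finset.sum_congr rfl fun t ht => ?_
    simp only [Nb, Finset.mem_filter] at ht
    exact (hg _ _ _ ht.2.1).symm
  rw [h1, Finset.sum_add_distrib]
  have h2 : ∑ t ∈ Nb L x, g t.2.1 = 0 := by
    rw [c3b_Nbz x (fun _ z _ => g z)]
    refine Finset.sum_eq_zero fun z _ => ?_
    by_cases hz : L.hue x = L.hue z
    · by_cases hxz : x = z
      · refine Finset.sum_eq_zero fun y _ => Finset.sum_eq_zero fun w _ => ?_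
        rw [if_neg]
        rintro ⟨h, -⟩
        exact hL.Sne_xz h hxz
      · obtain ⟨y, w, y', w', hP⟩ := hL.pure x z hxz hz
        rw [c3b_z hL hz hP (fun _ _ => g z)]
        exact z2_add_self _
    · refine Finset.sum_eq_zero fun y _ => Finset.sum_eq_zero fun w _ => ?_
      rw [if_neg]
      rintro ⟨-, h⟩
      exact hz h.symm
  have h3 : ∑ t ∈ Nb L x, g t.2.2 = g u + g u' := by
    rw [c3b_Nbw x (fun _ _ w => g w)]
    simp only [c3b_w hL hR]
    rw [Finset.sum_add_distrib, Finset.sum_ite_eq', Finset.sum_ite_eq',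
      if_pos (Finset.mem_univ _), if_pos (Finset.mem_univ _)]
  rw [h2, h3, zero_add]

/-- PROOF. `g` from `rotpot` with `l y z w := L.b z w x y` (`Good.b12`), `sum_ends`, `RotAt.bit`. -/
theorem sum_opp (hL : Good L) {x u u' : V} (hR : RotAt L x u u') :
    ∑ t ∈ Nb L x, L.b t.2.1 t.2.2 x t.1 = 1 + L.c x u + L.c x u' := by
  obtain ⟨g, hg⟩ := rotpot hL x (fun y z w => L.b z w x y) (fun y z w => hL.b12 _ _ _ _)
  rw [sum_ends hL hR (l := fun y z w => L.b z w x y) hg]
  exact hR.bit g hg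

end Pool.Agent.Lib.H97Z
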