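import Pool.Agent.Lib.H97Z.C4
import Pool.Agent.Lib.H97Z.C3
import Pool.Agent.Lib.H97Z.C3b

/-! Chunk C3d: the sum of the right sides over the mixed pairs at a vertex -/

set_option autoImplicit false

namespace Pool.Agent.Lib.H97Z

variable {V : Type} [Fintype V] [DecidableEq V] {L : Lev V}

open Classical in
theorem c3d_pt (hL : Good L) (D : Dat L) {x u u' : V} (hx : L.hue x = 0) (hR : RotAt L x u u')
    (z : V) : (if L.hue z = 1 then TT D x z else 0) =
      (∑ y, ∑ q, if L.S x y q z ∧ L.hue q = L.hue x then L.b x y q z + L.b q z x y else 0) +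
      (∑ a, ∑ d, if L.S x z a d ∧ L.hue a = L.hue x then L.b a d x z else 0) +
      (if z = u then L.c x u else 0) + (if z = u' then L.c x u' else 0) := by
  rw [← Fintype.sum_prod_type' (f := fun y q =>
    if L.S x y q z ∧ L.hue q = L.hue x then L.b x y q z + L.b q z x y else 0),
    ← Fintype.sum_prod_type' (f := fun a d =>
    if L.S x z a d ∧ L.hue a = L.hue x then L.b a d x z else 0)]
  by_cases hz : L.hue z = 1
  · have hne : L.hue x ≠ L.hue z := by rw [hx, hz]; exact zero_ne_one
    rw [if_pos hz]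
    by_cases hF : L.F x z
    · have hB := D.hq x z hx hz hF
      have h1 := (hL.Shue_ne hB.s1 hne).1
      rw [c3_one (P := fun t : V × V => L.S x t.1 t.2 z ∧ L.hue t.2 = L.hue x)
        (p := (D.qy x z, D.qw x z)) ⟨hL.S_xywz hB.s1, h1⟩ (fun t ht => by
          obtain ⟨h1, h2⟩ := hB.all _ _ (hL.S_xywz ht.1)
          exact Prod.ext h1 h2) (fun t => L.b x t.1 t.2 z + L.b t.2 z x t.1),
        c3_one (P := fun t : V × V => L.S x z t.1 t.2 ∧ L.hue t.1 = L.hue x)
        (p := (D.qa x z, D.qd x z)) ⟨hB.t1, hB.ha⟩ (fun t ht => by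
          obtain ⟨h1, h2⟩ := hB.tall _ _ ht.1 ht.2
          exact Prod.ext h1 h2) (fun t => L.b t.1 t.2 x z)]
      have hc : (if z = u then L.c x u else 0) + (if z = u' then L.c x u' else 0) = L.c x z := by
        rcases hR.all z hF with h | h
        · rw [if_pos h, if_neg (fun h' => hR.ne (h.symm.trans h')), h, add_zero]
        · rw [if_neg (fun h' => hR.ne (h'.symm.trans h)), if_pos h, h, zero_add]
      rw [add_assoc _ (if z = u then L.c x u else 0), hc, hB.c]
      unfold TT
      rw [if_neg hne, if_pos hF]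
      show _ = L.b x (D.qy x z) (D.qw x z) z + L.b (D.qw x z) z x (D.qy x z) +
        L.b (D.qa x z) (D.qd x z) x z + (L.b x z (D.qa x z) (D.qd x z) + 1)
      rw [hL.b34 x (D.qy x z) (D.qw x z) z, hL.b12 (D.qw x z) z x (D.qy x z)]
      ring
    · have hM := D.hm x z hx hz hF
      have h1 := (hL.Shue_ne hM.s1 hne).1
      have h2 := (hL.Shue_ne hM.s2 hne).1
      have hu : z ≠ u := fun h => hF (by rw [h]; exact hR.f1)
      have hu' : z ≠ u' := fun h => hF (by rw [h]; exact hR.f2)
      have hpq : (D.ma x z, D.md x z) ≠ (D.ma' x z, D.md' x z) := by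
        intro h
        rw [Prod.mk.injEq] at h
        have hb := hM.bit
        rw [h.1, h.2, z2_add_self] at hb
        exact absurd hb (by decide)
      rw [c3_two (P := fun t : V × V => L.S x t.1 t.2 z ∧ L.hue t.2 = L.hue x)
        (p := (D.my x z, D.mw x z)) (q := (D.my' x z, D.mw' x z))
        (fun h => hM.ne (by rw [Prod.mk.injEq] at h; exact h))
        ⟨hL.S_xywz hM.s1, h1⟩ ⟨hL.S_xywz hM.s2, h2⟩ (fun t ht => by
          rcases hM.all _ _ (hL.S_xywz ht.1) with ⟨h1, h2⟩ | ⟨h1, h2⟩
          · exact Or.inl (Prod.ext h1 h2)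
          · exact Or.inr (Prod.ext h1 h2)) (fun t => L.b x t.1 t.2 z + L.b t.2 z x t.1),
        c3_two (P := fun t : V × V => L.S x z t.1 t.2 ∧ L.hue t.1 = L.hue x)
        (p := (D.ma x z, D.md x z)) (q := (D.ma' x z, D.md' x z)) hpq
        ⟨hM.t1, hM.ha⟩ ⟨hM.t2, hM.ha'⟩ (fun t ht => by
          rcases hM.tall _ _ ht.1 ht.2 with ⟨h1, h2⟩ | ⟨h1, h2⟩
          · exact Or.inl (Prod.ext h1 h2)
          · exact Or.inr (Prod.ext h1 h2)) (fun t => L.b t.1 t.2 x z), if_neg hu, if_neg hu']
      unfold TT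
      rw [if_neg hne, if_neg hF]
      show _ = L.b x (D.my x z) (D.mw x z) z + L.b (D.mw x z) z x (D.my x z) +
        (L.b x (D.my' x z) (D.mw' x z) z + L.b (D.mw' x z) z x (D.my' x z)) +
        (L.b (D.ma x z) (D.md x z) x z + L.b (D.ma' x z) (D.md' x z) x z) + 0 + 0
      rw [hL.b34 x (D.my x z) (D.mw x z) z, hL.b12 (D.mw x z) z x (D.my x z),
        hL.b34 x (D.my' x z) (D.mw' x z) z, hL.b12 (D.mw' x z) z x (D.my' x z)]
      have two : (2 : ZMod 2) = 0 := rfl
      linear_combination two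
  · have hz0 : L.hue z = L.hue x := by
      rw [hx]
      exact (z2_cases _).resolve_right hz
    rw [if_neg hz, Finset.sum_eq_zero, Finset.sum_eq_zero, if_neg, if_neg]
    · ring
    · intro h
      exact hL.Fhue _ _ hR.f2 (by rw [← h, hz0])
    · intro h
      exact hL.Fhue _ _ hR.f1 (by rw [← h, hz0])
    · intro t _
      rw [if_neg]
      rintro ⟨h, -⟩
      exact hL.Shue _ _ _ _ h hz0.symm
    · intro t _
      rw [if_neg]
      rintro ⟨h, h2⟩
      exact hL.Shue_zw h (h2.trans hz0.symm)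

/-- PROOF. Let `RotAt L x u u'` (`Good.rot`).  For `L.hue z = 1` and `¬ L.F x z` the two constants `1` cancel and
`TT D x z` is the sum, over the two special blocks with side `{x, z}`, of both bits, plus the sum, over the
two special blocks with diagonal `{x, z}`, of the bit of the other diagonal.  For `L.F x z` the same holds
up to the additional summand `1 + L.b x z a d = L.c x z` (`BdAt.c`).  In terms of `Nb L x` (all
`(y, z', w)` with `L.S x y z' w`, `L.hue z' = L.hue x`; so `L.hue y = L.hue w = 1`): grouping by `w` gives the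
first part, `∑ t ∈ Nb L x, (L.b x t.1 t.2.1 t.2.2 + L.b t.2.1 t.2.2 x t.1)`, grouping by `y` the second part
`∑ t ∈ Nb L x, L.b t.2.1 t.2.2 x t.1`.  Total: `sum_own + (L.c x u + L.c x u') = 0`. -/
theorem mixed_sum (hL : Good L) (D : Dat L) {x : V} (hx : L.hue x = 0) :
    ∑ z ∈ Finset.univ.filter (fun z => L.hue z = 1), TT D x z = 0 := by
  classical
  obtain ⟨u, u', hR⟩ := hL.rot x
  rw [Finset.sum_filter]
  have h1 : ∑ z, (if L.hue z = 1 then TT D x z else 0) =
      (∑ z, ∑ y, ∑ q, if L.S x y q z ∧ L.hue q = L.hue x then L.b x y q z + L.b q z x y else 0) +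
      (∑ z, ∑ a, ∑ d, if L.S x z a d ∧ L.hue a = L.hue x then L.b a d x z else 0) +
      (∑ z, if z = u then L.c x u else 0) + (∑ z, if z = u' then L.c x u' else 0) := by
    rw [← Finset.sum_add_distrib, ← Finset.sum_add_distrib, ← Finset.sum_add_distrib]
    exact Finset.sum_congr rfl fun z _ => c3d_pt hL D hx hR z
  rw [h1, ← c3b_Nbw x (fun y q z => L.b x y q z + L.b q z x y),
    ← c3_Nb x (fun z a d => L.b a d x z), Finset.sum_add_distrib, sum_own hL hR, sum_opp hL hR,
    Finset.sum_ite_eq' Finset.univ u (fun _ => L.c x u),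
    Finset.sum_ite_eq' Finset.univ u' (fun _ => L.c x u'), if_pos (Finset.mem_univ _),
    if_pos (Finset.mem_univ _)]
  generalize L.c x u = a
  generalize L.c x u' = b
  revert a b
  decide

end Pool.Agent.Lib.H97Z
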