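import Pool.Agent.Lib.H97Z.C4

/-! Chunk C3e: the sum of the right sides over the unordered pure pairs -/

set_option autoImplicit false

namespace Pool.Agent.Lib.H97Z

variable {V : Type} [Fintype V] [DecidableEq V] {L : Lev V}

theorem c3e_two {T : Type} [Fintype T] {P : T → Prop} [DecidablePred P] {p q : T} (hpq : p ≠ q)
    (hp : P p) (hq : P q) (hall : ∀ t, P t → t = p ∨ t = q) (f : T → ZMod 2) :
    ∑ t, (if P t then f t else 0) = f p + f q := by
  classical
  rw [← Finset.sum_filter, show (Finset.univ.filter P) = {p, q} by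
    ext t
    simp only [Finset.mem_filter, Finset.mem_univ, true_and, Finset.mem_insert,
      Finset.mem_singleton]
    exact ⟨hall t, fun h => by rcases h with rfl | rfl <;> assumption⟩]
  exact Finset.sum_pair hpq

open Classical in
theorem c3e_TT (hL : Good L) (D : Dat L) {x z : V} (hxz : x ≠ z) (hh : L.hue x = L.hue z) :
    TT D x z = 1 + ∑ t : V × V, if L.S x t.1 z t.2 then
      (L.b x t.1 z t.2 + L.b z t.2 x t.1) else 0 := by
  obtain ⟨y, w, y', w', h⟩ := hL.pure x z hxz hh
  rw [TT_pure hL D hxz hh h]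
  rw [c3e_two (P := fun t : V × V => L.S x t.1 z t.2) (p := (y, w)) (q := (y', w'))
    (f := fun t => L.b x t.1 z t.2 + L.b z t.2 x t.1)]
  · ring
  · intro e
    exact h.ne ⟨congrArg Prod.fst e, congrArg Prod.snd e⟩
  · exact h.s1
  · exact h.s2
  · rintro ⟨p, q⟩ hpq
    rcases h.all p q hpq with ⟨rfl, rfl⟩ | ⟨rfl, rfl⟩
    · exact Or.inl rfl
    · exact Or.inr rfl

open Classical in
theorem c3e_inv (hL : Good L) (o : V → ℕ) (ho : Function.Injective o) :
    ∑ t ∈ (Finset.univ : Finset (V × V × V × V)).filter (fun t =>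
      L.S t.1 t.2.1 t.2.2.1 t.2.2.2 ∧ L.hue t.1 = L.hue t.2.2.1 ∧ o t.1 < o t.2.2.1),
      (L.b t.1 t.2.1 t.2.2.1 t.2.2.2 + L.b t.2.2.1 t.2.2.2 t.1 t.2.1) = 0 := by
  apply Finset.sum_involution (g := fun t _ =>
    if o t.2.1 < o t.2.2.2 then (t.2.1, t.1, t.2.2.2, t.2.2.1)
    else (t.2.2.2, t.2.2.1, t.2.1, t.1))
  · rintro ⟨x, y, z, w⟩ ht
    dsimp only
    split_ifs with h
    · dsimp only
      rw [hL.b12 y x w z, hL.b34 x y w z, hL.b12 w z y x, hL.b34 z w y x]
      exact z2_add_self _
    · dsimp only
      rw [hL.b12 w z y x, hL.b34 z w y x, hL.b12 y x w z, hL.b34 x y w z,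
        add_comm (L.b z w x y) (L.b x y z w)]
      exact z2_add_self _
  · rintro ⟨x, y, z, w⟩ ht _
    simp only [Finset.mem_filter, Finset.mem_univ, true_and] at ht
    dsimp only
    have h1 := (hL.Shue_eq ht.1 ht.2.1)
    split_ifs with h
    · intro e
      have : y = x := congrArg Prod.fst e
      exact hL.Shue _ _ _ _ ht.1 (by rw [this])
    · intro e
      have : w = x := congrArg Prod.fst e
      rw [this] at h1
      exact z2_add_one_ne _ h1.2.symm
  · rintro ⟨x, y, z, w⟩ ht
    simp only [Finset.mem_filter, Finset.mem_univ, true_and] at ht ⊢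
    have h1 := (hL.Shue_eq ht.1 ht.2.1)
    have h2 := hL.Sne_yw ht.1
    split_ifs with h
    · exact ⟨hL.S_yxwz ht.1, by rw [h1.1, h1.2], h⟩
    · refine ⟨hL.S_wzyx ht.1, by rw [h1.1, h1.2], ?_⟩
      have h3 : o y ≠ o w := fun e => h2 (ho e)
      exact lt_of_le_of_ne (not_lt.1 h) h3.symm
  · rintro ⟨x, y, z, w⟩ ht
    simp only [Finset.mem_filter, Finset.mem_univ, true_and] at ht
    dsimp only
    by_cases h : o y < o w
    · rw [if_pos h]
      exact if_pos ht.2.2
    · rw [if_neg h]
      exact if_neg (not_lt.2 (le_of_lt ht.2.2))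

open Classical in
theorem c3e_card (hL : Good L) (o : V → ℕ) (ho : Function.Injective o) :
    ∑ _t ∈ (Finset.univ : Finset (V × V)).filter (fun t =>
      L.hue t.1 = L.hue t.2 ∧ o t.1 < o t.2), (1 : ZMod 2) = 0 := by
  rw [Finset.sum_const, nsmul_eq_mul, mul_one]
  set N := ((Finset.univ : Finset (V × V)).filter (fun t =>
      L.hue t.1 = L.hue t.2 ∧ o t.1 < o t.2)).card with hN
  have h2 : ((Finset.univ : Finset (V × V)).filter (fun t =>
      L.hue t.1 = L.hue t.2 ∧ o t.2 < o t.1)).card = N := by
    rw [hN]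
    refine Finset.card_bij' (fun t _ => (t.2, t.1)) (fun t _ => (t.2, t.1)) ?_ ?_ ?_ ?_
    · rintro ⟨x, z⟩ ht
      simp only [Finset.mem_filter, Finset.mem_univ, true_and] at ht ⊢
      exact ⟨ht.1.symm, ht.2⟩
    · rintro ⟨x, z⟩ ht
      simp only [Finset.mem_filter, Finset.mem_univ, true_and] at ht ⊢
      exact ⟨ht.1.symm, ht.2⟩
    · rintro ⟨x, z⟩ _
      rfl
    · rintro ⟨x, z⟩ _
      rfl
  have h3 : ((Finset.univ : Finset (V × V)).filter (fun t => L.hue t.1 = L.hue t.2)).card
      = N + N + Fintype.card V := by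
    have e : ((Finset.univ : Finset (V × V)).filter (fun t => L.hue t.1 = L.hue t.2)) =
      ((Finset.univ : Finset (V × V)).filter (fun t =>
      L.hue t.1 = L.hue t.2 ∧ o t.1 < o t.2)) ∪
      ((Finset.univ : Finset (V × V)).filter (fun t =>
      L.hue t.1 = L.hue t.2 ∧ o t.2 < o t.1)) ∪
      (Finset.univ.image fun x : V => (x, x)) := by
      ext ⟨x, z⟩
      simp only [Finset.mem_filter, Finset.mem_univ, true_and, Finset.mem_union,
        Finset.mem_image, Prod.mk.injEq]
      constructor
      · intro h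
        rcases lt_trichotomy (o x) (o z) with h1 | h1 | h1
        · exact Or.inl (Or.inl ⟨h, h1⟩)
        · exact Or.inr ⟨x, rfl, ho h1⟩
        · exact Or.inl (Or.inr ⟨h, h1⟩)
      · rintro ((h | h) | ⟨a, rfl, rfl⟩)
        · exact h.1
        · exact h.1
        · rfl
    rw [e, Finset.card_union_of_disjoint, Finset.card_union_of_disjoint, h2, ← hN,
      Finset.card_image_of_injective, Finset.card_univ]
    · intro a b hab
      exact congrArg Prod.fst hab
    · rw [Finset.disjoint_left]
      rintro ⟨x, z⟩ h1 h2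
      simp only [Finset.mem_filter, Finset.mem_univ, true_and] at h1 h2
      omega
    · rw [Finset.disjoint_left]
      rintro ⟨x, z⟩ h1 h2
      simp only [Finset.mem_filter, Finset.mem_univ, true_and, Finset.mem_union,
        Finset.mem_image, Prod.mk.injEq] at h1 h2
      obtain ⟨a, rfl, rfl⟩ := h2
      rcases h1 with h1 | h1
      · exact lt_irrefl _ h1.2
      · exact lt_irrefl _ h1.2
  have h4 : ((Finset.univ : Finset (V × V)).filter (fun t => L.hue t.1 = L.hue t.2)).card
      = (Finset.univ.filter fun v => L.hue v = 0).card ^ 2 +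
        (Finset.univ.filter fun v => L.hue v = 1).card ^ 2 := by
    have e : ((Finset.univ : Finset (V × V)).filter (fun t => L.hue t.1 = L.hue t.2)) =
      ((Finset.univ.filter fun v => L.hue v = 0) ×ˢ (Finset.univ.filter fun v => L.hue v = 0)) ∪
      ((Finset.univ.filter fun v => L.hue v = 1) ×ˢ
        (Finset.univ.filter fun v => L.hue v = 1)) := by
      ext ⟨x, z⟩
      simp only [Finset.mem_filter, Finset.mem_univ, true_and, Finset.mem_union,
        Finset.mem_product]
      constructor
      · intro h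
        rcases z2_cases (L.hue x) with h1 | h1
        · exact Or.inl ⟨h1, by rw [← h]; exact h1⟩
        · exact Or.inr ⟨h1, by rw [← h]; exact h1⟩
      · rintro (h | h)
        · rw [h.1, h.2]
        · rw [h.1, h.2]
    rw [e, Finset.card_union_of_disjoint, Finset.card_product, Finset.card_product]
    · ring
    · rw [Finset.disjoint_left]
      rintro ⟨x, z⟩ h1 h2
      simp only [Finset.mem_filter, Finset.mem_univ, true_and, Finset.mem_product] at h1 h2
      rw [h1.1] at h2
      exact absurd h2.1 (by decide)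
  have h5 : Fintype.card V = (Finset.univ.filter fun v => L.hue v = 0).card +
        (Finset.univ.filter fun v => L.hue v = 1).card := by
    rw [← Finset.card_univ, ← Finset.card_union_of_disjoint]
    · congr 1
      ext v
      simp only [Finset.mem_univ, Finset.mem_union, Finset.mem_filter, true_and, true_iff]
      exact z2_cases _
    · rw [Finset.disjoint_left]
      intro v h1 h2
      simp only [Finset.mem_filter, Finset.mem_univ, true_and] at h1 h2
      rw [h1] at h2
      exact absurd h2 (by decide)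
  obtain ⟨a, ha⟩ := hL.four 0
  obtain ⟨b, hb⟩ := hL.four 1
  rw [h3, h5, ha, hb] at h4
  have h6 : Even N := by
    refine ⟨?_, ?_⟩
    · exact 4 * a ^ 2 + 4 * b ^ 2 - a - b
    · have e1 : a ≤ a ^ 2 := Nat.le_self_pow (by norm_num) a
      have e2 : b ≤ b ^ 2 := Nat.le_self_pow (by norm_num) b
      have e3 : N + N + (4 * a + 4 * b) = 16 * a ^ 2 + 16 * b ^ 2 := by
        rw [h4]; ring
      omega
  exact (ZMod.natCast_eq_zero_iff_even).2 h6

/-- PROOF. By `TT_pure` and `PureAt.all`, `PureAt.ne`: for a pure pair `TT D x z` is `1` plus the sum of both bits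
over the two special blocks with side `{x, z}`, that is over all `(y, w)` with `L.S x y z w`.  The number of
pairs `o x < o z`, `L.hue x = L.hue z`, is the sum of `n (n - 1) / 2` over the two hues, `n` divisible by `4`
(`Good.four`): it is even.  The rest is the sum of `L.b x y z w + L.b z w x y` over the set `Q` of all
`(x, y, z, w)` with `L.S x y z w`, `L.hue x = L.hue z`, `o x < o z`.  It is `0` by `Finset.sum_involution` for
`(x, y, z, w) ↦ (y, x, w, z)` if `o y < o w`, and `(w, z, y, x)` if `o w < o y`: this is an involution of `Q`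
without fixed points (the hue of the first entry changes, `Good.Shue`) which does not change the summand
(`Good.b12`, `Good.b34`); `y ≠ w` by `Good.Sne_yw`. -/
theorem pure_tot (hL : Good L) (D : Dat L) (o : V → ℕ) (ho : Function.Injective o) :
    ∑ x, ∑ z, (if x ≠ z ∧ L.hue x = L.hue z ∧ o x < o z then TT D x z else 0) = 0 := by
  classical
  have h1 : ∀ x z, (if x ≠ z ∧ L.hue x = L.hue z ∧ o x < o z then TT D x z else 0) =
      (if L.hue x = L.hue z ∧ o x < o z then (1 : ZMod 2) else 0) +
      ∑ y, ∑ w, (if L.S x y z w ∧ L.hue x = L.hue z ∧ o x < o z then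
        (L.b x y z w + L.b z w x y) else 0) := by
    intro x z
    by_cases h : L.hue x = L.hue z ∧ o x < o z
    · have hxz : x ≠ z := fun e => lt_irrefl _ (by rw [e] at h; exact h.2)
      rw [if_pos ⟨hxz, h⟩, if_pos h, c3e_TT hL D hxz h.1, Fintype.sum_prod_type]
      congr 1
      refine Finset.sum_congr rfl fun y _ => Finset.sum_congr rfl fun w _ => ?_
      by_cases hS : L.S x y z w
      · rw [if_pos hS, if_pos ⟨hS, h⟩]
      · rw [if_neg hS, if_neg (fun e => hS e.1)]
    · rw [if_neg (fun e => h e.2), if_neg h, zero_add]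
      symm
      refine Finset.sum_eq_zero fun y _ => Finset.sum_eq_zero fun w _ => ?_
      rw [if_neg (fun e => h e.2)]
  rw [Finset.sum_congr rfl fun x _ => Finset.sum_congr rfl fun z _ => h1 x z]
  simp only [Finset.sum_add_distrib]
  have h2 := c3e_card hL o ho
  rw [Finset.sum_filter, Fintype.sum_prod_type] at h2
  have h3 := c3e_inv hL o ho
  rw [Finset.sum_filter, Fintype.sum_prod_type] at h3
  simp only [Fintype.sum_prod_type] at h3
  rw [h2, zero_add]
  refine Eq.trans ?_ h3
  refine Finset.sum_congr rfl fun x _ => ?_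
  rw [Finset.sum_comm]

end Pool.Agent.Lib.H97Z
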