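import Pool.Agent.Lib.H97Z.C6

/-! Chunk C7: consequences of the dual condition -/

set_option autoImplicit false

namespace Pool.Agent.Lib.H97Z

variable {V : Type} [Fintype V] [DecidableEq V] {L : Lev V}

/-- PROOF. `KG L ρ₀ ρ₁ (GG D y₁ y₂) e₀ e₁` by `GG_sym`, `GG_rc`, `GG_pure`, `GG_dia`, `GG_rel`; apply `KP`. -/
theorem dual_const (hL : Good L) (D : Dat L) {ρ₀ ρ₁ : Finset V} (hK : KP L ρ₀ ρ₁)
    {y₁ y₂ : V → V → ZMod 2} {e₀ e₁ : ZMod 2} (hd : ∀ ρ, DualAt D ρ₀ ρ₁ y₁ y₂ e₀ e₁ ρ) :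
    e₀ = 0 ∧ e₁ = 0 ∧ ∃ m,
      ∀ x z v, L.hue x ≠ L.hue z → v ≠ x → v ≠ z → GG D y₁ y₂ x z v = m :=
  hK (GG D y₁ y₂) e₀ e₁
    { sym := fun x z v => GG_sym D y₁ y₂ x z v
      rc := fun _ _ _ _ h => GG_rc hL D y₁ y₂ h
      pure := fun _ _ u v _ hh _ _ _ _ => GG_pure D y₁ y₂ hh u v
      dia := fun _ _ _ _ h => GG_dia hL D y₁ y₂ h
      rel := fun _ _ _ _ h => GG_rel hL D ρ₀ ρ₁ y₁ y₂ e₀ e₁ h (hd _) }

theorem c7_act1 {x z : V} (hx : L.hue x = 0) (hz : L.hue z = 1) : act1 L x z := by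
  refine ⟨?_, Or.inr ⟨hx, hz⟩⟩
  intro e
  rw [e, hz] at hx
  exact absurd hx (by decide)

theorem c7_nact1 {x z : V} (hx : L.hue x = 0) (hz : L.hue z = 1) : ¬ act1 L z x := by
  rintro ⟨-, h | h⟩
  · rw [hx, hz] at h
    exact absurd h (by decide)
  · have := h.1
    rw [hz] at this
    exact absurd this (by decide)

theorem c7_nact2 {x z : V} (hz : L.hue z = 1) : ¬ act2 L z x := by
  rintro ⟨h, -⟩
  rw [hz] at h
  exact absurd h (by decide)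

theorem c7_YY0 (D : Dat L) (y₁ y₂ : V → V → ZMod 2) {x z : V} (v : V)
    (hx : L.hue x = 0) (hz : L.hue z = 1) : YY D y₁ y₂ z x v = 0 := by
  unfold YY
  rw [if_neg (c7_nact1 hx hz), if_neg (c7_nact2 hz), add_zero]

/-- PROOF. For `L.hue x = 0`, `L.hue z = 1` only `YY D y₁ y₂ x z` contributes to `GG D y₁ y₂ x z`:
`y₁ x z + y₂ x z * D.κ x z v = m`; take `v := D.mw x z` (`κ = 0`) and `v := D.mw' x z` (`κ = 1`). -/
theorem dual_mix (hL : Good L) (D : Dat L) {y₁ y₂ : V → V → ZMod 2} {m : ZMod 2}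
    (h0 : ∀ x z v, L.hue x ≠ L.hue z → v ≠ x → v ≠ z → GG D y₁ y₂ x z v = m) {x z : V}
    (hx : L.hue x = 0) (hz : L.hue z = 1) (hF : ¬ L.F x z) : y₁ x z = m ∧ y₂ x z = 0 := by
  have hne : L.hue x ≠ L.hue z := by rw [hx, hz]; decide
  have hM := D.hm x z hx hz hF
  obtain ⟨-, k1, -, -, -, k2, -⟩ := D.hκ x z hx hz hF
  have e1 := h0 x z (D.mw x z) hne (Ne.symm (hL.Sne_xw hM.s1)) (Ne.symm (hL.Sne_zw hM.s1))
  have e2 := h0 x z (D.mw' x z) hne (Ne.symm (hL.Sne_xw hM.s2)) (Ne.symm (hL.Sne_zw hM.s2))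
  have ha2 : act2 L x z := ⟨hx, hz, hF⟩
  unfold GG at e1 e2
  rw [c7_YY0 D y₁ y₂ _ hx hz, add_zero] at e1 e2
  unfold YY at e1 e2
  rw [if_pos (c7_act1 hx hz), if_pos ha2, k1, mul_zero, add_zero] at e1
  rw [if_pos (c7_act1 hx hz), if_pos ha2, k2, mul_one] at e2
  refine ⟨e1, ?_⟩
  rw [e1] at e2
  exact add_eq_left.mp e2

/-- PROOF. `GG D y₁ y₂ x z v = y₁ x z` in this case; take `v := D.qy x z`. -/
theorem dual_bd (hL : Good L) (D : Dat L) {y₁ y₂ : V → V → ZMod 2} {m : ZMod 2}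
    (h0 : ∀ x z v, L.hue x ≠ L.hue z → v ≠ x → v ≠ z → GG D y₁ y₂ x z v = m) {x z : V}
    (hx : L.hue x = 0) (hz : L.hue z = 1) (hF : L.F x z) : y₁ x z = m := by
  have hne : L.hue x ≠ L.hue z := by rw [hx, hz]; decide
  have hM := D.hq x z hx hz hF
  have e1 := h0 x z (D.qy x z) hne (Ne.symm (hL.Sne_xy hM.s1)) (hL.Sne_yz hM.s1)
  unfold GG at e1
  rw [c7_YY0 D y₁ y₂ _ hx hz, add_zero] at e1
  unfold YY at e1
  rw [if_pos (c7_act1 hx hz), if_neg (fun h : act2 L x z => h.2.2 hF), add_zero] at e1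
  exact e1

end Pool.Agent.Lib.H97Z
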