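import Pool.Agent.Lib.H97Z.D1

/-! Chunk C8: cocycles on pairs are coboundaries -/

set_option autoImplicit false

namespace Pool.Agent.Lib.H97Z

variable {V : Type} [Fintype V] [DecidableEq V] {L : Lev V}

theorem c8_tri (hL : Good L) {x y z : V} (hxy : x ≠ y) (hxz : x ≠ z) (hyz : y ≠ z)
    (h1 : L.hue x = L.hue y) (h2 : L.hue y = L.hue z) : ∃ w, L.R x y z w := by
  obtain ⟨u, -, -, hu, -, -⟩ := hL.two x y z hxy hxz hyz
  rcases hu with h | h | h | h
  · exact ⟨u, h⟩
  · exact absurd h1 (hL.Shue _ _ _ _ h)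
  · exact absurd (h1.trans h2) (hL.Shue _ _ _ _ h)
  · exact absurd h2 (hL.Shue _ _ _ _ (hL.Sdd _ _ _ _ h))

theorem c8_z2 {a b c : ZMod 2} (h : a + b + c = 0) : a = b + c := by
  revert a b c
  decide

theorem c8_base (hL : Good L) (h : ZMod 2) : ∃ v, L.hue v = h := by
  have h1 := hL.big h
  have h2 : 0 < (Finset.univ.filter fun v => L.hue v = h).card := by omega
  obtain ⟨v, hv⟩ := Finset.card_pos.mp h2
  exact ⟨v, (Finset.mem_filter.mp hv).2⟩

/-- PROOF. The first part of the proof of `cob`. -/
theorem cob_pure (hL : Good L) (T : V → V → ZMod 2) (hs : ∀ x z, T x z = T z x)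
    (hT : ∀ x y z w, L.R x y z w → L.hue x = L.hue y → L.hue y = L.hue z →
      T x y + T y z + T x z = 0) :
    ∃ r : V → ZMod 2, ∀ x z, x ≠ z → L.hue x = L.hue z → T x z = r x + r z := by
  choose base hbase using c8_base hL
  refine ⟨fun x => if x = base (L.hue x) then 0 else T x (base (L.hue x)), ?_⟩
  intro x z hxz hh
  simp only
  rw [← hh]
  by_cases hx : x = base (L.hue x)
  · rw [if_pos hx, zero_add]
    have hz : z ≠ base (L.hue x) := fun e => hxz (hx.trans e.symm)
    rw [if_neg hz, ← hx, hs]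
  · rw [if_neg hx]
    by_cases hz : z = base (L.hue x)
    · rw [if_pos hz, add_zero, ← hz]
    · rw [if_neg hz]
      have hb : L.hue (base (L.hue x)) = L.hue x := hbase _
      obtain ⟨w, hw⟩ := c8_tri hL hxz hx hz hh (hh.symm.trans hb.symm)
      have h1 := hT _ _ _ _ hw hh (hh.symm.trans hb.symm)
      have h2 : T x z = T z (base (L.hue x)) + T x (base (L.hue x)) := c8_z2 h1
      rw [h2, add_comm]

/-- PROOF. If `x, y, z` have equal hue and are distinct, then they lie in a regular block
(`Good.two`: `Blk L x y z t` for some `t`; a special block has two vertices of each hue), so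
`T x y + T y z + T x z = 0`.
Fix `a₀` of hue `0` and `b₀` of hue `1` (`Good.big`).  Put `r x := T x a₀` for `x` of hue `0`, `x ≠ a₀`,
`r a₀ := 0`, `r x := T x b₀` for `x` of hue `1`, `x ≠ b₀`, `r b₀ := 0`.  Then `T x z = r x + r z` for pure pairs.
For `d` fixed and `x`, `y` of the other hue with `L.R x y z d`, `L.hue x = L.hue y ≠ L.hue d`:
`T x d + r x = T y d + r y` (relation for `x, y, d`).  By `Good.ni` (with the function `fun x => T x d + r x`)
`T x d + r x` is the same for all `x` with `L.hue x ≠ L.hue d`.  So `T x d + r x + r d` does not depend on `x`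
(hue `0`) for `d` of hue `1` fixed and, by symmetry, not on `d` for `x` fixed: it is a constant `k` on
all pairs with `L.hue x = 0`, `L.hue d = 1`.  Replace `r` by `r + k` on the vertices of hue `1`. -/
theorem cob (hL : Good L) (T : V → V → ZMod 2) (hs : ∀ x z, T x z = T z x)
    (hT : ∀ x y z w, L.R x y z w → T x y + T y z + T x z = 0) :
    ∃ r : V → ZMod 2, ∀ x z, x ≠ z → T x z = r x + r z := by
  obtain ⟨r, hr⟩ := cob_pure hL T hs (fun x y z w h _ _ => hT x y z w h)
  have key : ∀ d x y, L.hue x ≠ L.hue d → L.hue y ≠ L.hue d → T x d + r x = T y d + r y := by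
    intro d
    apply hL.ni d (fun x => T x d + r x)
    intro x y z h hxy hxd
    have h1 := hT _ _ _ _ (hL.R_xywz h)
    have h2 := hr x y (hL.Rne _ _ _ _ h) hxy
    rw [h2] at h1
    revert h1
    generalize T x d = a
    generalize T y d = b
    generalize r x = p
    generalize r y = q
    revert a b p q
    decide
  obtain ⟨a₀, ha₀⟩ := c8_base hL 0
  obtain ⟨b₀, hb₀⟩ := c8_base hL 1
  have hmix : ∀ x d, L.hue x = 0 → L.hue d = 1 →
      T x d = r x + r d + (T a₀ b₀ + r a₀ + r b₀) := by
    intro x d hx hd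
    have h1 := key d x a₀ (by rw [hx, hd]; decide) (by rw [ha₀, hd]; decide)
    have h2 := key a₀ d b₀ (by rw [hd, ha₀]; decide) (by rw [hb₀, ha₀]; decide)
    rw [hs d a₀, hs b₀ a₀] at h2
    revert h1 h2
    generalize T x d = a
    generalize T a₀ d = b
    generalize T a₀ b₀ = c
    generalize r x = p
    generalize r d = q
    generalize r a₀ = s
    generalize r b₀ = t
    revert a b c p q s t
    decide
  refine ⟨fun x => r x + L.hue x * (T a₀ b₀ + r a₀ + r b₀), ?_⟩
  intro x z hxz
  simp only
  rcases z2_cases (L.hue x) with hx | hx <;> rcases z2_cases (L.hue z) with hz | hz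
  · rw [hr x z hxz (hx.trans hz.symm), hx, hz, zero_mul, add_zero, add_zero]
  · rw [hmix x z hx hz, hx, hz, zero_mul, one_mul, add_zero]
    ring
  · rw [hs, hmix z x hz hx, hx, hz, zero_mul, one_mul, add_zero]
    ring
  · rw [hr x z hxz (hx.trans hz.symm), hx, hz, one_mul]
    have := z2_add_self (T a₀ b₀ + r a₀ + r b₀)
    linear_combination -this

end Pool.Agent.Lib.H97Z
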