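import Pool.Agent.Lib.H97Z.C3c
import Pool.Agent.Lib.H97Z.C3d
import Pool.Agent.Lib.H97Z.C3e
import Pool.Agent.Lib.H97Z.C7
import Pool.Agent.Lib.H97Z.C8

/-! Chunk C9: the dual vector is orthogonal to the right side -/

set_option autoImplicit false

namespace Pool.Agent.Lib.H97Z

variable {V : Type} [Fintype V] [DecidableEq V] {L : Lev V}

omit [DecidableEq V] in
theorem c9_sym (f : V → V → ZMod 2) (hs : ∀ x z, f x z = f z x) (h0 : ∀ x, f x x = 0) :
    ∑ x, ∑ z, f x z = 0 := by
  rw [← Fintype.sum_prod_type' f]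
  apply Finset.sum_involution (g := fun t _ => (t.2, t.1))
  · rintro ⟨x, z⟩ _
    dsimp only
    rw [hs z x]
    exact z2_add_self _
  · rintro ⟨x, z⟩ _ hne e
    have e1 : z = x := congrArg Prod.fst e
    apply hne
    dsimp only
    rw [e1]
    exact h0 x
  · rintro ⟨x, z⟩ _
    exact Finset.mem_univ _
  · rintro ⟨x, z⟩ _
    rfl

theorem c9_TT (hL : Good L) (D : Dat L) {x z : V} (hxz : x ≠ z) (hh : L.hue x = L.hue z) :
    TT D x z = TT D z x := by
  classical
  rw [c3e_TT hL D hxz hh, c3e_TT hL D hxz.symm hh.symm]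
  congr 1
  refine Fintype.sum_equiv (Equiv.prodComm V V) _ _ ?_
  rintro ⟨y, w⟩
  show (if L.S x y z w then L.b x y z w + L.b z w x y else 0) =
    (if L.S z w x y then L.b z w x y + L.b x y z w else 0)
  by_cases h : L.S x y z w
  · rw [if_pos h, if_pos (hL.S_zwxy h), add_comm]
  · rw [if_neg h, if_neg (fun e => h (hL.S_zwxy e))]

omit [Fintype V] [DecidableEq V] in
theorem c9_GG (D : Dat L) (y₁ y₂ : V → V → ZMod 2) {x z : V} (v : V)
    (hxz : x ≠ z) (hh : L.hue x = L.hue z) : GG D y₁ y₂ x z v = y₁ x z + y₁ z x := by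
  unfold GG YY
  have h1 : act1 L x z := ⟨hxz, Or.inl hh⟩
  have h2 : act1 L z x := ⟨hxz.symm, Or.inl hh.symm⟩
  have h3 : ¬ act2 L x z := by
    rintro ⟨a, b, -⟩
    rw [a, b] at hh
    exact absurd hh (by decide)
  have h4 : ¬ act2 L z x := by
    rintro ⟨a, b, -⟩
    rw [a, b] at hh
    exact absurd hh (by decide)
  rw [if_pos h1, if_pos h2, if_neg h3, if_neg h4, add_zero, add_zero]

theorem c9_a1 (a b c m : ZMod 2) : a * c = (a + b + m) * c + b * c + m * c := by
  revert a b c m
  decide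

theorem c9_a2 (a b c m : ZMod 2) : a * c = (a + b + 0) * c + b * c + m * 0 := by
  revert a b c m
  decide

theorem c9_a3 {a b c d e f m : ZMod 2} (h2 : c + d + m = e + f) (h3 : a + b = m) :
    c + e + a = d + f + b := by
  revert a b c d e f m
  decide

theorem c9_alg {a b c m : ZMod 2} {p q r : ZMod 2}
    (h : p + q + m + r + m + m = 0) (ha : a = p + m) (hb : b = r + m) (hc : c = q + m) :
    a + b + c = 0 := by
  subst ha hb hc
  revert p q r m
  decide

open Classical in
/-- PROOF. `dual_const`, `dual_mix`, `dual_bd`: all `y₂ x z` with `act2 L x z` vanish, `y₁ x z = m` if `act1 L x z` and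
`L.hue x ≠ L.hue z`, `e₀ = e₁ = 0`.  The mixed part of the first sum is `m` times the sum over all `x` of hue
`0` of `mixed_sum`, so it is `0`.  Pure part: `T x z := y₁ x z + y₁ z x + m` (for `x ≠ z` pure) satisfies
`T x y + T y z + T x z = 0` for `L.R x y z w` with `x, y, z` of equal hue: this is `GG_rel` (with `e₀ = e₁ = 0`), the three
mixed terms are `m` and `GG D y₁ y₂ x z v = y₁ x z + y₁ z x`.  `cob_pure`: `T x z = r x + r z`.  Let `o : V → ℕ` be
injective (`Fintype.equivFin`) and `q x z := y₁ x z + r x + (if o x < o z then m else 0)`; then `q x z = q z x` for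
pure pairs `x ≠ z` and `TT D x z = TT D z x` (`TT_pure`, `PureAt.symm`), so
`∑ x, ∑ z, [x ≠ z pure] q x z * TT D x z = 0` (cancel `(x, z)` against `(z, x)`).  And
`∑ x, ∑ z, [x ≠ z pure] r x * TT D x z = ∑ x, r x * ∑ z, ... = 0` by `rx` and `TT_pure`, and
`∑ x, ∑ z, [x ≠ z pure, o x < o z] m * TT D x z = 0` by `pure_tot`. -/
theorem dual_rhs (hL : Good L) (D : Dat L) {ρ₀ ρ₁ : Finset V} (hK : KP L ρ₀ ρ₁)
    {y₁ y₂ : V → V → ZMod 2} {e₀ e₁ : ZMod 2} (hd : ∀ ρ, DualAt D ρ₀ ρ₁ y₁ y₂ e₀ e₁ ρ)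
    (t₀ t₁ : ZMod 2) :
    (∑ x, ∑ z, if act1 L x z then y₁ x z * TT D x z else 0) +
      (∑ x, ∑ z, if act2 L x z then y₂ x z * KK D x z else 0) + e₀ * t₀ + e₁ * t₁ = 0 := by
  obtain ⟨he0, he1, m, hm⟩ := dual_const hL D hK hd
  have hmix : ∀ x z, L.hue x = 0 → L.hue z = 1 → y₁ x z = m := by
    intro x z hx hz
    by_cases hF : L.F x z
    · exact dual_bd hL D hm hx hz hF
    · exact (dual_mix hL D hm hx hz hF).1
  have hs2 : (∑ x, ∑ z, if act2 L x z then y₂ x z * KK D x z else 0) = 0 := by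
    refine Finset.sum_eq_zero fun x _ => Finset.sum_eq_zero fun z _ => ?_
    by_cases h : act2 L x z
    · rw [if_pos h, (dual_mix hL D hm h.1 h.2.1 h.2.2).2, zero_mul]
    · rw [if_neg h]
  rw [hs2, he0, he1, zero_mul, zero_mul, add_zero, add_zero, add_zero]
  -- the relation of the pure pairs
  obtain ⟨r, hr⟩ := cob_pure hL (fun x z => y₁ x z + y₁ z x + m)
    (fun x z => by ring) (by
      intro x y z w hR hxy hyz
      have hw : L.hue x ≠ L.hue w := by
        have h1 := hL.Rhue _ _ _ _ hR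
        rw [← hyz, ← hxy] at h1
        intro e
        rw [← e] at h1
        revert h1
        generalize L.hue x = a
        revert a
        decide
      have h1 := GG_rel hL D ρ₀ ρ₁ y₁ y₂ e₀ e₁ hR (hd _)
      rw [he0, he1, ite_self, ite_self, add_zero, c9_GG D y₁ y₂ z (hL.Rne_xy hR) hxy,
        c9_GG D y₁ y₂ y (hL.Rne_xz hR) (hxy.trans hyz), c9_GG D y₁ y₂ x (hL.Rne_yz hR) hyz,
        hm x w y hw (hL.Rne_xy hR).symm (hL.Rne_yw hR),
        hm y w x (by rw [← hxy]; exact hw) (hL.Rne_xy hR) (hL.Rne_xw hR),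
        hm z w x (by rw [← hyz, ← hxy]; exact hw) (hL.Rne_xz hR) (hL.Rne_xw hR)] at h1
      exact c9_alg h1 rfl rfl rfl)
  -- the order
  obtain ⟨o, ho⟩ : ∃ o : V → ℕ, Function.Injective o :=
    ⟨fun v => (Fintype.equivFin V v : ℕ), fun a b hab =>
      (Fintype.equivFin V).injective (Fin.ext hab)⟩
  have hpt := pure_tot hL D o ho
  -- split
  have hsplit : ∀ x z, (if act1 L x z then y₁ x z * TT D x z else 0) =
      (if x ≠ z ∧ L.hue x = L.hue z then
        (y₁ x z + r x + (if o x < o z then m else 0)) * TT D x z else 0) +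
      r x * (if z ≠ x ∧ L.hue z = L.hue x then TT D x z else 0) +
      m * (if x ≠ z ∧ L.hue x = L.hue z ∧ o x < o z then TT D x z else 0) +
      (if L.hue x = 0 then m * (if L.hue z = 1 then TT D x z else 0) else 0) := by
    intro x z
    by_cases h1 : x ≠ z ∧ L.hue x = L.hue z
    · have h2 : z ≠ x ∧ L.hue z = L.hue x := ⟨h1.1.symm, h1.2.symm⟩
      have h3 : (if L.hue x = 0 then m * (if L.hue z = 1 then TT D x z else 0) else 0) = 0 := by
        by_cases h4 : L.hue x = 0
        · rw [if_pos h4, if_neg (by rw [← h1.2, h4]; decide), mul_zero]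
        · rw [if_neg h4]
      rw [if_pos (show act1 L x z from ⟨h1.1, Or.inl h1.2⟩), if_pos h1, if_pos h2, h3, add_zero]
      by_cases h5 : o x < o z
      · rw [if_pos h5, if_pos ⟨h1.1, h1.2, h5⟩]
        exact c9_a1 _ _ _ _
      · have h6 : ¬ (x ≠ z ∧ L.hue x = L.hue z ∧ o x < o z) := fun e => h5 e.2.2
        rw [if_neg h5, if_neg h6]
        exact c9_a2 _ _ _ _
    · have h2 : ¬ (z ≠ x ∧ L.hue z = L.hue x) := fun e => h1 ⟨e.1.symm, e.2.symm⟩
      have h6 : ¬ (x ≠ z ∧ L.hue x = L.hue z ∧ o x < o z) := fun e => h1 ⟨e.1, e.2.1⟩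
      rw [if_neg h1, if_neg h2, if_neg h6, mul_zero, mul_zero,
        zero_add, zero_add, zero_add]
      by_cases h3 : L.hue x = 0
      · by_cases h4 : L.hue z = 1
        · have h5 : x ≠ z := by
            intro e
            rw [e, h4] at h3
            exact absurd h3 (by decide)
          rw [if_pos (show act1 L x z from ⟨h5, Or.inr ⟨h3, h4⟩⟩), if_pos h3, if_pos h4,
            hmix x z h3 h4]
        · rw [if_pos h3, if_neg h4, mul_zero, if_neg]
          rintro ⟨a, b | b⟩
          · exact h1 ⟨a, b⟩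
          · exact h4 b.2
      · rw [if_neg h3, if_neg]
        rintro ⟨a, b | b⟩
        · exact h1 ⟨a, b⟩
        · exact h3 b.1
  rw [Finset.sum_congr rfl fun x _ => Finset.sum_congr rfl fun z _ => hsplit x z]
  simp only [Finset.sum_add_distrib]
  have e1 : (∑ x, ∑ z, (if x ≠ z ∧ L.hue x = L.hue z then
        (y₁ x z + r x + (if o x < o z then m else 0)) * TT D x z else 0)) = 0 := by
    apply c9_sym
    · intro x z
      by_cases h1 : x ≠ z ∧ L.hue x = L.hue z
      · have h4 : z ≠ x ∧ L.hue z = L.hue x := ⟨h1.1.symm, h1.2.symm⟩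
        rw [if_pos h1, if_pos h4, c9_TT hL D h1.1 h1.2]
        congr 1
        have h2 := hr x z h1.1 h1.2
        have h3 : (if o x < o z then m else 0) + (if o z < o x then m else 0) = m := by
          rcases lt_trichotomy (o x) (o z) with h | h | h
          · rw [if_pos h, if_neg (not_lt.2 (le_of_lt h)), add_zero]
          · exact absurd (ho h) h1.1
          · rw [if_neg (not_lt.2 (le_of_lt h)), if_pos h, zero_add]
        exact c9_a3 h2 h3
      · have h4 : ¬ (z ≠ x ∧ L.hue z = L.hue x) := fun e => h1 ⟨e.1.symm, e.2.symm⟩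
        rw [if_neg h1, if_neg h4]
    · intro x
      rw [if_neg (fun e => e.1 rfl)]
  have e2 : (∑ x, ∑ z, r x * (if z ≠ x ∧ L.hue z = L.hue x then TT D x z else 0)) = 0 := by
    refine Finset.sum_eq_zero fun x _ => ?_
    rw [← Finset.mul_sum, ← Finset.sum_filter,
      rx hL x (TT D x) (fun z y w y' w' a b c => TT_pure hL D a b c), mul_zero]
  have e3 : (∑ x, ∑ z, m * (if x ≠ z ∧ L.hue x = L.hue z ∧ o x < o z then TT D x z else 0)) =
      0 := by
    simp only [← Finset.mul_sum]
    have h := hpt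
    rw [show (∑ x, ∑ z, (if x ≠ z ∧ L.hue x = L.hue z ∧ o x < o z then TT D x z else 0)) = 0 by
      convert hpt, mul_zero]
  have e4 : (∑ x, ∑ z, (if L.hue x = 0 then m * (if L.hue z = 1 then TT D x z else 0) else 0)) =
      0 := by
    refine Finset.sum_eq_zero fun x _ => ?_
    by_cases h : L.hue x = 0
    · simp only [if_pos h]
      rw [← Finset.mul_sum, ← Finset.sum_filter, mixed_sum hL D h, mul_zero]
    · simp only [if_neg h]
      exact Finset.sum_const_zero
  rw [e1, e2, e3, e4]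
  rfl

end Pool.Agent.Lib.H97Z
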