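import Pool.Agent.Lib.H97Z.A1
import Pool.Agent.Lib.H97Z.C9

/-! Chunk C10: solution of the linear system -/

set_option autoImplicit false

namespace Pool.Agent.Lib.H97Z

variable {V : Type} [Fintype V] [DecidableEq V] {L : Lev V}

/-- PROOF. `dual_solve` with `J := Finset V`, `I := (V × V) ⊕ (V × V) ⊕ Bool`:
row `inl (x, z)`: `ρ ↦ if act1 L x z ∧ ρ ∈ Reg L x z then 1 else 0`, right side `if act1 L x z then TT D x z else 0`;
row `inr (inl (x, z))`: `ρ ↦ if act2 L x z ∧ ρ ∈ Reg L x z then val (D.κ x z) x z ρ else 0`, right side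
`if act2 L x z then KK D x z else 0`; rows `inr (inr false)`, `inr (inr true)`: `ρ ↦ if ρ = ρ₀ then 1 else 0`,
`ρ ↦ if ρ = ρ₁ then 1 else 0` with right sides `t₀`, `t₁`.  The dual condition is `DualAt` for all `ρ` and the
conclusion is `dual_rhs`. -/
theorem exists_sol_lin (hL : Good L) (D : Dat L) {ρ₀ ρ₁ : Finset V} (hK : KP L ρ₀ ρ₁)
    (t₀ t₁ : ZMod 2) :
    ∃ s : Finset V → ZMod 2, (∀ x z, act1 L x z → ∑ ρ ∈ Reg L x z, s ρ = TT D x z) ∧
      (∀ x z, act2 L x z → ∑ ρ ∈ Reg L x z, val (D.κ x z) x z ρ * s ρ = KK D x z) ∧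
      s ρ₀ = t₀ ∧ s ρ₁ = t₁ := by
  classical
  let M : (V × V) ⊕ (V × V) ⊕ Bool → Finset V → ZMod 2 := fun i ρ => match i with
    | Sum.inl p => if act1 L p.1 p.2 ∧ ρ ∈ Reg L p.1 p.2 then 1 else 0
    | Sum.inr (Sum.inl p) => if act2 L p.1 p.2 ∧ ρ ∈ Reg L p.1 p.2 then val (D.κ p.1 p.2) p.1 p.2 ρ else 0
    | Sum.inr (Sum.inr false) => if ρ = ρ₀ then 1 else 0
    | Sum.inr (Sum.inr true) => if ρ = ρ₁ then 1 else 0
  let b : (V × V) ⊕ (V × V) ⊕ Bool → ZMod 2 := fun i => match i with
    | Sum.inl p => if act1 L p.1 p.2 then TT D p.1 p.2 else 0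
    | Sum.inr (Sum.inl p) => if act2 L p.1 p.2 then KK D p.1 p.2 else 0
    | Sum.inr (Sum.inr false) => t₀
    | Sum.inr (Sum.inr true) => t₁
  obtain ⟨s, hs⟩ := dual_solve M b (by
    intro y hy
    have hd : ∀ ρ, DualAt D ρ₀ ρ₁ (fun x z => y (Sum.inl (x, z)))
        (fun x z => y (Sum.inr (Sum.inl (x, z)))) (y (Sum.inr (Sum.inr false)))
        (y (Sum.inr (Sum.inr true))) ρ := by
      intro ρ
      have h := hy ρ
      rw [Fintype.sum_sum_type, Fintype.sum_sum_type, Fintype.sum_prod_type, Fintype.sum_prod_type,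
        Fintype.sum_bool] at h
      simp only [M] at h
      unfold DualAt
      have e1 : (∑ x, ∑ z, if act1 L x z ∧ ρ ∈ Reg L x z then
          (fun x z => y (Sum.inl (x, z))) x z else 0) =
          ∑ x, ∑ z, y (Sum.inl (x, z)) * if act1 L x z ∧ ρ ∈ Reg L x z then 1 else 0 := by
        apply Finset.sum_congr rfl
        intro x _
        apply Finset.sum_congr rfl
        intro z _
        split_ifs <;> simp
      have e2 : (∑ x, ∑ z, if act2 L x z ∧ ρ ∈ Reg L x z then
          (fun x z => y (Sum.inr (Sum.inl (x, z)))) x z * val (D.κ x z) x z ρ else 0) =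
          ∑ x, ∑ z, y (Sum.inr (Sum.inl (x, z))) *
            if act2 L x z ∧ ρ ∈ Reg L x z then val (D.κ x z) x z ρ else 0 := by
        apply Finset.sum_congr rfl
        intro x _
        apply Finset.sum_congr rfl
        intro z _
        split_ifs <;> simp
      have e3 : (if ρ = ρ₀ then y (Sum.inr (Sum.inr false)) else 0) =
          y (Sum.inr (Sum.inr false)) * if ρ = ρ₀ then 1 else 0 := by
        split_ifs <;> simp
      have e4 : (if ρ = ρ₁ then y (Sum.inr (Sum.inr true)) else 0) =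
          y (Sum.inr (Sum.inr true)) * if ρ = ρ₁ then 1 else 0 := by
        split_ifs <;> simp
      rw [e1, e2, e3, e4]
      linear_combination h
    have h := dual_rhs hL D hK hd t₀ t₁
    rw [Fintype.sum_sum_type, Fintype.sum_sum_type, Fintype.sum_prod_type, Fintype.sum_prod_type,
      Fintype.sum_bool]
    simp only [b]
    have e1 : (∑ x, ∑ z, y (Sum.inl (x, z)) * if act1 L x z then TT D x z else 0) =
        ∑ x, ∑ z, if act1 L x z then (fun x z => y (Sum.inl (x, z))) x z * TT D x z else 0 := by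
      apply Finset.sum_congr rfl
      intro x _
      apply Finset.sum_congr rfl
      intro z _
      split_ifs <;> simp
    have e2 : (∑ x, ∑ z, y (Sum.inr (Sum.inl (x, z))) * if act2 L x z then KK D x z else 0) =
        ∑ x, ∑ z, if act2 L x z then
          (fun x z => y (Sum.inr (Sum.inl (x, z)))) x z * KK D x z else 0 := by
      apply Finset.sum_congr rfl
      intro x _
      apply Finset.sum_congr rfl
      intro z _
      split_ifs <;> simp
    rw [e1, e2]
    linear_combination h)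
  refine ⟨s, ?_, ?_, ?_, ?_⟩
  · intro x z hxz
    have h := hs (Sum.inl (x, z))
    simp only [M, b] at h
    rw [if_pos hxz] at h
    rw [← h, ← Finset.sum_filter_add_sum_filter_not Finset.univ (fun ρ => ρ ∈ Reg L x z)]
    have h1 : Finset.univ.filter (fun ρ => ρ ∈ Reg L x z) = Reg L x z := by
      ext ρ
      simp
    rw [h1]
    have h2 : ∑ ρ ∈ Finset.univ.filter (fun ρ => ¬ ρ ∈ Reg L x z),
        (if act1 L x z ∧ ρ ∈ Reg L x z then (1 : ZMod 2) else 0) * s ρ = 0 := by
      apply Finset.sum_eq_zero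
      intro ρ hρ
      have := (Finset.mem_filter.mp hρ).2
      rw [if_neg (fun hh => this hh.2), zero_mul]
    rw [h2, add_zero]
    apply Finset.sum_congr rfl
    intro ρ hρ
    rw [if_pos ⟨hxz, hρ⟩, one_mul]
  · intro x z hxz
    have h := hs (Sum.inr (Sum.inl (x, z)))
    simp only [M, b] at h
    rw [if_pos hxz] at h
    rw [← h, ← Finset.sum_filter_add_sum_filter_not Finset.univ (fun ρ => ρ ∈ Reg L x z)]
    have h1 : Finset.univ.filter (fun ρ => ρ ∈ Reg L x z) = Reg L x z := by
      ext ρ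
      simp
    rw [h1]
    have h2 : ∑ ρ ∈ Finset.univ.filter (fun ρ => ¬ ρ ∈ Reg L x z),
        (if act2 L x z ∧ ρ ∈ Reg L x z then val (D.κ x z) x z ρ else 0) * s ρ = 0 := by
      apply Finset.sum_eq_zero
      intro ρ hρ
      have := (Finset.mem_filter.mp hρ).2
      rw [if_neg (fun hh => this hh.2), zero_mul]
    rw [h2, add_zero]
    apply Finset.sum_congr rfl
    intro ρ hρ
    rw [if_pos ⟨hxz, hρ⟩]
  · have h := hs (Sum.inr (Sum.inr false))
    simp only [M, b] at h
    rw [← h]
    simp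
  · have h := hs (Sum.inr (Sum.inr true))
    simp only [M, b] at h
    rw [← h]
    simp

end Pool.Agent.Lib.H97Z
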