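import Pool.Agent.Lib.H97Z.C2

/-! Chunk C2b: the handshake formula for mixed pairs -/

set_option autoImplicit false

namespace Pool.Agent.Lib.H97Z

variable {V : Type} [Fintype V] [DecidableEq V] {L : Lev V}

theorem c2b_spc (hL : Good L) {x z : V} {y w y' w' a d a' d' : V}
    (hM : MixAt L x z y w y' w' a d a' d') (g : Finset V → ZMod 2) :
    ∑ ρ ∈ Spc L x z, g ρ = g {x, z, y, w} + g {x, z, y', w'} + g {x, z, a, d} +
      g {x, z, a', d'} := by
  have hset : Spc L x z = {({x, z, y, w} : Finset V), {x, z, y', w'}, {x, z, a, d},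
      {x, z, a', d'}} := by
    ext ρ
    rw [c1_mem_spc, Finset.mem_insert, Finset.mem_insert, Finset.mem_insert,
      Finset.mem_singleton]
    constructor
    · rintro ⟨u, v, hS | hS, e⟩
      · rcases hM.all _ _ hS with ⟨h1, h2⟩ | ⟨h1, h2⟩
        · left; rw [e, h1, h2]
        · right; left; rw [e, h1, h2]
      · by_cases hu : L.hue u = L.hue x
        · rcases hM.tall _ _ hS hu with ⟨h1, h2⟩ | ⟨h1, h2⟩
          · right; right; left; rw [e, h1, h2]
          · right; right; right; rw [e, h1, h2]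
        · have hv : L.hue v = L.hue x := by
            have h1 := hL.Shue_zw hS
            have key : ∀ a b c : ZMod 2, a ≠ b → ¬ a = c → b = c := by decide
            exact key _ _ _ h1 hu
          have e' : ρ = {x, z, v, u} := by
            rw [e]; congr 2; exact Finset.pair_comm _ _
          rcases hM.tall _ _ (hL.S_xywz hS) hv with ⟨h1, h2⟩ | ⟨h1, h2⟩
          · right; right; left; rw [e', h1, h2]
          · right; right; right; rw [e', h1, h2]
    · rintro (e | e | e | e)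
      · exact ⟨y, w, Or.inl hM.s1, e⟩
      · exact ⟨y', w', Or.inl hM.s2, e⟩
      · exact ⟨a, d, Or.inr hM.t1, e⟩
      · exact ⟨a', d', Or.inr hM.t2, e⟩
  rw [hset]
  exact c1_sum4' (c2_ss hL hM.s1 hM.s2 hM.ne) (c2_sd hL hM.s1 hM.t1) (c2_sd hL hM.s1 hM.t2)
    (c2_sd hL hM.s2 hM.t1) (c2_sd hL hM.s2 hM.t2)
    (c2_dd hL hM.t1 hM.t2 hM.ha hM.ha' hM.bit) g

/-- PROOF. `Spc L x z` consists of the four different sets `{x,y,z,w}`, `{x,y',z,w'}`, `{x,z,a,d}`,
`{x,z,a',d'}` (`MixAt.all`, `MixAt.tall`; `L.S x z p q` with `L.hue p ≠ L.hue x` is `L.S x z q p`; the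
sets are different by `MixAt.ne`, `MixAt.bit` and `Good.Sex`).  Use `hand` with `K := 1`. -/
theorem hand_mix (hL : Good L) {x z : V} (hh : L.hue x ≠ L.hue z)
    {s : Finset V → ZMod 2} {h : V → ZMod 2} {y w y' w' a d a' d' : V}
    (hM : MixAt L x z y w y' w' a d a' d') (hs : Lab L s x z h) :
    ∑ ρ ∈ Reg L x z, s ρ = (h w + h a + h d + h y') + (h w' + h a' + h d' + h y) := by
  have hxz : x ≠ z := fun e => hh (by rw [e])
  rw [c2_one hL hxz hs, c2b_spc hL hM, c2_side hL hM.s1, c2_side hL hM.s2, c2_dia hL hM.t1,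
    c2_dia hL hM.t2]
  ring

/-- PROOF. The same with `K := κ`. -/
theorem hand_mix' (hL : Good L) {x z : V} (hh : L.hue x ≠ L.hue z)
    {s : Finset V → ZMod 2} {h κ : V → ZMod 2} {y w y' w' a d a' d' : V}
    (hM : MixAt L x z y w y' w' a d a' d') (hs : Lab L s x z h) (hκ : RC L x z κ)
    (k1 : κ w = 0) (k2 : κ a = 0) (k3 : κ d = 0) (k4 : κ y' = 0)
    (k5 : κ w' = 1) (k6 : κ a' = 1) (k7 : κ d' = 1) (k8 : κ y = 1) :
    ∑ ρ ∈ Reg L x z, val κ x z ρ * s ρ = h w' + h a' + h d' + h y := by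
  have hxz : x ≠ z := fun e => hh (by rw [e])
  rw [hand hL hxz hκ hs, c2b_spc hL hM, c2_side hL hM.s1, c2_side hL hM.s2, c2_dia hL hM.t1,
    c2_dia hL hM.t2, k1, k2, k3, k4, k5, k6, k7, k8]
  ring

end Pool.Agent.Lib.H97Z
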