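import Pool.Agent.Lib.H97Z.C2
import Pool.Agent.Lib.H97Z.C2b
import Pool.Agent.Lib.H97Z.B6
import Pool.Agent.Lib.H97Z.C10

/-! Chunk C11: solution of the equations -/

set_option autoImplicit false

namespace Pool.Agent.Lib.H97Z

variable {V : Type} [Fintype V] [DecidableEq V] {L : Lev V}

theorem c11_m (hL : Good L) (D : Dat L) {s : Finset V → ZMod 2}
    (h1 : ∀ x z, act1 L x z → ∑ ρ ∈ Reg L x z, s ρ = TT D x z)
    (h2 : ∀ x z, act2 L x z → ∑ ρ ∈ Reg L x z, val (D.κ x z) x z ρ * s ρ = KK D x z)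
    {x z : V} (hx : L.hue x = 0) (hz : L.hue z = 1) (hF : ¬ L.F x z) :
    EqM L s x z (D.my x z) (D.mw x z) (D.my' x z) (D.mw' x z) (D.ma x z) (D.md x z)
      (D.ma' x z) (D.md' x z) := by
  have hne : L.hue x ≠ L.hue z := by rw [hx, hz]; decide
  have hxz : x ≠ z := fun e => hne (by rw [e])
  have hM := D.hm x z hx hz hF
  obtain ⟨k0, k1, k2, k3, k4, k5, k6, k7, k8⟩ := D.hκ x z hx hz hF
  intro h hs
  have e1 := hand_mix hL hne hM hs
  have e2 := hand_mix' hL hne hM hs k0 k1 k2 k3 k4 k5 k6 k7 k8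
  rw [h1 x z ⟨hxz, Or.inr ⟨hx, hz⟩⟩] at e1
  rw [h2 x z ⟨hx, hz, hF⟩] at e2
  unfold TT at e1
  rw [if_neg hne, if_neg hF] at e1
  unfold KK at e2
  constructor
  · linear_combination (-1 : ZMod 2) * e1 + e2
  · linear_combination (-1 : ZMod 2) * e2

theorem c11_b (hL : Good L) (D : Dat L) {s : Finset V → ZMod 2}
    (h1 : ∀ x z, act1 L x z → ∑ ρ ∈ Reg L x z, s ρ = TT D x z)
    {x z : V} (hx : L.hue x = 0) (hz : L.hue z = 1) (hF : L.F x z) :
    EqB L s x z (D.qy x z) (D.qw x z) (D.qa x z) (D.qd x z) := by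
  have hne : L.hue x ≠ L.hue z := by rw [hx, hz]; decide
  have hxz : x ≠ z := fun e => hne (by rw [e])
  intro h hs
  have e1 := hand_bd hL hne (D.hq x z hx hz hF) hs
  rw [h1 x z ⟨hxz, Or.inr ⟨hx, hz⟩⟩] at e1
  unfold TT at e1
  rw [if_neg hne, if_pos hF] at e1
  exact e1.symm

/-- PROOF. `exists_dat`, `exists_sol_lin`.  Pure pairs: `hand_pure` gives `EqP` for the data of `D`.  Boundary
pairs with `L.hue x = 0` (so `L.hue z = 1`): `hand_bd`; with `L.hue x = 1`: the data and the equation for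
`(z, x)` and `BdAt.symm`, `EqB.symm` (`Good.F12`).  Other mixed pairs with `L.hue x = 0`: `hand_mix'` gives the
second equation of `EqM`, `hand_mix` minus this the first one; with `L.hue x = 1`: `MixAt.symm`, `EqM.symm`. -/
theorem exists_sol (hL : Good L) {ρ₀ ρ₁ : Finset V} (hK : KP L ρ₀ ρ₁) (t₀ t₁ : ZMod 2) :
    ∃ s : Finset V → ZMod 2, Sol L s ∧ s ρ₀ = t₀ ∧ s ρ₁ = t₁ := by
  obtain ⟨D⟩ := exists_dat hL
  obtain ⟨s, h1, h2, h3, h4⟩ := exists_sol_lin hL D hK t₀ t₁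
  have hc : ∀ a b : ZMod 2, a ≠ b → (a = 0 ∧ b = 1) ∨ (b = 0 ∧ a = 1) := by decide
  refine ⟨s, ⟨?_, ?_, ?_⟩, h3, h4⟩
  · intro x z hxz hh
    refine ⟨_, _, _, _, D.hp x z hxz hh, ?_⟩
    intro h hs
    have e1 := hand_pure hL hxz hh (D.hp x z hxz hh) hs
    rw [h1 x z ⟨hxz, Or.inl hh⟩, TT_pure hL D hxz hh (D.hp x z hxz hh)] at e1
    exact e1.symm
  · intro x z hne hF
    rcases hc _ _ hne with ⟨a, b⟩ | ⟨a, b⟩
    · exact ⟨_, _, _, _, _, _, _, _, D.hm x z a b hF, c11_m hL D h1 h2 a b hF⟩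
    · have hF' : ¬ L.F z x := fun h => hF (hL.F12 _ _ h)
      exact ⟨_, _, _, _, _, _, _, _, (D.hm z x a b hF').symm hL hne.symm,
        (c11_m hL D h1 h2 a b hF').symm hL⟩
  · intro x z hF
    have hne := hL.Fhue _ _ hF
    rcases hc _ _ hne with ⟨a, b⟩ | ⟨a, b⟩
    · exact ⟨_, _, _, _, D.hq x z a b hF, c11_b hL D h1 a b hF⟩
    · have hF' : L.F z x := hL.F12 _ _ hF
      exact ⟨_, _, _, _, (D.hq z x a b hF').symm hL hne.symm,
        (c11_b hL D h1 a b hF').symm hL⟩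

end Pool.Agent.Lib.H97Z
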