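import Pool.Agent.Lib.H97Z.C1

/-! Chunk C2: the handshake formula for the three kinds of pairs -/

set_option autoImplicit false

namespace Pool.Agent.Lib.H97Z

variable {V : Type} [Fintype V] [DecidableEq V] {L : Lev V}

omit [Fintype V] in
theorem c2_pair {x z u v p q : V} (hux : u ≠ x) (huz : u ≠ z) (hvx : v ≠ x) (hvz : v ≠ z)
    (huv : u ≠ v) (he : ({x, z, u, v} : Finset V) = {x, z, p, q}) :
    (p = u ∧ q = v) ∨ (p = v ∧ q = u) := by
  have h1 : u ∈ ({x, z, p, q} : Finset V) := by rw [← he]; simp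
  have h2 : v ∈ ({x, z, p, q} : Finset V) := by rw [← he]; simp
  simp only [Finset.mem_insert, Finset.mem_singleton] at h1 h2
  rcases h1 with h1 | h1 | h1 | h1
  · exact absurd h1 hux
  · exact absurd h1 huz
  · rcases h2 with h2 | h2 | h2 | h2
    · exact absurd h2 hvx
    · exact absurd h2 hvz
    · exact absurd (h1.trans h2.symm) huv
    · exact Or.inl ⟨h1.symm, h2.symm⟩
  · rcases h2 with h2 | h2 | h2 | h2
    · exact absurd h2 hvx
    · exact absurd h2 hvz
    · exact Or.inr ⟨h2.symm, h1.symm⟩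
    · exact absurd (h1.trans h2.symm) huv

/-- side - side -/
theorem c2_ss (hL : Good L) {x z y w y' w' : V} (h : L.S x y z w) (h' : L.S x y' z w')
    (hne : ¬ (y = y' ∧ w = w')) : ({x, z, y, w} : Finset V) ≠ {x, z, y', w'} := by
  intro he
  rcases c2_pair (hL.Sne_xy h).symm (hL.Sne_yz h) (hL.Sne_xw h).symm (hL.Sne_zw h).symm
    (hL.Sne_yw h) he with ⟨h1, h2⟩ | ⟨h1, h2⟩
  · exact hne ⟨h1.symm, h2.symm⟩
  · subst h1 h2
    exact hL.Sex _ _ _ _ (hL.S_xywz h) (hL.S_xywz h')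

/-- side - diagonal -/
theorem c2_sd (hL : Good L) {x z y w a d : V} (h : L.S x y z w) (h' : L.S x z a d) :
    ({x, z, y, w} : Finset V) ≠ {x, z, a, d} := by
  intro he
  rcases c2_pair (hL.Sne_xy h).symm (hL.Sne_yz h) (hL.Sne_xw h).symm (hL.Sne_zw h).symm
    (hL.Sne_yw h) he with ⟨h1, h2⟩ | ⟨h1, h2⟩
  · subst h1 h2
    exact hL.Sex _ _ _ _ h h'
  · subst h1 h2
    exact hL.Sex _ _ _ _ h (hL.S_xywz h')

/-- diagonal - diagonal -/
theorem c2_dd (hL : Good L) {x z a d a' d' : V} (h : L.S x z a d) (_h' : L.S x z a' d')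
    (ha : L.hue a = L.hue x) (ha' : L.hue a' = L.hue x) (hb : L.b x z a d + L.b x z a' d' = 1) :
    ({x, z, a, d} : Finset V) ≠ {x, z, a', d'} := by
  intro he
  rcases c2_pair (hL.Sne_xz h).symm (hL.Sne_yz h).symm (hL.Sne_xw h).symm (hL.Sne_yw h).symm
    (hL.Sne_zw h) he with ⟨h1, h2⟩ | ⟨h1, h2⟩
  · subst h1 h2
    rw [z2_add_self] at hb
    exact absurd hb (by decide)
  · subst h1 h2
    exact hL.Shue_zw h (ha.trans ha'.symm)

theorem c2_one (hL : Good L) {x z : V} (hxz : x ≠ z) {s : Finset V → ZMod 2} {h : V → ZMod 2}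
    (hs : Lab L s x z h) :
    ∑ ρ ∈ Reg L x z, s ρ = ∑ ρ ∈ Spc L x z, ∑ v ∈ ρ.filter (fun v => v ≠ x ∧ v ≠ z), h v := by
  have h1 := hand hL hxz (K := fun _ => 1) (fun _ _ _ => rfl) hs
  simp only [one_mul] at h1
  rw [← h1]
  refine Finset.sum_congr rfl fun ρ hρ => ?_
  obtain ⟨u, v, hR, e⟩ := c1_mem_reg.1 hρ
  rw [e, c1_val (u := u) (v := v) (K := fun _ => 1) (hL.Rne_xz hR) (hL.Rne_yz hR) rfl, one_mul]

theorem c2_side (hL : Good L) {x z y w : V} (h : L.S x y z w) (f : V → ZMod 2) :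
    ∑ v ∈ ({x, z, y, w} : Finset V).filter (fun v => v ≠ x ∧ v ≠ z), f v = f y + f w := by
  rw [c1_filter (hL.Sne_xy h) (hL.Sne_xw h) (hL.Sne_yz h).symm (hL.Sne_zw h),
    Finset.sum_pair (hL.Sne_yw h)]

theorem c2_dia (hL : Good L) {x z a d : V} (h : L.S x z a d) (f : V → ZMod 2) :
    ∑ v ∈ ({x, z, a, d} : Finset V).filter (fun v => v ≠ x ∧ v ≠ z), f v = f a + f d := by
  rw [c1_filter (hL.Sne_xz h) (hL.Sne_xw h) (hL.Sne_yz h) (hL.Sne_yw h),
    Finset.sum_pair (hL.Sne_zw h)]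

/-- PROOF. `hand` with `K := 1` (`val = 1` on `Reg`); `Spc L x z = {{x,y,z,w}, {x,y',z,w'}}` by `PureAt.all`
(`L.S x z u v` is impossible, `Good.Shue`); the two sets are different: if `{x,z,y,w} = {x,z,y',w'}` then
`(y, w) = (y', w')`, excluded, or `y = w'`, `w = y'` and `L.S x y z w`, `L.S x w z y`: with
`Good.S_xywz` this contradicts `Good.Sex` for `L.S x y w z`. -/
theorem hand_pure (hL : Good L) {x z : V} (hxz : x ≠ z) (hh : L.hue x = L.hue z)
    {s : Finset V → ZMod 2} {h : V → ZMod 2} {y w y' w' : V} (hP : PureAt L x z y w y' w')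
    (hs : Lab L s x z h) : ∑ ρ ∈ Reg L x z, s ρ = h w + h y' + h w' + h y := by
  have hset : Spc L x z = {({x, z, y, w} : Finset V), {x, z, y', w'}} := by
    ext ρ
    rw [c1_mem_spc, Finset.mem_insert, Finset.mem_singleton]
    constructor
    · rintro ⟨u, v, hS | hS, e⟩
      · rcases hP.all _ _ hS with ⟨h1, h2⟩ | ⟨h1, h2⟩
        · left; rw [e, h1, h2]
        · right; rw [e, h1, h2]
      · exact absurd hh (hL.Shue _ _ _ _ hS)
    · rintro (e | e)
      · exact ⟨y, w, Or.inl hP.s1, e⟩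
      · exact ⟨y', w', Or.inl hP.s2, e⟩
  rw [c2_one hL hxz hs, hset, Finset.sum_pair (c2_ss hL hP.s1 hP.s2 hP.ne), c2_side hL hP.s1,
    c2_side hL hP.s2]
  ring

/-- PROOF. `hand` with `K := 1`; `Spc L x z = {{x,y,z,w}, {x,z,a,d}}` (use `BdAt.all`, `BdAt.tall`), which are
different by `Good.Sex`. -/
theorem hand_bd (hL : Good L) {x z : V} (hh : L.hue x ≠ L.hue z)
    {s : Finset V → ZMod 2} {h : V → ZMod 2} {y w a d : V} (hP : BdAt L x z y w a d)
    (hs : Lab L s x z h) : ∑ ρ ∈ Reg L x z, s ρ = h w + h a + h d + h y := by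
  have hxz : x ≠ z := fun e => hh (by rw [e])
  have hset : Spc L x z = {({x, z, y, w} : Finset V), {x, z, a, d}} := by
    ext ρ
    rw [c1_mem_spc, Finset.mem_insert, Finset.mem_singleton]
    constructor
    · rintro ⟨u, v, hS | hS, e⟩
      · obtain ⟨h1, h2⟩ := hP.all _ _ hS
        left; rw [e, h1, h2]
      · by_cases hu : L.hue u = L.hue x
        · obtain ⟨h1, h2⟩ := hP.tall _ _ hS hu
          right; rw [e, h1, h2]
        · have hv : L.hue v = L.hue x := by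
            have h1 := hL.Shue_zw hS
            have key : ∀ a b c : ZMod 2, a ≠ b → ¬ a = c → b = c := by decide
            exact key _ _ _ h1 hu
          obtain ⟨h1, h2⟩ := hP.tall _ _ (hL.S_xywz hS) hv
          right
          rw [e, h1, h2]
          congr 2
          exact Finset.pair_comm _ _
    · rintro (e | e)
      · exact ⟨y, w, Or.inl hP.s1, e⟩
      · exact ⟨a, d, Or.inr hP.t1, e⟩
  rw [c2_one hL hxz hs, hset, Finset.sum_pair (c2_sd hL hP.s1 hP.t1), c2_side hL hP.s1,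
    c2_dia hL hP.t1]
  ring

end Pool.Agent.Lib.H97Z
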