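import Pool.Agent.Lib.H97Z.C3
import Pool.Agent.Lib.H97Z.C3b

/-! Chunk C3c: the sum of the right sides around a vertex -/

set_option autoImplicit false

namespace Pool.Agent.Lib.H97Z

variable {V : Type} [Fintype V] [DecidableEq V] {L : Lev V}

/-- PROOF. Group `Nb L x` by `z = t.2.1`: for `z ≠ x` of the hue of `x` with `PureAt L x z y w y' w'` the
elements are `(y, z, w)`, `(y', z, w')` (different by `ne`).  So
`∑ z, (T z + 1) = ∑ t ∈ Nb L x, (L.b x t.1 t.2.1 t.2.2 + L.b t.2.1 t.2.2 x t.1) = 1` (`sum_own`, `sum_opp` with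
`Good.rot`), and the number of these `z` is odd (`Good.even`, minus the element `x`), so `∑ T z = 1 + 1 = 0`. -/
theorem rx (hL : Good L) (x : V) (T : V → ZMod 2)
    (hT : ∀ z y w y' w', x ≠ z → L.hue x = L.hue z → PureAt L x z y w y' w' →
      T z = 1 + L.b x y z w + L.b z w x y + L.b x y' z w' + L.b z w' x y') :
    ∑ z ∈ Finset.univ.filter (fun z => z ≠ x ∧ L.hue z = L.hue x), T z = 0 := by
  classical
  obtain ⟨u, u', hR⟩ := hL.rot x
  have h1 := sum_own hL hR
  have h2 := sum_opp hL hR
  have h3 : ∑ t ∈ Nb L x, (L.b x t.1 t.2.1 t.2.2 + L.b t.2.1 t.2.2 x t.1) = 1 := by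
    rw [Finset.sum_add_distrib, h1, h2]
    generalize L.c x u = a
    generalize L.c x u' = b
    revert a b
    decide
  rw [c3b_Nbz x (fun y z w => L.b x y z w + L.b z w x y)] at h3
  have h4 : ∀ z : V, ∑ y, ∑ w, (if L.S x y z w ∧ L.hue z = L.hue x then
      L.b x y z w + L.b z w x y else 0) =
      (if z ≠ x ∧ L.hue z = L.hue x then T z else 0) +
        ((if L.hue z = L.hue x then 1 else 0) + (if z = x then 1 else 0)) := by
    intro z
    by_cases hz : L.hue x = L.hue z
    · by_cases hxz : x = z
      · have h5 : ∑ y, ∑ w, (if L.S x y z w ∧ L.hue z = L.hue x then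
            L.b x y z w + L.b z w x y else 0) = 0 := by
          refine Finset.sum_eq_zero fun y _ => Finset.sum_eq_zero fun w _ => ?_
          rw [if_neg]
          rintro ⟨h, -⟩
          exact hL.Sne_xz h hxz
        rw [h5, if_neg (fun h => h.1 hxz.symm), if_pos hz.symm, if_pos hxz.symm]
        decide
      · obtain ⟨y, w, y', w', hP⟩ := hL.pure x z hxz hz
        rw [c3b_z hL hz hP (fun y w => L.b x y z w + L.b z w x y),
          if_pos ⟨fun h => hxz h.symm, hz.symm⟩, if_pos hz.symm, if_neg (fun h => hxz h.symm),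
          hT z y w y' w' hxz hz hP]
        generalize L.b x y z w = a
        generalize L.b z w x y = b
        generalize L.b x y' z w' = c
        generalize L.b z w' x y' = d
        revert a b c d
        decide
    · have h5 : ∑ y, ∑ w, (if L.S x y z w ∧ L.hue z = L.hue x then
          L.b x y z w + L.b z w x y else 0) = 0 := by
        refine Finset.sum_eq_zero fun y _ => Finset.sum_eq_zero fun w _ => ?_
        rw [if_neg]
        rintro ⟨-, h⟩
        exact hz h.symm
      rw [h5, if_neg (fun h => hz h.2.symm), if_neg (fun h => hz h.symm),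
        if_neg (fun h => hz (by rw [h]))]
      decide
  simp only [h4] at h3
  rw [Finset.sum_add_distrib, Finset.sum_add_distrib, c3_even hL, Finset.sum_ite_eq',
    if_pos (Finset.mem_univ _), zero_add, ← Finset.sum_filter] at h3
  have key : ∀ a : ZMod 2, a + 1 = 1 → a = 0 := by decide
  exact key _ h3

end Pool.Agent.Lib.H97Z
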