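import Pool.Agent.Lib.H97Z.C0
import Pool.Agent.Lib.H97Z.B2

/-! Chunk C3f: sums over the special blocks around a vertex, diagonals -/

set_option autoImplicit false

namespace Pool.Agent.Lib.H97Z

variable {V : Type} [Fintype V] [DecidableEq V] {L : Lev V}

open Classical in
/-- The blocks with a given diagonal. -/
theorem c3f_inner (hL : Good L) (x y : V) (c : ZMod 2) :
    ∑ p : V × V, (if L.S x y p.1 p.2 ∧ L.hue p.1 = L.hue x then c else 0) =
      if L.F x y then c else 0 := by
  by_cases hh : L.hue x = L.hue y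
  · have h1 : ¬ L.F x y := fun h => hL.Fhue _ _ h hh
    rw [if_neg h1]
    refine Finset.sum_eq_zero fun p _ => ?_
    rw [if_neg]
    rintro ⟨h, -⟩
    exact hL.Shue _ _ _ _ h hh
  by_cases hF : L.F x y
  · obtain ⟨y1, w1, a, d, hB⟩ := hL.bd x y hF
    rw [if_pos hF]
    have h2 : ∀ p : V × V, (if L.S x y p.1 p.2 ∧ L.hue p.1 = L.hue x then c else 0) =
        if p = (a, d) then c else 0 := by
      intro p
      by_cases hp : p = (a, d)
      · rw [if_pos hp, hp, if_pos ⟨hB.t1, hB.ha⟩]
      · rw [if_neg hp, if_neg]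
        rintro ⟨h3, h4⟩
        obtain ⟨h5, h6⟩ := hB.tall _ _ h3 h4
        exact hp (Prod.ext h5 h6)
    simp only [h2]
    rw [Finset.sum_ite_eq' Finset.univ (a, d) (fun _ => c), if_pos (Finset.mem_univ _)]
  · obtain ⟨y1, w1, y2, w2, a, d, a', d', hM⟩ := hL.mix x y hh hF
    rw [if_neg hF]
    have hne : (a, d) ≠ (a', d') := by
      intro e
      have e1 : a = a' := congrArg Prod.fst e
      have e2 : d = d' := congrArg Prod.snd e
      have h3 := hM.bit
      rw [e1, e2, z2_add_self] at h3
      exact zero_ne_one h3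
    have h2 : ∀ p : V × V, (if L.S x y p.1 p.2 ∧ L.hue p.1 = L.hue x then c else 0) =
        (if p = (a, d) then c else 0) + (if p = (a', d') then c else 0) := by
      intro p
      by_cases hp : p = (a, d)
      · rw [if_pos hp, hp, if_pos ⟨hM.t1, hM.ha⟩, if_neg hne, add_zero]
      · by_cases hp' : p = (a', d')
        · rw [if_neg hp, if_pos hp', hp', if_pos ⟨hM.t2, hM.ha'⟩, zero_add]
        · rw [if_neg hp, if_neg hp', if_neg, add_zero]
          rintro ⟨h3, h4⟩
          rcases hM.tall _ _ h3 h4 with ⟨h5, h6⟩ | ⟨h5, h6⟩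
          · exact hp (Prod.ext h5 h6)
          · exact hp' (Prod.ext h5 h6)
    simp only [h2]
    rw [Finset.sum_add_distrib, Finset.sum_ite_eq' Finset.univ (a, d) (fun _ => c),
      Finset.sum_ite_eq' Finset.univ (a', d') (fun _ => c), if_pos (Finset.mem_univ _),
      if_pos (Finset.mem_univ _), z2_add_self]

/-- PROOF. Group by `y = t.1`: the elements of `Nb L x` with `t.1 = y` correspond to the special blocks with the
diagonal `{x, y}`: two if `¬ L.F x y` (`MixAt.tall`, `MixAt.bit`), one if `L.F x y` (`BdAt.tall`), that is for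
`y = u, u'`, none if `L.hue y = L.hue x`.  So the sum is `g u + g u'`. -/
theorem sum_diag (hL : Good L) {x u u' : V} (hR : RotAt L x u u') (g : V → ZMod 2) :
    ∑ t ∈ Nb L x, g t.1 = g u + g u' := by
  classical
  unfold Nb
  rw [Finset.sum_filter, Fintype.sum_prod_type]
  have h1 : ∀ y : V, ∑ p : V × V, (if L.S x (y, p).1 (y, p).2.1 (y, p).2.2 ∧
      L.hue (y, p).2.1 = L.hue x then g (y, p).1 else 0) =
      (if y = u then g y else 0) + (if y = u' then g y else 0) := by
    intro y
    have h2 := c3f_inner hL x y (g y)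
    have h3 : (if L.F x y then g y else 0) =
        (if y = u then g y else 0) + (if y = u' then g y else 0) := by
      by_cases hy : y = u
      · rw [if_pos hy, if_neg (fun e => hR.ne (hy.symm.trans e)), add_zero, hy, if_pos hR.f1]
      · by_cases hy' : y = u'
        · rw [if_neg hy, if_pos hy', zero_add, hy', if_pos hR.f2]
        · rw [if_neg hy, if_neg hy', if_neg, add_zero]
          intro h
          rcases hR.all _ h with h4 | h4
          · exact hy h4
          · exact hy' h4
    rw [← h3, ← h2]
  rw [Finset.sum_congr rfl fun y _ => h1 y]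
  rw [Finset.sum_add_distrib, Finset.sum_ite_eq' Finset.univ u g,
    Finset.sum_ite_eq' Finset.univ u' g, if_pos (Finset.mem_univ _), if_pos (Finset.mem_univ _)]

end Pool.Agent.Lib.H97Z
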