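import Pool.Agent.Lib.H97Z.C0
import Pool.Agent.Lib.H97Z.B4

/-! Chunk C4: choice of the link data -/

set_option autoImplicit false

namespace Pool.Agent.Lib.H97Z

variable {V : Type} [Fintype V] [DecidableEq V] {L : Lev V}

/-- PROOF. `Classical.choose` for `Good.pure`, `Good.mix`, `Good.bd` (use `if`/`dite` outside the range) and
`kappa` for `κ`. -/
theorem exists_dat (hL : Good L) : Nonempty (Dat L) := by
  have h1 : ∀ x z, ∃ y w y' w', x ≠ z → L.hue x = L.hue z → PureAt L x z y w y' w' := by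
    intro x z
    by_cases h : x ≠ z ∧ L.hue x = L.hue z
    · obtain ⟨y, w, y', w', hP⟩ := hL.pure x z h.1 h.2
      exact ⟨y, w, y', w', fun _ _ => hP⟩
    · exact ⟨x, x, x, x, fun a b => absurd ⟨a, b⟩ h⟩
  have h2 : ∀ x z, ∃ y w y' w' a d a' d', ∃ κ : V → ZMod 2, L.hue x = 0 → L.hue z = 1 →
      ¬ L.F x z → (MixAt L x z y w y' w' a d a' d' ∧ (RC L x z κ ∧
    κ w = 0 ∧ κ a = 0 ∧ κ d = 0 ∧ κ y' = 0 ∧
    κ w' = 1 ∧ κ a' = 1 ∧ κ d' = 1 ∧ κ y = 1)) := by
    intro x z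
    by_cases h : L.hue x = 0 ∧ L.hue z = 1 ∧ ¬ L.F x z
    · have hne : L.hue x ≠ L.hue z := by rw [h.1, h.2.1]; decide
      obtain ⟨y, w, y', w', a, d, a', d', hM⟩ := hL.mix x z hne h.2.2
      obtain ⟨κ, hκ⟩ := kappa hL hne hM
      exact ⟨y, w, y', w', a, d, a', d', κ, fun _ _ _ => ⟨hM, hκ⟩⟩
    · exact ⟨x, x, x, x, x, x, x, x, fun _ => 0, fun a b c => absurd ⟨a, b, c⟩ h⟩
  have h3 : ∀ x z, ∃ y w a d, L.hue x = 0 → L.hue z = 1 → L.F x z → BdAt L x z y w a d := by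
    intro x z
    by_cases h : L.F x z
    · obtain ⟨y, w, a, d, hP⟩ := hL.bd x z h
      exact ⟨y, w, a, d, fun _ _ _ => hP⟩
    · exact ⟨x, x, x, x, fun _ _ a => absurd a h⟩
  choose py pw py' pw' hp using h1
  choose my mw my' mw' ma md ma' md' κ hm using h2
  choose qy qw qa qd hq using h3
  exact ⟨⟨py, pw, py', pw', hp, my, mw, my', mw', ma, md, ma', md',
    fun x z a b c => (hm x z a b c).1, qy, qw, qa, qd, hq, κ,
    fun x z a b c => (hm x z a b c).2⟩⟩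

/-- PROOF. `TT` at a pure pair does not depend on the choice: the two special blocks with side
`{x, z}` are unique up to order (`PureAt.all`, `PureAt.ne`), so the sum is the same. -/
theorem TT_pure (_hL : Good L) (D : Dat L) {x z y w y' w' : V} (hxz : x ≠ z)
    (hh : L.hue x = L.hue z) (h : PureAt L x z y w y' w') :
    TT D x z = 1 + L.b x y z w + L.b z w x y + L.b x y' z w' + L.b z w' x y' := by
  have hD := D.hp x z hxz hh
  unfold TT
  rw [if_pos hh]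
  rcases h.all _ _ hD.s1 with ⟨h1, h2⟩ | ⟨h1, h2⟩
  · rcases h.all _ _ hD.s2 with ⟨h3, h4⟩ | ⟨h3, h4⟩
    · exact absurd ⟨h1.trans h3.symm, h2.trans h4.symm⟩ hD.ne
    · rw [h1, h2, h3, h4]
  · rcases h.all _ _ hD.s2 with ⟨h3, h4⟩ | ⟨h3, h4⟩
    · rw [h1, h2, h3, h4]
      ring
    · exact absurd ⟨h1.trans h3.symm, h2.trans h4.symm⟩ hD.ne

end Pool.Agent.Lib.H97Z
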