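import Pool.Agent.Lib.H97Z.C4

/-! Chunk C5: from the dual condition to a dual vector: simple properties -/

set_option autoImplicit false

namespace Pool.Agent.Lib.H97Z

variable {V : Type} [Fintype V] [DecidableEq V] {L : Lev V}

theorem c5_YY (D : Dat L) (y₁ y₂ : V → V → ZMod 2) {x z u v : V}
    (h : act2 L x z → D.κ x z u = D.κ x z v) : YY D y₁ y₂ x z u = YY D y₁ y₂ x z v := by
  unfold YY
  by_cases h2 : act2 L x z
  · rw [h h2]
  · rw [if_neg h2, if_neg h2]

/-- PROOF. Definition. -/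
theorem GG_sym (D : Dat L) (y₁ y₂ : V → V → ZMod 2) (x z v : V) :
    GG D y₁ y₂ x z v = GG D y₁ y₂ z x v := by
  unfold GG
  rw [add_comm]

/-- PROOF. Only the second term of `YY` depends on `v`, and `D.κ x z` is constant along regular
edges of the link of `{x, z}` if `act2 L x z` (`D.hκ`). -/
theorem GG_rc (hL : Good L) (D : Dat L) (y₁ y₂ : V → V → ZMod 2) {x z u v : V}
    (h : L.R x z u v) : GG D y₁ y₂ x z u = GG D y₁ y₂ x z v := by
  unfold GG
  rw [c5_YY D y₁ y₂ (x := x) (z := z) (fun h2 => (D.hκ x z h2.1 h2.2.1 h2.2.2).1 u v h),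
    c5_YY D y₁ y₂ (x := z) (z := x) (fun h2 =>
      (D.hκ z x h2.1 h2.2.1 h2.2.2).1 u v (hL.R_yxzw h))]

/-- PROOF. `act2` fails for both orders. -/
theorem GG_pure (D : Dat L) (y₁ y₂ : V → V → ZMod 2) {x z : V} (hh : L.hue x = L.hue z)
    (u v : V) : GG D y₁ y₂ x z u = GG D y₁ y₂ x z v := by
  unfold GG
  rw [c5_YY D y₁ y₂ (x := x) (z := z) (u := u) (v := v) (fun h2 => ?_),
    c5_YY D y₁ y₂ (x := z) (z := x) (u := u) (v := v) (fun h2 => ?_)]
  · exfalso
    have h3 := h2.1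
    have h4 := h2.2.1
    rw [hh, h3] at h4
    exact absurd h4 (by decide)
  · exfalso
    have h3 := h2.1
    have h4 := h2.2.1
    rw [hh, h4] at h3
    exact absurd h3 (by decide)

theorem c5_dia (hL : Good L) (D : Dat L) {x z a d : V} (h : L.S x z a d) (h2 : act2 L x z) :
    D.κ x z a = D.κ x z d := by
  obtain ⟨-, -, k1, k2, -, -, k3, k4, -⟩ := D.hκ x z h2.1 h2.2.1 h2.2.2
  have hM := D.hm x z h2.1 h2.2.1 h2.2.2
  by_cases ha : L.hue a = L.hue x
  · rcases hM.tall _ _ h ha with ⟨h1, h2⟩ | ⟨h1, h2⟩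
    · rw [h1, h2, k1, k2]
    · rw [h1, h2, k3, k4]
  · have hd : L.hue d = L.hue x := by
      have h1 := hL.Shue_zw h
      have key : ∀ a b c : ZMod 2, a ≠ b → ¬ a = c → b = c := by decide
      exact key _ _ _ h1 ha
    rcases hM.tall _ _ (hL.S_xywz h) hd with ⟨h1, h2⟩ | ⟨h1, h2⟩
    · rw [h1, h2, k1, k2]
    · rw [h1, h2, k3, k4]

/-- PROOF. If `act2 L x z` then `(a, d)` or `(d, a)` is `(D.ma x z, D.md x z)` or `(D.ma' x z, D.md' x z)`
(`MixAt.tall`, one of `a`, `d` has the hue of `x`) and `D.hκ` gives the same value of `D.κ x z`.  In the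
same way for `act2 L z x`, with `L.S z x a d`. -/
theorem GG_dia (hL : Good L) (D : Dat L) (y₁ y₂ : V → V → ZMod 2) {x z a d : V}
    (h : L.S x z a d) : GG D y₁ y₂ x z a = GG D y₁ y₂ x z d := by
  unfold GG
  rw [c5_YY D y₁ y₂ (x := x) (z := z) (c5_dia hL D h),
    c5_YY D y₁ y₂ (x := z) (z := x) (c5_dia hL D (hL.S_yxzw h))]

end Pool.Agent.Lib.H97Z
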