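import Pool.Agent.Lib.H97Z.C5
import Pool.Agent.Lib.H97Z.C1

/-! Chunk C6: from the dual condition to a dual vector: the relation -/

set_option autoImplicit false

namespace Pool.Agent.Lib.H97Z

variable {V : Type} [Fintype V] [DecidableEq V] {L : Lev V}

open Classical in
/-- the term of `DualAt` at an ordered pair -/
noncomputable def c6_F (D : Dat L) (y₁ y₂ : V → V → ZMod 2) (ρ : Finset V) (p q : V) : ZMod 2 :=
  (if act1 L p q ∧ ρ ∈ Reg L p q then y₁ p q else 0) +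
  (if act2 L p q ∧ ρ ∈ Reg L p q then y₂ p q * val (D.κ p q) p q ρ else 0)

theorem c6_in (hL : Good L) (D : Dat L) (y₁ y₂ : V → V → ZMod 2) {ρ : Finset V} {p q u v : V}
    (h : L.R p q u v) (hρ : ρ = {p, q, u, v}) : c6_F D y₁ y₂ ρ p q = YY D y₁ y₂ p q u := by
  have hm : ρ ∈ Reg L p q := c1_mem_reg.2 ⟨u, v, h, hρ⟩
  unfold c6_F YY
  congr 1
  · by_cases h1 : act1 L p q
    · rw [if_pos ⟨h1, hm⟩, if_pos h1]
    · rw [if_neg (fun hh => h1 hh.1), if_neg h1]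
  · by_cases h2 : act2 L p q
    · rw [if_pos ⟨h2, hm⟩, if_pos h2, hρ,
        c1_val (hL.Rne_xz h) (hL.Rne_yz h) ((D.hκ p q h2.1 h2.2.1 h2.2.2).1 u v h)]
    · rw [if_neg (fun hh => h2 hh.1), if_neg h2]

theorem c6_out (D : Dat L) (y₁ y₂ : V → V → ZMod 2) {ρ : Finset V} {p q : V}
    (h : ρ ∉ Reg L p q) : c6_F D y₁ y₂ ρ p q = 0 := by
  unfold c6_F
  rw [if_neg (fun hh => h hh.2), if_neg (fun hh => h hh.2), add_zero]

theorem c6_diag (hL : Good L) (D : Dat L) (y₁ y₂ : V → V → ZMod 2) (ρ : Finset V) (p : V) :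
    c6_F D y₁ y₂ ρ p p = 0 := by
  apply c6_out
  intro h
  obtain ⟨u, v, hR, -⟩ := c1_mem_reg.1 h
  exact hL.Rne_xy hR rfl

/-- PROOF. `{x, y, z, w} = ρ` with `L.R x y z w` lies in `Reg L p q` iff `p ≠ q` and `p, q ∈ ρ`.  So the two double
sums in `DualAt` are sums over the `12` ordered pairs of different elements of `ρ`, and for the
ordered pair `(p, q)` the two terms add up to `YY D y₁ y₂ p q v` for each `v ∈ ρ`, `v ≠ p, q` (`act1` needs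
`p ≠ q`; `val (D.κ p q) p q ρ = D.κ p q v` as `D.κ p q` has the same value at both of the remaining
vertices when `act2 L p q`).  The pairs `(p, q)`, `(q, p)` give `GG`. -/
theorem GG_rel (hL : Good L) (D : Dat L) (ρ₀ ρ₁ : Finset V) (y₁ y₂ : V → V → ZMod 2)
    (e₀ e₁ : ZMod 2) {x y z w : V} (h : L.R x y z w)
    (hd : DualAt D ρ₀ ρ₁ y₁ y₂ e₀ e₁ {x, y, z, w}) :
    GG D y₁ y₂ x y z + GG D y₁ y₂ x z y + GG D y₁ y₂ x w y + GG D y₁ y₂ y z x +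
      GG D y₁ y₂ y w x + GG D y₁ y₂ z w x =
      (if ({x, y, z, w} : Finset V) = ρ₀ then e₀ else 0) +
      (if ({x, y, z, w} : Finset V) = ρ₁ then e₁ else 0) := by
  obtain ⟨ρ, hρ⟩ : ∃ ρ : Finset V, ρ = {x, y, z, w} := ⟨_, rfl⟩
  rw [← hρ] at hd ⊢
  have hs : ∑ p, ∑ q, c6_F D y₁ y₂ ρ p q = ∑ p ∈ ρ, ∑ q ∈ ρ, c6_F D y₁ y₂ ρ p q := by
    symm
    refine Finset.sum_subset_zero_on_sdiff (Finset.subset_univ _) ?_ ?_
    · intro p hp
      refine Finset.sum_eq_zero fun q _ => c6_out D y₁ y₂ fun hm => ?_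
      obtain ⟨u, v, -, e⟩ := c1_mem_reg.1 hm
      apply (Finset.mem_sdiff.1 hp).2
      rw [e]; simp
    · intro p _
      refine Finset.sum_subset (Finset.subset_univ _) ?_
      intro q _ hq
      refine c6_out D y₁ y₂ fun hm => ?_
      obtain ⟨u, v, -, e⟩ := c1_mem_reg.1 hm
      apply hq
      rw [e]; simp
  have hd2 : ∑ p, ∑ q, c6_F D y₁ y₂ ρ p q + ((if ρ = ρ₀ then e₀ else 0) +
      (if ρ = ρ₁ then e₁ else 0)) = 0 := by
    unfold DualAt at hd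
    refine Eq.trans ?_ hd
    unfold c6_F
    simp only [Finset.sum_add_distrib]
    ring
  have hx := c1_sum4 (hL.Rne_xy h) (hL.Rne_xz h) (hL.Rne_xw h) (hL.Rne_yz h) (hL.Rne_yw h)
    (hL.Rne_zw h)
  rw [hs] at hd2
  have f0 := c6_diag hL D y₁ y₂ ρ
  have f1 : c6_F D y₁ y₂ ρ x y = YY D y₁ y₂ x y z := c6_in hL D y₁ y₂ h hρ
  have f2 : c6_F D y₁ y₂ ρ x z = YY D y₁ y₂ x z y := c6_in hL D y₁ y₂ (hL.R_xzyw h)
    (by rw [hρ]; ext t; simp only [Finset.mem_insert, Finset.mem_singleton]; tauto)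
  have f3 : c6_F D y₁ y₂ ρ x w = YY D y₁ y₂ x w y := c6_in hL D y₁ y₂ (hL.R_xwyz h)
    (by rw [hρ]; ext t; simp only [Finset.mem_insert, Finset.mem_singleton]; tauto)
  have f4 : c6_F D y₁ y₂ ρ y x = YY D y₁ y₂ y x z := c6_in hL D y₁ y₂ (hL.R_yxzw h)
    (by rw [hρ]; ext t; simp only [Finset.mem_insert, Finset.mem_singleton]; tauto)
  have f5 : c6_F D y₁ y₂ ρ y z = YY D y₁ y₂ y z x := c6_in hL D y₁ y₂ (hL.R_yzxw h)
    (by rw [hρ]; ext t; simp only [Finset.mem_insert, Finset.mem_singleton]; tauto)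
  have f6 : c6_F D y₁ y₂ ρ y w = YY D y₁ y₂ y w x := c6_in hL D y₁ y₂ (hL.R_ywxz h)
    (by rw [hρ]; ext t; simp only [Finset.mem_insert, Finset.mem_singleton]; tauto)
  have f7 : c6_F D y₁ y₂ ρ z x = YY D y₁ y₂ z x y := c6_in hL D y₁ y₂ (hL.R_zxyw h)
    (by rw [hρ]; ext t; simp only [Finset.mem_insert, Finset.mem_singleton]; tauto)
  have f8 : c6_F D y₁ y₂ ρ z y = YY D y₁ y₂ z y x := c6_in hL D y₁ y₂ (hL.R_zyxw h)
    (by rw [hρ]; ext t; simp only [Finset.mem_insert, Finset.mem_singleton]; tauto)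
  have f9 : c6_F D y₁ y₂ ρ z w = YY D y₁ y₂ z w x := c6_in hL D y₁ y₂ (hL.R_zwxy h)
    (by rw [hρ]; ext t; simp only [Finset.mem_insert, Finset.mem_singleton]; tauto)
  have f10 : c6_F D y₁ y₂ ρ w x = YY D y₁ y₂ w x y := c6_in hL D y₁ y₂ (hL.R_wxyz h)
    (by rw [hρ]; ext t; simp only [Finset.mem_insert, Finset.mem_singleton]; tauto)
  have f11 : c6_F D y₁ y₂ ρ w y = YY D y₁ y₂ w y x := c6_in hL D y₁ y₂ (hL.R_wyxz h)
    (by rw [hρ]; ext t; simp only [Finset.mem_insert, Finset.mem_singleton]; tauto)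
  have f12 : c6_F D y₁ y₂ ρ w z = YY D y₁ y₂ w z x := c6_in hL D y₁ y₂ (hL.R_wzxy h)
    (by rw [hρ]; ext t; simp only [Finset.mem_insert, Finset.mem_singleton]; tauto)
  have hsum : ∑ p ∈ ρ, ∑ q ∈ ρ, c6_F D y₁ y₂ ρ p q =
      GG D y₁ y₂ x y z + GG D y₁ y₂ x z y + GG D y₁ y₂ x w y + GG D y₁ y₂ y z x +
      GG D y₁ y₂ y w x + GG D y₁ y₂ z w x := by
    obtain ⟨F, hF⟩ : ∃ F : V → V → ZMod 2, F = c6_F D y₁ y₂ ρ := ⟨_, rfl⟩
    rw [← hF] at f0 f1 f2 f3 f4 f5 f6 f7 f8 f9 f10 f11 f12 ⊢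
    rw [hρ, hx, hx, hx, hx, hx, f0, f0, f0, f0, f1, f2, f3, f4, f5, f6, f7, f8, f9, f10, f11, f12]
    unfold GG
    ring
  rw [hsum] at hd2
  have key : ∀ a b : ZMod 2, a + b = 0 → a = b := by decide
  exact key _ _ hd2

end Pool.Agent.Lib.H97Z
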