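import Mathlib

/-!
Definitions for the project H97Z (MP_d69851_co: 3-neighborly normal 3-pseudomanifolds with
arbitrarily many vertices).  Complete paper proof: PROOF.md.

A *level* on `V`: `hue` is a 2-colouring of the vertices, `R x y z w` says that `{x,y,z,w}` is a
regular block (three vertices of one hue, one of the other), `S x y z w` says that `{x,y,z,w}` is a
special block with the diagonals `{x,y}`, `{z,w}` (both of mixed hue), `F` is the set of boundary
pairs, `b x y z w` is the bit of the diagonal `{x,y}` of the special block with diagonals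
`{x,y}`, `{z,w}`, `c` the bit of a boundary pair, `col` a colouring of the boundary pairs.
-/

set_option autoImplicit false

namespace Pool.Agent.Lib.H97Z

/-- The data of a level. -/
structure Lev (V : Type) where
  hue : V → ZMod 2
  R : V → V → V → V → Prop
  S : V → V → V → V → Prop
  F : V → V → Prop
  b : V → V → V → V → ZMod 2
  c : V → V → ZMod 2
  col : V → V → ZMod 2

section

variable {V : Type} (L : Lev V)

/-- `{x,y,z,u}` is a block (regular or special). -/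
def Blk (x y z u : V) : Prop := L.R x y z u ∨ L.S x y z u ∨ L.S x z y u ∨ L.S x u y z

/-- `f` is constant along the regular edges of the link of `{x,z}`. -/
def RC (x z : V) (f : V → ZMod 2) : Prop := ∀ u v, L.R x z u v → f u = f v

/-- `f` changes along every regular edge of the link of `{x,z}`. -/
def One (x z : V) (f : V → ZMod 2) : Prop := ∀ u v, L.R x z u v → f u + f v = 1

/-- `f` is a potential of `s` on the regular edges of the link of `{x,z}`. -/
def Lab [DecidableEq V] (s : Finset V → ZMod 2) (x z : V) (f : V → ZMod 2) : Prop :=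
  ∀ u v, L.R x z u v → f u + f v = s {x, z, u, v}

/-- The link of a pair `{x,z}` of vertices of equal hue: the special blocks are
`{x,y|z,w}`, `{x,y'|z,w'}`; without their edges the link has two parts, `w ~ y'` and `w' ~ y`. -/
structure PureAt (x z y w y' w' : V) : Prop where
  s1 : L.S x y z w
  s2 : L.S x y' z w'
  ne : ¬ (y = y' ∧ w = w')
  all : ∀ p q, L.S x p z q → (p = y ∧ q = w) ∨ (p = y' ∧ q = w')
  cl : ∀ f, RC L x z f → f w = f y' ∧ f w' = f y
  van : ∀ f, RC L x z f → f w = 0 → f y = 0 → ∀ v, v ≠ x → v ≠ z → f v = 0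

/-- The link of a mixed pair `{x,z}` which is not a boundary pair: special blocks
`{x,y|z,w}`, `{x,y'|z,w'}`, `{x,z|a,d}`, `{x,z|a',d'}`; without their edges the link has four
parts `w ~ a`, `d ~ y'`, `w' ~ a'`, `d' ~ y`. -/
structure MixAt (x z y w y' w' a d a' d' : V) : Prop where
  s1 : L.S x y z w
  s2 : L.S x y' z w'
  ne : ¬ (y = y' ∧ w = w')
  all : ∀ p q, L.S x p z q → (p = y ∧ q = w) ∨ (p = y' ∧ q = w')
  t1 : L.S x z a d
  t2 : L.S x z a' d'
  ha : L.hue a = L.hue x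
  ha' : L.hue a' = L.hue x
  tall : ∀ p q, L.S x z p q → L.hue p = L.hue x → (p = a ∧ q = d) ∨ (p = a' ∧ q = d')
  bit : L.b x z a d + L.b x z a' d' = 1
  cl : ∀ f, RC L x z f → f w = f a ∧ f d = f y' ∧ f w' = f a' ∧ f d' = f y
  van : ∀ f, RC L x z f → f w = 0 → f w' = 0 → f y = 0 → f y' = 0 →
    ∀ v, v ≠ x → v ≠ z → f v = 0
  par : ∀ f, One L x z f → f w + f a + f d + f y' = 1 ∧ f w' + f a' + f d' + f y = 1

/-- The link of a boundary pair `{x,z}`: special blocks `{x,y|z,w}`, `{x,z|a,d}`; without their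
edges the link has two parts `w ~ a`, `d ~ y`. -/
structure BdAt (x z y w a d : V) : Prop where
  s1 : L.S x y z w
  all : ∀ p q, L.S x p z q → p = y ∧ q = w
  t1 : L.S x z a d
  ha : L.hue a = L.hue x
  tall : ∀ p q, L.S x z p q → L.hue p = L.hue x → p = a ∧ q = d
  c : L.c x z = L.b x z a d + 1
  cl : ∀ f, RC L x z f → f w = f a ∧ f d = f y
  van : ∀ f, RC L x z f → f w = 0 → f y = 0 → ∀ v, v ≠ x → v ≠ z → f v = 0
  par : ∀ f, One L x z f → f w + f a + f d + f y = 0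

/-- The special blocks around `x`: a Hamiltonian path between the boundary neighbours
`u`, `u'` of `x`. -/
structure RotAt (x u u' : V) : Prop where
  f1 : L.F x u
  f2 : L.F x u'
  ne : u ≠ u'
  all : ∀ v, L.F x v → v = u ∨ v = u'
  con : ∀ g : V → ZMod 2, (∀ y z w, L.S x y z w → g z = g w) →
    ∀ v v', v ≠ x → v' ≠ x → g v = g v'
  par : ∀ g : V → ZMod 2, (∀ y z w, L.S x y z w → g z + g w = 1) → g u = g u'
  bit : ∀ g : V → ZMod 2, (∀ y z w, L.S x y z w → g z + g w = L.b z w x y) →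
    g u + g u' = 1 + L.c x u + L.c x u'
  col : L.col x u + L.col x u' = 1

open Classical in
/-- The number modulo `2` of the special blocks `{x,y|z,w}` with `hue z = hue x` such that `{z,y}` is a
boundary pair. -/
noncomputable def nF [Fintype V] (x : V) : ZMod 2 :=
  ∑ t ∈ Finset.univ.filter (fun t : V × V × V =>
    L.S x t.1 t.2.1 t.2.2 ∧ L.hue t.2.1 = L.hue x), if L.F t.2.1 t.1 then 1 else 0

/-- The axioms of a level. -/
structure Good [Fintype V] [DecidableEq V] : Prop where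
  R12 : ∀ x y z w, L.R x y z w → L.R y x z w
  R23 : ∀ x y z w, L.R x y z w → L.R x z y w
  R34 : ∀ x y z w, L.R x y z w → L.R x y w z
  Rne : ∀ x y z w, L.R x y z w → x ≠ y
  Rhue : ∀ x y z w, L.R x y z w → L.hue x + L.hue y + L.hue z + L.hue w = 1
  S12 : ∀ x y z w, L.S x y z w → L.S y x z w
  Sdd : ∀ x y z w, L.S x y z w → L.S z w x y
  Sne : ∀ x y z w, L.S x y z w → x ≠ z
  Shue : ∀ x y z w, L.S x y z w → L.hue x ≠ L.hue y
  Sex : ∀ x y z w, L.S x y z w → ¬ L.S x z y w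
  F12 : ∀ x y, L.F x y → L.F y x
  Fhue : ∀ x y, L.F x y → L.hue x ≠ L.hue y
  b12 : ∀ x y z w, L.b x y z w = L.b y x z w
  b34 : ∀ x y z w, L.b x y z w = L.b x y w z
  c12 : ∀ x y, L.c x y = L.c y x
  col12 : ∀ x y, L.col x y = L.col y x
  two : ∀ x y z, x ≠ y → x ≠ z → y ≠ z → ∃ u v, u ≠ v ∧ Blk L x y z u ∧ Blk L x y z v ∧
    ∀ t, Blk L x y z t → t = u ∨ t = v
  pure : ∀ x z, x ≠ z → L.hue x = L.hue z → ∃ y w y' w', PureAt L x z y w y' w'
  mix : ∀ x z, L.hue x ≠ L.hue z → ¬ L.F x z →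
    ∃ y w y' w' a d a' d', MixAt L x z y w y' w' a d a' d'
  bd : ∀ x z, L.F x z → ∃ y w a d, BdAt L x z y w a d
  rot : ∀ x, ∃ u u', RotAt L x u u'
  even : ∀ h : ZMod 2, Even (Finset.univ.filter fun v => L.hue v = h).card
  big : ∀ h : ZMod 2, 4 ≤ (Finset.univ.filter fun v => L.hue v = h).card
  conn : ∀ r : V → ZMod 2, (∀ x z, L.hue x ≠ L.hue z → ¬ L.F x z → r x = r z) →
    ∀ x z, r x = r z
  ni : ∀ (d : V) (r : V → ZMod 2),
    (∀ x y z, L.R x y z d → L.hue x = L.hue y → L.hue x ≠ L.hue d → r x = r y) →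
    ∀ x y, L.hue x ≠ L.hue d → L.hue y ≠ L.hue d → r x = r y
  ni2 : ∀ x d, L.hue x ≠ L.hue d → ∃ y z, L.R x y z d ∧ L.hue x = L.hue y
  four : ∀ h : ZMod 2, 4 ∣ (Finset.univ.filter fun v => L.hue v = h).card
  nx : ∃ x, nF L x = 0

/-- The regular blocks with a given majority hue are strongly connected. -/
def SC : Prop :=
  ∀ τ : V → V → V → ZMod 2, (∀ x y z, τ x y z = τ y x z) → (∀ x y z, τ x y z = τ x z y) →
    (∀ x y z w, L.R x y z w → τ x y z = τ x y w) →
    ∃ θ : ZMod 2 → ZMod 2, ∀ x y z w, L.R x y z w → L.hue x = L.hue y → τ x y z = θ (L.hue x)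

/-- A dual vector. -/
structure KG [DecidableEq V] (ρ₀ ρ₁ : Finset V) (G : V → V → V → ZMod 2) (e₀ e₁ : ZMod 2) :
    Prop where
  sym : ∀ x z v, G x z v = G z x v
  rc : ∀ x z u v, L.R x z u v → G x z u = G x z v
  pure : ∀ x z u v, x ≠ z → L.hue x = L.hue z → u ≠ x → u ≠ z → v ≠ x → v ≠ z →
    G x z u = G x z v
  dia : ∀ x z a d, L.S x z a d → G x z a = G x z d
  rel : ∀ x y z w, L.R x y z w →
    G x y z + G x z y + G x w y + G y z x + G y w x + G z w x =
      (if ({x, y, z, w} : Finset V) = ρ₀ then e₀ else 0) +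
      (if ({x, y, z, w} : Finset V) = ρ₁ then e₁ else 0)

/-- Every dual vector is constant on the mixed pairs (note that `G = 1`, `e₀ = e₁ = 0` is one). -/
def KP [DecidableEq V] (ρ₀ ρ₁ : Finset V) : Prop :=
  ∀ (G : V → V → V → ZMod 2) (e₀ e₁ : ZMod 2), KG L ρ₀ ρ₁ G e₀ e₁ →
    e₀ = 0 ∧ e₁ = 0 ∧ ∃ m, ∀ x z v, L.hue x ≠ L.hue z → v ≠ x → v ≠ z → G x z v = m

/-- The equation of a pure pair. -/
def EqP [DecidableEq V] (s : Finset V → ZMod 2) (x z y w y' w' : V) : Prop :=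
  ∀ h, Lab L s x z h → h w + h y' + h w' + h y =
    1 + L.b x y z w + L.b z w x y + L.b x y' z w' + L.b z w' x y'

/-- The equations of a mixed pair which is not a boundary pair. -/
def EqM [DecidableEq V] (s : Finset V → ZMod 2) (x z y w y' w' a d a' d' : V) : Prop :=
  ∀ h, Lab L s x z h →
    h w + h a + h d + h y' = 1 + L.b z w x y + L.b x y' z w' + L.b a d x z ∧
    h w' + h a' + h d' + h y = 1 + L.b z w' x y' + L.b x y z w + L.b a' d' x z

/-- The equation of a boundary pair. -/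
def EqB [DecidableEq V] (s : Finset V → ZMod 2) (x z y w a d : V) : Prop :=
  ∀ h, Lab L s x z h → h w + h a + h d + h y =
    1 + L.b x y z w + L.b z w x y + L.b x z a d + L.b a d x z

/-- `s` solves all equations. -/
structure Sol [DecidableEq V] (s : Finset V → ZMod 2) : Prop where
  p : ∀ x z, x ≠ z → L.hue x = L.hue z →
    ∃ y w y' w', PureAt L x z y w y' w' ∧ EqP L s x z y w y' w'
  m : ∀ x z, L.hue x ≠ L.hue z → ¬ L.F x z →
    ∃ y w y' w' a d a' d', MixAt L x z y w y' w' a d a' d' ∧ EqM L s x z y w y' w' a d a' d'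
  f : ∀ x z, L.F x z → ∃ y w a d, BdAt L x z y w a d ∧ EqB L s x z y w a d

/-- `v` lies in the part of the link of the mixed pair `{x,z}` which ends at the diagonal special
block with bit `t`. -/
def Ub (x z v : V) (t : ZMod 2) : Prop :=
  ∃ y w e d, L.S x y z w ∧ L.S x z e d ∧ t = L.b x z e d ∧
    ∀ f, RC L x z f → f v = f w ∧ f v = f e

/-- The twist condition at a regular block with majority hue `hue x = hue y = hue z`. -/
def Tw [DecidableEq V] (s : Finset V → ZMod 2) (x y z w : V) : Prop :=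
  L.R x y z w ∧ L.hue x = L.hue y ∧ L.hue y = L.hue z ∧ ∃ t₁ t₂ t₃, Ub L x w y t₁ ∧
    Ub L y w z t₂ ∧ Ub L z w x t₃ ∧ s {x, y, z, w} = t₁ + t₂ + t₃

end

section Lift

variable {V : Type} [DecidableEq V] (L : Lev V) (s : Finset V → ZMod 2)

/-- Sum of the indices of the vertices of hue `0` among `X`, `Y`. -/
def h0 (X Y : V × ZMod 2) : ZMod 2 := (1 + L.hue X.1) * X.2 + (1 + L.hue Y.1) * Y.2

/-- Lifts of regular blocks. -/
def RL (X Y Z W : V × ZMod 2) : Prop :=
  L.R X.1 Y.1 Z.1 W.1 ∧ X.2 + Y.2 + Z.2 + W.2 = s {X.1, Y.1, Z.1, W.1}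

/-- The new regular blocks `{z_0, z_1, x_i, y_{i+p}}` with the fibre `{X, Y}`. -/
def UU (X Y Z W : V × ZMod 2) : Prop :=
  X.1 = Y.1 ∧ X.2 ≠ Y.2 ∧ ∃ w, L.S Z.1 W.1 X.1 w ∧ Z.2 + W.2 = L.b Z.1 W.1 X.1 w

/-- The special lifts of special blocks. -/
def SL (X Y Z W : V × ZMod 2) : Prop :=
  L.S X.1 Y.1 Z.1 W.1 ∧ X.2 + Y.2 = L.b X.1 Y.1 Z.1 W.1 + 1 ∧
    Z.2 + W.2 = L.b Z.1 W.1 X.1 Y.1 + 1

/-- The new boundary pairs. -/
def FL (X Y : V × ZMod 2) : Prop := L.F X.1 Y.1 ∧ X.2 + Y.2 = L.c X.1 Y.1 + 1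

/-- The special blocks over boundary pairs. -/
def PH (X Y Z W : V × ZMod 2) : Prop :=
  FL L X Y ∧ ((Z = (X.1, X.2 + 1) ∧ W = (Y.1, Y.2 + 1)) ∨
    (Z = (Y.1, Y.2 + 1) ∧ W = (X.1, X.2 + 1)))

/-- The lifted level. -/
def lift : Lev (V × ZMod 2) where
  hue X := L.hue X.1
  R X Y Z W := RL L s X Y Z W ∨ UU L X Y Z W ∨ UU L X Z Y W ∨ UU L X W Y Z ∨ UU L Y Z X W ∨
    UU L Y W X Z ∨ UU L Z W X Y
  S X Y Z W := SL L X Y Z W ∨ PH L X Y Z W
  F X Y := FL L X Y
  b X Y Z W := if X.1 = Z.1 ∨ X.1 = W.1 ∨ Y.1 = Z.1 ∨ Y.1 = W.1 then h0 L X Y * L.col X.1 Y.1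
    else h0 L X Y + h0 L Z W
  c X Y := h0 L X Y * L.col X.1 Y.1 + 1
  col X Y := L.col X.1 Y.1

end Lift

section Kdefs

variable {V : Type} [DecidableEq V]

/-- `ρ'` is one of the eight lifts of the regular block `ρ`. -/
def LiftOf (L : Lev V) (s : Finset V → ZMod 2) (ρ : Finset V) (ρ' : Finset (V × ZMod 2)) : Prop :=
  ∃ x y z w i j k l, L.R x y z w ∧ i + j + k + l = s {x, y, z, w} ∧ ρ = {x, y, z, w} ∧
    ρ' = {(x, i), (y, j), (z, k), (w, l)}

/-- Sum of `G` over all lifts. -/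
def hat (G : V × ZMod 2 → V × ZMod 2 → V × ZMod 2 → ZMod 2) (x z v : V) : ZMod 2 :=
  ∑ i : ZMod 2, ∑ j : ZMod 2, ∑ l : ZMod 2, G (x, i) (z, j) (v, l)

/-- Sum of `G` over the two lifts of the third vertex. -/
def mm (G : V × ZMod 2 → V × ZMod 2 → V × ZMod 2 → ZMod 2) (X Z : V × ZMod 2) (v : V) : ZMod 2 :=
  G X Z (v, 0) + G X Z (v, 1)

/-- Sum of `mm` over the two lifts of `z`, at `(x, 0)`. -/
def MM (G : V × ZMod 2 → V × ZMod 2 → V × ZMod 2 → ZMod 2) (x z v : V) : ZMod 2 :=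
  mm G (x, 0) (z, 0) v + mm G (x, 0) (z, 1) v

/-- Sum of `G` over the lifts of the pair `x, z`, third vertex `V`. -/
def Gam (G : V × ZMod 2 → V × ZMod 2 → V × ZMod 2 → ZMod 2) (x z : V) (Y : V × ZMod 2) :
    ZMod 2 := ∑ i : ZMod 2, ∑ j : ZMod 2, G (x, i) (z, j) Y

/-- The dual vector used in the second step. -/
def GM (L : Lev V) (G : V × ZMod 2 → V × ZMod 2 → V × ZMod 2 → ZMod 2) (x z v : V) : ZMod 2 :=
  if L.hue x = L.hue z then Gam G x z (v, 0) else MM G x z v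

/-- Sum of `g` over the lifts of the pair `x, z`. -/
def G2 (g : V × ZMod 2 → V × ZMod 2 → ZMod 2) (x z : V) : ZMod 2 :=
  ∑ i : ZMod 2, ∑ j : ZMod 2, g (x, i) (z, j)

/-- A dual vector which does not depend on the third vertex. -/
structure Flat {W : Type} (L : Lev W) (g : W → W → ZMod 2) : Prop where
  sym : ∀ x z, g x z = g z x
  rel : ∀ x y z w, L.R x y z w → g x y + g x z + g x w + g y z + g y w + g z w = 0

/-- Coefficients of `g` on the lifts of a pair. -/
def cc (g : V × ZMod 2 → V × ZMod 2 → ZMod 2) (x z : V) : ZMod 2 := g (x, 0) (z, 0)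

/-- Coefficients of `g` on the lifts of a pair. -/
def aa (g : V × ZMod 2 → V × ZMod 2 → ZMod 2) (x z : V) : ZMod 2 :=
  g (x, 0) (z, 0) + g (x, 1) (z, 0)

end Kdefs

end Pool.Agent.Lib.H97Z
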