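import Pool.Agent.Lib.H97Z.D0

/-! Basic consequences of the axioms: permutations, distinctness. -/

set_option autoImplicit false

namespace Pool.Agent.Lib.H97Z

theorem z2_cases (a : ZMod 2) : a = 0 ∨ a = 1 := by
  revert a; decide

theorem z2_ne {a b : ZMod 2} (h : a ≠ b) : a = b + 1 := by
  revert a b; decide

theorem z2_ne' {a b : ZMod 2} (h : a ≠ b) : b = a + 1 := by
  revert a b; decide

theorem z2_add_self (a : ZMod 2) : a + a = 0 := by
  revert a; decide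

theorem z2_add_one_ne (a : ZMod 2) : a + 1 ≠ a := by
  revert a; decide

theorem z2_ne_add_one (a : ZMod 2) : a ≠ a + 1 := by
  revert a; decide

theorem z2_sum {M : Type} [AddCommMonoid M] (f : ZMod 2 → M) : ∑ i : ZMod 2, f i = f 0 + f 1 := by
  rw [show (Finset.univ : Finset (ZMod 2)) = {0, 1} from rfl]
  rw [Finset.sum_pair (by decide)]

/-- Sums over `ZMod 2` are invariant under translation. -/
theorem z2_sum_add {M : Type} [AddCommMonoid M] (f : ZMod 2 → M) (a : ZMod 2) :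
    ∑ i : ZMod 2, f (i + a) = ∑ i : ZMod 2, f i := by
  exact Equiv.sum_comp (Equiv.addRight a) f

variable {V : Type} [Fintype V] [DecidableEq V] {L : Lev V}

namespace Good

theorem R_yxzw (hL : Good L) {x y z w : V} (h : L.R x y z w) : L.R y x z w :=
  hL.R12 _ _ _ _ h

theorem R_xzyw (hL : Good L) {x y z w : V} (h : L.R x y z w) : L.R x z y w :=
  hL.R23 _ _ _ _ h

theorem R_xywz (hL : Good L) {x y z w : V} (h : L.R x y z w) : L.R x y w z :=
  hL.R34 _ _ _ _ h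

theorem R_yzxw (hL : Good L) {x y z w : V} (h : L.R x y z w) : L.R y z x w :=
  hL.R23 _ _ _ _ (hL.R12 _ _ _ _ h)

theorem R_yxwz (hL : Good L) {x y z w : V} (h : L.R x y z w) : L.R y x w z :=
  hL.R34 _ _ _ _ (hL.R12 _ _ _ _ h)

theorem R_zxyw (hL : Good L) {x y z w : V} (h : L.R x y z w) : L.R z x y w :=
  hL.R12 _ _ _ _ (hL.R23 _ _ _ _ h)

theorem R_xzwy (hL : Good L) {x y z w : V} (h : L.R x y z w) : L.R x z w y :=
  hL.R34 _ _ _ _ (hL.R23 _ _ _ _ h)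

theorem R_xwyz (hL : Good L) {x y z w : V} (h : L.R x y z w) : L.R x w y z :=
  hL.R23 _ _ _ _ (hL.R34 _ _ _ _ h)

theorem R_zyxw (hL : Good L) {x y z w : V} (h : L.R x y z w) : L.R z y x w :=
  hL.R12 _ _ _ _ (hL.R23 _ _ _ _ (hL.R12 _ _ _ _ h))

theorem R_yzwx (hL : Good L) {x y z w : V} (h : L.R x y z w) : L.R y z w x :=
  hL.R34 _ _ _ _ (hL.R23 _ _ _ _ (hL.R12 _ _ _ _ h))

theorem R_ywxz (hL : Good L) {x y z w : V} (h : L.R x y z w) : L.R y w x z :=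
  hL.R23 _ _ _ _ (hL.R34 _ _ _ _ (hL.R12 _ _ _ _ h))

theorem R_zxwy (hL : Good L) {x y z w : V} (h : L.R x y z w) : L.R z x w y :=
  hL.R34 _ _ _ _ (hL.R12 _ _ _ _ (hL.R23 _ _ _ _ h))

theorem R_xwzy (hL : Good L) {x y z w : V} (h : L.R x y z w) : L.R x w z y :=
  hL.R23 _ _ _ _ (hL.R34 _ _ _ _ (hL.R23 _ _ _ _ h))

theorem R_wxyz (hL : Good L) {x y z w : V} (h : L.R x y z w) : L.R w x y z :=
  hL.R12 _ _ _ _ (hL.R23 _ _ _ _ (hL.R34 _ _ _ _ h))

theorem R_zywx (hL : Good L) {x y z w : V} (h : L.R x y z w) : L.R z y w x :=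
  hL.R34 _ _ _ _ (hL.R12 _ _ _ _ (hL.R23 _ _ _ _ (hL.R12 _ _ _ _ h)))

theorem R_ywzx (hL : Good L) {x y z w : V} (h : L.R x y z w) : L.R y w z x :=
  hL.R23 _ _ _ _ (hL.R34 _ _ _ _ (hL.R23 _ _ _ _ (hL.R12 _ _ _ _ h)))

theorem R_wyxz (hL : Good L) {x y z w : V} (h : L.R x y z w) : L.R w y x z :=
  hL.R12 _ _ _ _ (hL.R23 _ _ _ _ (hL.R34 _ _ _ _ (hL.R12 _ _ _ _ h)))

theorem R_zwxy (hL : Good L) {x y z w : V} (h : L.R x y z w) : L.R z w x y :=
  hL.R23 _ _ _ _ (hL.R34 _ _ _ _ (hL.R12 _ _ _ _ (hL.R23 _ _ _ _ h)))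

theorem R_wxzy (hL : Good L) {x y z w : V} (h : L.R x y z w) : L.R w x z y :=
  hL.R12 _ _ _ _ (hL.R23 _ _ _ _ (hL.R34 _ _ _ _ (hL.R23 _ _ _ _ h)))

theorem R_zwyx (hL : Good L) {x y z w : V} (h : L.R x y z w) : L.R z w y x :=
  hL.R23 _ _ _ _ (hL.R34 _ _ _ _ (hL.R12 _ _ _ _ (hL.R23 _ _ _ _ (hL.R12 _ _ _ _ h))))

theorem R_wyzx (hL : Good L) {x y z w : V} (h : L.R x y z w) : L.R w y z x :=
  hL.R12 _ _ _ _ (hL.R23 _ _ _ _ (hL.R34 _ _ _ _ (hL.R23 _ _ _ _ (hL.R12 _ _ _ _ h))))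

theorem R_wzxy (hL : Good L) {x y z w : V} (h : L.R x y z w) : L.R w z x y :=
  hL.R12 _ _ _ _ (hL.R23 _ _ _ _ (hL.R34 _ _ _ _ (hL.R12 _ _ _ _ (hL.R23 _ _ _ _ h))))

theorem R_wzyx (hL : Good L) {x y z w : V} (h : L.R x y z w) : L.R w z y x :=
  hL.R12 _ _ _ _ (hL.R23 _ _ _ _ (hL.R34 _ _ _ _ (hL.R12 _ _ _ _ (hL.R23 _ _ _ _ (hL.R12 _ _ _ _ h)))))

theorem Rne_xy (hL : Good L) {x y z w : V} (h : L.R x y z w) : x ≠ y :=
  hL.Rne _ _ _ _ h

theorem Rne_xz (hL : Good L) {x y z w : V} (h : L.R x y z w) : x ≠ z :=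
  hL.Rne _ _ _ _ (hL.R_xzyw h)

theorem Rne_xw (hL : Good L) {x y z w : V} (h : L.R x y z w) : x ≠ w :=
  hL.Rne _ _ _ _ (hL.R_xwyz h)

theorem Rne_yz (hL : Good L) {x y z w : V} (h : L.R x y z w) : y ≠ z :=
  hL.Rne _ _ _ _ (hL.R_yzxw h)

theorem Rne_yw (hL : Good L) {x y z w : V} (h : L.R x y z w) : y ≠ w :=
  hL.Rne _ _ _ _ (hL.R_ywxz h)

theorem Rne_zw (hL : Good L) {x y z w : V} (h : L.R x y z w) : z ≠ w :=
  hL.Rne _ _ _ _ (hL.R_zwxy h)

theorem S_yxzw (hL : Good L) {x y z w : V} (h : L.S x y z w) : L.S y x z w :=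
  hL.S12 _ _ _ _ h

theorem S_zwxy (hL : Good L) {x y z w : V} (h : L.S x y z w) : L.S z w x y :=
  hL.Sdd _ _ _ _ h

theorem S_zwyx (hL : Good L) {x y z w : V} (h : L.S x y z w) : L.S z w y x :=
  hL.Sdd _ _ _ _ (hL.S12 _ _ _ _ h)

theorem S_wzxy (hL : Good L) {x y z w : V} (h : L.S x y z w) : L.S w z x y :=
  hL.S12 _ _ _ _ (hL.Sdd _ _ _ _ h)

theorem S_wzyx (hL : Good L) {x y z w : V} (h : L.S x y z w) : L.S w z y x :=
  hL.S12 _ _ _ _ (hL.Sdd _ _ _ _ (hL.S12 _ _ _ _ h))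

theorem S_xywz (hL : Good L) {x y z w : V} (h : L.S x y z w) : L.S x y w z :=
  hL.Sdd _ _ _ _ (hL.S12 _ _ _ _ (hL.Sdd _ _ _ _ h))

theorem S_yxwz (hL : Good L) {x y z w : V} (h : L.S x y z w) : L.S y x w z :=
  hL.Sdd _ _ _ _ (hL.S12 _ _ _ _ (hL.Sdd _ _ _ _ (hL.S12 _ _ _ _ h)))

theorem Sne_xy (hL : Good L) {x y z w : V} (h : L.S x y z w) : x ≠ y := fun e =>
  hL.Shue _ _ _ _ h (by rw [e])

theorem Sne_zw (hL : Good L) {x y z w : V} (h : L.S x y z w) : z ≠ w :=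
  hL.Sne_xy (hL.S_zwxy h)

theorem Sne_xz (hL : Good L) {x y z w : V} (h : L.S x y z w) : x ≠ z := hL.Sne _ _ _ _ h

theorem Sne_xw (hL : Good L) {x y z w : V} (h : L.S x y z w) : x ≠ w :=
  hL.Sne _ _ _ _ (hL.S_xywz h)

theorem Sne_yz (hL : Good L) {x y z w : V} (h : L.S x y z w) : y ≠ z :=
  hL.Sne _ _ _ _ (hL.S_yxzw h)

theorem Sne_yw (hL : Good L) {x y z w : V} (h : L.S x y z w) : y ≠ w :=
  hL.Sne _ _ _ _ (hL.S_yxwz h)

theorem Shue_zw (hL : Good L) {x y z w : V} (h : L.S x y z w) : L.hue z ≠ L.hue w :=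
  hL.Shue _ _ _ _ (hL.S_zwxy h)

/-- In a special block `{x,y|z,w}` with `x`, `z` of equal hue, `y`, `w` have the other hue. -/
theorem Shue_eq (hL : Good L) {x y z w : V} (h : L.S x y z w) (hh : L.hue x = L.hue z) :
    L.hue y = L.hue x + 1 ∧ L.hue w = L.hue x + 1 :=
  ⟨z2_ne' (hL.Shue _ _ _ _ h), by rw [hh]; exact z2_ne' (hL.Shue_zw h)⟩

/-- In a special block `{x,y|z,w}` with `x`, `z` of different hue, `w` has the hue of `x` and `y`
the hue of `z`. -/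
theorem Shue_ne (hL : Good L) {x y z w : V} (h : L.S x y z w) (hh : L.hue x ≠ L.hue z) :
    L.hue w = L.hue x ∧ L.hue y = L.hue z := by
  have h1 := hL.Shue _ _ _ _ h
  have h2 := hL.Shue_zw h
  generalize L.hue x = a at *
  generalize L.hue y = b at *
  generalize L.hue z = c at *
  generalize L.hue w = d at *
  revert a b c d
  decide

theorem Fne (hL : Good L) {x y : V} (h : L.F x y) : x ≠ y := fun e =>
  hL.Fhue _ _ h (by rw [e])

theorem Blk_of_R (_hL : Good L) {x y z u : V} (h : L.R x y z u) : Blk L x y z u := Or.inl h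

theorem Blk_of_S (_hL : Good L) {x y z w : V} (h : L.S x y z w) : Blk L x y z w :=
  Or.inr (Or.inl h)

theorem Blk12 (hL : Good L) {x y z u : V} (h : Blk L x y z u) : Blk L y x z u := by
  rcases h with h | h | h | h
  · exact Or.inl (hL.R_yxzw h)
  · exact Or.inr (Or.inl (hL.S_yxzw h))
  · exact Or.inr (Or.inr (Or.inr (hL.S_zwxy h)))
  · exact Or.inr (Or.inr (Or.inl (hL.S_zwxy h)))

theorem Blk23 (hL : Good L) {x y z u : V} (h : Blk L x y z u) : Blk L x z y u := by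
  rcases h with h | h | h | h
  · exact Or.inl (hL.R_xzyw h)
  · exact Or.inr (Or.inr (Or.inl h))
  · exact Or.inr (Or.inl h)
  · exact Or.inr (Or.inr (Or.inr (hL.S_xywz h)))

theorem Blk34 (hL : Good L) {x y z u : V} (h : Blk L x y z u) : Blk L x y u z := by
  rcases h with h | h | h | h
  · exact Or.inl (hL.R_xywz h)
  · exact Or.inr (Or.inl (hL.S_xywz h))
  · exact Or.inr (Or.inr (Or.inr h))
  · exact Or.inr (Or.inr (Or.inl h))

theorem Blk_ne (hL : Good L) {x y z u : V} (h : Blk L x y z u) : x ≠ y := by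
  rcases h with h | h | h | h
  · exact hL.Rne_xy h
  · exact hL.Sne_xy h
  · exact hL.Sne_xz h
  · exact hL.Sne_xz h

theorem Blk_ne4 (hL : Good L) {x y z u : V} (h : Blk L x y z u) :
    x ≠ y ∧ x ≠ z ∧ x ≠ u ∧ y ≠ z ∧ y ≠ u ∧ z ≠ u :=
  ⟨hL.Blk_ne h, hL.Blk_ne (hL.Blk23 h), hL.Blk_ne (hL.Blk23 (hL.Blk34 h)),
    hL.Blk_ne (hL.Blk23 (hL.Blk12 h)), hL.Blk_ne (hL.Blk23 (hL.Blk34 (hL.Blk12 h))),
    hL.Blk_ne (hL.Blk23 (hL.Blk34 (hL.Blk12 (hL.Blk23 h))))⟩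

/-- A triple lies in at most two blocks. -/
theorem two_max (hL : Good L) {x y z s t u : V} (hs : Blk L x y z s) (ht : Blk L x y z t)
    (hu : Blk L x y z u) : s = t ∨ s = u ∨ t = u := by
  obtain ⟨h1, h2, -, h3, -, -⟩ := hL.Blk_ne4 hs
  obtain ⟨p, q, -, -, -, hall⟩ := hL.two x y z h1 h2 h3
  rcases hall _ hs with rfl | rfl <;> rcases hall _ ht with rfl | rfl <;>
    rcases hall _ hu with rfl | rfl <;> simp

/-- The hues of a regular block over a mixed pair. -/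
theorem Rhue_mix (hL : Good L) {x z u v : V} (h : L.R x z u v) (hh : L.hue x ≠ L.hue z) :
    L.hue u = L.hue v := by
  have h1 := hL.Rhue _ _ _ _ h
  generalize L.hue x = a at *
  generalize L.hue z = b at *
  generalize L.hue u = c at *
  generalize L.hue v = d at *
  revert a b c d
  decide

/-- The hues of a regular block over a pure pair. -/
theorem Rhue_pure (hL : Good L) {x z u v : V} (h : L.R x z u v) (hh : L.hue x = L.hue z) :
    L.hue u + L.hue v = 1 := by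
  have h1 := hL.Rhue _ _ _ _ h
  generalize L.hue x = a at *
  generalize L.hue z = b at *
  generalize L.hue u = c at *
  generalize L.hue v = d at *
  revert a b c d
  decide

end Good

end Pool.Agent.Lib.H97Z
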