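import Pool.Agent.Lib.H97Z.D1

/-! Elementary facts about the lifted level. -/

set_option autoImplicit false

namespace Pool.Agent.Lib.H97Z

variable {V : Type} [Fintype V] [DecidableEq V] {L : Lev V} {s : Finset V → ZMod 2}

theorem lift_hue (X : V × ZMod 2) : (lift L s).hue X = L.hue X.1 := rfl

theorem z2_shift (i j l a b c : ZMod 2) (h : b + c = a + (i + j)) :
    i + j + (l + b) + (l + c) = a := by
  revert i j l a b c
  decide

/-- Lifts of regular blocks. -/
theorem lift_R_reg {x y z w : V} {i j k l : ZMod 2} (h : L.R x y z w)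
    (hs : i + j + k + l = s {x, y, z, w}) : (lift L s).R (x, i) (y, j) (z, k) (w, l) :=
  Or.inl ⟨h, hs⟩

/-- The new regular blocks. -/
theorem lift_R_fib {x y z w : V} {i j k k' : ZMod 2} (h : L.S x y z w) (hb : i + j = L.b x y z w)
    (hk : k ≠ k') : (lift L s).R (z, k) (z, k') (x, i) (y, j) :=
  Or.inr (Or.inl ⟨rfl, hk, w, h, hb⟩)

/-- Special lifts of special blocks. -/
theorem lift_S_spec {x y z w : V} {i j k l : ZMod 2} (h : L.S x y z w)
    (h1 : i + j = L.b x y z w + 1) (h2 : k + l = L.b z w x y + 1) :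
    (lift L s).S (x, i) (y, j) (z, k) (w, l) := Or.inl ⟨h, h1, h2⟩

/-- Special blocks over boundary pairs. -/
theorem lift_S_bd {x z : V} {i j : ZMod 2} (h : L.F x z) (h1 : i + j = L.c x z + 1) :
    (lift L s).S (x, i) (z, j) (x, i + 1) (z, j + 1) := Or.inr ⟨⟨h, h1⟩, Or.inl ⟨rfl, rfl⟩⟩

/-- Special blocks over boundary pairs. -/
theorem lift_S_bd' {x z : V} {i j : ZMod 2} (h : L.F x z) (h1 : i + j = L.c x z + 1) :
    (lift L s).S (x, i) (z, j) (z, j + 1) (x, i + 1) := Or.inr ⟨⟨h, h1⟩, Or.inr ⟨rfl, rfl⟩⟩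

/-- A function which is constant along the regular edges of the lifted link, read along a
potential. -/
theorem lift_fun {x z : V} {i j : ZMod 2} {f : V × ZMod 2 → ZMod 2}
    (hf : RC (lift L s) (x, i) (z, j) f) {h : V → ZMod 2}
    (hh : ∀ u v, L.R x z u v → h u + h v = s {x, z, u, v} + (i + j)) (l : ZMod 2) :
    RC L x z (fun v => f (v, l + h v)) := by
  intro u v huv
  apply hf
  apply lift_R_reg huv
  exact z2_shift _ _ _ _ _ _ (hh u v huv)

/-- The same for functions which change along every regular edge. -/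
theorem lift_fun_one {x z : V} {i j : ZMod 2} {f : V × ZMod 2 → ZMod 2}
    (hf : One (lift L s) (x, i) (z, j) f) {h : V → ZMod 2}
    (hh : ∀ u v, L.R x z u v → h u + h v = s {x, z, u, v} + (i + j)) (l : ZMod 2) {η : V → ZMod 2}
    (hη : One L x z η) : RC L x z (fun v => f (v, l + h v) + η v) := by
  intro u v huv
  have h2 := hη u v huv
  have h3 : f (u, l + h u) + f (v, l + h v) = 1 := by
    apply hf
    apply lift_R_reg huv
    exact z2_shift _ _ _ _ _ _ (hh u v huv)
  show f (u, l + h u) + η u = f (v, l + h v) + η v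
  generalize f (u, l + h u) = a at *
  generalize f (v, l + h v) = b at *
  generalize η u = c at *
  generalize η v = d at *
  revert a b c d
  decide

theorem junction_z (hL : Good L) {x y z w : V} (h : L.S x y z w) (i j : ZMod 2) :
    (lift L s).R (x, i) (z, j) (z, j + 1) (y, i + L.b x y z w) := by
  -- the block `{z_0, z_1, x_i, y_{i+p}}`
  refine Or.inr (Or.inr (Or.inr (Or.inr (Or.inl ?_))))
  refine ⟨rfl, z2_ne_add_one j, w, h, ?_⟩
  show i + (i + L.b x y z w) = L.b x y z w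
  rw [← add_assoc, z2_add_self, zero_add]

theorem junction_x (hL : Good L) {x y z w : V} (h : L.S x y z w) (i j : ZMod 2) :
    (lift L s).R (x, i) (z, j) (x, i + 1) (w, j + L.b z w x y) := by
  refine Or.inr (Or.inr (Or.inl ?_))
  refine ⟨rfl, z2_ne_add_one i, y, hL.S_zwxy h, ?_⟩
  show j + (j + L.b z w x y) = L.b z w x y
  rw [← add_assoc, z2_add_self, zero_add]

theorem uturn_a (_hL : Good L) {x z a d : V} (h : L.S x z a d) {i j : ZMod 2}
    (hij : i + j = L.b x z a d) : (lift L s).R (x, i) (z, j) (a, 0) (a, 1) := by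
  refine Or.inr (Or.inr (Or.inr (Or.inr (Or.inr (Or.inr ?_)))))
  exact ⟨rfl, zero_ne_one, d, h, hij⟩

theorem uturn_d (hL : Good L) {x z a d : V} (h : L.S x z a d) {i j : ZMod 2}
    (hij : i + j = L.b x z a d) : (lift L s).R (x, i) (z, j) (d, 0) (d, 1) := by
  refine Or.inr (Or.inr (Or.inr (Or.inr (Or.inr (Or.inr ?_)))))
  exact ⟨rfl, zero_ne_one, a, hL.S_xywz h, by rw [hL.b34]; exact hij⟩

/-- Junction vertices: `RC` functions. -/
theorem rc_junction (hL : Good L) {x y z w : V} (h : L.S x y z w) {i j : ZMod 2}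
    {f : V × ZMod 2 → ZMod 2} (hf : RC (lift L s) (x, i) (z, j) f) :
    f (z, j + 1) = f (y, i + L.b x y z w) ∧ f (x, i + 1) = f (w, j + L.b z w x y) :=
  ⟨hf _ _ (junction_z hL h i j), hf _ _ (junction_x hL h i j)⟩

/-- Junction vertices: `One` functions. -/
theorem one_junction (hL : Good L) {x y z w : V} (h : L.S x y z w) {i j : ZMod 2}
    {f : V × ZMod 2 → ZMod 2} (hf : One (lift L s) (x, i) (z, j) f) :
    f (z, j + 1) + f (y, i + L.b x y z w) = 1 ∧ f (x, i + 1) + f (w, j + L.b z w x y) = 1 :=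
  ⟨hf _ _ (junction_z hL h i j), hf _ _ (junction_x hL h i j)⟩

/-- Turns at a diagonal special block: `RC` functions. -/
theorem rc_uturn (hL : Good L) {x z a d : V} (h : L.S x z a d) {i j : ZMod 2}
    (hij : i + j = L.b x z a d) {f : V × ZMod 2 → ZMod 2}
    (hf : RC (lift L s) (x, i) (z, j) f) : f (a, 0) = f (a, 1) ∧ f (d, 0) = f (d, 1) :=
  ⟨hf _ _ (uturn_a hL h hij), hf _ _ (uturn_d hL h hij)⟩

/-- Turns at a diagonal special block: `One` functions. -/
theorem one_uturn (hL : Good L) {x z a d : V} (h : L.S x z a d) {i j : ZMod 2}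
    (hij : i + j = L.b x z a d) {f : V × ZMod 2 → ZMod 2}
    (hf : One (lift L s) (x, i) (z, j) f) : f (a, 0) + f (a, 1) = 1 ∧ f (d, 0) + f (d, 1) = 1 :=
  ⟨hf _ _ (uturn_a hL h hij), hf _ _ (uturn_d hL h hij)⟩

/-- The special lifts: elimination over a special block with different base points. -/
theorem lift_S_cases {X Y Z W : V × ZMod 2} (h : (lift L s).S X Y Z W) :
    (L.S X.1 Y.1 Z.1 W.1 ∧ X.2 + Y.2 = L.b X.1 Y.1 Z.1 W.1 + 1 ∧
      Z.2 + W.2 = L.b Z.1 W.1 X.1 Y.1 + 1) ∨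
    (L.F X.1 Y.1 ∧ X.2 + Y.2 = L.c X.1 Y.1 + 1 ∧
      ((Z = (X.1, X.2 + 1) ∧ W = (Y.1, Y.2 + 1)) ∨
        (Z = (Y.1, Y.2 + 1) ∧ W = (X.1, X.2 + 1)))) := by
  rcases h with h | ⟨⟨h1, h2⟩, h3⟩
  · exact Or.inl h
  · exact Or.inr ⟨h1, h2, h3⟩

end Pool.Agent.Lib.H97Z
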