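import Pool.Agent.Lib.H97Z.D2

/-! Chunk E1: symmetries of the lifted regular blocks -/

set_option autoImplicit false

namespace Pool.Agent.Lib.H97Z

variable {V : Type} [Fintype V] [DecidableEq V] {L : Lev V} {s : Finset V → ZMod 2}

theorem e1_l {X Y Z W : V × ZMod 2} (h : UU L X Y Z W) : UU L Y X Z W := by
  obtain ⟨h1, h2, w, h3, h4⟩ := h
  rw [h1] at h3 h4
  exact ⟨h1.symm, Ne.symm h2, w, h3, h4⟩

theorem e1_r (hL : Good L) {X Y Z W : V × ZMod 2} (h : UU L X Y Z W) : UU L X Y W Z := by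
  obtain ⟨h1, h2, w, h3, h4⟩ := h
  refine ⟨h1, h2, w, hL.S_yxzw h3, ?_⟩
  rw [add_comm, hL.b12]
  exact h4

theorem e1_hue (a b c d : ZMod 2) (h : a = b) (h' : c ≠ d) : a + b + c + d = 1 := by
  revert a b c d
  decide

theorem e1_uuh (hL : Good L) {X Y Z W : V × ZMod 2} (h : UU L X Y Z W) :
    L.hue X.1 = L.hue Y.1 ∧ L.hue Z.1 ≠ L.hue W.1 := by
  obtain ⟨h1, h2, w, h3, h4⟩ := h
  exact ⟨congrArg L.hue h1, hL.Shue _ _ _ _ h3⟩

theorem e1_uun (hL : Good L) {X Y Z W : V × ZMod 2} (h : UU L X Y Z W) :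
    X.1 ≠ Z.1 ∧ X.1 ≠ W.1 ∧ Y.1 ≠ Z.1 ∧ Y.1 ≠ W.1 ∧ Z.1 ≠ W.1 := by
  obtain ⟨h1, h2, w, h3, h4⟩ := h
  have h5 := hL.Sne_xz h3
  have h6 := hL.Sne_yz h3
  refine ⟨h5.symm, h6.symm, ?_, ?_, hL.Sne_xy h3⟩
  · rw [← h1]
    exact h5.symm
  · rw [← h1]
    exact h6.symm

/-- PROOF. `RL X Y Z W → RL Y X Z W`: `Good.R_yxzw`, `{Y.1, X.1, Z.1, W.1} = {X.1, Y.1, Z.1, W.1}`
(`Finset.insert_comm`), `add_comm`.  The six `UU` terms are permuted; `UU L X Y Z W → UU L Y X Z W` (as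
`X.1 = Y.1`) and `UU L X Y Z W → UU L X Y W Z` (`Good.S_yxzw`, `Good.b12`, `add_comm`). -/
theorem lift_R12 (hL : Good L) (X Y Z W : V × ZMod 2) (h : (lift L s).R X Y Z W) :
    (lift L s).R Y X Z W := by
  rcases h with h | h | h | h | h | h | h
  · refine Or.inl ⟨hL.R_yxzw h.1, ?_⟩
    rw [add_comm Y.2 X.2, h.2, Finset.insert_comm]
  · exact Or.inr (Or.inl (e1_l h))
  · exact Or.inr (Or.inr (Or.inr (Or.inr (Or.inl h))))
  · exact Or.inr (Or.inr (Or.inr (Or.inr (Or.inr (Or.inl h)))))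
  · exact Or.inr (Or.inr (Or.inl h))
  · exact Or.inr (Or.inr (Or.inr (Or.inl h)))
  · exact Or.inr (Or.inr (Or.inr (Or.inr (Or.inr (Or.inr (e1_r hL h))))))

/-- PROOF. As `lift_R12`, with `Good.R_xzyw`. -/
theorem lift_R23 (hL : Good L) (X Y Z W : V × ZMod 2) (h : (lift L s).R X Y Z W) :
    (lift L s).R X Z Y W := by
  rcases h with h | h | h | h | h | h | h
  · refine Or.inl ⟨hL.R_xzyw h.1, ?_⟩
    rw [add_right_comm X.2 Z.2 Y.2, h.2, Finset.insert_comm Y.1 Z.1]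
  · exact Or.inr (Or.inr (Or.inl h))
  · exact Or.inr (Or.inl h)
  · exact Or.inr (Or.inr (Or.inr (Or.inl (e1_r hL h))))
  · exact Or.inr (Or.inr (Or.inr (Or.inr (Or.inl (e1_l h)))))
  · exact Or.inr (Or.inr (Or.inr (Or.inr (Or.inr (Or.inr h)))))
  · exact Or.inr (Or.inr (Or.inr (Or.inr (Or.inr (Or.inl h)))))

/-- PROOF. As `lift_R12`, with `Good.R_xywz`. -/
theorem lift_R34 (hL : Good L) (X Y Z W : V × ZMod 2) (h : (lift L s).R X Y Z W) :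
    (lift L s).R X Y W Z := by
  rcases h with h | h | h | h | h | h | h
  · refine Or.inl ⟨hL.R_xywz h.1, ?_⟩
    rw [add_right_comm (X.2 + Y.2) W.2 Z.2, h.2, Finset.pair_comm Z.1 W.1]
  · exact Or.inr (Or.inl (e1_r hL h))
  · exact Or.inr (Or.inr (Or.inr (Or.inl h)))
  · exact Or.inr (Or.inr (Or.inl h))
  · exact Or.inr (Or.inr (Or.inr (Or.inr (Or.inr (Or.inl h)))))
  · exact Or.inr (Or.inr (Or.inr (Or.inr (Or.inl h))))
  · exact Or.inr (Or.inr (Or.inr (Or.inr (Or.inr (Or.inr (e1_l h))))))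

/-- PROOF. `RL`: `X.1 ≠ Y.1`.  `UU L X Y Z W`: `X.2 ≠ Y.2`.  `UU L X Z Y W`: `L.S Y.1 W.1 X.1 w`, so `Y.1 ≠ X.1`
(`Good.Sne_xz`); in the same way for the others, and `UU L Z W X Y` gives `L.S X.1 Y.1 Z.1 w` with
`X.1 ≠ Y.1` (`Good.Sne_xy`). -/
theorem lift_Rne (hL : Good L) (X Y Z W : V × ZMod 2) (h : (lift L s).R X Y Z W) : X ≠ Y := by
  rintro rfl
  rcases h with h | h | h | h | h | h | h
  · exact hL.Rne_xy h.1 rfl
  · exact h.2.1 rfl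
  · exact (e1_uun hL h).1 rfl
  · exact (e1_uun hL h).1 rfl
  · exact (e1_uun hL h).1 rfl
  · exact (e1_uun hL h).1 rfl
  · exact (e1_uun hL h).2.2.2.2 rfl

/-- PROOF. `RL`: `Good.Rhue`.  `UU L X Y Z W`: `hue X + hue Y = 0` (same base vertex) and
`hue Z + hue W = 1` as they are different (`Good.Shue`); the others in the same way. -/
theorem lift_Rhue (hL : Good L) (X Y Z W : V × ZMod 2) (h : (lift L s).R X Y Z W) :
    (lift L s).hue X + (lift L s).hue Y + (lift L s).hue Z + (lift L s).hue W = 1 := by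
  show L.hue X.1 + L.hue Y.1 + L.hue Z.1 + L.hue W.1 = 1
  rcases h with h | h | h | h | h | h | h
  · exact hL.Rhue _ _ _ _ h.1
  · exact e1_hue _ _ _ _ (e1_uuh hL h).1 (e1_uuh hL h).2
  · have h1 := e1_hue _ _ _ _ (e1_uuh hL h).1 (e1_uuh hL h).2
    rw [← h1]
    ring
  · have h1 := e1_hue _ _ _ _ (e1_uuh hL h).1 (e1_uuh hL h).2
    rw [← h1]
    ring
  · have h1 := e1_hue _ _ _ _ (e1_uuh hL h).1 (e1_uuh hL h).2
    rw [← h1]
    ring
  · have h1 := e1_hue _ _ _ _ (e1_uuh hL h).1 (e1_uuh hL h).2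
    rw [← h1]
    ring
  · have h1 := e1_hue _ _ _ _ (e1_uuh hL h).1 (e1_uuh hL h).2
    rw [← h1]
    ring

end Pool.Agent.Lib.H97Z
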