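import Pool.Agent.Lib.H97Z.D2

/-! Chunk E2: symmetries of the lifted special blocks -/

set_option autoImplicit false

namespace Pool.Agent.Lib.H97Z

variable {V : Type} [Fintype V] [DecidableEq V] {L : Lev V} {s : Finset V → ZMod 2}

theorem e2_fst {A B : Type} {X : A × B} {a : A} {b : B} (h : X = (a, b)) : X.1 = a := by
  rw [h]

theorem e2_two (a : ZMod 2) : a = a + 1 + 1 := by
  revert a
  decide

theorem e2_two' (a b c : ZMod 2) (h : a + b = c) : a + 1 + (b + 1) = c := by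
  revert a b c
  decide

theorem e2_three (a b c : ZMod 2) (h : a + b = c) (h' : a + (b + 1) = c) : False := by
  revert a b c
  decide

/-- PROOF. `SL`: `Good.S12`, `Good.b12`, `Good.b34`, `add_comm`.  `PH`: `L.F Y.1 X.1`, `L.c Y.1 X.1 = L.c X.1 Y.1`
(`Good.F12`, `Good.c12`), and the two alternatives are exchanged. -/
theorem lift_S12 (hL : Good L) (X Y Z W : V × ZMod 2) (h : (lift L s).S X Y Z W) :
    (lift L s).S Y X Z W := by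
  rcases h with ⟨h1, h2, h3⟩ | ⟨⟨h1, h2⟩, h3⟩
  · refine Or.inl ⟨hL.S_yxzw h1, ?_, ?_⟩
    · rw [add_comm, hL.b12]
      exact h2
    · rw [hL.b34]
      exact h3
  · refine Or.inr ⟨⟨hL.F12 _ _ h1, ?_⟩, ?_⟩
    · rw [add_comm, hL.c12]
      exact h2
    · rcases h3 with h3 | h3
      · exact Or.inr h3
      · exact Or.inl h3

/-- PROOF. `SL`: `Good.Sdd`.  `PH L X Y Z W` with `Z = (X.1, X.2 + 1)`, `W = (Y.1, Y.2 + 1)`: `Z.2 + W.2 = X.2 + Y.2`,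
`X = (Z.1, Z.2 + 1)`, `Y = (W.1, W.2 + 1)`.  With `Z = (Y.1, Y.2 + 1)`, `W = (X.1, X.2 + 1)`: `L.F Z.1 W.1` by
`Good.F12`, `Good.c12`, `X = (W.1, W.2 + 1)`, `Y = (Z.1, Z.2 + 1)`. -/
theorem lift_Sdd (hL : Good L) (X Y Z W : V × ZMod 2) (h : (lift L s).S X Y Z W) :
    (lift L s).S Z W X Y := by
  rcases h with ⟨h1, h2, h3⟩ | ⟨⟨h1, h2⟩, h3⟩
  · exact Or.inl ⟨hL.S_zwxy h1, h3, h2⟩
  · rcases h3 with ⟨rfl, rfl⟩ | ⟨rfl, rfl⟩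
    · refine Or.inr ⟨⟨h1, e2_two' _ _ _ h2⟩, Or.inl ⟨?_, ?_⟩⟩
      · exact Prod.ext rfl (e2_two _)
      · exact Prod.ext rfl (e2_two _)
    · refine Or.inr ⟨⟨hL.F12 _ _ h1, ?_⟩, Or.inr ⟨?_, ?_⟩⟩
      · show Y.2 + 1 + (X.2 + 1) = L.c Y.1 X.1 + 1
        rw [hL.c12, add_comm]
        exact e2_two' _ _ _ h2
      · exact Prod.ext rfl (e2_two _)
      · exact Prod.ext rfl (e2_two _)

/-- PROOF. `SL`: `X.1 ≠ Z.1`.  `PH`: `Z.1 = X.1`, `Z.2 = X.2 + 1`, or `Z.1 = Y.1 ≠ X.1` (`Good.Fne`). -/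
theorem lift_Sne (hL : Good L) (X Y Z W : V × ZMod 2) (h : (lift L s).S X Y Z W) : X ≠ Z := by
  rintro rfl
  rcases h with ⟨h1, h2, h3⟩ | ⟨⟨h1, h2⟩, h3⟩
  · exact hL.Sne_xz h1 rfl
  · rcases h3 with ⟨h3, -⟩ | ⟨h3, -⟩
    · exact z2_ne_add_one _ (congrArg Prod.snd h3)
    · exact hL.Fne h1 (e2_fst h3)

/-- PROOF. `Good.Shue`, `Good.Fhue`. -/
theorem lift_Shue (hL : Good L) (X Y Z W : V × ZMod 2) (h : (lift L s).S X Y Z W) :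
    (lift L s).hue X ≠ (lift L s).hue Y := by
  show L.hue X.1 ≠ L.hue Y.1
  rcases h with ⟨h1, h2, h3⟩ | ⟨⟨h1, h2⟩, h3⟩
  · exact hL.Shue _ _ _ _ h1
  · exact hL.Fhue _ _ h1

/-- PROOF. Let `S X Y Z W` and `S X Z Y W`.  `SL`, `SL`: `Good.Sex`.  `SL L X Y Z W`, `PH L X Z Y W`: `Y.1 = X.1` or
`Y.1 = Z.1`, against `Good.Sne_xy`, `Good.Sne_yz`.  `PH L X Y Z W`, `SL L X Z Y W`: `Z.1 = X.1` or `Z.1 = Y.1`, in the
same way.  `PH`, `PH`: `X.1`, `Z.1` have different hues, so `Z = (Y.1, Y.2 + 1)`; then `X.2 + Y.2 = L.c X.1 Y.1 + 1`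
and `X.2 + (Y.2 + 1) = L.c X.1 Y.1 + 1`, contradiction. -/
theorem lift_Sex (hL : Good L) (X Y Z W : V × ZMod 2) (h : (lift L s).S X Y Z W) :
    ¬ (lift L s).S X Z Y W := by
  intro h'
  rcases h with ⟨h1, h2, h3⟩ | ⟨⟨h1, h2⟩, h3⟩ <;> rcases h' with ⟨g1, g2, g3⟩ | ⟨⟨g1, g2⟩, g3⟩
  · exact hL.Sex _ _ _ _ h1 g1
  · rcases g3 with ⟨g3, -⟩ | ⟨g3, -⟩
    · exact hL.Sne_xy h1 (e2_fst g3).symm
    · exact hL.Sne_yz h1 (e2_fst g3)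
  · rcases h3 with ⟨h3, -⟩ | ⟨h3, -⟩
    · exact hL.Sne_xy g1 (e2_fst h3).symm
    · exact hL.Sne_yz g1 (e2_fst h3)
  · rcases h3 with ⟨h3, -⟩ | ⟨h3, -⟩
    · exact hL.Fne g1 (e2_fst h3).symm
    · subst h3
      exact e2_three _ _ _ h2 g2

end Pool.Agent.Lib.H97Z
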