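import Pool.Agent.Lib.H97Z.D2

/-! Chunk E3: the other symmetries of the lift -/

set_option autoImplicit false

namespace Pool.Agent.Lib.H97Z

variable {V : Type} [Fintype V] [DecidableEq V] {L : Lev V} {s : Finset V → ZMod 2}

theorem e3_h0 (L : Lev V) (X Y : V × ZMod 2) : h0 L X Y = h0 L Y X :=
  add_comm _ _

/-- PROOF. `Good.F12`, `Good.c12`, `add_comm`. -/
theorem lift_F12 (hL : Good L) (X Y : V × ZMod 2) (h : (lift L s).F X Y) : (lift L s).F Y X := by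
  refine ⟨hL.F12 _ _ h.1, ?_⟩
  rw [add_comm, hL.c12]
  exact h.2

/-- PROOF. `Good.Fhue`. -/
theorem lift_Fhue (hL : Good L) (X Y : V × ZMod 2) (h : (lift L s).F X Y) :
    (lift L s).hue X ≠ (lift L s).hue Y := by
  exact hL.Fhue _ _ h.1

/-- PROOF. `h0 L X Y = h0 L Y X` (`add_comm`), `Good.col12`; the condition of the `if` is symmetric
(distinguish the cases with `by_cases`). -/
theorem lift_b12 (hL : Good L) (X Y Z W : V × ZMod 2) :
    (lift L s).b X Y Z W = (lift L s).b Y X Z W := by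
  show (if X.1 = Z.1 ∨ X.1 = W.1 ∨ Y.1 = Z.1 ∨ Y.1 = W.1 then h0 L X Y * L.col X.1 Y.1
    else h0 L X Y + h0 L Z W) = if Y.1 = Z.1 ∨ Y.1 = W.1 ∨ X.1 = Z.1 ∨ X.1 = W.1 then
    h0 L Y X * L.col Y.1 X.1 else h0 L Y X + h0 L Z W
  rw [e3_h0 L X Y, hL.col12 X.1 Y.1]
  have e : (X.1 = Z.1 ∨ X.1 = W.1 ∨ Y.1 = Z.1 ∨ Y.1 = W.1) ↔
      (Y.1 = Z.1 ∨ Y.1 = W.1 ∨ X.1 = Z.1 ∨ X.1 = W.1) := by tauto
  rw [if_congr e rfl rfl]

/-- PROOF. As `lift_b12`. -/
theorem lift_b34 (hL : Good L) (X Y Z W : V × ZMod 2) :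
    (lift L s).b X Y Z W = (lift L s).b X Y W Z := by
  show (if X.1 = Z.1 ∨ X.1 = W.1 ∨ Y.1 = Z.1 ∨ Y.1 = W.1 then h0 L X Y * L.col X.1 Y.1
    else h0 L X Y + h0 L Z W) = if X.1 = W.1 ∨ X.1 = Z.1 ∨ Y.1 = W.1 ∨ Y.1 = Z.1 then
    h0 L X Y * L.col X.1 Y.1 else h0 L X Y + h0 L W Z
  rw [e3_h0 L Z W]
  have e : (X.1 = Z.1 ∨ X.1 = W.1 ∨ Y.1 = Z.1 ∨ Y.1 = W.1) ↔
      (X.1 = W.1 ∨ X.1 = Z.1 ∨ Y.1 = W.1 ∨ Y.1 = Z.1) := by tauto
  rw [if_congr e rfl rfl]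

/-- PROOF. As `lift_b12`. -/
theorem lift_c12 (hL : Good L) (X Y : V × ZMod 2) : (lift L s).c X Y = (lift L s).c Y X := by
  show h0 L X Y * L.col X.1 Y.1 + 1 = h0 L Y X * L.col Y.1 X.1 + 1
  rw [e3_h0 L X Y, hL.col12 X.1 Y.1]

/-- PROOF. `Good.col12`. -/
theorem lift_col12 (hL : Good L) (X Y : V × ZMod 2) :
    (lift L s).col X Y = (lift L s).col Y X := by
  exact hL.col12 _ _

/-- The bit of a special lift of a special block.
PROOF. The four base vertices are distinct, so the `if` takes its second value. -/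
theorem lift_b_spec (hL : Good L) {x y z w : V} (h : L.S x y z w) (i j k l : ZMod 2) :
    (lift L s).b (x, i) (y, j) (z, k) (w, l) = h0 L (x, i) (y, j) + h0 L (z, k) (w, l) := by
  refine if_neg ?_
  rintro (e | e | e | e)
  · exact hL.Sne_xz h e
  · exact hL.Sne_xw h e
  · exact hL.Sne_yz h e
  · exact hL.Sne_yw h e

/-- The bit of a special block over a boundary pair. PROOF. Definition. -/
theorem lift_b_bd (x z : V) (i j k l : ZMod 2) :
    (lift L s).b (x, i) (z, j) (x, k) (z, l) = h0 L (x, i) (z, j) * L.col x z ∧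
      (lift L s).b (x, i) (z, j) (z, k) (x, l) = h0 L (x, i) (z, j) * L.col x z := by
  exact ⟨if_pos (Or.inl rfl), if_pos (Or.inr (Or.inl rfl))⟩

end Pool.Agent.Lib.H97Z
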