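import Pool.Agent.Lib.H97Z.E1
import Pool.Agent.Lib.H97Z.E2

/-! Chunk E4: symmetries of the lifted blocks -/

set_option autoImplicit false

namespace Pool.Agent.Lib.H97Z

variable {V : Type} [Fintype V] [DecidableEq V] {L : Lev V} {s : Finset V → ZMod 2}

/-- PROOF. As `Good.Blk12`, with `lift_R12`, `lift_S12`, `lift_Sdd`. -/
theorem lift_Blk12 (hL : Good L) {X Y Z U : V × ZMod 2} (h : Blk (lift L s) X Y Z U) :
    Blk (lift L s) Y X Z U := by
  rcases h with h | h | h | h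
  · exact Or.inl (lift_R12 hL _ _ _ _ h)
  · exact Or.inr (Or.inl (lift_S12 hL _ _ _ _ h))
  · exact Or.inr (Or.inr (Or.inr (lift_Sdd hL _ _ _ _ h)))
  · exact Or.inr (Or.inr (Or.inl (lift_Sdd hL _ _ _ _ h)))

/-- PROOF. As `Good.Blk23`, with `lift_R23`, `lift_S12`, `lift_Sdd`. -/
theorem lift_Blk23 (hL : Good L) {X Y Z U : V × ZMod 2} (h : Blk (lift L s) X Y Z U) :
    Blk (lift L s) X Z Y U := by
  rcases h with h | h | h | h
  · exact Or.inl (lift_R23 hL _ _ _ _ h)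
  · exact Or.inr (Or.inr (Or.inl h))
  · exact Or.inr (Or.inl h)
  · exact Or.inr (Or.inr (Or.inr (lift_Sdd hL _ _ _ _ (lift_S12 hL _ _ _ _
      (lift_Sdd hL _ _ _ _ h)))))

end Pool.Agent.Lib.H97Z
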