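import Pool.Agent.Lib.H97Z.M4
import Pool.Agent.Lib.H97Z.B6

/-! Chunk M5: the lift of a mixed pair -/

set_option autoImplicit false

namespace Pool.Agent.Lib.H97Z

variable {V : Type} [Fintype V] [DecidableEq V] {L : Lev V} {s : Finset V → ZMod 2}

theorem m5_a : ∀ t a b : ZMod 2, t ≠ a → a + b = 1 → t = b := by decide

/-- PROOF. `Sol.m` gives the data.  If `i + j = L.b x z a d`: `mix_lift1`.  Otherwise
`i + j = L.b x z a' d'` (`MixAt.bit`): `mix_lift1` with `MixAt.swap`, `EqM.swap`. -/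
theorem mix_lift (hL : Good L) (hS : Sol L s) {x z : V} (hh : L.hue x ≠ L.hue z)
    (hF : ¬ L.F x z) (i j : ZMod 2) :
    ∃ y w y' w' a d a' d', MixAt (lift L s) (x, i) (z, j) y w y' w' a d a' d' := by
  obtain ⟨y, w, y', w', a, d, a', d', hM, hE⟩ := hS.m x z hh hF
  by_cases hij : i + j = L.b x z a d
  · obtain ⟨k, hk⟩ := mix_lift1 hL hh hF hM hE hij
    exact ⟨_, _, _, _, _, _, _, _, hk⟩
  · obtain ⟨k, hk⟩ := mix_lift1 hL hh hF hM.swap hE.swap (m5_a _ _ _ hij hM.bit)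
    exact ⟨_, _, _, _, _, _, _, _, hk⟩

end Pool.Agent.Lib.H97Z
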