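import Pool.Agent.Lib.H97Z.N1
import Pool.Agent.Lib.H97Z.E3

/-! Chunk N2: boundary pairs, the lifted boundary pair: assembly -/

set_option autoImplicit false

namespace Pool.Agent.Lib.H97Z

variable {V : Type} [Fintype V] [DecidableEq V] {L : Lev V} {s : Finset V → ZMod 2}

theorem n2_a : ∀ i A : ZMod 2, i + (i + A + 1) = A + 1 := by decide
theorem n2_b : ∀ i A p : ZMod 2, i + p = A + 1 → p = i + A + 1 := by decide
theorem n2_c : ∀ t c b : ZMod 2, t = c + 1 → c = b + 1 → t = b := by decide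
theorem n2_d : ∀ i j c : ZMod 2, i + j = c + 1 → i + (j + 1) = c + 1 → False := by decide
theorem n2_e : ∀ j q : ZMod 2, j = q + 1 → q = j + 1 := by decide

/-- PROOF. `Sol.f` gives `BdAt`, `EqB`; the data of the lift are `(y, i+A+1) (w, j+B+1) (x, i+1) (z, j+1)`.
`FL`: `i + j = L.c x z + 1 = L.b x z a d` (`BdAt.c`).  `s1`: `lift_S_spec`.  `all`: `lift_S_cases`: over `BdAt.all`, or `PH`:
`(z, j) = (x, _)` impossible, `(z, j) = (P.1, P.2 + 1)` gives `P = (z, j + 1)` and `i + (j + 1) = c + 1`,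
contradiction.  `t1`: `lift_S_bd`.  `ha`: refl.  `tall`: over `BdAt.tall` a special lift needs
`i + j = L.b x z a d + 1`, contradiction; `PH`: `P = (x, i + 1)`, `Q = (z, j + 1)`, or `P.1 = z` with the other hue.
`c`: `lift_b_bd` and the definition of `c` of the lift.  `cl`, `van`, `par`: `bd1_cl`, `bd1_van`, `bd1_par`. -/
theorem bd_lift (hL : Good L) (hS : Sol L s) {x z : V} (hF : L.F x z) {i j : ZMod 2}
    (hij : i + j = L.c x z + 1) :
    ∃ y w a d, BdAt (lift L s) (x, i) (z, j) y w a d := by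
  obtain ⟨y, w, a, d, hM, hE⟩ := hS.f x z hF
  have hxz : x ≠ z := hL.Fne hF
  have hb : i + j = L.b x z a d := n2_c _ _ _ hij hM.c
  obtain ⟨ht, hht, -⟩ := bd_ht hL hxz hM hE i j
  refine ⟨(y, i + L.b x y z w + 1), (w, j + L.b z w x y + 1), (x, i + 1), (z, j + 1),
    { s1 := lift_S_spec hM.s1 (n2_a _ _) (n2_a _ _)
      all := ?_
      t1 := lift_S_bd hF hij
      ha := rfl
      tall := ?_
      c := ?_
      cl := fun f hf => bd1_cl hL hM hb hht hf
      van := fun f hf h1 h2 => bd1_van hL hM hb hht hf h1 h2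
      par := fun f hf => bd1_par hL hxz hM hb hht hf }⟩
  · rintro ⟨p, k⟩ ⟨q, l⟩ h
    rcases lift_S_cases h with ⟨h1, h2, h3⟩ | ⟨h1, h2, h3⟩
    · have h1' : L.S x p z q := h1
      have h2' : i + k = L.b x p z q + 1 := h2
      have h3' : j + l = L.b z q x p + 1 := h3
      obtain ⟨rfl, rfl⟩ := hM.all p q h1'
      exact ⟨by rw [n2_b _ _ _ h2'], by rw [n2_b _ _ _ h3']⟩
    · exfalso
      have h2' : i + k = L.c x p + 1 := h2
      rcases h3 with ⟨h3, -⟩ | ⟨h3, -⟩
      · exact hxz (congrArg Prod.fst h3).symm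
      · have e1 : z = p := congrArg Prod.fst h3
        have e2 : j = k + 1 := congrArg Prod.snd h3
        rw [n2_e _ _ e2, ← e1] at h2'
        exact n2_d _ _ _ hij h2'
  · rintro ⟨p, k⟩ ⟨q, l⟩ h hhue
    have hhue' : L.hue p = L.hue x := hhue
    rcases lift_S_cases h with ⟨h1, h2, h3⟩ | ⟨h1, h2, h3⟩
    · exfalso
      have h1' : L.S x z p q := h1
      have h2' : i + j = L.b x z p q + 1 := h2
      obtain ⟨rfl, rfl⟩ := hM.tall p q h1' hhue'
      rw [hb] at h2'
      exact absurd h2' (z2_ne_add_one _)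
    · rcases h3 with ⟨h3, h4⟩ | ⟨h3, h4⟩
      · exact ⟨h3, h4⟩
      · exfalso
        have e1 : p = z := congrArg Prod.fst h3
        rw [e1] at hhue'
        exact hL.Fhue _ _ hF hhue'.symm
  · rw [(lift_b_bd x z i j (i + 1) (j + 1)).1]
    rfl

end Pool.Agent.Lib.H97Z
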