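import Pool.Agent.Lib.H97Z.N3
import Pool.Agent.Lib.H97Z.E3

/-! Chunk N4: boundary pairs, the other parity: assembly -/

set_option autoImplicit false

namespace Pool.Agent.Lib.H97Z

variable {V : Type} [Fintype V] [DecidableEq V] {L : Lev V} {s : Finset V → ZMod 2}

theorem n4_a : ∀ i A : ZMod 2, i + (i + A + 1) = A + 1 := by decide
theorem n4_b : ∀ i A p : ZMod 2, i + p = A + 1 → p = i + A + 1 := by decide
theorem n4_c : ∀ i A : ZMod 2, i + 1 + (i + A) = A + 1 := by decide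
theorem n4_e : ∀ k b : ZMod 2, k + 1 + b + 1 = k + b := by decide
theorem n4_f : ∀ j q : ZMod 2, j = q + 1 → q = j + 1 := by decide
theorem n4_g : ∀ j : ZMod 2, j + 1 + 1 = j := by decide
theorem n4_i : ∀ i j c : ZMod 2, i + j = c → i + (j + 1) = c + 1 := by decide
theorem n4_two : ∀ l p : ZMod 2, l = p ∨ l = p + 1 := by decide

theorem n4_bit (u a d k b : ZMod 2) (h : a ≠ d) :
    u + ((1 + a) * k + (1 + d) * (k + b + 1)) + (u + ((1 + a) * (k + 1) + (1 + d) * (k + b))) =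
      1 := by
  revert u a d k b
  decide

/-- PROOF. `Sol.f` gives `BdAt`, `EqB`; `i + j = L.c x z = L.b x z a d + 1`; `ht` from `bd_ht`,
`k := j + L.b z w x y + 1 + ht w + ht a`; the data of the lift are
`(y, i+A+1) (w, j+B+1) (z, j+1) (x, i+1) (a, k) (d, k+b+1) (a, k+1) (d, k+b)` with `b = L.b a d x z`.
`s1`, `t1`, `t2`: `lift_S_spec`; `s2`: `lift_S_bd'` for `(x, i)`, `(z, j+1)` (`j + 1 + 1 = j`).  `ne`: `y ≠ z`.
`all`: `lift_S_cases`: over `BdAt.all`, or `PH`: `(z, j) = (P.1, P.2 + 1)`, so `P = (z, j+1)`, `Q = (x, i+1)`.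
`tall`: over `BdAt.tall`, the index of `a` is `k` or `k + 1`; `PH` needs `i + j = L.c x z + 1`, contradiction.
`bit`: `lift_b_spec`, as in `mix_lift1`.  `cl`, `van`, `par`: `bd2_cl`, `bd2_van`, `bd2_par`. -/
theorem bd_lift_mix (hL : Good L) (hS : Sol L s) {x z : V} (hF : L.F x z) {i j : ZMod 2}
    (hij : i + j = L.c x z) :
    ∃ y w y' w' a d a' d', MixAt (lift L s) (x, i) (z, j) y w y' w' a d a' d' := by
  obtain ⟨y, w, a, d, hM, hE⟩ := hS.f x z hF
  have hxz : x ≠ z := hL.Fne hF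
  have hb : i + j = L.b x z a d + 1 := hij.trans hM.c
  obtain ⟨ht, hht, hsum⟩ := bd_ht hL hxz hM hE i j
  obtain ⟨k, hk⟩ : ∃ k, k = j + L.b z w x y + 1 + ht w + ht a := ⟨_, rfl⟩
  refine ⟨(y, i + L.b x y z w + 1), (w, j + L.b z w x y + 1), (z, j + 1), (x, i + 1), (a, k),
    (d, k + L.b a d x z + 1), (a, k + 1), (d, k + L.b a d x z),
    { s1 := lift_S_spec hM.s1 (n4_a _ _) (n4_a _ _)
      s2 := ?_
      ne := ?_
      all := ?_
      t1 := lift_S_spec hM.t1 hb (n4_a _ _)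
      t2 := lift_S_spec hM.t1 hb (n4_c _ _)
      ha := hM.ha
      ha' := hM.ha
      tall := ?_
      bit := ?_
      cl := fun f hf => bd2_cl hL hM hb hht hsum hf hk
      van := fun f hf h1 h2 h3 h4 => bd2_van hL hM hht hf h1 h2 h3 h4
      par := fun f hf => bd2_par hL hxz hM hb hht hsum hf hk }⟩
  · have := lift_S_bd' (s := s) hF (i := i) (j := j + 1) (n4_i _ _ _ hij)
    rwa [n4_g] at this
  · rintro ⟨h1, -⟩
    exact hL.Sne_yz hM.s1 (congrArg Prod.fst h1)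
  · rintro ⟨p, m⟩ ⟨q, l⟩ h
    rcases lift_S_cases h with ⟨h1, h2, h3⟩ | ⟨h1, h2, h3⟩
    · have h1' : L.S x p z q := h1
      have h2' : i + m = L.b x p z q + 1 := h2
      have h3' : j + l = L.b z q x p + 1 := h3
      obtain ⟨rfl, rfl⟩ := hM.all p q h1'
      exact Or.inl ⟨by rw [n4_b _ _ _ h2'], by rw [n4_b _ _ _ h3']⟩
    · rcases h3 with ⟨h3, -⟩ | ⟨h3, h4⟩
      · exact absurd (congrArg Prod.fst h3).symm hxz
      · refine Or.inr ⟨?_, h4⟩
        have e1 : z = p := congrArg Prod.fst h3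
        have e2 : j = m + 1 := congrArg Prod.snd h3
        rw [n4_f _ _ e2, e1]
  · rintro ⟨p, m⟩ ⟨q, l⟩ h hhue
    rcases lift_S_cases h with ⟨h1, h2, h3⟩ | ⟨h1, h2, h3⟩
    · have h1' : L.S x z p q := h1
      have h3' : m + l = L.b p q x z + 1 := h3
      have hhue' : L.hue p = L.hue x := hhue
      obtain ⟨rfl, rfl⟩ := hM.tall p q h1' hhue'
      have hl : l = m + L.b p q x z + 1 := n4_b _ _ _ h3'
      rcases n4_two m k with rfl | rfl
      · exact Or.inl ⟨rfl, by rw [hl]⟩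
      · exact Or.inr ⟨rfl, by rw [hl, n4_e]⟩
    · have h2' : i + j = L.c x z + 1 := h2
      rw [hij] at h2'
      exact absurd h2' (z2_ne_add_one _)
  · rw [lift_b_spec hL hM.t1, lift_b_spec hL hM.t1]
    exact n4_bit _ _ _ _ _ (hL.Shue_zw hM.t1)

end Pool.Agent.Lib.H97Z
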