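import Pool.Agent.Lib.H97Z.D2

/-! Chunk O1: numbers and connectedness in the lift -/

set_option autoImplicit false

namespace Pool.Agent.Lib.H97Z

variable {V : Type} [Fintype V] [DecidableEq V] {L : Lev V} {s : Finset V → ZMod 2}

/-- PROOF. The set is the product of the set of vertices of hue `h` with `ZMod 2`. -/
theorem lift_card (h : ZMod 2) :
    (Finset.univ.filter fun v : V × ZMod 2 => (lift L s).hue v = h).card =
      2 * (Finset.univ.filter fun v : V => L.hue v = h).card := by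
  have e : (Finset.univ.filter fun v : V × ZMod 2 => (lift L s).hue v = h) =
      (Finset.univ.filter fun v : V => L.hue v = h) ×ˢ (Finset.univ : Finset (ZMod 2)) := by
    ext ⟨v, i⟩
    rw [Finset.mem_product, Finset.mem_filter, Finset.mem_filter]
    exact ⟨fun hh => ⟨⟨Finset.mem_univ _, hh.2⟩, Finset.mem_univ _⟩,
      fun hh => ⟨Finset.mem_univ _, hh.1.2⟩⟩
  rw [e, Finset.card_product, mul_comm]
  rfl

/-- PROOF. Every `x` has a vertex `z` of the other hue with `¬ L.F x z`: at least four vertices have the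
other hue (`Good.big`) and only `u`, `u'` of `RotAt` are excluded. -/
theorem exists_mixnb (hL : Good L) (x : V) : ∃ z, L.hue x ≠ L.hue z ∧ ¬ L.F x z := by
  obtain ⟨u, u', hR⟩ := hL.rot x
  have hb := hL.big (L.hue x + 1)
  have hc : ({u, u'} : Finset V).card ≤ 2 := Finset.card_le_two
  obtain ⟨z, hz, hz'⟩ := Finset.exists_mem_notMem_of_card_lt_card
    (lt_of_le_of_lt hc (lt_of_lt_of_le (by norm_num) hb))
  refine ⟨z, ?_, ?_⟩
  · have h1 : L.hue z = L.hue x + 1 := (Finset.mem_filter.mp hz).2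
    rw [h1]
    exact z2_ne_add_one _
  · intro hF
    rcases hR.all z hF with rfl | rfl
    · exact hz' (Finset.mem_insert_self _ _)
    · exact hz' (Finset.mem_insert_of_mem (Finset.mem_singleton_self _))

/-- PROOF. For `L.hue x ≠ L.hue z`, `¬ L.F x z`: `r (x, i) = r (z, j)` for all `i, j`; with `exists_mixnb`
`r (x, 0) = r (x, 1)`, and `fun x => r (x, 0)` satisfies the hypothesis of `Good.conn`. -/
theorem lift_conn (hL : Good L) (r : V × ZMod 2 → ZMod 2)
    (hr : ∀ x z, (lift L s).hue x ≠ (lift L s).hue z → ¬ (lift L s).F x z → r x = r z) :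
    ∀ x z, r x = r z := by
  have key : ∀ x z, L.hue x ≠ L.hue z → ¬ L.F x z → ∀ i j, r (x, i) = r (z, j) :=
    fun x z h1 h2 i j => hr (x, i) (z, j) h1 fun h => h2 h.1
  have h01 : ∀ x i, r (x, i) = r (x, 0) := fun x i => by
    obtain ⟨z, hz1, hz2⟩ := exists_mixnb hL x
    rw [key x z hz1 hz2 i 0, key x z hz1 hz2 0 0]
  rintro ⟨x, i⟩ ⟨z, j⟩
  rw [h01 x i, h01 z j]
  exact hL.conn (fun x => r (x, 0)) (fun x z h1 h2 => key x z h1 h2 0 0) x z

theorem o1_k : ∀ i j l a : ZMod 2, i + j + (a + i + j + l) + l = a := by decide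

/-- PROOF. `D = (d, l)`.  If `L.R x y z d`, `L.hue x = L.hue y ≠ L.hue d`: for all `i, j` there is `k` with
`(lift L s).R (x, i) (y, j) (z, k) (d, l)`, so `r (x, i) = r (y, j)` for all `i, j`; by `Good.ni2` every `x` with
`L.hue x ≠ L.hue d` occurs, so `r (x, 0) = r (x, 1)`; `Good.ni` for `fun x => r (x, 0)`. -/
theorem lift_ni (hL : Good L) (D : V × ZMod 2) (r : V × ZMod 2 → ZMod 2)
    (hr : ∀ x y z, (lift L s).R x y z D → (lift L s).hue x = (lift L s).hue y →
      (lift L s).hue x ≠ (lift L s).hue D → r x = r y) :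
    ∀ x y, (lift L s).hue x ≠ (lift L s).hue D → (lift L s).hue y ≠ (lift L s).hue D →
      r x = r y := by
  obtain ⟨d, l⟩ := D
  have key : ∀ x y z, L.R x y z d → L.hue x = L.hue y → L.hue x ≠ L.hue d →
      ∀ i j, r (x, i) = r (y, j) := fun x y z h1 h2 h3 i j =>
    hr (x, i) (y, j) (z, s {x, y, z, d} + i + j + l) (lift_R_reg h1 (o1_k _ _ _ _)) h2 h3
  have h01 : ∀ x, L.hue x ≠ L.hue d → ∀ i, r (x, i) = r (x, 0) := fun x hx i => by
    obtain ⟨y, z, h1, h2⟩ := hL.ni2 x d hx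
    rw [key x y z h1 h2 hx i 0, key x y z h1 h2 hx 0 0]
  rintro ⟨x, i⟩ ⟨y, j⟩ hx hy
  rw [h01 x hx i, h01 y hy j]
  exact hL.ni d (fun x => r (x, 0)) (fun x y z h1 h2 h3 => key x y z h1 h2 h3 0 0) x y hx hy

/-- PROOF. `Good.ni2`, indices `0` for `y` and the right one for `z`. -/
theorem lift_ni2 (hL : Good L) (X D : V × ZMod 2)
    (h : (lift L s).hue X ≠ (lift L s).hue D) :
    ∃ Y Z, (lift L s).R X Y Z D ∧ (lift L s).hue X = (lift L s).hue Y := by
  obtain ⟨x, i⟩ := X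
  obtain ⟨d, l⟩ := D
  obtain ⟨y, z, h1, h2⟩ := hL.ni2 x d h
  exact ⟨(y, 0), (z, s {x, y, z, d} + i + 0 + l), lift_R_reg h1 (o1_k _ _ _ _), h2⟩

end Pool.Agent.Lib.H97Z
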