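import Pool.Agent.Lib.H97Z.C0
import Pool.Agent.Lib.H97Z.D2
import Pool.Agent.Lib.H97Z.B2

/-! Chunk O2: the invariant nF of the lift -/

set_option autoImplicit false

namespace Pool.Agent.Lib.H97Z

variable {V : Type} [Fintype V] [DecidableEq V] {L : Lev V} {s : Finset V → ZMod 2}

theorem o2_lem1 (i b : ZMod 2) : i + (i + b + 1) = b + 1 := by
  revert i b; decide

theorem o2_lem2 (i b c : ZMod 2) : (c + i + b) + (i + b + 1) = c + 1 := by
  revert i b c; decide

theorem o2_lem3 (i b y : ZMod 2) (h : i + y = b + 1) : y = i + b + 1 := by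
  revert i b y; decide

theorem o2_lem4 (i b c y z : ZMod 2) (h : i + y = b + 1) (h2 : z + y = c + 1) : z = c + i + b := by
  revert i b c y z; decide

theorem o2_lem5 (i c y : ZMod 2) (h : i + y = c + 1) (h2 : (i + 1) + y = c + 1) : False := by
  revert i c y; decide

open Classical in
theorem o2_nF (L : Lev V) (x : V) : nF L x =
    ∑ _t ∈ Finset.univ.filter (fun t : V × V × V =>
      (L.S x t.1 t.2.1 t.2.2 ∧ L.hue t.2.1 = L.hue x) ∧ L.F t.2.1 t.1), (1 : ZMod 2) := by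
  unfold nF
  rw [← Finset.sum_filter, Finset.filter_filter]

/-- PROOF. The elements `(Y, Z, W)` of the sum for `X = (x, i)` with `FL Z Y`: special lifts over `L.S x y z w`,
`L.hue z = L.hue x`: `Y = (y, i + L.b x y z w + 1)`, `Z = (z, k)`, `W = (w, k + L.b z w x y + 1)`, and
`FL Z Y` means `L.F z y` and `k + i + L.b x y z w + 1 = L.c z y + 1`, which determines `k`.  The special blocks over
boundary pairs, `(x, i) (u, i+c+1) | (x, i+1) (u, i+c)`, have `Z = (x, i+1)`, `Y = (u, i+c+1)`, whose index sum is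
`c`, not `c + 1`: they do not contribute.  So `(y, z, w) ↦ (Y, Z, W)` is a bijection between the two sets of
contributing elements. -/
theorem lift_nF (hL : Good L) (x : V) (i : ZMod 2) : nF (lift L s) (x, i) = nF L x := by
  classical
  rw [o2_nF, o2_nF]
  symm
  refine Finset.sum_bij'
    (fun t _ => ((t.1, i + L.b x t.1 t.2.1 t.2.2 + 1),
      (t.2.1, L.c t.2.1 t.1 + i + L.b x t.1 t.2.1 t.2.2),
      (t.2.2, (L.c t.2.1 t.1 + i + L.b x t.1 t.2.1 t.2.2) + L.b t.2.1 t.2.2 x t.1 + 1)))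
    (fun T _ => (T.1.1, T.2.1.1, T.2.2.1)) ?_ ?_ ?_ ?_ ?_
  · rintro ⟨y, z, w⟩ h
    simp only [Finset.mem_filter, Finset.mem_univ, true_and] at h ⊢
    obtain ⟨⟨hS, hh⟩, hF⟩ := h
    refine ⟨⟨Or.inl ⟨hS, ?_, ?_⟩, hh⟩, hF, ?_⟩
    · exact o2_lem1 _ _
    · exact o2_lem1 _ _
    · exact o2_lem2 _ _ _
  · rintro ⟨⟨y, y'⟩, ⟨z, z'⟩, ⟨w, w'⟩⟩ h
    simp only [Finset.mem_filter, Finset.mem_univ, true_and] at h ⊢
    obtain ⟨⟨hS, hh⟩, hF⟩ := h
    rcases hS with hS | ⟨hS, hS' | hS'⟩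
    · exact ⟨⟨hS.1, hh⟩, hF.1⟩
    · exfalso
      obtain ⟨h1, h2⟩ := hS'
      rw [Prod.mk.injEq] at h1
      have e1 : z = x := h1.1
      have e2 : z' = i + 1 := h1.2
      have h3 : z' + y' = L.c z y + 1 := hF.2
      have h4 : i + y' = L.c x y + 1 := hS.2
      rw [e1, e2] at h3
      exact o2_lem5 _ _ _ h4 h3
    · exfalso
      obtain ⟨h1, h2⟩ := hS'
      rw [Prod.mk.injEq] at h1
      have e1 : z = y := h1.1
      have h4 : L.F x y := hS.1
      have h5 : L.hue z = L.hue x := hh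
      rw [e1] at h5
      exact hL.Fhue _ _ h4 h5.symm
  · rintro ⟨y, z, w⟩ _
    rfl
  · rintro ⟨⟨y, y'⟩, ⟨z, z'⟩, ⟨w, w'⟩⟩ h
    simp only [Finset.mem_filter, Finset.mem_univ, true_and] at h
    obtain ⟨⟨hS, hh⟩, hF⟩ := h
    rcases hS with hS | ⟨hS, hS' | hS'⟩
    · have h1 : i + y' = L.b x y z w + 1 := hS.2.1
      have h2 : z' + w' = L.b z w x y + 1 := hS.2.2
      have h3 : z' + y' = L.c z y + 1 := hF.2
      have e1 := o2_lem3 _ _ _ h1
      have e2 := o2_lem4 _ _ _ _ _ h1 h3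
      have e3 := o2_lem3 _ _ _ h2
      refine Prod.ext (Prod.ext rfl e1.symm) (Prod.ext (Prod.ext rfl e2.symm) (Prod.ext rfl ?_))
      show (L.c z y + i + L.b x y z w) + L.b z w x y + 1 = w'
      rw [← e2, ← e3]
    · exfalso
      obtain ⟨h1, h2⟩ := hS'
      rw [Prod.mk.injEq] at h1
      have e1 : z = x := h1.1
      have e2 : z' = i + 1 := h1.2
      have h3 : z' + y' = L.c z y + 1 := hF.2
      have h4 : i + y' = L.c x y + 1 := hS.2
      rw [e1, e2] at h3
      exact o2_lem5 _ _ _ h4 h3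
    · exfalso
      obtain ⟨h1, h2⟩ := hS'
      rw [Prod.mk.injEq] at h1
      have e1 : z = y := h1.1
      have h4 : L.F x y := hS.1
      have h5 : L.hue z = L.hue x := hh
      rw [e1] at h5
      exact hL.Fhue _ _ h4 h5.symm
  · intro t _
    rfl

end Pool.Agent.Lib.H97Z
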