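import Pool.Agent.Lib.H97Z.P1

/-! Chunk P2: the lift of a pure pair -/

set_option autoImplicit false

namespace Pool.Agent.Lib.H97Z

variable {V : Type} [Fintype V] [DecidableEq V] {L : Lev V} {s : Finset V → ZMod 2}

theorem p2_two (f : ZMod 2 → ZMod 2) (p c : ZMod 2) (h1 : f p = c) (h2 : f (p + 1) = c) :
    ∀ l, f l = c := by
  intro l
  have key : ∀ l p : ZMod 2, l = p ∨ l = p + 1 := by decide
  rcases key l p with rfl | rfl
  · exact h1
  · exact h2

omit [Fintype V] [DecidableEq V] in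
theorem p2_ne {v x : V} {k i : ZMod 2} (h : (v, k) ≠ (x, i)) (hv : v = x) : k = i + 1 := by
  apply z2_ne
  rintro rfl
  exact h (by rw [hv])

/-- PROOF. By `pure_cl`: `f` is `0` at `(z, j+1)`, `(x, i+1)`, at both `(w, _)` and at both `(y, _)`
(`j + B`, `j + B + 1` are the two elements of `ZMod 2`).  `ht` of `pure_ht`, `f_l v := f (v, l + ht v)` is `RC` and `0`
at `w`, `y`, so `f_l v = 0` for `v ≠ x, z` by `PureAt.van`; every vertex `(v, k)` with `v ≠ x, z` is of the form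
`(v, l + ht v)`. -/
theorem pure_van (hL : Good L) {x z y w y' w' : V} (hxz : x ≠ z) (hh : L.hue x = L.hue z)
    (hP : PureAt L x z y w y' w') (hE : EqP L s x z y w y' w') {i j : ZMod 2}
    {f : V × ZMod 2 → ZMod 2} (hf : RC (lift L s) (x, i) (z, j) f)
    (h1 : f (w, j + L.b z w x y + 1) = 0) (h2 : f (y, i + L.b x y z w + 1) = 0) :
    ∀ v, v ≠ (x, i) → v ≠ (z, j) → f v = 0 := by
  obtain ⟨-, -, e3, e4, e5, e6⟩ := pure_cl hL hxz hh hP hE hf
  have h0 : f (z, j + 1) = 0 := by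
    rcases e4 with e4 | e4
    · rw [e4, h1]
    · rw [e4, h2]
  have hw : ∀ l, f (w, l) = 0 := p2_two (fun l => f (w, l)) _ 0 (e5 ▸ h0) h1
  have hy : ∀ l, f (y, l) = 0 := p2_two (fun l => f (y, l)) _ 0 (e6 ▸ h0) h2
  obtain ⟨ht, g1, -⟩ := pure_ht hL hxz hh hP hE i j
  rintro ⟨v, k⟩ hv1 hv2
  by_cases hvx : v = x
  · rw [p2_ne hv1 hvx, hvx, ← e3, h0]
  by_cases hvz : v = z
  · rw [p2_ne hv2 hvz, hvz, h0]
  have := hP.van _ (lift_fun hf g1 (k + ht v)) (hw _) (hy _) v hvx hvz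
  rwa [show k + ht v + ht v = k from p1_t _ _] at this

/-- PROOF. `Sol.p` gives the data; the new data are `(y, i+A+1) (w, j+B+1) (y', i+A'+1) (w', j+B'+1)`.
`s1`, `s2`: `lift_S_spec`.  `ne`: from `PureAt.ne`.  `all`: `lift_S_cases`; the special lifts are over
`L.S x p z q` (`PureAt.all`), the second alternative needs `z = x` or `L.F x z`, impossible.  `cl`: `pure_cl`,
`van`: `pure_van`. -/
theorem pure_lift (hL : Good L) (hS : Sol L s) {x z : V} (hxz : x ≠ z) (hh : L.hue x = L.hue z)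
    (i j : ZMod 2) : ∃ Y W Y' W', PureAt (lift L s) (x, i) (z, j) Y W Y' W' := by
  obtain ⟨y, w, y', w', hP, hE⟩ := hS.p x z hxz hh
  have a1 : ∀ i A : ZMod 2, i + (i + A + 1) = A + 1 := by decide
  have a2 : ∀ i A p : ZMod 2, i + p = A + 1 → p = i + A + 1 := by decide
  refine ⟨(y, i + L.b x y z w + 1), (w, j + L.b z w x y + 1), (y', i + L.b x y' z w' + 1),
    (w', j + L.b z w' x y' + 1), ?_⟩
  refine ⟨lift_S_spec hP.s1 (a1 _ _) (a1 _ _), lift_S_spec hP.s2 (a1 _ _) (a1 _ _), ?_, ?_, ?_, ?_⟩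
  · rintro ⟨h1, h2⟩
    exact hP.ne ⟨congrArg Prod.fst h1, congrArg Prod.fst h2⟩
  · rintro ⟨p, k⟩ ⟨q, l⟩ h
    rcases lift_S_cases h with ⟨h1, h2, h3⟩ | ⟨h1, h2, h3⟩
    · have h1' : L.S x p z q := h1
      have h2' : i + k = L.b x p z q + 1 := h2
      have h3' : j + l = L.b z q x p + 1 := h3
      rcases hP.all p q h1' with ⟨rfl, rfl⟩ | ⟨rfl, rfl⟩
      · exact Or.inl ⟨by rw [a2 _ _ _ h2'], by rw [a2 _ _ _ h3']⟩
      · exact Or.inr ⟨by rw [a2 _ _ _ h2'], by rw [a2 _ _ _ h3']⟩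
    · exfalso
      have h1' : L.F x p := h1
      rcases h3 with ⟨h3, -⟩ | ⟨h3, -⟩
      · exact hxz (congrArg Prod.fst h3).symm
      · have : z = p := congrArg Prod.fst h3
        rw [← this] at h1'
        exact hL.Fhue _ _ h1' hh
  · intro f hf
    obtain ⟨e1, e2, -⟩ := pure_cl hL hxz hh hP hE hf
    exact ⟨e1, e2⟩
  · intro f hf h1 h2
    exact pure_van hL hxz hh hP hE hf h1 h2

end Pool.Agent.Lib.H97Z
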