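import Pool.Agent.Lib.H97Z.D2
import Pool.Agent.Lib.H97Z.B2

/-! Chunk P3: the link of a fibre -/

set_option autoImplicit false

namespace Pool.Agent.Lib.H97Z

variable {V : Type} [Fintype V] [DecidableEq V] {L : Lev V} {s : Finset V → ZMod 2}

theorem p3_a : ∀ i c : ZMod 2, i + c + 1 + 1 = i + c := by decide
theorem p3_b : ∀ i c : ZMod 2, i + (i + c + 1) = c + 1 := by decide
theorem p3_c : ∀ i c p : ZMod 2, i + p = c + 1 → p = i + c + 1 := by decide
theorem p3_d : ∀ l a b t : ZMod 2, a + b = t → l + a + (l + b) = t := by decide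
theorem p3_e : ∀ i g : ZMod 2, i + g + g = i := by decide
theorem p3_f : ∀ i c c' g g' : ZMod 2, g + g' = 1 + c + c' → i + c + g + g' = i + c' + 1 := by
  decide
theorem p3_g : ∀ i c c' g g' : ZMod 2, g + g' = 1 + c + c' → i + c' + g' + g = i + c + 1 := by
  decide
theorem p3_h : ∀ l p : ZMod 2, l = p ∨ l = p + 1 := by decide

/-- PROOF. Let `g` be a rotation potential: `g z + g w = L.b z w x y` for `L.S x y z w` (`rotpot`; the symmetry
`L.b z w x y = L.b w z x y` is `Good.b12`).  Put `c = L.c x u`, `c' = L.c x u'`; `g u + g u' = 1 + c + c'`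
(`RotAt.bit`).
Let `f` be `RC (lift L s) (x, i) (x, i + 1)`.  If `L.S x y z w` then
`f (z, l + g z) = f (w, l + g w)`: the block `{x_0, x_1, z_(l + g z), w_(l + g w)}` is regular (`lift_R_fib` with
`L.S z w x y`).  So `f_l v := f (v, l + g v)` is the same at all `v ≠ x` (`RotAt.con`).  Hence
`f (u, i+c) = f (u', i+c'+1)` (take `l := i + c + g u`) and `f (u', i+c') = f (u, i+c+1)`.
`van`: `f (u, i+c) = f (u, i+c+1) = 0` gives `f_0 = f_1 = 0` away from `x`. -/
theorem fib_lift (hL : Good L) {x u u' : V} (hR : RotAt L x u u') (i : ZMod 2) :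
    PureAt (lift L s) (x, i) (x, i + 1) (u, i + L.c x u + 1) (u, i + L.c x u)
      (u', i + L.c x u' + 1) (u', i + L.c x u') := by
  -- `s1`: `lift_S_bd`; `ne`: `u ≠ u'`; `all`: `lift_S_cases`, `SL` is impossible (`x = x`), `PH`: `RotAt.all`
  obtain ⟨g, hg⟩ := rotpot hL x (fun y z w => L.b z w x y) (fun y z w => hL.b12 _ _ _ _)
  have hbit := hR.bit g hg
  have hux : u ≠ x := (hL.Fne hR.f1).symm
  have hux' : u' ≠ x := (hL.Fne hR.f2).symm
  have key : ∀ f, RC (lift L s) (x, i) (x, i + 1) f → ∀ l v v', v ≠ x → v' ≠ x →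
      f (v, l + g v) = f (v', l + g v') := by
    intro f hf l v v' hv hv'
    refine hR.con (fun v => f (v, l + g v)) ?_ v v' hv hv'
    intro y z w h
    exact hf _ _ (lift_R_fib (hL.S_zwxy h) (p3_d _ _ _ _ (hg y z w h)) (z2_ne_add_one i))
  refine ⟨?_, ?_, ?_, ?_, ?_, ?_⟩
  · have := lift_S_bd (s := s) hR.f1 (p3_b i (L.c x u))
    rwa [p3_a] at this
  · have := lift_S_bd (s := s) hR.f2 (p3_b i (L.c x u'))
    rwa [p3_a] at this
  · rintro ⟨h1, -⟩
    exact hR.ne (congrArg Prod.fst h1)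
  · rintro ⟨p, k⟩ ⟨q, l⟩ h
    rcases lift_S_cases h with ⟨h1, -, -⟩ | ⟨h1, h2, h3⟩
    · exact absurd rfl (hL.Sne_xz h1)
    · have h1' : L.F x p := h1
      have h2' : i + k = L.c x p + 1 := h2
      rcases h3 with ⟨-, h3⟩ | ⟨h3, -⟩
      · have h4 : (q, l) = (p, k + 1) := h3
        have hk : k = i + L.c x p + 1 := p3_c _ _ _ h2'
        rw [h4, hk, p3_a]
        rcases hR.all p h1' with rfl | rfl
        · exact Or.inl ⟨rfl, rfl⟩
        · exact Or.inr ⟨rfl, rfl⟩
      · exact absurd (congrArg Prod.fst h3) (hL.Fne h1')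
  · intro f hf
    have e1 := key f hf (i + L.c x u + g u) u u' hux hux'
    have e2 := key f hf (i + L.c x u' + g u') u' u hux' hux
    rw [p3_e, p3_f _ _ _ _ _ hbit] at e1
    rw [p3_e, p3_g _ _ _ _ _ hbit] at e2
    exact ⟨e1, e2⟩
  · intro f hf h1 h2
    have hu : ∀ l, f (u, l) = 0 := by
      intro l
      rcases p3_h l (i + L.c x u) with rfl | rfl
      · exact h1
      · exact h2
    rintro ⟨v, k⟩ hv1 hv2
    have hvx : v ≠ x := by
      rintro rfl
      rcases p3_h k i with rfl | rfl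
      · exact hv1 rfl
      · exact hv2 rfl
    have := key f hf (k + g v) v u hvx hux
    rwa [p3_e, hu] at this

end Pool.Agent.Lib.H97Z
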