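import Pool.Agent.Lib.H97Z.T1

/-! Chunk T2: blocks over a transversal triple: uniqueness -/

set_option autoImplicit false

namespace Pool.Agent.Lib.H97Z

variable {V : Type} [Fintype V] [DecidableEq V] {L : Lev V} {s : Finset V → ZMod 2}

theorem t2_rs (hL : Good L) {x y z u : V} (h : L.R x y z u) (h' : L.S x y z u) : False := by
  have h1 := hL.Rhue _ _ _ _ h
  have h2 := hL.Shue _ _ _ _ h'
  have h3 := hL.Shue_zw h'
  generalize L.hue x = a at *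
  generalize L.hue y = b at *
  generalize L.hue z = c at *
  generalize L.hue u = d at *
  revert a b c d
  decide

theorem t2_ss (hL : Good L) {x y z u : V} (h : L.S x y z u) (h' : L.S x z y u) : False :=
  hL.Sex _ _ _ _ h h'

theorem t2_ss' (hL : Good L) {x y z u : V} (h : L.S x y z u) (h' : L.S y z x u) : False :=
  hL.Sex _ _ _ _ (hL.S_yxzw h) h'

theorem t2_ss2 (hL : Good L) {x y z u : V} (h : L.S x z y u) (h' : L.S y z x u) : False :=
  hL.Sex _ _ _ _ (hL.S_yxzw h) (hL.S_yxzw h')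

theorem t2_ovs {X Y Z : V × ZMod 2} {u : V} {T T' : V × ZMod 2}
    (h : OvS L X Y Z u T) (h' : OvS L X Y Z u T') : T = T' := by
  obtain ⟨-, h⟩ := h
  obtain ⟨-, h'⟩ := h'
  rcases h with ⟨h1, h2⟩ | ⟨h1, h2⟩ <;> rcases h' with ⟨h3, h4⟩ | ⟨h3, h4⟩
  · rw [h2, h4]
  · exact absurd (h1.symm.trans h3) (z2_add_one_ne _)
  · exact absurd (h3.symm.trans h1) (z2_add_one_ne _)
  · rw [h2, h4]

/-- PROOF. `L.R x y z u` has hue sum `1`, `L.S` has hue sum `0` (`Good.Rhue`, `Good.Shue`), so the first case is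
incompatible with the others.  Two different cases among `OvS L X Y Z u`, `OvS L X Z Y u`, `OvS L Y Z X u`
contradict `Good.Sex` (`L.S x y z u` and `L.S x z y u`; `L.S x y z u` and `L.S y z x u`, that is `L.S y x z u`;
`L.S x z y u` and `L.S y z x u`, that is `L.S z x y u` and `L.S z y x u`).  In the same case `T` is determined:
`b + 1 ≠ b`. -/
theorem over_fun (hL : Good L) (X Y Z : V × ZMod 2) {u : V} {T T' : V × ZMod 2}
    (h : Over L s X Y Z u T) (h' : Over L s X Y Z u T') : T = T' := by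
  rcases h with ⟨h1, rfl⟩ | h1 | h1 | h1 <;> rcases h' with ⟨h2, rfl⟩ | h2 | h2 | h2
  · rfl
  · exact (t2_rs hL h1 h2.1).elim
  · exact (t2_rs hL (hL.R_xzyw h1) h2.1).elim
  · exact (t2_rs hL (hL.R_yzxw h1) h2.1).elim
  · exact (t2_rs hL h2 h1.1).elim
  · exact t2_ovs h1 h2
  · exact (t2_ss hL h1.1 h2.1).elim
  · exact (t2_ss' hL h1.1 h2.1).elim
  · exact (t2_rs hL (hL.R_xzyw h2) h1.1).elim
  · exact (t2_ss hL h2.1 h1.1).elim
  · exact t2_ovs h1 h2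
  · exact (t2_ss2 hL h1.1 h2.1).elim
  · exact (t2_rs hL (hL.R_yzxw h2) h1.1).elim
  · exact (t2_ss' hL h2.1 h1.1).elim
  · exact (t2_ss2 hL h2.1 h1.1).elim
  · exact t2_ovs h1 h2

/-- If `L.S x y z u`, `L.S x y z u'` with equal bits of the diagonal `{x, y}` then `u = u'`.
PROOF. `L.hue x ≠ L.hue y`.  If `L.F x y`: `BdAt` for `(x, y)`; `tall`: if `L.hue z = L.hue x` then
`(z, u) = (a, d) = (z, u')`; otherwise `L.hue u = L.hue u' = L.hue x` and `(u, z) = (a, d) = (u', z)` (use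
`Good.S_xywz`).  If not `L.F x y`: `MixAt`; the pairs `(z, u)`, `(z, u')` (or `(u, z)`, `(u', z)`) are among
`(a, d)`, `(a', d')`; if they are different then their bits are `L.b x y a d` and `L.b x y a' d'` up to order
(`Good.b34`), which differ by `MixAt.bit`. -/
theorem dia_inj (hL : Good L) {x y z u u' : V} (h : L.S x y z u) (h' : L.S x y z u')
    (hb : L.b x y z u = L.b x y z u') : u = u' := by
  by_cases hF : L.F x y
  · obtain ⟨y', w', a, d, hB⟩ := hL.bd x y hF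
    by_cases hz : L.hue z = L.hue x
    · exact (hB.tall z u h hz).2.trans (hB.tall z u' h' hz).2.symm
    · have h1 := (hL.Shue_ne h (Ne.symm hz)).1
      have h2 := (hL.Shue_ne h' (Ne.symm hz)).1
      exact (hB.tall u z (hL.S_xywz h) h1).1.trans (hB.tall u' z (hL.S_xywz h') h2).1.symm
  · obtain ⟨y', w', y'', w'', a, d, a', d', hB⟩ := hL.mix x y (hL.Shue _ _ _ _ h) hF
    by_cases hz : L.hue z = L.hue x
    · rcases hB.tall z u h hz with ⟨e1, e2⟩ | ⟨e1, e2⟩ <;>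
        rcases hB.tall z u' h' hz with ⟨e3, e4⟩ | ⟨e3, e4⟩
      · exact e2.trans e4.symm
      · have h5 := hB.bit
        rw [← e1, ← e2, ← e3, ← e4, hb, z2_add_self] at h5
        exact absurd h5 (by decide)
      · have h5 := hB.bit
        rw [← e1, ← e2, ← e3, ← e4, hb, z2_add_self] at h5
        exact absurd h5 (by decide)
      · exact e2.trans e4.symm
    · have h1 := (hL.Shue_ne h (Ne.symm hz)).1
      have h2 := (hL.Shue_ne h' (Ne.symm hz)).1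
      rw [hL.b34, hL.b34 x y z u'] at hb
      rcases hB.tall u z (hL.S_xywz h) h1 with ⟨e1, e2⟩ | ⟨e1, e2⟩ <;>
        rcases hB.tall u' z (hL.S_xywz h') h2 with ⟨e3, e4⟩ | ⟨e3, e4⟩
      · exact e1.trans e3.symm
      · have h5 := hB.bit
        rw [← e1, ← e2, ← e3, ← e4, hb, z2_add_self] at h5
        exact absurd h5 (by decide)
      · have h5 := hB.bit
        rw [← e1, ← e2, ← e3, ← e4, hb, z2_add_self] at h5
        exact absurd h5 (by decide)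
      · exact e1.trans e3.symm

theorem t2_cases (hL : Good L) {X Y Z : V × ZMod 2} {u : V} {T : V × ZMod 2}
    (h : Over L s X Y Z u T) :
    (X.1 ≠ Y.1 ∧ X.1 ≠ Z.1 ∧ X.1 ≠ u ∧ Y.1 ≠ Z.1 ∧ Y.1 ≠ u ∧ Z.1 ≠ u) ∧
    (T.1 = u ∨
      (T.1 = Z.1 ∧ L.S X.1 Y.1 Z.1 u ∧ X.2 + Y.2 = L.b X.1 Y.1 Z.1 u) ∨
      (T.1 = Y.1 ∧ L.S X.1 Z.1 Y.1 u ∧ X.2 + Z.2 = L.b X.1 Z.1 Y.1 u) ∨
      (T.1 = X.1 ∧ L.S Y.1 Z.1 X.1 u ∧ Y.2 + Z.2 = L.b Y.1 Z.1 X.1 u)) := by
  rcases h with ⟨h1, rfl⟩ | ⟨h1, ⟨h2, rfl⟩ | ⟨h2, rfl⟩⟩ | ⟨h1, ⟨h2, rfl⟩ | ⟨h2, rfl⟩⟩ |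
    ⟨h1, ⟨h2, rfl⟩ | ⟨h2, rfl⟩⟩
  · exact ⟨hL.Blk_ne4 (Or.inl h1), Or.inl rfl⟩
  · exact ⟨hL.Blk_ne4 (Or.inr (Or.inl h1)), Or.inl rfl⟩
  · exact ⟨hL.Blk_ne4 (Or.inr (Or.inl h1)), Or.inr (Or.inl ⟨rfl, h1, h2⟩)⟩
  · exact ⟨hL.Blk_ne4 (Or.inr (Or.inr (Or.inl h1))), Or.inl rfl⟩
  · exact ⟨hL.Blk_ne4 (Or.inr (Or.inr (Or.inl h1))), Or.inr (Or.inr (Or.inl ⟨rfl, h1, h2⟩))⟩
  · exact ⟨hL.Blk_ne4 (Or.inr (Or.inr (Or.inr (hL.S_zwxy h1)))), Or.inl rfl⟩
  · exact ⟨hL.Blk_ne4 (Or.inr (Or.inr (Or.inr (hL.S_zwxy h1)))),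
      Or.inr (Or.inr (Or.inr ⟨rfl, h1, h2⟩))⟩

/-- PROOF. `T.1` is `u` or one of the base vertices `X.1, Y.1, Z.1`; `u, u'` are different from `X.1, Y.1, Z.1`
(`Good.Rne_xw`, ..., `Good.Sne_xw`, ...).  If `T.1` is not one of `X.1, Y.1, Z.1` then `u = T.1 = u'`.  Otherwise both
are the second case of an `OvS`; as `X.1, Y.1, Z.1` are distinct (they are in a block, `Good.Blk_ne4`), it is
the same `OvS` (the base vertex of `T` decides), and `dia_inj` applies. -/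
theorem over_inj (hL : Good L) (X Y Z : V × ZMod 2) {u u' : V} {T : V × ZMod 2}
    (h : Over L s X Y Z u T) (h' : Over L s X Y Z u' T) : u = u' := by
  obtain ⟨⟨n1, n2, n3, n4, n5, n6⟩, h⟩ := t2_cases hL h
  obtain ⟨⟨-, -, m3, -, m5, m6⟩, h'⟩ := t2_cases hL h'
  rcases h with h | ⟨h, g1, g2⟩ | ⟨h, g1, g2⟩ | ⟨h, g1, g2⟩ <;>
    rcases h' with h' | ⟨h', f1, f2⟩ | ⟨h', f1, f2⟩ | ⟨h', f1, f2⟩
  · exact h.symm.trans h'
  · exact absurd (h'.symm.trans h) n6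
  · exact absurd (h'.symm.trans h) n5
  · exact absurd (h'.symm.trans h) n3
  · exact absurd (h.symm.trans h') m6
  · exact dia_inj hL g1 f1 (g2.symm.trans f2)
  · exact absurd (h'.symm.trans h) n4
  · exact absurd (h'.symm.trans h) n2
  · exact absurd (h.symm.trans h') m5
  · exact absurd (h.symm.trans h') n4
  · exact dia_inj hL g1 f1 (g2.symm.trans f2)
  · exact absurd (h'.symm.trans h) n1
  · exact absurd (h.symm.trans h') m3
  · exact absurd (h.symm.trans h') n2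
  · exact absurd (h.symm.trans h') n1
  · exact dia_inj hL g1 f1 (g2.symm.trans f2)

end Pool.Agent.Lib.H97Z
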