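import Pool.Agent.Lib.H97Z.T4
import Pool.Agent.Lib.H97Z.T2

/-! Chunk T5: a triple which contains a fibre lies in two blocks -/

set_option autoImplicit false

namespace Pool.Agent.Lib.H97Z

variable {V : Type} [Fintype V] [DecidableEq V] {L : Lev V} {s : Finset V → ZMod 2}

theorem t5_key (hL : Good L) {x z : V} (hxz : x ≠ z) (hF : ¬ L.F x z) :
    ∃ y w y' w', L.S x y z w ∧ L.S x y' z w' ∧ ¬ (y = y' ∧ w = w') ∧
      ∀ p q, L.S x p z q → (p = y ∧ q = w) ∨ (p = y' ∧ q = w') := by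
  by_cases hh : L.hue x = L.hue z
  · obtain ⟨y, w, y', w', hP⟩ := hL.pure x z hxz hh
    exact ⟨y, w, y', w', hP.s1, hP.s2, hP.ne, hP.all⟩
  · obtain ⟨y, w, y', w', a, d, a', d', hP⟩ := hL.mix x z hh hF
    exact ⟨y, w, y', w', hP.s1, hP.s2, hP.ne, hP.all⟩

theorem t5_add (a b c : ZMod 2) (h : a + b = a + c) : b = c := by
  revert a b c
  decide

/-- PROOF. If `L.F x z`: `BdAt` data `y w a d`: by `blk_fib` the blocks are given by `(w, k + L.b z w x y)` and
`(z, k + 1)`, with `w ≠ z`.  Otherwise (`Good.pure` or `Good.mix`) the two special blocks with side `{x, z}` give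
`(w, k + L.b z w x y)` and `(w', k + L.b z w' x y')`.  They are different: if `w = w'` and the bits are equal then
`L.S z w x y`, `L.S z w x y'` with equal bits, so `y = y'` by `dia_inj`, against `ne`. -/
theorem two_fib (hL : Good L) {x z : V} (hxz : x ≠ z) (i k : ZMod 2) :
    ∃ U U', U ≠ U' ∧ Blk (lift L s) (x, i) (x, i + 1) (z, k) U ∧
      Blk (lift L s) (x, i) (x, i + 1) (z, k) U' ∧
      ∀ T, Blk (lift L s) (x, i) (x, i + 1) (z, k) T → T = U ∨ T = U' := by
  by_cases hF : L.F x z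
  · obtain ⟨y, w, a, d, hB⟩ := hL.bd x z hF
    refine ⟨(w, k + L.b z w x y), (z, k + 1), ?_,
      (blk_fib hL hxz i k _).2 (Or.inl ⟨y, w, hB.s1, rfl⟩),
      (blk_fib hL hxz i k _).2 (Or.inr ⟨hF, rfl⟩), ?_⟩
    · intro e
      exact hL.Sne_zw hB.s1 (congrArg Prod.fst e).symm
    · intro T hT
      rcases (blk_fib hL hxz i k T).1 hT with ⟨y', w', h', rfl⟩ | ⟨-, rfl⟩
      · obtain ⟨rfl, rfl⟩ := hB.all y' w' h'
        exact Or.inl rfl
      · exact Or.inr rfl
  · obtain ⟨y, w, y', w', h1, h2, hne, hall⟩ := t5_key hL hxz hF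
    refine ⟨(w, k + L.b z w x y), (w', k + L.b z w' x y'), ?_,
      (blk_fib hL hxz i k _).2 (Or.inl ⟨y, w, h1, rfl⟩),
      (blk_fib hL hxz i k _).2 (Or.inl ⟨y', w', h2, rfl⟩), ?_⟩
    · intro e
      have e1 : w = w' := congrArg Prod.fst e
      have e2 := t5_add _ _ _ (congrArg Prod.snd e)
      subst e1
      exact hne ⟨dia_inj hL (hL.S_zwxy h1) (hL.S_zwxy h2) e2, rfl⟩
    · intro T hT
      rcases (blk_fib hL hxz i k T).1 hT with ⟨p, q, h', rfl⟩ | ⟨h', -⟩
      · rcases hall p q h' with ⟨rfl, rfl⟩ | ⟨rfl, rfl⟩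
        · exact Or.inl rfl
        · exact Or.inr rfl
      · exact absurd h' hF

end Pool.Agent.Lib.H97Z
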