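import Pool.Agent.Lib.H97Z.T3
import Pool.Agent.Lib.H97Z.T5
import Pool.Agent.Lib.H97Z.E4

/-! Chunk T6: every triple lies in two blocks -/

set_option autoImplicit false

namespace Pool.Agent.Lib.H97Z

variable {V : Type} [Fintype V] [DecidableEq V] {L : Lev V} {s : Finset V → ZMod 2}

theorem t6_fib (hL : Good L) (X Y Z : V × ZMod 2) (h : X.1 = Y.1) (h1 : X ≠ Y) (h2 : X ≠ Z)
    (h3 : Y ≠ Z) :
    ∃ U U', U ≠ U' ∧ Blk (lift L s) X Y Z U ∧ Blk (lift L s) X Y Z U' ∧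
      ∀ T, Blk (lift L s) X Y Z T → T = U ∨ T = U' := by
  have e1 : X.2 ≠ Y.2 := fun e => h1 (Prod.ext h e)
  have e2 : Y = (X.1, X.2 + 1) := Prod.ext h.symm (z2_ne' e1)
  have e3 : X.1 ≠ Z.1 := by
    intro e
    have e4 : X.2 ≠ Z.2 := fun e' => h2 (Prod.ext e e')
    have e5 : Y.2 ≠ Z.2 := fun e' => h3 (Prod.ext (h.symm.trans e) e')
    exact e5 ((z2_ne' e1).trans (z2_ne' e4).symm)
  rw [e2]
  exact two_fib hL e3 X.2 Z.2

/-- PROOF. If `X.1, Y.1, Z.1` are distinct: `two_trans`.  If `X.1 = Y.1`: `X = (x, i)`, `Y = (x, i + 1)`, and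
`Z.1 ≠ x` (a fibre has two elements): `two_fib`.  The cases `X.1 = Z.1`, `Y.1 = Z.1` follow by
`lift_Blk12`, `lift_Blk23`. -/
theorem two_lift (hL : Good L) (X Y Z : V × ZMod 2) (h1 : X ≠ Y) (h2 : X ≠ Z) (h3 : Y ≠ Z) :
    ∃ U U', U ≠ U' ∧ Blk (lift L s) X Y Z U ∧ Blk (lift L s) X Y Z U' ∧
      ∀ T, Blk (lift L s) X Y Z T → T = U ∨ T = U' := by
  by_cases e1 : X.1 = Y.1
  · exact t6_fib hL X Y Z e1 h1 h2 h3
  by_cases e2 : X.1 = Z.1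
  · obtain ⟨U, U', hne, hU, hU', hall⟩ := t6_fib (s := s) hL X Z Y e2 h2 h1 h3.symm
    exact ⟨U, U', hne, lift_Blk23 hL hU, lift_Blk23 hL hU', fun T hT => hall T (lift_Blk23 hL hT)⟩
  by_cases e3 : Y.1 = Z.1
  · obtain ⟨U, U', hne, hU, hU', hall⟩ := t6_fib (s := s) hL Y Z X e3 h3 h1.symm h2.symm
    exact ⟨U, U', hne, lift_Blk12 hL (lift_Blk23 hL hU), lift_Blk12 hL (lift_Blk23 hL hU'),
      fun T hT => hall T (lift_Blk23 hL (lift_Blk12 hL hT))⟩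
  exact two_trans hL X Y Z e1 e2 e3

end Pool.Agent.Lib.H97Z
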