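import Pool.Agent.Lib.H97Z.U2
import Pool.Agent.Lib.H97Z.E3

/-! Chunk U3: rotations: bits, hue 0 -/

set_option autoImplicit false

namespace Pool.Agent.Lib.H97Z

variable {V : Type} [Fintype V] [DecidableEq V] {L : Lev V} {s : Finset V → ZMod 2}

theorem u3_e1 (i a b : ZMod 2) : i + a + 1 + 1 + a + b = i + b := by
  revert i a b; decide

theorem u3_e2 (i a b : ZMod 2) : i + a + 1 + a + b = i + b + 1 := by
  revert i a b; decide

/-- the bit of a special lift -/
theorem u3_spec (hL : Good L) {x : V} {i : ZMod 2} {g : V × ZMod 2 → ZMod 2}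
    (hg : ∀ Y Z W, (lift L s).S (x, i) Y Z W → g Z + g W = (lift L s).b Z W (x, i) Y)
    {y z w : V} (h : L.S x y z w) (k : ZMod 2) :
    (g (z, k) + (1 + L.hue z) * k) + (g (w, k + L.b z w x y + 1) +
      (1 + L.hue w) * (k + L.b z w x y + 1)) =
      (1 + L.hue x) * i + (1 + L.hue y) * (i + L.b x y z w + 1) := by
  have h1 := hg _ _ _ (u2_S (s := s) h i k)
  rw [lift_b_spec hL (hL.S_zwxy h)] at h1
  unfold h0 at h1
  have key : ∀ a b c d e f : ZMod 2, a + b = (c + d) + (e + f) → (a + c) + (b + d) = e + f := by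
    decide
  exact key _ _ _ _ _ _ h1

theorem u3_bd (_hL : Good L) {x : V} {i : ZMod 2} {g : V × ZMod 2 → ZMod 2}
    (hg : ∀ Y Z W, (lift L s).S (x, i) Y Z W → g Z + g W = (lift L s).b Z W (x, i) Y)
    {u : V} (h : L.F x u) :
    g (x, i + 1) + g (u, i + L.c x u) =
      ((1 + L.hue x) * (i + 1) + (1 + L.hue u) * (i + L.c x u)) * L.col x u := by
  have h1 := hg _ _ _ (u2_B (s := s) h i)
  rw [(lift_b_bd x u _ _ _ _).1] at h1
  exact h1

theorem u3_c {x u : V} (i : ZMod 2) : (lift L s).c (x, i) (u, i + L.c x u + 1) =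
    ((1 + L.hue x) * i + (1 + L.hue u) * (i + L.c x u + 1)) * L.col x u + 1 := rfl

/-- PROOF. Put `φ (v, k) := g (v, k) + (1 + L.hue v) * k`.  For `L.S x y z w` (`lift_S_spec`, `lift_b_spec`)
`φ (z, k) + φ (w, k + L.b z w x y + 1) = h0 L (x, i) (y, i + L.b x y z w + 1) = i`, as `L.hue x = 0`, `L.hue y = 1`.
`rot_strand` with `t := i`, `β := 0`, `k := i + c + 1` and `k := i + c`; `φ = g` at `u`, `u'` (`L.hue u = 1`): so
`g (u, i+c+1) = g (u', i+c')`, `g (u, i+c) = g (u', i+c'+1)`.  The boundary blocks (`lift_S_bd`, `lift_b_bd`) give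
`g (x, i+1) + g (u, i+c) = (i+1) * L.col x u`, `g (x, i+1) + g (u', i+c') = (i+1) * L.col x u'`, so with `RotAt.col`
`g (u, i+c) + g (u', i+c') = i + 1`, and the left side of the claim is `i + 1`.  The right side is
`1 + i * (L.col x u + L.col x u') = 1 + i`. -/
theorem rot_bit0 (hL : Good L) {x u u' : V} (hR : RotAt L x u u') (hx : L.hue x = 0)
    {i : ZMod 2} {g : V × ZMod 2 → ZMod 2}
    (hg : ∀ Y Z W, (lift L s).S (x, i) Y Z W → g Z + g W = (lift L s).b Z W (x, i) Y) :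
    g (u, i + L.c x u + 1) + g (u', i + L.c x u' + 1) =
      1 + (lift L s).c (x, i) (u, i + L.c x u + 1) +
        (lift L s).c (x, i) (u', i + L.c x u' + 1) := by
  have hu : L.hue u = 1 := by
    have := z2_ne' (hL.Fhue _ _ hR.f1)
    rw [this, hx, zero_add]
  have hu' : L.hue u' = 1 := by
    have := z2_ne' (hL.Fhue _ _ hR.f2)
    rw [this, hx, zero_add]
  have hs := rot_strand hL hR (φ := fun Z => g Z + (1 + L.hue Z.1) * Z.2) (β := fun _ => 0) i (by
    intro y z w k h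
    have h1 := u3_spec hL hg h k
    have hy : L.hue y = 1 := by
      have := z2_ne' (hL.Shue _ _ _ _ h)
      rw [this, hx, zero_add]
    rw [hx, hy] at h1
    show (g (z, k) + (1 + L.hue z) * k) + (g (w, k + L.b z w x y + 1) +
      (1 + L.hue w) * (k + L.b z w x y + 1)) = i + (0 + 0)
    rw [h1]
    generalize L.b x y z w = a
    clear h1 hg
    revert i a
    decide)
  have b1 := u3_bd hL hg hR.f1
  have b2 := u3_bd hL hg hR.f2
  have s1 : g (u, i + L.c x u + 1) + (1 + L.hue u) * (i + L.c x u + 1) +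
    (g (u', i + L.c x u + 1 + 1 + L.c x u + L.c x u') +
      (1 + L.hue u') * (i + L.c x u + 1 + 1 + L.c x u + L.c x u')) = 0 + 0 :=
    hs (i + L.c x u + 1)
  have s2 : g (u, i + L.c x u) + (1 + L.hue u) * (i + L.c x u) +
    (g (u', i + L.c x u + 1 + L.c x u + L.c x u') +
      (1 + L.hue u') * (i + L.c x u + 1 + L.c x u + L.c x u')) = 0 + 0 :=
    hs (i + L.c x u)
  rw [u3_e1, hu, hu'] at s1
  rw [u3_e2, hu, hu'] at s2
  rw [hx, hu] at b1
  rw [hx, hu'] at b2
  rw [u3_c, u3_c, hx, hu, hu']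
  have hc := hR.col
  have e11 : (1 : ZMod 2) + 1 = 0 := by decide
  rw [e11] at s1 s2 b1 b2 ⊢
  simp only [zero_mul, add_zero, zero_add, one_mul] at s1 s2 b1 b2 ⊢
  have key0 : ∀ a b : ZMod 2, a + b = 0 → a = b := by decide
  have key : ∀ b c e p q i : ZMod 2, e + c = (i + 1) * p →
      e + b = (i + 1) * q → p + q = 1 → b + c = 1 + (i * p + 1) + (i * q + 1) := by
    decide
  rw [key0 _ _ s1, ← key0 _ _ s2]
  exact key _ _ _ _ _ _ b1 b2 hc

end Pool.Agent.Lib.H97Z
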