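import Pool.Agent.Lib.H97Z.U3
import Pool.Agent.Lib.H97Z.E3
import Pool.Agent.Lib.H97Z.C3b

/-! Chunk U4: rotations: bits, hue 1 -/

set_option autoImplicit false

namespace Pool.Agent.Lib.H97Z

variable {V : Type} [Fintype V] [DecidableEq V] {L : Lev V} {s : Finset V → ZMod 2}

/-- PROOF. `rotpot` with `l y z w := L.b x y z w` (symmetric by `Good.b34`); `sum_ends` and `sum_own`. -/
theorem rot_beta (hL : Good L) {x u u' : V} (hR : RotAt L x u u') :
    ∃ β : V → ZMod 2, (∀ y z w, L.S x y z w → β z + β w = L.b x y z w) ∧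
      β u + β u' = L.c x u + L.c x u' := by
  obtain ⟨β, hβ⟩ := rotpot hL x (fun y z w => L.b x y z w) (fun y z w => hL.b34 _ _ _ _)
  refine ⟨β, hβ, ?_⟩
  rw [← sum_ends hL hR (l := fun y z w => L.b x y z w) hβ, sum_own hL hR]

/-- PROOF. Put `φ (v, k) := g (v, k) + (1 + L.hue v) * k`.  For `L.S x y z w`, with `L.hue x = 1`, `L.hue y = 0`:
`φ (z, k) + φ (w, k + L.b z w x y + 1) = h0 L (x, i) (y, i + L.b x y z w + 1) = i + 1 + L.b x y z w`.
`rot_strand` with `t := i + 1`, `β` of `rot_beta`: `φ (u, k) + φ (u', k+1+c+c') = c + c'`, that is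
`g (u, k) + g (u', k+1+c+c') = 1` (as `L.hue u = L.hue u' = 0`, and `k + (k+1+c+c') = 1+c+c'`).  For `k = i+c+1` and
`k = i+c`: `g (u, i+c+1) + g (u', i+c') = 1`, `g (u, i+c) + g (u', i+c'+1) = 1`.  Boundary blocks:
`g (x, i+1) + g (u, i+c) = (i+c) * L.col x u`, `g (x, i+1) + g (u', i+c') = (i+c') * L.col x u'`.  So the left side
is `(i+c) * L.col x u + (i+c') * L.col x u'`, and the right side
`1 + (i+c+1) * L.col x u + (i+c'+1) * L.col x u'` is the same by `RotAt.col`. -/
theorem rot_bit1 (hL : Good L) {x u u' : V} (hR : RotAt L x u u') (hx : L.hue x = 1)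
    {i : ZMod 2} {g : V × ZMod 2 → ZMod 2}
    (hg : ∀ Y Z W, (lift L s).S (x, i) Y Z W → g Z + g W = (lift L s).b Z W (x, i) Y) :
    g (u, i + L.c x u + 1) + g (u', i + L.c x u' + 1) =
      1 + (lift L s).c (x, i) (u, i + L.c x u + 1) +
        (lift L s).c (x, i) (u', i + L.c x u' + 1) := by
  have e11 : (1 : ZMod 2) + 1 = 0 := by decide
  have hu : L.hue u = 0 := by
    have := z2_ne' (hL.Fhue _ _ hR.f1)
    rw [this, hx, e11]
  have hu' : L.hue u' = 0 := by
    have := z2_ne' (hL.Fhue _ _ hR.f2)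
    rw [this, hx, e11]
  obtain ⟨β, hβ, hβ2⟩ := rot_beta hL hR
  have hs := rot_strand hL hR (φ := fun Z => g Z + (1 + L.hue Z.1) * Z.2) (β := β) (i + 1) (by
    intro y z w k h
    have h1 := u3_spec hL hg h k
    have hy : L.hue y = 0 := by
      have := z2_ne' (hL.Shue _ _ _ _ h)
      rw [this, hx, e11]
    rw [hx, hy] at h1
    show (g (z, k) + (1 + L.hue z) * k) + (g (w, k + L.b z w x y + 1) +
      (1 + L.hue w) * (k + L.b z w x y + 1)) = i + 1 + (β z + β w)
    rw [h1, hβ y z w h]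
    generalize L.b x y z w = a
    clear h1 hg
    revert i a
    decide)
  have b1 := u3_bd hL hg hR.f1
  have b2 := u3_bd hL hg hR.f2
  have s1 : g (u, i + L.c x u + 1) + (1 + L.hue u) * (i + L.c x u + 1) +
    (g (u', i + L.c x u + 1 + 1 + L.c x u + L.c x u') +
      (1 + L.hue u') * (i + L.c x u + 1 + 1 + L.c x u + L.c x u')) = β u + β u' :=
    hs (i + L.c x u + 1)
  have s2 : g (u, i + L.c x u) + (1 + L.hue u) * (i + L.c x u) +
    (g (u', i + L.c x u + 1 + L.c x u + L.c x u') +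
      (1 + L.hue u') * (i + L.c x u + 1 + L.c x u + L.c x u')) = β u + β u' :=
    hs (i + L.c x u)
  rw [u3_e1, hu, hu', hβ2] at s1
  rw [u3_e2, hu, hu', hβ2] at s2
  rw [hx, hu] at b1
  rw [hx, hu'] at b2
  rw [u3_c, u3_c, hx, hu, hu']
  have hc := hR.col
  rw [e11] at b1 b2 ⊢
  simp only [zero_mul, add_zero, zero_add, one_mul] at s1 s2 b1 b2 ⊢
  generalize g (u, i + L.c x u + 1) = a at *
  generalize g (u', i + L.c x u') = b at *
  generalize g (u, i + L.c x u) = c at *
  generalize g (u', i + L.c x u' + 1) = d at *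
  generalize g (x, i + 1) = e at *
  have t1 : a + b = 1 := by
    generalize L.c x u = p at *
    generalize L.c x u' = q at *
    have key : ∀ a b i p q : ZMod 2, a + (i + p + 1) + (b + (i + q)) = p + q → a + b = 1 := by
      decide
    exact key _ _ _ _ _ s1
  have t2 : c + d = 1 := by
    have key : ∀ a b i p q : ZMod 2, a + (i + p) + (b + (i + q + 1)) = p + q → a + b = 1 := by
      decide
    exact key _ _ _ _ _ s2
  have t3 : a + d = (i + L.c x u) * L.col x u + (i + L.c x u') * L.col x u' := by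
    rw [← b1, ← b2]
    have key : ∀ a b c d e : ZMod 2, a + b = 1 → c + d = 1 → a + d = e + c + (e + b) := by
      decide
    exact key _ _ _ _ _ t1 t2
  rw [t3]
  have key : ∀ m n p q : ZMod 2, p + q = 1 → m * p + n * q =
      1 + ((m + 1) * p + 1) + ((n + 1) * q + 1) := by
    decide
  exact key _ _ _ _ hc

end Pool.Agent.Lib.H97Z
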