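import Pool.Agent.Lib.H97Z.U2
import Pool.Agent.Lib.H97Z.U3
import Pool.Agent.Lib.H97Z.U4

/-! Chunk U5: the lift of a rotation -/

set_option autoImplicit false

namespace Pool.Agent.Lib.H97Z

variable {V : Type} [Fintype V] [DecidableEq V] {L : Lev V} {s : Finset V → ZMod 2}

theorem u5_c (i a : ZMod 2) : i + (i + a + 1) = a + 1 := by revert i a; decide

theorem u5_d (i a k : ZMod 2) (h : i + k = a + 1) : k = i + a + 1 := by
  revert i a k; decide

/-- PROOF. `RotAt L x u u'` from `Good.rot`; the data are `(u, i + L.c x u + 1)`, `(u', i + L.c x u' + 1)`.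
`f1`, `f2`: definition.  `all`: `L.F x v`, so `v = u` or `u'` and the index is determined.  `con`, `par`: `rot_con`,
`rot_par`.  `bit`: `rot_bit0`, `rot_bit1`.  `col`: `RotAt.col`. -/
theorem rot_lift (hL : Good L) (X : V × ZMod 2) : ∃ U U', RotAt (lift L s) X U U' := by
  obtain ⟨x, i⟩ := X
  obtain ⟨u, u', hR⟩ := hL.rot x
  refine ⟨(u, i + L.c x u + 1), (u', i + L.c x u' + 1), ⟨⟨hR.f1, u5_c _ _⟩, ⟨hR.f2, u5_c _ _⟩,
    ?_, ?_, ?_, ?_, ?_, ?_⟩⟩
  · intro h
    rw [Prod.mk.injEq] at h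
    exact hR.ne h.1
  · rintro ⟨v, k⟩ ⟨h1, h2⟩
    have h1' : L.F x v := h1
    have h2' : i + k = L.c x v + 1 := h2
    have h3 := u5_d _ _ _ h2'
    rcases hR.all v h1' with h | h
    · left
      rw [h3, h]
    · right
      rw [h3, h]
  · intro g hg
    exact rot_con hL hR (s := s) (fun Y Z W h => hg Y Z W h)
  · intro g hg
    exact rot_par hL hR (s := s) (fun Y Z W h => hg Y Z W h)
  · intro g hg
    rcases z2_cases (L.hue x) with hx | hx
    · exact rot_bit0 hL hR hx (s := s) (fun Y Z W h => hg Y Z W h)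
    · exact rot_bit1 hL hR hx (s := s) (fun Y Z W h => hg Y Z W h)
  · exact hR.col

end Pool.Agent.Lib.H97Z
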