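import Pool.Agent.Lib.H97Z.E1
import Pool.Agent.Lib.H97Z.E2
import Pool.Agent.Lib.H97Z.E3
import Pool.Agent.Lib.H97Z.T6
import Pool.Agent.Lib.H97Z.P2
import Pool.Agent.Lib.H97Z.P3
import Pool.Agent.Lib.H97Z.M5
import Pool.Agent.Lib.H97Z.N2
import Pool.Agent.Lib.H97Z.N4
import Pool.Agent.Lib.H97Z.U5
import Pool.Agent.Lib.H97Z.O1
import Pool.Agent.Lib.H97Z.O2

/-! Chunk GL: the lift of a good level is good -/

set_option autoImplicit false

namespace Pool.Agent.Lib.H97Z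

variable {V : Type} [Fintype V] [DecidableEq V] {L : Lev V} {s : Finset V → ZMod 2}

theorem gl_a : ∀ i j : ZMod 2, i ≠ j → j = i + 1 := by decide

theorem gl_b : ∀ i j t : ZMod 2, ¬ (i + j = t + 1) → i + j = t := by decide

/-- PROOF. Assembly.  `pure`: if `X.1 ≠ Z.1`: `pure_lift`; otherwise `Z = (X.1, X.2 + 1)` and `fib_lift` with
`Good.rot`.  `mix`: if `¬ L.F X.1 Z.1`: `mix_lift`; otherwise `X.2 + Z.2 ≠ L.c X.1 Z.1 + 1`, so `bd_lift_mix`.
`bd`: `bd_lift`.  `rot`: `rot_lift`.  `even`, `big`, `four`: `lift_card`.  `nx`: `lift_nF`. -/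
theorem good_lift (hL : Good L) (hS : Sol L s) : Good (lift L s) where
  R12 := lift_R12 hL
  R23 := lift_R23 hL
  R34 := lift_R34 hL
  Rne := lift_Rne hL
  Rhue := lift_Rhue hL
  S12 := lift_S12 hL
  Sdd := lift_Sdd hL
  Sne := lift_Sne hL
  Shue := lift_Shue hL
  Sex := lift_Sex hL
  F12 := lift_F12 hL
  Fhue := lift_Fhue hL
  b12 := lift_b12 hL
  b34 := lift_b34 hL
  c12 := lift_c12 hL
  col12 := lift_col12 hL
  two := two_lift hL
  pure := by
    rintro ⟨x, i⟩ ⟨z, j⟩ hne hh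
    by_cases hxz : x = z
    · subst hxz
      have hij : j = i + 1 := gl_a i j fun h => hne (by rw [h])
      subst hij
      obtain ⟨u, u', hR⟩ := hL.rot x
      exact ⟨_, _, _, _, fib_lift hL hR i⟩
    · exact pure_lift hL hS hxz hh i j
  mix := by
    rintro ⟨x, i⟩ ⟨z, j⟩ hh hF
    by_cases hF0 : L.F x z
    · refine bd_lift_mix hL hS hF0 ?_
      exact gl_b i j (L.c x z) fun h => hF ⟨hF0, h⟩
    · exact mix_lift hL hS hh hF0 i j
  bd := by
    rintro ⟨x, i⟩ ⟨z, j⟩ hF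
    exact bd_lift hL hS hF.1 hF.2
  rot := rot_lift hL
  even := by
    intro h
    rw [lift_card]
    exact even_two_mul _
  big := by
    intro h
    rw [lift_card]
    have := hL.big h
    omega
  conn := lift_conn hL
  ni := lift_ni hL
  ni2 := lift_ni2 hL
  four := by
    intro h
    rw [lift_card]
    exact Dvd.dvd.mul_left (hL.four h) 2
  nx := by
    obtain ⟨x, hx⟩ := hL.nx
    exact ⟨(x, 0), by rw [lift_nF hL, hx]⟩

end Pool.Agent.Lib.H97Z
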