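import Pool.Agent.Lib.H97Z.P1
import Pool.Agent.Lib.H97Z.B3

/-! Chunk H1: connectedness: functions on lifted links -/

set_option autoImplicit false

namespace Pool.Agent.Lib.H97Z

variable {V : Type} [Fintype V] [DecidableEq V] {L : Lev V} {s : Finset V → ZMod 2}

/-- PROOF. `Sol.p` and `pure_cl` (third part). -/
theorem sc_pure (hL : Good L) (hS : Sol L s) {x z : V} (hxz : x ≠ z) (hh : L.hue x = L.hue z)
    {i j : ZMod 2} {f : V × ZMod 2 → ZMod 2} (hf : RC (lift L s) (x, i) (z, j) f) :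
    f (z, j + 1) = f (x, i + 1) := by
  obtain ⟨y, w, y', w', hP, hE⟩ := hS.p x z hxz hh
  exact (pure_cl hL hxz hh hP hE hf).2.2.1

theorem h1_a : ∀ k c : ZMod 2, (k + c) + c = k := by decide

theorem h1_b (g : ZMod 2 → ZMod 2) (h : g 0 = g 1) (k : ZMod 2) : g k = g 0 := by
  rcases z2_cases k with rfl | rfl
  · rfl
  · exact h.symm

/-- PROOF. Let `Ub` be given by `y w e d'` (`L.S a y d w`, `L.S a d e d'`, `t = L.b a d e d'`).  `pot` with
`l := fun ρ => s ρ + (i + l)` gives `ht`, and `f_m v := f (v, m + ht v)` is `RC` (`lift_fun`), so `f_m b = f_m w = f_m e`.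
`rc_uturn` (`i + l = L.b a d e d'`): `f (e, 0) = f (e, 1)`, so `f_0 = f_1` at `e`, hence at `b` and `w`:
`f (b, k)` and `f (w, k')` are all equal.  `rc_junction` for `L.S a y d w`: `f (a, i + 1) = f (w, l + L.b d w a y)`. -/
theorem sc_ub (hL : Good L) {a d b : V} {t : ZMod 2} (had : a ≠ d) (hU : Ub L a d b t)
    {i l : ZMod 2} (hil : i + l = t) {f : V × ZMod 2 → ZMod 2}
    (hf : RC (lift L s) (a, i) (d, l) f) (k : ZMod 2) : f (b, k) = f (a, i + 1) := by
  obtain ⟨y, w, e, d', h1, h2, ht, h3⟩ := hU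
  obtain ⟨h, hh⟩ := pot hL had (fun ρ => s ρ + (i + l))
  have hu := (rc_uturn hL h2 (hil.trans ht) hf).1
  have he : ∀ m : ZMod 2, f (e, m) = f (e, 0) := fun m => h1_b (fun q => f (e, q)) hu m
  have hb : ∀ m : ZMod 2, f (b, m) = f (e, 0) := by
    intro m
    have h4 := (h3 _ (lift_fun hf hh (m + h b))).2
    have h5 : f (b, m + h b + h b) = f (e, m + h b + h e) := h4
    rw [h1_a, he] at h5
    exact h5
  have hw : ∀ m : ZMod 2, f (w, m) = f (e, 0) := by
    intro m
    have h4 := h3 _ (lift_fun hf hh (m + h w))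
    have h5 : f (b, m + h w + h b) = f (w, m + h w + h w) := h4.1
    rw [h1_a, hb] at h5
    exact h5.symm
  have hj := (rc_junction hL h1 hf).2
  rw [hj, hb, hw]

end Pool.Agent.Lib.H97Z
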