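import Pool.Agent.Lib.H97Z.D2
import Pool.Agent.Lib.H97Z.B2

/-! Chunk H2: connectedness: functions on the link of a fibre -/

set_option autoImplicit false

namespace Pool.Agent.Lib.H97Z

variable {V : Type} [Fintype V] [DecidableEq V] {L : Lev V} {s : Finset V → ZMod 2}

theorem h2_d : ∀ l b g g' : ZMod 2, g + g' = b → l + g + (l + g') = b := by decide
theorem h2_e : ∀ k g : ZMod 2, k + g + g = k := by decide

/-- PROOF. As in `fib_lift`: `g` from `rotpot` with `l y z w := L.b z w x y`; `f_l v := f (v, l + g v)` satisfies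
`f_l z = f_l w` for `L.S x y z w` (`lift_R_fib`), so it is constant away from `x` (`RotAt.con`, `Good.rot`); call the
constant `κ l`; `f (v, k) = κ (k + g v)`. -/
theorem sc_fib (hL : Good L) {x : V} {i : ZMod 2} {f : V × ZMod 2 → ZMod 2}
    (hf : RC (lift L s) (x, i) (x, i + 1) f) :
    ∃ (g : V → ZMod 2) (κ : ZMod 2 → ZMod 2), ∀ v, v ≠ x → ∀ k, f (v, k) = κ (k + g v) := by
  obtain ⟨g, hg⟩ := rotpot hL x (fun y z w => L.b z w x y) (fun y z w => hL.b12 _ _ _ _)
  obtain ⟨u, u', hR⟩ := hL.rot x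
  have key : ∀ l v v', v ≠ x → v' ≠ x → f (v, l + g v) = f (v', l + g v') := by
    intro l v v' hv hv'
    refine hR.con (fun v => f (v, l + g v)) ?_ v v' hv hv'
    intro y z w h
    exact hf _ _ (lift_R_fib (hL.S_zwxy h) (h2_d _ _ _ _ (hg y z w h)) (z2_ne_add_one i))
  refine ⟨g, fun l => f (u, l + g u), fun v hv k => ?_⟩
  have := key (k + g v) v u hv (hL.Fne hR.f1).symm
  rwa [h2_e] at this

end Pool.Agent.Lib.H97Z
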