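import Pool.Agent.Lib.H97Z.H1
import Pool.Agent.Lib.H97Z.H2

/-! Chunk H3: connectedness: triples which contain a fibre -/

set_option autoImplicit false

namespace Pool.Agent.Lib.H97Z

variable {V : Type} [Fintype V] [DecidableEq V] {L : Lev V} {s : Finset V → ZMod 2}

/-- PROOF. (1) For `x ≠ z` of equal hue and `i, j`: the function `τ (x, i) (z, j) ·` is `RC` (`hτ`), so by `sc_pure`
`τ (x, i) (z, j) (z, j+1) = τ (x, i) (z, j) (x, i+1)`.  In terms of `T x v k := τ (x, 0) (x, 1) (v, k)` (which is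
also `τ (x, i) (x, i+1) (v, k)` by symmetry): `T z x i = T x z j` for all `i, j`; so `T x z j` does not depend on
`j`, and `T x z j = T z x i`.
(2) The function `τ (x, 0) (x, 1) ·` is `RC` on the link of `(x, 0), (x, 0 + 1)`; by `sc_fib` it is `κ' (k + g v)`; for
`z ≠ x` of the hue of `x` (exists by `Good.big`) it does not depend on `k`, so `κ' 0 = κ' 1` and `T x v k` is a
constant `Ω x` for all `v ≠ x` and `k`.
(3) `Ω x = T x z 0 = T z x 0 = Ω z` for equal hues.  Define `θ h := Ω x` for some `x` of hue `h`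
(`Good.big`). -/
theorem sc_theta (hL : Good L) (hS : Sol L s) {τ : V × ZMod 2 → V × ZMod 2 → V × ZMod 2 → ZMod 2}
    (h1 : ∀ X Y Z, τ X Y Z = τ Y X Z) (h2 : ∀ X Y Z, τ X Y Z = τ X Z Y)
    (hτ : ∀ X Y Z W, (lift L s).R X Y Z W → τ X Y Z = τ X Y W) :
    ∃ θ : ZMod 2 → ZMod 2, ∀ x v, v ≠ x → ∀ i k, τ (x, i) (x, i + 1) (v, k) = θ (L.hue x) := by
  classical
  have hsw : ∀ (x : V) (i : ZMod 2) (Y : V × ZMod 2), τ (x, i) (x, i + 1) Y = τ (x, 0) (x, 1) Y := by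
    intro x i Y
    rcases z2_cases i with rfl | rfl
    · rfl
    · exact h1 _ _ _
  have hA : ∀ x z, x ≠ z → L.hue x = L.hue z → ∀ i j, τ (z, 0) (z, 1) (x, i) = τ (x, 0) (x, 1) (z, j) := by
    intro x z hxz hh i j
    have h3 := sc_pure hL hS hxz hh (i := i) (j := j) (f := fun Y => τ (x, i) (z, j) Y)
      (fun u v huv => hτ _ _ _ _ huv)
    have h4 : τ (x, i) (z, j) (z, j + 1) = τ (z, 0) (z, 1) (x, i) := by
      rw [← hsw z j, h1 (x, i) (z, j), h2 (z, j) (x, i)]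
    have h5 : τ (x, i) (z, j) (x, i + 1) = τ (x, 0) (x, 1) (z, j) := by
      rw [← hsw x i, h2 (x, i) (z, j)]
    rw [← h4, ← h5]
    exact h3
  have hz : ∀ x, ∃ z, x ≠ z ∧ L.hue x = L.hue z := by
    intro x
    obtain ⟨b, hb, hb2⟩ := Finset.exists_mem_ne (lt_of_lt_of_le (by norm_num) (hL.big (L.hue x))) x
    exact ⟨b, hb2.symm, (Finset.mem_filter.1 hb).2.symm⟩
  have hB : ∀ x, ∃ c, ∀ v, v ≠ x → ∀ k, τ (x, 0) (x, 1) (v, k) = c := by
    intro x
    obtain ⟨g, κ, hg⟩ := sc_fib hL (x := x) (i := 0) (f := fun Y => τ (x, 0) (x, 0 + 1) Y)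
      (fun u v huv => hτ _ _ _ _ huv)
    obtain ⟨z, hxz, hh⟩ := hz x
    have h3 : τ (x, 0) (x, 1) (z, 0) = κ (0 + g z) := hg z hxz.symm 0
    have h4 : τ (x, 0) (x, 1) (z, 1) = κ (1 + g z) := hg z hxz.symm 1
    rw [← hA x z hxz hh 0 0] at h3
    rw [← hA x z hxz hh 0 1] at h4
    have h5 : κ 0 = κ 1 := by
      have h6 : κ (0 + g z) = κ (1 + g z) := h3.symm.trans h4
      rcases z2_cases (g z) with h7 | h7
      · rw [h7] at h6
        exact h6
      · rw [h7] at h6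
        exact h6.symm
    refine ⟨κ 0, fun v hv k => ?_⟩
    have h6 : τ (x, 0) (x, 1) (v, k) = κ (k + g v) := hg v hv k
    rw [h6]
    rcases z2_cases (k + g v) with h7 | h7
    · rw [h7]
    · rw [h7, h5]
  choose Ω hΩ using hB
  have hC : ∀ x z, L.hue x = L.hue z → Ω x = Ω z := by
    intro x z hh
    by_cases hxz : x = z
    · rw [hxz]
    · rw [← hΩ x z (Ne.symm hxz) 0, ← hΩ z x hxz 0, hA x z hxz hh 0 0]
  refine ⟨fun h => if hx : ∃ x, L.hue x = h then Ω hx.choose else 0, fun x v hv i k => ?_⟩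
  have hx : ∃ y, L.hue y = L.hue x := ⟨x, rfl⟩
  have h3 : (if hx : ∃ y, L.hue y = L.hue x then Ω hx.choose else 0) = Ω x := by
    rw [dif_pos hx]
    exact hC _ _ hx.choose_spec
  rw [hsw, hΩ x v hv k]
  exact h3.symm

end Pool.Agent.Lib.H97Z
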