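import Pool.Agent.Lib.H97Z.H1

/-! Chunk H4: connectedness: a block with a twist -/

set_option autoImplicit false

namespace Pool.Agent.Lib.H97Z

variable {V : Type} [Fintype V] [DecidableEq V] {L : Lev V} {s : Finset V → ZMod 2}

theorem h4_z : ∀ i j k l t₁ t₂ t₃ : ZMod 2, i + j + k + l = t₁ + t₂ + t₃ →
    i + l = t₁ ∨ j + l = t₂ ∨ k + l = t₃ := by decide

theorem h4_s1 (x y z w : V) : ({y, z, x, w} : Finset V) = {x, y, z, w} := by
  ext a
  simp only [Finset.mem_insert, Finset.mem_singleton]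
  tauto

theorem h4_s2 (x y z w : V) : ({z, x, y, w} : Finset V) = {x, y, z, w} := by
  ext a
  simp only [Finset.mem_insert, Finset.mem_singleton]
  tauto

/-- PROOF. `i + j + k + l = t₁ + t₂ + t₃`, so one of `i + l = t₁`, `j + l = t₂`, `k + l = t₃` holds (otherwise the sum
of the three left sides is `t₁ + t₂ + t₃ + 1`, but it is `i + j + k + 3 l = i + j + k + l`).
If `i + l = t₁`: `τ (x, i) (w, l) ·` is `RC` and `sc_ub` (`Ub L x w y t₁`) gives
`τ (x, i) (w, l) (y, j) = τ (x, i) (w, l) (x, i+1) = θ (L.hue x)` (`hθ` and symmetry), and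
`τ (x, i) (y, j) (z, k) = τ (x, i) (y, j) (w, l)` by `hτ` for the regular block (`lift_R_reg`).
The other cases: `Ub L y w z t₂`, `Ub L z w x t₃`, with the equal hues of `x, y, z`. -/
theorem sc_witness (hL : Good L) {τ : V × ZMod 2 → V × ZMod 2 → V × ZMod 2 → ZMod 2}
    (h1 : ∀ X Y Z, τ X Y Z = τ Y X Z) (h2 : ∀ X Y Z, τ X Y Z = τ X Z Y)
    (hτ : ∀ X Y Z W, (lift L s).R X Y Z W → τ X Y Z = τ X Y W) {θ : ZMod 2 → ZMod 2}
    (hθ : ∀ x v, v ≠ x → ∀ i k, τ (x, i) (x, i + 1) (v, k) = θ (L.hue x)) {x y z w : V}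
    (hT : Tw L s x y z w) {i j k l : ZMod 2} (hs : i + j + k + l = s {x, y, z, w}) :
    τ (x, i) (y, j) (z, k) = θ (L.hue x) := by
  obtain ⟨hR, hxy, hyz, t₁, t₂, t₃, U1, U2, U3, ht⟩ := hT
  rcases h4_z i j k l t₁ t₂ t₃ (hs.trans ht) with h | h | h
  · have h3 : τ (x, i) (w, l) (y, j) = τ (x, i) (w, l) (x, i + 1) :=
      sc_ub hL (hL.Rne_xw hR) U1 h (f := fun Y => τ (x, i) (w, l) Y) (fun u v huv => hτ _ _ _ _ huv) j
    rw [hτ _ _ _ _ (lift_R_reg hR hs), h2, h3, h2 (x, i) (w, l)]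
    exact hθ x w (hL.Rne_xw hR).symm i l
  · have h3 : τ (y, j) (w, l) (z, k) = τ (y, j) (w, l) (y, j + 1) :=
      sc_ub hL (hL.Rne_yw hR) U2 h (f := fun Y => τ (y, j) (w, l) Y) (fun u v huv => hτ _ _ _ _ huv) k
    have hs' : j + k + i + l = s {y, z, x, w} := by
      rw [h4_s1, ← hs]
      ring
    rw [h1 (x, i) (y, j), h2 (y, j) (x, i), hτ _ _ _ _ (lift_R_reg (hL.R_yzxw hR) hs'), h2, h3, h2 (y, j) (w, l), hxy]
    exact hθ y w (hL.Rne_yw hR).symm j l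
  · have h3 : τ (z, k) (w, l) (x, i) = τ (z, k) (w, l) (z, k + 1) :=
      sc_ub hL (hL.Rne_zw hR) U3 h (f := fun Y => τ (z, k) (w, l) Y) (fun u v huv => hτ _ _ _ _ huv) i
    have hs' : k + i + j + l = s {z, x, y, w} := by
      rw [h4_s2, ← hs]
      ring
    rw [h2 (x, i) (y, j), h1 (x, i) (z, k), hτ _ _ _ _ (lift_R_reg (hL.R_zxyw hR) hs'), h2, h3, h2 (z, k) (w, l), hxy, hyz]
    exact hθ z w (hL.Rne_zw hR).symm k l

end Pool.Agent.Lib.H97Z
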