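import Pool.Agent.Lib.H97Z.H4

/-! Chunk H5: connectedness: all lifted triples -/

set_option autoImplicit false

namespace Pool.Agent.Lib.H97Z

variable {V : Type} [Fintype V] [DecidableEq V] {L : Lev V} {s : Finset V → ZMod 2}

/-- The majority hue of a triple. -/
def maj (L : Lev V) (x y z : V) : ZMod 2 :=
  L.hue x * L.hue y + L.hue y * L.hue z + L.hue x * L.hue z

theorem h5_a : ∀ a b c d : ZMod 2, a + b + c + d = 1 → a * b + b * c + a * c = a * b + b * d + a * d := by decide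

/-- PROOF. Case distinction on the hues (`Good.Rhue`; generalize the four hues, `decide`). -/
theorem maj_block (hL : Good L) {x y z w : V} (h : L.R x y z w) :
    maj L x y z = maj L x y w :=
  h5_a _ _ _ _ (hL.Rhue _ _ _ _ h)

theorem h5_sw1 (x y z : V) : maj L x y z = maj L y x z := by
  unfold maj
  ring

theorem h5_sw2 (x y z : V) : maj L x y z = maj L x z y := by
  unfold maj
  ring

theorem h5_c : ∀ a b c : ZMod 2, a = b ∨ a = c ∨ b = c := by decide

theorem h5_d : ∀ a : ZMod 2, a * a + a * a + a * a = a := by decide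

theorem h5_f : ∀ i j l t : ZMod 2, i + j + (t + i + j + l) + l = t := by decide

theorem h5_e : ∀ i j k t : ZMod 2, i + j + k + (t + i + j + k) = t := by decide

open Classical in
/-- PROOF. `σ x y z := if ∃ i j k, τ (x, i) (y, j) (z, k) ≠ θ (maj L x y z) then 1 else 0`.  It is symmetric.  For
`L.R x y z w`: if `τ (x, i) (y, j) (z, k) ≠ θ (..)`, let `l := s {..} + i + j + k`; then
`τ (x, i) (y, j) (w, l) = τ (x, i) (y, j) (z, k)` (`hτ`, `lift_R_reg`) and `maj_block`; so `σ x y z = σ x y w` (both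
directions).  `hSC` gives `θ'` with `σ x y z = θ' (L.hue x)` for `L.R x y z w`, `L.hue x = L.hue y`.  The
witnesses (`sc_witness`; for each `i, j, k` there is `l`) give `σ = 0` at `p` and `q`, so `θ' 0 = θ' 1 = 0`.
For any `L.R x y z w` two of `x, y, z` have equal hue, so `σ x y z = 0` (permute). -/
theorem sc_all (hL : Good L) (hSC : SC L)
    {τ : V × ZMod 2 → V × ZMod 2 → V × ZMod 2 → ZMod 2}
    (h1 : ∀ X Y Z, τ X Y Z = τ Y X Z) (h2 : ∀ X Y Z, τ X Y Z = τ X Z Y)
    (hτ : ∀ X Y Z W, (lift L s).R X Y Z W → τ X Y Z = τ X Y W) {θ : ZMod 2 → ZMod 2}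
    (hθ : ∀ x v, v ≠ x → ∀ i k, τ (x, i) (x, i + 1) (v, k) = θ (L.hue x))
    {p₁ p₂ p₃ p₄ q₁ q₂ q₃ q₄ : V} (hp : Tw L s p₁ p₂ p₃ p₄) (hp0 : L.hue p₁ = 0)
    (hq : Tw L s q₁ q₂ q₃ q₄) (hq1 : L.hue q₁ = 1) {x y z w : V} (h : L.R x y z w)
    (i j k : ZMod 2) : τ (x, i) (y, j) (z, k) = θ (maj L x y z) := by
  let P : V → V → V → Prop := fun x y z => ∀ i j k, τ (x, i) (y, j) (z, k) = θ (maj L x y z)
  have hP1 : ∀ x y z, P x y z → P y x z := fun x y z hh i j k => by
    rw [h1, ← h5_sw1 x y z]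
    exact hh j i k
  have hP2 : ∀ x y z, P x y z → P x z y := fun x y z hh i j k => by
    rw [h2, ← h5_sw2 x y z]
    exact hh i k j
  have hP3 : ∀ x y z w, L.R x y z w → P x y z → P x y w := fun x y z w hR hh i j l => by
    have h3 : i + j + (s {x, y, z, w} + i + j + l) + l = s {x, y, z, w} := h5_f _ _ _ _
    rw [← hτ _ _ _ _ (lift_R_reg hR h3), ← maj_block hL hR]
    exact hh i j _
  have hσ1 : ∀ x y z, P x y z ↔ P y x z := fun x y z => ⟨hP1 _ _ _, hP1 _ _ _⟩
  have hσ2 : ∀ x y z, P x y z ↔ P x z y := fun x y z => ⟨hP2 _ _ _, hP2 _ _ _⟩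
  have hσ3 : ∀ x y z w, L.R x y z w → (P x y z ↔ P x y w) := fun x y z w hR =>
    ⟨hP3 _ _ _ _ hR, hP3 _ _ _ _ (hL.R_xywz hR)⟩
  obtain ⟨θ', hθ'⟩ := hSC (fun x y z => if P x y z then 0 else 1)
    (fun x y z => if_congr (hσ1 x y z) rfl rfl) (fun x y z => if_congr (hσ2 x y z) rfl rfl)
    (fun x y z w hR => if_congr (hσ3 x y z w hR) rfl rfl)
  have hW : ∀ a b c d : V, Tw L s a b c d → P a b c := by
    intro a b c d hT i j k
    have h3 := sc_witness hL h1 h2 hτ hθ hT (h5_e i j k (s {a, b, c, d}))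
    rw [h3]
    have h4 : maj L a b c = L.hue a := by
      unfold maj
      rw [← hT.2.2.1, ← hT.2.1]
      exact h5_d _
    rw [h4]
  have h0 : ∀ a b c d : V, Tw L s a b c d → θ' (L.hue a) = 0 := by
    intro a b c d hT
    have h3 : (if P a b c then (0 : ZMod 2) else 1) = θ' (L.hue a) := hθ' a b c d hT.1 hT.2.1
    rw [if_pos (hW a b c d hT)] at h3
    exact h3.symm
  have h00 : θ' 0 = 0 := by
    have := h0 _ _ _ _ hp
    rwa [hp0] at this
  have h01 : θ' 1 = 0 := by
    have := h0 _ _ _ _ hq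
    rwa [hq1] at this
  have hall : ∀ x y z w, L.R x y z w → L.hue x = L.hue y → P x y z := by
    intro x y z w hR hh
    have h3 : (if P x y z then (0 : ZMod 2) else 1) = θ' (L.hue x) := hθ' x y z w hR hh
    by_contra hc
    rw [if_neg hc] at h3
    rcases z2_cases (L.hue x) with h4 | h4
    · rw [h4, h00] at h3
      exact one_ne_zero h3
    · rw [h4, h01] at h3
      exact one_ne_zero h3
  have hfin : P x y z := by
    rcases h5_c (L.hue x) (L.hue y) (L.hue z) with h3 | h3 | h3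
    · exact hall x y z w h h3
    · exact hP2 _ _ _ (hall x z y w (hL.R_xzyw h) h3)
    · exact hP1 _ _ _ (hP2 _ _ _ (hall y z x w (hL.R_yzxw h) h3))
  exact hfin i j k

end Pool.Agent.Lib.H97Z
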