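import Pool.Agent.Lib.H97Z.H3
import Pool.Agent.Lib.H97Z.H5

/-! Chunk H6: connectedness of the lift -/

set_option autoImplicit false

namespace Pool.Agent.Lib.H97Z

variable {V : Type} [Fintype V] [DecidableEq V] {L : Lev V} {s : Finset V → ZMod 2}

theorem h6_maj : ∀ a b c : ZMod 2, a = b → a * b + b * c + a * c = a := by decide

/-- PROOF. Let `τ` be given, `θ` from `sc_theta`.  Let `(lift L s).R X Y Z W` with `hue X = hue Y`.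
`RL`: `sc_all`, and `maj = L.hue X.1` as `X.1`, `Y.1` have equal hue.  `UU L X Y Z W` (`Y = (X.1, X.2 + 1)`):
`τ X Y Z = θ (L.hue X.1)` by `hθ` (`Z.1 ≠ X.1` by `Good.Sne_xz`).  `UU L X Z Y W`: `τ X Y Z = τ X Z Y = θ (L.hue X.1)`.
`UU L X W Y Z`: `τ X Y Z = τ X Y W` by `hτ`, `= θ (L.hue X.1)`.  `UU L Y Z X W`, `UU L Y W X Z`: the same with
`θ (L.hue Y.1)`.  `UU L Z W X Y`: impossible, `X.1`, `Y.1` would have different hues. -/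
theorem sc_lift (hL : Good L) (hS : Sol L s) (hSC : SC L)
    {p₁ p₂ p₃ p₄ q₁ q₂ q₃ q₄ : V} (hp : Tw L s p₁ p₂ p₃ p₄) (hp0 : L.hue p₁ = 0)
    (hq : Tw L s q₁ q₂ q₃ q₄) (hq1 : L.hue q₁ = 1) : SC (lift L s) := by
  intro τ h1 h2 hτ
  obtain ⟨θ, hθ⟩ := sc_theta hL hS h1 h2 hτ
  have key : ∀ X Y Z : V × ZMod 2, X.1 = Y.1 → X.2 ≠ Y.2 → Z.1 ≠ X.1 →
      τ X Y Z = θ (L.hue X.1) := by
    rintro ⟨x, i⟩ ⟨y, j⟩ ⟨z, k⟩ hxy hij hz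
    have e1 : x = y := hxy
    subst e1
    have e2 : j = i + 1 := z2_ne' hij
    subst e2
    exact hθ x z hz i k
  refine ⟨θ, fun X Y Z W h hh => ?_⟩
  have hh' : L.hue X.1 = L.hue Y.1 := hh
  show τ X Y Z = θ (L.hue X.1)
  rcases (show RL L s X Y Z W ∨ UU L X Y Z W ∨ UU L X Z Y W ∨ UU L X W Y Z ∨ UU L Y Z X W ∨
    UU L Y W X Z ∨ UU L Z W X Y from h) with h' | h' | h' | h' | h' | h' | h'
  · have := sc_all hL hSC h1 h2 hτ hθ hp hp0 hq hq1 h'.1 X.2 Y.2 Z.2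
    have e : maj L X.1 Y.1 Z.1 = L.hue X.1 := h6_maj _ _ _ hh'
    rw [e] at this
    exact this
  · obtain ⟨e1, e2, w, hw, -⟩ := h'
    exact key X Y Z e1 e2 (hL.Sne_xz hw)
  · obtain ⟨e1, e2, w, hw, -⟩ := h'
    rw [h2 X Y Z]
    exact key X Z Y e1 e2 (hL.Sne_xz hw)
  · obtain ⟨e1, e2, w, hw, -⟩ := h'
    rw [hτ X Y Z W h, h2 X Y W]
    exact key X W Y e1 e2 (hL.Sne_xz hw)
  · obtain ⟨e1, e2, w, hw, -⟩ := h'
    rw [h1 X Y Z, h2 Y X Z, hh']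
    exact key Y Z X e1 e2 (hL.Sne_xz hw)
  · obtain ⟨e1, e2, w, hw, -⟩ := h'
    rw [hτ X Y Z W h, h1 X Y W, h2 Y X W, hh']
    exact key Y W X e1 e2 (hL.Sne_xz hw)
  · obtain ⟨e1, e2, w, hw, -⟩ := h'
    exact absurd hh' (hL.Shue _ _ _ _ hw)

end Pool.Agent.Lib.H97Z
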