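import Pool.Agent.Lib.H97Z.D1

/-! Chunk K0: the relation of a dual vector, one minority vertex -/

set_option autoImplicit false

namespace Pool.Agent.Lib.H97Z

variable {V : Type} [Fintype V] [DecidableEq V] {L : Lev V}

theorem k0_cases (a b c d : ZMod 2) (h : a + b + c + d = 1) :
    (a = b ∧ b = c) ∨ (a = b ∧ b = d) ∨ (a = c ∧ c = d) ∨ (b = c ∧ c = d) := by
  revert a b c d; decide

/-- PROOF. A regular block has three vertices of one hue and one of the other (`Good.Rhue`).  If the
minority vertex of `L.R x y z w` is `w`, this is `hr`.  Otherwise apply `hr` to the permuted block (for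
example `L.R x y w z`), change the third arguments with `hc` (`G x y w = G x y z`, because
`L.R x y z w`), use `hs`, and `{x, y, w, z} = {x, y, z, w}` as finsets. -/
theorem kg_of (hL : Good L) {ρ₀ ρ₁ : Finset V} {G : V → V → V → ZMod 2} {e₀ e₁ : ZMod 2}
    (hs : ∀ x z v, G x z v = G z x v) (hc : ∀ x z u v, L.R x z u v → G x z u = G x z v)
    (hp : ∀ x z u v, x ≠ z → L.hue x = L.hue z → u ≠ x → u ≠ z → v ≠ x → v ≠ z →
      G x z u = G x z v)
    (hd : ∀ x z a d, L.S x z a d → G x z a = G x z d)
    (hr : ∀ x y z w, L.R x y z w → L.hue x = L.hue y → L.hue y = L.hue z →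
      G x y z + G x z y + G x w y + G y z x + G y w x + G z w x =
        (if ({x, y, z, w} : Finset V) = ρ₀ then e₀ else 0) +
        (if ({x, y, z, w} : Finset V) = ρ₁ then e₁ else 0)) :
    KG L ρ₀ ρ₁ G e₀ e₁ := by
  refine ⟨hs, hc, hp, hd, ?_⟩
  intro x y z w h
  rcases k0_cases _ _ _ _ (hL.Rhue _ _ _ _ h) with ⟨h1, h2⟩ | ⟨h1, h2⟩ | ⟨h1, h2⟩ | ⟨h1, h2⟩
  · exact hr x y z w h h1 h2
  · -- minority z
    have e := hr x y w z (hL.R_xywz h) h1 h2
    have hset : ({x, y, w, z} : Finset V) = {x, y, z, w} := by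
      rw [Finset.pair_comm w z]
    rw [hset] at e
    rw [← e, hc x y w z (hL.R_xywz h), hs w z x]
    ring
  · -- minority y
    have e := hr x z w y (hL.R_xzwy h) h1 h2
    have hset : ({x, z, w, y} : Finset V) = {x, y, z, w} := by
      ext t; simp only [Finset.mem_insert, Finset.mem_singleton]; tauto
    rw [hset] at e
    rw [← e, hc x z w y (hL.R_xzwy h), hc x w z y (hL.R_xwzy h), hs z y x, hs w y x]
    ring
  · -- minority x
    have e := hr y z w x (hL.R_yzwx h) h1 h2
    have hset : ({y, z, w, x} : Finset V) = {x, y, z, w} := by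
      ext t; simp only [Finset.mem_insert, Finset.mem_singleton]; tauto
    rw [hset] at e
    rw [← e, hc y z w x (hL.R_yzwx h), hc y w z x (hL.R_ywzx h), hs y x z,
      hc z w y x (hL.R_zwyx h), hs z x y, hs w x y]
    ring

end Pool.Agent.Lib.H97Z
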