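import Pool.Agent.Lib.H97Z.D2

/-! Chunk K1: the sum over all lifts: simple properties -/

set_option autoImplicit false

namespace Pool.Agent.Lib.H97Z

variable {V : Type} [Fintype V] [DecidableEq V] {L : Lev V} {s : Finset V → ZMod 2}

/-- PROOF. `KG.sym` and `Finset.sum_comm`. -/
theorem hat_sym {ρ₀' ρ₁' : Finset (V × ZMod 2)}
    {G : V × ZMod 2 → V × ZMod 2 → V × ZMod 2 → ZMod 2} {e₀ e₁ : ZMod 2}
    (hG : KG (lift L s) ρ₀' ρ₁' G e₀ e₁) (x z v : V) : hat G x z v = hat G z x v := by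
  unfold hat
  rw [Finset.sum_comm]
  refine Finset.sum_congr rfl fun i _ => Finset.sum_congr rfl fun j _ =>
    Finset.sum_congr rfl fun l _ => ?_
  exact hG.sym _ _ _

theorem k1_pair (f g : ZMod 2 → ZMod 2) (t : ZMod 2) (h : ∀ l, f l = g (l + t)) :
    f 0 + f 1 = g 0 + g 1 := by
  rw [h 0, h 1]
  rcases z2_cases t with rfl | rfl
  · rw [add_zero, add_zero]
  · rw [zero_add, show (1 : ZMod 2) + 1 = 0 from rfl, add_comm]

/-- PROOF. `KG.rc` for `lift_R_reg`: `G (x, i) (z, j) (u, l) = G (x, i) (z, j) (v, s {..} + i + j + l)`; sum over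
`l` (`z2_sum`, both values of the index occur). -/
theorem mm_rc {ρ₀' ρ₁' : Finset (V × ZMod 2)}
    {G : V × ZMod 2 → V × ZMod 2 → V × ZMod 2 → ZMod 2} {e₀ e₁ : ZMod 2}
    (hG : KG (lift L s) ρ₀' ρ₁' G e₀ e₁) {x z u v : V} (h : L.R x z u v) (i j : ZMod 2) :
    mm G (x, i) (z, j) u = mm G (x, i) (z, j) v := by
  unfold mm
  refine k1_pair (fun l => G (x, i) (z, j) (u, l)) (fun l => G (x, i) (z, j) (v, l))
    (s {x, z, u, v} + i + j) (fun l => ?_)
  refine hG.rc _ _ _ _ (lift_R_reg h ?_)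
  generalize s {x, z, u, v} = a
  revert i j l a
  decide

/-- PROOF. `KG.pure`: the two terms are equal. -/
theorem mm_pure {ρ₀' ρ₁' : Finset (V × ZMod 2)}
    {G : V × ZMod 2 → V × ZMod 2 → V × ZMod 2 → ZMod 2} {e₀ e₁ : ZMod 2}
    (hG : KG (lift L s) ρ₀' ρ₁' G e₀ e₁) {x z v : V} (hxz : x ≠ z) (hh : L.hue x = L.hue z)
    (hx : v ≠ x) (hz : v ≠ z) (i j : ZMod 2) : mm G (x, i) (z, j) v = 0 := by
  unfold mm
  have hne : ∀ (a b : V) (k l : ZMod 2), a ≠ b → (a, k) ≠ (b, l) := fun a b k l hab e =>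
    hab (Prod.ext_iff.1 e).1
  rw [hG.pure (x, i) (z, j) (v, 0) (v, 1) (hne _ _ _ _ hxz) hh (hne _ _ _ _ hx)
    (hne _ _ _ _ hz) (hne _ _ _ _ hx) (hne _ _ _ _ hz)]
  exact z2_add_self _

/-- PROOF. If `i + j = L.b x z a d + 1`: `KG.dia` for the special lifts
`(x, i) (z, j) (a, k) (d, k + L.b a d x z + 1)`, sum over `k`.  If `i + j = L.b x z a d`: both sides are `0`, by
`KG.rc` for `uturn_a`, `uturn_d`. -/
theorem mm_dia (hL : Good L) {ρ₀' ρ₁' : Finset (V × ZMod 2)}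
    {G : V × ZMod 2 → V × ZMod 2 → V × ZMod 2 → ZMod 2} {e₀ e₁ : ZMod 2}
    (hG : KG (lift L s) ρ₀' ρ₁' G e₀ e₁) {x z a d : V} (h : L.S x z a d) (i j : ZMod 2) :
    mm G (x, i) (z, j) a = mm G (x, i) (z, j) d := by
  unfold mm
  by_cases hb : i + j = L.b x z a d
  · rw [hG.rc _ _ _ _ (uturn_a hL h hb), hG.rc _ _ _ _ (uturn_d hL h hb), z2_add_self,
      z2_add_self]
  · have hb1 : i + j = L.b x z a d + 1 := z2_ne hb
    refine k1_pair (fun l => G (x, i) (z, j) (a, l)) (fun l => G (x, i) (z, j) (d, l))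
      (L.b a d x z + 1) (fun l => ?_)
    refine hG.dia _ _ _ _ (lift_S_spec h hb1 ?_)
    rw [← add_assoc, z2_add_self, zero_add]

/-- PROOF. Definition (`z2_sum`). -/
theorem hat_eq (G : V × ZMod 2 → V × ZMod 2 → V × ZMod 2 → ZMod 2) (x z v : V) :
    hat G x z v = ∑ i : ZMod 2, ∑ j : ZMod 2, mm G (x, i) (z, j) v := by
  unfold hat mm
  refine Finset.sum_congr rfl fun i _ => Finset.sum_congr rfl fun j _ => ?_
  exact z2_sum _

end Pool.Agent.Lib.H97Z
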