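import Pool.Agent.Lib.H97Z.D2

/-! Chunk K2: the sum over all lifts: the relation -/

set_option autoImplicit false

namespace Pool.Agent.Lib.H97Z

variable {V : Type} [Fintype V] [DecidableEq V] {L : Lev V} {s : Finset V → ZMod 2}

/-- the index function of a lift -/
theorem k2_g (hL : Good L) {ρ : Finset V} {ρ' : Finset (V × ZMod 2)} (hρ : LiftOf L s ρ ρ') :
    ∃ g : V → ZMod 2, ρ' = ρ.image (fun v => (v, g v)) ∧ s ρ = ∑ v ∈ ρ, g v := by
  obtain ⟨x, y, z, w, i, j, k, l, h, hs, e1, e2⟩ := hρ
  have h1 := hL.Rne_xy h
  have h2 := hL.Rne_xz h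
  have h3 := hL.Rne_xw h
  have h4 := hL.Rne_yz h
  have h5 := hL.Rne_yw h
  have h6 := hL.Rne_zw h
  obtain ⟨g, hg⟩ : ∃ g : V → ZMod 2, g = fun v => if v = x then i else if v = y then j else
    if v = z then k else l := ⟨_, rfl⟩
  have gx : g x = i := by rw [hg]; simp
  have gy : g y = j := by rw [hg]; simp [h1.symm]
  have gz : g z = k := by rw [hg]; simp [h2.symm, h4.symm]
  have gw : g w = l := by rw [hg]; simp [h3.symm, h5.symm, h6.symm]
  refine ⟨g, ?_, ?_⟩
  · rw [e1, e2]
    simp only [Finset.image_insert, Finset.image_singleton, gx, gy, gz, gw]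
  · rw [e1, ← hs, Finset.sum_insert (by simp [h1, h2, h3]), Finset.sum_insert (by simp [h4, h5]),
      Finset.sum_pair h6, gx, gy, gz, gw]
    ring

omit [Fintype V] in
theorem k2_mem {x y z w : V} (h1 : x ≠ y) (h2 : x ≠ z) (h3 : x ≠ w) {i a b c d : ZMod 2}
    (h : (x, i) ∈ ({(x, a), (y, b), (z, c), (w, d)} : Finset (V × ZMod 2))) : i = a := by
  simp only [Finset.mem_insert, Finset.mem_singleton, Prod.mk.injEq, h1, h2, h3, false_and,
    or_false, true_and] at h
  exact h

open Classical in
/-- The number of the lifts of the block `{x, y, z, w}` which are equal to `ρ'`, a lift of `ρ`.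
PROOF. `ρ = {x', y', z', w'}`, `ρ' = {(x', i'), ..}` (`LiftOf`).  If `ρ ≠ {x, y, z, w}` no lift is equal to `ρ'` (take
images under the first projection, `Finset.image`), so the sum is `0`.  If `ρ = {x, y, z, w}` then `x` is one of
`x', y', z', w'`, ..., let `i₀, j₀, k₀, l₀` be the indices of the elements of `ρ'` over `x, y, z, w`; their sum is
`i' + j' + k' + l' = s ρ`, and `{(x, i), (y, j), (z, k), (w, l)} = ρ'` iff `(i, j, k, l) = (i₀, j₀, k₀, l₀)` (the base
vertices are distinct, `Good.Rne_xy` ...).  So exactly one of the terms is `1`. -/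
theorem count_lift (hL : Good L) {ρ : Finset V} {ρ' : Finset (V × ZMod 2)}
    (hρ : LiftOf L s ρ ρ') {x y z w : V} (h : L.R x y z w) :
    ∑ i : ZMod 2, ∑ j : ZMod 2, ∑ k : ZMod 2,
      (if ({(x, i), (y, j), (z, k), (w, s {x, y, z, w} + i + j + k)} : Finset (V × ZMod 2)) = ρ'
        then (1 : ZMod 2) else 0) = if ({x, y, z, w} : Finset V) = ρ then 1 else 0 := by
  have h1 := hL.Rne_xy h
  have h2 := hL.Rne_xz h
  have h3 := hL.Rne_xw h
  have h4 := hL.Rne_yz h
  have h5 := hL.Rne_yw h
  have h6 := hL.Rne_zw h
  obtain ⟨g, e1, e2⟩ := k2_g hL hρ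
  by_cases he : ({x, y, z, w} : Finset V) = ρ
  · rw [if_pos he]
    rw [← he] at e1 e2
    simp only [Finset.image_insert, Finset.image_singleton] at e1
    rw [Finset.sum_insert (by simp [h1, h2, h3]), Finset.sum_insert (by simp [h4, h5]),
      Finset.sum_pair h6] at e2
    have hterm : ∀ i j k : ZMod 2,
        (if ({(x, i), (y, j), (z, k), (w, s {x, y, z, w} + i + j + k)} : Finset (V × ZMod 2)) = ρ'
          then (1 : ZMod 2) else 0) =
        if i = g x then (if j = g y then (if k = g z then 1 else 0) else 0) else 0 := by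
      intro i j k
      by_cases hc : i = g x ∧ j = g y ∧ k = g z
      · obtain ⟨c1, c2, c3⟩ := hc
        have hw : s {x, y, z, w} + i + j + k = g w := by
          rw [e2, c1, c2, c3]
          generalize g x = a
          generalize g y = b
          generalize g z = c
          generalize g w = d
          revert a b c d
          decide
        rw [if_pos c1, if_pos c2, if_pos c3, hw, if_pos (by rw [e1, c1, c2, c3])]
      · rw [if_neg]
        · by_cases c1 : i = g x
          · by_cases c2 : j = g y
            · rw [if_pos c1, if_pos c2, if_neg (fun c3 => hc ⟨c1, c2, c3⟩)]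
            · rw [if_pos c1, if_neg c2]
          · rw [if_neg c1]
        · intro hh
          rw [e1] at hh
          apply hc
          refine ⟨?_, ?_, ?_⟩
          · have hm : (x, i) ∈ ({(x, g x), (y, g y), (z, g z), (w, g w)} :
                Finset (V × ZMod 2)) := by rw [← hh]; simp
            exact k2_mem h1 h2 h3 hm
          · have hm : (y, j) ∈ ({(y, g y), (x, g x), (z, g z), (w, g w)} :
                Finset (V × ZMod 2)) := by
              rw [Finset.insert_comm (y, g y) (x, g x), ← hh]; simp
            exact k2_mem h1.symm h4 h5 hm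
          · have hm : (z, k) ∈ ({(z, g z), (x, g x), (y, g y), (w, g w)} :
                Finset (V × ZMod 2)) := by
              rw [Finset.insert_comm (z, g z) (x, g x), Finset.insert_comm (z, g z) (y, g y),
                ← hh]
              simp
            exact k2_mem h2.symm h4.symm h6 hm
    simp only [hterm]
    simp
  · rw [if_neg he]
    refine Finset.sum_eq_zero fun i _ => Finset.sum_eq_zero fun j _ =>
      Finset.sum_eq_zero fun k _ => ?_
    rw [if_neg]
    intro hh
    apply he
    have h7 := congrArg (Finset.image Prod.fst) hh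
    rw [e1, Finset.image_image] at h7
    simp only [Finset.image_insert, Finset.image_singleton] at h7
    rw [h7]
    ext v
    simp

end Pool.Agent.Lib.H97Z
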