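import Pool.Agent.Lib.H97Z.K2

/-! Chunk K3: the sum over all lifts: the relation -/

set_option autoImplicit false

namespace Pool.Agent.Lib.H97Z

variable {V : Type} [Fintype V] [DecidableEq V] {L : Lev V} {s : Finset V → ZMod 2}

theorem k3_count (hL : Good L) {ρ : Finset V} {ρ' : Finset (V × ZMod 2)}
    (hρ : LiftOf L s ρ ρ') {x y z w : V} (h : L.R x y z w) (e : ZMod 2) :
    ∑ i : ZMod 2, ∑ j : ZMod 2, ∑ k : ZMod 2,
      (if ({(x, i), (y, j), (z, k), (w, s {x, y, z, w} + i + j + k)} : Finset (V × ZMod 2)) = ρ'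
        then e else 0) = if ({x, y, z, w} : Finset V) = ρ then e else 0 := by
  have h1 := count_lift hL hρ h
  have h2 : ∑ i : ZMod 2, ∑ j : ZMod 2, ∑ k : ZMod 2,
      (if ({(x, i), (y, j), (z, k), (w, s {x, y, z, w} + i + j + k)} : Finset (V × ZMod 2)) = ρ'
        then e else 0) = e * ∑ i : ZMod 2, ∑ j : ZMod 2, ∑ k : ZMod 2,
      (if ({(x, i), (y, j), (z, k), (w, s {x, y, z, w} + i + j + k)} : Finset (V × ZMod 2)) = ρ'
        then (1 : ZMod 2) else 0) := by
    simp only [Finset.mul_sum, mul_ite, mul_one, mul_zero]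
  rw [h2, h1]
  split_ifs <;> simp

omit [Fintype V] [DecidableEq V] in
theorem k3_sums (G : V × ZMod 2 → V × ZMod 2 → V × ZMod 2 → ZMod 2) (x y z w : V) (t : ZMod 2) :
    hat G x y z + hat G x z y + hat G x w y + hat G y z x + hat G y w x + hat G z w x =
    ∑ i : ZMod 2, ∑ j : ZMod 2, ∑ k : ZMod 2, (G (x, i) (y, j) (z, k) + G (x, i) (z, k) (y, j) +
      G (x, i) (w, t + i + j + k) (y, j) + G (y, j) (z, k) (x, i) +
      G (y, j) (w, t + i + j + k) (x, i) + G (z, k) (w, t + i + j + k) (x, i)) := by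
  have e11 : (1 : ZMod 2) + 1 = 0 := by decide
  unfold hat
  rcases z2_cases t with ht | ht
  · subst ht
    simp only [z2_sum, zero_add, add_zero, e11]
    ring
  · subst ht
    simp only [z2_sum, zero_add, add_zero, e11]
    ring

/-- PROOF. Sum `KG.rel` over the eight lifted blocks `(x, i) (y, j) (z, k) (w, l)`, `l = s {..} + i + j + k`
(`lift_R_reg`).  `∑ G (x, i) (y, j) (z, k) = hat G x y z`; for `G (x, i) (w, l) (y, j)`: for fixed `i, j` the map
`k ↦ l` is a bijection (`z2_sum_add`), so the sum is `∑ i, j, l = hat G x w y`; similarly for the others (for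
`G (z, k) (w, l) (x, i)` sum over `j` last).  The right side: `count_lift` (`if .. then e else 0` is
`e * if .. then 1 else 0`). -/
theorem hat_rel (hL : Good L) {ρ₀ ρ₁ : Finset V} {ρ₀' ρ₁' : Finset (V × ZMod 2)}
    {G : V × ZMod 2 → V × ZMod 2 → V × ZMod 2 → ZMod 2} {e₀ e₁ : ZMod 2}
    (hG : KG (lift L s) ρ₀' ρ₁' G e₀ e₁) (h0 : LiftOf L s ρ₀ ρ₀') (h1 : LiftOf L s ρ₁ ρ₁')
    {x y z w : V} (h : L.R x y z w) :
    hat G x y z + hat G x z y + hat G x w y + hat G y z x + hat G y w x + hat G z w x =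
      (if ({x, y, z, w} : Finset V) = ρ₀ then e₀ else 0) +
      (if ({x, y, z, w} : Finset V) = ρ₁ then e₁ else 0) := by
  rw [k3_sums G x y z w (s {x, y, z, w}), ← k3_count hL h0 h e₀, ← k3_count hL h1 h e₁]
  simp only [← Finset.sum_add_distrib]
  refine Finset.sum_congr rfl fun i _ => Finset.sum_congr rfl fun j _ =>
    Finset.sum_congr rfl fun k _ => ?_
  have hs : i + j + k + (s {x, y, z, w} + i + j + k) = s {x, y, z, w} := by
    generalize s {x, y, z, w} = t
    revert i j k t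
    decide
  exact hG.rel _ _ _ _ (lift_R_reg h hs)

end Pool.Agent.Lib.H97Z
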