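import Pool.Agent.Lib.H97Z.K1
import Pool.Agent.Lib.H97Z.K3
import Pool.Agent.Lib.H97Z.C8

/-! Chunk K4: the sum over all lifts is a dual vector -/

set_option autoImplicit false

namespace Pool.Agent.Lib.H97Z

variable {V : Type} [Fintype V] [DecidableEq V] {L : Lev V} {s : Finset V → ZMod 2}

/-- PROOF. `hat_sym`, `hat_eq` with `mm_rc`, `mm_pure`, `mm_dia`, `hat_rel`: `KG L ρ₀ ρ₁ (hat G) e₀ e₁`.  `KP`: `e₀ = e₁ = 0` and
`hat G = m` on the mixed pairs.  On pure pairs `hat G = 0` (`mm_pure`).  Take a regular block (`Good.ni2`): it has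
three pure and three mixed pairs, so `hat_rel` gives `3 m = 0`. -/
theorem hat_zero (hL : Good L) {ρ₀ ρ₁ : Finset V} {ρ₀' ρ₁' : Finset (V × ZMod 2)}
    {G : V × ZMod 2 → V × ZMod 2 → V × ZMod 2 → ZMod 2} {e₀ e₁ : ZMod 2}
    (hG : KG (lift L s) ρ₀' ρ₁' G e₀ e₁) (h0 : LiftOf L s ρ₀ ρ₀') (h1 : LiftOf L s ρ₁ ρ₁')
    (hK : KP L ρ₀ ρ₁) : e₀ = 0 ∧ e₁ = 0 ∧
      ∀ x z v, L.hue x ≠ L.hue z → v ≠ x → v ≠ z → hat G x z v = 0 := by
  have hsum : ∀ (x z u v : V), (∀ i j, mm G (x, i) (z, j) u = mm G (x, i) (z, j) v) →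
      hat G x z u = hat G x z v := by
    intro x z u v h
    rw [hat_eq, hat_eq]
    exact Finset.sum_congr rfl fun i _ => Finset.sum_congr rfl fun j _ => h i j
  have hpure : ∀ x z v, x ≠ z → L.hue x = L.hue z → v ≠ x → v ≠ z → hat G x z v = 0 := by
    intro x z v hxz hh hx hz
    rw [hat_eq]
    exact Finset.sum_eq_zero fun i _ => Finset.sum_eq_zero fun j _ =>
      mm_pure hG hxz hh hx hz i j
  have hkg : KG L ρ₀ ρ₁ (hat G) e₀ e₁ := by
    refine ⟨fun x z v => hat_sym hG x z v, fun x z u v h => ?_, fun x z u v hxz hh hu1 hu2 hv1 hv2 => ?_,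
      fun x z a d h => ?_, fun x y z w h => hat_rel hL hG h0 h1 h⟩
    · exact hsum _ _ _ _ fun i j => mm_rc hG h i j
    · rw [hpure x z u hxz hh hu1 hu2, hpure x z v hxz hh hv1 hv2]
    · exact hsum _ _ _ _ fun i j => mm_dia hL hG h i j
  obtain ⟨he0, he1, m, hm⟩ := hK _ _ _ hkg
  have hm0 : m = 0 := by
    obtain ⟨x, hx⟩ := c8_base hL 0
    obtain ⟨d, hd⟩ := c8_base hL 1
    have hxd : L.hue x ≠ L.hue d := by rw [hx, hd]; decide
    obtain ⟨y, z, h, hxy⟩ := hL.ni2 x d hxd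
    have hz : L.hue z = 0 := by
      have h2 := hL.Rhue _ _ _ _ h
      rw [← hxy, hx, hd] at h2
      generalize L.hue z = t at h2 ⊢
      revert t
      decide
    have hy : L.hue y = 0 := hxy.symm.trans hx
    have hr := hkg.rel _ _ _ _ h
    rw [he0, he1, hpure x y z (hL.Rne_xy h) hxy (hL.Rne_xz h).symm (hL.Rne_yz h).symm,
      hpure x z y (hL.Rne_xz h) (hx.trans hz.symm) (hL.Rne_xy h).symm (hL.Rne_yz h),
      hpure y z x (hL.Rne_yz h) (hy.trans hz.symm) (hL.Rne_xy h) (hL.Rne_xz h),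
      hm x d y hxd (hL.Rne_xy h).symm (hL.Rne_yw h),
      hm y d x (by rw [hy, hd]; decide) (hL.Rne_xy h) (hL.Rne_xw h),
      hm z d x (by rw [hz, hd]; decide) (hL.Rne_xz h) (hL.Rne_xw h)] at hr
    simp only [ite_self, add_zero, zero_add, z2_add_self] at hr
    exact hr
  exact ⟨he0, he1, fun x z v hh hx hz => by rw [hm x z v hh hx hz, hm0]⟩

end Pool.Agent.Lib.H97Z
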