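import Pool.Agent.Lib.H97Z.R8
import Pool.Agent.Lib.H97Z.C3
import Pool.Agent.Lib.H97Z.C3b
import Pool.Agent.Lib.H97Z.C3f

/-! Chunk R9: m = 0 -/

set_option autoImplicit false

namespace Pool.Agent.Lib.H97Z

variable {V : Type} [Fintype V] [DecidableEq V] {L : Lev V} {s : Finset V → ZMod 2}

/-- PROOF. `φ` from `exists_phi`, `t` from `g_cob`, `Φ := φ + t`; `x` with `nF L x = 0` (`Good.nx`), `RotAt L x u u'` (`Good.rot`).
Sum `block_id` over `(y, z, w) ∈ Nb L x`.  Left side: `∑ t ∈ Nb L x, Φ x = 0` (`sum_diag` with the constant function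
`Φ x`), `∑ Φ t.1 = Φ u + Φ u'` (`sum_diag`), `∑ (Φ t.2.1 + Φ t.2.2) = Φ u + Φ u'` (`sum_ends` with
`l y z w := Φ z + Φ w`), total `0`.  Right side: `m` times
`∑ L.b x t.1 t.2.1 t.2.2 = L.c x u + L.c x u'` (`sum_own`) plus `∑ L.b t.2.1 t.2.2 x t.1 = 1 + L.c x u + L.c x u'`
(`sum_opp`) plus `nF L x = 0` plus `∑ [L.F x t.2.2] = 0` (`sum_ends` with the function `v ↦ [L.F x v]`, which is `0` at
`t.2.1` because `L.hue t.2.1 = L.hue x`, and `1` at `u` and `u'`).  So `0 = m`. -/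
theorem m_zero {ρ₀' ρ₁' : Finset (V × ZMod 2)}
    {G : V × ZMod 2 → V × ZMod 2 → V × ZMod 2 → ZMod 2}
    {g : V × ZMod 2 → V × ZMod 2 → ZMod 2} {m n : ZMod 2}
    (hs : Sit L s ρ₀' ρ₁' G g m n) : m = 0 := by
  classical
  have hL := hs.good
  obtain ⟨φ, hφ⟩ := exists_phi hs
  obtain ⟨t, ht⟩ := g_cob hs
  obtain ⟨x, hx⟩ := hL.nx
  obtain ⟨u, u', hR⟩ := hL.rot x
  have hkey : ∀ r ∈ Nb L x, (φ x + t x) + (φ r.1 + t r.1) +
      ((φ r.2.1 + t r.2.1) + (φ r.2.2 + t r.2.2)) =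
      m * (L.b x r.1 r.2.1 r.2.2 + L.b r.2.1 r.2.2 x r.1) + m * (if L.F r.2.1 r.1 then 1 else 0) +
        m * ((if L.F x r.2.1 then 1 else 0) + (if L.F x r.2.2 then 1 else 0)) := by
    intro r hr
    simp only [Nb, Finset.mem_filter, Finset.mem_univ, true_and] at hr
    rw [block_id hs hφ ht hr.1 hr.2]
    have h1 : ¬ L.F x r.2.1 := fun h => hL.Fhue _ _ h hr.2.symm
    rw [if_neg h1, zero_add, mul_ite, mul_ite, mul_one, mul_zero]
  have hsum := Finset.sum_congr rfl hkey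
  have eL : ∑ r ∈ Nb L x, ((φ x + t x) + (φ r.1 + t r.1) +
      ((φ r.2.1 + t r.2.1) + (φ r.2.2 + t r.2.2))) =
      (∑ r ∈ Nb L x, (φ x + t x)) + (∑ r ∈ Nb L x, (φ r.1 + t r.1)) +
        ∑ r ∈ Nb L x, ((φ r.2.1 + t r.2.1) + (φ r.2.2 + t r.2.2)) := by
    rw [← Finset.sum_add_distrib, ← Finset.sum_add_distrib]
  have eR : ∑ r ∈ Nb L x, (m * (L.b x r.1 r.2.1 r.2.2 + L.b r.2.1 r.2.2 x r.1) +
      m * (if L.F r.2.1 r.1 then 1 else 0) +
        m * ((if L.F x r.2.1 then 1 else 0) + (if L.F x r.2.2 then 1 else 0))) =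
      m * ((∑ r ∈ Nb L x, L.b x r.1 r.2.1 r.2.2) + ∑ r ∈ Nb L x, L.b r.2.1 r.2.2 x r.1) +
      m * (∑ r ∈ Nb L x, if L.F r.2.1 r.1 then 1 else 0) +
        m * ∑ r ∈ Nb L x, ((if L.F x r.2.1 then 1 else 0) + (if L.F x r.2.2 then 1 else 0)) := by
    rw [← Finset.sum_add_distrib, Finset.mul_sum, Finset.mul_sum, Finset.mul_sum,
      ← Finset.sum_add_distrib, ← Finset.sum_add_distrib]
  rw [eL, eR] at hsum
  rw [sum_diag hL hR (fun _ => φ x + t x), sum_diag hL hR (fun v => φ v + t v),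
    sum_ends hL hR (g := fun v => φ v + t v) (l := fun _ z w => (φ z + t z) + (φ w + t w))
      (fun _ _ _ _ => rfl), sum_own hL hR, sum_opp hL hR,
    sum_ends hL hR (g := fun v => if L.F x v then (1 : ZMod 2) else 0)
      (l := fun _ z w => (if L.F x z then 1 else 0) + (if L.F x w then 1 else 0))
      (fun _ _ _ _ => rfl), if_pos hR.f1, if_pos hR.f2] at hsum
  have hnF : ∑ r ∈ Nb L x, (if L.F r.2.1 r.1 then (1 : ZMod 2) else 0) = 0 := by
    rw [← hx]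
    unfold nF Nb
    exact Finset.sum_congr (by ext r; simp) fun _ _ => by congr
  rw [hnF] at hsum
  clear hkey eL eR hs
  revert hsum
  generalize φ x + t x = a
  generalize φ u + t u = b
  generalize φ u' + t u' = c
  generalize L.c x u = d
  generalize L.c x u' = e
  revert a b c d e m
  decide

end Pool.Agent.Lib.H97Z
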