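import Pool.Agent.Lib.H97Z.R2
import Pool.Agent.Lib.H97Z.R9
import Pool.Agent.Lib.H97Z.K4
import Pool.Agent.Lib.H97Z.GL

/-! Chunk KL: the lift of KP -/

set_option autoImplicit false

namespace Pool.Agent.Lib.H97Z

variable {V : Type} [Fintype V] [DecidableEq V] {L : Lev V} {s : Finset V → ZMod 2}

/-- PROOF. Let `KG (lift L s) ρ₀' ρ₁' G e₀ e₁`.  `hat_zero`: `e₀ = e₁ = 0` and `hat G = 0` on mixed pairs.  `exists_sit`
(`good_lift`), `m_zero`: `MM G = 0` on mixed pairs, `mm_zero`, `exists_flat`, `flat_const`. -/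
theorem kp_lift (hL : Good L) (hS : Sol L s) (hSC : SC L) {ρ₀ ρ₁ : Finset V} (hK : KP L ρ₀ ρ₁)
    {ρ₀' ρ₁' : Finset (V × ZMod 2)} (h0 : LiftOf L s ρ₀ ρ₀') (h1 : LiftOf L s ρ₁ ρ₁') :
    KP (lift L s) ρ₀' ρ₁' := by
  intro G e₀ e₁ hG
  obtain ⟨rfl, rfl, hz⟩ := hat_zero hL hG h0 h1 hK
  have hL' := good_lift hL hS
  obtain ⟨g, m, n, hs⟩ := exists_sit hL hL' hS hSC hK hG hz
  have hm := m_zero hs
  have hmm : ∀ x z v i j, L.hue x ≠ L.hue z → v ≠ x → v ≠ z → mm G (x, i) (z, j) v = 0 := by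
    intro x z v i j hh hx hzv
    exact mm_zero hL hS hG hh hx hzv (hz x z v hh hx hzv) ((hs.MM x z v hh hx hzv).trans hm) i j
  obtain ⟨g', hg', hgG⟩ := exists_flat hL hL' hS hG hmm
  obtain ⟨φ, hφ⟩ := flat_const hL hSC hg'
  refine ⟨rfl, rfl, φ, fun X Z U hh h1 h2 => ?_⟩
  rw [hgG X Z U (fun e => hh (by rw [e])) h1 h2, hφ X Z hh]

end Pool.Agent.Lib.H97Z
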