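import Pool.Agent.Lib.H97Z.D2
import Pool.Agent.Lib.H97Z.B1

/-! Chunk M1: mixed pairs: potentials -/

set_option autoImplicit false

namespace Pool.Agent.Lib.H97Z

variable {V : Type} [Fintype V] [DecidableEq V] {L : Lev V} {s : Finset V → ZMod 2}

/-- PROOF. `pot` with `l := fun _ => 1`. -/
theorem exists_one (hL : Good L) {x z : V} (hxz : x ≠ z) : ∃ η, One L x z η := by
  obtain ⟨h, hh⟩ := pot hL hxz (fun _ => 1)
  exact ⟨h, hh⟩

theorem m1_e (a b u v e t : ZMod 2) (h : a + b = t) (h' : u + v = 1) :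
    a + e * u + (b + e * v) = t + e := by
  linear_combination h + e * h'

theorem m1_s (a b c d t u v w z e k : ZMod 2) (h : a + b + c + d = t)
    (h' : u + v + w + z = k) :
    (a + e * u) + (b + e * v) + (c + e * w) + (d + e * z) = t + e * k := by
  linear_combination h + e * h'

/-- PROOF. `h` from `pot` with `l := s` (so `Lab L s x z h`), `η` from `exists_one`, `ht v := h v + (i + j) * η v`;
the sums: `EqM` and `MixAt.par`. -/
theorem mix_ht (hL : Good L) {x z y w y' w' a d a' d' : V} (hxz : x ≠ z)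
    (hM : MixAt L x z y w y' w' a d a' d') (hE : EqM L s x z y w y' w' a d a' d')
    (i j : ZMod 2) :
    ∃ ht : V → ZMod 2, (∀ u v, L.R x z u v → ht u + ht v = s {x, z, u, v} + (i + j)) ∧
      ht w + ht a + ht d + ht y' =
        1 + L.b z w x y + L.b x y' z w' + L.b a d x z + (i + j) ∧
      ht w' + ht a' + ht d' + ht y =
        1 + L.b z w' x y' + L.b x y z w + L.b a' d' x z + (i + j) := by
  obtain ⟨h, hlab⟩ := pot hL hxz s
  obtain ⟨η, hη⟩ := exists_one hL hxz
  obtain ⟨e1, e2⟩ := hE h hlab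
  obtain ⟨p1, p2⟩ := hM.par η hη
  refine ⟨fun v => h v + (i + j) * η v, fun u v huv => ?_, ?_, ?_⟩
  · exact m1_e _ _ _ _ _ _ (hlab u v huv) (hη u v huv)
  · have := m1_s _ _ _ _ _ _ _ _ _ (i + j) _ e1 p1
    rw [mul_one] at this
    exact this
  · have := m1_s _ _ _ _ _ _ _ _ _ (i + j) _ e2 p2
    rw [mul_one] at this
    exact this

/-- PROOF. The same with `EqB` and `BdAt.par`. -/
theorem bd_ht (hL : Good L) {x z y w a d : V} (hxz : x ≠ z)
    (hM : BdAt L x z y w a d) (hE : EqB L s x z y w a d) (i j : ZMod 2) :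
    ∃ ht : V → ZMod 2, (∀ u v, L.R x z u v → ht u + ht v = s {x, z, u, v} + (i + j)) ∧
      ht w + ht a + ht d + ht y =
        1 + L.b x y z w + L.b z w x y + L.b x z a d + L.b a d x z := by
  obtain ⟨h, hlab⟩ := pot hL hxz s
  obtain ⟨η, hη⟩ := exists_one hL hxz
  refine ⟨fun v => h v + (i + j) * η v, fun u v huv => ?_, ?_⟩
  · exact m1_e _ _ _ _ _ _ (hlab u v huv) (hη u v huv)
  · have := m1_s _ _ _ _ _ _ _ _ _ (i + j) _ (hE h hlab) (hM.par η hη)
    rw [mul_zero, add_zero] at this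
    exact this

end Pool.Agent.Lib.H97Z
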