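import Pool.Agent.Lib.H97Z.M1

/-! Chunk M2: mixed pairs: the parts of the lifted link -/

set_option autoImplicit false

namespace Pool.Agent.Lib.H97Z

variable {V : Type} [Fintype V] [DecidableEq V] {L : Lev V} {s : Finset V → ZMod 2}

theorem m2_t : ∀ l u : ZMod 2, l + u + u = l := by decide

theorem m2_shift (a b : ZMod 2 → ZMod 2) (u v : ZMod 2) (h : ∀ l, a (l + u) = b (l + v)) :
    ∀ l, a l = b (l + (u + v)) := by
  intro l
  have := h (l + u)
  rw [m2_t] at this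
  rw [this, add_assoc]

theorem m2_const (g : ZMod 2 → ZMod 2) (h : g 0 = g 1) (l m : ZMod 2) : g l = g m := by
  have h1 : ∀ l, g l = g 0 := by
    intro l
    rcases z2_cases l with rfl | rfl
    · rfl
    · exact h.symm
  rw [h1 l, h1 m]

theorem m2_two : ∀ l p : ZMod 2, l = p ∨ l = p + 1 := by decide

theorem m2_zero (g : ZMod 2 → ZMod 2) (p : ZMod 2) (h1 : g p = 0) (h2 : g (p + 1) = 0)
    (l : ZMod 2) : g l = 0 := by
  rcases m2_two l p with rfl | rfl
  · exact h1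
  · exact h2

theorem m2_i1 : ∀ p u : ZMod 2, p + 1 + u = p + u + 1 := by decide

theorem m2_i2 : ∀ k b q v : ZMod 2, k + b + 1 = q + v → q + 1 + v = k + b := by decide

theorem m2_i3 (hw ha hd hy i j A B b : ZMod 2)
    (h : hw + ha + hd + hy = 1 + B + A + b + (i + j)) :
    j + B + hw + ha + b + 1 = i + A + (hy + hd) := by
  have h1 : j + B + hw + ha + b + 1 = (hw + ha + hd + hy) + (j + B + b + 1 + (hd + hy)) +
    (-(2 : ZMod 2)) * (hd + hy) := by ring
  rw [h1, h]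
  have h2 : (2 : ZMod 2) = 0 := by decide
  have h3 : 1 + B + A + b + (i + j) + (j + B + b + 1 + (hd + hy)) + -(2 : ZMod 2) * (hd + hy) =
    i + A + (hy + hd) + 2 * (1 + B + b + j - (hd + hy)) := by ring
  rw [h3, h2, zero_mul, add_zero]

theorem m2_core (W W' A0 A' D D' Y Y' : ZMod 2 → ZMod 2) (u v u' v' p p' q q' k b fz fx : ZMod 2)
    (h1 : ∀ l, W l = A0 (l + u)) (h2 : ∀ l, Y' l = D (l + v)) (h3 : ∀ l, W' l = A' (l + u'))
    (h4 : ∀ l, Y l = D' (l + v')) (hk : k = p' + u') (hm : k + b + 1 = q + v')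
    (t1 : A0 0 = A0 1) (t2 : D 0 = D 1) (j1 : fz = Y q) (j2 : fz = Y' q') (j3 : fx = W p)
    (j4 : fx = W' p') :
    W (p + 1) = A' k ∧ D' (k + b + 1) = Y' (q' + 1) ∧ W' (p' + 1) = A' (k + 1) ∧
      D' (k + b) = Y (q + 1) ∧ fx = W (p + 1) ∧ fz = Y' (q' + 1) := by
  have hW : ∀ l m, W l = W m := fun l m => by rw [h1, h1]; exact m2_const _ t1 _ _
  have hY : ∀ l m, Y' l = Y' m := fun l m => by rw [h2, h2]; exact m2_const _ t2 _ _
  have e5 : fx = W (p + 1) := by rw [j3]; exact hW _ _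
  have e6 : fz = Y' (q' + 1) := by rw [j2]; exact hY _ _
  refine ⟨?_, ?_, ?_, ?_, e5, e6⟩
  · rw [← e5, j4, h3, hk]
  · rw [← e6, j1, h4, hm]
  · rw [h3, hk, m2_i1]
  · rw [h4, m2_i2 _ _ _ _ hm]

/-- The link of the lifted pair `(x, i)`, `(z, j)` with `i + j = L.b x z a d`: `RC` functions.
PROOF. `f_l v := f (v, l + ht v)` is `RC` (`lift_fun`); strands (`MixAt.cl`): `f_l w = f_l a`, `f_l d = f_l y'`,
`f_l w' = f_l a'`, `f_l d' = f_l y`.  Junctions (`rc_junction`): `f (z, j+1) = f (y, i+A) = f (y', i+A')`,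
`f (x, i+1) = f (w, j+B) = f (w', j+B')`.  Turns (`rc_uturn`): `f (a, 0) = f (a, 1)`, `f (d, 0) = f (d, 1)`.
Let `k = j + B' + ht w' + ht a'`.  Then
`(w, j+B+1) ~ (a, _) ~ (a, _ + 1) ~ (w, j+B) ~ (x, i+1) ~ (w', j+B') ~ (a', k)`,
`(w', j+B'+1) ~ (a', k+1)`,
`(y', i+A'+1) ~ (d, _) ~ (d, _ + 1) ~ (y', i+A') ~ (z, j+1) ~ (y, i+A) ~ (d', i+A+ht y+ht d')`,
`(y, i+A+1) ~ (d', i+A+1+ht y+ht d')`, and `i+A+ht y+ht d' = k + L.b a' d' x z + 1` by the second sum of `hsum`
and ... (`ht w' + ht a' + ht d' + ht y = 1 + B' + A + L.b a' d' x z + (i + j)`). -/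
theorem mix_cl (hL : Good L) {x z y w y' w' a d a' d' : V} 
    (hM : MixAt L x z y w y' w' a d a' d') {i j : ZMod 2} (hij : i + j = L.b x z a d)
    {ht : V → ZMod 2} (hht : ∀ u v, L.R x z u v → ht u + ht v = s {x, z, u, v} + (i + j))
    (hsum : ht w' + ht a' + ht d' + ht y =
        1 + L.b z w' x y' + L.b x y z w + L.b a' d' x z + (i + j))
    {f : V × ZMod 2 → ZMod 2} (hf : RC (lift L s) (x, i) (z, j) f) {k : ZMod 2}
    (hk : k = j + L.b z w' x y' + ht w' + ht a') :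
    f (w, j + L.b z w x y + 1) = f (a', k) ∧
      f (d', k + L.b a' d' x z + 1) = f (y', i + L.b x y' z w' + 1) ∧
      f (w', j + L.b z w' x y' + 1) = f (a', k + 1) ∧
      f (d', k + L.b a' d' x z) = f (y, i + L.b x y z w + 1) ∧
      f (x, i + 1) = f (w, j + L.b z w x y + 1) ∧
      f (z, j + 1) = f (y', i + L.b x y' z w' + 1) := by
  have hcl := fun l => hM.cl _ (lift_fun hf hht l)
  obtain ⟨j1, j3⟩ := rc_junction hL hM.s1 hf
  obtain ⟨j2, j4⟩ := rc_junction hL hM.s2 hf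
  obtain ⟨t1, t2⟩ := rc_uturn hL hM.t1 hij hf
  exact m2_core (fun l => f (w, l)) (fun l => f (w', l)) (fun l => f (a, l)) (fun l => f (a', l))
    (fun l => f (d, l)) (fun l => f (d', l)) (fun l => f (y, l)) (fun l => f (y', l))
    (ht w + ht a) (ht y' + ht d) (ht w' + ht a') (ht y + ht d') (j + L.b z w x y)
    (j + L.b z w' x y') (i + L.b x y z w) (i + L.b x y' z w') k (L.b a' d' x z)
    (f (z, j + 1)) (f (x, i + 1))
    (m2_shift (fun l => f (w, l)) (fun l => f (a, l)) _ _ fun l => (hcl l).1)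
    (m2_shift (fun l => f (y', l)) (fun l => f (d, l)) _ _ fun l => (hcl l).2.1.symm)
    (m2_shift (fun l => f (w', l)) (fun l => f (a', l)) _ _ fun l => (hcl l).2.2.1)
    (m2_shift (fun l => f (y, l)) (fun l => f (d', l)) _ _ fun l => (hcl l).2.2.2.symm)
    (by rw [hk, add_assoc]) (by rw [hk]; exact m2_i3 _ _ _ _ _ _ _ _ _ hsum) t1 t2 j1 j2 j3 j4

/-- `RC` functions which vanish at the four new side vertices vanish everywhere.
PROOF. By `mix_cl` and the junctions and turns, `f` vanishes at `(w, j+B+1)`, `(w, j+B)` (`~ (x, i+1)`), at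
`(w', j+B'+1)`, `(w', j+B')` (`~ (x, i+1)`), at `(y', _)` (both, `(y', i+A') ~ (z, j+1)`), at `(y, _)` (both).  So
`f_l w = f_l w' = f_l y = f_l y' = 0` for `l = 0, 1`, and `MixAt.van` gives `f_l v = 0` for `v ≠ x, z`.
The remaining vertices are `(x, i+1)`, `(z, j+1)`. -/
theorem mix_van (hL : Good L) {x z y w y' w' a d a' d' : V} 
    (hM : MixAt L x z y w y' w' a d a' d') {i j : ZMod 2} (hij : i + j = L.b x z a d)
    {ht : V → ZMod 2} (hht : ∀ u v, L.R x z u v → ht u + ht v = s {x, z, u, v} + (i + j))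
    (hsum : ht w' + ht a' + ht d' + ht y =
        1 + L.b z w' x y' + L.b x y z w + L.b a' d' x z + (i + j))
    {f : V × ZMod 2 → ZMod 2} (hf : RC (lift L s) (x, i) (z, j) f)
    (h1 : f (w, j + L.b z w x y + 1) = 0) (h2 : f (w', j + L.b z w' x y' + 1) = 0)
    (h3 : f (y, i + L.b x y z w + 1) = 0) (h4 : f (y', i + L.b x y' z w' + 1) = 0) :
    ∀ v, v ≠ (x, i) → v ≠ (z, j) → f v = 0 := by
  obtain ⟨-, -, -, -, e5, e6⟩ := mix_cl hL hM hij hht hsum hf rfl
  obtain ⟨j1, j3⟩ := rc_junction hL hM.s1 hf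
  obtain ⟨j2, j4⟩ := rc_junction hL hM.s2 hf
  have hx : f (x, i + 1) = 0 := e5.trans h1
  have hz : f (z, j + 1) = 0 := e6.trans h4
  have kw := m2_zero (fun l => f (w, l)) _ (j3.symm.trans hx) h1
  have kw' := m2_zero (fun l => f (w', l)) _ (j4.symm.trans hx) h2
  have ky := m2_zero (fun l => f (y, l)) _ (j1.symm.trans hz) h3
  have ky' := m2_zero (fun l => f (y', l)) _ (j2.symm.trans hz) h4
  rintro ⟨v, k⟩ hv1 hv2
  by_cases hvx : v = x
  · subst hvx
    rcases m2_two k i with rfl | rfl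
    · exact absurd rfl hv1
    · exact hx
  by_cases hvz : v = z
  · subst hvz
    rcases m2_two k j with rfl | rfl
    · exact absurd rfl hv2
    · exact hz
  have := hM.van _ (lift_fun hf hht (k + ht v)) (kw _) (kw' _) (ky _) (ky' _) v hvx hvz
  rwa [show k + ht v + ht v = k from m2_t _ _] at this

end Pool.Agent.Lib.H97Z
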