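import Pool.Agent.Lib.H97Z.M1

/-! Chunk M3: mixed pairs: parities -/

set_option autoImplicit false

namespace Pool.Agent.Lib.H97Z

variable {V : Type} [Fintype V] [DecidableEq V] {L : Lev V} {s : Finset V → ZMod 2}

theorem m3_t : ∀ l u : ZMod 2, l + u + u = l := by decide

theorem m3_e : ∀ a e b e' : ZMod 2, a + e = b + e' → a + b = e + e' := by decide

theorem m3_shift (a b : ZMod 2 → ZMod 2) (u v e e' : ZMod 2)
    (h : ∀ l, a (l + u) + e = b (l + v) + e') :
    ∀ l, a l + b (l + (u + v)) = e + e' := by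
  intro l
  have := h (l + u)
  rw [m3_t] at this
  have := m3_e _ _ _ _ this
  rwa [add_assoc] at this

theorem m3_flip (g : ZMod 2 → ZMod 2) (h : g 0 + g 1 = 1) (l : ZMod 2) :
    g l + g (l + 1) = 1 := by
  rcases z2_cases l with rfl | rfl
  · exact h
  · rw [show (1 : ZMod 2) + 1 = 0 by decide, add_comm]; exact h

theorem m3_i1 : ∀ p u : ZMod 2, p + 1 + u = p + u + 1 := by decide

theorem m3_i2 : ∀ k b q v : ZMod 2, k + b + 1 = q + v → q + 1 + v = k + b := by decide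

theorem m3_i3 (hw ha hd hy i j A B b : ZMod 2)
    (h : hw + ha + hd + hy = 1 + B + A + b + (i + j)) :
    j + B + hw + ha + b + 1 = i + A + (hy + hd) := by
  have h1 : j + B + hw + ha + b + 1 = (hw + ha + hd + hy) + (j + B + b + 1 + (hd + hy)) +
    (-(2 : ZMod 2)) * (hd + hy) := by ring
  rw [h1, h]
  have h2 : (2 : ZMod 2) = 0 := by decide
  have h3 : 1 + B + A + b + (i + j) + (j + B + b + 1 + (hd + hy)) + -(2 : ZMod 2) * (hd + hy) =
    i + A + (hy + hd) + 2 * (1 + B + b + j - (hd + hy)) := by ring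
  rw [h3, h2, zero_mul, add_zero]

theorem m3_fin (w1 w0 a d y1 y0 w' y' fx fz α β : ZMod 2) (hA : w0 + w1 = 1)
    (hB : y0 + y1 = 1) (hC : fx + w0 = 1) (hD : fx + w' = 1) (hE : fz + y0 = 1)
    (hF : fz + y' = 1) (hG : w' + a = α) (hH : y' + d = β) (hI : α + β = 1) :
    w1 + a + d + y1 = 1 := by
  have h2 : (2 : ZMod 2) = 0 := by decide
  linear_combination hA - hC + hD + hG + hH + hB - hE + hF + hI + (1 - w' - y') * h2

theorem m3_fin2 : ∀ w a d y α β : ZMod 2, w + a = α → y + d = β → α + β = 1 →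
    w + a + d + y = 1 := by decide

theorem m3_wx : ∀ a b a' b' c : ZMod 2, a + b = c → a' + b' = c → b + b' = 1 → a + a' = 1 := by
  decide

theorem m3_core (W W' A0 A' D D' Y Y' : ZMod 2 → ZMod 2)
    (u v u' v' p p' q q' k b fz fx α β α' β' : ZMod 2)
    (h1 : ∀ l, W l + A0 (l + u) = α) (h2 : ∀ l, Y' l + D (l + v) = β)
    (h3 : ∀ l, W' l + A' (l + u') = α') (h4 : ∀ l, Y l + D' (l + v') = β')
    (hk : k = p' + u') (hm : k + b + 1 = q + v')
    (t1 : A0 0 + A0 1 = 1) (t2 : D 0 + D 1 = 1) (j1 : fz + Y q = 1) (j2 : fz + Y' q' = 1)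
    (j3 : fx + W p = 1) (j4 : fx + W' p' = 1) (hab : α' + β' = 1) :
    W (p + 1) + A' k + D' (k + b + 1) + Y' (q' + 1) = 1 ∧
      W' (p' + 1) + A' (k + 1) + D' (k + b) + Y (q + 1) = 1 := by
  have hW : W p + W (p + 1) = 1 := by
    refine m3_wx _ _ _ _ α (h1 p) (h1 (p + 1)) ?_
    rw [m3_i1]
    exact m3_flip _ t1 _
  have hY : Y' q' + Y' (q' + 1) = 1 := by
    refine m3_wx _ _ _ _ β (h2 q') (h2 (q' + 1)) ?_
    rw [m3_i1]
    exact m3_flip _ t2 _
  constructor
  · refine m3_fin _ _ _ _ _ _ (W' p') (Y q) fx fz α' β' hW hY j3 j4 j2 j1 ?_ ?_ hab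
    · rw [hk]; exact h3 p'
    · rw [hm]; exact h4 q
  · refine m3_fin2 _ _ _ _ α' β' ?_ ?_ hab
    · have := h3 (p' + 1)
      rwa [m3_i1, ← hk] at this
    · have := h4 (q + 1)
      rwa [m3_i2 _ _ _ _ hm] at this

theorem m3_par : ∀ w a d y : ZMod 2, w + a + d + y = 1 → w + a + (y + d) = 1 := by decide

/-- The link of the lifted pair `(x, i)`, `(z, j)` with `i + j = L.b x z a d`: `One` functions.
PROOF. `η` from `exists_one`.  `φ_l v := f (v, l + ht v) + η v` is `RC` (`lift_fun_one`), so (`MixAt.cl`) along the strands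
`f (w, l + ht w) + f (a, l + ht a) = η w + η a` and so on.  Along the path of `mix_cl` from `(w, j+B+1)` to
`(a', k)`: `f (w, j+B+1) + f (a', k) = (η w + η a) + 1 + (η w + η a) + 1 + 1 + (η w' + η a') = 1 + η w' + η a'`
(`one_uturn`, `one_junction` twice).  `f (w', j+B'+1) + f (a', k+1) = η w' + η a'`.
`f (y', i+A'+1) + f (d', k+b+1) = 1 + η y + η d'`, `f (y, i+A+1) + f (d', k+b) = η y + η d'`, `b = L.b a' d' x z`.
Finally `η w' + η a' + η d' + η y = 1` (`MixAt.par`). -/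
theorem mix_par (hL : Good L) {x z y w y' w' a d a' d' : V} (hxz : x ≠ z)
    (hM : MixAt L x z y w y' w' a d a' d') {i j : ZMod 2} (hij : i + j = L.b x z a d)
    {ht : V → ZMod 2} (hht : ∀ u v, L.R x z u v → ht u + ht v = s {x, z, u, v} + (i + j))
    (hsum : ht w' + ht a' + ht d' + ht y =
        1 + L.b z w' x y' + L.b x y z w + L.b a' d' x z + (i + j))
    {f : V × ZMod 2 → ZMod 2} (hf : One (lift L s) (x, i) (z, j) f) {k : ZMod 2}
    (hk : k = j + L.b z w' x y' + ht w' + ht a') :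
    f (w, j + L.b z w x y + 1) + f (a', k) + f (d', k + L.b a' d' x z + 1) +
        f (y', i + L.b x y' z w' + 1) = 1 ∧
      f (w', j + L.b z w' x y' + 1) + f (a', k + 1) + f (d', k + L.b a' d' x z) +
        f (y, i + L.b x y z w + 1) = 1 := by
  obtain ⟨η, hη⟩ := exists_one hL hxz
  have hcl := fun l => hM.cl _ (lift_fun_one hf hht l hη)
  obtain ⟨j1, j3⟩ := one_junction hL hM.s1 hf
  obtain ⟨j2, j4⟩ := one_junction hL hM.s2 hf
  obtain ⟨t1, t2⟩ := one_uturn hL hM.t1 hij hf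
  exact m3_core (fun l => f (w, l)) (fun l => f (w', l)) (fun l => f (a, l)) (fun l => f (a', l))
    (fun l => f (d, l)) (fun l => f (d', l)) (fun l => f (y, l)) (fun l => f (y', l))
    (ht w + ht a) (ht y' + ht d) (ht w' + ht a') (ht y + ht d') (j + L.b z w x y)
    (j + L.b z w' x y') (i + L.b x y z w) (i + L.b x y' z w') k (L.b a' d' x z)
    (f (z, j + 1)) (f (x, i + 1)) (η w + η a) (η y' + η d) (η w' + η a') (η y + η d')
    (m3_shift (fun l => f (w, l)) (fun l => f (a, l)) _ _ _ _ fun l => (hcl l).1)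
    (m3_shift (fun l => f (y', l)) (fun l => f (d, l)) _ _ _ _ fun l => (hcl l).2.1.symm)
    (m3_shift (fun l => f (w', l)) (fun l => f (a', l)) _ _ _ _ fun l => (hcl l).2.2.1)
    (m3_shift (fun l => f (y, l)) (fun l => f (d', l)) _ _ _ _ fun l => (hcl l).2.2.2.symm)
    (by rw [hk, add_assoc]) (by rw [hk]; exact m3_i3 _ _ _ _ _ _ _ _ _ hsum) t1 t2 j1 j2 j3 j4
    (m3_par _ _ _ _ (hM.par η hη).2)

end Pool.Agent.Lib.H97Z
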