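import Pool.Agent.Lib.H97Z.M2
import Pool.Agent.Lib.H97Z.M3
import Pool.Agent.Lib.H97Z.E3

/-! Chunk M4: the lift of a mixed pair, first parity -/

set_option autoImplicit false

namespace Pool.Agent.Lib.H97Z

variable {V : Type} [Fintype V] [DecidableEq V] {L : Lev V} {s : Finset V → ZMod 2}

theorem m4_a : ∀ i A : ZMod 2, i + (i + A + 1) = A + 1 := by decide
theorem m4_b : ∀ i A p : ZMod 2, i + p = A + 1 → p = i + A + 1 := by decide
theorem m4_c : ∀ i A : ZMod 2, i + 1 + (i + A) = A + 1 := by decide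
theorem m4_d : ∀ t a b : ZMod 2, t = a → a + b = 1 → t = b + 1 := by decide
theorem m4_e : ∀ k b : ZMod 2, k + 1 + b + 1 = k + b := by decide

theorem m4_bit (u a d k b : ZMod 2) (h : a ≠ d) :
    u + ((1 + a) * k + (1 + d) * (k + b + 1)) + (u + ((1 + a) * (k + 1) + (1 + d) * (k + b))) =
      1 := by
  revert u a d k b
  decide

/-- PROOF. `ht` from `mix_ht`, `k := j + L.b z w' x y' + ht w' + ht a'`.  `s1`, `s2`, `t1`, `t2`: `lift_S_spec`
(`i + j = L.b x z a' d' + 1` by `MixAt.bit`).  `ne`: `MixAt.ne`.  `all`: `lift_S_cases`: over `MixAt.all`; the second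
alternative needs `x = z` or `L.F x z`.  `tall`: `lift_S_cases`: over `MixAt.tall` the pair is `(a', d')`, because
`i + j = L.b x z a d`; the index of `a'` is `k` or `k + 1`.  `bit`: `lift_b_spec`; `h0` of the two pairs differs
by `(1 + L.hue a') + (1 + L.hue d') = 1`.  `cl`, `van`, `par`: `mix_cl`, `mix_van`, `mix_par`. -/
theorem mix_lift1 (hL : Good L) {x z y w y' w' a d a' d' : V} (hh : L.hue x ≠ L.hue z)
    (hF : ¬ L.F x z) (hM : MixAt L x z y w y' w' a d a' d')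
    (hE : EqM L s x z y w y' w' a d a' d') {i j : ZMod 2} (hij : i + j = L.b x z a d) :
    ∃ k, MixAt (lift L s) (x, i) (z, j) (y, i + L.b x y z w + 1) (w, j + L.b z w x y + 1)
      (y', i + L.b x y' z w' + 1) (w', j + L.b z w' x y' + 1)
      (a', k) (d', k + L.b a' d' x z + 1) (a', k + 1) (d', k + L.b a' d' x z) := by
  have hxz : x ≠ z := fun e => hh (by rw [e])
  obtain ⟨ht, hht, -, hsum⟩ := mix_ht hL hxz hM hE i j
  refine ⟨j + L.b z w' x y' + ht w' + ht a', ?_⟩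
  obtain ⟨k, hk⟩ : ∃ k, k = j + L.b z w' x y' + ht w' + ht a' := ⟨_, rfl⟩
  rw [← hk]
  have hij' : i + j = L.b x z a' d' + 1 := m4_d _ _ _ hij hM.bit
  refine
    { s1 := lift_S_spec hM.s1 (m4_a _ _) (m4_a _ _)
      s2 := lift_S_spec hM.s2 (m4_a _ _) (m4_a _ _)
      ne := ?_
      all := ?_
      t1 := lift_S_spec hM.t2 hij' (m4_a _ _)
      t2 := lift_S_spec hM.t2 hij' (m4_c _ _)
      ha := hM.ha'
      ha' := hM.ha'
      tall := ?_
      bit := ?_
      cl := ?_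
      van := ?_
      par := ?_ }
  · rintro ⟨h1, h2⟩
    exact hM.ne ⟨congrArg Prod.fst h1, congrArg Prod.fst h2⟩
  · rintro ⟨p, k⟩ ⟨q, l⟩ h
    rcases lift_S_cases h with ⟨h1, h2, h3⟩ | ⟨h1, h2, h3⟩
    · have h1' : L.S x p z q := h1
      have h2' : i + k = L.b x p z q + 1 := h2
      have h3' : j + l = L.b z q x p + 1 := h3
      rcases hM.all p q h1' with ⟨rfl, rfl⟩ | ⟨rfl, rfl⟩
      · exact Or.inl ⟨by rw [m4_b _ _ _ h2'], by rw [m4_b _ _ _ h3']⟩
      · exact Or.inr ⟨by rw [m4_b _ _ _ h2'], by rw [m4_b _ _ _ h3']⟩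
    · exfalso
      have h1' : L.F x p := h1
      rcases h3 with ⟨h3, -⟩ | ⟨h3, -⟩
      · exact hxz (congrArg Prod.fst h3).symm
      · have : z = p := congrArg Prod.fst h3
        rw [← this] at h1'
        exact hF h1'
  · rintro ⟨p, k'⟩ ⟨q, l⟩ h hhue
    rcases lift_S_cases h with ⟨h1, h2, h3⟩ | ⟨h1, -, -⟩
    · have h1' : L.S x z p q := h1
      have h2' : i + j = L.b x z p q + 1 := h2
      have h3' : k' + l = L.b p q x z + 1 := h3
      have hhue' : L.hue p = L.hue x := hhue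
      rcases hM.tall p q h1' hhue' with ⟨rfl, rfl⟩ | ⟨rfl, rfl⟩
      · rw [hij] at h2'
        exact absurd h2' (z2_ne_add_one _)
      · have hl : l = k' + L.b p q x z + 1 := m4_b _ _ _ h3'
        rcases m2_two k' k with rfl | rfl
        · exact Or.inl ⟨rfl, by rw [hl]⟩
        · exact Or.inr ⟨rfl, by rw [hl, m4_e]⟩
    · exact absurd h1 hF
  · rw [lift_b_spec hL hM.t2, lift_b_spec hL hM.t2]
    exact m4_bit _ _ _ _ _ (hL.Shue_zw hM.t2)
  · intro f hf
    obtain ⟨e1, e2, e3, e4, -, -⟩ := mix_cl hL hM hij hht hsum hf hk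
    exact ⟨e1, e2, e3, e4⟩
  · intro f hf h1 h2 h3 h4
    exact mix_van hL hM hij hht hsum hf h1 h2 h3 h4
  · intro f hf
    exact mix_par hL hxz hM hij hht hsum hf hk

end Pool.Agent.Lib.H97Z
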