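import Pool.Agent.Lib.H97Z.X1

/-! Chunk X2: every triangle lies in two tetrahedra -/

set_option autoImplicit false

namespace Pool.Agent.Lib.H97Z

variable {V : Type} [Fintype V] [DecidableEq V] {L : Lev V}

/-- PROOF. `σ = {x, y, z}` (`Finset.card_eq_three`).  `Good.two`: `u ≠ v`.  The set is `{{x, y, z, u}, {x, y, z, v}}`
(`faces_four`), and the two are different. -/
theorem faces_two (hL : Good L) {σ : Finset V} (h : σ ∈ faces L) (hc : σ.card = 3) :
    ((faces L).filter (fun t => σ ⊆ t ∧ t.card = 4)).card = 2 := by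
  obtain ⟨x, y, z, h1, h2, h3, rfl⟩ := Finset.card_eq_three.1 hc
  obtain ⟨u, v, huv, hu, hv, hall⟩ := hL.two x y z h1 h2 h3
  obtain ⟨-, -, hxu, -, hyu, hzu⟩ := hL.Blk_ne4 hu
  have hne : ({x, y, z, u} : Finset V) ≠ {x, y, z, v} := by
    intro e
    have hm : u ∈ ({x, y, z, v} : Finset V) := by rw [← e]; simp
    simp only [Finset.mem_insert, Finset.mem_singleton] at hm
    rcases hm with hm | hm | hm | hm
    · exact hxu hm.symm
    · exact hyu hm.symm
    · exact hzu hm.symm
    · exact huv hm
  have hset : ((faces L).filter (fun t => ({x, y, z} : Finset V) ⊆ t ∧ t.card = 4)) =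
      {{x, y, z, u}, {x, y, z, v}} := by
    ext t
    rw [Finset.mem_filter, Finset.mem_insert, Finset.mem_singleton]
    constructor
    · rintro ⟨ht, hs, hcard⟩
      obtain ⟨w, hw, hB⟩ := faces_four hL h1 h2 h3 ht hcard hs
      rcases hall w hB with rfl | rfl
      · exact Or.inl hw
      · exact Or.inr hw
    · have hsub : ∀ w : V, ({x, y, z} : Finset V) ⊆ {x, y, z, w} := by
        intro w a ha
        simp only [Finset.mem_insert, Finset.mem_singleton] at ha ⊢
        tauto
      rintro (rfl | rfl)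
      · exact ⟨x1_block hL hu, hsub u, x1_card hL hu⟩
      · exact ⟨x1_block hL hv, hsub v, x1_card hL hv⟩
  rw [hset, Finset.card_pair hne]

end Pool.Agent.Lib.H97Z
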