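import Pool.Agent.Lib.H97Z.X1

/-! Chunk X3: links of edges are connected -/

set_option autoImplicit false

namespace Pool.Agent.Lib.H97Z

variable {V : Type} [Fintype V] [DecidableEq V] {L : Lev V}

theorem x3_add_eq {a b : ZMod 2} (h : a + b = 0) : a = b := by
  revert a b; decide

/-- A function on the vertices which is constant along all edges of the link of `{x, z}` is constant.
PROOF. `f + f w` (for the data below) is `RC` and vanishes at the side vertices.  Pure pair: `PureAt` data;
`f y = f w`, `f y' = f w'` (the special blocks), `f w = f y'` (`cl`): all equal; `van` for `f + f w`.  Mixed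
pair: `f y = f w`, `f y' = f w'`, `f a = f d`, `f a' = f d'`, `cl`.  Boundary pair: `f y = f w`, `f a = f d`, `cl`. -/
theorem link_const (hL : Good L) {x z : V} (hxz : x ≠ z) {f : V → ZMod 2}
    (hf : ∀ u v, Blk L x z u v → f u = f v) :
    ∀ u v, u ≠ x → u ≠ z → v ≠ x → v ≠ z → f u = f v := by
  have hR : RC L x z f := fun u v h => hf u v (Or.inl h)
  have hD : ∀ u v, L.S x z u v → f u = f v := fun u v h => hf u v (Or.inr (Or.inl h))
  have hS : ∀ u v, L.S x u z v → f u = f v := fun u v h => hf u v (Or.inr (Or.inr (Or.inl h)))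
  have hg : ∀ c : ZMod 2, RC L x z (fun v => f v + c) := fun c u v h => by
    show f u + c = f v + c
    rw [hR u v h]
  have key : ∃ c : ZMod 2, ∀ v, v ≠ x → v ≠ z → f v + c = 0 := by
    by_cases hh : L.hue x = L.hue z
    · obtain ⟨y, w, y', w', P⟩ := hL.pure x z hxz hh
      obtain ⟨c1, c2⟩ := P.cl f hR
      have e1 := hS _ _ P.s1
      refine ⟨f w, P.van _ (hg (f w)) (z2_add_self _) ?_⟩
      show f y + f w = 0
      rw [e1]; exact z2_add_self _
    · by_cases hF : L.F x z
      · obtain ⟨y, w, a, d, B⟩ := hL.bd x z hF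
        have e1 := hS _ _ B.s1
        refine ⟨f w, B.van _ (hg (f w)) (z2_add_self _) ?_⟩
        show f y + f w = 0
        rw [e1]; exact z2_add_self _
      · obtain ⟨y, w, y', w', a, d, a', d', M⟩ := hL.mix x z hh hF
        obtain ⟨c1, c2, c3, c4⟩ := M.cl f hR
        have e1 := hS _ _ M.s1
        have e2 := hS _ _ M.s2
        have e3 := hD _ _ M.t1
        have e4 := hD _ _ M.t2
        have hy' : f y' = f w := by rw [← c2, ← e3, ← c1]
        refine ⟨f w, M.van _ (hg (f w)) (z2_add_self _) ?_ ?_ ?_⟩
        · show f w' + f w = 0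
          rw [← e2, hy']; exact z2_add_self _
        · show f y + f w = 0
          rw [e1]; exact z2_add_self _
        · show f y' + f w = 0
          rw [hy']; exact z2_add_self _
  obtain ⟨c, hc⟩ := key
  intro u v h1 h2 h3 h4
  rw [x3_add_eq (hc u h1 h2), x3_add_eq (hc v h3 h4)]

open Classical in
/-- PROOF. Let `f p := if` there is a chain from `u` to `p` `then 1 else 0`; `link_const`. -/
theorem link_chain (hL : Good L) {x z u v : V} (hxz : x ≠ z) (h1 : u ≠ x) (h2 : u ≠ z)
    (h3 : v ≠ x) (h4 : v ≠ z) : Relation.ReflTransGen (fun p q => Blk L x z p q) u v := by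
  have hf : ∀ p q, Blk L x z p q →
      (fun t => if Relation.ReflTransGen (fun p q => Blk L x z p q) u t then (1 : ZMod 2) else 0) p =
      (fun t => if Relation.ReflTransGen (fun p q => Blk L x z p q) u t then (1 : ZMod 2) else 0) q := by
    intro p q hpq
    have hiff : Relation.ReflTransGen (fun p q => Blk L x z p q) u p ↔
        Relation.ReflTransGen (fun p q => Blk L x z p q) u q :=
      ⟨fun h => h.tail hpq, fun h => h.tail (hL.Blk34 hpq)⟩
    show (if _ then (1 : ZMod 2) else 0) = (if _ then (1 : ZMod 2) else 0)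
    by_cases hp : Relation.ReflTransGen (fun p q => Blk L x z p q) u p
    · rw [if_pos hp, if_pos (hiff.1 hp)]
    · rw [if_neg hp, if_neg (fun h => hp (hiff.2 h))]
  have e := link_const hL hxz hf u v h1 h2 h3 h4
  by_contra hv
  have e2 : (if Relation.ReflTransGen (fun p q => Blk L x z p q) u u then (1 : ZMod 2) else 0) =
      (if Relation.ReflTransGen (fun p q => Blk L x z p q) u v then (1 : ZMod 2) else 0) := e
  rw [if_pos Relation.ReflTransGen.refl, if_neg hv] at e2
  exact absurd e2 (by decide)

end Pool.Agent.Lib.H97Z
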