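import Pool.Agent.Lib.H37M.Defs
import Pool.Agent.Lib.H97Z.X2
import Pool.Agent.Lib.H97Z.X3

/-! Chunk X4: the complex of a level is a 3-neighborly normal 3-pseudomanifold -/

set_option autoImplicit false

namespace Pool.Agent.Lib.H97Z

variable {V : Type} [Fintype V] [DecidableEq V] {L : Lev V}

theorem x4_avoid (hL : Good L) (T : Finset V) (hT : T.card ≤ 3) : ∃ v, v ∉ T := by
  have h := hL.big 0
  obtain ⟨v, _, hv⟩ := Finset.exists_mem_notMem_of_card_lt_card
    (lt_of_le_of_lt hT (lt_of_lt_of_le (by norm_num : 3 < 4) h))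
  exact ⟨v, hv⟩

theorem x4_down {σ τ : Finset V} (h : σ ∈ faces L) (hτ : τ ⊆ σ) : τ ∈ faces L := by
  rcases (mem_faces σ).1 h with rfl | ⟨x, y, z, u, hB, hs⟩
  · rw [Finset.subset_empty.1 hτ]; exact h
  · exact (mem_faces τ).2 (Or.inr ⟨x, y, z, u, hB, hτ.trans hs⟩)

theorem x4_pair (hL : Good L) (x y : V) : ({x, y} : Finset V) ∈ faces L := by
  obtain ⟨y', hy'⟩ := x4_avoid hL {x, y} (Finset.card_le_two.trans (by norm_num))
  simp only [Finset.mem_insert, Finset.mem_singleton, not_or] at hy'
  obtain ⟨z, hz⟩ := x4_avoid hL {x, y, y'} Finset.card_le_three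
  simp only [Finset.mem_insert, Finset.mem_singleton, not_or] at hz
  by_cases hxy : x = y
  · subst hxy
    refine x4_down (faces_triple hL (x := x) (y := y') (z := z) (fun e => hy'.1 e.symm)
      (fun e => hz.1 e.symm) (fun e => hz.2.2 e.symm)) ?_
    intro t ht
    simp only [Finset.mem_insert, Finset.mem_singleton] at ht ⊢
    tauto
  · refine x4_down (faces_triple hL (x := x) (y := y) (z := z) hxy
      (fun e => hz.1 e.symm) (fun e => hz.2.1 e.symm)) ?_
    intro t ht
    simp only [Finset.mem_insert, Finset.mem_singleton] at ht ⊢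
    tauto

theorem x4_single (hL : Good L) (x : V) : ({x} : Finset V) ∈ faces L :=
  x4_down (x4_pair hL x x) (by simp)

/-- PROOF. `K : H37M.Cplx V` with the faces `faces L` (`mem_faces` gives `empty_mem` and `down`).  `IsNormal3`: `dim_le`:
`faces_card`; `pure`: `faces_pure`; `two`: `faces_two`; `conn`: `σ = ∅`: the link is `faces L`; all `{v}` and all pairs are
faces (`faces_triple` and subsets), so any two vertices are joined by one edge.  `σ = {x}`: the link
contains `{v}` for `v ≠ x` and `{u, v}` for `u ≠ v` different from `x` (`faces_triple`).  `σ = {x, z}`: the vertices of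
the link are the `v ≠ x, z`, and `{p, q}` is in the link if `Blk L x z p q`: `link_chain` (`Relation.ReflTransGen.mono`;
for a chain of length `0` use reflexivity).  `Nbly3`: `faces_triple`; `verts K = Finset.univ`. -/
theorem good_complex (hL : Good L) : H37M.Exists3Nbly (Fintype.card V) := by
  let K : H37M.Cplx V := ⟨faces L, (mem_faces ∅).2 (Or.inl rfl), fun s hs t ht => x4_down hs ht⟩
  have hmem : ∀ σ τ : Finset V, τ ∈ H37M.link K σ ↔ τ ∈ faces L ∧ Disjoint τ σ ∧ τ ∪ σ ∈ faces L := by
    intro σ τ
    exact Finset.mem_filter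
  have hconn : ∀ σ ∈ K.faces, σ.card ≤ 2 → H37M.Conn (H37M.link K σ) := by
    intro σ hσ hc
    have hc' : σ.card = 0 ∨ σ.card = 1 ∨ σ.card = 2 := by omega
    rcases hc' with h0 | h1 | h2
    · rw [Finset.card_eq_zero] at h0
      subst h0
      have hm : ∀ τ : Finset V, τ ∈ faces L → τ ∈ H37M.link K ∅ := fun τ hτ =>
        (hmem ∅ τ).2 ⟨hτ, Finset.disjoint_empty_right τ, by rw [Finset.union_empty]; exact hτ⟩
      obtain ⟨v, _⟩ := x4_avoid hL ∅ (by simp)
      refine ⟨⟨v, hm _ (x4_single hL v)⟩, fun v w _ _ => ?_⟩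
      exact Relation.ReflTransGen.single (hm _ (x4_pair hL v w))
    · obtain ⟨x, rfl⟩ := Finset.card_eq_one.1 h1
      have hv : ∀ v : V, v ≠ x → ({v} : Finset V) ∈ H37M.link K {x} := by
        intro v hvx
        refine (hmem _ _).2 ⟨x4_single hL v, by simpa using hvx, ?_⟩
        exact x4_pair hL v x
      have hv' : ∀ v : V, ({v} : Finset V) ∈ H37M.link K {x} → v ≠ x := by
        intro v h
        have := ((hmem _ _).1 h).2.1
        simpa using this
      obtain ⟨v0, hv0⟩ := x4_avoid hL {x} (by simp)
      refine ⟨⟨v0, hv v0 (by simpa using hv0)⟩, fun v w h1 h2 => ?_⟩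
      by_cases hvw : v = w
      · subst hvw; exact Relation.ReflTransGen.refl
      · refine Relation.ReflTransGen.single ((hmem _ _).2 ⟨x4_pair hL v w, ?_, ?_⟩)
        · simp only [Finset.disjoint_singleton_right, Finset.mem_insert, Finset.mem_singleton,
            not_or]
          exact ⟨(hv' v h1).symm, (hv' w h2).symm⟩
        · refine x4_down (faces_triple hL hvw (hv' v h1) (hv' w h2)) ?_
          intro t ht
          simp only [Finset.mem_union, Finset.mem_insert, Finset.mem_singleton] at ht ⊢
          tauto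
    · obtain ⟨x, z, hxz, rfl⟩ := Finset.card_eq_two.1 h2
      have hv' : ∀ v : V, ({v} : Finset V) ∈ H37M.link K {x, z} → v ≠ x ∧ v ≠ z := by
        intro v h
        have := ((hmem _ _).1 h).2.1
        simpa using this
      obtain ⟨v0, hv0⟩ := x4_avoid hL {x, z} (Finset.card_le_two.trans (by norm_num))
      simp only [Finset.mem_insert, Finset.mem_singleton, not_or] at hv0
      refine ⟨⟨v0, (hmem _ _).2 ⟨x4_single hL v0, by simpa using hv0, ?_⟩⟩,
        fun v w h1 h2 => ?_⟩
      · refine x4_down (faces_triple hL hxz (fun e => hv0.1 e.symm) (fun e => hv0.2 e.symm)) ?_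
        intro t ht
        simp only [Finset.mem_union, Finset.mem_insert, Finset.mem_singleton] at ht ⊢
        tauto
      · have hch := link_chain hL hxz (hv' v h1).1 (hv' v h1).2 (hv' w h2).1 (hv' w h2).2
        refine Relation.ReflTransGen.mono (fun p q hpq => ?_) _ _ hch
        have hne := hL.Blk_ne4 hpq
        have hall : ({x, z, p, q} : Finset V) ∈ faces L :=
          (mem_faces _).2 (Or.inr ⟨x, z, p, q, hpq, Finset.Subset.refl _⟩)
        refine (hmem _ _).2 ⟨x4_down hall ?_, ?_, x4_down hall ?_⟩
        · intro t ht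
          simp only [Finset.mem_insert, Finset.mem_singleton] at ht ⊢
          tauto
        · rw [Finset.disjoint_left]
          intro t ht ht'
          simp only [Finset.mem_insert, Finset.mem_singleton] at ht ht'
          obtain ⟨_, n2, n3, n4, n5, _⟩ := hne
          rcases ht with rfl | rfl <;> rcases ht' with rfl | rfl
          · exact n2 rfl
          · exact n4 rfl
          · exact n3 rfl
          · exact n5 rfl
        · intro t ht
          simp only [Finset.mem_union, Finset.mem_insert, Finset.mem_singleton] at ht ⊢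
          tauto
  refine ⟨V, inferInstance, K, ⟨fun s hs => faces_card hL hs, fun s hs => faces_pure hL hs,
    fun s hs hc => faces_two hL hs hc, hconn⟩, ?_, ?_⟩
  · intro a _ b _ c _ hab hac hbc
    exact faces_triple hL hab hac hbc
  · have hu : H37M.verts K = Finset.univ := by
      refine Finset.eq_univ_of_forall fun v => ?_
      exact Finset.mem_biUnion.2 ⟨{v}, x4_single hL v, Finset.mem_singleton_self v⟩
    rw [hu, Finset.card_univ]

end Pool.Agent.Lib.H97Z
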