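import Pool.Agent.Lib.H97Z.Z20
import Pool.Agent.Lib.H97Z.X4
import Pool.Agent.Lib.H37M.Main

/-! 3-neighborly normal 3-pseudomanifolds with `2 ^ r` vertices for all `r ≥ 3`. -/

set_option autoImplicit false

namespace Pool.Agent.Lib.H97Z

/-- Levels with `2 ^ (n + 4)` vertices. -/
theorem levels : ∀ n : ℕ, ∃ (V : Type) (_ : Fintype V) (_ : DecidableEq V) (L : Lev V),
    Inv L ∧ Fintype.card V = 2 ^ (n + 4) := by
  intro n
  induction n with
  | zero => exact ⟨Fin 16, inferInstance, inferInstance, Base.L0, Base.inv0, by simp⟩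
  | succ n ih =>
    obtain ⟨V, hV, hD, L, hL, hc⟩ := ih
    obtain ⟨s, hs⟩ := inv_step hL
    refine ⟨V × ZMod 2, inferInstance, inferInstance, lift L s, hs, ?_⟩
    rw [Fintype.card_prod, hc, ZMod.card]
    ring

theorem exists_pow {r : ℕ} (hr : 3 ≤ r) : H37M.Exists3Nbly (2 ^ r) := by
  rcases Nat.lt_or_ge r 4 with h | h
  · have h3 : r = 3 := by omega
    subst h3
    exact H37M.exists_of_mersenne 2 (by norm_num [mersenne])
  · obtain ⟨n, rfl⟩ : ∃ n, r = n + 4 := ⟨r - 4, by omega⟩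
    obtain ⟨V, hV, hD, L, hL, hc⟩ := levels n
    rw [← hc]
    exact good_complex hL.good

end Pool.Agent.Lib.H97Z
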