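import Pool.Agent.Lib.H97Z.M1

/-! Chunk N1: boundary pairs, the lifted boundary pair -/

set_option autoImplicit false

namespace Pool.Agent.Lib.H97Z

variable {V : Type} [Fintype V] [DecidableEq V] {L : Lev V} {s : Finset V → ZMod 2}

theorem n1_t : ∀ l u : ZMod 2, l + u + u = l := by decide

theorem n1_two : ∀ l p : ZMod 2, l = p ∨ l = p + 1 := by decide

theorem n1_const (g : ZMod 2 → ZMod 2) (h : g 0 = g 1) (l m : ZMod 2) : g l = g m := by
  have h1 : ∀ l, g l = g 0 := by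
    intro l
    rcases z2_cases l with rfl | rfl
    · rfl
    · exact h.symm
  rw [h1 l, h1 m]

theorem n1_zero (g : ZMod 2 → ZMod 2) (p : ZMod 2) (h1 : g p = 0) (h2 : g (p + 1) = 0)
    (l : ZMod 2) : g l = 0 := by
  rcases n1_two l p with rfl | rfl
  · exact h1
  · exact h2

theorem n1_flip (g : ZMod 2 → ZMod 2) (h : g 0 + g 1 = 1) (l : ZMod 2) :
    g l + g (l + 1) = 1 := by
  rcases z2_cases l with rfl | rfl
  · exact h
  · rw [show (1 : ZMod 2) + 1 = 0 by decide, add_comm]; exact h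

theorem n1_core (W A : ZMod 2 → ZMod 2) (u v p fx : ZMod 2)
    (h1 : ∀ l, W (l + u) = A (l + v)) (t1 : A 0 = A 1) (j : fx = W p) : W (p + 1) = fx := by
  have e : ∀ l, W l = A 0 := by
    intro l
    have := h1 (l + u)
    rw [n1_t] at this
    rw [this]
    exact n1_const A t1 _ _
  rw [j, e, e]

theorem n1_w : ∀ a b a' b' e e' : ZMod 2, a + e = b + e' → a' + e = b' + e' → b + b' = 1 →
    a + a' = 1 := by
  decide

theorem n1_i1 : ∀ p u v : ZMod 2, p + 1 + u + v = p + u + v + 1 := by decide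

theorem n1_f : ∀ fx a b : ZMod 2, fx + a = 1 → a + b = 1 → b + fx = 0 := by decide

theorem n1_core2 (W A : ZMod 2 → ZMod 2) (u v p fx e e' : ZMod 2)
    (h1 : ∀ l, W (l + u) + e = A (l + v) + e') (t1 : A 0 + A 1 = 1) (j : fx + W p = 1) :
    W (p + 1) + fx = 0 := by
  have h2 := h1 (p + u)
  have h3 := h1 (p + 1 + u)
  rw [n1_t] at h2 h3
  rw [n1_i1] at h3
  exact n1_f _ _ _ j (n1_w _ _ _ _ e e' h2 h3 (n1_flip A t1 _))

/-- The link of the lifted pair `(x, i)`, `(z, j)` with `L.F x z`, `i + j = L.b x z a d`.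
PROOF. `f_l v := f (v, l + ht v)`, `ht` from `bd_ht` (only its first property is used), strands `w - a`, `d - y`
(`BdAt.cl`).  `(w, j+B+1) ~ (a, _) ~ (a, _ + 1) ~ (w, j+B) ~ (x, i+1)` (`rc_uturn`, `rc_junction`), and
`(y, i+A+1) ~ (d, _) ~ (d, _ + 1) ~ (y, i+A) ~ (z, j+1)`. -/
theorem bd1_cl (hL : Good L) {x z y w a d : V} 
    (hM : BdAt L x z y w a d) {i j : ZMod 2} (hij : i + j = L.b x z a d)
    {ht : V → ZMod 2} (hht : ∀ u v, L.R x z u v → ht u + ht v = s {x, z, u, v} + (i + j))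
    {f : V × ZMod 2 → ZMod 2} (hf : RC (lift L s) (x, i) (z, j) f) :
    f (w, j + L.b z w x y + 1) = f (x, i + 1) ∧ f (z, j + 1) = f (y, i + L.b x y z w + 1) := by
  have hcl := fun l => hM.cl _ (lift_fun hf hht l)
  obtain ⟨j1, j3⟩ := rc_junction hL hM.s1 hf
  obtain ⟨t1, t2⟩ := rc_uturn hL hM.t1 hij hf
  exact ⟨n1_core (fun l => f (w, l)) (fun l => f (a, l)) _ _ _ _ (fun l => (hcl l).1) t1 j3,
    (n1_core (fun l => f (y, l)) (fun l => f (d, l)) _ _ _ _ (fun l => (hcl l).2.symm) t2 j1).symm⟩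

/-- PROOF. `f` is `0` at both `(w, _)` and both `(y, _)` (`bd1_cl`, `rc_junction`), so `f_l = 0` away from `x, z` by
`BdAt.van`; `(x, i+1)`, `(z, j+1)` by `bd1_cl`. -/
theorem bd1_van (hL : Good L) {x z y w a d : V} 
    (hM : BdAt L x z y w a d) {i j : ZMod 2} (hij : i + j = L.b x z a d)
    {ht : V → ZMod 2} (hht : ∀ u v, L.R x z u v → ht u + ht v = s {x, z, u, v} + (i + j))
    {f : V × ZMod 2 → ZMod 2} (hf : RC (lift L s) (x, i) (z, j) f)
    (h1 : f (w, j + L.b z w x y + 1) = 0) (h2 : f (y, i + L.b x y z w + 1) = 0) :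
    ∀ v, v ≠ (x, i) → v ≠ (z, j) → f v = 0 := by
  obtain ⟨e5, e6⟩ := bd1_cl hL hM hij hht hf
  obtain ⟨j1, j3⟩ := rc_junction hL hM.s1 hf
  have hx : f (x, i + 1) = 0 := e5.symm.trans h1
  have hz : f (z, j + 1) = 0 := e6.trans h2
  have kw := n1_zero (fun l => f (w, l)) _ (j3.symm.trans hx) h1
  have ky := n1_zero (fun l => f (y, l)) _ (j1.symm.trans hz) h2
  rintro ⟨v, k⟩ hv1 hv2
  by_cases hvx : v = x
  · subst hvx
    rcases n1_two k i with rfl | rfl
    · exact absurd rfl hv1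
    · exact hx
  by_cases hvz : v = z
  · subst hvz
    rcases n1_two k j with rfl | rfl
    · exact absurd rfl hv2
    · exact hz
  have := hM.van _ (lift_fun hf hht (k + ht v)) (kw _) (ky _) v hvx hvz
  rwa [show k + ht v + ht v = k from n1_t _ _] at this

/-- PROOF. With `η` from `exists_one` and `φ_l v := f (v, l + ht v) + η v` (`lift_fun_one`): along the paths of `bd1_cl`
`f (w, j+B+1) + f (x, i+1) = 2 (η w + η a) + 1 + 1 = 0`, `f (z, j+1) + f (y, i+A+1) = 0`. -/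
theorem bd1_par (hL : Good L) {x z y w a d : V} (hxz : x ≠ z)
    (hM : BdAt L x z y w a d) {i j : ZMod 2} (hij : i + j = L.b x z a d)
    {ht : V → ZMod 2} (hht : ∀ u v, L.R x z u v → ht u + ht v = s {x, z, u, v} + (i + j))
    {f : V × ZMod 2 → ZMod 2} (hf : One (lift L s) (x, i) (z, j) f) :
    f (w, j + L.b z w x y + 1) + f (x, i + 1) + f (z, j + 1) +
      f (y, i + L.b x y z w + 1) = 0 := by
  obtain ⟨η, hη⟩ := exists_one hL hxz
  have hcl := fun l => hM.cl _ (lift_fun_one hf hht l hη)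
  obtain ⟨j1, j3⟩ := one_junction hL hM.s1 hf
  obtain ⟨t1, t2⟩ := one_uturn hL hM.t1 hij hf
  have e1 := n1_core2 (fun l => f (w, l)) (fun l => f (a, l)) _ _ _ _ _ _
    (fun l => (hcl l).1) t1 j3
  have e2 := n1_core2 (fun l => f (y, l)) (fun l => f (d, l)) _ _ _ _ _ _
    (fun l => (hcl l).2.symm) t2 j1
  have e1' : f (w, j + L.b z w x y + 1) + f (x, i + 1) = 0 := e1
  have e2' : f (y, i + L.b x y z w + 1) + f (z, j + 1) = 0 := e2
  rw [e1', zero_add, add_comm, e2']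

end Pool.Agent.Lib.H97Z
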