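import Pool.Agent.Lib.H97Z.M1

/-! Chunk N3: boundary pairs, the other parity -/

set_option autoImplicit false

namespace Pool.Agent.Lib.H97Z

variable {V : Type} [Fintype V] [DecidableEq V] {L : Lev V} {s : Finset V → ZMod 2}

theorem n3_t : ∀ l u : ZMod 2, l + u + u = l := by decide

theorem n3_two : ∀ l p : ZMod 2, l = p ∨ l = p + 1 := by decide

theorem n3_zero (g : ZMod 2 → ZMod 2) (p : ZMod 2) (h1 : g p = 0) (h2 : g (p + 1) = 0)
    (l : ZMod 2) : g l = 0 := by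
  rcases n3_two l p with rfl | rfl
  · exact h1
  · exact h2

theorem n3_i1 (p u v : ZMod 2) : p + 1 + u + v = p + u + v + 1 := by ring

theorem n3_i2 (hw ha hd hy i j A B b c k : ZMod 2)
    (h : hw + ha + hd + hy = 1 + A + B + c + b) (hij : i + j = c + 1)
    (hk : k = j + B + 1 + hw + ha) : k + b + 1 = i + A + hy + hd := by
  have h2 : (2 : ZMod 2) = 0 := by decide
  linear_combination hk + h - hij + (1 + B + b + j - hd - hy) * h2

theorem n3_i3 : ∀ k b q v : ZMod 2, k + b + 1 = q + v → q + 1 + v = k + b := by decide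

theorem n3_k1 : ∀ p u : ZMod 2, p + u + 1 + 1 = p + u := by decide

theorem n3_core (W A0 D Y : ZMod 2 → ZMod 2) (hw ha hy hd p q k b fz fx : ZMod 2)
    (h1 : ∀ l, W (l + hw) = A0 (l + ha)) (h2 : ∀ l, D (l + hd) = Y (l + hy))
    (hk : k = p + 1 + hw + ha) (hm : k + b + 1 = q + hy + hd) (j1 : fz = Y q) (j3 : fx = W p) :
    W (p + 1) = A0 k ∧ D (k + b + 1) = fz ∧ fx = A0 (k + 1) ∧ D (k + b) = Y (q + 1) := by
  have e1 := h1 (p + 1 + hw)
  have e2 := h1 (p + hw)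
  have e3 := h2 (q + hy)
  have e4 := h2 (q + 1 + hy)
  rw [n3_t] at e1 e2 e3 e4
  refine ⟨?_, ?_, ?_, ?_⟩
  · rw [e1, hk]
  · rw [hm, e3, j1]
  · rw [j3, e2, hk, n3_i1]
    rw [show p + hw + ha + 1 + 1 = p + hw + ha by
      rw [add_assoc, show (1 : ZMod 2) + 1 = 0 by decide, add_zero]]
  · have k2 : k + b = q + 1 + hy + hd := by
      have : k + b + 1 + 1 = q + hy + hd + 1 := by rw [hm]
      rw [add_assoc (k + b), show (1 : ZMod 2) + 1 = 0 by decide, add_zero] at this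
      rw [this]
      ring
    rw [k2, e4]

/-- The link of the lifted pair `(x, i)`, `(z, j)` with `L.F x z`, `i + j = L.b x z a d + 1`.
PROOF. `f_l v := f (v, l + ht v)`; strands `w - a`, `d - y` (`BdAt.cl`).  With `k = j + B + 1 + ht w + ht a`:
`(w, j+B+1) ~ (a, k)`; `(x, i+1) ~ (w, j+B) ~ (a, k+1)` (`rc_junction`);
`(z, j+1) ~ (y, i+A) ~ (d, i+A+ht y+ht d)`, `(y, i+A+1) ~ (d, i+A+1+ht y+ht d)`, and
`i+A+ht y+ht d = k + L.b a d x z + 1` by `hsum` and `hij`. -/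
theorem bd2_cl (hL : Good L) {x z y w a d : V} 
    (hM : BdAt L x z y w a d) {i j : ZMod 2} (hij : i + j = L.b x z a d + 1)
    {ht : V → ZMod 2} (hht : ∀ u v, L.R x z u v → ht u + ht v = s {x, z, u, v} + (i + j))
    (hsum : ht w + ht a + ht d + ht y =
        1 + L.b x y z w + L.b z w x y + L.b x z a d + L.b a d x z)
    {f : V × ZMod 2 → ZMod 2} (hf : RC (lift L s) (x, i) (z, j) f) {k : ZMod 2}
    (hk : k = j + L.b z w x y + 1 + ht w + ht a) :
    f (w, j + L.b z w x y + 1) = f (a, k) ∧ f (d, k + L.b a d x z + 1) = f (z, j + 1) ∧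
      f (x, i + 1) = f (a, k + 1) ∧
      f (d, k + L.b a d x z) = f (y, i + L.b x y z w + 1) := by
  have hcl := fun l => hM.cl _ (lift_fun hf hht l)
  obtain ⟨j1, j3⟩ := rc_junction hL hM.s1 hf
  exact n3_core (fun l => f (w, l)) (fun l => f (a, l)) (fun l => f (d, l)) (fun l => f (y, l))
    _ _ _ _ _ _ k _ _ _ (fun l => (hcl l).1) (fun l => (hcl l).2) hk
    (n3_i2 _ _ _ _ _ _ _ _ _ _ _ hsum hij hk) j1 j3

/-- PROOF. `f` is `0` at `(w, j+B+1)`, at `(w, j+B) ~ (x, i+1)`, at `(y, i+A+1)` and at `(y, i+A) ~ (z, j+1)`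
(`rc_junction`), so `f_l = 0` away from `x, z` by `BdAt.van` for `l = 0, 1`. -/
theorem bd2_van (hL : Good L) {x z y w a d : V} 
    (hM : BdAt L x z y w a d) {i j : ZMod 2} 
    {ht : V → ZMod 2} (hht : ∀ u v, L.R x z u v → ht u + ht v = s {x, z, u, v} + (i + j))
    {f : V × ZMod 2 → ZMod 2} (hf : RC (lift L s) (x, i) (z, j) f)
    (h1 : f (w, j + L.b z w x y + 1) = 0) (h2 : f (x, i + 1) = 0)
    (h3 : f (y, i + L.b x y z w + 1) = 0) (h4 : f (z, j + 1) = 0) :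
    ∀ v, v ≠ (x, i) → v ≠ (z, j) → f v = 0 := by
  obtain ⟨j1, j3⟩ := rc_junction hL hM.s1 hf
  have kw := n3_zero (fun l => f (w, l)) _ (j3.symm.trans h2) h1
  have ky := n3_zero (fun l => f (y, l)) _ (j1.symm.trans h4) h3
  rintro ⟨v, k⟩ hv1 hv2
  by_cases hvx : v = x
  · subst hvx
    rcases n3_two k i with rfl | rfl
    · exact absurd rfl hv1
    · exact h2
  by_cases hvz : v = z
  · subst hvz
    rcases n3_two k j with rfl | rfl
    · exact absurd rfl hv2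
    · exact h4
  have := hM.van _ (lift_fun hf hht (k + ht v)) (kw _) (ky _) v hvx hvz
  rwa [show k + ht v + ht v = k from n3_t _ _] at this

theorem n3_p1 (w1 a d fz yq e1 e2 e3 e4 : ZMod 2) (h1 : w1 + e1 = a + e2)
    (h2 : d + e3 = yq + e4) (j : fz + yq = 1) (h : e1 + e2 + e3 + e4 = 0) :
    w1 + a + d + fz = 1 := by
  have h2' : (2 : ZMod 2) = 0 := by decide
  linear_combination h1 + h2 + j - h + (a + e2 + e4 ) * h2'

theorem n3_p2 (fx a1 d y1 wp e1 e2 e3 e4 : ZMod 2) (h1 : wp + e1 = a1 + e2)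
    (h2 : d + e3 = y1 + e4) (j : fx + wp = 1) (h : e1 + e2 + e3 + e4 = 0) :
    fx + a1 + d + y1 = 1 := by
  have h2' : (2 : ZMod 2) = 0 := by decide
  linear_combination h1 + h2 + j - h + (a1 - wp + y1 + e2 + e4) * h2'

theorem n3_core2 (W A0 D Y : ZMod 2 → ZMod 2) (hw ha hy hd p q k b fz fx e1 e2 e3 e4 : ZMod 2)
    (h1 : ∀ l, W (l + hw) + e1 = A0 (l + ha) + e2)
    (h2 : ∀ l, D (l + hd) + e3 = Y (l + hy) + e4)
    (hk : k = p + 1 + hw + ha) (hm : k + b + 1 = q + hy + hd) (j1 : fz + Y q = 1)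
    (j3 : fx + W p = 1) (h : e1 + e2 + e3 + e4 = 0) :
    W (p + 1) + A0 k + D (k + b + 1) + fz = 1 ∧
      fx + A0 (k + 1) + D (k + b) + Y (q + 1) = 1 := by
  have e1' := h1 (p + 1 + hw)
  have e2' := h1 (p + hw)
  have e3' := h2 (q + hy)
  have e4' := h2 (q + 1 + hy)
  rw [n3_t] at e1' e2' e3' e4'
  have k1 : k + 1 = p + hw + ha := by
    rw [hk, n3_i1, add_assoc, show (1 : ZMod 2) + 1 = 0 by decide, add_zero]
  have k2 : k + b = q + 1 + hy + hd := by
    have : k + b + 1 + 1 = q + hy + hd + 1 := by rw [hm]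
    rw [add_assoc (k + b), show (1 : ZMod 2) + 1 = 0 by decide, add_zero] at this
    rw [this]
    ring
  constructor
  · rw [hm]
    refine n3_p1 _ _ _ _ _ _ _ _ _ ?_ e3' j1 h
    rw [hk]
    exact e1'
  · rw [k1, k2]
    exact n3_p2 _ _ _ _ _ _ _ _ _ e2' e4' j3 h

theorem n3_par : ∀ w a d y : ZMod 2, w + a + d + y = 0 → w + a + d + y = 0 := fun _ _ _ _ h => h

/-- PROOF. With `η` from `exists_one` (`lift_fun_one`, `one_junction`): `f (w, j+B+1) + f (a, k) = η w + η a`,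
`f (d, k+b+1) + f (z, j+1) = 1 + η y + η d`, `f (x, i+1) + f (a, k+1) = 1 + η w + η a`,
`f (d, k+b) + f (y, i+A+1) = η y + η d`, and `η w + η a + η d + η y = 0` (`BdAt.par`). -/
theorem bd2_par (hL : Good L) {x z y w a d : V} (hxz : x ≠ z)
    (hM : BdAt L x z y w a d) {i j : ZMod 2} (hij : i + j = L.b x z a d + 1)
    {ht : V → ZMod 2} (hht : ∀ u v, L.R x z u v → ht u + ht v = s {x, z, u, v} + (i + j))
    (hsum : ht w + ht a + ht d + ht y =
        1 + L.b x y z w + L.b z w x y + L.b x z a d + L.b a d x z)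
    {f : V × ZMod 2 → ZMod 2} (hf : One (lift L s) (x, i) (z, j) f) {k : ZMod 2}
    (hk : k = j + L.b z w x y + 1 + ht w + ht a) :
    f (w, j + L.b z w x y + 1) + f (a, k) + f (d, k + L.b a d x z + 1) + f (z, j + 1) = 1 ∧
      f (x, i + 1) + f (a, k + 1) + f (d, k + L.b a d x z) +
        f (y, i + L.b x y z w + 1) = 1 := by
  obtain ⟨η, hη⟩ := exists_one hL hxz
  have hcl := fun l => hM.cl _ (lift_fun_one hf hht l hη)
  obtain ⟨j1, j3⟩ := one_junction hL hM.s1 hf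
  exact n3_core2 (fun l => f (w, l)) (fun l => f (a, l)) (fun l => f (d, l)) (fun l => f (y, l))
    _ _ _ _ _ _ k _ _ _ _ _ _ _ (fun l => (hcl l).1) (fun l => (hcl l).2) hk
    (n3_i2 _ _ _ _ _ _ _ _ _ _ _ hsum hij hk) j1 j3 (hM.par η hη)

end Pool.Agent.Lib.H97Z
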