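import Pool.Agent.Lib.H97Z.D2
import Pool.Agent.Lib.H97Z.B1

/-! Chunk P1: pure pairs: the strands -/

set_option autoImplicit false

namespace Pool.Agent.Lib.H97Z

variable {V : Type} [Fintype V] [DecidableEq V] {L : Lev V} {s : Finset V → ZMod 2}

theorem p1_a (c d : ZMod 2) (u v u' v' : ZMod 2) (h : u + u' = 1) (hh : v + v' = c) :
    v + d * u + (v' + d * u') = c + d := by
  subst hh
  revert v v' u u' d
  decide

theorem p1_b (a b c d t e k : ZMod 2) (h : a + b + c + d = t) :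
    a + e * k + (b + e * k) + (c + e * k) + (d + e * k) = t := by
  subst h
  revert a b c d e k
  decide

/-- PROOF. Let `h` be a potential (`pot` with `l := s`): `Lab L s x z h`.  Put `ht v := h v + (i + j) * L.hue v`;
as `L.hue u + L.hue v = 1` for `L.R x z u v` (`Good.Rhue_pure`), `ht u + ht v = s {x, z, u, v} + (i + j)`.
`EqP` and `L.hue w = L.hue y = L.hue y' = L.hue w'` (`Good.Shue_eq`) give
`ht w + ht y' + ht w' + ht y = 1 + A + B + A' + B'`, where `A = L.b x y z w`, `B = L.b z w x y`,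
`A' = L.b x y' z w'`, `B' = L.b z w' x y'`, and also `ht w + ht y' = h w + h y'`. -/
theorem pure_ht (hL : Good L) {x z y w y' w' : V} (hxz : x ≠ z) (hh : L.hue x = L.hue z)
    (hP : PureAt L x z y w y' w') (hE : EqP L s x z y w y' w') (i j : ZMod 2) :
    ∃ ht : V → ZMod 2, (∀ u v, L.R x z u v → ht u + ht v = s {x, z, u, v} + (i + j)) ∧
      ht w + ht y' + ht w' + ht y = 1 + L.b x y z w + L.b z w x y + L.b x y' z w' +
        L.b z w' x y' := by
  obtain ⟨h, hlab⟩ := pot hL hxz s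
  refine ⟨fun v => h v + (i + j) * L.hue v, fun u v huv => ?_, ?_⟩
  · exact p1_a _ _ _ _ _ _ (hL.Rhue_pure huv hh) (hlab u v huv)
  · obtain ⟨h1, h2⟩ := hL.Shue_eq hP.s1 hh
    obtain ⟨h3, h4⟩ := hL.Shue_eq hP.s2 hh
    have h5 := hE h hlab
    show h w + (i + j) * L.hue w + (h y' + (i + j) * L.hue y') +
      (h w' + (i + j) * L.hue w') + (h y + (i + j) * L.hue y) = _
    rw [h1, h2, h3, h4]
    exact p1_b _ _ _ _ _ _ _ h5

theorem p1_i1 (p q : ZMod 2) : p + 1 + (p + q) = q + 1 := by revert p q; decide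
theorem p1_i2 (p q : ZMod 2) : p + (p + q) = q := by revert p q; decide
theorem p1_i3 (p q : ZMod 2) : p + 1 + (1 + p + q) = q := by revert p q; decide
theorem p1_i4 (p q : ZMod 2) : p + (1 + p + q) = q + 1 := by revert p q; decide
theorem p1_k (k k' p q p' q' : ZMod 2) (hk : k + k' = 1 + p + q + p' + q') :
    (k = p + q ∧ k' = 1 + p' + q') ∨ (k = 1 + p + q ∧ k' = p' + q') := by
  revert k k' p q p' q'; decide

theorem p1_core (a b a' b' : ZMod 2 → ZMod 2) (p q p' q' k k' fz fx : ZMod 2)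
    (h1 : ∀ l, a l = b (l + k)) (h2 : ∀ l, a' l = b' (l + k')) (j1 : fz = b' q')
    (j2 : fz = b q) (j3 : fx = a p) (j4 : fx = a' p') (hk : k + k' = 1 + p + q + p' + q') :
    a (p + 1) = b (q + 1) ∧ a' (p' + 1) = b' (q' + 1) ∧ fz = fx ∧
      (fz = a (p + 1) ∨ fz = b' (q' + 1)) ∧ fz = a p ∧ fz = b' q' := by
  rcases p1_k _ _ _ _ _ _ hk with ⟨rfl, rfl⟩ | ⟨rfl, rfl⟩
  · have e1 := h1 (p + 1)
    have e2 := h1 p
    have e3 := h2 (p' + 1)
    have e4 := h2 p'
    rw [p1_i1] at e1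
    rw [p1_i2] at e2
    rw [p1_i3] at e3
    rw [p1_i4] at e4
    have e5 : fz = fx := by rw [j2, j3, e2]
    refine ⟨e1, ?_, e5, Or.inr ?_, ?_, j1⟩
    · rw [e3, ← j1, e5, j4, e4]
    · rw [e5, j4, e4]
    · rw [e5, j3]
  · have e1 := h1 (p + 1)
    have e2 := h1 p
    have e3 := h2 (p' + 1)
    have e4 := h2 p'
    rw [p1_i3] at e1
    rw [p1_i4] at e2
    rw [p1_i1] at e3
    rw [p1_i2] at e4
    have e5 : fz = fx := by rw [j1, j4, e4]
    refine ⟨?_, e3, e5, Or.inl ?_, ?_, j1⟩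
    · rw [e1, ← j2, e5, j3, e2]
    · rw [e1, j2]
    · rw [e5, j3]

theorem p1_s (l u v : ZMod 2) : l + u + v = l + (u + v) := add_assoc _ _ _
theorem p1_t (l u : ZMod 2) : l + u + u = l := by revert l u; decide

theorem p1_shift (a b : ZMod 2 → ZMod 2) (u v : ZMod 2) (h : ∀ l, a (l + u) = b (l + v)) :
    ∀ l, a l = b (l + (u + v)) := by
  intro l
  have := h (l + u)
  rw [p1_t] at this
  rw [this, add_assoc]

theorem p1_sum (w y' w' y A B A' B' i j : ZMod 2)
    (h : w + y' + w' + y = 1 + A + B + A' + B') :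
    w + y' + (w' + y) = 1 + (j + B) + (i + A') + (j + B') + (i + A) := by
  have h1 : w + y' + (w' + y) = w + y' + w' + y := by ring
  have h2 : ∀ A B A' B' i j : ZMod 2, 1 + A + B + A' + B' =
      1 + (j + B) + (i + A') + (j + B') + (i + A) := by decide
  rw [h1, h, h2 A B A' B' i j]

/-- The link of a lifted pure pair.
PROOF. `ht` of `pure_ht`; `f_l v := f (v, l + ht v)` is `RC` (`lift_fun`), so `f_l w = f_l y'`, `f_l w' = f_l y`
(`PureAt.cl`) for `l = 0, 1`.  Junctions (`rc_junction` for both special blocks):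
`f (z, j+1) = f (y, i+A) = f (y', i+A')`, `f (x, i+1) = f (w, j+B) = f (w', j+B')`.  Put
`D := j+B+ht w+ht y'+i+A'`, `D' := j+B'+ht w'+ht y+i+A`; `D + D' = 1`.
If `D = 0`, `D' = 1`: `f (w, j+B+1) = f (y', i+A'+1)` and `f (w, j+B) = f (y', i+A')` (strand `w - y'`),
`f (w', j+B'+1) = f (y, i+A)` and `f (w', j+B') = f (y, i+A+1)`.  So
`f (w', j+B'+1) = f (y, i+A) = f (z, j+1) = f (y', i+A') = f (w, j+B) = f (x, i+1) = f (w', j+B') = f (y, i+A+1)`.
If `D = 1`, `D' = 0`: symmetric.  In both cases `f (z, j+1) = f (x, i+1)`. -/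
theorem pure_cl (hL : Good L) {x z y w y' w' : V} (hxz : x ≠ z) (hh : L.hue x = L.hue z)
    (hP : PureAt L x z y w y' w') (hE : EqP L s x z y w y' w') {i j : ZMod 2}
    {f : V × ZMod 2 → ZMod 2} (hf : RC (lift L s) (x, i) (z, j) f) :
    f (w, j + L.b z w x y + 1) = f (y', i + L.b x y' z w' + 1) ∧
      f (w', j + L.b z w' x y' + 1) = f (y, i + L.b x y z w + 1) ∧
      f (z, j + 1) = f (x, i + 1) ∧
      (f (z, j + 1) = f (w, j + L.b z w x y + 1) ∨ f (z, j + 1) = f (y, i + L.b x y z w + 1)) ∧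
      f (z, j + 1) = f (w, j + L.b z w x y) ∧ f (z, j + 1) = f (y, i + L.b x y z w) := by
  obtain ⟨ht, h1, h2⟩ := pure_ht hL hxz hh hP hE i j
  have hl : ∀ l, f (w, l + ht w) = f (y', l + ht y') ∧ f (w', l + ht w') = f (y, l + ht y) :=
    fun l => hP.cl _ (lift_fun hf h1 l)
  obtain ⟨j1, j3⟩ := rc_junction hL hP.s1 hf
  obtain ⟨j2, j4⟩ := rc_junction hL hP.s2 hf
  exact p1_core (fun l => f (w, l)) (fun l => f (y', l)) (fun l => f (w', l)) (fun l => f (y, l))
    (j + L.b z w x y) (i + L.b x y' z w') (j + L.b z w' x y') (i + L.b x y z w)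
    (ht w + ht y') (ht w' + ht y) (f (z, j + 1)) (f (x, i + 1))
    (p1_shift (fun l => f (w, l)) (fun l => f (y', l)) _ _ fun l => (hl l).1)
    (p1_shift (fun l => f (w', l)) (fun l => f (y, l)) _ _ fun l => (hl l).2) j1 j2 j3 j4
    (p1_sum _ _ _ _ _ _ _ _ _ _ h2)

end Pool.Agent.Lib.H97Z
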