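import Pool.Agent.Lib.H97Z.M2
import Pool.Agent.Lib.H97Z.B4

/-! Chunk Q1: functions on a lifted mixed link which respect the diagonal blocks -/

set_option autoImplicit false

namespace Pool.Agent.Lib.H97Z

variable {V : Type} [Fintype V] [DecidableEq V] {L : Lev V} {s : Finset V → ZMod 2}

theorem q1_pair (g : ZMod 2 → ZMod 2) (l : ZMod 2) : g l + g (l + 1) = g 0 + g 1 := by
  rcases z2_cases l with rfl | rfl
  · rw [zero_add]
  · rw [show (1 : ZMod 2) + 1 = 0 from rfl, add_comm]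

theorem q1_pair' (g : ZMod 2 → ZMod 2) (l : ZMod 2) : g (0 + l) + g (1 + l) = g 0 + g 1 := by
  rw [zero_add, add_comm 1 l]
  exact q1_pair g l

/-- The sum over the fibre is constant along the regular edges. -/
theorem q1_phi {x z : V} {i j : ZMod 2} {ht : V → ZMod 2}
    (hht : ∀ u v, L.R x z u v → ht u + ht v = s {x, z, u, v} + (i + j))
    {f : V × ZMod 2 → ZMod 2} (hf : RC (lift L s) (x, i) (z, j) f) :
    RC L x z (fun v => f (v, 0) + f (v, 1)) := by
  intro u v huv
  have h0 := lift_fun hf hht 0 u v huv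
  have h1 := lift_fun hf hht 1 u v huv
  have hu := q1_pair' (fun l => f (u, l)) (ht u)
  have hv := q1_pair' (fun l => f (v, l)) (ht v)
  change f (u, 0) + f (u, 1) = f (v, 0) + f (v, 1)
  rw [← hu, ← hv]

  exact congrArg₂ (· + ·) h0 h1

theorem q1_eq0 : ∀ a b : ZMod 2, a + b = 0 → a = b := by decide

theorem q1_eq0' : ∀ a b : ZMod 2, a = b → a + b = 0 := by decide

theorem q1_k1 : ∀ k b : ZMod 2, k + (k + b + 1) = b + 1 := by decide

theorem q1_k2 : ∀ k b : ZMod 2, k + 1 + (k + b) = b + 1 := by decide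

theorem q1_bit : ∀ i j b b' : ZMod 2, i + j = b → b + b' = 1 → i + j = b' + 1 := by decide


/-- Pairs which are not boundary pairs, first parity.
PROOF. `mix_cl` (with `ht` from `mix_ht` and its second sum) and `hd` for the special lifts
`(a', k) (d', k+b+1)`, `(a', k+1) (d', k+b)` (`lift_S_spec`, `i + j = L.b x z a' d' + 1`): with
`g₁ := f (x, i+1)`, `g₂ := f (w', j+B'+1)`: `f` is `g₁` at both `(w, _)` (`rc_junction`), at `(a', k)`, at `(d', k+b+1)`,
at `(y', i+A'+1)`, `(z, j+1)`, `(y', i+A')`, and at `(w', j+B')`, `(y, i+A)` (`rc_junction`); it is `g₂` at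
`(a', k+1)`, `(d', k+b)`, `(y, i+A+1)`.  So `φ v := f (v, 0) + f (v, 1)` is `0` at `w`, `y'` and `g₁ + g₂` at
`w'`, `y`.  `φ` is `RC` (`lift_fun` for `l = 0, 1`, add).  With `κ` from `kappa`, `φ + (g₁ + g₂) κ` is `RC` and `0` at
`w, w', y, y'`, so it is `0` (`MixAt.van`). -/
theorem mix_rd (hL : Good L) {x z y w y' w' a d a' d' : V} (hh : L.hue x ≠ L.hue z)
    (hM : MixAt L x z y w y' w' a d a' d')
    (hE : EqM L s x z y w y' w' a d a' d') {κ : V → ZMod 2} (hκ : RC L x z κ)
    (k1 : κ w = 0) (k2 : κ y' = 0) (k3 : κ w' = 1) (k4 : κ y = 1) {i j : ZMod 2}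
    (hij : i + j = L.b x z a d) {f : V × ZMod 2 → ZMod 2}
    (hf : RC (lift L s) (x, i) (z, j) f)
    (hd : ∀ A D, (lift L s).S (x, i) (z, j) A D → f A = f D) :
    ∃ m, (∀ v, v ≠ x → v ≠ z → f (v, 0) + f (v, 1) = m * κ v) ∧
      (m = 0 → ∀ U U', U ≠ (x, i) → U ≠ (z, j) → U' ≠ (x, i) → U' ≠ (z, j) → f U = f U') := by
  have hxz : x ≠ z := fun e => hh (by rw [e])
  obtain ⟨ht, hht, -, hsum⟩ := mix_ht hL hxz hM hE i j
  obtain ⟨c1, c2, c3, c4, c5, c6⟩ := mix_cl hL hM hij hht hsum hf rfl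
  obtain ⟨j1, j3⟩ := rc_junction hL hM.s1 hf
  obtain ⟨j2, j4⟩ := rc_junction hL hM.s2 hf
  have hij' : i + j = L.b x z a' d' + 1 := q1_bit _ _ _ _ hij hM.bit
  have e1 := hd _ _ (lift_S_spec (s := s) (k := j + L.b z w' x y' + ht w' + ht a')
    (l := j + L.b z w' x y' + ht w' + ht a' + L.b a' d' x z + 1) hM.t2 hij' (q1_k1 _ _))
  have e2 := hd _ _ (lift_S_spec (s := s) (k := j + L.b z w' x y' + ht w' + ht a' + 1)
    (l := j + L.b z w' x y' + ht w' + ht a' + L.b a' d' x z) hM.t2 hij' (q1_k2 _ _))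
  -- the values
  have g1w' : f (w', j + L.b z w' x y') = f (x, i + 1) := j4.symm
  have g1w : f (w, j + L.b z w x y) = f (x, i + 1) := j3.symm
  have g1w1 : f (w, j + L.b z w x y + 1) = f (x, i + 1) := c5.symm
  have g1z : f (z, j + 1) = f (x, i + 1) := by rw [c6, ← c2, ← e1, ← c1, ← c5]
  have g1y : f (y, i + L.b x y z w) = f (x, i + 1) := by rw [← j1]; exact g1z
  have g1y' : f (y', i + L.b x y' z w') = f (x, i + 1) := by rw [← j2]; exact g1z
  have g1y'1 : f (y', i + L.b x y' z w' + 1) = f (x, i + 1) := by rw [← c6]; exact g1z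
  have g2 : f (w', j + L.b z w' x y' + 1) = f (y, i + L.b x y z w + 1) := by
    rw [c3, e2, c4]
  set g : ZMod 2 := f (x, i + 1) with hg
  set g' : ZMod 2 := f (y, i + L.b x y z w + 1) with hg'
  have φw : f (w, 0) + f (w, 1) = 0 := by
    rw [← q1_pair (fun l => f (w, l)) (j + L.b z w x y)]
    show f (w, j + L.b z w x y) + f (w, j + L.b z w x y + 1) = 0
    rw [g1w, g1w1, z2_add_self]
  have φy' : f (y', 0) + f (y', 1) = 0 := by
    rw [← q1_pair (fun l => f (y', l)) (i + L.b x y' z w')]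
    show f (y', i + L.b x y' z w') + f (y', i + L.b x y' z w' + 1) = 0
    rw [g1y', g1y'1, z2_add_self]
  have φw' : f (w', 0) + f (w', 1) = g + g' := by
    rw [← q1_pair (fun l => f (w', l)) (j + L.b z w' x y')]
    show f (w', j + L.b z w' x y') + f (w', j + L.b z w' x y' + 1) = g + g'
    rw [g1w', g2]
  have φy : f (y, 0) + f (y, 1) = g + g' := by
    rw [← q1_pair (fun l => f (y, l)) (i + L.b x y z w)]
    show f (y, i + L.b x y z w) + f (y, i + L.b x y z w + 1) = g + g'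
    rw [g1y]
  have hφ := q1_phi hht hf
  refine ⟨g + g', fun v hv1 hv2 => ?_, fun hm => ?_⟩
  · apply q1_eq0
    have hR : RC L x z (fun v => f (v, 0) + f (v, 1) + (g + g') * κ v) := fun p q hpq => by
      have h1 : f (p, 0) + f (p, 1) = f (q, 0) + f (q, 1) := hφ p q hpq
      have h2 := hκ p q hpq
      show f (p, 0) + f (p, 1) + (g + g') * κ p = f (q, 0) + f (q, 1) + (g + g') * κ q
      rw [h1, h2]
    refine hM.van _ hR ?_ ?_ ?_ ?_ v hv1 hv2
    · show f (w, 0) + f (w, 1) + (g + g') * κ w = 0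
      rw [φw, k1, mul_zero, add_zero]
    · show f (w', 0) + f (w', 1) + (g + g') * κ w' = 0
      rw [φw', k3, mul_one, z2_add_self]
    · show f (y, 0) + f (y, 1) + (g + g') * κ y = 0
      rw [φy, k4, mul_one, z2_add_self]
    · show f (y', 0) + f (y', 1) + (g + g') * κ y' = 0
      rw [φy', k2, mul_zero, add_zero]
  · have hgg : g' = g := (q1_eq0 _ _ hm).symm
    have hR : RC (lift L s) (x, i) (z, j) (fun U => f U + g) := fun p q hpq => by
      show f p + g = f q + g
      rw [hf p q hpq]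
    have hv := mix_van hL hM hij hht hsum hR
      (by show f (w, j + L.b z w x y + 1) + g = 0
          rw [g1w1, z2_add_self])
      (by show f (w', j + L.b z w' x y' + 1) + g = 0
          rw [g2, hgg, z2_add_self])
      (by show g' + g = 0
          rw [hgg, z2_add_self])
      (by show f (y', i + L.b x y' z w' + 1) + g = 0
          rw [g1y'1, z2_add_self])
    intro U U' hU1 hU2 hU'1 hU'2
    rw [q1_eq0 _ _ (hv U hU1 hU2), q1_eq0 _ _ (hv U' hU'1 hU'2)]

end Pool.Agent.Lib.H97Z
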