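import Pool.Agent.Lib.H97Z.N1
import Pool.Agent.Lib.H97Z.N3

/-! Chunk Q2: functions on a lifted boundary link which respect the diagonal blocks -/

set_option autoImplicit false

namespace Pool.Agent.Lib.H97Z

variable {V : Type} [Fintype V] [DecidableEq V] {L : Lev V} {s : Finset V → ZMod 2}

theorem q2_pair (g : ZMod 2 → ZMod 2) (l : ZMod 2) : g l + g (l + 1) = g 0 + g 1 := by
  rcases z2_cases l with rfl | rfl
  · rw [zero_add]
  · rw [show (1 : ZMod 2) + 1 = 0 from rfl, add_comm]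

theorem q2_pair' (g : ZMod 2 → ZMod 2) (l : ZMod 2) : g (0 + l) + g (1 + l) = g 0 + g 1 := by
  rw [zero_add, add_comm 1 l]
  exact q2_pair g l

/-- The sum over the fibre is constant along the regular edges. -/
theorem q2_phi {x z : V} {i j : ZMod 2} {ht : V → ZMod 2}
    (hht : ∀ u v, L.R x z u v → ht u + ht v = s {x, z, u, v} + (i + j))
    {f : V × ZMod 2 → ZMod 2} (hf : RC (lift L s) (x, i) (z, j) f) :
    RC L x z (fun v => f (v, 0) + f (v, 1)) := by
  intro u v huv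
  have h0 := lift_fun hf hht 0 u v huv
  have h1 := lift_fun hf hht 1 u v huv
  have hu := q2_pair' (fun l => f (u, l)) (ht u)
  have hv := q2_pair' (fun l => f (v, l)) (ht v)
  change f (u, 0) + f (u, 1) = f (v, 0) + f (v, 1)
  rw [← hu, ← hv]
  exact congrArg₂ (· + ·) h0 h1

theorem q2_eq0 : ∀ a b : ZMod 2, a + b = 0 → a = b := by decide

theorem q2_k1 : ∀ k b : ZMod 2, k + (k + b + 1) = b + 1 := by decide

theorem q2_k2 : ∀ k b : ZMod 2, k + 1 + (k + b) = b + 1 := by decide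

theorem q2_c1 : ∀ t c b : ZMod 2, t = c + 1 → c = b + 1 → t = b := by decide


/-- Boundary pairs, `i + j = L.c x z + 1`.
PROOF. `bd1_cl` and `hd` for the block `(x, i) (z, j) (x, i+1) (z, j+1)` (`lift_S_bd`): `f` has the same value `g` at
`(w, j+B+1)`, `(x, i+1)`, `(z, j+1)`, `(y, i+A+1)`.  `f + g` is `RC` and vanishes at the two side vertices, so
everywhere (`bd1_van`; `ht` from `bd_ht`). -/
theorem bd_rd1 (hL : Good L) {x z y w a d : V} (hF : L.F x z) (hM : BdAt L x z y w a d)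
    (hE : EqB L s x z y w a d) {i j : ZMod 2} (hij : i + j = L.c x z + 1)
    {f : V × ZMod 2 → ZMod 2} (hf : RC (lift L s) (x, i) (z, j) f)
    (hd : ∀ A D, (lift L s).S (x, i) (z, j) A D → f A = f D) :
    ∀ U U', U ≠ (x, i) → U ≠ (z, j) → U' ≠ (x, i) → U' ≠ (z, j) → f U = f U' := by
  have hxz : x ≠ z := hL.Fne hF
  obtain ⟨ht, hht, -⟩ := bd_ht hL hxz hM hE i j
  have hb : i + j = L.b x z a d := q2_c1 _ _ _ hij hM.c
  obtain ⟨c1, c2⟩ := bd1_cl hL hM hb hht hf
  have e1 := hd _ _ (lift_S_bd (s := s) hF hij)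
  set g : ZMod 2 := f (x, i + 1) with hg
  have hR : RC (lift L s) (x, i) (z, j) (fun U => f U + g) := fun p q hpq => by
    show f p + g = f q + g
    rw [hf p q hpq]
  have hv := bd1_van hL hM hb hht hR
    (by show f (w, j + L.b z w x y + 1) + g = 0
        rw [c1, z2_add_self])
    (by show f (y, i + L.b x y z w + 1) + g = 0
        rw [← c2, ← e1, z2_add_self])
  intro U U' hU1 hU2 hU'1 hU'2
  rw [q2_eq0 _ _ (hv U hU1 hU2), q2_eq0 _ _ (hv U' hU'1 hU'2)]

/-- Boundary pairs, `i + j = L.c x z`.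
PROOF. `bd2_cl` and `hd` for the special lifts `(a, k) (d, k+b+1)`, `(a, k+1) (d, k+b)`: with
`g₁ := f (z, j+1)`, `g₂ := f (x, i+1)`: `f (w, j+B+1) = f (a, k) = f (d, k+b+1) = g₁`,
`f (a, k+1) = f (d, k+b) = f (y, i+A+1) = g₂`; `f (w, j+B) = g₂`, `f (y, i+A) = g₁` (`rc_junction`).  So
`φ v := f (v, 0) + f (v, 1)` is `g₁ + g₂` at `w` and `y`, it is `RC`, and so `φ + (g₁ + g₂)`, which is `RC` too,
vanishes (`BdAt.van`): `m := g₁ + g₂`.  If `m = 0` then `f + g₁` vanishes at the four side vertices: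
`bd2_van`. -/
theorem bd_rd2 (hL : Good L) {x z y w a d : V} (hF : L.F x z) (hM : BdAt L x z y w a d)
    (hE : EqB L s x z y w a d) {i j : ZMod 2} (hij : i + j = L.c x z)
    {f : V × ZMod 2 → ZMod 2} (hf : RC (lift L s) (x, i) (z, j) f)
    (hd : ∀ A D, (lift L s).S (x, i) (z, j) A D → f A = f D) :
    ∃ m, (∀ v, v ≠ x → v ≠ z → f (v, 0) + f (v, 1) = m) ∧
      (m = 0 → ∀ U U', U ≠ (x, i) → U ≠ (z, j) → U' ≠ (x, i) → U' ≠ (z, j) → f U = f U') := by
  have hxz : x ≠ z := hL.Fne hF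
  obtain ⟨ht, hht, hsum⟩ := bd_ht hL hxz hM hE i j
  have hb : i + j = L.b x z a d + 1 := hij.trans hM.c
  obtain ⟨c1, c2, c3, c4⟩ := bd2_cl hL hM hb hht hsum hf rfl
  obtain ⟨j1, j3⟩ := rc_junction hL hM.s1 hf
  have e1 := hd _ _ (lift_S_spec (s := s) (k := j + L.b z w x y + 1 + ht w + ht a)
    (l := j + L.b z w x y + 1 + ht w + ht a + L.b a d x z + 1) hM.t1 hb (q2_k1 _ _))
  have e2 := hd _ _ (lift_S_spec (s := s) (k := j + L.b z w x y + 1 + ht w + ht a + 1)
    (l := j + L.b z w x y + 1 + ht w + ht a + L.b a d x z) hM.t1 hb (q2_k2 _ _))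
  have g1w : f (w, j + L.b z w x y + 1) = f (z, j + 1) := by rw [c1, e1, c2]
  have g2y : f (y, i + L.b x y z w + 1) = f (x, i + 1) := by rw [← c4, ← e2, ← c3]
  have g2w : f (w, j + L.b z w x y) = f (x, i + 1) := j3.symm
  have g1y : f (y, i + L.b x y z w) = f (z, j + 1) := j1.symm
  set g : ZMod 2 := f (z, j + 1) with hg
  set g' : ZMod 2 := f (x, i + 1) with hg'
  have φw : f (w, 0) + f (w, 1) = g + g' := by
    rw [← q2_pair (fun l => f (w, l)) (j + L.b z w x y)]
    show f (w, j + L.b z w x y) + f (w, j + L.b z w x y + 1) = g + g'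
    rw [g1w, g2w, add_comm]
  have φy : f (y, 0) + f (y, 1) = g + g' := by
    rw [← q2_pair (fun l => f (y, l)) (i + L.b x y z w)]
    show f (y, i + L.b x y z w) + f (y, i + L.b x y z w + 1) = g + g'
    rw [g1y, g2y]
  have hφ := q2_phi hht hf
  refine ⟨g + g', fun v hv1 hv2 => ?_, fun hm => ?_⟩
  · apply q2_eq0
    have hR : RC L x z (fun v => f (v, 0) + f (v, 1) + (g + g')) := fun p q hpq => by
      have h1 : f (p, 0) + f (p, 1) = f (q, 0) + f (q, 1) := hφ p q hpq
      show f (p, 0) + f (p, 1) + (g + g') = f (q, 0) + f (q, 1) + (g + g')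
      rw [h1]
    refine hM.van _ hR ?_ ?_ v hv1 hv2
    · show f (w, 0) + f (w, 1) + (g + g') = 0
      rw [φw, z2_add_self]
    · show f (y, 0) + f (y, 1) + (g + g') = 0
      rw [φy, z2_add_self]
  · have hgg : g' = g := (q2_eq0 _ _ hm).symm
    have hR : RC (lift L s) (x, i) (z, j) (fun U => f U + g) := fun p q hpq => by
      show f p + g = f q + g
      rw [hf p q hpq]
    have hv := bd2_van hL hM hht hR
      (by show f (w, j + L.b z w x y + 1) + g = 0
          rw [g1w, z2_add_self])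
      (by show g' + g = 0
          rw [hgg, z2_add_self])
      (by show f (y, i + L.b x y z w + 1) + g = 0
          rw [g2y, hgg, z2_add_self])
      (by show g + g = 0
          rw [z2_add_self])
    intro U U' hU1 hU2 hU'1 hU'2
    rw [q2_eq0 _ _ (hv U hU1 hU2), q2_eq0 _ _ (hv U' hU'1 hU'2)]

end Pool.Agent.Lib.H97Z
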