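import Pool.Agent.Lib.H97Z.Q1
import Pool.Agent.Lib.H97Z.Q2
import Pool.Agent.Lib.H97Z.B6

/-! Chunk Q3: functions on a lifted mixed link: summary -/

set_option autoImplicit false

namespace Pool.Agent.Lib.H97Z

variable {V : Type} [Fintype V] [DecidableEq V] {L : Lev V} {s : Finset V → ZMod 2}

theorem q3_eq0 : ∀ a b : ZMod 2, a = b → a + b = 0 := by decide

theorem q3_bit : ∀ t b b' : ZMod 2, t ≠ b → b + b' = 1 → t = b' := by decide

theorem q3_c : ∀ t c : ZMod 2, t ≠ c + 1 → t = c := by decide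

/-- The complement of an `RC` function is `RC`. -/
theorem q3_compl {x z : V} {κ : V → ZMod 2} (h : RC L x z κ) : RC L x z (fun v => κ v + 1) :=
  fun p q hpq => by
    show κ p + 1 = κ q + 1
    rw [h p q hpq]

theorem q3_one : (1 : ZMod 2) + 1 = 0 := rfl

theorem q3_ne {x v : V} {i : ZMod 2} (hx : v ≠ x) (l : ZMod 2) :
    ((v, l) : V × ZMod 2) ≠ (x, i) := fun e => hx (congrArg Prod.fst e)

/-- PROOF. If `L.F x z`: `t := L.c x z + 1`, `bd_rd1` (`(v, 0)`, `(v, 1)` have the same value).  Otherwise `Sol.m` gives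
the data and `kappa` gives `κ`.  If `κ v = 0`: `t := L.b x z a d`, `mix_rd`.  If `κ v = 1`: `t := L.b x z a' d'` and
`mix_rd` with `MixAt.swap`, `EqM.swap` and `κ + 1`. -/
theorem rd_par (hL : Good L) (hS : Sol L s) {x z v : V} (hh : L.hue x ≠ L.hue z) (hx : v ≠ x)
    (hz : v ≠ z) : ∃ t, ∀ i j, i + j = t → ∀ f : V × ZMod 2 → ZMod 2,
      RC (lift L s) (x, i) (z, j) f →
      (∀ A D, (lift L s).S (x, i) (z, j) A D → f A = f D) → f (v, 0) + f (v, 1) = 0 := by
  by_cases hF : L.F x z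
  · obtain ⟨y, w, a, d, hM, hE⟩ := hS.f x z hF
    refine ⟨L.c x z + 1, fun i j hij f hf hd => ?_⟩
    apply q3_eq0
    exact bd_rd1 hL hF hM hE hij hf hd _ _ (q3_ne hx 0) (q3_ne hz 0) (q3_ne hx 1) (q3_ne hz 1)
  · obtain ⟨y, w, y', w', a, d, a', d', hM, hE⟩ := hS.m x z hh hF
    obtain ⟨κ, hκ, k1, -, -, k2, k3, -, -, k4⟩ := kappa hL hh hM
    rcases z2_cases (κ v) with hv | hv
    · refine ⟨L.b x z a d, fun i j hij f hf hd => ?_⟩
      obtain ⟨m, h1, -⟩ := mix_rd hL hh hM hE hκ k1 k2 k3 k4 hij hf hd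
      rw [h1 v hx hz, hv, mul_zero]
    · refine ⟨L.b x z a' d', fun i j hij f hf hd => ?_⟩
      obtain ⟨m, h1, -⟩ := mix_rd hL hh hM.swap hE.swap (q3_compl hκ)
        (by show κ w' + 1 = 0
            rw [k3, q3_one])
        (by show κ y + 1 = 0
            rw [k4, q3_one])
        (by show κ w + 1 = 1
            rw [k1, zero_add])
        (by show κ y' + 1 = 1
            rw [k2, zero_add]) hij hf hd
      rw [h1 v hx hz, hv, q3_one, mul_zero]

/-- PROOF. `L.F x z`: `bd_rd1` or `bd_rd2` (`m = 0`).  Otherwise `mix_rd` for the data or the swapped data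
(`MixAt.bit`), `m = 0` because `κ w' = 1` (or `κ w + 1 = 1`) (`w', w ≠ x, z`). -/
theorem rd_const (hL : Good L) (hS : Sol L s) {x z : V} (hh : L.hue x ≠ L.hue z) {i j : ZMod 2}
    {f : V × ZMod 2 → ZMod 2} (hf : RC (lift L s) (x, i) (z, j) f)
    (hd : ∀ A D, (lift L s).S (x, i) (z, j) A D → f A = f D)
    (h0 : ∀ v, v ≠ x → v ≠ z → f (v, 0) + f (v, 1) = 0) :
    ∀ U U', U ≠ (x, i) → U ≠ (z, j) → U' ≠ (x, i) → U' ≠ (z, j) → f U = f U' := by
  by_cases hF : L.F x z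
  · obtain ⟨y, w, a, d, hM, hE⟩ := hS.f x z hF
    by_cases hc : i + j = L.c x z + 1
    · exact bd_rd1 hL hF hM hE hc hf hd
    · obtain ⟨m, h1, h2⟩ := bd_rd2 hL hF hM hE (q3_c _ _ hc) hf hd
      have hwx : w ≠ x := (hL.Sne_xw hM.s1).symm
      have hwz : w ≠ z := (hL.Sne_zw hM.s1).symm
      exact h2 ((h1 w hwx hwz).symm.trans (h0 w hwx hwz))
  · obtain ⟨y, w, y', w', a, d, a', d', hM, hE⟩ := hS.m x z hh hF
    obtain ⟨κ, hκ, k1, -, -, k2, k3, -, -, k4⟩ := kappa hL hh hM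
    by_cases hb : i + j = L.b x z a d
    · obtain ⟨m, h1, h2⟩ := mix_rd hL hh hM hE hκ k1 k2 k3 k4 hb hf hd
      have hwx : w' ≠ x := (hL.Sne_xw hM.s2).symm
      have hwz : w' ≠ z := (hL.Sne_zw hM.s2).symm
      apply h2
      have h3 := (h1 w' hwx hwz).symm.trans (h0 w' hwx hwz)
      rwa [k3, mul_one] at h3
    · obtain ⟨m, h1, h2⟩ := mix_rd hL hh hM.swap hE.swap (q3_compl hκ)
        (by show κ w' + 1 = 0
            rw [k3, q3_one])
        (by show κ y + 1 = 0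
            rw [k4, q3_one])
        (by show κ w + 1 = 1
            rw [k1, zero_add])
        (by show κ y' + 1 = 1
            rw [k2, zero_add]) (q3_bit _ _ _ hb hM.bit) hf hd
      have hwx : w ≠ x := (hL.Sne_xw hM.s1).symm
      have hwz : w ≠ z := (hL.Sne_zw hM.s1).symm
      apply h2
      have h3 := (h1 w hwx hwz).symm.trans (h0 w hwx hwz)
      rwa [k1, zero_add, mul_one] at h3

end Pool.Agent.Lib.H97Z
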