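import Pool.Agent.Lib.H97Z.Q3
import Pool.Agent.Lib.H97Z.K4

/-! Chunk Q4: the sums over one fibre -/

set_option autoImplicit false

namespace Pool.Agent.Lib.H97Z

variable {V : Type} [Fintype V] [DecidableEq V] {L : Lev V} {s : Finset V → ZMod 2}

theorem q4_eq0 : ∀ a b : ZMod 2, a + b = 0 → a = b := by decide

theorem q4_swap (M : ZMod 2 → ZMod 2 → ZMod 2) (t : ZMod 2) (ht : ∀ i j, i + j = t → M i j = 0)
    (h : M 0 0 + M 0 1 + (M 1 0 + M 1 1) = 0) (i j : ZMod 2) : M i j = M (i + 1) (j + 1) := by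
  have e : (1 : ZMod 2) + 1 = 0 := rfl
  rcases z2_cases t with rfl | rfl
  · have h0 := ht 0 0 rfl
    have h1 := ht 1 1 rfl
    rw [h0, h1, zero_add, add_zero] at h
    have h' := q4_eq0 _ _ h
    rcases z2_cases i with rfl | rfl <;> rcases z2_cases j with rfl | rfl <;>
      simp only [e, zero_add, h0, h1, h']
  · have h0 := ht 0 1 rfl
    have h1 := ht 1 0 rfl
    rw [h0, h1, zero_add, add_zero] at h
    have h' := q4_eq0 _ _ h
    rcases z2_cases i with rfl | rfl <;> rcases z2_cases j with rfl | rfl <;>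
      simp only [e, zero_add, h0, h1, h']

theorem q4_zero (M : ZMod 2 → ZMod 2 → ZMod 2) (t : ZMod 2) (ht : ∀ i j, i + j = t → M i j = 0)
    (hs : ∀ i j, M i j = M (i + 1) (j + 1)) (h : M 0 0 + M 0 1 = 0) (i j : ZMod 2) :
    M i j = 0 := by
  have e : (1 : ZMod 2) + 1 = 0 := rfl
  have h' := q4_eq0 _ _ h
  have h00 : M 0 0 = 0 := by
    rcases z2_cases t with rfl | rfl
    · exact ht 0 0 rfl
    · rw [h']
      exact ht 0 1 rfl
  have h01 : M 0 1 = 0 := by rw [← h']; exact h00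
  have h11 : M 1 1 = 0 := by
    have := hs 0 0
    rw [zero_add] at this
    rw [← this, h00]
  have h10 : M 1 0 = 0 := by
    have := hs 0 1
    rw [zero_add, e] at this
    rw [← this, h01]
  rcases z2_cases i with rfl | rfl <;> rcases z2_cases j with rfl | rfl <;> assumption

theorem q4_par (hL : Good L) (hS : Sol L s) {ρ₀' ρ₁' : Finset (V × ZMod 2)}
    {G : V × ZMod 2 → V × ZMod 2 → V × ZMod 2 → ZMod 2} {e₀ e₁ : ZMod 2}
    (hG : KG (lift L s) ρ₀' ρ₁' G e₀ e₁) {x z v : V} (hh : L.hue x ≠ L.hue z) (hx : v ≠ x)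
    (hz : v ≠ z) : ∃ t, ∀ i j, i + j = t → mm G (x, i) (z, j) v = 0 := by
  obtain ⟨t, ht⟩ := rd_par hL hS hh hx hz
  exact ⟨t, fun i j hij => ht i j hij (G (x, i) (z, j)) (fun u v h => hG.rc _ _ _ _ h)
    (fun A D h => hG.dia _ _ _ _ h)⟩


/-- PROOF. `KG.rc`, `KG.dia`: `G (x, i) (z, j) ·` satisfies the hypotheses of `rd_par`; let `t` be its parity.  If
`i + j = t` both sides are `0`.  Otherwise, by `hat_eq` and `h0`, the sum of the four `mm` is `0` and two of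
them are `0`. -/
theorem mm_swap (hL : Good L) (hS : Sol L s) {ρ₀' ρ₁' : Finset (V × ZMod 2)}
    {G : V × ZMod 2 → V × ZMod 2 → V × ZMod 2 → ZMod 2} {e₀ e₁ : ZMod 2}
    (hG : KG (lift L s) ρ₀' ρ₁' G e₀ e₁) {x z v : V} (hh : L.hue x ≠ L.hue z) (hx : v ≠ x)
    (hz : v ≠ z) (h0 : hat G x z v = 0) (i j : ZMod 2) :
    mm G (x, i) (z, j) v = mm G (x, i + 1) (z, j + 1) v := by
  obtain ⟨t, ht⟩ := q4_par hL hS hG hh hx hz
  rw [hat_eq, z2_sum, z2_sum, z2_sum] at h0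
  exact q4_swap (fun i j => mm G (x, i) (z, j) v) t ht h0 i j

/-- PROOF. Only one of `mm G (x, 0) (z, 0) v`, `mm G (x, 0) (z, 1) v` can be different from `0` (`rd_par`), and their
sum is `0`; `mm_swap` for the others. -/
theorem mm_zero (hL : Good L) (hS : Sol L s) {ρ₀' ρ₁' : Finset (V × ZMod 2)}
    {G : V × ZMod 2 → V × ZMod 2 → V × ZMod 2 → ZMod 2} {e₀ e₁ : ZMod 2}
    (hG : KG (lift L s) ρ₀' ρ₁' G e₀ e₁) {x z v : V} (hh : L.hue x ≠ L.hue z) (hx : v ≠ x)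
    (hz : v ≠ z) (h0 : hat G x z v = 0) (h1 : MM G x z v = 0) (i j : ZMod 2) :
    mm G (x, i) (z, j) v = 0 := by
  obtain ⟨t, ht⟩ := q4_par hL hS hG hh hx hz
  exact q4_zero (fun i j => mm G (x, i) (z, j) v) t ht
    (fun i j => mm_swap hL hS hG hh hx hz h0 i j) h1 i j

end Pool.Agent.Lib.H97Z
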