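import Pool.Agent.Lib.H97Z.Q4
import Pool.Agent.Lib.H97Z.K0

/-! Chunk Q5: the second dual vector -/

set_option autoImplicit false

namespace Pool.Agent.Lib.H97Z

variable {V : Type} [Fintype V] [DecidableEq V] {L : Lev V} {s : Finset V → ZMod 2}

theorem q5_shift (f : ZMod 2 → ZMod 2) (a : ZMod 2) : ∑ j : ZMod 2, f (a + j) = ∑ j, f j := by
  rw [← z2_sum_add f a]
  exact Finset.sum_congr rfl fun j _ => by rw [add_comm]

theorem q5_shift' (f : ZMod 2 → ZMod 2) (a b : ZMod 2) :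
    ∑ i : ZMod 2, f (a + i + b) = ∑ j, f j := by
  rw [← z2_sum_add f (a + b)]
  exact Finset.sum_congr rfl fun j _ => by rw [add_right_comm, add_comm]

/-- The mixed pairs. -/
theorem q5_mix (hL : Good L) (hS : Sol L s) {ρ₀' ρ₁' : Finset (V × ZMod 2)}
    {G : V × ZMod 2 → V × ZMod 2 → V × ZMod 2 → ZMod 2}
    (hG : KG (lift L s) ρ₀' ρ₁' G 0 0)
    (h0 : ∀ x z v, L.hue x ≠ L.hue z → v ≠ x → v ≠ z → hat G x z v = 0) {u v p : V}
    (hh : L.hue u ≠ L.hue v) (hpu : p ≠ u) (hpv : p ≠ v) :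
    ∑ i : ZMod 2, ∑ j : ZMod 2, G (u, i) (v, 0) (p, j) = GM L G u v p := by
  have hsw := mm_swap hL hS hG hh hpu hpv (h0 u v p hh hpu hpv) 1 0
  rw [show (1 : ZMod 2) + 1 = 0 from rfl, zero_add] at hsw
  unfold GM
  rw [if_neg hh]
  unfold MM
  rw [← hsw, z2_sum, z2_sum, z2_sum]
  rfl

/-- The pure pairs: the third argument does not matter. -/
theorem q5_pure {ρ₀' ρ₁' : Finset (V × ZMod 2)}
    {G : V × ZMod 2 → V × ZMod 2 → V × ZMod 2 → ZMod 2}
    (hG : KG (lift L s) ρ₀' ρ₁' G 0 0) {u v p : V} (huv : u ≠ v)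
    (hh : L.hue u = L.hue v) (hpu : p ≠ u) (hpv : p ≠ v) (i j k : ZMod 2) :
    G (u, i) (v, j) (p, k) = G (u, i) (v, j) (p, 0) :=
  hG.pure _ _ _ _ (fun e => huv (congrArg Prod.fst e)) hh (fun e => hpu (congrArg Prod.fst e))
    (fun e => hpv (congrArg Prod.fst e)) (fun e => hpu (congrArg Prod.fst e))
    (fun e => hpv (congrArg Prod.fst e))


/-- The relation for the second dual vector, minority vertex `w`.
PROOF. Sum `KG.rel` (right side `0`) over the four lifted blocks `(x, i) (y, j) (z, k) (w, 0)` with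
`k = s {x, y, z, w} + i + j`.  For the pure pairs `G` does not depend on the third argument (`KG.pure`):
`∑ G (x, i) (y, j) _ = Gam G x y (z, 0)`, and `(i, k)`, `(j, k)` run over all pairs of indices as well.  For the
mixed pair `x, w`: `∑ i, ∑ j, G (x, i) (w, 0) (y, j) = mm G (x, 0) (w, 0) y + mm G (x, 1) (w, 0) y`, and
`mm G (x, 1) (w, 0) y = mm G (x, 0) (w, 1) y` by `mm_swap`, so it is `MM G x w y`; the same for `y, w` (third
vertex `x`) and `z, w` (third vertex `x`, with `(k, i)` as indices). -/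
theorem GM_rel (hL : Good L) (hS : Sol L s) {ρ₀' ρ₁' : Finset (V × ZMod 2)}
    {G : V × ZMod 2 → V × ZMod 2 → V × ZMod 2 → ZMod 2}
    (hG : KG (lift L s) ρ₀' ρ₁' G 0 0)
    (h0 : ∀ x z v, L.hue x ≠ L.hue z → v ≠ x → v ≠ z → hat G x z v = 0) {x y z w : V}
    (h : L.R x y z w) (hxy : L.hue x = L.hue y) (hyz : L.hue y = L.hue z) :
    GM L G x y z + GM L G x z y + GM L G x w y + GM L G y z x + GM L G y w x + GM L G z w x = 0 := by
  have nxy := hL.Rne_xy h
  have nxz := hL.Rne_xz h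
  have nxw := hL.Rne_xw h
  have nyz := hL.Rne_yz h
  have nyw := hL.Rne_yw h
  have nzw := hL.Rne_zw h
  have hxz : L.hue x = L.hue z := hxy.trans hyz
  have hsum := hL.Rhue _ _ _ _ h
  have hxw : L.hue x ≠ L.hue w := by
    intro e
    rw [← hxy, ← hxz, ← e] at hsum
    generalize L.hue x = t at hsum
    revert t
    decide
  have hyw : L.hue y ≠ L.hue w := by rw [← hxy]; exact hxw
  have hzw : L.hue z ≠ L.hue w := by rw [← hxz]; exact hxw
  set σ : ZMod 2 := s {x, y, z, w} with hσ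
  have key : ∑ i : ZMod 2, ∑ j : ZMod 2, (G (x, i) (y, j) (z, σ + i + j) +
      G (x, i) (z, σ + i + j) (y, j) + G (x, i) (w, 0) (y, j) + G (y, j) (z, σ + i + j) (x, i) +
      G (y, j) (w, 0) (x, i) + G (z, σ + i + j) (w, 0) (x, i)) = 0 := by
    refine Finset.sum_eq_zero fun i _ => Finset.sum_eq_zero fun j _ => ?_
    have h1 : i + j + (σ + i + j) + 0 = s {x, y, z, w} := by
      rw [← hσ]
      generalize σ = t
      revert i j t
      decide
    have h2 := hG.rel _ _ _ _ (lift_R_reg (s := s) h h1)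
    rw [h2]
    simp
  simp only [Finset.sum_add_distrib] at key
  have e1 : ∑ i : ZMod 2, ∑ j : ZMod 2, G (x, i) (y, j) (z, σ + i + j) = GM L G x y z := by
    unfold GM
    rw [if_pos hxy]
    exact Finset.sum_congr rfl fun i _ => Finset.sum_congr rfl fun j _ =>
      q5_pure hG nxy hxy nxz.symm nyz.symm _ _ _
  have e2 : ∑ i : ZMod 2, ∑ j : ZMod 2, G (x, i) (z, σ + i + j) (y, j) = GM L G x z y := by
    unfold GM
    rw [if_pos hxz]
    refine Finset.sum_congr rfl fun i _ => ?_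
    rw [← q5_shift (fun k => G (x, i) (z, k) (y, 0)) (σ + i)]
    exact Finset.sum_congr rfl fun j _ => q5_pure hG nxz hxz nxy.symm nyz _ _ _
  have e3 : ∑ i : ZMod 2, ∑ j : ZMod 2, G (x, i) (w, 0) (y, j) = GM L G x w y :=
    q5_mix hL hS hG h0 hxw nxy.symm nyw
  have e4 : ∑ i : ZMod 2, ∑ j : ZMod 2, G (y, j) (z, σ + i + j) (x, i) = GM L G y z x := by
    unfold GM
    rw [if_pos hyz, Finset.sum_comm]
    refine Finset.sum_congr rfl fun j _ => ?_
    rw [← q5_shift' (fun k => G (y, j) (z, k) (x, 0)) σ j]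
    exact Finset.sum_congr rfl fun i _ => q5_pure hG nyz hyz nxy nxz _ _ _
  have e5 : ∑ i : ZMod 2, ∑ j : ZMod 2, G (y, j) (w, 0) (x, i) = GM L G y w x := by
    rw [Finset.sum_comm]
    exact q5_mix hL hS hG h0 hyw nxy nxw
  have e6 : ∑ i : ZMod 2, ∑ j : ZMod 2, G (z, σ + i + j) (w, 0) (x, i) = GM L G z w x := by
    rw [← q5_mix hL hS hG h0 hzw nxz nxw, Finset.sum_comm (s := Finset.univ) (t := Finset.univ)
      (f := fun k i => G (z, k) (w, 0) (x, i))]
    exact Finset.sum_congr rfl fun i _ => q5_shift (fun k => G (z, k) (w, 0) (x, i)) (σ + i)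
  rw [e1, e2, e3, e4, e5, e6] at key
  exact key

end Pool.Agent.Lib.H97Z
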