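import Pool.Agent.Lib.H97Z.Q5

/-! Chunk Q6: the second dual vector is constant on mixed pairs -/

set_option autoImplicit false

namespace Pool.Agent.Lib.H97Z

variable {V : Type} [Fintype V] [DecidableEq V] {L : Lev V} {s : Finset V → ZMod 2}

/-- The second dual vector, zero at the excluded third vertices. -/
def q6_G (L : Lev V) (G : V × ZMod 2 → V × ZMod 2 → V × ZMod 2 → ZMod 2) (x z v : V) : ZMod 2 :=
  if v = x ∨ v = z then 0 else GM L G x z v

theorem q6_eq (G : V × ZMod 2 → V × ZMod 2 → V × ZMod 2 → ZMod 2) {x z v : V} (hx : v ≠ x)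
    (hz : v ≠ z) : q6_G L G x z v = GM L G x z v := by
  unfold q6_G
  rw [if_neg]
  rintro (h | h)
  · exact hx h
  · exact hz h

theorem q6_ne {a b : V} (h : a ≠ b) (i j : ZMod 2) : ((a, i) : V × ZMod 2) ≠ (b, j) :=
  fun e => h (congrArg Prod.fst e)

theorem q6_Gam_sym {ρ₀' ρ₁' : Finset (V × ZMod 2)}
    {G : V × ZMod 2 → V × ZMod 2 → V × ZMod 2 → ZMod 2}
    (hG : KG (lift L s) ρ₀' ρ₁' G 0 0) (x z : V) (Y : V × ZMod 2) :
    Gam G x z Y = Gam G z x Y := by
  unfold Gam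
  rw [Finset.sum_comm]
  refine Finset.sum_congr rfl fun i _ => Finset.sum_congr rfl fun j _ => ?_
  exact hG.sym _ _ _

theorem q6_Gam_pure {ρ₀' ρ₁' : Finset (V × ZMod 2)}
    {G : V × ZMod 2 → V × ZMod 2 → V × ZMod 2 → ZMod 2}
    (hG : KG (lift L s) ρ₀' ρ₁' G 0 0) {x z u v : V} (hxz : x ≠ z) (hh : L.hue x = L.hue z)
    (hux : u ≠ x) (huz : u ≠ z) (hvx : v ≠ x) (hvz : v ≠ z) :
    Gam G x z (u, 0) = Gam G x z (v, 0) := by
  unfold Gam
  refine Finset.sum_congr rfl fun i _ => Finset.sum_congr rfl fun j _ => ?_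
  exact hG.pure _ _ _ _ (q6_ne hxz _ _) hh (q6_ne hux _ _) (q6_ne huz _ _) (q6_ne hvx _ _)
    (q6_ne hvz _ _)

/-- PROOF. `kg_of` for `fun x z v => if v = x ∨ v = z then 0 else GM L G x z v` with `e₀ = e₁ = 0`.  Symmetry: pure:
`KG.sym`; mixed: `MM G x z v = mm G (x,0) (z,0) v + mm G (x,0) (z,1) v`,
`MM G z x v = mm G (x,0) (z,0) v + mm G (x,1) (z,0) v` (`KG.sym`), equal by `mm_swap` for `v ≠ x, z`.
`hc`: `mm_rc`, and `KG.pure` for pure pairs; `hp`: `KG.pure`; `hd`: `mm_dia`; `hr`: `GM_rel`.  `KP` gives the claim. -/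
theorem MM_const (hL : Good L) (hS : Sol L s) {ρ₀ ρ₁ : Finset V} (hK : KP L ρ₀ ρ₁)
    {ρ₀' ρ₁' : Finset (V × ZMod 2)}
    {G : V × ZMod 2 → V × ZMod 2 → V × ZMod 2 → ZMod 2}
    (hG : KG (lift L s) ρ₀' ρ₁' G 0 0)
    (h0 : ∀ x z v, L.hue x ≠ L.hue z → v ≠ x → v ≠ z → hat G x z v = 0) :
    ∃ m, ∀ x z v, L.hue x ≠ L.hue z → v ≠ x → v ≠ z → MM G x z v = m := by
  have hmix : ∀ x z v, L.hue x ≠ L.hue z → v ≠ x → v ≠ z → q6_G L G x z v = MM G x z v := by
    intro x z v hh hx hz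
    rw [q6_eq G hx hz]
    unfold GM
    rw [if_neg hh]
  have hpur : ∀ x z v, L.hue x = L.hue z → v ≠ x → v ≠ z →
      q6_G L G x z v = Gam G x z (v, 0) := by
    intro x z v hh hx hz
    rw [q6_eq G hx hz]
    unfold GM
    rw [if_pos hh]
  have hkg : KG L ρ₀ ρ₁ (q6_G L G) 0 0 := by
    apply kg_of hL
    · intro x z v
      by_cases hx : v = x
      · unfold q6_G
        rw [if_pos (Or.inl hx), if_pos (Or.inr hx)]
      by_cases hz : v = z
      · unfold q6_G
        rw [if_pos (Or.inr hz), if_pos (Or.inl hz)]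
      by_cases hh : L.hue x = L.hue z
      · rw [hpur x z v hh hx hz, hpur z x v hh.symm hz hx, q6_Gam_sym hG]
      · rw [hmix x z v hh hx hz, hmix z x v (fun e => hh e.symm) hz hx]
        unfold MM
        have e1 : ∀ i j : ZMod 2, mm G (z, i) (x, j) v = mm G (x, j) (z, i) v := by
          intro i j
          unfold mm
          rw [hG.sym, hG.sym (z, i) (x, j) (v, 1)]
        rw [e1, e1]
        have e2 := mm_swap hL hS hG hh hx hz (h0 x z v hh hx hz) 0 1
        rw [show (0 : ZMod 2) + 1 = 1 from rfl, show (1 : ZMod 2) + 1 = 0 from rfl] at e2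
        rw [e2]
    · intro x z u v h
      have hux := (hL.Rne_xz h).symm
      have huz := (hL.Rne_yz h).symm
      have hvx := (hL.Rne_xw h).symm
      have hvz := (hL.Rne_yw h).symm
      by_cases hh : L.hue x = L.hue z
      · rw [hpur x z u hh hux huz, hpur x z v hh hvx hvz]
        exact q6_Gam_pure hG (hL.Rne_xy h) hh hux huz hvx hvz
      · rw [hmix x z u hh hux huz, hmix x z v hh hvx hvz]
        unfold MM
        rw [mm_rc hG h, mm_rc hG h]
    · intro x z u v hxz hh hux huz hvx hvz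
      rw [hpur x z u hh hux huz, hpur x z v hh hvx hvz]
      exact q6_Gam_pure hG hxz hh hux huz hvx hvz
    · intro x z a d h
      have hh := hL.Shue _ _ _ _ h
      rw [hmix x z a hh (hL.Sne_xz h).symm (hL.Sne_yz h).symm,
        hmix x z d hh (hL.Sne_xw h).symm (hL.Sne_yw h).symm]
      unfold MM
      rw [mm_dia hL hG h, mm_dia hL hG h]
    · intro x y z w h hxy hyz
      have nxy := hL.Rne_xy h
      have nxz := hL.Rne_xz h
      have nxw := hL.Rne_xw h
      have nyz := hL.Rne_yz h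
      have nyw := hL.Rne_yw h
      have nzw := hL.Rne_zw h
      rw [q6_eq G nxz.symm nyz.symm, q6_eq G nxy.symm nyz, q6_eq G nxy.symm nyw,
        q6_eq G nxy nxz, q6_eq G nxy nxw, q6_eq G nxz nxw, GM_rel hL hS hG h0 h hxy hyz]
      simp
  obtain ⟨-, -, m, hm⟩ := hK _ _ _ hkg
  refine ⟨m, fun x z v hh hx hz => ?_⟩
  rw [← hmix x z v hh hx hz]
  exact hm x z v hh hx hz

end Pool.Agent.Lib.H97Z
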