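import Pool.Agent.Lib.H97Z.Q3
import Pool.Agent.Lib.H97Z.K1

/-! Chunk Q7: dual vectors of the lift which do not depend on the third vertex -/

set_option autoImplicit false

namespace Pool.Agent.Lib.H97Z

variable {V : Type} [Fintype V] [DecidableEq V] {L : Lev V} {s : Finset V → ZMod 2}

/-- PROOF. For a mixed pair `X, Z` (so `X.1 ≠ Z.1`): `rd_const` (`KG.rc`, `KG.dia`, `hmm`): `G X Z ·` is constant away from
`X, Z`.  For a pure pair: `KG.pure`.  For `X ≠ Z` choose a vertex `t X Z ≠ X, Z` (there are at least `16`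
vertices, `Good.big`) and put `g X Z := G X Z (t X Z)`; then `G X Z U = g X Z` for all `U ≠ X, Z`; `g` is symmetric
for `X ≠ Z`; put `g X X := 0`.  `Flat.rel`: `KG.rel`, the vertices of a regular block are distinct
(`Good.Rne_xy` ... for `hL'`). -/
theorem exists_flat (hL : Good L) (hL' : Good (lift L s)) (hS : Sol L s)
    {ρ₀' ρ₁' : Finset (V × ZMod 2)}
    {G : V × ZMod 2 → V × ZMod 2 → V × ZMod 2 → ZMod 2}
    (hG : KG (lift L s) ρ₀' ρ₁' G 0 0)
    (hmm : ∀ x z v i j, L.hue x ≠ L.hue z → v ≠ x → v ≠ z → mm G (x, i) (z, j) v = 0) :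
    ∃ g, Flat (lift L s) g ∧ ∀ X Z U, X ≠ Z → U ≠ X → U ≠ Z → G X Z U = g X Z := by
  classical
  -- a third vertex
  have ht : ∀ X Z : V × ZMod 2, ∃ U, U ≠ X ∧ U ≠ Z := by
    intro X Z
    by_contra hcon
    push Not at hcon
    have hsub : (Finset.univ.filter fun v => (lift L s).hue v = 0) ⊆ {X, Z} := by
      intro U _
      rw [Finset.mem_insert, Finset.mem_singleton]
      by_cases hU : U = X
      · exact Or.inl hU
      · exact Or.inr (hcon U hU)
    have h1 := Finset.card_le_card hsub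
    have h2 := hL'.big 0
    have h3 := Finset.card_le_two (a := X) (b := Z)
    omega
  choose t ht1 ht2 using ht
  have hconst : ∀ X Z U U', X ≠ Z → U ≠ X → U ≠ Z → U' ≠ X → U' ≠ Z → G X Z U = G X Z U' := by
    intro X Z U U' hXZ h1 h2 h3 h4
    by_cases hh : L.hue X.1 = L.hue Z.1
    · exact hG.pure X Z U U' hXZ hh h1 h2 h3 h4
    · obtain ⟨x, i⟩ := X
      obtain ⟨z, j⟩ := Z
      exact rd_const hL hS hh (f := G (x, i) (z, j)) (fun u v h => hG.rc _ _ _ _ h)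
        (fun A D h => hG.dia _ _ _ _ h) (fun v hx hz => hmm x z v i j hh hx hz) U U' h1 h2 h3 h4
  have hg : ∀ X Z U, X ≠ Z → U ≠ X → U ≠ Z →
      G X Z U = if X = Z then 0 else G X Z (t X Z) := by
    intro X Z U hXZ h1 h2
    rw [if_neg hXZ]
    exact hconst X Z U _ hXZ h1 h2 (ht1 X Z) (ht2 X Z)
  refine ⟨fun X Z => if X = Z then 0 else G X Z (t X Z), ⟨fun X Z => ?_, fun X Y Z W h => ?_⟩, hg⟩
  · show (if X = Z then 0 else G X Z (t X Z)) = if Z = X then 0 else G Z X (t Z X)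
    by_cases hXZ : X = Z
    · rw [if_pos hXZ, if_pos hXZ.symm]
    · rw [if_neg hXZ, ← hg Z X (t X Z) (fun e => hXZ e.symm) (ht2 X Z) (ht1 X Z), hG.sym]
  · have hr := hG.rel _ _ _ _ h
    rw [hg X Y Z (hL'.Rne_xy h) (hL'.Rne_xz h).symm (hL'.Rne_yz h).symm,
      hg X Z Y (hL'.Rne_xz h) (hL'.Rne_xy h).symm (hL'.Rne_yz h),
      hg X W Y (hL'.Rne_xw h) (hL'.Rne_xy h).symm (hL'.Rne_yw h),
      hg Y Z X (hL'.Rne_yz h) (hL'.Rne_xy h) (hL'.Rne_xz h),
      hg Y W X (hL'.Rne_yw h) (hL'.Rne_xy h) (hL'.Rne_xw h),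
      hg Z W X (hL'.Rne_zw h) (hL'.Rne_xz h) (hL'.Rne_xw h)] at hr
    simp only [ite_self, add_zero] at hr
    exact hr

end Pool.Agent.Lib.H97Z
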