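import Pool.Agent.Lib.H97Z.W4

/-! Chunk W7: flat vectors of the lift: the constant coefficients -/

set_option autoImplicit false

namespace Pool.Agent.Lib.H97Z

variable {V : Type} [Fintype V] [DecidableEq V] {L : Lev V} {s : Finset V → ZMod 2}

/-- PROOF. `Flat.rel` for the block `(z, 0) (z, 1) (x, i) (y, i + p)`, `p = L.b x y z w`, `i = 0` (`lift_R_fib`), and
`g_affine`: `g (z, 0) (x, 0) + g (z, 1) (x, 0) = aa g z x`, the same for `y`, and
`g (x, 0) (y, p) = cc g x y + p * aa g y x = cc g x y + p * (α x + α y)`.  One of `x, y` has the hue of `z`: if it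
is `x`: `aa g z x = α z + α x + θ (L.hue z) + t z`, `aa g z y = α z + α y`; if it is `y` the same with `x, y`
exchanged. -/
theorem cc_formula (hL : Good L) {g : V × ZMod 2 → V × ZMod 2 → ZMod 2}
    (hg : Flat (lift L s) g) {α t : V → ZMod 2} {θ : ZMod 2 → ZMod 2}
    (h1 : ∀ x z, x ≠ z → L.hue x = L.hue z → aa g x z = α x + α z + θ (L.hue x) + t x)
    (h2 : ∀ x z, L.hue x ≠ L.hue z → aa g x z = α x + α z) {x y z w : V}
    (h : L.S x y z w) :
    cc g x y = g (z, 0) (z, 1) + θ (L.hue z) + t z + (α x + α y) * (1 + L.b x y z w) := by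
  have e := hg.rel _ _ _ _ (lift_R_fib (s := s) (i := 0) (j := L.b x y z w) (k := 0) (k' := 1)
    h (by rw [zero_add]) (by decide))
  have hxy := hL.Sne_xy h
  have hxz := hL.Sne_xz h
  have hyz := hL.Sne_yz h
  have hhue := hL.Shue _ _ _ _ h
  rw [g_affine hL hg (Ne.symm hxz) 0 0, g_affine hL hg (Ne.symm hyz) 0, g_affine hL hg
    (Ne.symm hxz) 1 0, g_affine hL hg (Ne.symm hyz) 1, g_affine hL hg hxy 0] at e
  have e1 := h2 y x (Ne.symm hhue)
  rw [e1] at e
  have two : (2 : ZMod 2) = 0 := rfl
  by_cases hh : L.hue z = L.hue x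
  · rw [h1 z x (Ne.symm hxz) hh, h2 z y (by rw [hh]; exact hhue)] at e
    linear_combination e - (g (z, 0) (z, 1) + α z + α x + α y + θ (L.hue z) + t z +
      cc g z x + cc g z y + aa g y z * L.b x y z w +
      (α x + α y) * L.b x y z w) * two
  · have hh2 : L.hue z = L.hue y := by
      revert hh hhue
      generalize L.hue x = a
      generalize L.hue y = b
      generalize L.hue z = c
      revert a b c
      decide
    rw [h1 z y (Ne.symm hyz) hh2, h2 z x hh] at e
    linear_combination e - (g (z, 0) (z, 1) + α z + α x + α y + θ (L.hue z) + t z +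
      cc g z x + cc g z y + aa g y z * L.b x y z w +
      (α x + α y) * L.b x y z w) * two

end Pool.Agent.Lib.H97Z
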