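import Pool.Agent.Lib.H97Z.W6
import Pool.Agent.Lib.H97Z.W7

/-! Chunk W8: flat vectors of the lift: conclusion -/

set_option autoImplicit false

namespace Pool.Agent.Lib.H97Z

variable {V : Type} [Fintype V] [DecidableEq V] {L : Lev V} {s : Finset V → ZMod 2}

theorem w8_cancel : ∀ c f f' a b : ZMod 2, c = f + a * (1 + b) → c = f' + a * (1 + b) →
    f = f' := by decide

theorem w8_bits : ∀ c f a b b' : ZMod 2, c = f + a * (1 + b) → c = f + a * (1 + b') →
    b + b' = 1 → a = 0 := by decide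

theorem w8_eq : ∀ a b : ZMod 2, a + b = 0 → a = b := by decide


/-- PROOF. `aa_structure`; `Φ z := g (z, 0) (z, 1) + θ (L.hue z) + t z`.  `cc_formula` for `L.S x y z w` and `L.S x y w z`
(`Good.b34`): `Φ z = Φ w`.  Every mixed pair `z, w` is the diagonal of a special block (`MixAt.t1` or `BdAt.t1`), so
`Φ z = Φ w` for all mixed pairs, and `Φ = φ` is constant (both hues occur, `Good.big`).  For a mixed pair
`x, y` which is not a boundary pair: the two blocks `L.S x y a d`, `L.S x y a' d'` have different bits, so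
`α x + α y = 0`; `Good.conn`: `α` is constant.  So `aa g x z = 0` on the mixed pairs, and by `cc_formula`
`cc g x y = φ` on the mixed pairs; with `g_affine`: `g X Z = φ`. -/
theorem flat_const (hL : Good L) (hSC : SC L)
    {g : V × ZMod 2 → V × ZMod 2 → ZMod 2} (hg : Flat (lift L s) g) :
    ∃ φ, ∀ X Z : V × ZMod 2, L.hue X.1 ≠ L.hue Z.1 → g X Z = φ := by
  obtain ⟨α, t, θ, h1, h2⟩ := aa_structure hL hSC hg
  have hcc : ∀ x y z w, L.S x y z w → cc g x y = g (z, 0) (z, 1) + θ (L.hue z) + t z +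
      (α x + α y) * (1 + L.b x y z w) := fun x y z w h => cc_formula hL hg h1 h2 h
  -- every mixed pair is a diagonal
  have hdiag : ∀ x y, L.hue x ≠ L.hue y → ∃ a d, L.S x y a d := by
    intro x y hh
    by_cases hF : L.F x y
    · obtain ⟨_, _, a, d, hM⟩ := hL.bd x y hF
      exact ⟨a, d, hM.t1⟩
    · obtain ⟨_, _, _, _, a, d, _, _, hM⟩ := hL.mix x y hh hF
      exact ⟨a, d, hM.t1⟩
  have hΦ : ∀ z w, L.hue z ≠ L.hue w → g (z, 0) (z, 1) + θ (L.hue z) + t z =
      g (w, 0) (w, 1) + θ (L.hue w) + t w := by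
    intro z w hh
    obtain ⟨x, y, h⟩ := hdiag z w hh
    have h' : L.S x y z w := hL.S_zwxy h
    have e1 := hcc _ _ _ _ h'
    have e2 := hcc _ _ _ _ (hL.S_xywz h')
    rw [hL.b34 x y w z] at e2
    exact w8_cancel _ _ _ _ _ e1 e2
  obtain ⟨a₀, ha₀⟩ := c8_base hL 0
  obtain ⟨b₀, hb₀⟩ := c8_base hL 1
  have hab : L.hue a₀ ≠ L.hue b₀ := by rw [ha₀, hb₀]; decide
  have hconst : ∀ z, g (z, 0) (z, 1) + θ (L.hue z) + t z =
      g (a₀, 0) (a₀, 1) + θ (L.hue a₀) + t a₀ := by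
    intro z
    by_cases hz : L.hue z = L.hue a₀
    · rw [hΦ a₀ b₀ hab]
      exact hΦ z b₀ (by rw [hz]; exact hab)
    · exact hΦ z a₀ hz
  have hα : ∀ x z, α x = α z := by
    apply hL.conn
    intro x z hh hF
    obtain ⟨_, _, _, _, a, d, a', d', hM⟩ := hL.mix x z hh hF
    have e1 := hcc _ _ _ _ hM.t1
    have e2 := hcc _ _ _ _ hM.t2
    rw [hconst] at e1 e2
    exact w8_eq _ _ (w8_bits _ _ _ _ _ e1 e2 hM.bit)
  refine ⟨g (a₀, 0) (a₀, 1) + θ (L.hue a₀) + t a₀, ?_⟩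
  rintro ⟨x, i⟩ ⟨z, j⟩ hh
  have hxz : x ≠ z := fun e => hh (by rw [e])
  change L.hue x ≠ L.hue z at hh
  rw [g_affine hL hg hxz, h2 x z hh, h2 z x (Ne.symm hh), hα z x, z2_add_self]
  obtain ⟨a, d, h⟩ := hdiag x z hh
  rw [hcc _ _ _ _ h, hconst, hα z x, z2_add_self]
  ring

end Pool.Agent.Lib.H97Z
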