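import Pool.Agent.Lib.H97Z.Q7
import Pool.Agent.Lib.H97Z.W8
import Pool.Agent.Lib.H97Z.Q6

/-! Chunk R0: the situation: definitions -/

set_option autoImplicit false

namespace Pool.Agent.Lib.H97Z

variable {V : Type} [Fintype V] [DecidableEq V] {L : Lev V} {s : Finset V → ZMod 2}

/-- The flip of all indices. -/
def fl (X : V × ZMod 2) : V × ZMod 2 := (X.1, X.2 + 1)

/-- `G` plus its flip. -/
def DD (G : V × ZMod 2 → V × ZMod 2 → V × ZMod 2 → ZMod 2) (X Z U : V × ZMod 2) : ZMod 2 :=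
  G X Z U + G (fl X) (fl Z) (fl U)

/-- A dual vector `G` of the lift with `MM G = m` on the mixed pairs, whose sum with its flip is flat, with the
value `n` on the mixed pairs. -/
structure Sit (L : Lev V) (s : Finset V → ZMod 2) (ρ₀' ρ₁' : Finset (V × ZMod 2))
    (G : V × ZMod 2 → V × ZMod 2 → V × ZMod 2 → ZMod 2) (g : V × ZMod 2 → V × ZMod 2 → ZMod 2)
    (m n : ZMod 2) : Prop where
  good : Good L
  good' : Good (lift L s)
  sol : Sol L s
  kg : KG (lift L s) ρ₀' ρ₁' G 0 0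
  MM : ∀ x z v, L.hue x ≠ L.hue z → v ≠ x → v ≠ z → MM G x z v = m
  swap : ∀ x z v i j, L.hue x ≠ L.hue z → v ≠ x → v ≠ z →
    mm G (x, i) (z, j) v = mm G (x, i + 1) (z, j + 1) v
  flat : Flat (lift L s) g
  gD : ∀ X Z U, X ≠ Z → U ≠ X → U ≠ Z → DD G X Z U = g X Z
  gn : ∀ X Z, L.hue X.1 ≠ L.hue Z.1 → g X Z = n

end Pool.Agent.Lib.H97Z
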