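import Pool.Agent.Lib.H97Z.R0
import Pool.Agent.Lib.H97Z.E1
import Pool.Agent.Lib.H97Z.E2

/-! Chunk R1: the flip is an automorphism of the lift -/

set_option autoImplicit false

namespace Pool.Agent.Lib.H97Z

variable {V : Type} [Fintype V] [DecidableEq V] {L : Lev V} {s : Finset V → ZMod 2}

theorem r1_add4 (a b c d : ZMod 2) : (a + 1) + (b + 1) + (c + 1) + (d + 1) = a + b + c + d := by
  revert a b c d; decide

theorem r1_add2 (a b : ZMod 2) : (a + 1) + (b + 1) = a + b := by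
  revert a b; decide

omit [Fintype V] [DecidableEq V] in
theorem r1_inj {X Y : V × ZMod 2} (h : fl X = fl Y) : X = Y := by
  obtain ⟨x, i⟩ := X
  obtain ⟨y, j⟩ := Y
  simp only [fl, Prod.mk.injEq, add_left_inj] at h
  obtain ⟨h1, h2⟩ := h
  subst h1; subst h2; rfl

omit [Fintype V] [DecidableEq V] in
theorem r1_ne {X Y : V × ZMod 2} (h : X ≠ Y) : fl X ≠ fl Y := fun e => h (r1_inj e)

omit [Fintype V] [DecidableEq V] in
theorem r1_UU {X Y Z W : V × ZMod 2} (h : UU L X Y Z W) : UU L (fl X) (fl Y) (fl Z) (fl W) := by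
  obtain ⟨h1, h2, w, h3, h4⟩ := h
  refine ⟨h1, ?_, w, h3, ?_⟩
  · intro e
    exact h2 (add_right_cancel e)
  · show (Z.2 + 1) + (W.2 + 1) = _
    rw [r1_add2]; exact h4

/-- PROOF. The index sum of four vertices and of two vertices does not change; the fibre condition
`X.2 ≠ Y.2` neither. -/
theorem fl_R {X Y Z W : V × ZMod 2} (h : (lift L s).R X Y Z W) :
    (lift L s).R (fl X) (fl Y) (fl Z) (fl W) := by
  rcases h with h | h | h | h | h | h | h
  · left
    refine ⟨h.1, ?_⟩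
    show (X.2 + 1) + (Y.2 + 1) + (Z.2 + 1) + (W.2 + 1) = _
    rw [r1_add4]; exact h.2
  · exact Or.inr (Or.inl (r1_UU h))
  · exact Or.inr (Or.inr (Or.inl (r1_UU h)))
  · exact Or.inr (Or.inr (Or.inr (Or.inl (r1_UU h))))
  · exact Or.inr (Or.inr (Or.inr (Or.inr (Or.inl (r1_UU h)))))
  · exact Or.inr (Or.inr (Or.inr (Or.inr (Or.inr (Or.inl (r1_UU h))))))
  · exact Or.inr (Or.inr (Or.inr (Or.inr (Or.inr (Or.inr (r1_UU h))))))

omit [Fintype V] [DecidableEq V] in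
theorem r1_FL {X Y : V × ZMod 2} (h : FL L X Y) : FL L (fl X) (fl Y) := by
  refine ⟨h.1, ?_⟩
  show (X.2 + 1) + (Y.2 + 1) = _
  rw [r1_add2]; exact h.2

/-- PROOF. As `fl_R`. -/
theorem fl_S {X Y Z W : V × ZMod 2} (h : (lift L s).S X Y Z W) :
    (lift L s).S (fl X) (fl Y) (fl Z) (fl W) := by
  rcases h with h | h
  · left
    obtain ⟨h1, h2, h3⟩ := h
    refine ⟨h1, ?_, ?_⟩
    · show (X.2 + 1) + (Y.2 + 1) = _
      rw [r1_add2]; exact h2
    · show (Z.2 + 1) + (W.2 + 1) = _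
      rw [r1_add2]; exact h3
  · right
    obtain ⟨h1, h2⟩ := h
    refine ⟨r1_FL h1, ?_⟩
    rcases h2 with ⟨e1, e2⟩ | ⟨e1, e2⟩
    · left; subst e1; subst e2; exact ⟨rfl, rfl⟩
    · right; subst e1; subst e2; exact ⟨rfl, rfl⟩

/-- PROOF. All properties for `G` and for the flip of `G` (`fl_R`, `fl_S`; `fl` is injective and keeps the hue), added;
the right sides are `0`. -/
theorem DD_kg {ρ₀' ρ₁' : Finset (V × ZMod 2)}
    {G : V × ZMod 2 → V × ZMod 2 → V × ZMod 2 → ZMod 2}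
    (hG : KG (lift L s) ρ₀' ρ₁' G 0 0) : KG (lift L s) ρ₀' ρ₁' (DD G) 0 0 := by
  refine ⟨?_, ?_, ?_, ?_, ?_⟩
  · intro x z v
    unfold DD
    rw [hG.sym x z v, hG.sym (fl x) (fl z) (fl v)]
  · intro x z u v h
    unfold DD
    rw [hG.rc x z u v h, hG.rc _ _ _ _ (fl_R h)]
  · intro x z u v h1 h2 h3 h4 h5 h6
    unfold DD
    rw [hG.pure x z u v h1 h2 h3 h4 h5 h6,
      hG.pure (fl x) (fl z) (fl u) (fl v) (r1_ne h1) h2 (r1_ne h3) (r1_ne h4) (r1_ne h5) (r1_ne h6)]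
  · intro x z a d h
    unfold DD
    rw [hG.dia x z a d h, hG.dia _ _ _ _ (fl_S h)]
  · intro x y z w h
    have h1 := hG.rel x y z w h
    have h2 := hG.rel _ _ _ _ (fl_R h)
    simp only [ite_self, add_zero] at h1 h2 ⊢
    unfold DD
    linear_combination h1 + h2

end Pool.Agent.Lib.H97Z
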