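import Pool.Agent.Lib.H97Z.R1
import Pool.Agent.Lib.H97Z.Q4

/-! Chunk R2: construction of the situation -/

set_option autoImplicit false

namespace Pool.Agent.Lib.H97Z

variable {V : Type} [Fintype V] [DecidableEq V] {L : Lev V} {s : Finset V → ZMod 2}

/-- PROOF. `m` from `MM_const`; `swap`: `mm_swap`.  `mm (DD G) (x, i) (z, j) v = mm G (x, i) (z, j) v +
mm G (x, i+1) (z, j+1) v = 0` by `swap` (the two values of the third index are exchanged), so `exists_flat` for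
`DD G` (`DD_kg`) gives `g`, and `flat_const` gives `n`. -/
theorem exists_sit (hL : Good L) (hL' : Good (lift L s)) (hS : Sol L s) (hSC : SC L)
    {ρ₀ ρ₁ : Finset V} (hK : KP L ρ₀ ρ₁) {ρ₀' ρ₁' : Finset (V × ZMod 2)}
    {G : V × ZMod 2 → V × ZMod 2 → V × ZMod 2 → ZMod 2}
    (hG : KG (lift L s) ρ₀' ρ₁' G 0 0)
    (h0 : ∀ x z v, L.hue x ≠ L.hue z → v ≠ x → v ≠ z → hat G x z v = 0) :
    ∃ g m n, Sit L s ρ₀' ρ₁' G g m n := by
  obtain ⟨m, hm⟩ := MM_const hL hS hK hG h0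
  have hsw : ∀ x z v i j, L.hue x ≠ L.hue z → v ≠ x → v ≠ z →
      mm G (x, i) (z, j) v = mm G (x, i + 1) (z, j + 1) v := fun x z v i j hh hx hz =>
    mm_swap hL hS hG hh hx hz (h0 x z v hh hx hz) i j
  have hD := DD_kg hG
  have hmm : ∀ x z v i j, L.hue x ≠ L.hue z → v ≠ x → v ≠ z →
      mm (DD G) (x, i) (z, j) v = 0 := by
    intro x z v i j hh hx hz
    have h1 : mm (DD G) (x, i) (z, j) v =
        mm G (x, i) (z, j) v + mm G (x, i + 1) (z, j + 1) v := by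
      show G (x, i) (z, j) (v, 0) + G (x, i + 1) (z, j + 1) (v, 0 + 1) +
        (G (x, i) (z, j) (v, 1) + G (x, i + 1) (z, j + 1) (v, 1 + 1)) =
        G (x, i) (z, j) (v, 0) + G (x, i) (z, j) (v, 1) +
          (G (x, i + 1) (z, j + 1) (v, 0) + G (x, i + 1) (z, j + 1) (v, 1))
      rw [zero_add, show (1 : ZMod 2) + 1 = 0 from rfl]
      ring
    rw [h1, ← hsw x z v i j hh hx hz, z2_add_self]
  obtain ⟨g, hg, hgD⟩ := exists_flat hL hL' hS hD hmm
  obtain ⟨n, hn⟩ := flat_const hL hSC hg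
  exact ⟨g, m, n, ⟨hL, hL', hS, hG, hm, hsw, hg, hgD, hn⟩⟩

end Pool.Agent.Lib.H97Z
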