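import Pool.Agent.Lib.H97Z.R0

/-! Chunk R3: sums over the lifts of a pair -/

set_option autoImplicit false

namespace Pool.Agent.Lib.H97Z

variable {V : Type} [Fintype V] [DecidableEq V] {L : Lev V} {s : Finset V → ZMod 2}

theorem r3_shift (f : ZMod 2 → ZMod 2) (a : ZMod 2) : ∑ j : ZMod 2, f (a + j) = ∑ j, f j := by
  rw [← z2_sum_add f a]
  exact Finset.sum_congr rfl fun j _ => by rw [add_comm]

theorem r3_shift' (f : ZMod 2 → ZMod 2) (a b : ZMod 2) :
    ∑ i : ZMod 2, f (a + i + b) = ∑ j, f j := by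
  rw [← z2_sum_add f (a + b)]
  exact Finset.sum_congr rfl fun j _ => by rw [add_right_comm, add_comm]

theorem r3_ne {a b : V} (h : a ≠ b) (k l : ZMod 2) : ((a, k) : V × ZMod 2) ≠ (b, l) := fun e =>
  h (congrArg Prod.fst e)

theorem r3_third (hL : Good L) (y z : V) (hh : L.hue y = L.hue z) :
    ∃ x, x ≠ y ∧ x ≠ z ∧ L.hue x = L.hue y := by
  by_contra hcon
  push Not at hcon
  have hsub : (Finset.univ.filter fun v => L.hue v = L.hue y) ⊆ {y, z} := by
    intro x hx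
    rw [Finset.mem_filter] at hx
    rw [Finset.mem_insert, Finset.mem_singleton]
    by_cases h1 : x = y
    · exact Or.inl h1
    · right
      by_contra h2
      exact hcon x h1 h2 hx.2
  have h1 := Finset.card_le_card hsub
  have h2 := hL.big (L.hue y)
  have h3 := Finset.card_le_two (a := y) (b := z)
  omega


/-- PROOF. `Gam G x z (v, k)` is the sum of the four `G (x, i) (z, j) (v, k)`.  By `gD`, `gn`
`G (x, i) (z, j) (v, k) = n + G (x, i+1) (z, j+1) (v, k+1)`; apply this to `(i, j) = (0, 0), (0, 1)`: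
`Gam G x z (v, k) = 2 n + mm G (x, 1) (z, 1) v + mm G (x, 1) (z, 0) v`, which by `swap` is
`mm G (x, 0) (z, 0) v + mm G (x, 0) (z, 1) v = MM G x z v = m`. -/
theorem gam_mixed {ρ₀' ρ₁' : Finset (V × ZMod 2)}
    {G : V × ZMod 2 → V × ZMod 2 → V × ZMod 2 → ZMod 2}
    {g : V × ZMod 2 → V × ZMod 2 → ZMod 2} {m n : ZMod 2} (hs : Sit L s ρ₀' ρ₁' G g m n)
    {x z v : V} (hh : L.hue x ≠ L.hue z) (hx : v ≠ x) (hz : v ≠ z) (k : ZMod 2) :
    Gam G x z (v, k) = m := by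
  have two : (2 : ZMod 2) = 0 := rfl
  have e1 : G (x, 0) (z, 0) (v, k) + G (x, 1) (z, 1) (v, k + 1) = n := by
    have h1 := hs.gD (x, 0) (z, 0) (v, k) (r3_ne (fun e => hh (by rw [e])) _ _) (r3_ne hx _ _)
      (r3_ne hz _ _)
    rw [hs.gn _ _ hh] at h1
    exact h1
  have e2 : G (x, 0) (z, 1) (v, k) + G (x, 1) (z, 0) (v, k + 1) = n := by
    have h1 := hs.gD (x, 0) (z, 1) (v, k) (r3_ne (fun e => hh (by rw [e])) _ _) (r3_ne hx _ _)
      (r3_ne hz _ _)
    rw [hs.gn _ _ hh] at h1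
    exact h1
  have hM : G (x, 0) (z, 0) (v, 0) + G (x, 0) (z, 0) (v, 1) +
      (G (x, 0) (z, 1) (v, 0) + G (x, 0) (z, 1) (v, 1)) = m := hs.MM x z v hh hx hz
  have s1 : G (x, 0) (z, 0) (v, 0) + G (x, 0) (z, 0) (v, 1) =
      G (x, 1) (z, 1) (v, 0) + G (x, 1) (z, 1) (v, 1) := hs.swap x z v 0 0 hh hx hz
  have s2 : G (x, 0) (z, 1) (v, 0) + G (x, 0) (z, 1) (v, 1) =
      G (x, 1) (z, 0) (v, 0) + G (x, 1) (z, 0) (v, 1) := hs.swap x z v 0 1 hh hx hz
  unfold Gam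
  rw [z2_sum, z2_sum, z2_sum]
  rcases z2_cases k with rfl | rfl
  · rw [zero_add] at e1 e2
    linear_combination e1 + e2 + hM - s1 - s2 +
      (n - G (x, 1) (z, 1) (v, 1) - G (x, 1) (z, 0) (v, 1)) * two
  · rw [show (1 : ZMod 2) + 1 = 0 from rfl] at e1 e2
    linear_combination e1 + e2 + hM - s1 - s2 +
      (n - G (x, 1) (z, 1) (v, 0) - G (x, 1) (z, 0) (v, 0)) * two

/-- PROOF. Let `x` be a third vertex of the same hue (`Good.big`), and `w` with `L.R x y z w` (`Good.two`: `Blk L x y z w`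
for some `w`, not special because of the hues); `L.hue w ≠ L.hue x`.  Sum `KG.rel` over the four lifted blocks
`(x, 0) (y, j) (z, k) (w, l)`, `l = s {x, y, z, w} + j + k` (`lift_R_reg`).  The pure terms (`KG.pure`: third vertex
irrelevant) `G (x, 0) (y, j)` and `G (x, 0) (z, k)` occur twice; `G (y, j) (z, k)` gives `Gam G y z U`;
`G (x, 0) (w, l) (y, j)` gives `mm G (x, 0) (w, 0) y + mm G (x, 0) (w, 1) y = MM G x w y = m`;
`G (y, j) (w, l) (x, 0)` gives `Gam G y w (x, 0) = m` and `G (z, k) (w, l) (x, 0)` gives `m` (`gam_mixed`).  So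
`Gam G y z U = 3 m`. -/
theorem gam_pure {ρ₀' ρ₁' : Finset (V × ZMod 2)}
    {G : V × ZMod 2 → V × ZMod 2 → V × ZMod 2 → ZMod 2}
    {g : V × ZMod 2 → V × ZMod 2 → ZMod 2} {m n : ZMod 2} (hs : Sit L s ρ₀' ρ₁' G g m n)
    {y z : V} (hyz : y ≠ z) (hh : L.hue y = L.hue z) {U : V × ZMod 2} (h1 : U.1 ≠ y)
    (h2 : U.1 ≠ z) : Gam G y z U = m := by
  have hL := hs.good
  have hG := hs.kg
  obtain ⟨x, nxy, nxz, hxy⟩ := r3_third hL y z hh
  obtain ⟨w, h⟩ := c8_tri hL nxy nxz hyz hxy hh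
  have nxw := hL.Rne_xw h
  have nyw := hL.Rne_yw h
  have nzw := hL.Rne_zw h
  have hxz : L.hue x = L.hue z := hxy.trans hh
  have hsum := hL.Rhue _ _ _ _ h
  have hxw : L.hue x ≠ L.hue w := by
    intro e
    rw [← hxy, ← hxz, ← e] at hsum
    generalize L.hue x = t at hsum
    revert t
    decide
  have hyw : L.hue y ≠ L.hue w := by rw [← hxy]; exact hxw
  have hzw : L.hue z ≠ L.hue w := by rw [← hxz]; exact hxw
  set σ : ZMod 2 := s {x, y, z, w} with hσ
  have key : ∑ j : ZMod 2, ∑ k : ZMod 2, (G (x, 0) (y, j) (z, k) +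
      G (x, 0) (z, k) (y, j) + G (x, 0) (w, σ + j + k) (y, j) + G (y, j) (z, k) (x, 0) +
      G (y, j) (w, σ + j + k) (x, 0) + G (z, k) (w, σ + j + k) (x, 0)) = 0 := by
    refine Finset.sum_eq_zero fun j _ => Finset.sum_eq_zero fun k _ => ?_
    have h1 : 0 + j + k + (σ + j + k) = s {x, y, z, w} := by
      rw [← hσ]
      generalize σ = t
      revert k j t
      decide
    have h2 := hG.rel _ _ _ _ (lift_R_reg (s := s) h h1)
    rw [h2]
    simp
  simp only [Finset.sum_add_distrib] at key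
  have t1 : ∑ j : ZMod 2, ∑ k : ZMod 2, G (x, 0) (y, j) (z, k) = 0 :=
    Finset.sum_eq_zero fun j _ => by
      rw [z2_sum]
      exact mm_pure hG nxy hxy nxz.symm hyz.symm 0 j
  have t2 : ∑ j : ZMod 2, ∑ k : ZMod 2, G (x, 0) (z, k) (y, j) = 0 := by
    rw [Finset.sum_comm]
    exact Finset.sum_eq_zero fun k _ => by
      rw [z2_sum]
      exact mm_pure hG nxz hxz nxy.symm hyz 0 k
  have t3 : ∑ j : ZMod 2, ∑ k : ZMod 2, G (x, 0) (w, σ + j + k) (y, j) = m := by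
    have h1 : ∀ j : ZMod 2, ∑ k : ZMod 2, G (x, 0) (w, σ + j + k) (y, j) =
        ∑ l : ZMod 2, G (x, 0) (w, l) (y, j) := fun j =>
      r3_shift (fun l => G (x, 0) (w, l) (y, j)) (σ + j)
    rw [Finset.sum_congr rfl fun j _ => h1 j, Finset.sum_comm, z2_sum, z2_sum, z2_sum]
    exact hs.MM x w y hxw nxy.symm nyw
  have t4 : ∑ j : ZMod 2, ∑ k : ZMod 2, G (y, j) (z, k) (x, 0) = Gam G y z U := by
    unfold Gam
    refine Finset.sum_congr rfl fun j _ => Finset.sum_congr rfl fun k _ => ?_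
    exact hG.pure _ _ _ _ (r3_ne hyz _ _) hh (r3_ne nxy _ _) (r3_ne nxz _ _)
      (fun e => h1 (by rw [e])) (fun e => h2 (by rw [e]))
  have t5 : ∑ j : ZMod 2, ∑ k : ZMod 2, G (y, j) (w, σ + j + k) (x, 0) = m := by
    rw [← gam_mixed hs hyw nxy nxw 0]
    exact Finset.sum_congr rfl fun j _ => r3_shift (fun l => G (y, j) (w, l) (x, 0)) (σ + j)
  have t6 : ∑ j : ZMod 2, ∑ k : ZMod 2, G (z, k) (w, σ + j + k) (x, 0) = m := by
    rw [← gam_mixed hs hzw nxz nxw 0, Finset.sum_comm]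
    exact Finset.sum_congr rfl fun k _ => r3_shift' (fun l => G (z, k) (w, l) (x, 0)) σ k
  rw [t1, t2, t3, t4, t5, t6] at key
  have two : (2 : ZMod 2) = 0 := rfl
  linear_combination key - 2 * m * two

end Pool.Agent.Lib.H97Z
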