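import Pool.Agent.Lib.H97Z.R3

/-! Chunk R4: n = m -/

set_option autoImplicit false

namespace Pool.Agent.Lib.H97Z

variable {V : Type} [Fintype V] [DecidableEq V] {L : Lev V} {s : Finset V → ZMod 2}

/-- PROOF. Take a special block `L.S x y z w` with `L.hue z = L.hue x` (`Good.rot`: for any `x`, `L.F x u`, `BdAt.t1` for
`(x, u)` gives `L.S x u a d` with `L.hue a = L.hue x`).  Let `p = L.b x y z w`.  Add `KG.rel` for the two regular blocks
`(z, 0) (z, 1) (x, i) (y, i + p)`, `i = 0, 1` (`lift_R_fib`):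
`G (z,0) (z,1) _` cancels (`KG.pure`); `∑ i, (G (z,0) (x,i) + G (z,1) (x,i)) = Gam G z x _ = m` (`gam_pure`, third
vertices irrelevant); the terms `G (z,0) (y,j) (z,1) + G (z,1) (y,j) (z,0)`, `j = 0, 1`, add up to
`DD G (z,0) (y,0) (z,1) + DD G (z,0) (y,1) (z,1) = 2 n = 0`; and
`G (x,0) (y,p) (z,0) + G (x,1) (y,p+1) (z,0)` is `DD G (x,0) (y,p) (z,0) = n`, because
`G (x,1) (y,p+1) (z,0) = G (x,1) (y,p+1) (z,1)` (`KG.rc` for the same regular block).  So `m + n = 0`. -/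
theorem n_eq_m {ρ₀' ρ₁' : Finset (V × ZMod 2)}
    {G : V × ZMod 2 → V × ZMod 2 → V × ZMod 2 → ZMod 2}
    {g : V × ZMod 2 → V × ZMod 2 → ZMod 2} {m n : ZMod 2}
    (hs : Sit L s ρ₀' ρ₁' G g m n) : n = m := by
  have hL := hs.good
  have hG := hs.kg
  obtain ⟨x, -⟩ : ∃ x : V, L.hue x = 0 := by
    have h1 := hL.big 0
    have h2 : 0 < (Finset.univ.filter fun v => L.hue v = 0).card := by omega
    obtain ⟨v, hv⟩ := Finset.card_pos.mp h2
    exact ⟨v, (Finset.mem_filter.mp hv).2⟩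
  obtain ⟨y, u', hrot⟩ := hL.rot x
  obtain ⟨_, _, z, w, hbd⟩ := hL.bd x y hrot.f1
  have h : L.S x y z w := hbd.t1
  have hzx : L.hue z = L.hue x := hbd.ha
  have nxz : x ≠ z := hL.Sne_xz h
  have nyz : y ≠ z := hL.Sne_yz h
  have nxy : x ≠ y := hL.Sne_xy h
  have hxy : L.hue x ≠ L.hue y := hL.Shue _ _ _ _ h
  have hzy : L.hue z ≠ L.hue y := by rw [hzx]; exact hxy
  have hne : ∀ (a b : V) (k l : ZMod 2), a ≠ b → (a, k) ≠ (b, l) := fun a b k l hab e =>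
    hab (congrArg Prod.fst e)
  have hne' : ∀ (a : V) (k l : ZMod 2), k ≠ l → (a, k) ≠ (a, l) := fun a k l hkl e =>
    hkl (congrArg Prod.snd e)
  set p : ZMod 2 := L.b x y z w with hp
  have z01 : (0 : ZMod 2) ≠ 1 := by decide
  have z10 : (1 : ZMod 2) ≠ 0 := by decide
  -- the two regular blocks
  have r0 := hG.rel _ _ _ _ (lift_R_fib (s := s) (i := 0) (j := p) h (by rw [zero_add]) z01)
  have r1 := hG.rel _ _ _ _ (lift_R_fib (s := s) (i := 1) (j := p + 1) h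
    (by rw [← hp]; generalize p = t; revert t; decide) z01)
  simp only [ite_self, add_zero] at r0 r1
  -- the pure pairs
  have a1 : G (z, 0) (z, 1) (x, 1) = G (z, 0) (z, 1) (x, 0) :=
    hG.pure _ _ _ _ (hne' _ _ _ z01) rfl (hne _ _ _ _ nxz) (hne _ _ _ _ nxz)
      (hne _ _ _ _ nxz) (hne _ _ _ _ nxz)
  have b0 : ∀ i, G (z, 0) (x, i) (z, 1) = G (z, 0) (x, i) (y, 0) := fun i =>
    hG.pure _ _ _ _ (hne _ _ _ _ nxz.symm) hzx (hne' _ _ _ z10) (hne _ _ _ _ nxz.symm)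
      (hne _ _ _ _ nyz) (hne _ _ _ _ nxy.symm)
  have b1 : ∀ i, G (z, 1) (x, i) (z, 0) = G (z, 1) (x, i) (y, 0) := fun i =>
    hG.pure _ _ _ _ (hne _ _ _ _ nxz.symm) hzx (hne' _ _ _ z01) (hne _ _ _ _ nxz.symm)
      (hne _ _ _ _ nyz) (hne _ _ _ _ nxy.symm)
  have hB : G (z, 0) (x, 0) (y, 0) + G (z, 0) (x, 1) (y, 0) +
      (G (z, 1) (x, 0) (y, 0) + G (z, 1) (x, 1) (y, 0)) = m := by
    have h1 := gam_pure hs nxz.symm hzx (U := (y, 0)) nyz nxy.symm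
    unfold Gam at h1
    rw [z2_sum, z2_sum, z2_sum] at h1
    exact h1
  -- the mixed pairs `z, y`
  have hC0 : G (z, 0) (y, 0) (z, 1) + G (z, 1) (y, 1) (z, 0) = n := by
    have h1 := hs.gD (z, 0) (y, 0) (z, 1) (hne _ _ _ _ nyz.symm) (hne' _ _ _ z10)
      (hne _ _ _ _ nyz.symm)
    rw [hs.gn _ _ hzy] at h1
    exact h1
  have hC1 : G (z, 0) (y, 1) (z, 1) + G (z, 1) (y, 0) (z, 0) = n := by
    have h1 := hs.gD (z, 0) (y, 1) (z, 1) (hne _ _ _ _ nyz.symm) (hne' _ _ _ z10)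
      (hne _ _ _ _ nyz.symm)
    rw [hs.gn _ _ hzy] at h1
    exact h1
  -- the mixed pair `x, y`
  have hD : G (x, 0) (y, p) (z, 0) + G (x, 1) (y, p + 1) (z, 0) = n := by
    have h1 := hs.gD (x, 0) (y, p) (z, 0) (hne _ _ _ _ nxy) (hne _ _ _ _ nxz.symm)
      (hne _ _ _ _ nyz.symm)
    rw [hs.gn _ _ hxy] at h1
    have h2 : G (x, 1) (y, p + 1) (z, 0) = G (x, 1) (y, p + 1) (z, 1) :=
      hG.rc _ _ _ _ (uturn_a hL h (by rw [← hp]; generalize p = t; revert t; decide))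
    rw [h2]
    exact h1
  rw [b0, b1] at r0 r1
  rw [a1] at r1
  clear_value p
  have h2 : (2 : ZMod 2) = 0 := rfl
  rcases z2_cases p with rfl | rfl
  · simp only [zero_add] at r0 r1 hD
    linear_combination (-1 : ZMod 2) * r0 - r1 + hB + hC0 + hC1 + hD +
      (2 * n + G (z, 0) (z, 1) (x, 0)) * h2
  · simp only [show (1 : ZMod 2) + 1 = 0 from rfl] at r0 r1 hD
    linear_combination (-1 : ZMod 2) * r0 - r1 + hB + hC0 + hC1 + hD +
      (2 * n + G (z, 0) (z, 1) (x, 0)) * h2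

end Pool.Agent.Lib.H97Z
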