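import Pool.Agent.Lib.H97Z.R4
import Pool.Agent.Lib.H97Z.C8

/-! Chunk R5: the pure part of g -/

set_option autoImplicit false

namespace Pool.Agent.Lib.H97Z

variable {V : Type} [Fintype V] [DecidableEq V] {L : Lev V} {s : Finset V → ZMod 2}

/-- PROOF. `g (x, i) (z, j) = DD G (x, i) (z, j) U = G (x,i) (z,j) U + G (x,i+1) (z,j+1) (fl U)`, third vertices
irrelevant, so `g (x,0) (z,0) + g (x,0) (z,1) = Gam G x z U = m` (`gam_pure`), `g (x,1) (z,0) = g (x,0) (z,1)`. -/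
theorem g_pure {ρ₀' ρ₁' : Finset (V × ZMod 2)}
    {G : V × ZMod 2 → V × ZMod 2 → V × ZMod 2 → ZMod 2}
    {g : V × ZMod 2 → V × ZMod 2 → ZMod 2} {m n : ZMod 2} (hs : Sit L s ρ₀' ρ₁' G g m n)
    {x z : V} (hxz : x ≠ z) (hh : L.hue x = L.hue z) :
    g (x, 0) (z, 0) = g (x, 0) (z, 1) + m ∧ g (x, 1) (z, 0) = g (x, 0) (z, 1) ∧
      g (x, 1) (z, 1) = g (x, 0) (z, 1) + m := by
  have hG := hs.kg
  have two : (2 : ZMod 2) = 0 := rfl
  obtain ⟨v, hvx, hvz, -⟩ := r3_third hs.good x z hh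
  have hA : ∀ i j, G (x, i) (z, j) (v, 1) = G (x, i) (z, j) (v, 0) := fun i j =>
    hG.pure _ _ _ _ (r3_ne hxz _ _) hh (r3_ne hvx _ _) (r3_ne hvz _ _) (r3_ne hvx _ _)
      (r3_ne hvz _ _)
  have hD : ∀ i j, G (x, i) (z, j) (v, 0) + G (x, i + 1) (z, j + 1) (v, 0) = g (x, i) (z, j) := by
    intro i j
    rw [← hs.gD (x, i) (z, j) (v, 0) (r3_ne hxz _ _) (r3_ne hvx _ _) (r3_ne hvz _ _), ← hA (i + 1)]
    rfl
  have h00 := hD 0 0
  have h01 := hD 0 1
  have h10 := hD 1 0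
  have h11 := hD 1 1
  simp only [zero_add, show (1 : ZMod 2) + 1 = 0 from rfl] at h00 h01 h10 h11
  have hΓ := gam_pure hs hxz hh (U := (v, 0)) hvx hvz
  unfold Gam at hΓ
  rw [z2_sum, z2_sum, z2_sum] at hΓ
  refine ⟨?_, ?_, ?_⟩
  · rw [← h00, ← h01, ← hΓ]
    linear_combination (-G (x, 0) (z, 1) (v, 0) - G (x, 1) (z, 0) (v, 0)) * two
  · rw [← h10, ← h01]
    ring
  · rw [← h11, ← h01, ← hΓ]
    linear_combination (-G (x, 0) (z, 1) (v, 0) - G (x, 1) (z, 0) (v, 0)) * two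

/-- PROOF. `T x z := g (x,0) (z,1)` is symmetric on pure pairs (`g_pure`, `Flat.sym`; put `T x z := 0` if `x = z` or the pair
is mixed).  For `L.R x y z w` with `x, y, z` of equal hue: `Flat.rel` for the lifted block
`(x,0) (y,1) (z,0) (w, s {x, y, z, w} + 1)`: `g (x,0) (y,1) + g (x,0) (z,0) + g (y,1) (z,0) + 3 n = 0`, so
`T x y + (T x z + m) + T y z + 3 n = 0`, and `n = m`.  `cob_pure`. -/
theorem g_cob {ρ₀' ρ₁' : Finset (V × ZMod 2)}
    {G : V × ZMod 2 → V × ZMod 2 → V × ZMod 2 → ZMod 2}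
    {g : V × ZMod 2 → V × ZMod 2 → ZMod 2} {m n : ZMod 2}
    (hs : Sit L s ρ₀' ρ₁' G g m n) :
    ∃ t : V → ZMod 2, ∀ x z, x ≠ z → L.hue x = L.hue z → g (x, 0) (z, 1) = t x + t z := by
  classical
  have two : (2 : ZMod 2) = 0 := rfl
  have hL := hs.good
  have hnm := n_eq_m hs
  let T : V → V → ZMod 2 := fun x z => if x = z ∨ L.hue x ≠ L.hue z then 0 else g (x, 0) (z, 1)
  have hT0 : ∀ x z, x ≠ z → L.hue x = L.hue z → T x z = g (x, 0) (z, 1) := by
    intro x z h1 h2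
    show (if x = z ∨ L.hue x ≠ L.hue z then 0 else g (x, 0) (z, 1)) = _
    rw [if_neg]
    rintro (h | h)
    · exact h1 h
    · exact h h2
  obtain ⟨t, ht⟩ := cob_pure hL T (by
    intro x z
    by_cases h : x = z ∨ L.hue x ≠ L.hue z
    · show (if x = z ∨ L.hue x ≠ L.hue z then 0 else g (x, 0) (z, 1)) =
        (if z = x ∨ L.hue z ≠ L.hue x then 0 else g (z, 0) (x, 1))
      rw [if_pos h, if_pos]
      rcases h with h | h
      · exact Or.inl h.symm
      · exact Or.inr (Ne.symm h)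
    · push Not at h
      rw [hT0 x z h.1 h.2, hT0 z x (Ne.symm h.1) h.2.symm, ← (g_pure hs h.1 h.2).2.1, hs.flat.sym])
    (by
      intro x y z w h hxy hyz
      have nxy := hL.Rne_xy h
      have nxz := hL.Rne_xz h
      have nyz := hL.Rne_yz h
      have hxz : L.hue x = L.hue z := hxy.trans hyz
      have hsum := hL.Rhue _ _ _ _ h
      have hxw : L.hue x ≠ L.hue w := by
        intro e
        rw [← hxy, ← hxz, ← e] at hsum
        generalize L.hue x = t at hsum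
        revert t
        decide
      have hyw : L.hue y ≠ L.hue w := by rw [← hxy]; exact hxw
      have hzw : L.hue z ≠ L.hue w := by rw [← hxz]; exact hxw
      have h1 := hs.flat.rel _ _ _ _ (lift_R_reg (s := s) (i := 0) (j := 1) (k := 0)
        (l := s {x, y, z, w} + 1) h (by
          generalize s {x, y, z, w} = t
          revert t
          decide))
      rw [hs.gn (x, 0) (w, s {x, y, z, w} + 1) hxw, hs.gn (y, 1) (w, s {x, y, z, w} + 1) hyw,
        hs.gn (z, 0) (w, s {x, y, z, w} + 1) hzw, (g_pure hs nxz hxz).1,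
        (g_pure hs nyz hyz).2.1, hnm] at h1
      rw [hT0 x y nxy hxy, hT0 y z nyz hyz, hT0 x z nxz hxz]
      linear_combination h1 - 2 * m * two)
  exact ⟨t, fun x z h1 h2 => by rw [← hT0 x z h1 h2, ht x z h1 h2]⟩

end Pool.Agent.Lib.H97Z
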