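import Pool.Agent.Lib.H97Z.M2
import Pool.Agent.Lib.H97Z.N1
import Pool.Agent.Lib.H97Z.N3
import Pool.Agent.Lib.H97Z.Q2
import Pool.Agent.Lib.H97Z.B6

/-! Chunk R6: values at the own third vertices -/

set_option autoImplicit false

namespace Pool.Agent.Lib.H97Z

variable {V : Type} [Fintype V] [DecidableEq V] {L : Lev V} {s : Finset V → ZMod 2}

theorem r6_k1 : ∀ k b : ZMod 2, k + (k + b + 1) = b + 1 := by decide

theorem r6_k2 : ∀ k b : ZMod 2, k + 1 + (k + b) = b + 1 := by decide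

theorem r6_bit : ∀ t b b' : ZMod 2, t ≠ b → b + b' = 1 → t = b' := by decide

theorem r6_bit' : ∀ i j b b' : ZMod 2, i + j = b → b + b' = 1 → i + j = b' + 1 := by decide

theorem r6_sum (g : ZMod 2 → ZMod 2) (k : ZMod 2) : g k + g (k + 1) = g 0 + g 1 := by
  rcases z2_cases k with rfl | rfl
  · rw [zero_add]
  · rw [show (1 : ZMod 2) + 1 = 0 from rfl, add_comm]

/-- Along a strand whose end has equal values. -/
theorem r6_strand (g g' : ZMod 2 → ZMod 2) (u u' : ZMod 2) (h : ∀ l, g (l + u) = g' (l + u'))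
    (h' : g' 0 = g' 1) (k l : ZMod 2) : g k = g' l := by
  have h1 := h (k + u)
  rw [m2_t] at h1
  rw [h1]
  exact m2_const _ h' _ _

theorem r6_own (hL : Good L) {x z y w y' w' a d a' d' : V} (hxz : x ≠ z)
    (hM : MixAt L x z y w y' w' a d a' d')
    (hE : EqM L s x z y w y' w' a d a' d') {i j : ZMod 2}
    (hij : i + j = L.b x z a d) {f : V × ZMod 2 → ZMod 2}
    (hf : RC (lift L s) (x, i) (z, j) f)
    (hd : ∀ A D, (lift L s).S (x, i) (z, j) A D → f A = f D) :
    f (x, i + 1) = f (z, j + 1) ∧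
      f (x, i + 1) = f (w, j + L.b z w x y + 1) ∧
      f (z, j + 1) = f (y', i + L.b x y' z w' + 1) := by
  obtain ⟨ht, hht, -, hsum⟩ := mix_ht hL hxz hM hE i j
  obtain ⟨c1, c2, c3, c4, c5, c6⟩ := mix_cl hL hM hij hht hsum hf rfl
  have hij' : i + j = L.b x z a' d' + 1 := r6_bit' _ _ _ _ hij hM.bit
  have e1 := hd _ _ (lift_S_spec (s := s) (k := j + L.b z w' x y' + ht w' + ht a')
    (l := j + L.b z w' x y' + ht w' + ht a' + L.b a' d' x z + 1) hM.t2 hij' (r6_k1 _ _))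
  refine ⟨?_, c5, c6⟩
  rw [c5, c1, e1, c2, ← c6]

theorem r6_turn (hL : Good L) {x z y w y' w' a d a' d' : V} (hxz : x ≠ z)
    (hM : MixAt L x z y w y' w' a d a' d')
    (hE : EqM L s x z y w y' w' a d a' d') {i j : ZMod 2}
    (hij : i + j = L.b x z a d) {f : V × ZMod 2 → ZMod 2}
    (hf : RC (lift L s) (x, i) (z, j) f)
    (hd : ∀ A D, (lift L s).S (x, i) (z, j) A D → f A = f D) (k l : ZMod 2) :
    f (a, k) = f (d, l) := by
  obtain ⟨ht, hht, -, hsum⟩ := mix_ht hL hxz hM hE i j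
  obtain ⟨e, e5, e6⟩ := r6_own hL hxz hM hE hij hf hd
  have hcl := fun l => hM.cl _ (lift_fun hf hht l)
  obtain ⟨t1, t2⟩ := rc_uturn hL hM.t1 hij hf
  have h1 := r6_strand (fun l => f (w, l)) (fun l => f (a, l)) (ht w) (ht a)
    (fun l => (hcl l).1) t1 (j + L.b z w x y + 1) k
  have h2 := r6_strand (fun l => f (y', l)) (fun l => f (d, l)) (ht y') (ht d)
    (fun l => (hcl l).2.1.symm) t2 (i + L.b x y' z w' + 1) l
  change f (w, j + L.b z w x y + 1) = f (a, k) at h1
  change f (y', i + L.b x y' z w' + 1) = f (d, l) at h2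
  rw [← h1, ← h2, ← e5, ← e6, e]

theorem r6_c1 : ∀ t c : ZMod 2, t ≠ c → t = c + 1 := by decide

theorem r6_c2 : ∀ t c b : ZMod 2, t = b → c = b + 1 → t ≠ c := by decide


/-- PROOF. Not a boundary pair: `Sol.m`, first parity: `mix_cl`: `f (x, i+1) = f (w, j+B+1) = f (a', k)`,
`f (z, j+1) = f (y', i+A'+1) = f (d', k+b+1)`, and `f (a', k) = f (d', k+b+1)` by `hd` (`lift_S_spec`); second parity: swap
(`MixAt.swap`, `EqM.swap`).  Boundary pair: `i + j = L.c x z + 1`, and `hd` for the block over the boundary pair,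
`(x, i) (z, j) (x, i+1) (z, j+1)` (`lift_S_bd`). -/
theorem own_eq (hL : Good L) (hS : Sol L s) {x z : V} (hh : L.hue x ≠ L.hue z) {i j : ZMod 2}
    (hn : ¬ (L.F x z ∧ i + j = L.c x z)) {f : V × ZMod 2 → ZMod 2}
    (hf : RC (lift L s) (x, i) (z, j) f)
    (hd : ∀ A D, (lift L s).S (x, i) (z, j) A D → f A = f D) : f (x, i + 1) = f (z, j + 1) := by
  have hxz : x ≠ z := fun e => hh (by rw [e])
  by_cases hF : L.F x z
  · have hc : i + j = L.c x z + 1 := r6_c1 _ _ fun e => hn ⟨hF, e⟩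
    exact hd _ _ (lift_S_bd (s := s) hF hc)
  · obtain ⟨y, w, y', w', a, d, a', d', hM, hE⟩ := hS.m x z hh hF
    by_cases hb : i + j = L.b x z a d
    · exact (r6_own hL hxz hM hE hb hf hd).1
    · exact (r6_own hL hxz hM.swap hE.swap (r6_bit _ _ _ hb hM.bit) hf hd).1

/-- PROOF. `bd2_cl` (`Sol.f`, `bd_ht`) and `hd` for `(a, k) (d, k+b+1)`: `f (z, j+1) = f (d, k+b+1) = f (a, k)`,
`f (x, i+1) = f (a, k+1)`, so `f (x, i+1) + f (z, j+1) = f (a, 0) + f (a, 1)`; the function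
`φ v := f (v, 0) + f (v, 1)` is constant away from `x, z` (as in `bd_rd2`: it is `RC`, it has the same value at `w`
and `y`, `BdAt.van`). -/
theorem own_ne (hL : Good L) (hS : Sol L s) {x z : V} (hF : L.F x z) {i j : ZMod 2}
    (hij : i + j = L.c x z) {f : V × ZMod 2 → ZMod 2}
    (hf : RC (lift L s) (x, i) (z, j) f)
    (hd : ∀ A D, (lift L s).S (x, i) (z, j) A D → f A = f D) {v : V} (hx : v ≠ x)
    (hz : v ≠ z) : f (x, i + 1) + f (z, j + 1) = f (v, 0) + f (v, 1) := by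
  obtain ⟨y, w, a, d, hM, hE⟩ := hS.f x z hF
  obtain ⟨m, h1, -⟩ := bd_rd2 hL hF hM hE hij hf hd
  have hxz : x ≠ z := hL.Fne hF
  obtain ⟨ht, hht, hsum⟩ := bd_ht hL hxz hM hE i j
  have hb : i + j = L.b x z a d + 1 := hij.trans hM.c
  obtain ⟨c1, c2, c3, c4⟩ := bd2_cl hL hM hb hht hsum hf rfl
  have e1 := hd _ _ (lift_S_spec (s := s) (k := j + L.b z w x y + 1 + ht w + ht a)
    (l := j + L.b z w x y + 1 + ht w + ht a + L.b a d x z + 1) hM.t1 hb (r6_k1 _ _))
  have ha := h1 a (hL.Sne_xz hM.t1).symm (hL.Sne_yz hM.t1).symm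
  rw [h1 v hx hz, ← ha, ← r6_sum (fun k => f (a, k)) (j + L.b z w x y + 1 + ht w + ht a), c3,
    ← c2, ← e1, add_comm]

/-- PROOF. If `L.hue a ≠ L.hue x` exchange `a` and `d` (`Good.S_xywz`, `Good.b34`).  Not a boundary pair: `(a, d)` is the first
or the second diagonal pair of `MixAt` (`tall`), say the first.  Then `f (a, 0) = f (a, 1)`,
`f (d, 0) = f (d, 1)` (`rc_uturn`), and along the strands and with `mix_cl`
`f (a, _) = f (w, j+B+1) = f (x, i+1)`, `f (d, _) = f (y', i+A'+1) = f (z, j+1)`; `own_eq`.  Boundary pair: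
`i + j = L.c x z + 1` (`BdAt.c`), `f` is constant: `f (a, _) = f (w, _) = f (x, i+1)`, `f (d, _) = f (z, j+1)`
(`rc_uturn`, strands, `bd1_cl`), and `own_eq`. -/
theorem turn_eq (hL : Good L) (hS : Sol L s) {x z a d : V} (h : L.S x z a d) {i j : ZMod 2}
    (hij : i + j = L.b x z a d) {f : V × ZMod 2 → ZMod 2}
    (hf : RC (lift L s) (x, i) (z, j) f)
    (hd : ∀ A D, (lift L s).S (x, i) (z, j) A D → f A = f D) (k l : ZMod 2) :
    f (a, k) = f (d, l) := by
  have hxz : x ≠ z := hL.Sne_xy h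
  have hh : L.hue x ≠ L.hue z := hL.Shue _ _ _ _ h
  have main : ∀ a d, L.S x z a d → i + j = L.b x z a d → L.hue a = L.hue x → ∀ k l,
      f (a, k) = f (d, l) := by
    intro a d h hij ha k l
    by_cases hF : L.F x z
    · obtain ⟨y, w, a', d', hM, hE⟩ := hS.f x z hF
      obtain ⟨rfl, rfl⟩ := hM.tall a d h ha
      obtain ⟨ht, hht, -⟩ := bd_ht hL hxz hM hE i j
      obtain ⟨c1, c2⟩ := bd1_cl hL hM hij hht hf
      have hcl := fun l => hM.cl _ (lift_fun hf hht l)
      obtain ⟨t1, t2⟩ := rc_uturn hL hM.t1 hij hf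
      have h1 := r6_strand (fun l => f (w, l)) (fun l => f (a, l)) (ht w) (ht a)
        (fun l => (hcl l).1) t1 (j + L.b z w x y + 1) k
      have h2 := r6_strand (fun l => f (y, l)) (fun l => f (d, l)) (ht y) (ht d)
        (fun l => (hcl l).2.symm) t2 (i + L.b x y z w + 1) l
      change f (w, j + L.b z w x y + 1) = f (a, k) at h1
      change f (y, i + L.b x y z w + 1) = f (d, l) at h2
      have e := own_eq hL hS hh (fun hn => r6_c2 _ _ _ hij hM.c hn.2) hf hd
      rw [← h1, ← h2, c1, e, c2]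
    · obtain ⟨y, w, y', w', a₁, d₁, a', d', hM, hE⟩ := hS.m x z hh hF
      rcases hM.tall a d h ha with ⟨rfl, rfl⟩ | ⟨rfl, rfl⟩
      · exact r6_turn hL hxz hM hE hij hf hd k l
      · exact r6_turn hL hxz hM.swap hE.swap hij hf hd k l
  by_cases ha : L.hue a = L.hue x
  · exact main a d h hij ha k l
  · have hd' : L.hue d = L.hue x := by
      have h1 := hL.Shue_zw h
      revert ha h1
      generalize L.hue x = p
      generalize L.hue a = q
      generalize L.hue d = r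
      revert p q r
      decide
    exact (main d a (hL.S_xywz h) (by rw [hL.b34]; exact hij) hd' l k).symm

end Pool.Agent.Lib.H97Z
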