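import Pool.Agent.Lib.H97Z.R4
import Pool.Agent.Lib.H97Z.R6

/-! Chunk R7: the sum of four values at a mixed pair -/

set_option autoImplicit false

namespace Pool.Agent.Lib.H97Z

variable {V : Type} [Fintype V] [DecidableEq V] {L : Lev V} {s : Finset V → ZMod 2}

theorem r7_core (Z Y : ZMod 2 → ZMod 2 → ZMod 2) (m n c p : ZMod 2)
    (hZ : ∀ i j, Z i j + Z (i + 1) (j + 1) = n) (h1 : ∀ i j, i + j = c → Z i j + Y i j = m)
    (h2 : ∀ i j, i + j ≠ c → Z i j = Y i j) : Z 0 p + Z 1 p + Y 0 0 + Y 0 1 = n + m := by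
  have two : (2 : ZMod 2) = 0 := rfl
  have z00 := hZ 0 0
  have z01 := hZ 0 1
  simp only [zero_add, show (1 : ZMod 2) + 1 = 0 from rfl] at z00 z01
  rcases z2_cases c with rfl | rfl
  · have a := h1 0 0 rfl
    have b := h2 0 1 (by decide)
    rcases z2_cases p with rfl | rfl
    · linear_combination a + z01 - b
    · linear_combination a + z00 - b + (Z 0 1 - Z 0 0) * two
  · have a := h1 0 1 rfl
    have b := h2 0 0 (by decide)
    rcases z2_cases p with rfl | rfl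
    · linear_combination a + z01 - b + (Z 0 0 - Z 0 1) * two
    · linear_combination a + z00 - b

theorem r7_core' (Z Y : ZMod 2 → ZMod 2 → ZMod 2) (n p : ZMod 2)
    (hZ : ∀ i j, Z i j + Z (i + 1) (j + 1) = n)
    (h2 : ∀ i j, Z i j = Y i j) : Z 0 p + Z 1 p + Y 0 0 + Y 0 1 = n := by
  have two : (2 : ZMod 2) = 0 := rfl
  have z00 := hZ 0 0
  have z01 := hZ 0 1
  simp only [zero_add, show (1 : ZMod 2) + 1 = 0 from rfl] at z00 z01
  rw [← h2, ← h2]
  rcases z2_cases p with rfl | rfl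
  · linear_combination z01 + Z 0 0 * two
  · linear_combination z00 + Z 0 1 * two

theorem r7_ij : ∀ i : ZMod 2, i + 1 + 1 = i := by decide

theorem r7_c1 : ∀ t c : ZMod 2, t ≠ c → t = c + 1 := by decide

/-- At the parity of a boundary pair. -/
theorem r7_mm {ρ₀' ρ₁' : Finset (V × ZMod 2)}
    {G : V × ZMod 2 → V × ZMod 2 → V × ZMod 2 → ZMod 2}
    {g : V × ZMod 2 → V × ZMod 2 → ZMod 2} {m n : ZMod 2} (hs : Sit L s ρ₀' ρ₁' G g m n)
    {z y v : V} (hF : L.F z y) (hv1 : v ≠ z) (hv2 : v ≠ y) {i j : ZMod 2}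
    (hij : i + j = L.c z y) : mm G (z, i) (y, j) v = m := by
  have hL := hs.good
  have hG := hs.kg
  have hh : L.hue z ≠ L.hue y := hL.Fhue _ _ hF
  obtain ⟨y₁, w, a, d, hM, hE⟩ := hs.sol.f z y hF
  have h0 : ∀ i j, i + j = L.c z y + 1 → mm G (z, i) (y, j) v = 0 := by
    intro i j hij
    have h := bd_rd1 hL hF hM hE hij (f := G (z, i) (y, j)) (fun u v h => hG.rc _ _ _ _ h)
      (fun A D h => hG.dia _ _ _ _ h) (v, 0) (v, 1) (r3_ne hv1 _ _) (r3_ne hv2 _ _)
      (r3_ne hv1 _ _) (r3_ne hv2 _ _)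
    unfold mm
    rw [h, z2_add_self]
  have hMM : mm G (z, 0) (y, 0) v + mm G (z, 0) (y, 1) v = m := hs.MM z y v hh hv1 hv2
  have hsw := fun i j => hs.swap z y v i j hh hv1 hv2
  revert hij h0
  generalize L.c z y = c
  intro hij h0
  have s00 := hsw 0 0
  have s01 := hsw 0 1
  simp only [zero_add, show (1 : ZMod 2) + 1 = 0 from rfl] at s00 s01
  rcases z2_cases c with rfl | rfl
  · rw [h0 0 1 rfl, add_zero] at hMM
    rcases z2_cases i with rfl | rfl <;> rcases z2_cases j with rfl | rfl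
    · exact hMM
    · exact absurd hij (by decide)
    · exact absurd hij (by decide)
    · rw [← s00]
      exact hMM
  · rw [h0 0 0 rfl, zero_add] at hMM
    rcases z2_cases i with rfl | rfl <;> rcases z2_cases j with rfl | rfl
    · exact absurd hij (by decide)
    · exact hMM
    · rw [← s01]
      exact hMM
    · exact absurd hij (by decide)


open Classical in
/-- PROOF. Write `Z i j := G (z,i) (y,j) (z,i+1)`, `Y i j := G (z,i) (y,j) (y,j+1)`.  By `gD`, `gn`: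
`Z 0 0 + Z 1 1 = n`, `Z 0 1 + Z 1 0 = n`, the same for `Y`.  The claim is
`Z 0 p + Z 1 p + Y 0 0 + Y 0 1 = n + [L.F z y] m` (`KG.sym` for the last two terms).
If `¬ L.F z y`: `Z = Y` (`own_eq`); `p = 0`: `Z 1 0 + Z 0 1 = n`; `p = 1`: `Z 1 1 + Z 0 0 = n`.
If `L.F z y`: `Z i j = Y i j` for `i + j = c + 1` (`own_eq`) and `Z i j + Y i j = m` for `i + j = c` (`own_ne`: the sum is
`mm G (z,i) (y,j) v` for a third vertex `v`, and `MM G z y v = m` is the sum of `mm G (z,i) (y,j) v` and the `mm` of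
the other parity, which is `0` by `rd_par`-type argument: at `i + j = c + 1` the function is constant, `bd_rd1`).
`c = 0, p = 0`: `(Z 0 0 + Y 0 0) + (Z 1 0 + Y 0 1) = m + n`; `c = 0, p = 1`: `Z 1 1 + Y 0 0 = Z 1 1 + Z 0 0 + m = n + m`;
`c = 1, p = 0`: `Z 1 0 + Y 0 1 = Z 1 0 + Z 0 1 + m = n + m`; `c = 1, p = 1`: `(Z 0 1 + Y 0 1) + (Z 1 1 + Y 0 0) = m + n`. -/
theorem four_values {ρ₀' ρ₁' : Finset (V × ZMod 2)}
    {G : V × ZMod 2 → V × ZMod 2 → V × ZMod 2 → ZMod 2}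
    {g : V × ZMod 2 → V × ZMod 2 → ZMod 2} {m n : ZMod 2} (hs : Sit L s ρ₀' ρ₁' G g m n)
    {z y : V} (hh : L.hue z ≠ L.hue y) (p : ZMod 2) :
    G (z, 0) (y, p) (z, 1) + G (z, 1) (y, p) (z, 0) + G (y, 0) (z, 0) (y, 1) +
      G (y, 1) (z, 0) (y, 0) = n + (if L.F z y then m else 0) := by
  have hL := hs.good
  have hG := hs.kg
  have nzy : z ≠ y := fun e => hh (by rw [e])
  have hne' : ∀ (a : V) (k : ZMod 2), ((a, k + 1) : V × ZMod 2) ≠ (a, k) := fun a k e =>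
    z2_add_one_ne k (congrArg Prod.snd e)
  have hZ : ∀ i j, G (z, i) (y, j) (z, i + 1) + G (z, i + 1) (y, j + 1) (z, i + 1 + 1) = n := by
    intro i j
    have h1 := hs.gD (z, i) (y, j) (z, i + 1) (r3_ne nzy _ _) (hne' _ _) (r3_ne nzy _ _)
    rw [hs.gn (z, i) (y, j) hh] at h1
    exact h1
  have e1 : G (y, 0) (z, 0) (y, 1) = G (z, 0) (y, 0) (y, 0 + 1) := by
    rw [zero_add]
    exact hG.sym _ _ _
  have e2 : G (y, 1) (z, 0) (y, 0) = G (z, 0) (y, 1) (y, 1 + 1) := by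
    rw [show (1 : ZMod 2) + 1 = 0 from rfl]
    exact hG.sym _ _ _
  have e3 : G (z, 0) (y, p) (z, 1) = G (z, 0) (y, p) (z, 0 + 1) := by rw [zero_add]
  have e4 : G (z, 1) (y, p) (z, 0) = G (z, 1) (y, p) (z, 1 + 1) := by
    rw [show (1 : ZMod 2) + 1 = 0 from rfl]
  rw [e1, e2, e3, e4]
  have hf : ∀ i j, RC (lift L s) (z, i) (y, j) (G (z, i) (y, j)) := fun i j u v h =>
    hG.rc _ _ _ _ h
  have hd : ∀ i j A D, (lift L s).S (z, i) (y, j) A D → G (z, i) (y, j) A = G (z, i) (y, j) D :=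
    fun i j A D h => hG.dia _ _ _ _ h
  by_cases hF : L.F z y
  · rw [if_pos hF]
    obtain ⟨y₁, w, a, d, hM, hE⟩ := hs.sol.f z y hF
    have hwz : w ≠ z := (hL.Sne_xw hM.s1).symm
    have hwy : w ≠ y := (hL.Sne_zw hM.s1).symm
    refine r7_core (fun i j => G (z, i) (y, j) (z, i + 1)) (fun i j => G (z, i) (y, j) (y, j + 1))
      m n (L.c z y) p hZ (fun i j hij => ?_) (fun i j hij => ?_)
    · show G (z, i) (y, j) (z, i + 1) + G (z, i) (y, j) (y, j + 1) = m
      rw [own_ne hL hs.sol hF hij (hf i j) (hd i j) hwz hwy]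
      exact r7_mm hs hF hwz hwy hij
    · exact own_eq hL hs.sol hh (fun h => hij h.2) (hf i j) (hd i j)
  · rw [if_neg hF, add_zero]
    exact r7_core' (fun i j => G (z, i) (y, j) (z, i + 1))
      (fun i j => G (z, i) (y, j) (y, j + 1)) n p hZ
      (fun i j => own_eq hL hs.sol hh (fun h => hF h.1) (hf i j) (hd i j))

end Pool.Agent.Lib.H97Z
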