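import Pool.Agent.Lib.H97Z.R5
import Pool.Agent.Lib.H97Z.R7

/-! Chunk R8: the block identity -/

set_option autoImplicit false

namespace Pool.Agent.Lib.H97Z

variable {V : Type} [Fintype V] [DecidableEq V] {L : Lev V} {s : Finset V → ZMod 2}

/-- PROOF. `KG.pure` for the pair `(v, 0), (v, 1)`. -/
theorem exists_phi {ρ₀' ρ₁' : Finset (V × ZMod 2)}
    {G : V × ZMod 2 → V × ZMod 2 → V × ZMod 2 → ZMod 2}
    {g : V × ZMod 2 → V × ZMod 2 → ZMod 2} {m n : ZMod 2}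
    (hs : Sit L s ρ₀' ρ₁' G g m n) :
    ∃ φ : V → ZMod 2, ∀ v u k, u ≠ v → G (v, 0) (v, 1) (u, k) = φ v := by
  classical
  have h1 : ∀ v : V, ∃ c : ZMod 2, ∀ u k, u ≠ v → G (v, 0) (v, 1) (u, k) = c := by
    intro v
    by_cases h : ∃ u, u ≠ v
    · obtain ⟨u0, hu0⟩ := h
      refine ⟨G (v, 0) (v, 1) (u0, 0), fun u k hu => ?_⟩
      exact hs.kg.pure (v, 0) (v, 1) (u, k) (u0, 0)
        (fun e => zero_ne_one (congrArg Prod.snd e)) rfl
        (fun e => hu (congrArg Prod.fst e)) (fun e => hu (congrArg Prod.fst e))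
        (fun e => hu0 (congrArg Prod.fst e)) (fun e => hu0 (congrArg Prod.fst e))
    · exact ⟨0, fun u k hu => absurd ⟨u, hu⟩ h⟩
  choose φ hφ using h1
  exact ⟨φ, hφ⟩

theorem r8_pure {ρ₀' ρ₁' : Finset (V × ZMod 2)}
    {G : V × ZMod 2 → V × ZMod 2 → V × ZMod 2 → ZMod 2}
    {g : V × ZMod 2 → V × ZMod 2 → ZMod 2} {m n : ZMod 2} (hs : Sit L s ρ₀' ρ₁' G g m n)
    {x z u v : V} {i j k l : ZMod 2} (hxz : x ≠ z) (hh : L.hue x = L.hue z)
    (h1 : (u, k) ≠ (x, i)) (h2 : (u, k) ≠ (z, j)) (h3 : (v, l) ≠ (x, i)) (h4 : (v, l) ≠ (z, j)) :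
    G (x, i) (z, j) (u, k) = G (x, i) (z, j) (v, l) :=
  hs.kg.pure (x, i) (z, j) (u, k) (v, l) (fun e => hxz (congrArg Prod.fst e)) hh h1 h2 h3 h4

open Classical in
/-- PROOF. Let `p = L.b x y z w`, `q = L.b z w x y`; `L.hue w = L.hue y ≠ L.hue x`.  Add `KG.rel` (right side `0`) for the four
regular blocks (`lift_R_fib`) `(z,0) (z,1) (x,0) (y,p)`, `(w,0) (w,1) (x,0) (y,p)`, `(x,0) (x,1) (z,0) (w,q)`,
`(y,0) (y,1) (z,0) (w,q)`.  The terms:
`G (z,0) (z,1) _ = φ z` and so on;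
`G (x,0) (y,p) (z,0) = G (x,0) (y,p) (w,0)` and `G (z,0) (w,q) (x,0) = G (z,0) (w,q) (y,0)` cancel (`turn_eq`);
pure pair `x, z`: `G (z,0) (x,0) + G (z,1) (x,0) + G (x,0) (z,0) + G (x,1) (z,0) = G (x,0) (z,1) + G (x,1) (z,0) =
g (x,0) (z,1) = t x + t z` (third vertices irrelevant, `KG.sym`, `gD`);
pure pair `y, w`: `G (w,0) (y,p) + G (w,1) (y,p) + G (y,0) (w,q) + G (y,1) (w,q) = t y + t w + (p + q) m`
(four cases; `g_pure`: `G (y,0) (w,0) + G (y,1) (w,1) = g (y,0) (w,0) = t y + t w + m`);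
mixed pair `z, y`: `G (z,0) (y,p) (z,1) + G (z,1) (y,p) (z,0) + G (y,0) (z,0) (y,1) + G (y,1) (z,0) (y,0)`, mixed
pair `w, x`: `G (w,0) (x,0) (w,1) + G (w,1) (x,0) (w,0) + G (x,0) (w,q) (x,1) + G (x,1) (w,q) (x,0)`: `four_values` (for
the pair `(z, y)` with `p`, and for the pair `(x, w)` with `q`), each `n + [F] m`, and `2 n = 0`. -/
theorem block_id {ρ₀' ρ₁' : Finset (V × ZMod 2)}
    {G : V × ZMod 2 → V × ZMod 2 → V × ZMod 2 → ZMod 2}
    {g : V × ZMod 2 → V × ZMod 2 → ZMod 2} {m n : ZMod 2} (hs : Sit L s ρ₀' ρ₁' G g m n)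
    {φ t : V → ZMod 2} (hφ : ∀ v u k, u ≠ v → G (v, 0) (v, 1) (u, k) = φ v)
    (ht : ∀ x z, x ≠ z → L.hue x = L.hue z → g (x, 0) (z, 1) = t x + t z) {x y z w : V}
    (h : L.S x y z w) (hxz : L.hue z = L.hue x) :
    (φ x + t x) + (φ y + t y) + ((φ z + t z) + (φ w + t w)) =
      m * (L.b x y z w + L.b z w x y) + (if L.F z y then m else 0) +
        (if L.F x w then m else 0) := by
  have hL := hs.good
  have hS := hs.sol
  have nxy := hL.Sne_xy h
  have nxz := hL.Sne_xz h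
  have nxw := hL.Sne_xw h
  have nyz := hL.Sne_yz h
  have nyw := hL.Sne_yw h
  have nzw := hL.Sne_zw h
  obtain ⟨hy, hw⟩ := hL.Shue_eq h hxz.symm
  have hwy : L.hue y = L.hue w := hy.trans hw.symm
  have n01 : (0 : ZMod 2) ≠ 1 := zero_ne_one
  have e1 := hs.kg.rel _ _ _ _ (lift_R_fib (s := s) (i := 0) (j := L.b x y z w) (k := 0)
    (k' := 1) h (zero_add _) n01)
  have e2 := hs.kg.rel _ _ _ _ (lift_R_fib (s := s) (i := 0) (j := L.b x y z w) (k := 0)
    (k' := 1) (hL.S_xywz h) (by rw [zero_add, hL.b34]) n01)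
  have e3 := hs.kg.rel _ _ _ _ (lift_R_fib (s := s) (i := 0) (j := L.b z w x y) (k := 0)
    (k' := 1) (hL.S_zwxy h) (zero_add _) n01)
  have e4 := hs.kg.rel _ _ _ _ (lift_R_fib (s := s) (i := 0) (j := L.b z w x y) (k := 0)
    (k' := 1) (hL.S_zwyx h) (by rw [zero_add, hL.b34]) n01)
  simp only [ite_self, add_zero] at e1 e2 e3 e4
  have t1 := turn_eq hL hS (i := 0) (j := L.b x y z w) h (zero_add _)
    (f := fun U => G (x, 0) (y, L.b x y z w) U) (fun U W hUW => hs.kg.rc _ _ _ _ hUW)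
    (fun A D hAD => hs.kg.dia _ _ _ _ hAD) 0 0
  have t2 := turn_eq hL hS (i := 0) (j := L.b z w x y) (hL.S_zwxy h) (zero_add _)
    (f := fun U => G (z, 0) (w, L.b z w x y) U) (fun U W hUW => hs.kg.rc _ _ _ _ hUW)
    (fun A D hAD => hs.kg.dia _ _ _ _ hAD) 0 0
  have f1 := four_values hs (z := z) (y := y) (by rw [hy, hxz]; exact z2_ne_add_one _)
    (L.b x y z w)
  have f2 := four_values hs (z := x) (y := w) (by rw [hw]; exact z2_ne_add_one _)
    (L.b z w x y)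
  have p1 := hφ z x 0 nxz
  have p2 := hφ w x 0 nxw
  have p3 := hφ x z 0 nxz.symm
  have p4 := hφ y z 0 nyz.symm
  -- the pure pair `x, z`
  have q1 : G (z, 0) (x, 0) (z, 1) = G (x, 0) (z, 0) (x, 1) := by
    rw [hs.kg.sym]
    exact r8_pure hs nxz hxz.symm (fun e => nxz.symm (congrArg Prod.fst e))
      (fun e => n01 (congrArg Prod.snd e).symm) (fun e => n01 (congrArg Prod.snd e).symm)
      (fun e => nxz (congrArg Prod.fst e))
  have q2 : G (z, 1) (x, 0) (z, 0) = G (x, 0) (z, 1) (x, 1) := by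
    rw [hs.kg.sym]
    exact r8_pure hs nxz hxz.symm (fun e => nxz.symm (congrArg Prod.fst e))
      (fun e => n01 (congrArg Prod.snd e)) (fun e => n01 (congrArg Prod.snd e).symm)
      (fun e => nxz (congrArg Prod.fst e))
  have q3 : G (x, 0) (z, 1) (x, 1) + G (x, 1) (z, 0) (x, 0) = t x + t z := by
    rw [← ht x z nxz hxz.symm, ← hs.gD (x, 0) (z, 1) (x, 1) (fun e => nxz (congrArg Prod.fst e))
      (fun e => n01 (congrArg Prod.snd e).symm) (fun e => nxz (congrArg Prod.fst e))]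
    rfl
  -- the pure pair `y, w`
  have r1 : ∀ i j : ZMod 2, ∀ k l : V × ZMod 2, k ≠ (y, i) → k ≠ (w, j) → l ≠ (y, i) →
      l ≠ (w, j) → G (y, i) (w, j) k = G (y, i) (w, j) l := fun i j k l a b c d =>
    r8_pure hs nyw hwy a b c d
  have gg := g_pure hs nyw hwy
  have tt := ht y w nyw hwy
  have q4 : G (w, 0) (y, L.b x y z w) (w, 1) + G (w, 1) (y, L.b x y z w) (w, 0) +
      G (y, 0) (w, L.b z w x y) (y, 1) + G (y, 1) (w, L.b z w x y) (y, 0) =
      t y + t w + (L.b x y z w + L.b z w x y) * m := by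
    have d1 := hs.gD (y, 0) (w, 1) (y, 1) (fun e => nyw (congrArg Prod.fst e))
      (fun e => n01 (congrArg Prod.snd e).symm) (fun e => nyw (congrArg Prod.fst e))
    have d0 := hs.gD (y, 0) (w, 0) (y, 1) (fun e => nyw (congrArg Prod.fst e))
      (fun e => n01 (congrArg Prod.snd e).symm) (fun e => nyw (congrArg Prod.fst e))
    unfold DD fl at d0 d1
    simp only [zero_add, show (1 : ZMod 2) + 1 = 0 from rfl] at d0 d1
    rw [tt] at d1
    rw [gg.1, tt] at d0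
    have a1 : ∀ p : ZMod 2, G (w, 0) (y, p) (w, 1) = G (y, p) (w, 0) (y, p + 1) := by
      intro p
      rw [hs.kg.sym]
      exact r1 _ _ _ _ (fun e => nyw.symm (congrArg Prod.fst e))
        (fun e => n01 (congrArg Prod.snd e).symm)
        (fun e => z2_add_one_ne p (congrArg Prod.snd e)) (fun e => nyw (congrArg Prod.fst e))
    have a2 : ∀ p : ZMod 2, G (w, 1) (y, p) (w, 0) = G (y, p) (w, 1) (y, p + 1) := by
      intro p
      rw [hs.kg.sym]
      exact r1 _ _ _ _ (fun e => nyw.symm (congrArg Prod.fst e))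
        (fun e => n01 (congrArg Prod.snd e))
        (fun e => z2_add_one_ne p (congrArg Prod.snd e)) (fun e => nyw (congrArg Prod.fst e))
    rw [a1, a2]
    revert d0 d1
    rcases z2_cases (L.b x y z w) with hp | hp <;> rcases z2_cases (L.b z w x y) with hq | hq <;>
      rw [hp, hq] <;> simp only [zero_add, show (1 : ZMod 2) + 1 = 0 from rfl] <;>
      generalize G (y, 0) (w, 0) (y, 1) = A <;> generalize G (y, 0) (w, 1) (y, 1) = B <;>
      generalize G (y, 1) (w, 0) (y, 0) = C <;> generalize G (y, 1) (w, 1) (y, 0) = D <;>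
      generalize t y + t w = τ <;> clear * - <;> revert A B C D τ m <;> decide
  have two : (2 : ZMod 2) = 0 := rfl
  linear_combination e1 + e2 + e3 + e4 + p1 + p2 + p3 + p4 + q1 + q2 + q3 + q4 + f1 + f2 +
    t1 + t2 + (φ x + t x + φ y + t y + φ z + t z + φ w + t w + n - G (z, 0) (z, 1) (x, 0) -
    G (z, 0) (x, 0) (z, 1) - G (z, 0) (y, L.b x y z w) (z, 1) - G (z, 1) (x, 0) (z, 0) -
    G (z, 1) (y, L.b x y z w) (z, 0) - G (x, 0) (y, L.b x y z w) (z, 0) -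
    G (w, 0) (w, 1) (x, 0) - G (w, 0) (x, 0) (w, 1) - G (w, 0) (y, L.b x y z w) (w, 1) -
    G (w, 1) (x, 0) (w, 0) - G (w, 1) (y, L.b x y z w) (w, 0) - G (x, 0) (x, 1) (z, 0) -
    G (x, 0) (w, L.b z w x y) (x, 1) - G (x, 1) (z, 0) (x, 0) -
    G (x, 1) (w, L.b z w x y) (x, 0) - G (z, 0) (w, L.b z w x y) (x, 0) -
    G (y, 0) (y, 1) (z, 0) - G (y, 0) (z, 0) (y, 1) - G (y, 0) (w, L.b z w x y) (y, 1) -
    G (y, 1) (z, 0) (y, 0) - G (y, 1) (w, L.b z w x y) (y, 0)) * two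

end Pool.Agent.Lib.H97Z
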