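import Pool.Agent.Lib.H97Z.C11
import Pool.Agent.Lib.H97Z.KL
import Pool.Agent.Lib.H97Z.H6
import Pool.Agent.Lib.H97Z.GL
import Pool.Agent.Lib.H97Z.B3

/-! Chunk ST: the induction step -/

set_option autoImplicit false

namespace Pool.Agent.Lib.H97Z

variable {V : Type} [Fintype V] [DecidableEq V] {L : Lev V}

/-- The invariant of the induction. -/
structure Inv (L : Lev V) : Prop where
  good : Good L
  sc : SC L
  kp : ∃ x y z w x' y' z' w', L.R x y z w ∧ L.hue x = 0 ∧ L.hue y = 0 ∧ L.hue z = 0 ∧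
    L.R x' y' z' w' ∧ L.hue x' = 1 ∧ L.hue y' = 1 ∧ L.hue z' = 1 ∧
    KP L {x, y, z, w} {x', y', z', w'}

/-- PROOF. For the first block: `L.hue w = 1`; `ub_exists` gives `t₁, t₂, t₃` with `Ub L x w y t₁` (from
`L.R x w y z`), `Ub L y w z t₂`, `Ub L z w x t₃`; in the same way for the second block.  `exists_sol` with
`t₀ := t₁ + t₂ + t₃` and `t₁'`: a solution `s` with `Tw L s x y z w`, `Tw L s x' y' z' w'`.  `good_lift`, `sc_lift`,
`kp_lift` with the lifts `(x, 0) (y, 0) (z, 0) (w, s ρ₀)` and the same for `ρ₁`. -/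
theorem inv_step (h : Inv L) : ∃ s : Finset V → ZMod 2, Inv (lift L s) := by
  obtain ⟨hL, hSC, x, y, z, w, x', y', z', w', hR, hx, hy, hz, hR', hx', hy', hz', hK⟩ := h
  have hw : L.hue w = 1 := by
    have h1 := hL.Rhue _ _ _ _ hR
    rw [hx, hy, hz] at h1
    generalize L.hue w = t at h1 ⊢
    revert t
    decide
  have hw' : L.hue w' = 0 := by
    have h1 := hL.Rhue _ _ _ _ hR'
    rw [hx', hy', hz'] at h1
    generalize L.hue w' = t at h1 ⊢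
    revert t
    decide
  obtain ⟨t₁, ht₁⟩ := ub_exists hL (hL.R_xwyz hR) (by rw [hx, hw]; decide) (hy.trans hx.symm)
  obtain ⟨t₂, ht₂⟩ := ub_exists hL (hL.R_ywzx hR) (by rw [hy, hw]; decide) (hz.trans hy.symm)
  obtain ⟨t₃, ht₃⟩ := ub_exists hL (hL.R_zwxy hR) (by rw [hz, hw]; decide) (hx.trans hz.symm)
  obtain ⟨t₁', ht₁'⟩ := ub_exists hL (hL.R_xwyz hR') (by rw [hx', hw']; decide)
    (hy'.trans hx'.symm)
  obtain ⟨t₂', ht₂'⟩ := ub_exists hL (hL.R_ywzx hR') (by rw [hy', hw']; decide)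
    (hz'.trans hy'.symm)
  obtain ⟨t₃', ht₃'⟩ := ub_exists hL (hL.R_zwxy hR') (by rw [hz', hw']; decide)
    (hx'.trans hz'.symm)
  obtain ⟨s, hS, hs0, hs1⟩ := exists_sol hL hK (t₁ + t₂ + t₃) (t₁' + t₂' + t₃')
  have hT : Tw L s x y z w := ⟨hR, hx.trans hy.symm, hy.trans hz.symm, t₁, t₂, t₃, ht₁, ht₂, ht₃,
    hs0⟩
  have hT' : Tw L s x' y' z' w' := ⟨hR', hx'.trans hy'.symm, hy'.trans hz'.symm, t₁', t₂', t₃',
    ht₁', ht₂', ht₃', hs1⟩
  have e0 : (0 : ZMod 2) + 0 + 0 + s {x, y, z, w} = s {x, y, z, w} := by ring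
  have e1 : (0 : ZMod 2) + 0 + 0 + s {x', y', z', w'} = s {x', y', z', w'} := by ring
  refine ⟨s, good_lift hL hS, sc_lift hL hS hSC hT hx hT' hx', (x, 0), (y, 0), (z, 0),
    (w, s {x, y, z, w}), (x', 0), (y', 0), (z', 0), (w', s {x', y', z', w'}),
    lift_R_reg hR e0, hx, hy, hz, lift_R_reg hR' e1, hx', hy', hz', ?_⟩
  exact kp_lift hL hS hSC hK ⟨x, y, z, w, 0, 0, 0, s {x, y, z, w}, hR, e0, rfl, rfl⟩
    ⟨x', y', z', w', 0, 0, 0, s {x', y', z', w'}, hR', e1, rfl, rfl⟩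

end Pool.Agent.Lib.H97Z
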