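import Pool.Agent.Lib.H97Z.D2

/-! Chunk T1: blocks over a transversal triple: definitions -/

set_option autoImplicit false

namespace Pool.Agent.Lib.H97Z

variable {V : Type} [Fintype V] [DecidableEq V] {L : Lev V} {s : Finset V → ZMod 2}

/-- The special block `{x,y|z,u}` (diagonals `xy`, `zu`) of the base gives, over the triple `X, Y, Z`, the
fourth vertex `T`. -/
def OvS (L : Lev V) (X Y Z : V × ZMod 2) (u : V) (T : V × ZMod 2) : Prop :=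
  L.S X.1 Y.1 Z.1 u ∧
    ((X.2 + Y.2 = L.b X.1 Y.1 Z.1 u + 1 ∧ T = (u, Z.2 + L.b Z.1 u X.1 Y.1 + 1)) ∨
      (X.2 + Y.2 = L.b X.1 Y.1 Z.1 u ∧ T = (Z.1, Z.2 + 1)))

/-- The block of the base with the fourth vertex `u` gives, over the triple `X, Y, Z`, the fourth
vertex `T`. -/
def Over (L : Lev V) (s : Finset V → ZMod 2) (X Y Z : V × ZMod 2) (u : V) (T : V × ZMod 2) :
    Prop :=
  (L.R X.1 Y.1 Z.1 u ∧ T = (u, s {X.1, Y.1, Z.1, u} + X.2 + Y.2 + Z.2)) ∨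
    OvS L X Y Z u T ∨ OvS L X Z Y u T ∨ OvS L Y Z X u T

theorem t1_ovs (L : Lev V) (X Y Z : V × ZMod 2) {u : V} (h : L.S X.1 Y.1 Z.1 u) :
    ∃ T, OvS L X Y Z u T := by
  by_cases hb : X.2 + Y.2 = L.b X.1 Y.1 Z.1 u
  · exact ⟨_, h, Or.inr ⟨hb, rfl⟩⟩
  · exact ⟨_, h, Or.inl ⟨z2_ne hb, rfl⟩⟩

theorem t1_last (a b : ZMod 2) : a + (a + b + 1) = b + 1 := by
  revert a b
  decide

theorem t1_last4 (a b c d : ZMod 2) : a + b + c + (d + a + b + c) = d := by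
  revert a b c d
  decide

theorem t1_last4' (a b c d e : ZMod 2) (h : a + b + c + d = e) : d = e + a + b + c := by
  revert a b c d e
  decide

theorem t1_last2 (a b c : ZMod 2) (h : a + b = c + 1) : b = a + c + 1 := by
  revert a b c
  decide

/-- PROOF. Cases of `Blk`: `L.R`: take the vertex of the definition; `L.S x y z u`: `X.2 + Y.2` is
`L.b .. + 1` or `L.b ..` (elements of `ZMod 2`); `L.S x z y u`: the same with `OvS L X Z Y u`; `L.S x u y z`: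
`Good.S_zwxy` gives `L.S y z x u`, `OvS L Y Z X u`. -/
theorem over_exists (hL : Good L) (X Y Z : V × ZMod 2) {u : V} (h : Blk L X.1 Y.1 Z.1 u) :
    ∃ T, Over L s X Y Z u T := by
  rcases h with h | h | h | h
  · exact ⟨_, Or.inl ⟨h, rfl⟩⟩
  · obtain ⟨T, hT⟩ := t1_ovs L X Y Z h
    exact ⟨T, Or.inr (Or.inl hT)⟩
  · obtain ⟨T, hT⟩ := t1_ovs L X Z Y h
    exact ⟨T, Or.inr (Or.inr (Or.inl hT))⟩
  · obtain ⟨T, hT⟩ := t1_ovs L Y Z X (hL.S_zwxy h)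
    exact ⟨T, Or.inr (Or.inr (Or.inr hT))⟩

/-- PROOF. First case: `RL` (the index sum is `s {..}` as `a + a = 0`).  `OvS L X Y Z u T` with
`T = (u, Z.2 + q + 1)`: `SL L X Y Z T`.  With `T = (Z.1, Z.2 + 1)`: the block `UU L Z T X Y` (last term of
`(lift L s).R X Y Z T`).  `OvS L X Z Y u T`: `SL L X Z Y T` or `UU L Y T X Z`; `OvS L Y Z X u T`: `SL L Y Z X T`, that is
`(lift L s).S X T Y Z` after exchange of the diagonals (`Good.Sdd`), or `UU L X T Y Z`. -/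
theorem over_blk (hL : Good L) (X Y Z : V × ZMod 2) {u : V} {T : V × ZMod 2}
    (h : Over L s X Y Z u T) : Blk (lift L s) X Y Z T := by
  rcases h with ⟨h1, rfl⟩ | ⟨h1, ⟨h2, rfl⟩ | ⟨h2, rfl⟩⟩ | ⟨h1, ⟨h2, rfl⟩ | ⟨h2, rfl⟩⟩ |
    ⟨h1, ⟨h2, rfl⟩ | ⟨h2, rfl⟩⟩
  · exact Or.inl (Or.inl ⟨h1, t1_last4 _ _ _ _⟩)
  · exact Or.inr (Or.inl (Or.inl ⟨h1, h2, t1_last _ _⟩))
  · exact Or.inl (Or.inr (Or.inr (Or.inr (Or.inr (Or.inr (Or.inr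
      ⟨rfl, z2_ne_add_one _, u, h1, h2⟩))))))
  · exact Or.inr (Or.inr (Or.inl (Or.inl ⟨h1, h2, t1_last _ _⟩)))
  · exact Or.inl (Or.inr (Or.inr (Or.inr (Or.inr (Or.inr (Or.inl
      ⟨rfl, z2_ne_add_one _, u, h1, h2⟩))))))
  · exact Or.inr (Or.inr (Or.inr (Or.inl ⟨hL.S_zwxy h1, t1_last _ _, h2⟩)))
  · exact Or.inl (Or.inr (Or.inr (Or.inr (Or.inl
      ⟨rfl, z2_ne_add_one _, u, h1, h2⟩))))

/-- PROOF. `Blk (lift L s) X Y Z T` means `(lift L s).R X Y Z T` (seven cases), `S X Y Z T`, `S X Z Y T` or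
`S X T Y Z`.  `RL`: first case of `Over`, `u = T.1`.  `UU L X Y ..`, `UU L X Z ..`, `UU L Y Z ..` contradict the
hypotheses.  `UU L X T Y Z`: `X.1 = T.1`, `X.2 ≠ T.2`, `L.S Y.1 Z.1 X.1 u`: `OvS L Y Z X u T`, second case; in the
same way `UU L Y T X Z`, `UU L Z T X Y`.  `SL L X Y Z T`: `u = T.1`, `OvS L X Y Z u T`, first case; `SL L X Z Y T` in the
same way; `SL L X T Y Z`: `L.S Y.1 Z.1 X.1 T.1` by `Good.Sdd`, `OvS L Y Z X`.  `PH`: in all three cases two of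
`X.1, Y.1, Z.1` are equal: contradiction. -/
theorem blk_over (hL : Good L) (X Y Z : V × ZMod 2) (h1 : X.1 ≠ Y.1) (h2 : X.1 ≠ Z.1)
    (h3 : Y.1 ≠ Z.1) {T : V × ZMod 2} (h : Blk (lift L s) X Y Z T) :
    ∃ u, Blk L X.1 Y.1 Z.1 u ∧ Over L s X Y Z u T := by
  have hT : ∀ a : V × ZMod 2, a.1 = T.1 → a.2 ≠ T.2 → T = (a.1, a.2 + 1) := by
    intro a ha hb
    exact Prod.ext ha.symm (z2_ne' hb)
  rcases h with (h | h | h | h | h | h | h) | h | h | h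
  · exact ⟨T.1, Or.inl h.1, Or.inl ⟨h.1, Prod.ext rfl (t1_last4' _ _ _ _ _ h.2)⟩⟩
  · exact absurd h.1 h1
  · exact absurd h.1 h2
  · obtain ⟨ha, hb, w, hw, hc⟩ := h
    exact ⟨w, Or.inr (Or.inr (Or.inr (hL.S_zwxy hw))),
      Or.inr (Or.inr (Or.inr ⟨hw, Or.inr ⟨hc, hT _ ha hb⟩⟩))⟩
  · exact absurd h.1 h3
  · obtain ⟨ha, hb, w, hw, hc⟩ := h
    exact ⟨w, Or.inr (Or.inr (Or.inl hw)),
      Or.inr (Or.inr (Or.inl ⟨hw, Or.inr ⟨hc, hT _ ha hb⟩⟩))⟩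
  · obtain ⟨ha, hb, w, hw, hc⟩ := h
    exact ⟨w, Or.inr (Or.inl hw), Or.inr (Or.inl ⟨hw, Or.inr ⟨hc, hT _ ha hb⟩⟩)⟩
  · rcases h with ⟨ha, hb, hc⟩ | ⟨-, hb⟩
    · exact ⟨T.1, Or.inr (Or.inl ha), Or.inr (Or.inl ⟨ha, Or.inl ⟨hb,
        Prod.ext rfl (t1_last2 _ _ _ hc)⟩⟩)⟩
    · rcases hb with ⟨hb, -⟩ | ⟨hb, -⟩
      · exact absurd (congrArg Prod.fst hb).symm h2
      · exact absurd (congrArg Prod.fst hb).symm h3
  · rcases h with ⟨ha, hb, hc⟩ | ⟨-, hb⟩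
    · exact ⟨T.1, Or.inr (Or.inr (Or.inl ha)), Or.inr (Or.inr (Or.inl ⟨ha, Or.inl ⟨hb,
        Prod.ext rfl (t1_last2 _ _ _ hc)⟩⟩))⟩
    · rcases hb with ⟨hb, -⟩ | ⟨hb, -⟩
      · exact absurd (congrArg Prod.fst hb).symm h1
      · exact absurd (congrArg Prod.fst hb) h3
  · rcases h with ⟨ha, hb, hc⟩ | ⟨-, hb⟩
    · exact ⟨T.1, Or.inr (Or.inr (Or.inr ha)), Or.inr (Or.inr (Or.inr ⟨hL.S_zwxy ha, Or.inl ⟨hc,
        Prod.ext rfl (t1_last2 _ _ _ hb)⟩⟩))⟩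
    · rcases hb with ⟨hb, -⟩ | ⟨-, hb⟩
      · exact absurd (congrArg Prod.fst hb).symm h1
      · exact absurd (congrArg Prod.fst hb).symm h2

end Pool.Agent.Lib.H97Z
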