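import Pool.Agent.Lib.H97Z.T2

/-! Chunk T3: a transversal triple lies in two blocks -/

set_option autoImplicit false

namespace Pool.Agent.Lib.H97Z

variable {V : Type} [Fintype V] [DecidableEq V] {L : Lev V} {s : Finset V → ZMod 2}

/-- PROOF. `Good.two` for `X.1, Y.1, Z.1`: `u ≠ v`.  `over_exists` gives `U`, `U'` over `u`, `v`; they are blocks by
`over_blk` and different by `over_inj`.  If `Blk (lift L s) X Y Z T` then `blk_over` gives `t` with
`Over L s X Y Z t T`, and `t = u` or `t = v`, so `T = U` or `T = U'` by `over_fun`. -/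
theorem two_trans (hL : Good L) (X Y Z : V × ZMod 2) (h1 : X.1 ≠ Y.1) (h2 : X.1 ≠ Z.1)
    (h3 : Y.1 ≠ Z.1) : ∃ U U', U ≠ U' ∧ Blk (lift L s) X Y Z U ∧ Blk (lift L s) X Y Z U' ∧
      ∀ T, Blk (lift L s) X Y Z T → T = U ∨ T = U' := by
  obtain ⟨u, v, huv, hu, hv, hall⟩ := hL.two _ _ _ h1 h2 h3
  obtain ⟨U, hU⟩ := over_exists (s := s) hL X Y Z hu
  obtain ⟨U', hU'⟩ := over_exists (s := s) hL X Y Z hv
  refine ⟨U, U', ?_, over_blk hL X Y Z hU, over_blk hL X Y Z hU', ?_⟩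
  · rintro rfl
    exact huv (over_inj hL X Y Z hU hU')
  · intro T hT
    obtain ⟨t, ht, hT'⟩ := blk_over hL X Y Z h1 h2 h3 hT
    rcases hall t ht with rfl | rfl
    · exact Or.inl (over_fun hL X Y Z hT' hU)
    · exact Or.inr (over_fun hL X Y Z hT' hU')

end Pool.Agent.Lib.H97Z
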