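import Pool.Agent.Lib.H97Z.D2

/-! Chunk T4: blocks through a fibre -/

set_option autoImplicit false

namespace Pool.Agent.Lib.H97Z

variable {V : Type} [Fintype V] [DecidableEq V] {L : Lev V} {s : Finset V → ZMod 2}

theorem t4_add (a b : ZMod 2) : a + (a + b) = b := by
  revert a b
  decide

theorem t4_add' (a b c : ZMod 2) (h : a + b = c) : b = a + c := by
  revert a b c
  decide

theorem t4_c (a b c : ZMod 2) (h : ¬ a + b = c + 1) : a + (b + 1) = c + 1 := by
  revert a b c
  decide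

theorem t4_two (a : ZMod 2) : a + 1 + 1 = a := by
  revert a
  decide

/-- PROOF. Left to right: cases of `Blk`.  `RL`, `SL` are impossible (two equal base vertices).
`UU` with the fibre `X, Y` (the term `UU L X Y Z T`): `L.S z T.1 x y` for some `y`, `k + T.2 = L.b z T.1 x y`: first
alternative with `w := T.1` (`Good.S_zwxy`).  The other `UU` terms are impossible: `UU L X Z Y T` needs
`x = z`, `UU L X T Y Z` needs `L.S x z x _`, `UU L Y Z X T` needs `x = z`, `UU L Y T X Z` needs `L.S x z x _`, `UU L Z T X Y`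
needs `L.S x x z _` (`Good.Sne_xz`, `Good.Sne_xy`).  `PH`: `S X Y Z T` needs `L.F x x`, impossible; `S X Z Y T`: `L.F x z` and
`T = (z, k + 1)`; `S X T Y Z`: `L.F x T.1` and `(Y, Z) = ((x, i + 1), (T.1, T.2 + 1))`, so `T = (z, k + 1)`.
Right to left: `lift_R_fib` (for `L.S z w x y`).  If `L.F x z`: `i + k = L.c x z + 1` or
`i + (k + 1) = L.c x z + 1`; in the first case `(lift L s).S (x, i) (z, k) (x, i + 1) (z, k + 1)` (`lift_S_bd`), in the
second `(lift L s).S (x, i) (z, k + 1) (x, i + 1) (z, k + 1 + 1)`. -/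
theorem blk_fib (hL : Good L) {x z : V} (hxz : x ≠ z) (i k : ZMod 2) (T : V × ZMod 2) :
    Blk (lift L s) (x, i) (x, i + 1) (z, k) T ↔
      (∃ y w, L.S x y z w ∧ T = (w, k + L.b z w x y)) ∨ (L.F x z ∧ T = (z, k + 1)) := by
  constructor
  · intro h
    rcases h with (h | h | h | h | h | h | h) | h | h | h
    · exact absurd rfl (hL.Rne_xy h.1)
    · obtain ⟨-, -, y, hy, hb⟩ := h
      exact Or.inl ⟨y, T.1, hL.S_zwxy hy, Prod.ext rfl (t4_add' _ _ _ hb)⟩
    · exact absurd h.1 hxz
    · obtain ⟨-, -, w, hw, -⟩ := h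
      exact absurd rfl (hL.Sne_xz hw)
    · exact absurd h.1 hxz
    · obtain ⟨-, -, w, hw, -⟩ := h
      exact absurd rfl (hL.Sne_xz hw)
    · obtain ⟨-, -, w, hw, -⟩ := h
      exact absurd rfl (hL.Sne_xy hw)
    · rcases h with h | h
      · exact absurd rfl (hL.Sne_xy h.1)
      · exact absurd rfl (hL.Fne h.1.1)
    · rcases h with h | ⟨h, h' | h'⟩
      · exact absurd rfl (hL.Sne_xz h.1)
      · exact Or.inr ⟨h.1, h'.2⟩
      · exact absurd (congrArg Prod.fst h'.1) hxz
    · rcases h with h | ⟨h, h' | h'⟩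
      · exact absurd rfl (hL.Sne_xz h.1)
      · have h1 : z = T.1 := congrArg Prod.fst h'.2
        have h2 : k = T.2 + 1 := congrArg Prod.snd h'.2
        refine Or.inr ⟨?_, Prod.ext h1.symm ?_⟩
        · rw [h1]
          exact h.1
        · rw [h2]
          exact (t4_two _).symm
      · exact absurd (congrArg Prod.fst h'.2).symm hxz
  · rintro (⟨y, w, h, rfl⟩ | ⟨hF, rfl⟩)
    · exact Or.inl (Or.inr (Or.inl ⟨rfl, z2_ne_add_one _, y, hL.S_zwxy h, t4_add _ _⟩))
    · by_cases hc : i + k = L.c x z + 1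
      · exact Or.inr (Or.inr (Or.inl (lift_S_bd hF hc)))
      · have h1 := lift_S_bd (s := s) hF (t4_c _ _ _ hc)
        rw [t4_two] at h1
        exact Or.inr (Or.inr (Or.inr h1))

end Pool.Agent.Lib.H97Z
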