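import Pool.Agent.Lib.H97Z.D2
import Pool.Agent.Lib.H97Z.B2

/-! Chunk U1: rotations: potentials -/

set_option autoImplicit false

namespace Pool.Agent.Lib.H97Z

variable {V : Type} [Fintype V] [DecidableEq V] {L : Lev V} {s : Finset V → ZMod 2}

/-- PROOF. `rotpot` with `l := fun _ _ _ => 1`; `RotAt.par`. -/
theorem rot_e (hL : Good L) {x u u' : V} (hR : RotAt L x u u') :
    ∃ e : V → ZMod 2, (∀ y z w, L.S x y z w → e z + e w = 1) ∧ e u = e u' := by
  obtain ⟨e, he⟩ := rotpot hL x (fun _ _ _ => 1) (fun _ _ _ => rfl)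
  exact ⟨e, he, hR.par e he⟩

/-- PROOF. `g` from `rotpot` with `l y z w := L.b z w x y` (`g u + g u' = 1 + c + c'` by `RotAt.bit`),
`ζ := g + e` with `e` of `rot_e`. -/
theorem rot_zeta (hL : Good L) {x u u' : V} (hR : RotAt L x u u') :
    ∃ ζ : V → ZMod 2, (∀ y z w, L.S x y z w → ζ z + ζ w = L.b z w x y + 1) ∧
      ζ u + ζ u' = 1 + L.c x u + L.c x u' := by
  obtain ⟨e, he, he2⟩ := rot_e hL hR
  obtain ⟨g, hg⟩ := rotpot hL x (fun y z w => L.b z w x y) (fun y z w => hL.b12 _ _ _ _)
  refine ⟨fun v => g v + e v, ?_, ?_⟩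
  · intro y z w h
    have h1 := he y z w h
    have h2 := hg y z w h
    show g z + e z + (g w + e w) = L.b z w x y + 1
    rw [← h1, ← h2]
    ring
  · have h3 := hR.bit g hg
    show g u + e u + (g u' + e u') = 1 + L.c x u + L.c x u'
    rw [← h3, he2]
    have := z2_add_self (e u')
    linear_combination this

/-- A function `φ` on the lift with `φ Z + φ W = t + m` along the special lifts, where `t` is a constant
and `m` has the rotation potential `β`.
PROOF. Let `ζ`, `e` be as above.  `ψ v := φ (v, l + ζ v) + β v + t * e v` satisfies `ψ z = ψ w` for `L.S x y z w`: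
`(z, l + ζ z)`, `(w, l + ζ w)` are `(z, k)`, `(w, k + L.b z w x y + 1)` with `k = l + ζ z`.  So `ψ` is constant away
from `x` (`RotAt.con`), `ψ u = ψ u'`, and `e u = e u'`.  Take `l := k + ζ u`. -/
theorem rot_strand (hL : Good L) {x u u' : V} (hR : RotAt L x u u')
    {φ : V × ZMod 2 → ZMod 2} {β : V → ZMod 2} (t : ZMod 2)
    (hφ : ∀ y z w k, L.S x y z w →
      φ (z, k) + φ (w, k + L.b z w x y + 1) = t + (β z + β w)) (k : ZMod 2) :
    φ (u, k) + φ (u', k + 1 + L.c x u + L.c x u') = β u + β u' := by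
  obtain ⟨e, he, he2⟩ := rot_e hL hR
  obtain ⟨ζ, hζ, hζ2⟩ := rot_zeta hL hR
  have hcon := hR.con (fun v => φ (v, k + ζ u + ζ v) + β v + t * e v) (by
    intro y z w h
    have h1 := he y z w h
    have h2 := hζ y z w h
    have h3 := hφ y z w (k + ζ u + ζ z) h
    have h4 : k + ζ u + ζ z + L.b z w x y + 1 = k + ζ u + ζ w := by
      have h5 := z2_add_self (ζ z)
      linear_combination (-1 : ZMod 2) * h2 + h5
    rw [h4] at h3
    show φ (z, k + ζ u + ζ z) + β z + t * e z = φ (w, k + ζ u + ζ w) + β w + t * e w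
    have h6 := z2_add_self (φ (w, k + ζ u + ζ w))
    have h7 := z2_add_self (t * e w)
    have h8 := z2_add_self (β z)
    have h9 := z2_add_self t
    linear_combination h3 + t * h1 + h8 + h9 - h6 - h7) u u'
    (hL.Fne hR.f1).symm (hL.Fne hR.f2).symm
  have e1 : k + ζ u + ζ u = k := by rw [add_assoc, z2_add_self, add_zero]
  have e2 : k + ζ u + ζ u' = k + 1 + L.c x u + L.c x u' := by
    linear_combination hζ2
  have h10 : φ (u, k + ζ u + ζ u) + β u + t * e u = φ (u', k + ζ u + ζ u') + β u' + t * e u' :=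
    hcon
  rw [e1, e2, he2] at h10
  have h11 := z2_add_self (φ (u', k + 1 + L.c x u + L.c x u'))
  have h12 := z2_add_self (β u)
  linear_combination h10 + h11 - h12

end Pool.Agent.Lib.H97Z
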