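import Pool.Agent.Lib.H97Z.U1

/-! Chunk U2: rotations: connectedness and parity -/

set_option autoImplicit false

namespace Pool.Agent.Lib.H97Z

variable {V : Type} [Fintype V] [DecidableEq V] {L : Lev V} {s : Finset V → ZMod 2}

/-- the special lifts around `(x, i)` -/
theorem u2_S {x y z w : V} (h : L.S x y z w) (i k : ZMod 2) :
    (lift L s).S (x, i) (y, i + L.b x y z w + 1) (z, k) (w, k + L.b z w x y + 1) := by
  apply lift_S_spec h
  · generalize L.b x y z w = a
    revert i a
    decide
  · generalize L.b z w x y = a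
    revert k a
    decide

theorem u2_z1 (i a : ZMod 2) : i + a + 1 + 1 = i + a := by revert i a; decide

theorem u2_z2 (l a b : ZMod 2) : l + a + (a + b + 1) + 1 = l + b := by
  revert l a b; decide

theorem u2_B {x u : V} (h : L.F x u) (i : ZMod 2) :
    (lift L s).S (x, i) (u, i + L.c x u + 1) (x, i + 1) (u, i + L.c x u) := by
  have h1 := lift_S_bd (s := s) h (i := i) (j := i + L.c x u + 1) (by
    generalize L.c x u = a
    revert i a
    decide)
  have h2 : i + L.c x u + 1 + 1 = i + L.c x u := u2_z1 _ _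
  rw [h2] at h1
  exact h1

/-- PROOF. `ζ` from `rot_zeta`.  `g_l v := g (v, l + ζ v)` satisfies `g_l z = g_l w` for `L.S x y z w`
(`lift_S_spec` for `(x, i)`, `(y, i + L.b x y z w + 1)`, `(z, k)`, `(w, k + L.b z w x y + 1)`), so it is constant away
from `x`: `g (v, l + ζ v) = κ l`.  The special blocks over the boundary pairs (`lift_S_bd` for
`(x, i)`, `(u, i + c + 1)` and for `(x, i)`, `(u', i + c' + 1)`) give `g (x, i+1) = g (u, i+c) = g (u', i+c')`; the
indices `l` of `(u, i+c)`, `(u', i+c')` are `i+c+ζ u`, `i+c'+ζ u'`, which are different.  So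
`κ 0 = κ 1 = g (x, i+1)`. -/
theorem rot_con (hL : Good L) {x u u' : V} (hR : RotAt L x u u') {i : ZMod 2}
    {g : V × ZMod 2 → ZMod 2}
    (hg : ∀ Y Z W, (lift L s).S (x, i) Y Z W → g Z = g W) :
    ∀ v v', v ≠ (x, i) → v' ≠ (x, i) → g v = g v' := by
  obtain ⟨ζ, hζ, hζ2⟩ := rot_zeta hL hR
  have hcon : ∀ (l : ZMod 2) (v v' : V), v ≠ x → v' ≠ x → g (v, l + ζ v) = g (v', l + ζ v') := by
    intro l
    apply hR.con (fun v => g (v, l + ζ v))
    intro y z w h
    have h1 := hg _ _ _ (u2_S (s := s) h i (l + ζ z))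
    have h2 : l + ζ z + L.b z w x y + 1 = l + ζ w := by
      have h3 := hζ y z w h
      have h4 : L.b z w x y = ζ z + ζ w + 1 := by
        rw [h3]
        generalize L.b z w x y = a
        revert a
        decide
      rw [h4]
      exact u2_z2 _ _ _
    rw [h2] at h1
    exact h1
  have b1 := hg _ _ _ (u2_B (s := s) hR.f1 i)
  have b2 := hg _ _ _ (u2_B (s := s) hR.f2 i)
  have hux := (hL.Fne hR.f1).symm
  have hux' := (hL.Fne hR.f2).symm
  have key : ∀ V' : V × ZMod 2, V' ≠ (x, i) → g V' = g (x, i + 1) := by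
    rintro ⟨v, k⟩ hv
    by_cases hvx : v = x
    · subst hvx
      have hk : k ≠ i := fun h => hv (by rw [h])
      rw [z2_ne hk]
    · have c1 := hcon (k + ζ v) v u hvx hux
      have c2 := hcon (k + ζ v) v u' hvx hux'
      have e0 : k + ζ v + ζ v = k := by rw [add_assoc, z2_add_self, add_zero]
      rw [e0] at c1 c2
      by_cases hl : k + ζ v + ζ u = i + L.c x u
      · rw [c1, hl, b1]
      · have hl' : k + ζ v + ζ u' = i + L.c x u' := by
          have h5 := z2_ne hl
          have h6 : ζ u' = 1 + L.c x u + L.c x u' + ζ u := by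
            rw [← hζ2]
            generalize ζ u = a
            generalize ζ u' = b
            revert a b
            decide
          rw [h6]
          have h7 : k + ζ v = i + L.c x u + 1 + ζ u := by
            rw [← h5]
            generalize ζ u = a
            generalize k + ζ v = b
            revert a b
            decide
          rw [h7]
          generalize ζ u = a
          generalize L.c x u = b
          generalize L.c x u' = c
          clear h7 h6 h5 hl c1 c2 e0 b1 b2 hg hcon hv
          revert i a b c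
          decide
        rw [c2, hl', b2]
  intro v v' hv hv'
  rw [key v hv, key v' hv']

/-- PROOF. `rot_strand` with `t := 1`, `β := 0`, `φ := g`: `g (u, k) = g (u', k + 1 + c + c')` for `k = i + c + 1` and
`k = i + c`: `g (u, i+c+1) = g (u', i+c')`, `g (u, i+c) = g (u', i+c'+1)`.  Boundary blocks:
`g (x, i+1) + g (u, i+c) = 1 = g (x, i+1) + g (u', i+c')`. -/
theorem rot_par (hL : Good L) {x u u' : V} (hR : RotAt L x u u') {i : ZMod 2}
    {g : V × ZMod 2 → ZMod 2}
    (hg : ∀ Y Z W, (lift L s).S (x, i) Y Z W → g Z + g W = 1) :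
    g (u, i + L.c x u + 1) = g (u', i + L.c x u' + 1) := by
  have hs := rot_strand hL hR (φ := g) (β := fun _ => 0) 1 (by
    intro y z w k h
    rw [hg _ _ _ (u2_S (s := s) h i k)]
    simp)
  have b1 := hg _ _ _ (u2_B (s := s) hR.f1 i)
  have b2 := hg _ _ _ (u2_B (s := s) hR.f2 i)
  have s1 := hs (i + L.c x u + 1)
  have s2 := hs (i + L.c x u)
  have e1 : i + L.c x u + 1 + 1 + L.c x u + L.c x u' = i + L.c x u' := by
    generalize L.c x u = a
    generalize L.c x u' = b
    clear s1 s2 b1 b2 hs hg
    revert i a b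
    decide
  have e2 : i + L.c x u + 1 + L.c x u + L.c x u' = i + L.c x u' + 1 := by
    generalize L.c x u = a
    generalize L.c x u' = b
    clear s1 s2 b1 b2 hs hg e1
    revert i a b
    decide
  rw [e1] at s1
  rw [e2] at s2
  have key : ∀ a b c d e : ZMod 2, a + b = 0 + 0 → c + d = 0 + 0 → e + c = 1 → e + b = 1 →
      a = d := by decide
  exact key _ _ _ _ _ s1 s2 b1 b2

end Pool.Agent.Lib.H97Z
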