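import Pool.Agent.Lib.H97Z.C8
import Pool.Agent.Lib.H97Z.D2

/-! Chunk W1: flat vectors of the lift: sums over the lifts of a pair -/

set_option autoImplicit false

namespace Pool.Agent.Lib.H97Z

variable {V : Type} [Fintype V] [DecidableEq V] {L : Lev V} {s : Finset V → ZMod 2}

/-- PROOF. Sum `Flat.rel` for the four lifted blocks `(x, i) (y, j) (z, k) (w, 0)`, `k = s {x, y, z, w} + i + j`
(`lift_R_reg`): `∑ g (x, i) (y, j) = G2 g x y`, `∑ g (x, i) (z, k) = G2 g x z`, `∑ g (y, j) (z, k) = G2 g y z` (for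
fixed `i` the map `j ↦ k` is a bijection, and so on), and each of `g (x, i) (w, 0)`, `g (y, j) (w, 0)`,
`g (z, k) (w, 0)` occurs twice. -/
theorem G2_rel {g : V × ZMod 2 → V × ZMod 2 → ZMod 2} (hg : Flat (lift L s) g)
    {x y z w : V} (h : L.R x y z w) : G2 g x y + G2 g y z + G2 g x z = 0 := by
  have key : ∀ i j : ZMod 2, g (x, i) (y, j) + g (x, i) (z, s {x, y, z, w} + i + j) +
      g (x, i) (w, 0) + g (y, j) (z, s {x, y, z, w} + i + j) + g (y, j) (w, 0) +
      g (z, s {x, y, z, w} + i + j) (w, 0) = 0 := by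
    intro i j
    refine hg.rel _ _ _ _ (lift_R_reg (s := s) h ?_)
    generalize s {x, y, z, w} = σ
    revert i j σ
    decide
  have e00 := key 0 0
  have e01 := key 0 1
  have e10 := key 1 0
  have e11 := key 1 1
  have two : (2 : ZMod 2) = 0 := rfl
  have oo : (1 : ZMod 2) + 1 = 0 := rfl
  unfold G2
  simp only [z2_sum]
  revert e00 e01 e10 e11
  rcases z2_cases (s {x, y, z, w}) with hσ | hσ <;> rw [hσ] <;>
    simp only [zero_add, add_zero, oo] <;> intro e00 e01 e10 e11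
  · linear_combination e00 + e01 + e10 + e11 - (g (x, 0) (w, 0) + g (x, 1) (w, 0) +
      g (y, 0) (w, 0) + g (y, 1) (w, 0) + g (z, 0) (w, 0) + g (z, 1) (w, 0)) * two
  · linear_combination e00 + e01 + e10 + e11 - (g (x, 0) (w, 0) + g (x, 1) (w, 0) +
      g (y, 0) (w, 0) + g (y, 1) (w, 0) + g (z, 0) (w, 0) + g (z, 1) (w, 0)) * two

/-- PROOF. `cob` for `T := G2 g`. -/
theorem G2_cob (hL : Good L) {g : V × ZMod 2 → V × ZMod 2 → ZMod 2}
    (hg : Flat (lift L s) g) : ∃ r : V → ZMod 2, ∀ x z, x ≠ z → G2 g x z = r x + r z := by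
  refine cob hL (G2 g) ?_ ?_
  · intro x z
    unfold G2
    simp only [z2_sum]
    rw [hg.sym (z, 0) (x, 0), hg.sym (z, 0) (x, 1), hg.sym (z, 1) (x, 0), hg.sym (z, 1) (x, 1)]
    ring
  · intro x y z w h
    exact G2_rel hg h

end Pool.Agent.Lib.H97Z
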