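import Pool.Agent.Lib.H97Z.D2

/-! Chunk W2: flat vectors of the lift: the fibre blocks -/

set_option autoImplicit false

namespace Pool.Agent.Lib.H97Z

variable {V : Type} [Fintype V] [DecidableEq V] {L : Lev V} {s : Finset V → ZMod 2}

/-- PROOF. `Flat.rel` for the two blocks `(z, 0) (z, 1) (x, i) (y, i + p)`, `p = L.b x y z w`, `i = 0, 1`
(`lift_R_fib`); add them: `g (z, 0) (z, 1)` cancels. -/
theorem usum {g : V × ZMod 2 → V × ZMod 2 → ZMod 2} (hg : Flat (lift L s) g)
    {x y z w : V} (h : L.S x y z w) :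
    G2 g z x + G2 g z y + ∑ i : ZMod 2, g (x, i) (y, i + L.b x y z w) = 0 := by
  have key : ∀ i : ZMod 2, g (z, 0) (z, 1) + g (z, 0) (x, i) + g (z, 0) (y, i + L.b x y z w) +
      g (z, 1) (x, i) + g (z, 1) (y, i + L.b x y z w) + g (x, i) (y, i + L.b x y z w) = 0 := by
    intro i
    refine hg.rel _ _ _ _ (lift_R_fib (s := s) h ?_ (by decide))
    generalize L.b x y z w = b
    revert i b
    decide
  have e0 := key 0
  have e1 := key 1
  have two : (2 : ZMod 2) = 0 := rfl
  have oo : (1 : ZMod 2) + 1 = 0 := rfl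
  unfold G2
  simp only [z2_sum]
  revert e0 e1
  rcases z2_cases (L.b x y z w) with hb | hb <;> rw [hb] <;>
    simp only [zero_add, add_zero, oo] <;> intro e0 e1
  · linear_combination e0 + e1 - g (z, 0) (z, 1) * two
  · linear_combination e0 + e1 - g (z, 0) (z, 1) * two

end Pool.Agent.Lib.H97Z
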