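import Pool.Agent.Lib.H97Z.W1
import Pool.Agent.Lib.H97Z.W2

/-! Chunk W3: flat vectors of the lift: the sums vanish -/

set_option autoImplicit false

namespace Pool.Agent.Lib.H97Z

variable {V : Type} [Fintype V] [DecidableEq V] {L : Lev V} {s : Finset V → ZMod 2}

theorem w3_split (g : V × ZMod 2 → V × ZMod 2 → ZMod 2) (x z : V) (t t' : ZMod 2)
    (h : t + t' = 1) :
    G2 g x z = (∑ i : ZMod 2, g (x, i) (z, i + t)) + ∑ i : ZMod 2, g (x, i) (z, i + t') := by
  have e : t' = t + 1 := by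
    revert t t'
    decide
  subst e
  unfold G2
  rw [← Finset.sum_add_distrib]
  refine Finset.sum_congr rfl fun i _ => ?_
  rw [← z2_sum_add (fun j => g (x, i) (z, j)) (i + t), z2_sum]
  congr 3
  · ring
  · ring

/-- PROOF. `r` from `G2_cob`.  For a mixed pair `x, y` which is not a boundary pair: `MixAt` data for `(x, y)`; `usum`
for the two blocks `L.S x y a d`, `L.S x y a' d'` with different bits (`MixAt.bit`): both partial sums
`∑ i, g (x, i) (y, i + t)`, `t = 0, 1`, are `r x + r y` (`G2 g a x + G2 g a y = r x + r y`), so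
`G2 g x y = 0`, that is `r x = r y`.  `Good.conn`: `r` is constant. -/
theorem G2_zero (hL : Good L) {g : V × ZMod 2 → V × ZMod 2 → ZMod 2}
    (hg : Flat (lift L s) g) {x z : V} (hxz : x ≠ z) : G2 g x z = 0 := by
  obtain ⟨r, hr⟩ := G2_cob hL hg
  have hc : ∀ x z, r x = r z := by
    apply hL.conn
    intro x z hh hF
    obtain ⟨y, w, y', w', a, d, a', d', hM⟩ := hL.mix x z hh hF
    have hne : x ≠ z := fun e => hh (by rw [e])
    have h1 := usum hg hM.t1
    have h2 := usum hg hM.t2
    rw [hr _ _ (Ne.symm (hL.Sne_xz hM.t1)), hr _ _ (Ne.symm (hL.Sne_yz hM.t1))] at h1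
    rw [hr _ _ (Ne.symm (hL.Sne_xz hM.t2)), hr _ _ (Ne.symm (hL.Sne_yz hM.t2))] at h2
    have h3 := w3_split g x z _ _ hM.bit
    rw [hr _ _ hne] at h3
    revert h1 h2 h3
    generalize (∑ i : ZMod 2, g (x, i) (z, i + L.b x z a d)) = A
    generalize (∑ i : ZMod 2, g (x, i) (z, i + L.b x z a' d')) = B
    generalize r x = p
    generalize r z = q
    generalize r a = u
    generalize r a' = v
    revert A B p q u v
    decide
  rw [hr _ _ hxz, hc x z, z2_add_self]

/-- PROOF. `usum` for some `L.S x y a d` (`MixAt.t1` or `BdAt.t1`) and `G2_zero`: the claim for `t = L.b x y a d`; for the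
other `t` use `G2 g x y = 0` (the two partial sums add up to `G2 g x y`). -/
theorem nt_zero (hL : Good L) {g : V × ZMod 2 → V × ZMod 2 → ZMod 2}
    (hg : Flat (lift L s) g) {x y : V} (hh : L.hue x ≠ L.hue y) (t : ZMod 2) :
    ∑ i : ZMod 2, g (x, i) (y, i + t) = 0 := by
  obtain ⟨a, d, hS⟩ : ∃ a d, L.S x y a d := by
    by_cases hF : L.F x y
    · obtain ⟨y', w, a, d, hB⟩ := hL.bd x y hF
      exact ⟨a, d, hB.t1⟩
    · obtain ⟨y', w, y'', w', a, d, a', d', hM⟩ := hL.mix x y hh hF
      exact ⟨a, d, hM.t1⟩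
  have h1 := usum hg hS
  rw [G2_zero hL hg (Ne.symm (hL.Sne_xz hS)), G2_zero hL hg (Ne.symm (hL.Sne_yz hS)), zero_add,
    zero_add] at h1
  by_cases ht : t = L.b x y a d
  · rw [ht]; exact h1
  · have h2 := w3_split g x y (L.b x y a d) t (by
      have := z2_ne ht
      rw [this]
      generalize L.b x y a d = b
      revert b
      decide)
    rw [G2_zero hL hg (hL.Sne_xy hS), h1, zero_add] at h2
    exact h2.symm

end Pool.Agent.Lib.H97Z
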