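import Pool.Agent.Lib.H97Z.W3

/-! Chunk W4: flat vectors of the lift: coefficients -/

set_option autoImplicit false

namespace Pool.Agent.Lib.H97Z

variable {V : Type} [Fintype V] [DecidableEq V] {L : Lev V} {s : Finset V → ZMod 2}

/-- PROOF. The sum of the four values is `0` (`G2_zero`), so the function `(i, j) ↦ g (x, i) (z, j)` is affine;
check the four cases, with `Flat.sym`. -/
theorem g_affine (hL : Good L) {g : V × ZMod 2 → V × ZMod 2 → ZMod 2}
    (hg : Flat (lift L s) g) {x z : V} (hxz : x ≠ z) (i j : ZMod 2) :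
    g (x, i) (z, j) = cc g x z + aa g x z * i + aa g z x * j := by
  have h1 := G2_zero hL hg hxz
  unfold G2 at h1
  simp only [z2_sum] at h1
  unfold cc aa
  rw [hg.sym (z, 0) (x, 0), hg.sym (z, 1) (x, 0)]
  revert h1
  rcases z2_cases i with rfl | rfl <;> rcases z2_cases j with rfl | rfl <;>
    generalize g (x, 0) (z, 0) = a <;> generalize g (x, 0) (z, 1) = b <;>
    generalize g (x, 1) (z, 0) = c <;> generalize g (x, 1) (z, 1) = d <;>
    revert a b c d <;> decide

/-- PROOF. `Flat.sym`. -/
theorem cc_symm {g : V × ZMod 2 → V × ZMod 2 → ZMod 2}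
    (hg : Flat (lift L s) g) (x z : V) : cc g x z = cc g z x :=
  hg.sym _ _

/-- PROOF. `nt_zero` with `t = 0` and `g_affine`: `g (x, 0) (z, 0) + g (x, 1) (z, 1) = aa g x z + aa g z x`. -/
theorem aa_symm (hL : Good L) {g : V × ZMod 2 → V × ZMod 2 → ZMod 2}
    (hg : Flat (lift L s) g) {x z : V} (hh : L.hue x ≠ L.hue z) : aa g x z = aa g z x := by
  have hne : x ≠ z := fun e => hh (by rw [e])
  have h1 := nt_zero hL hg hh 0
  simp only [z2_sum, add_zero] at h1
  rw [g_affine hL hg hne 0 0, g_affine hL hg hne 1 1] at h1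
  revert h1
  generalize cc g x z = a
  generalize aa g x z = b
  generalize aa g z x = c
  revert a b c
  decide

/-- PROOF. Insert `g_affine` in `Flat.rel` for the eight lifts of the block: with the star sums
`Sx := aa g x y + aa g x z + aa g x w`, ... and the sum `C` of the six `cc`: `C + i * Sx + j * Sy + k * Sz + l * Sw = 0`
whenever `i + j + k + l = s {x, y, z, w}`.  Comparing `(i, j, k, l)` with `(i + 1, j + 1, k, l)` and so on gives
`Sx = Sy = Sz = Sw =: m`, and then `C = m * s {x, y, z, w}`. -/
theorem star (hL : Good L) {g : V × ZMod 2 → V × ZMod 2 → ZMod 2}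
    (hg : Flat (lift L s) g) {x y z w : V} (h : L.R x y z w) :
    ∃ m : ZMod 2, aa g x y + aa g x z + aa g x w = m ∧ aa g y x + aa g y z + aa g y w = m ∧
      aa g z x + aa g z y + aa g z w = m ∧ aa g w x + aa g w y + aa g w z = m ∧
      cc g x y + cc g x z + cc g x w + cc g y z + cc g y w + cc g z w =
        m * s {x, y, z, w} := by
  have key : ∀ i j k : ZMod 2,
      (cc g x y + cc g x z + cc g x w + cc g y z + cc g y w + cc g z w) +
      i * (aa g x y + aa g x z + aa g x w) + j * (aa g y x + aa g y z + aa g y w) +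
      k * (aa g z x + aa g z y + aa g z w) +
      (i + j + k + s {x, y, z, w}) * (aa g w x + aa g w y + aa g w z) = 0 := by
    intro i j k
    have h1 := hg.rel _ _ _ _ (lift_R_reg (s := s) (i := i) (j := j) (k := k)
      (l := i + j + k + s {x, y, z, w}) h (by
        generalize s {x, y, z, w} = σ
        revert i j k σ
        decide))
    rw [g_affine hL hg (hL.Rne_xy h), g_affine hL hg (hL.Rne_xz h), g_affine hL hg (hL.Rne_xw h),
      g_affine hL hg (hL.Rne_yz h), g_affine hL hg (hL.Rne_yw h), g_affine hL hg (hL.Rne_zw h)] at h1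
    rw [← h1]
    ring
  refine ⟨aa g w x + aa g w y + aa g w z, ?_⟩
  revert key
  generalize cc g x y + cc g x z + cc g x w + cc g y z + cc g y w + cc g z w = C
  generalize aa g x y + aa g x z + aa g x w = Sx
  generalize aa g y x + aa g y z + aa g y w = Sy
  generalize aa g z x + aa g z y + aa g z w = Sz
  generalize aa g w x + aa g w y + aa g w z = Sw
  generalize s {x, y, z, w} = σ
  revert C Sx Sy Sz Sw σ
  decide

end Pool.Agent.Lib.H97Z
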