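import Pool.Agent.Lib.H97Z.D1
import Pool.Agent.Lib.H97Z.C8

/-! Chunk W5: symmetric functions on pairs with equal star sums -/

set_option autoImplicit false

namespace Pool.Agent.Lib.H97Z

variable {V : Type} [Fintype V] [DecidableEq V] {L : Lev V}

/-- PROOF. `τ x y z := A x y + A y z + A x z` is symmetric, and `τ x y z + τ x y w =
A x z + A y z + A x w + A y w = 0` is the sum of the star sums at `x` and `y`.  By `SC` there is `θ` with
`τ x y z = θ (L.hue x)` for `L.R x y z w`, `L.hue x = L.hue y`.
Let `A' x z := A x z + if L.hue x = L.hue z then θ (L.hue x) else 0`.  For `L.R x y z w`:
`A' x y + A' y z + A' x z = 0`: among `x, y, z` two have equal hue, say `x, y` (permute); then `τ x y z = θ (L.hue x)`,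
and the number of pure pairs among `x, y, z` is `1` (if `z` has the other hue) or `3`.  Now `cob`. -/
theorem star_structure (hL : Good L) (hSC : SC L) {A : V → V → ZMod 2}
    (hs : ∀ x z, A x z = A z x)
    (hA : ∀ x y z w, L.R x y z w → A x y + A x z + A x w = A y x + A y z + A y w) :
    ∃ (α : V → ZMod 2) (θ : ZMod 2 → ZMod 2), ∀ x z, x ≠ z →
      A x z = α x + α z + if L.hue x = L.hue z then θ (L.hue x) else 0 := by
  obtain ⟨θ, hθ⟩ := hSC (fun x y z => A x y + A y z + A x z)
    (fun x y z => by rw [hs x y]; ring) (fun x y z => by rw [hs y z]; ring)
    (by
      intro x y z w h
      have h1 := hA _ _ _ _ h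
      rw [hs y x] at h1
      revert h1
      generalize A x y = a
      generalize A x z = b
      generalize A x w = c
      generalize A y z = d
      generalize A y w = e
      revert a b c d e
      decide)
  obtain ⟨α, hα⟩ := cob hL (fun x z => A x z + if L.hue x = L.hue z then θ (L.hue x) else 0)
    (by
      intro x z
      rw [hs x z]
      by_cases hh : L.hue x = L.hue z
      · rw [if_pos hh, if_pos hh.symm, hh]
      · rw [if_neg hh, if_neg (Ne.symm hh)])
    (by
      intro x y z w h
      have hex : L.hue x = L.hue y ∨ L.hue x = L.hue z ∨ L.hue y = L.hue z := by
        generalize L.hue x = a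
        generalize L.hue y = b
        generalize L.hue z = c
        revert a b c
        decide
      rcases hex with e | e | e
      · have h1 := hθ _ _ _ _ h e
        by_cases e2 : L.hue y = L.hue z
        · rw [if_pos e, if_pos e2, if_pos (e.trans e2), ← e]
          revert h1
          generalize A x y = a
          generalize A y z = b
          generalize A x z = c
          generalize θ (L.hue x) = d
          revert a b c d
          decide
        · rw [if_pos e, if_neg e2, if_neg (by rw [e]; exact e2)]
          revert h1
          generalize A x y = a
          generalize A y z = b
          generalize A x z = c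
          generalize θ (L.hue x) = d
          revert a b c d
          decide
      · have h1 := hθ _ _ _ _ (hL.R_xzyw h) e
        rw [hs z y] at h1
        by_cases e2 : L.hue x = L.hue y
        · rw [if_pos e2, if_pos e, if_pos (e2.symm.trans e), ← e2]
          revert h1
          generalize A x y = a
          generalize A y z = b
          generalize A x z = c
          generalize θ (L.hue x) = d
          revert a b c d
          decide
        · rw [if_neg e2, if_pos e, if_neg (fun e3 => e2 (e.trans e3.symm))]
          revert h1
          generalize A x y = a
          generalize A y z = b
          generalize A x z = c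
          generalize θ (L.hue x) = d
          revert a b c d
          decide
      · have h1 := hθ _ _ _ _ (hL.R_yzxw h) e
        rw [hs z x, hs y x] at h1
        by_cases e2 : L.hue x = L.hue y
        · rw [if_pos e2, if_pos e, if_pos (e2.trans e), e2]
          revert h1
          generalize A x y = a
          generalize A y z = b
          generalize A x z = c
          generalize θ (L.hue y) = d
          revert a b c d
          decide
        · rw [if_neg e2, if_pos e, if_neg (fun e3 => e2 (e3.trans e.symm))]
          revert h1
          generalize A x y = a
          generalize A y z = b
          generalize A x z = c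
          generalize θ (L.hue y) = d
          revert a b c d
          decide)
  refine ⟨α, θ, ?_⟩
  intro x z hxz
  have h1 := hα x z hxz
  revert h1
  generalize (if L.hue x = L.hue z then θ (L.hue x) else 0) = q
  generalize A x z = a
  generalize α x = b
  generalize α z = c
  revert q a b c
  decide

end Pool.Agent.Lib.H97Z
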