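import Pool.Agent.Lib.H97Z.W4
import Pool.Agent.Lib.H97Z.W5

/-! Chunk W6: flat vectors of the lift: the linear coefficients -/

set_option autoImplicit false

namespace Pool.Agent.Lib.H97Z

variable {V : Type} [Fintype V] [DecidableEq V] {L : Lev V} {s : Finset V → ZMod 2}

theorem w6_star : ∀ a b c d t : ZMod 2, a + b + c + d = 1 →
    (if a = b then t else 0) + (if a = c then t else 0) + (if a = d then t else 0) = 0 := by
  decide

theorem w6_z4 : ∀ a b c p q r m : ZMod 2, a + b + c = m →
    (p + q + r = 0) → (a + p) + (b + q) + (c + r) = m := by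
  decide

/-- PROOF. `E x z := aa g x z + aa g z x`; for `L.R x y z w` with `x, y, z` of equal hue the sum of the four star sums
is `0` and `E = 0` on the mixed pairs (`aa_symm`), so `E x y + E y z + E x z = 0`: `cob_pure` gives `t` with
`E x z = t x + t z` for pure pairs.  `A x z := aa g x z + (if L.hue x = L.hue z then t x else 0)` for `x ≠ z` and
`A x x := 0` is symmetric.  Its star sums are the star sums of `aa`: at each of the three majority vertices
`x` the correction is `2 t x = 0`, at the minority vertex there is none.  `star_structure`. -/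
theorem aa_structure (hL : Good L) (hSC : SC L) {g : V × ZMod 2 → V × ZMod 2 → ZMod 2}
    (hg : Flat (lift L s) g) :
    ∃ (α t : V → ZMod 2) (θ : ZMod 2 → ZMod 2),
      (∀ x z, x ≠ z → L.hue x = L.hue z → aa g x z = α x + α z + θ (L.hue x) + t x) ∧
      (∀ x z, L.hue x ≠ L.hue z → aa g x z = α x + α z) := by
  obtain ⟨t, ht⟩ := cob_pure hL (fun x z => aa g x z + aa g z x) (fun x z => add_comm _ _)
    (by
      intro x y z w h h1 h2
      obtain ⟨m, e1, e2, e3, e4, -⟩ := star hL hg h
      have hw : L.hue x ≠ L.hue w := by
        have h3 := hL.Rhue _ _ _ _ h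
        rw [h2.symm, h1.symm] at h3
        intro e
        rw [← e] at h3
        revert h3
        generalize L.hue x = a
        revert a
        decide
      have f1 := aa_symm hL hg hw
      have f2 := aa_symm hL hg (by rw [← h1]; exact hw : L.hue y ≠ L.hue w)
      have f3 := aa_symm hL hg (by rw [← h2, ← h1]; exact hw : L.hue z ≠ L.hue w)
      rw [f1] at e1
      rw [f2] at e2
      rw [f3] at e3
      revert e1 e2 e3 e4
      generalize aa g x y = a1
      generalize aa g x z = a2
      generalize aa g y x = a4
      generalize aa g y z = a5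
      generalize aa g z x = a7
      generalize aa g z y = a8
      generalize aa g w x = b1
      generalize aa g w y = b2
      generalize aa g w z = b3
      intro e1 e2 e3 e4
      have two : (2 : ZMod 2) = 0 := rfl
      linear_combination e1 + e2 + e3 + e4 + (2 * m - b1 - b2 - b3) * two)
  have hA1 : ∀ x z, x ≠ z → (if x = z then (0 : ZMod 2) else
      aa g x z + (if L.hue x = L.hue z then t x else 0)) =
        aa g x z + (if L.hue x = L.hue z then t x else 0) := fun x z h => if_neg h
  obtain ⟨α, θ, hα⟩ := star_structure hL hSC (A := fun x z => if x = z then (0 : ZMod 2) else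
      aa g x z + (if L.hue x = L.hue z then t x else 0))
    (by
      intro x z
      by_cases hxz : x = z
      · rw [hxz]
      · rw [if_neg hxz, if_neg (Ne.symm hxz)]
        by_cases hh : L.hue x = L.hue z
        · rw [if_pos hh, if_pos hh.symm]
          have h1 := ht x z hxz hh
          revert h1
          generalize aa g x z = a
          generalize aa g z x = b
          generalize t x = c
          generalize t z = d
          revert a b c d
          decide
        · rw [if_neg hh, if_neg (Ne.symm hh), aa_symm hL hg hh])
    (by
      intro x y z w h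
      obtain ⟨m, e1, e2, e3, e4, -⟩ := star hL hg h
      have hr := hL.Rhue _ _ _ _ h
      have hr2 := hL.Rhue _ _ _ _ (hL.R_yxzw h)
      rw [if_neg (hL.Rne_xy h), if_neg (hL.Rne_xz h), if_neg (hL.Rne_xw h),
        if_neg (Ne.symm (hL.Rne_xy h)), if_neg (hL.Rne_yz h), if_neg (hL.Rne_yw h)]
      rw [w6_z4 _ _ _ _ _ _ m e1 (w6_star _ _ _ _ _ hr),
        w6_z4 _ _ _ _ _ _ m e2 (w6_star _ _ _ _ _ hr2)])
  refine ⟨α, t, θ, ?_, ?_⟩
  · intro x z hxz hh
    have h1 := hα x z hxz
    rw [if_neg hxz, if_pos hh, if_pos hh] at h1
    revert h1
    generalize aa g x z = a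
    generalize θ (L.hue x) = b
    generalize t x = c
    generalize α x = d
    generalize α z = e
    revert a b c d e
    decide
  · intro x z hh
    have hxz : x ≠ z := fun e => hh (by rw [e])
    have h1 := hα x z hxz
    rw [if_neg hxz, if_neg hh, if_neg hh, add_zero, add_zero] at h1
    exact h1

end Pool.Agent.Lib.H97Z
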