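import Pool.Agent.Lib.H97Z.D1
import Pool.Agent.Lib.H97Z.D0

/-! Chunk X1: the complex of a level -/

set_option autoImplicit false

namespace Pool.Agent.Lib.H97Z

variable {V : Type} [Fintype V] [DecidableEq V] {L : Lev V}

open Classical in
/-- The faces: subsets of blocks. -/
noncomputable def faces (L : Lev V) : Finset (Finset V) :=
  Finset.univ.filter fun σ => σ = ∅ ∨ ∃ x y z u, Blk L x y z u ∧ σ ⊆ {x, y, z, u}

/-- PROOF. Definition. -/
theorem mem_faces (σ : Finset V) :
    σ ∈ faces L ↔ σ = ∅ ∨ ∃ x y z u, Blk L x y z u ∧ σ ⊆ {x, y, z, u} := by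
  classical
  simp only [faces, Finset.mem_filter, Finset.mem_univ, true_and]

theorem x1_card (hL : Good L) {x y z u : V} (h : Blk L x y z u) :
    ({x, y, z, u} : Finset V).card = 4 := by
  obtain ⟨h1, h2, h3, h4, h5, h6⟩ := hL.Blk_ne4 h
  rw [Finset.card_insert_of_notMem (by simp [h1, h2, h3]),
    Finset.card_insert_of_notMem (by simp [h4, h5]),
    Finset.card_insert_of_notMem (by simp [h6]), Finset.card_singleton]

theorem x1_block (_hL : Good L) {x y z u : V} (h : Blk L x y z u) :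
    ({x, y, z, u} : Finset V) ∈ faces L :=
  (mem_faces _).2 (Or.inr ⟨x, y, z, u, h, Finset.Subset.refl _⟩)

/-- PROOF. Blocks have four distinct vertices (`Good.Blk_ne4`). -/
theorem faces_card (_hL : Good L) {σ : Finset V} (h : σ ∈ faces L) : σ.card ≤ 4 := by
  rcases (mem_faces σ).1 h with h0 | ⟨x, y, z, u, -, h2⟩
  · rw [h0]; simp
  · exact (Finset.card_le_card h2).trans Finset.card_le_four

/-- PROOF. Take the block; if `σ = ∅` any block (`Good.two` for three distinct vertices, which exist by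
`Good.big`). -/
theorem faces_pure (hL : Good L) {σ : Finset V} (h : σ ∈ faces L) :
    ∃ t ∈ faces L, σ ⊆ t ∧ t.card = 4 := by
  rcases (mem_faces σ).1 h with h0 | ⟨x, y, z, u, h1, h2⟩
  · have hb := hL.big 0
    obtain ⟨a, -, b, -, c, -, hab, hac, hbc⟩ := Finset.two_lt_card.1
      (show 2 < (Finset.univ.filter fun v => L.hue v = 0).card by omega)
    obtain ⟨u, -, -, hu, -, -⟩ := hL.two a b c hab hac hbc
    exact ⟨{a, b, c, u}, x1_block hL hu, by rw [h0]; exact Finset.empty_subset _, x1_card hL hu⟩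
  · exact ⟨{x, y, z, u}, x1_block hL h1, h2, x1_card hL h1⟩

/-- PROOF. `Good.two`: a block `Blk L x y z u`. -/
theorem faces_triple (hL : Good L) {x y z : V} (h1 : x ≠ y) (h2 : x ≠ z) (h3 : y ≠ z) :
    {x, y, z} ∈ faces L := by
  obtain ⟨u, -, -, hu, -, -⟩ := hL.two x y z h1 h2 h3
  refine (mem_faces _).2 (Or.inr ⟨x, y, z, u, hu, ?_⟩)
  intro a ha
  simp only [Finset.mem_insert, Finset.mem_singleton] at ha ⊢
  tauto

theorem x1_p3 (hL : Good L) {x y a b z : V} (h : Blk L x y a b)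
    (hz : z ∈ ({x, y, a, b} : Finset V)) (h1 : z ≠ x) (h2 : z ≠ y) :
    ∃ u, ({x, y, a, b} : Finset V) = {x, y, z, u} ∧ Blk L x y z u := by
  simp only [Finset.mem_insert, Finset.mem_singleton] at hz
  rcases hz with hz | hz | hz | hz
  · exact absurd hz h1
  · exact absurd hz h2
  · subst hz; exact ⟨b, rfl, h⟩
  · subst hz
    exact ⟨a, by ext v; simp only [Finset.mem_insert, Finset.mem_singleton]; tauto, hL.Blk34 h⟩

theorem x1_p2 (hL : Good L) {x a b c y : V} (h : Blk L x a b c)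
    (hy : y ∈ ({x, a, b, c} : Finset V)) (h1 : y ≠ x) :
    ∃ b' c', ({x, a, b, c} : Finset V) = {x, y, b', c'} ∧ Blk L x y b' c' := by
  simp only [Finset.mem_insert, Finset.mem_singleton] at hy
  rcases hy with hz | hz | hz | hz
  · exact absurd hz h1
  · subst hz; exact ⟨b, c, rfl, h⟩
  · subst hz
    exact ⟨a, c, by ext v; simp only [Finset.mem_insert, Finset.mem_singleton]; tauto, hL.Blk23 h⟩
  · subst hz
    exact ⟨a, b, by ext v; simp only [Finset.mem_insert, Finset.mem_singleton]; tauto,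
      hL.Blk23 (hL.Blk34 h)⟩

theorem x1_p1 (hL : Good L) {a b c d x : V} (h : Blk L a b c d)
    (hx : x ∈ ({a, b, c, d} : Finset V)) :
    ∃ a' b' c', ({a, b, c, d} : Finset V) = {x, a', b', c'} ∧ Blk L x a' b' c' := by
  simp only [Finset.mem_insert, Finset.mem_singleton] at hx
  rcases hx with hz | hz | hz | hz
  · subst hz; exact ⟨b, c, d, rfl, h⟩
  · subst hz
    exact ⟨a, c, d, by ext v; simp only [Finset.mem_insert, Finset.mem_singleton]; tauto,
      hL.Blk12 h⟩
  · subst hz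
    exact ⟨a, b, d, by ext v; simp only [Finset.mem_insert, Finset.mem_singleton]; tauto,
      hL.Blk12 (hL.Blk23 h)⟩
  · subst hz
    exact ⟨a, b, c, by ext v; simp only [Finset.mem_insert, Finset.mem_singleton]; tauto,
      hL.Blk12 (hL.Blk23 (hL.Blk34 h))⟩

/-- PROOF. A face `t` with four elements and `{x, y, z} ⊆ t ⊆ {x', y', z', u'}` is `{x', y', z', u'}`; permute the
block with `Good.Blk12`, `Good.Blk23`, `Good.Blk34` such that `t = {x, y, z, u}` with `Blk L x y z u`. -/
theorem faces_four (hL : Good L) {x y z : V} (h1 : x ≠ y) (h2 : x ≠ z) (h3 : y ≠ z)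
    {t : Finset V} (ht : t ∈ faces L) (hc : t.card = 4) (hs : {x, y, z} ⊆ t) :
    ∃ u, t = {x, y, z, u} ∧ Blk L x y z u := by
  rcases (mem_faces t).1 ht with h0 | ⟨a, b, c, d, hB, hsub⟩
  · rw [h0] at hc; simp at hc
  · have ht2 : t = {a, b, c, d} := Finset.eq_of_subset_of_card_le hsub (by
      rw [hc]; exact Finset.card_le_four)
    have hx : x ∈ ({a, b, c, d} : Finset V) := by rw [← ht2]; exact hs (by simp)
    obtain ⟨a1, b1, c1, e1, hB1⟩ := x1_p1 hL hB hx
    have hy : y ∈ ({x, a1, b1, c1} : Finset V) := by rw [← e1, ← ht2]; exact hs (by simp)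
    obtain ⟨b2, c2, e2, hB2⟩ := x1_p2 hL hB1 hy (Ne.symm h1)
    have hz : z ∈ ({x, y, b2, c2} : Finset V) := by
      rw [← e2, ← e1, ← ht2]; exact hs (by simp)
    obtain ⟨u, e3, hB3⟩ := x1_p3 hL hB2 hz (Ne.symm h2) (Ne.symm h3)
    exact ⟨u, by rw [ht2, e1, e2, e3], hB3⟩

end Pool.Agent.Lib.H97Z
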