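import Pool.Agent.Lib.H97Z.Z0

/-! Loops, and the axioms on the tables of the base level. -/

set_option autoImplicit false

namespace Pool.Agent.Lib.H97Z.Base

theorem lp_spec (n : ℕ) (f : ℕ → Bool) (h : lp n f = true) : ∀ k, k < n → f k = true := by
  induction n with
  | zero => intro k hk; omega
  | succ n ih =>
    have h1 : cond (f n) (lp n f) false = true := h
    intro k hk
    cases hf : f n with
    | false => rw [hf] at h1; exact Bool.noConfusion h1
    | true =>
      rw [hf] at h1
      rcases Nat.lt_succ_iff_lt_or_eq.1 hk with h2 | h2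
      · exact ih h1 k h2
      · rw [h2]; exact hf

theorem lp1 {f : ℕ → Bool} (h : lp 16 f = true) (x : Fin 16) : f x.val = true :=
  lp_spec 16 f h x.val x.isLt

theorem lp2 {f : ℕ → ℕ → Bool} (h : lp 16 (fun x => lp 16 fun y => f x y) = true)
    (x y : Fin 16) : f x.val y.val = true :=
  lp1 (lp1 h x) y

theorem lp3 {f : ℕ → ℕ → ℕ → Bool}
    (h : lp 16 (fun x => lp 16 fun y => lp 16 fun z => f x y z) = true)
    (x y z : Fin 16) : f x.val y.val z.val = true :=
  lp2 (lp1 h x) y z

theorem lp4 {f : ℕ → ℕ → ℕ → ℕ → Bool}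
    (h : lp 16 (fun x => lp 16 fun y => lp 16 fun z => lp 16 fun w => f x y z w) = true)
    (x y z w : Fin 16) : f x.val y.val z.val w.val = true :=
  lp3 (lp1 h x) y z w

theorem cond_imp {a b : Bool} (h : cond a b true = true) (ha : a = true) : b = true := by
  rw [ha] at h; exact h

theorem ne_of_beq {x y : Fin 16} (h : Nat.beq x.val y.val = false) : x ≠ y := by
  intro e
  rw [e] at h
  rw [Nat.beq_refl] at h
  exact absurd h (by decide)

theorem z2_ne {a b : Bool} (h : xor a b = true) : z2 a ≠ z2 b := by
  revert a b; decide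

end Pool.Agent.Lib.H97Z.Base
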