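import Pool.Agent.Lib.H97Z.Z7

/-! Chunk Z10: base level: boundary pairs, soundness of the check -/

set_option autoImplicit false

namespace Pool.Agent.Lib.H97Z.Base

theorem z10_an {a b : Bool} : an a b = true ↔ a = true ∧ b = true := by
  revert a b
  decide

theorem z10_oo {a b : Bool} : oo a b = true ↔ a = true ∨ b = true := by
  revert a b
  decide

theorem z10_no {a : Bool} : no a = true ↔ a = false := by
  revert a
  decide

theorem z10_im {a b : Bool} : im a b = true ↔ (a = true → b = true) := by
  revert a b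
  decide

theorem z10_beq {a b : Fin 16} : Nat.beq a.val b.val = true ↔ a = b := by
  constructor
  · intro h
    exact Fin.ext (Nat.eq_of_beq_eq_true h)
  · intro h
    rw [h]
    exact Nat.beq_refl _

theorem z10_hue {a b : Bool} : xor a b = false ↔ z2 a = z2 b := by
  revert a b
  decide

theorem z10_bit {a b : Bool} : xor a b = true ↔ z2 a + z2 b = 1 := by
  revert a b
  decide

theorem z10_par (p q : Bool) (a b c d : ZMod 2) (h1 : b = a + z2 p) (h2 : d = c + z2 q) :
    a + b + c + d = z2 p + z2 q := by
  rw [h1, h2]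
  have key : ∀ a c u v : ZMod 2, a + (a + u) + c + (c + v) = u + v := by
    decide
  exact key _ _ _ _

theorem z10_c {a b : Bool} : xor a b = true ↔ z2 a = z2 b + 1 := by
  revert a b
  decide

theorem z10_xf {a b : Bool} : xor a b = false ↔ z2 a + z2 b = 0 := by
  revert a b
  decide

/-- PROOF. As `ckP_spec` (chunk Z8), with two strands `w..a`, `d..y`.  `c`: `xor (ub CT x z) (tb BT x z a d)`. -/
theorem ckD_spec {x z : Fin 16} {w a d y : ℕ} {l₁ l₂ : List ℕ}
    (h : ckD x.val z.val w a d y l₁ l₂ = true) :
    ∃ Y W A D : Fin 16, BdAt L0 x z Y W A D := by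
  unfold ckD at h
  simp only [z10_an] at h
  obtain ⟨h1, h2, h3, h4, h5, h6, h7, h8, h9, h10⟩ := h
  obtain ⟨W, A, rfl, rfl, cl1, on1, me1⟩ := ckl_spec h1
  obtain ⟨D, Y, rfl, rfl, cl2, on2, me2⟩ := ckl_spec h2
  refine ⟨Y, W, A, D, ?_⟩
  exact
    { s1 := h3
      all := by
        intro p q hpq
        have h := z10_im.1 (lp2 h4 p q) hpq
        rw [z10_an, z10_beq, z10_beq] at h
        exact h
      t1 := h5
      ha := z10_hue.1 (z10_no.1 h6)
      tall := by
        intro p q hpq hh
        have h := z10_im.1 (lp2 h7 p q) (z10_an.2 ⟨hpq, z10_no.2 (z10_hue.2 hh)⟩)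
        rw [z10_an, z10_beq, z10_beq] at h
        exact h
      c := z10_c.1 h8
      cl := fun f hf => ⟨(cl1 f hf).symm, (cl2 f hf).symm⟩
      van := by
        intro f hf f1 f3 v v1 v2
        have h := lp1 h9 v
        simp only [z10_oo, z10_beq] at h
        rcases h with h | h | h | h | h | h
        · exact absurd h v1
        · exact absurd h v2
        · rw [h]; exact f1
        · rw [h, ← cl2 f hf]; exact f3
        · rw [me1 v h f hf]; exact f1
        · rw [me2 v h f hf, ← cl2 f hf]; exact f3
      par := by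
        intro f hf
        rw [z10_par _ _ _ _ _ _ (on1 f hf) (on2 f hf)]
        exact z10_xf.1 (z10_no.1 h10) }


end Pool.Agent.Lib.H97Z.Base
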