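import Pool.Agent.Lib.H97Z.Z5

/-! Base level: evaluation of the checks for all pairs. -/

set_option autoImplicit false

namespace Pool.Agent.Lib.H97Z.Base

theorem ckA_all : lp 16 (fun x => lp 16 fun z => ckA x z) = true := by
  decide +kernel

end Pool.Agent.Lib.H97Z.Base
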