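import Pool.Agent.Lib.H97Z.Z7

/-! Chunk Z8: base level: pure pairs, soundness of the check -/

set_option autoImplicit false

namespace Pool.Agent.Lib.H97Z.Base

theorem z8_feq {a b : Fin 16} {n : ℕ} (hb : b.val = n) (h : Nat.beq a.val n = true) : a = b := by
  apply Fin.ext
  rw [hb]
  exact Nat.eq_of_beq_eq_true h

theorem z8_fbeq {a b : Fin 16} (h : a = b) : Nat.beq a.val b.val = true := by
  rw [h]; exact Nat.beq_refl _

/-- PROOF. `ckl_spec` for both strands gives `W, Y', W', Y : Fin 16`.  The conjunction `an` is split with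
`cases` / `Bool.and`-like lemma (`an a b = true ↔ a = true ∧ b = true`, `oo a b = true ↔ a = true ∨ b = true`,
`no a = true ↔ a = false`, `im a b = true ↔ (a = true → b = true)`, all by `cases a <;> cases b <;> simp`), the loops
with `lp1`, `lp2`.  `Nat.beq p y = true` gives `p = y` (`Nat.eq_of_beq_eq_true`).  `cl` and `van`: values along the
strands; every `v` is `x`, `z` or on one of the strands. -/
theorem ckP_spec {x z : Fin 16} {w y' w' y : ℕ} {l l' : List ℕ}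
    (h : ckP x.val z.val w y' w' y l l' = true) :
    ∃ Y W Y' W' : Fin 16, PureAt L0 x z Y W Y' W' := by
  obtain ⟨h1, h⟩ := z7_an.1 h
  obtain ⟨h2, h⟩ := z7_an.1 h
  obtain ⟨h3, h⟩ := z7_an.1 h
  obtain ⟨h4, h⟩ := z7_an.1 h
  obtain ⟨h5, h⟩ := z7_an.1 h
  obtain ⟨h6, h7⟩ := z7_an.1 h
  obtain ⟨W, Y', rfl, rfl, p1, p2, p3⟩ := ckl_spec h1
  obtain ⟨W', Y, rfl, rfl, q1, q2, q3⟩ := ckl_spec h2
  refine ⟨Y, W, Y', W', ⟨h3, h4, ?_, ?_, ?_, ?_⟩⟩
  · rintro ⟨e1, e2⟩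
    have h8 := z7_no.1 h5
    rw [z7_an.2 ⟨z8_fbeq e1, z8_fbeq e2⟩] at h8
    exact Bool.noConfusion h8
  · intro p q hpq
    have h8 := z7_im.1 (lp2 h6 p q) hpq
    rcases z7_oo.1 h8 with h9 | h9
    · obtain ⟨h10, h11⟩ := z7_an.1 h9
      exact Or.inl ⟨z8_feq rfl h10, z8_feq rfl h11⟩
    · obtain ⟨h10, h11⟩ := z7_an.1 h9
      exact Or.inr ⟨z8_feq rfl h10, z8_feq rfl h11⟩
  · intro f hf
    exact ⟨(p1 f hf).symm, (q1 f hf).symm⟩
  · intro f hf hW hY v hvx hvz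
    have h8 := lp1 h7 v
    rcases z7_oo.1 h8 with h9 | h9
    · exact absurd (z8_feq rfl h9) hvx
    rcases z7_oo.1 h9 with h9 | h9
    · exact absurd (z8_feq rfl h9) hvz
    rcases z7_oo.1 h9 with h9 | h9
    · rw [z8_feq rfl h9, hW]
    rcases z7_oo.1 h9 with h9 | h9
    · rw [z8_feq rfl h9, ← q1 f hf, hY]
    rcases z7_oo.1 h9 with h9 | h9
    · rw [p3 v h9 f hf, hW]
    · rw [q3 v h9 f hf, ← q1 f hf, hY]

end Pool.Agent.Lib.H97Z.Base
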