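import Pool.Agent.Lib.H97Z.Z7

/-! Chunk Z9: base level: mixed pairs, soundness of the check -/

set_option autoImplicit false

namespace Pool.Agent.Lib.H97Z.Base

theorem z9_an {a b : Bool} : an a b = true ↔ a = true ∧ b = true := by
  revert a b
  decide

theorem z9_oo {a b : Bool} : oo a b = true ↔ a = true ∨ b = true := by
  revert a b
  decide

theorem z9_no {a : Bool} : no a = true ↔ a = false := by
  revert a
  decide

theorem z9_im {a b : Bool} : im a b = true ↔ (a = true → b = true) := by
  revert a b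
  decide

theorem z9_beq {a b : Fin 16} : Nat.beq a.val b.val = true ↔ a = b := by
  constructor
  · intro h
    exact Fin.ext (Nat.eq_of_beq_eq_true h)
  · intro h
    rw [h]
    exact Nat.beq_refl _

theorem z9_hue {a b : Bool} : xor a b = false ↔ z2 a = z2 b := by
  revert a b
  decide

theorem z9_bit {a b : Bool} : xor a b = true ↔ z2 a + z2 b = 1 := by
  revert a b
  decide

theorem z9_par (p q : Bool) (a b c d : ZMod 2) (h1 : b = a + z2 p) (h2 : d = c + z2 q) :
    a + b + c + d = z2 p + z2 q := by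
  rw [h1, h2]
  have key : ∀ a c u v : ZMod 2, a + (a + u) + c + (c + v) = u + v := by
    decide
  exact key _ _ _ _

/-- PROOF. As `ckP_spec` (chunk Z8), with four strands `w..a`, `d..y'`, `w'..a'`, `d'..y`.  `par`: the `One` part of
`ckl_spec`: `f A = f W + z2 (pa l₁)`, `f Y' = f D + z2 (pa l₂)`, and `xor (pa l₁) (pa l₂) = true`. -/
theorem ckM_spec {x z : Fin 16} {w a d y' w' a' d' y : ℕ} {l₁ l₂ l₃ l₄ : List ℕ}
    (h : ckM x.val z.val w a d y' w' a' d' y l₁ l₂ l₃ l₄ = true) :
    ∃ Y W Y' W' A D A' D' : Fin 16, MixAt L0 x z Y W Y' W' A D A' D' := by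
  unfold ckM at h
  simp only [z9_an] at h
  obtain ⟨h1, h2, h3, h4, h5, h6, h7, h8, h9, h10, h11, h12, h13, h14, h15, h16, h17⟩ := h
  obtain ⟨W, A, rfl, rfl, cl1, on1, me1⟩ := ckl_spec h1
  obtain ⟨D, Y', rfl, rfl, cl2, on2, me2⟩ := ckl_spec h2
  obtain ⟨W', A', rfl, rfl, cl3, on3, me3⟩ := ckl_spec h3
  obtain ⟨D', Y, rfl, rfl, cl4, on4, me4⟩ := ckl_spec h4
  refine ⟨Y, W, Y', W', A, D, A', D', ?_⟩
  exact
    { s1 := h5
      s2 := h6
      ne := by
        rintro ⟨e1, e2⟩
        have h := z9_no.1 h7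
        rw [z9_beq.2 e1, z9_beq.2 e2] at h
        exact absurd h (by decide)
      all := by
        intro p q hpq
        have h := z9_im.1 (lp2 h8 p q) hpq
        rw [z9_oo, z9_an, z9_an, z9_beq, z9_beq, z9_beq, z9_beq] at h
        exact h
      t1 := h9
      t2 := h10
      ha := z9_hue.1 (z9_no.1 h11)
      ha' := z9_hue.1 (z9_no.1 h12)
      tall := by
        intro p q hpq hh
        have h := z9_im.1 (lp2 h13 p q) (z9_an.2 ⟨hpq, z9_no.2 (z9_hue.2 hh)⟩)
        rw [z9_oo, z9_an, z9_an, z9_beq, z9_beq, z9_beq, z9_beq] at h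
        exact h
      bit := z9_bit.1 h14
      cl := fun f hf => ⟨(cl1 f hf).symm, (cl2 f hf).symm, (cl3 f hf).symm, (cl4 f hf).symm⟩
      van := by
        intro f hf f1 f2 f3 f4 v v1 v2
        have h := lp1 h15 v
        simp only [z9_oo, z9_beq] at h
        rcases h with h | h | h | h | h | h | h | h | h | h
        · exact absurd h v1
        · exact absurd h v2
        · rw [h]; exact f1
        · rw [h]; exact f2
        · rw [h, ← cl2 f hf]; exact f4
        · rw [h, ← cl4 f hf]; exact f3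
        · rw [me1 v h f hf]; exact f1
        · rw [me2 v h f hf, ← cl2 f hf]; exact f4
        · rw [me3 v h f hf]; exact f2
        · rw [me4 v h f hf, ← cl4 f hf]; exact f3
      par := by
        intro f hf
        constructor
        · rw [z9_par _ _ _ _ _ _ (on1 f hf) (on2 f hf)]
          exact z9_bit.1 h16
        · rw [z9_par _ _ _ _ _ _ (on3 f hf) (on4 f hf)]
          exact z9_bit.1 h17 }


end Pool.Agent.Lib.H97Z.Base
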