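import Pool.Agent.Lib.H97Z.Z3
import Pool.Agent.Lib.H97Z.Z5E
import Pool.Agent.Lib.H97Z.Z8
import Pool.Agent.Lib.H97Z.Z9
import Pool.Agent.Lib.H97Z.Z10

/-! Chunk Z11: base level: all pairs -/

set_option autoImplicit false

namespace Pool.Agent.Lib.H97Z.Base

theorem z11_beq {x y : Fin 16} (h : x ≠ y) : Nat.beq x.val y.val = false := by
  rw [← Bool.not_eq_true]
  intro h1
  exact h (Fin.ext (Nat.eq_of_beq_eq_true h1))

theorem z11_xor_f {a b : Bool} (h : z2 a = z2 b) : xor a b = false := by
  revert h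
  revert a b
  decide

theorem z11_xor_t {a b : Bool} (h : z2 a ≠ z2 b) : xor a b = true := by
  revert h
  revert a b
  decide

/-- PROOF. `ckA_all` with `lp2`; `ckA` unfolds; `Nat.beq x z = false` (`x ≠ z`), the hues decide the case. -/
theorem pure0 (x z : Fin 16) (h : x ≠ z) (hh : L0.hue x = L0.hue z) :
    ∃ y w y' w', PureAt L0 x z y w y' w' := by
  have h1 := lp2 ckA_all x z
  unfold ckA at h1
  have h2 : xor (hb x.val) (hb z.val) = false := z11_xor_f hh
  rw [z11_beq h, h2] at h1
  exact ckP_spec h1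


/-- PROOF. As `pure0`. -/
theorem mix0 (x z : Fin 16) (hh : L0.hue x ≠ L0.hue z) (hF : ¬ L0.F x z) :
    ∃ y w y' w' a d a' d', MixAt L0 x z y w y' w' a d a' d' := by
  have h : x ≠ z := fun e => hh (by rw [e])
  have h1 := lp2 ckA_all x z
  unfold ckA at h1
  have h2 : xor (hb x.val) (hb z.val) = true := z11_xor_t hh
  have h3 : fb x.val z.val = false := by
    rw [← Bool.not_eq_true]
    exact hF
  rw [z11_beq h, h2, h3] at h1
  exact ckM_spec h1


/-- PROOF. As `pure0`; the hues of a boundary pair are different (`ckF_spec` of Z3). -/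
theorem bd0 (x z : Fin 16) (hF : L0.F x z) : ∃ y w a d, BdAt L0 x z y w a d := by
  have hh := ((ckF_spec x z).1 hF).2
  have h : x ≠ z := fun e => hh (by rw [e])
  have h1 := lp2 ckA_all x z
  unfold ckA at h1
  have h2 : xor (hb x.val) (hb z.val) = true := z11_xor_t hh
  have h3 : fb x.val z.val = true := hF
  rw [z11_beq h, h2, h3] at h1
  exact ckD_spec h1


end Pool.Agent.Lib.H97Z.Base
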