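import Pool.Agent.Lib.H97Z.Z6E

/-! Chunk Z12: base level: rotations -/

set_option autoImplicit false

namespace Pool.Agent.Lib.H97Z.Base

theorem z12_an {a b : Bool} : an a b = true ↔ a = true ∧ b = true := by
  cases a <;> cases b <;> simp [an]

theorem z12_oo {a b : Bool} : oo a b = true ↔ a = true ∨ b = true := by
  cases a <;> cases b <;> simp [oo]

theorem z12_no {a : Bool} : no a = true ↔ a = false := by
  cases a <;> simp [no]

theorem z12_im {a b : Bool} : im a b = true ↔ (a = true → b = true) := by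
  cases a <;> cases b <;> simp [im]

theorem z12_xor (a b : Bool) : z2 (xor a b) = z2 a + z2 b := by
  revert a b; decide

theorem z12_feq {a b : Fin 16} {n : ℕ} (hb : b.val = n) (h : Nat.beq a.val n = true) : a = b := by
  apply Fin.ext
  rw [hb]
  exact Nat.eq_of_beq_eq_true h

/-- PROOF. Induction on `l`: `S x y z w` is `sb x y z w`; along an edge `g` is constant, or changes by `1`, or changes
by the bit `tb BT z w x y`. -/
theorem chS_spec {x : Fin 16} : ∀ (l m : List ℕ) (a : Fin 16), chS x.val l m a.val = true →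
    ∃ b : Fin 16, b.val = la l a.val ∧
      (∀ g : Fin 16 → ZMod 2, (∀ y z w, L0.S x y z w → g z = g w) → g b = g a ∧
        ∀ v : Fin 16, me v.val l = true → g v = g a) ∧
      (∀ g : Fin 16 → ZMod 2, (∀ y z w, L0.S x y z w → g z + g w = 1) →
        g b = g a + z2 (pa l)) ∧
      (∀ g : Fin 16 → ZMod 2, (∀ y z w, L0.S x y z w → g z + g w = L0.b z w x y) →
        g b = g a + z2 (suS x.val l m a.val)) := by
  intro l
  induction l with
  | nil =>
    intro m a _
    refine ⟨a, rfl, fun g _ => ⟨rfl, ?_⟩, fun g _ => ?_, fun g _ => ?_⟩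
    · intro v hv
      exact absurd hv (by simp [me])
    · show g a = g a + z2 false
      simp [z2]
    · show g a = g a + z2 false
      simp [z2]
  | cons c l ih =>
    intro m a h
    cases m with
    | nil => exact absurd (show false = true from h) (by decide)
    | cons y m =>
      have h1 : an (Nat.ble c 15) (an (Nat.ble y 15) (an (sb x.val y a.val c)
        (chS x.val l m c))) = true := h
      obtain ⟨h2, h3⟩ := z12_an.1 h1
      obtain ⟨h3, h4⟩ := z12_an.1 h3
      obtain ⟨h4, h5⟩ := z12_an.1 h4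
      have hc : c < 16 := Nat.lt_succ_of_le (Nat.le_of_ble_eq_true h2)
      have hy : y < 16 := Nat.lt_succ_of_le (Nat.le_of_ble_eq_true h3)
      obtain ⟨b, hb, p1, p2, p3⟩ := ih m ⟨c, hc⟩ h5
      have hS : L0.S x ⟨y, hy⟩ a ⟨c, hc⟩ := h4
      refine ⟨b, hb, ?_, ?_, ?_⟩
      · intro g hg
        have e := (hg _ _ _ hS).symm
        obtain ⟨q1, q2⟩ := p1 g hg
        refine ⟨q1.trans e, ?_⟩
        intro v hv
        have h6 : oo (Nat.beq v.val c) (me v.val l) = true := hv
        rcases z12_oo.1 h6 with h7 | h7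
        · have h8 : v = ⟨c, hc⟩ := Fin.ext (Nat.eq_of_beq_eq_true h7)
          rw [h8]
          exact e
        · exact (q2 v h7).trans e
      · intro g hg
        have e := hg _ _ _ hS
        rw [p2 g hg]
        have h6 : pa (c :: l) = xor true (pa l) := rfl
        rw [h6, z12_xor]
        have h8 : ∀ s t : ZMod 2, s + t = 1 → t = s + 1 := by decide
        rw [h8 _ _ e]
        show g a + 1 + z2 (pa l) = g a + (1 + z2 (pa l))
        ring
      · intro g hg
        have e := hg _ _ _ hS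
        rw [p3 g hg]
        have h6 : suS x.val (c :: l) (y :: m) a.val =
          xor (tb BT a.val c x.val y) (suS x.val l m c) := rfl
        rw [h6, z12_xor]
        have h8 : ∀ s t r : ZMod 2, s + t = r → t = s + r := by decide
        rw [h8 _ _ _ e]
        show g a + z2 (tb BT a.val c x.val y) + z2 (suS x.val l m c) =
          g a + (z2 (tb BT a.val c x.val y) + z2 (suS x.val l m c))
        ring

/-- PROOF. `chS_spec`; `con`: every `v ≠ x` is `u` or on the list; `par`: `pa l = false`; `bit`: the sum of the bits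
is `1 + c x u + c x u'`; `z2` turns `xor` into `+`, `no` into `1 +`. -/
theorem ckO_spec {x : Fin 16} {u u' : ℕ} {l m : List ℕ} (h : ckO x.val u u' l m = true) :
    ∃ U U' : Fin 16, RotAt L0 x U U' := by
  obtain ⟨h1, h⟩ := z12_an.1 h
  obtain ⟨h2, h⟩ := z12_an.1 h
  obtain ⟨h3, h⟩ := z12_an.1 h
  obtain ⟨h4, h⟩ := z12_an.1 h
  obtain ⟨h5, h⟩ := z12_an.1 h
  obtain ⟨h6, h⟩ := z12_an.1 h
  obtain ⟨h7, h⟩ := z12_an.1 h
  obtain ⟨h8, h⟩ := z12_an.1 h
  obtain ⟨h9, h⟩ := z12_an.1 h
  obtain ⟨h10, h11⟩ := z12_an.1 h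
  have hu : u < 16 := Nat.lt_succ_of_le (Nat.le_of_ble_eq_true h1)
  obtain ⟨b, hb, p1, p2, p3⟩ := chS_spec (x := x) l m ⟨u, hu⟩ h2
  have hb' : b.val = u' := hb.trans (Nat.eq_of_beq_eq_true h3)
  subst hb'
  refine ⟨⟨u, hu⟩, b, ⟨h4, h5, ?_, ?_, ?_, ?_, ?_, ?_⟩⟩
  · intro e
    have h12 := z12_no.1 h6
    rw [← e] at h12
    rw [show Nat.beq u (⟨u, hu⟩ : Fin 16).val = true from Nat.beq_refl u] at h12
    exact Bool.noConfusion h12
  · intro v hv
    have h12 := z12_im.1 (lp1 h7 v) hv
    rcases z12_oo.1 h12 with h13 | h13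
    · exact Or.inl (Fin.ext (Nat.eq_of_beq_eq_true h13))
    · exact Or.inr (Fin.ext (Nat.eq_of_beq_eq_true h13))
  · intro g hg
    obtain ⟨q1, q2⟩ := p1 g hg
    have key : ∀ v, v ≠ x → g v = g ⟨u, hu⟩ := by
      intro v hv
      rcases z12_oo.1 (lp1 h8 v) with h13 | h13
      · exact absurd (Fin.ext (Nat.eq_of_beq_eq_true h13)) hv
      rcases z12_oo.1 h13 with h14 | h14
      · rw [show v = ⟨u, hu⟩ from Fin.ext (Nat.eq_of_beq_eq_true h14)]
      · exact q2 v h14
    intro v v' hv hv'
    rw [key v hv, key v' hv']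
  · intro g hg
    have h12 := p2 g hg
    rw [z12_no.1 h9] at h12
    rw [h12]
    simp [z2]
  · intro g hg
    have h12 := p3 g hg
    have h13 := z12_no.1 h10
    have key : ∀ s a c : Bool, xor s (no (xor a c)) = false → ∀ t r : ZMod 2, t = r + z2 s →
        r + t = 1 + z2 a + z2 c := by decide
    exact key _ _ _ h13 _ _ h12
  · have key : ∀ a c : Bool, xor a c = true → z2 a + z2 c = 1 := by decide
    exact key _ _ h11

/-- PROOF. `ckO_all` with `lp1`. -/
theorem rot0 (x : Fin 16) : ∃ u u', RotAt L0 x u u' := by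
  exact ckO_spec (lp1 ckO_all x)

end Pool.Agent.Lib.H97Z.Base
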