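import Pool.Agent.Lib.H97Z.Z6E

/-! Chunk Z13: base level: connectedness -/

set_option autoImplicit false

namespace Pool.Agent.Lib.H97Z.Base

theorem z13_an {a b : Bool} : an a b = true ↔ a = true ∧ b = true := by
  cases a <;> cases b <;> simp [an]

theorem z13_oo {a b : Bool} : oo a b = true ↔ a = true ∨ b = true := by
  cases a <;> cases b <;> simp [oo]

theorem z13_no {a : Bool} : no a = true ↔ a = false := by
  cases a <;> simp [no]

theorem z13_im {a b : Bool} : im a b = true ↔ (a = true → b = true) := by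
  cases a <;> cases b <;> simp [im]

theorem z13_ne {a b : Bool} : xor a b = true ↔ z2 a ≠ z2 b := by
  revert a b; decide

theorem z13_eq3 {a b c : Bool} (h1 : xor a c = true) (h2 : xor b c = true) : z2 a = z2 b := by
  revert a b c; decide

theorem z13_chM (r : Fin 16 → ZMod 2)
    (hr : ∀ x z, L0.hue x ≠ L0.hue z → ¬ L0.F x z → r x = r z) :
    ∀ (l : List ℕ) (a : Fin 16), chM l a.val = true → ∀ v : Fin 16, me v.val l = true →
      r v = r a := by
  intro l
  induction l with
  | nil => intro a _ v hv; exact absurd hv (by simp [me])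
  | cons c l ih =>
    intro a h v hv
    have h1 : an (Nat.ble c 15) (an (xor (hb a.val) (hb c)) (an (no (fb a.val c)) (chM l c))) =
      true := h
    obtain ⟨h2, h3⟩ := z13_an.1 h1
    obtain ⟨h3, h4⟩ := z13_an.1 h3
    obtain ⟨h4, h5⟩ := z13_an.1 h4
    have hc : c < 16 := Nat.lt_succ_of_le (Nat.le_of_ble_eq_true h2)
    have e : r a = r ⟨c, hc⟩ := by
      apply hr a ⟨c, hc⟩ (z13_ne.1 h3)
      intro h6
      have h7 : fb a.val c = true := h6
      rw [z13_no.1 h4] at h7
      exact Bool.noConfusion h7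
    have h6 : oo (Nat.beq v.val c) (me v.val l) = true := hv
    rcases z13_oo.1 h6 with h7 | h7
    · rw [show v = ⟨c, hc⟩ from Fin.ext (Nat.eq_of_beq_eq_true h7)]
      exact e.symm
    · exact (ih ⟨c, hc⟩ h5 v h7).trans e.symm

/-- PROOF. `ckC_all`: along the path `r` is constant (induction on the list), and every vertex is on the path. -/
theorem conn0 (r : Fin 16 → ZMod 2)
    (hr : ∀ x z, L0.hue x ≠ L0.hue z → ¬ L0.F x z → r x = r z) : ∀ x z, r x = r z := by
  obtain ⟨h1, h2⟩ := z13_an.1 ckC_all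
  obtain ⟨h2, h3⟩ := z13_an.1 h2
  have hc : hd CO < 16 := Nat.lt_succ_of_le (Nat.le_of_ble_eq_true h1)
  have key : ∀ v, r v = r ⟨hd CO, hc⟩ := by
    intro v
    rcases z13_oo.1 (lp1 h3 v) with h7 | h7
    · rw [show v = ⟨hd CO, hc⟩ from Fin.ext (Nat.eq_of_beq_eq_true h7)]
    · exact z13_chM r hr (tl CO) ⟨hd CO, hc⟩ h2 v h7
  intro x z
  rw [key x, key z]

theorem z13_chN (d : Fin 16) (r : Fin 16 → ZMod 2)
    (hr : ∀ x y z, L0.R x y z d → L0.hue x = L0.hue y → L0.hue x ≠ L0.hue d → r x = r y) :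
    ∀ (l m : List ℕ) (a : Fin 16), chN d.val l m a.val = true → ∀ v : Fin 16,
      me v.val l = true → r v = r a := by
  intro l
  induction l with
  | nil => intro m a _ v hv; exact absurd hv (by simp [me])
  | cons c l ih =>
    intro m a h v hv
    cases m with
    | nil => exact absurd (show false = true from h) (by decide)
    | cons z m =>
      have h1 : an (Nat.ble c 15) (an (Nat.ble z 15) (an (rb a.val c z d.val)
        (an (xor (hb a.val) (hb d.val)) (an (xor (hb c) (hb d.val)) (chN d.val l m c))))) =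
        true := h
      obtain ⟨h2, h3⟩ := z13_an.1 h1
      obtain ⟨h3, h4⟩ := z13_an.1 h3
      obtain ⟨h4, h5⟩ := z13_an.1 h4
      obtain ⟨h5, h6⟩ := z13_an.1 h5
      obtain ⟨h6, h7⟩ := z13_an.1 h6
      have hc : c < 16 := Nat.lt_succ_of_le (Nat.le_of_ble_eq_true h2)
      have hz : z < 16 := Nat.lt_succ_of_le (Nat.le_of_ble_eq_true h3)
      have e : r a = r ⟨c, hc⟩ :=
        hr a ⟨c, hc⟩ ⟨z, hz⟩ h4 (z13_eq3 h5 h6) (z13_ne.1 h5)
      have h6 : oo (Nat.beq v.val c) (me v.val l) = true := hv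
      rcases z13_oo.1 h6 with h8 | h8
      · rw [show v = ⟨c, hc⟩ from Fin.ext (Nat.eq_of_beq_eq_true h8)]
        exact e.symm
      · exact (ih m ⟨c, hc⟩ h7 v h8).trans e.symm

/-- PROOF. `ckN_all`: along the path for `d` (induction on the list), and every vertex whose hue is not the hue of
`d` is on the path. -/
theorem ni0 (d : Fin 16) (r : Fin 16 → ZMod 2)
    (hr : ∀ x y z, L0.R x y z d → L0.hue x = L0.hue y → L0.hue x ≠ L0.hue d → r x = r y) :
    ∀ x y, L0.hue x ≠ L0.hue d → L0.hue y ≠ L0.hue d → r x = r y := by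
  obtain ⟨h1, h2⟩ := z13_an.1 (lp1 ckN_all d)
  obtain ⟨h2, h3⟩ := z13_an.1 h2
  have hc : hd (nth [] NV d.val) < 16 := Nat.lt_succ_of_le (Nat.le_of_ble_eq_true h1)
  have key : ∀ v, L0.hue v ≠ L0.hue d → r v = r ⟨hd (nth [] NV d.val), hc⟩ := by
    intro v hv
    have h6 := z13_im.1 (lp1 h3 v) (z13_ne.2 hv)
    rcases z13_oo.1 h6 with h7 | h7
    · rw [show v = ⟨hd (nth [] NV d.val), hc⟩ from Fin.ext (Nat.eq_of_beq_eq_true h7)]
    · exact z13_chN d r hr _ _ ⟨hd (nth [] NV d.val), hc⟩ h2 v h7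
  intro x y hx hy
  rw [key x hx, key y hy]

theorem z13_ex (n : ℕ) (f : ℕ → Bool) (h : ex n f = true) : ∃ k, k < n ∧ f k = true := by
  induction n with
  | zero => exact absurd (show false = true from h) (by decide)
  | succ n ih =>
    have h1 : cond (f n) true (ex n f) = true := h
    cases hf : f n with
    | true => exact ⟨n, Nat.lt_succ_self n, hf⟩
    | false =>
      rw [hf] at h1
      obtain ⟨k, hk, hk2⟩ := ih h1
      exact ⟨k, Nat.lt_succ_of_lt hk, hk2⟩

/-- PROOF. `ckI_all`; soundness of `ex`: `ex n f = true → ∃ k < n, f k = true` (induction). -/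
theorem ni20 (x d : Fin 16) (h : L0.hue x ≠ L0.hue d) :
    ∃ y z, L0.R x y z d ∧ L0.hue x = L0.hue y := by
  have h1 := z13_im.1 (lp2 ckI_all x d) (z13_ne.2 h)
  obtain ⟨y, hy, h2⟩ := z13_ex _ _ h1
  obtain ⟨h3, h4⟩ := z13_an.1 h2
  obtain ⟨z, hz, h5⟩ := z13_ex _ _ h4
  refine ⟨⟨y, hy⟩, ⟨z, hz⟩, h5, ?_⟩
  have key : ∀ a b : Bool, no (xor a b) = true → z2 a = z2 b := by decide
  exact key _ _ h3

/-- PROOF. `h = 0` or `h = 1`; `decide` or `rfl` or `simp [Finset.filter]`. -/
theorem card0 (h : ZMod 2) : (Finset.univ.filter fun v => L0.hue v = h).card = 8 := by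
  have key : ∀ h : ZMod 2, (Finset.univ.filter fun v : Fin 16 => L0.hue v = h).card = 8 := by
    decide +kernel
  exact key h

end Pool.Agent.Lib.H97Z.Base
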