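import Pool.Agent.Lib.H97Z.Z3

/-! Chunk Z14: base level: the invariant nF -/

set_option autoImplicit false

namespace Pool.Agent.Lib.H97Z.Base

/-- the summand as a bit -/
def z14_g (x y z w : ℕ) : Bool :=
  cond (sb x y z w) (cond (xor (hb z) (hb x)) false (fb z y)) false

/-- xor of the `f k`, `k < n` -/
def z14_xl (n : ℕ) (f : ℕ → Bool) : Bool := Nat.rec false (fun k r => xor (f k) r) n

theorem z14_xl_spec (f : ℕ → Bool) : ∀ n : ℕ, (∑ k : Fin n, z2 (f k.val)) = z2 (z14_xl n f)
  | 0 => rfl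
  | n + 1 => by
    rw [Fin.sum_univ_castSucc]
    have h : z14_xl (n + 1) f = xor (f n) (z14_xl n f) := rfl
    rw [h]
    have ih := z14_xl_spec f n
    simp only [Fin.val_castSucc, Fin.val_last]
    rw [ih]
    have key : ∀ a b : Bool, z2 b + z2 a = z2 (xor a b) := by
      decide
    exact key _ _

theorem z14_val : z14_xl 16 (fun y => z14_xl 16 fun z => z14_xl 16 fun w => z14_g 0 y z w) = false := by
  decide +kernel

theorem z14_sum : (∑ t : Fin 16 × Fin 16 × Fin 16, z2 (z14_g 0 t.1.val t.2.1.val t.2.2.val)) = 0 := by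
  rw [Fintype.sum_prod_type]
  have h1 : ∀ y : Fin 16, (∑ t : Fin 16 × Fin 16, z2 (z14_g 0 y.val t.1.val t.2.val)) =
      z2 (z14_xl 16 fun z => z14_xl 16 fun w => z14_g 0 y.val z w) := by
    intro y
    rw [Fintype.sum_prod_type, ← z14_xl_spec (fun z => z14_xl 16 fun w => z14_g 0 y.val z w)]
    apply Finset.sum_congr rfl
    intro z _
    exact z14_xl_spec (fun w => z14_g 0 y.val z.val w) 16
  rw [Finset.sum_congr rfl (fun y _ => h1 y),
    z14_xl_spec (fun y => z14_xl 16 fun z => z14_xl 16 fun w => z14_g 0 y z w), z14_val]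
  rfl

theorem z14_key (a b c d : Bool) (P Q : Prop) [Decidable P] [Decidable Q] (hP : P ↔ (a = true ∧ z2 b = z2 c))
    (hQ : Q ↔ d = true) :
    (if P then (if Q then (1 : ZMod 2) else 0) else 0) = z2 (cond a (cond (xor b c) false d) false) := by
  by_cases h1 : P
  · rw [if_pos h1]
    have h2 := hP.1 h1
    have h3 : ∀ a b c : Bool, (a = true ∧ z2 b = z2 c) → cond a (cond (xor b c) false d) false = d := by
      intro a b c
      cases a <;> cases b <;> cases c <;> simp [z2]
    rw [h3 a b c h2]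
    by_cases h4 : Q
    · rw [if_pos h4, hQ.1 h4]
      rfl
    · rw [if_neg h4]
      have h5 : d = false := by
        rw [← Bool.not_eq_true]
        exact fun h => h4 (hQ.2 h)
      rw [h5]
      rfl
  · rw [if_neg h1]
    have h2 := fun h => h1 (hP.2 h)
    have h3 : ∀ a b c : Bool, ¬(a = true ∧ z2 b = z2 c) → cond a (cond (xor b c) false d) false = false := by
      intro a b c
      cases a <;> cases b <;> cases c <;> simp [z2]
    rw [h3 a b c h2]
    rfl

theorem z14_S (x y z w : Fin 16) : L0.S x y z w ↔ sb x.val y.val z.val w.val = true := Iff.rfl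
theorem z14_F (x y : Fin 16) : L0.F x y ↔ fb x.val y.val = true := Iff.rfl
theorem z14_hue (x : Fin 16) : L0.hue x = z2 (hb x.val) := rfl

open Classical in
theorem z14_gen (x : Fin 16) :
    nF L0 x = ∑ t : Fin 16 × Fin 16 × Fin 16, z2 (z14_g x.val t.1.val t.2.1.val t.2.2.val) := by
  unfold nF
  rw [Finset.sum_filter]
  apply Finset.sum_congr rfl
  intro t _
  exact z14_key (sb x.val t.1.val t.2.1.val t.2.2.val) (hb t.2.1.val) (hb x.val) (fb t.2.1.val t.1.val)
    (L0.S x t.1 t.2.1 t.2.2 ∧ L0.hue t.2.1 = L0.hue x) (L0.F t.2.1 t.1)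
    (by rw [z14_S, z14_hue, z14_hue]) (z14_F _ _)

/-- PROOF. Compute, for `x = 0`: there are exactly two triples `t` with `S 0 t.1 t.2.1 t.2.2`, `hue t.2.1 = hue 0`,
`F t.2.1 t.1`.  One way: `nF` is a sum over a filter with classical decidability; rewrite it as
`∑ y, ∑ z, ∑ w, z2 (an ..)` over `Fin 16` (`Finset.sum_filter`, `Fintype.sum_prod_type`) and evaluate with
`decide +kernel`, or count with a loop. -/
theorem nx0 : nF L0 0 = 0 := by
  rw [z14_gen]
  exact z14_sum

end Pool.Agent.Lib.H97Z.Base
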