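import Pool.Agent.Lib.H97Z.Z1

/-! Base level: the axioms on regular blocks. -/

set_option autoImplicit false

namespace Pool.Agent.Lib.H97Z.Base

/-- Check of one quadruple. -/
def ckR (x y z w : ℕ) : Bool :=
  cond (rb x y z w)
    (cond (rb y x z w) (cond (rb x z y w) (cond (rb x y w z)
      (cond (Nat.beq x y) false (xor (xor (hb x) (hb y)) (xor (hb z) (hb w)))) false) false)
      false) true

theorem ckR_all : lp 16 (fun x => lp 16 fun y => lp 16 fun z => lp 16 fun w => ckR x y z w) =
    true := by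
  decide +kernel

theorem ckR_spec {x y z w : Fin 16} (h : L0.R x y z w) :
    L0.R y x z w ∧ L0.R x z y w ∧ L0.R x y w z ∧ x ≠ y ∧
      L0.hue x + L0.hue y + L0.hue z + L0.hue w = 1 := by
  have h1 := lp4 ckR_all x y z w
  unfold ckR at h1
  have h2 := cond_imp h1 h
  have key : ∀ a b c d e f g k : Bool, cond a (cond b (cond c (cond d false
      (xor (xor e f) (xor g k))) false) false) false = true →
      a = true ∧ b = true ∧ c = true ∧ d = false ∧ z2 e + z2 f + z2 g + z2 k = 1 := by
    decide
  obtain ⟨a, b, c, d, e⟩ := key _ _ _ _ _ _ _ _ h2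
  exact ⟨a, b, c, ne_of_beq d, e⟩

end Pool.Agent.Lib.H97Z.Base
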