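import Pool.Agent.Lib.H97Z.Z15
import Pool.Agent.Lib.H97Z.Z2

/-! Chunk Z15S: base level: the regular blocks are strongly connected -/

set_option autoImplicit false

namespace Pool.Agent.Lib.H97Z.Base

/-- Soundness of `ex`. PROOF. Induction. -/
theorem ex_spec (n : ℕ) (f : ℕ → Bool) (h : ex n f = true) : ∃ k, k < n ∧ f k = true := by
  induction n with
  | zero =>
    have h1 : (false : Bool) = true := h
    exact absurd h1 (by decide)
  | succ n ih =>
    have h1 : cond (f n) true (ex n f) = true := h
    cases hf : f n with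
    | true => exact ⟨n, Nat.lt_succ_self n, hf⟩
    | false =>
      rw [hf] at h1
      obtain ⟨k, hk, hfk⟩ := ih h1
      exact ⟨k, Nat.lt_succ_of_lt hk, hfk⟩

theorem z15s_an {a b : Bool} (h : an a b = true) : a = true ∧ b = true := by
  revert a b; decide

theorem z15s_oo {a b : Bool} (h : oo a b = true) : a = true ∨ b = true := by
  revert a b; decide

theorem z15s_no {a : Bool} (h : no a = true) : a = false := by
  revert a; decide

theorem z15s_xor {a b : Bool} (h : no (xor a b) = true) : a = b := by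
  revert a b; decide

theorem z15s_cond {a b c : Bool} (h : cond a b c = true) :
    (a = true ∧ b = true) ∨ (a = false ∧ c = true) := by
  revert a b c; decide

theorem z15s_mj {a b c : Bool} (h : z2 a = z2 b) : oo (an a b) (oo (an a c) (an b c)) = a := by
  revert a b c; decide

theorem z15s_beq {x : Fin 16} {a : ℕ} (ha : a < 16) (h : Nat.beq x.val a = true) :
    x = ⟨a, ha⟩ := Fin.ext (Nat.eq_of_beq_eq_true h)

theorem z15s_pm {τ : Fin 16 → Fin 16 → Fin 16 → ZMod 2} (h1 : ∀ x y z, τ x y z = τ y x z)
    (h2 : ∀ x y z, τ x y z = τ x z y) {x y z : Fin 16} {a b c : ℕ} (ha : a < 16) (hb : b < 16)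
    (hc : c < 16) (h : pm x.val y.val z.val a b c = true) :
    τ x y z = τ ⟨a, ha⟩ ⟨b, hb⟩ ⟨c, hc⟩ := by
  unfold pm at h
  rcases z15s_oo h with h | h
  · obtain ⟨e1, h⟩ := z15s_an h
    rw [z15s_beq ha e1]
    rcases z15s_oo h with h | h
    · obtain ⟨e2, e3⟩ := z15s_an h
      rw [z15s_beq hb e2, z15s_beq hc e3]
    · obtain ⟨e2, e3⟩ := z15s_an h
      rw [z15s_beq hc e2, z15s_beq hb e3, h2]
  · rcases z15s_oo h with h | h
    · obtain ⟨e1, h⟩ := z15s_an h
      rw [z15s_beq hb e1]
      rcases z15s_oo h with h | h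
      · obtain ⟨e2, e3⟩ := z15s_an h
        rw [z15s_beq ha e2, z15s_beq hc e3, h1]
      · obtain ⟨e2, e3⟩ := z15s_an h
        rw [z15s_beq hc e2, z15s_beq ha e3, h2, h1]
    · obtain ⟨e1, h⟩ := z15s_an h
      rw [z15s_beq hc e1]
      rcases z15s_oo h with h | h
      · obtain ⟨e2, e3⟩ := z15s_an h
        rw [z15s_beq ha e2, z15s_beq hb e3, h1, h2]
      · obtain ⟨e2, e3⟩ := z15s_an h
        rw [z15s_beq hb e2, z15s_beq ha e3, h1, h2, h1]

theorem z15s_main (τ : Fin 16 → Fin 16 → Fin 16 → ZMod 2) (h1 : ∀ x y z, τ x y z = τ y x z)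
    (h2 : ∀ x y z, τ x y z = τ x z y) (h3 : ∀ x y z w, L0.R x y z w → τ x y z = τ x y w)
    (n : ℕ) : ∀ x y z : Fin 16, rk x.val y.val z.val ≤ n → (∃ w, L0.R x y z w) →
      τ x y z = cond (mj x.val y.val z.val) (τ 4 10 12) (τ 1 3 5) := by
  induction n using Nat.strong_induction_on with
  | _ n ih =>
    intro x y z hn hw
    have hck := lp3 ckK_all x y z
    unfold ckK at hck
    rcases z15s_cond hck with ⟨-, h⟩ | ⟨-, h⟩
    · exfalso
      obtain ⟨w, hw⟩ := hw
      have := z15s_no (lp1 h w)
      have hw' : rb x.val y.val z.val w.val = true := hw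
      rw [hw'] at this
      exact absurd this (by decide)
    · rcases z15s_cond h with ⟨-, h⟩ | ⟨-, h⟩
      · rcases z15s_cond h with ⟨e, h⟩ | ⟨e, h⟩
        · rw [e]
          exact z15s_pm h1 h2 (by omega) (by omega) (by omega) h
        · rw [e]
          exact z15s_pm h1 h2 (by omega) (by omega) (by omega) h
      · obtain ⟨w, hwl, h⟩ := ex_spec 16 _ h
        obtain ⟨e0, h⟩ := z15s_an h
        set W : Fin 16 := ⟨w, hwl⟩ with hW
        have hR : L0.R x y z W := e0
        have s12 : ∀ {a b c d}, L0.R a b c d → L0.R b a c d := fun h => (ckR_spec h).1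
        have s23 : ∀ {a b c d}, L0.R a b c d → L0.R a c b d := fun h => (ckR_spec h).2.1
        have s34 : ∀ {a b c d}, L0.R a b c d → L0.R a b d c := fun h => (ckR_spec h).2.2.1
        rcases z15s_oo h with h | h
        · obtain ⟨e1, e2⟩ := z15s_an h
          have e3 := z15s_xor e2
          have e4 : rk x.val y.val w < rk x.val y.val z.val := Nat.le_of_ble_eq_true e1
          have e5 := ih (rk x.val y.val w) (lt_of_lt_of_le e4 hn) x y W le_rfl ⟨z, s34 hR⟩
          rw [h3 x y z W hR, e5]
          show cond (mj x.val y.val w) _ _ = _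
          rw [e3]
        · rcases z15s_oo h with h | h
          · obtain ⟨e1, e2⟩ := z15s_an h
            have e3 := z15s_xor e2
            have e4 : rk x.val w z.val < rk x.val y.val z.val := Nat.le_of_ble_eq_true e1
            have e5 := ih (rk x.val w z.val) (lt_of_lt_of_le e4 hn) x W z le_rfl
              ⟨y, s23 (s34 (s23 hR))⟩
            rw [h2 x y z, h3 x z y W (s23 hR), h2 x z W, e5]
            show cond (mj x.val w z.val) _ _ = _
            rw [e3]
          · obtain ⟨e1, e2⟩ := z15s_an h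
            have e3 := z15s_xor e2
            have e4 : rk w y.val z.val < rk x.val y.val z.val := Nat.le_of_ble_eq_true e1
            have hyz : L0.R y z x W := s23 (s12 hR)
            have e5 := ih (rk w y.val z.val) (lt_of_lt_of_le e4 hn) W y z le_rfl
              ⟨x, s12 (s23 (s34 hyz))⟩
            rw [h1 x y z, h2 y x z, h3 y z x W hyz, h2 y z W, h1 y W z, e5]
            show cond (mj w y.val z.val) _ _ = _
            rw [e3]

/-- PROOF. Let `τ` be given; `θ h := if h = 0 then τ 1 3 5 else τ 4 10 12`.  Claim: for all `n` and all `x, y, z` with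
`rk x y z ≤ n` and `∃ w, L0.R x y z w`: `τ x y z = if mj x y z then τ 4 10 12 else τ 1 3 5`.  Induction on `n`, with `ckK_all`:
the first case is impossible; rank `0`: `pm` gives a permutation of the root (symmetry of `τ`); otherwise
`ex_spec` gives `w` with `L0.R x y z w` and for example `rk x y w < rk x y z`, `mj x y w = mj x y z`: `τ x y z = τ x y w` and
`L0.R x y w z`; for `(x, w, z)`: `τ x y z = τ x z y = τ x z w = τ x w z`; for `(w, y, z)` similarly (`ckR_spec` gives the
symmetries of `L0.R`).  Finally `L0.hue x = L0.hue y` gives `mj x y z = hb x`. -/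
theorem sc0 : SC L0 := by
  intro τ h1 h2 h3
  refine ⟨fun h => if h = 0 then τ 1 3 5 else τ 4 10 12, ?_⟩
  intro x y z w hR hxy
  rw [z15s_main τ h1 h2 h3 _ x y z le_rfl ⟨w, hR⟩]
  have e : mj x.val y.val z.val = hb x.val := by
    unfold mj
    exact z15s_mj hxy
  rw [e]
  show cond (hb x.val) _ _ = if z2 (hb x.val) = 0 then _ else _
  cases hb x.val
  · rw [if_pos (show z2 false = 0 from rfl)]; rfl
  · rw [if_neg (show ¬ z2 true = 0 by decide)]; rfl

end Pool.Agent.Lib.H97Z.Base
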