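import Pool.Agent.Lib.H97Z.Z16

/-! Base level: evaluation of the checks of the dual system. -/

set_option autoImplicit false

namespace Pool.Agent.Lib.H97Z.Base

theorem ckV_all : lp 16 (fun x => lp 16 fun z => lp 16 fun v => ckV x z v) = true := by
  decide +kernel

theorem ckE_all : lp 224 ckE = true := by
  decide +kernel

theorem ckG_all : lp 111 ckG = true := by
  decide +kernel

theorem ckG0 : cmb ET (nth 0 CM 0) = p2 168 := by
  decide +kernel

theorem ckG1 : cmb ET (nth 0 CM 1) = p2 169 := by
  decide +kernel

end Pool.Agent.Lib.H97Z.Base
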