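import Pool.Agent.Lib.H97Z.Z16

/-! Chunk Z17: base level: linear functionals on bit masks -/

set_option autoImplicit false

namespace Pool.Agent.Lib.H97Z.Base

/-- PROOF. Definitions (`Nat.testBit`, `Nat.land_comm`, `Nat.and_one_is_mod` ...). -/
theorem bt_eq (m n : ℕ) : bt m n = m.testBit n := by
  show Nat.beq (1 &&& (m >>> n)) 1 = ((1 &&& (m >>> n)) != 0)
  rw [Nat.one_and_eq_mod_two]
  rcases Nat.mod_two_eq_zero_or_one (m >>> n) with h | h <;> rw [h] <;> rfl

/-- The functional with the coefficients `val`. -/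
def ph (val : ℕ → ZMod 2) (m : ℕ) : ZMod 2 := ∑ n ∈ Finset.range 170, z2 (bt m n) * val n

/-- PROOF. `bt_eq`, `Nat.testBit_xor`, `z2 (xor a b) = z2 a + z2 b`. -/
theorem ph_xor (val : ℕ → ZMod 2) (a b : ℕ) : ph val (Nat.xor a b) = ph val a + ph val b := by
  have key : ∀ p q : Bool, z2 (xor p q) = z2 p + z2 q := by decide
  unfold ph
  rw [← Finset.sum_add_distrib]
  refine Finset.sum_congr rfl fun n _ => ?_
  have h1 : bt (Nat.xor a b) n = xor (bt a n) (bt b n) := by
    rw [bt_eq, bt_eq, bt_eq]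
    exact Nat.testBit_xor a b n
  rw [h1, key, add_mul]

/-- PROOF. -/
theorem ph_zero (val : ℕ → ZMod 2) : ph val 0 = 0 := by
  unfold ph
  refine Finset.sum_eq_zero fun n _ => ?_
  rw [bt_eq, Nat.zero_testBit]
  show (0 : ZMod 2) * val n = 0
  rw [zero_mul]

/-- PROOF. `bt_eq`, `Nat.testBit_two_pow` or `Nat.testBit_shiftLeft`. -/
theorem ph_p2 (val : ℕ → ZMod 2) {n : ℕ} (h : n < 170) : ph val (p2 n) = val n := by
  have h0 : p2 n = 2 ^ n := by
    show 1 <<< n = 2 ^ n
    rw [Nat.shiftLeft_eq, one_mul]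
  unfold ph
  rw [Finset.sum_eq_single n]
  · rw [bt_eq, h0, Nat.testBit_two_pow_self]
    show (1 : ZMod 2) * val n = val n
    rw [one_mul]
  · intro k _ hk
    rw [bt_eq, h0, Nat.testBit_two_pow_of_ne (Ne.symm hk)]
    show (0 : ZMod 2) * val k = 0
    rw [zero_mul]
  · intro hn
    exact absurd (Finset.mem_range.2 h) hn

/-- PROOF. Induction on the list. -/
theorem ph_cmb (val : ℕ → ZMod 2) : ∀ (l : List ℕ) (m : ℕ),
    (∀ i, i < l.length → ph val (nth 0 l i) = 0) → ph val (cmb l m) = 0 := by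
  intro l
  induction l with
  | nil =>
    intro m _
    exact ph_zero val
  | cons e l ih =>
    intro m h
    show ph val (Nat.xor (cond (bt m 0) e 0) (cmb l (Nat.shiftRight m 1))) = 0
    rw [ph_xor, ih _ (fun i hi => h (i + 1) (Nat.succ_lt_succ hi)), add_zero]
    have h0 : ph val e = 0 := h 0 (Nat.succ_pos _)
    cases bt m 0
    · exact ph_zero val
    · exact h0

end Pool.Agent.Lib.H97Z.Base
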