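import Pool.Agent.Lib.H97Z.Z1

/-! Base level: the axioms on special blocks, boundary pairs and bits. -/

set_option autoImplicit false

namespace Pool.Agent.Lib.H97Z.Base

/-- Check of one quadruple. -/
def ckS (x y z w : ℕ) : Bool :=
  cond (sb x y z w)
    (cond (sb y x z w) (cond (sb z w x y) (cond (sb x z y w) false
      (cond (Nat.beq x z) false (xor (hb x) (hb y)))) false) false) true

theorem ckS_all : lp 16 (fun x => lp 16 fun y => lp 16 fun z => lp 16 fun w => ckS x y z w) =
    true := by
  decide +kernel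

theorem ckS_spec {x y z w : Fin 16} (h : L0.S x y z w) :
    L0.S y x z w ∧ L0.S z w x y ∧ ¬ L0.S x z y w ∧ x ≠ z ∧ L0.hue x ≠ L0.hue y := by
  have h1 := lp4 ckS_all x y z w
  unfold ckS at h1
  have h2 := cond_imp h1 h
  have key : ∀ a b c d e f : Bool, cond a (cond b (cond c false (cond d false (xor e f)))
      false) false = true →
      a = true ∧ b = true ∧ ¬ c = true ∧ d = false ∧ z2 e ≠ z2 f := by
    decide
  obtain ⟨a, b, c, d, e⟩ := key _ _ _ _ _ _ h2
  exact ⟨a, b, c, ne_of_beq d, e⟩

/-- Check of the bits. -/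
def ckB (x y z w : ℕ) : Bool :=
  cond (xor (tb BT x y z w) (tb BT y x z w)) false
    (cond (xor (tb BT x y z w) (tb BT x y w z)) false true)

theorem ckB_all : lp 16 (fun x => lp 16 fun y => lp 16 fun z => lp 16 fun w => ckB x y z w) =
    true := by
  decide +kernel

theorem ckB_spec (x y z w : Fin 16) : L0.b x y z w = L0.b y x z w ∧
    L0.b x y z w = L0.b x y w z := by
  have h1 := lp4 ckB_all x y z w
  unfold ckB at h1
  have key : ∀ a b c : Bool, cond (xor a b) false (cond (xor a c) false true) = true →
      z2 a = z2 b ∧ z2 a = z2 c := by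
    decide
  exact key _ _ _ h1

/-- Check of a pair. -/
def ckF (x y : ℕ) : Bool :=
  cond (cond (fb x y) (cond (fb y x) (xor (hb x) (hb y)) false) true)
    (cond (xor (ub CT x y) (ub CT y x)) false
    (cond (xor (ub CL x y) (ub CL y x)) false true)) false

theorem ckF_all : lp 16 (fun x => lp 16 fun y => ckF x y) = true := by
  decide +kernel

theorem ckF_spec (x y : Fin 16) : (L0.F x y → L0.F y x ∧ L0.hue x ≠ L0.hue y) ∧
    L0.c x y = L0.c y x ∧ L0.col x y = L0.col y x := by
  have h1 := lp2 ckF_all x y
  unfold ckF at h1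
  have key : ∀ a b c d e f g k : Bool,
      cond (cond a (cond b (xor c d) false) true) (cond (xor e f) false
        (cond (xor g k) false true)) false = true →
      (a = true → b = true ∧ z2 c ≠ z2 d) ∧ z2 e = z2 f ∧ z2 g = z2 k := by
    decide
  exact key _ _ _ _ _ _ _ _ h1

end Pool.Agent.Lib.H97Z.Base
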