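import Pool.Agent.Lib.H97Z.Z16E
import Pool.Agent.Lib.H97Z.Z3

/-! Chunk Z18: base level: the unknowns of the dual system -/

set_option autoImplicit false

namespace Pool.Agent.Lib.H97Z.Base

theorem z18_an {a b : Bool} (h : an a b = true) : a = true ∧ b = true := by
  revert a b
  decide

theorem z18_oo {a b : Bool} (h : oo a b = true) : a = true ∨ b = true := by
  revert a b
  decide

theorem z18_no {a : Bool} (h : no a = true) : a = false := by
  revert a
  decide

theorem z18_cond {a b : Bool} (h : cond a true b = true) (ha : a = false) : b = true := by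
  rw [ha] at h
  exact h

theorem z18_fi (x : Fin 16) : fi x.val = x := Fin.ext (Nat.mod_eq_of_lt x.isLt)

theorem z18_fi' {n : ℕ} (h : n ≤ 15) : (fi n).val = n := Nat.mod_eq_of_lt (by omega)

theorem z18_beq {x y : Fin 16} (h : x ≠ y) : Nat.beq x.val y.val = false := by
  cases hb : Nat.beq x.val y.val
  · rfl
  · exact absurd (Fin.ext (Nat.eq_of_beq_eq_true hb)) h

/-- PROOF. Induction along the chain: `KG.rc` for `rb x z a b`, `KG.dia` for `sb x z a b`. -/
theorem chK_spec {ρ₀ ρ₁ : Finset (Fin 16)} {G : Fin 16 → Fin 16 → Fin 16 → ZMod 2}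
    {e₀ e₁ : ZMod 2} (hG : KG L0 ρ₀ ρ₁ G e₀ e₁) {x z : Fin 16} :
    ∀ (l : List ℕ) (a : Fin 16), chK x.val z.val l a.val = true →
      ∀ v : Fin 16, (v = a ∨ me v.val l = true) → G x z v = G x z a := by
  intro l
  induction l with
  | nil =>
    intro a _ v hv
    rcases hv with rfl | hv
    · rfl
    · exact Bool.noConfusion hv
  | cons b l ih =>
    intro a h v hv
    obtain ⟨h1, h2⟩ := z18_an h
    obtain ⟨h3, h4⟩ := z18_an h2
    have hb : b < 16 := Nat.lt_succ_of_le (Nat.le_of_ble_eq_true h1)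
    have e1 : G x z a = G x z ⟨b, hb⟩ := by
      rcases z18_oo h3 with h5 | h5
      · exact hG.rc x z a ⟨b, hb⟩ h5
      · exact hG.dia x z a ⟨b, hb⟩ h5
    rcases hv with rfl | hv
    · rfl
    · rw [e1]
      apply ih ⟨b, hb⟩ h4
      change cond (Nat.beq v.val b) true (me v.val l) = true at hv
      cases hvb : Nat.beq v.val b with
      | false =>
        right
        exact z18_cond hv hvb
      | true =>
        left
        exact Fin.ext (Nat.eq_of_beq_eq_true hvb)

theorem z18_le {x z : ℕ} : ∀ (l : List ℕ) (a : ℕ), chK x z l a = true → ∀ v,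
    me v l = true → v ≤ 15 := by
  intro l
  induction l with
  | nil =>
    intro a _ v hv
    exact Bool.noConfusion hv
  | cons b l ih =>
    intro a h v hv
    obtain ⟨h1, h2⟩ := z18_an h
    obtain ⟨h3, h4⟩ := z18_an h2
    change cond (Nat.beq v b) true (me v l) = true at hv
    cases hvb : Nat.beq v b with
    | false => exact ih b h4 v (z18_cond hv hvb)
    | true =>
      rw [Nat.eq_of_beq_eq_true hvb]
      exact Nat.le_of_ble_eq_true h1

theorem z18_inK {ρ₀ ρ₁ : Finset (Fin 16)} {G : Fin 16 → Fin 16 → Fin 16 → ZMod 2}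
    {e₀ e₁ : ZMod 2} (hG : KG L0 ρ₀ ρ₁ G e₀ e₁) {x z v : Fin 16} {r : ℕ} {c : List ℕ}
    (h : inK x.val z.val v.val r c = true) : G x z v = G x z (fi r) := by
  obtain ⟨h1, h2⟩ := z18_an h
  obtain ⟨h3, h4⟩ := z18_an h2
  obtain ⟨h5, h6⟩ := z18_an h4
  cases c with
  | nil => exact Bool.noConfusion h5
  | cons a l =>
    have ha : a < 16 := Nat.lt_succ_of_le (Nat.le_of_ble_eq_true h1)
    change chK x.val z.val l a = true at h3
    change cond (Nat.beq v.val a) true (me v.val l) = true at h5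
    change cond (Nat.beq r a) true (me r l) = true at h6
    have hr : r ≤ 15 := by
      cases hvb : Nat.beq r a with
      | false => exact z18_le l a h3 r (z18_cond h6 hvb)
      | true =>
        rw [Nat.eq_of_beq_eq_true hvb]
        omega
    have k1 : G x z v = G x z ⟨a, ha⟩ := by
      apply chK_spec hG l ⟨a, ha⟩ h3
      cases hvb : Nat.beq v.val a with
      | false => exact Or.inr (z18_cond h5 hvb)
      | true => exact Or.inl (Fin.ext (Nat.eq_of_beq_eq_true hvb))
    have k2 : G x z (fi r) = G x z ⟨a, ha⟩ := by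
      apply chK_spec hG l ⟨a, ha⟩ h3
      rw [z18_fi' hr]
      cases hvb : Nat.beq r a with
      | false => exact Or.inr (z18_cond h6 hvb)
      | true =>
        left
        apply Fin.ext
        rw [z18_fi' hr]
        exact Nat.eq_of_beq_eq_true hvb
    rw [k1, k2]

theorem z18_ckV {x z v : Fin 16} (hxz : x ≠ z) (hx : v ≠ x) (hz : v ≠ z) :
    vi x.val z.val v.val ≤ 167 ∧ vi x.val z.val v.val = vi z.val x.val v.val ∧
      (x < z → nth 0 RX (vi x.val z.val v.val) = x.val ∧
        nth 0 RZ (vi x.val z.val v.val) = z.val ∧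
        cond (xor (hb x.val) (hb z.val))
            (an (me (vi x.val z.val v.val) MI)
              (oo (inK x.val z.val v.val (nth 0 RW (vi x.val z.val v.val))
                  (ap (sd x.val z.val 0) (sd x.val z.val 1)))
                (inK x.val z.val v.val (nth 0 RW (vi x.val z.val v.val))
                  (ap (sd x.val z.val 2) (sd x.val z.val 3)))))
            (an (Nat.ble (nth 0 RW (vi x.val z.val v.val)) 15)
              (an (no (Nat.beq (nth 0 RW (vi x.val z.val v.val)) x.val))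
                (no (Nat.beq (nth 0 RW (vi x.val z.val v.val)) z.val)))) = true) := by
  have h := lp3 ckV_all x z v
  unfold ckV at h
  have h1 := z18_cond h (z18_beq hxz)
  have h2 := z18_cond h1 (z18_beq hx)
  have h3 := z18_cond h2 (z18_beq hz)
  obtain ⟨h4, h5⟩ := z18_an h3
  obtain ⟨h6, h7⟩ := z18_an h5
  refine ⟨Nat.le_of_ble_eq_true h4, Nat.eq_of_beq_eq_true h6, fun hlt => ?_⟩
  have h8 : Nat.ble z.val x.val = false := by
    cases hb : Nat.ble z.val x.val
    · rfl
    · exact absurd (Nat.le_of_ble_eq_true hb) (not_le.2 hlt)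
  have h9 := z18_cond h7 h8
  obtain ⟨h10, h11⟩ := z18_an h9
  obtain ⟨h12, h13⟩ := z18_an h11
  exact ⟨Nat.eq_of_beq_eq_true h10, Nat.eq_of_beq_eq_true h12, h13⟩

theorem z18_lt {ρ₀ ρ₁ : Finset (Fin 16)} {G : Fin 16 → Fin 16 → Fin 16 → ZMod 2}
    {e₀ e₁ : ZMod 2} (hG : KG L0 ρ₀ ρ₁ G e₀ e₁) {x z v : Fin 16} (hxz : x < z) (hx : v ≠ x)
    (hz : v ≠ z) :
      G x z v = G (fi (nth 0 RX (vi x.val z.val v.val))) (fi (nth 0 RZ (vi x.val z.val v.val)))
        (fi (nth 0 RW (vi x.val z.val v.val))) := by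
  obtain ⟨-, -, h⟩ := z18_ckV (ne_of_lt hxz) hx hz
  obtain ⟨h1, h2, h3⟩ := h hxz
  rw [h1, h2, z18_fi, z18_fi]
  cases hh : xor (hb x.val) (hb z.val) with
  | true =>
    rw [hh] at h3
    obtain ⟨-, h4⟩ := z18_an h3
    rcases z18_oo h4 with h5 | h5
    · exact z18_inK hG h5
    · exact z18_inK hG h5
  | false =>
    rw [hh] at h3
    obtain ⟨h4, h5⟩ := z18_an h3
    obtain ⟨h6, h7⟩ := z18_an h5
    have hr := Nat.le_of_ble_eq_true h4
    have key : ∀ a b : Bool, xor a b = false → z2 a = z2 b := by decide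
    refine hG.pure x z v _ (ne_of_lt hxz) (key _ _ hh) hx hz ?_ ?_
    · intro e
      have e2 := congrArg Fin.val e
      rw [z18_fi' hr] at e2
      have e3 := z18_no h6
      rw [e2, Nat.beq_refl] at e3
      exact Bool.noConfusion e3
    · intro e
      have e2 := congrArg Fin.val e
      rw [z18_fi' hr] at e2
      have e3 := z18_no h7
      rw [e2, Nat.beq_refl] at e3
      exact Bool.noConfusion e3

/-- PROOF. `ckV_all`.  If `x < z`: the representative of the unknown `n = vi x z v` is `(x, z, r)`, `r = RW n`; mixed pair: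
`v` and `r` are in the same chain (`chK_spec`); pure pair: `KG.pure` (the hues are equal).  If `z < x`: `KG.sym` and
`vi x z v = vi z x v`. -/
theorem vi_spec {ρ₀ ρ₁ : Finset (Fin 16)} {G : Fin 16 → Fin 16 → Fin 16 → ZMod 2}
    {e₀ e₁ : ZMod 2} (hG : KG L0 ρ₀ ρ₁ G e₀ e₁) {x z v : Fin 16} (hxz : x ≠ z) (hx : v ≠ x)
    (hz : v ≠ z) : vi x.val z.val v.val < 168 ∧
      G x z v = G (fi (nth 0 RX (vi x.val z.val v.val))) (fi (nth 0 RZ (vi x.val z.val v.val)))
        (fi (nth 0 RW (vi x.val z.val v.val))) := by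
  obtain ⟨h1, h2, -⟩ := z18_ckV hxz hx hz
  refine ⟨Nat.lt_succ_of_le h1, ?_⟩
  rcases lt_or_gt_of_ne hxz with h | h
  · exact z18_lt hG h hx hz
  · rw [h2, hG.sym]
    exact z18_lt hG h hz hx

/-- PROOF. `ckV_all`, symmetric in `x, z`. -/
theorem vi_mixed {x z v : Fin 16} (hh : L0.hue x ≠ L0.hue z) (hx : v ≠ x) (hz : v ≠ z) :
    me (vi x.val z.val v.val) MI = true := by
  have hxz : x ≠ z := fun e => hh (by rw [e])
  have key : ∀ a b : Bool, z2 a ≠ z2 b → xor a b = true ∧ xor b a = true := by decide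
  obtain ⟨k1, k2⟩ := key _ _ hh
  rcases lt_or_gt_of_ne hxz with h | h
  · obtain ⟨-, -, h3⟩ := z18_ckV hxz hx hz
    obtain ⟨-, -, h4⟩ := h3 h
    rw [k1] at h4
    exact (z18_an h4).1
  · obtain ⟨-, h2, -⟩ := z18_ckV hxz hx hz
    obtain ⟨-, -, h3⟩ := z18_ckV hxz.symm hz hx
    obtain ⟨-, -, h4⟩ := h3 h
    rw [k2] at h4
    rw [h2]
    exact (z18_an h4).1

end Pool.Agent.Lib.H97Z.Base
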