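import Pool.Agent.Lib.H97Z.Z17
import Pool.Agent.Lib.H97Z.Z18
import Pool.Agent.Lib.H97Z.Z2

/-! Chunk Z19: base level: the dual vectors -/

set_option autoImplicit false

namespace Pool.Agent.Lib.H97Z.Base

/-- The values of the unknowns. -/
def vl (G : Fin 16 → Fin 16 → Fin 16 → ZMod 2) (e₀ e₁ : ZMod 2) (n : ℕ) : ZMod 2 :=
  if n = 168 then e₀ else if n = 169 then e₁ else
    G (fi (nth 0 RX n)) (fi (nth 0 RZ n)) (fi (nth 0 RW n))

theorem z19_dist {x y z w : Fin 16} (h : L0.R x y z w) :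
    x ≠ y ∧ x ≠ z ∧ x ≠ w ∧ y ≠ z ∧ y ≠ w ∧ z ≠ w := by
  obtain ⟨a1, a2, a3, a4, -⟩ := ckR_spec h
  obtain ⟨b1, b2, b3, b4, -⟩ := ckR_spec a1
  obtain ⟨c1, c2, c3, c4, -⟩ := ckR_spec a2
  obtain ⟨d1, d2, d3, d4, -⟩ := ckR_spec a3
  obtain ⟨-, -, -, e4, -⟩ := ckR_spec d2
  obtain ⟨-, -, -, f4, -⟩ := ckR_spec b2
  obtain ⟨-, g2, -, -, -⟩ := ckR_spec b3
  obtain ⟨-, -, -, g4, -⟩ := ckR_spec g2
  obtain ⟨-, -, k3, -, -⟩ := ckR_spec c1
  obtain ⟨-, l2, -, -, -⟩ := ckR_spec k3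
  obtain ⟨-, -, -, l4, -⟩ := ckR_spec l2
  exact ⟨a4, c4, e4, f4, g4, l4⟩

theorem z19_vl {G : Fin 16 → Fin 16 → Fin 16 → ZMod 2} {e₀ e₁ : ZMod 2}
    {ρ₀ ρ₁ : Finset (Fin 16)} (hG : KG L0 ρ₀ ρ₁ G e₀ e₁) {x z v : Fin 16} (hxz : x ≠ z)
    (hx : v ≠ x) (hz : v ≠ z) :
    vl G e₀ e₁ (vi x.val z.val v.val) = G x z v ∧ vi x.val z.val v.val < 170 := by
  obtain ⟨h1, h2⟩ := vi_spec hG hxz hx hz
  refine ⟨?_, by omega⟩
  unfold vl
  rw [if_neg (by omega), if_neg (by omega)]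
  exact h2.symm

theorem z19_eqn {G : Fin 16 → Fin 16 → Fin 16 → ZMod 2} {e₀ e₁ : ZMod 2}
    (hG : KG L0 {0, 1, 2, 12} {8, 9, 15, 0} G e₀ e₁) {a b c d : ℕ} {t : ℕ} (ha : a ≤ 15)
    (hb : b ≤ 15) (hc : c ≤ 15) (hd : d ≤ 15) (hR : rb a b c d = true)
    (ht : t = Nat.xor (eqn a b c d) (Nat.xor
      (cond (decide (q4 a b c d = {0, 1, 2, 12})) (p2 168) 0)
      (cond (decide (q4 a b c d = {8, 9, 15, 0})) (p2 169) 0))) :
    ph (vl G e₀ e₁) t = 0 := by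
  obtain ⟨x, hx⟩ : ∃ x : Fin 16, x.val = a := ⟨fi a, z18_fi' ha⟩
  obtain ⟨y, hy⟩ : ∃ x : Fin 16, x.val = b := ⟨fi b, z18_fi' hb⟩
  obtain ⟨z, hz⟩ : ∃ x : Fin 16, x.val = c := ⟨fi c, z18_fi' hc⟩
  obtain ⟨w, hw⟩ : ∃ x : Fin 16, x.val = d := ⟨fi d, z18_fi' hd⟩
  rw [← hx, ← hy, ← hz, ← hw] at hR ht
  obtain ⟨n1, n2, n3, n4, n5, n6⟩ := z19_dist (x := x) (y := y) (z := z) (w := w) hR
  have hrel := hG.rel x y z w hR
  obtain ⟨k1, l1⟩ := z19_vl hG n1 (v := z) n2.symm n4.symm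
  obtain ⟨k2, l2⟩ := z19_vl hG n2 (v := y) n1.symm n4
  obtain ⟨k3, l3⟩ := z19_vl hG n3 (v := y) n1.symm n5
  obtain ⟨k4, l4⟩ := z19_vl hG n4 (v := x) n1 n2
  obtain ⟨k5, l5⟩ := z19_vl hG n5 (v := x) n1 n3
  obtain ⟨k6, l6⟩ := z19_vl hG n6 (v := x) n2 n3
  have hq : q4 x.val y.val z.val w.val = {x, y, z, w} := by
    unfold q4
    rw [z18_fi, z18_fi, z18_fi, z18_fi]
  have h0 : ph (vl G e₀ e₁)
      (cond (decide (q4 x.val y.val z.val w.val = {0, 1, 2, 12})) (p2 168) 0) =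
      if ({x, y, z, w} : Finset (Fin 16)) = {0, 1, 2, 12} then e₀ else 0 := by
    rw [hq]
    by_cases hc : ({x, y, z, w} : Finset (Fin 16)) = {0, 1, 2, 12}
    · rw [decide_eq_true hc, if_pos hc]
      exact ph_p2 _ (by norm_num)
    · rw [decide_eq_false hc, if_neg hc]
      exact ph_zero _
  have h1 : ph (vl G e₀ e₁)
      (cond (decide (q4 x.val y.val z.val w.val = {8, 9, 15, 0})) (p2 169) 0) =
      if ({x, y, z, w} : Finset (Fin 16)) = {8, 9, 15, 0} then e₁ else 0 := by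
    rw [hq]
    by_cases hc : ({x, y, z, w} : Finset (Fin 16)) = {8, 9, 15, 0}
    · rw [decide_eq_true hc, if_pos hc]
      exact ph_p2 _ (by norm_num)
    · rw [decide_eq_false hc, if_neg hc]
      exact ph_zero _
  have key : ∀ a b : ZMod 2, a = b → a + b = 0 := by decide
  rw [ht, ph_xor, ph_xor, h0, h1]
  apply key
  rw [← hrel]
  unfold eqn
  rw [ph_xor, ph_xor, ph_xor, ph_xor, ph_xor, ph_p2 _ l1, ph_p2 _ l2, ph_p2 _ l3, ph_p2 _ l4,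
    ph_p2 _ l5, ph_p2 _ l6, k1, k2, k3, k4, k5, k6]
  ring

theorem z19_me : ∀ (l : List ℕ) (v : ℕ), me v l = true → ∃ k < l.length, nth 0 l k = v := by
  intro l
  induction l with
  | nil =>
    intro v hv
    exact Bool.noConfusion hv
  | cons b l ih =>
    intro v hv
    change cond (Nat.beq v b) true (me v l) = true at hv
    cases hvb : Nat.beq v b with
    | false =>
      obtain ⟨k, hk, h⟩ := ih v (z18_cond hv hvb)
      exact ⟨k + 1, Nat.succ_lt_succ hk, h⟩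
    | true => exact ⟨0, Nat.succ_pos _, (Nat.eq_of_beq_eq_true hvb).symm⟩

theorem z19_len : ET.length = 224 := by
  decide +kernel

theorem z19_len2 : MI.length = 112 := by
  decide +kernel

theorem z19_mi : nth 0 MI 0 = 7 := by
  decide +kernel

/-- PROOF. `ckE_all`: equation `i` is the `xor` of the six unknowns of the block and the bits `168`, `169`; `ph_xor`,
`ph_p2`, `vi_spec` (the vertices of the block are distinct, `ckR_spec`) and `KG.rel`. -/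
theorem eq_spec {G : Fin 16 → Fin 16 → Fin 16 → ZMod 2} {e₀ e₁ : ZMod 2}
    (hG : KG L0 {0, 1, 2, 12} {8, 9, 15, 0} G e₀ e₁) {i : ℕ} (hi : i < 224) :
    ph (vl G e₀ e₁) (nth 0 ET i) = 0 := by
  have h := lp_spec 224 ckE ckE_all i hi
  unfold ckE at h
  obtain ⟨h1, h2⟩ := z18_an h
  obtain ⟨h3, h4⟩ := z18_an h2
  obtain ⟨h5, h6⟩ := z18_an h4
  obtain ⟨h7, h8⟩ := z18_an h6
  obtain ⟨h9, h10⟩ := z18_an h8
  exact z19_eqn hG (Nat.le_of_ble_eq_true h3) (Nat.le_of_ble_eq_true h5)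
    (Nat.le_of_ble_eq_true h7) (Nat.le_of_ble_eq_true h9) h1 (Nat.eq_of_beq_eq_true h10)

/-- PROOF. `eq_spec`, `ph_cmb` (`ET.length = 224`), `ckG0`, `ckG1`: `e₀ = e₁ = 0`.  `ckG_all`: for every `n` in `MI` the value of
the unknown `n` is the value of the first one (`ph_xor`, `ph_p2`; all elements of `MI` are less than `168`, `decide`);
`vi_mixed`, `vi_spec`. -/
theorem kp0 : KP L0 {0, 1, 2, 12} {8, 9, 15, 0} := by
  intro G e₀ e₁ hG
  have hcmb : ∀ m, ph (vl G e₀ e₁) (cmb ET m) = 0 := fun m =>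
    ph_cmb _ ET m (fun i hi => eq_spec hG (by rw [← z19_len]; exact hi))
  have h0 := hcmb (nth 0 CM 0)
  rw [ckG0, ph_p2 _ (by norm_num)] at h0
  have h1 := hcmb (nth 0 CM 1)
  rw [ckG1, ph_p2 _ (by norm_num)] at h1
  refine ⟨h0, h1, vl G e₀ e₁ 7, fun x z v hh hx hz => ?_⟩
  have hxz : x ≠ z := fun e => hh (by rw [e])
  obtain ⟨k1, l1⟩ := z19_vl hG hxz hx hz
  obtain ⟨k, hk, hkv⟩ := z19_me MI _ (vi_mixed hh hx hz)
  rw [z19_len2] at hk
  rw [← k1, ← hkv]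
  cases k with
  | zero => rw [z19_mi]
  | succ k =>
    have h2 := lp_spec 111 ckG ckG_all k (by omega)
    have h3 := Nat.eq_of_beq_eq_true h2
    have h4 := hcmb (nth 0 CM (Nat.add k 2))
    rw [h3, ph_xor, z19_mi, ph_p2 _ (by norm_num : 7 < 170)] at h4
    have h5 : nth 0 MI (Nat.succ k) < 170 := by
      rw [Nat.succ_eq_add_one, hkv]
      exact l1
    rw [ph_p2 _ h5] at h4
    have key : ∀ a b : ZMod 2, a + b = 0 → a = b := by decide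
    exact key _ _ h4

end Pool.Agent.Lib.H97Z.Base
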