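import Pool.Agent.Lib.H97Z.Z1

/-! Base level: every triple lies in two blocks. -/

set_option autoImplicit false

namespace Pool.Agent.Lib.H97Z.Base

/-- Blocks. -/
def kb (x y z u : ℕ) : Bool :=
  cond (rb x y z u) true (cond (sb x y z u) true (cond (sb x z y u) true (sb x u y z)))

theorem kb_iff (x y z u : Fin 16) : Blk L0 x y z u ↔ kb x.val y.val z.val u.val = true := by
  have key : ∀ a b c d : Bool, (a = true ∨ b = true ∨ c = true ∨ d = true) ↔
      cond a true (cond b true (cond c true d)) = true := by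
    decide
  exact key _ _ _ _

/-- The number of `k < n` with `f k`. -/
def ct (n : ℕ) (f : ℕ → Bool) : ℕ := Nat.rec 0 (fun k r => cond (f k) (Nat.succ r) r) n

theorem ct_zero (n : ℕ) (f : ℕ → Bool) (h : ct n f = 0) : ∀ k, k < n → f k = false := by
  induction n with
  | zero => intro k hk; omega
  | succ n ih =>
    have h1 : cond (f n) (Nat.succ (ct n f)) (ct n f) = 0 := h
    intro k hk
    cases hf : f n with
    | true => rw [hf] at h1; exact absurd h1 (Nat.succ_ne_zero _)
    | false =>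
      rw [hf] at h1
      rcases Nat.lt_succ_iff_lt_or_eq.1 hk with h2 | h2
      · exact ih h1 k h2
      · rw [h2]; exact hf

theorem ct_one (n : ℕ) (f : ℕ → Bool) (h : ct n f = 1) :
    ∃ u, u < n ∧ f u = true ∧ ∀ k, k < n → f k = true → k = u := by
  induction n with
  | zero => exact absurd (show (0 : ℕ) = 1 from h) (by decide)
  | succ n ih =>
    have h1 : cond (f n) (Nat.succ (ct n f)) (ct n f) = 1 := h
    cases hf : f n with
    | true =>
      rw [hf] at h1
      have h2 : ct n f = 0 := Nat.succ.inj h1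
      refine ⟨n, Nat.lt_succ_self n, hf, ?_⟩
      intro k hk hk2
      rcases Nat.lt_succ_iff_lt_or_eq.1 hk with h3 | h3
      · rw [ct_zero n f h2 k h3] at hk2; exact Bool.noConfusion hk2
      · exact h3
    | false =>
      rw [hf] at h1
      obtain ⟨u, hu, hfu, hall⟩ := ih h1
      refine ⟨u, Nat.lt_succ_of_lt hu, hfu, ?_⟩
      intro k hk hk2
      rcases Nat.lt_succ_iff_lt_or_eq.1 hk with h3 | h3
      · exact hall k h3 hk2
      · rw [h3, hf] at hk2; exact Bool.noConfusion hk2

theorem ct_two (n : ℕ) (f : ℕ → Bool) (h : ct n f = 2) :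
    ∃ u v, u < n ∧ v < n ∧ u ≠ v ∧ f u = true ∧ f v = true ∧
      ∀ k, k < n → f k = true → k = u ∨ k = v := by
  induction n with
  | zero => exact absurd (show (0 : ℕ) = 2 from h) (by decide)
  | succ n ih =>
    have h1 : cond (f n) (Nat.succ (ct n f)) (ct n f) = 2 := h
    cases hf : f n with
    | true =>
      rw [hf] at h1
      have h2 : ct n f = 1 := Nat.succ.inj h1
      obtain ⟨u, hu, hfu, hall⟩ := ct_one n f h2
      refine ⟨n, u, Nat.lt_succ_self n, Nat.lt_succ_of_lt hu, by omega, hf, hfu, ?_⟩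
      intro k hk hk2
      rcases Nat.lt_succ_iff_lt_or_eq.1 hk with h3 | h3
      · exact Or.inr (hall k h3 hk2)
      · exact Or.inl h3
    | false =>
      rw [hf] at h1
      obtain ⟨u, v, hu, hv, huv, hfu, hfv, hall⟩ := ih h1
      refine ⟨u, v, Nat.lt_succ_of_lt hu, Nat.lt_succ_of_lt hv, huv, hfu, hfv, ?_⟩
      intro k hk hk2
      rcases Nat.lt_succ_iff_lt_or_eq.1 hk with h3 | h3
      · exact hall k h3 hk2
      · rw [h3, hf] at hk2; exact Bool.noConfusion hk2

/-- Check of a triple. -/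
def ckT (x y z : ℕ) : Bool :=
  cond (Nat.beq x y) true (cond (Nat.beq x z) true (cond (Nat.beq y z) true
    (Nat.beq (ct 16 fun u => kb x y z u) 2)))

theorem ckT_all : lp 16 (fun x => lp 16 fun y => lp 16 fun z => ckT x y z) = true := by
  decide +kernel

theorem beq_false {x y : Fin 16} (h : x ≠ y) : Nat.beq x.val y.val = false := by
  rw [← Bool.not_eq_true]
  intro h1
  exact h (Fin.ext (Nat.eq_of_beq_eq_true h1))

theorem two0 (x y z : Fin 16) (h1 : x ≠ y) (h2 : x ≠ z) (h3 : y ≠ z) :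
    ∃ u v, u ≠ v ∧ Blk L0 x y z u ∧ Blk L0 x y z v ∧ ∀ t, Blk L0 x y z t → t = u ∨ t = v := by
  have h := lp3 ckT_all x y z
  unfold ckT at h
  rw [beq_false h1, beq_false h2, beq_false h3] at h
  have h4 : ct 16 (fun u => kb x.val y.val z.val u) = 2 := Nat.eq_of_beq_eq_true h
  obtain ⟨u, v, hu, hv, huv, hfu, hfv, hall⟩ := ct_two _ _ h4
  refine ⟨⟨u, hu⟩, ⟨v, hv⟩, ?_, (kb_iff _ _ _ _).2 hfu, (kb_iff _ _ _ _).2 hfv, ?_⟩
  · intro e; exact huv (congrArg Fin.val e)
  · intro t ht
    rcases hall t.val t.isLt ((kb_iff _ _ _ _).1 ht) with h5 | h5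
    · exact Or.inl (Fin.ext h5)
    · exact Or.inr (Fin.ext h5)

end Pool.Agent.Lib.H97Z.Base
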