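import Pool.Agent.Lib.H97Z.ST
import Pool.Agent.Lib.H97Z.Z2
import Pool.Agent.Lib.H97Z.Z3
import Pool.Agent.Lib.H97Z.Z4
import Pool.Agent.Lib.H97Z.Z11
import Pool.Agent.Lib.H97Z.Z12
import Pool.Agent.Lib.H97Z.Z13
import Pool.Agent.Lib.H97Z.Z14
import Pool.Agent.Lib.H97Z.Z15S
import Pool.Agent.Lib.H97Z.Z19

/-! The base level satisfies the invariant. -/

set_option autoImplicit false

namespace Pool.Agent.Lib.H97Z.Base

theorem good0 : Good L0 where
  R12 _ _ _ _ h := (ckR_spec h).1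
  R23 _ _ _ _ h := (ckR_spec h).2.1
  R34 _ _ _ _ h := (ckR_spec h).2.2.1
  Rne _ _ _ _ h := (ckR_spec h).2.2.2.1
  Rhue _ _ _ _ h := (ckR_spec h).2.2.2.2
  S12 _ _ _ _ h := (ckS_spec h).1
  Sdd _ _ _ _ h := (ckS_spec h).2.1
  Sne _ _ _ _ h := (ckS_spec h).2.2.2.1
  Shue _ _ _ _ h := (ckS_spec h).2.2.2.2
  Sex _ _ _ _ h := (ckS_spec h).2.2.1
  F12 x y h := ((ckF_spec x y).1 h).1
  Fhue x y h := ((ckF_spec x y).1 h).2
  b12 x y z w := (ckB_spec x y z w).1
  b34 x y z w := (ckB_spec x y z w).2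
  c12 x y := (ckF_spec x y).2.1
  col12 x y := (ckF_spec x y).2.2
  two := two0
  pure := pure0
  mix := mix0
  bd := bd0
  rot := rot0
  even h := by rw [card0 h]; exact ⟨4, rfl⟩
  big h := by rw [card0 h]; norm_num
  conn := conn0
  ni := ni0
  ni2 := ni20
  four h := by rw [card0 h]; exact ⟨2, rfl⟩
  nx := ⟨0, nx0⟩

theorem inv0 : Inv L0 where
  good := good0
  sc := sc0
  kp := by
    refine ⟨0, 1, 2, 12, 8, 9, 15, 0, ?_, ?_, ?_, ?_, ?_, ?_, ?_, ?_, kp0⟩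
    · show rb 0 1 2 12 = true; decide +kernel
    · show z2 (hb 0) = 0; decide +kernel
    · show z2 (hb 1) = 0; decide +kernel
    · show z2 (hb 2) = 0; decide +kernel
    · show rb 8 9 15 0 = true; decide +kernel
    · show z2 (hb 8) = 1; decide +kernel
    · show z2 (hb 9) = 1; decide +kernel
    · show z2 (hb 15) = 1; decide +kernel

end Pool.Agent.Lib.H97Z.Base
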