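import Pool.Agent.Lib.H97Z.Z1

/-! Base level: the strands of the links of pairs, and checks. -/

set_option autoImplicit false

namespace Pool.Agent.Lib.H97Z.Base

/-- Strands of the links: pure pairs `[w..y'], [w'..y]`; mixed pairs `[w..a], [d..y'], [w'..a'], [d'..y]`;
boundary pairs `[w..a], [d..y]`. -/
def SD : List (List (List (List ℕ))) :=
  [[[],
    [[11, 7, 12, 2, 13], [14, 5, 9, 6, 8, 3, 15, 4, 10]],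
    [[14, 7, 15, 6, 8, 5, 9, 4, 10, 3, 11], [13, 1, 12]],
    [[9], [12, 5, 11, 2, 10, 7, 13, 4, 8, 1, 15, 6, 14]],
    [[12, 7, 9, 2, 10, 1, 15], [11, 5, 14, 6, 13, 3, 8]],
    [[15, 7, 8, 2, 9, 1, 14, 4, 11, 3, 12, 6, 13], [10]],
    [[10, 7, 11], [9, 1, 8, 2, 15, 3, 14, 4, 13, 5, 12]],
    [[13, 3, 10, 6, 11, 1, 12, 4, 9], [8, 5, 15, 2, 14]],
    [[7, 5, 2, 6, 1, 3, 4], [12, 13, 11, 10, 14, 15, 9]],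
    [[6, 1, 5, 2, 4, 7], [8, 15, 13, 10, 14], [3], [12, 11]],
    [[6, 7, 3, 2, 4, 1], [11, 8, 14, 9, 13], [5], [15, 12]],
    [[1, 7, 6], [9, 12, 14, 15], [4, 5, 3, 2], [13, 8, 10]],
    [[3, 5, 6], [10, 15, 13, 8], [4, 7, 1, 2], [14, 11, 9]],
    [[2, 1], [14], [7, 3, 4, 6, 5], [10, 9, 15, 12, 8, 11]],
    [[2, 7], [13], [1, 5, 4, 6, 3], [9, 10, 8, 15, 11, 12]],
    [[5, 7, 2, 6, 3, 1, 4], [11, 14, 8, 9, 13, 12, 10]]],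
   [[[10, 4, 15, 3, 8, 6, 9, 5, 14], [13, 2, 12, 7, 11]],
    [],
    [[11, 6, 14, 3, 13, 0, 12, 5, 15], [8, 4, 9, 7, 10]],
    [[14, 2, 13], [15, 0, 8, 7, 9, 6, 10, 5, 11, 4, 12]],
    [[14], [9, 2, 8, 7, 15, 0, 10, 5, 13, 6, 12, 3, 11]],
    [[13, 4, 10, 3, 11, 6, 8], [12, 2, 15, 7, 14, 0, 9]],
    [[15], [12, 4, 13, 7, 14, 2, 11, 5, 8, 0, 9, 3, 10]],
    [[10, 2, 9, 3, 8, 4, 15, 5, 14, 6, 13], [11, 0, 12]],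
    [[2, 4, 7, 3, 0, 6, 5], [12, 11, 13, 14, 10, 9, 15]],
    [[4, 2, 7, 3, 6, 0, 5], [13, 10, 8, 15, 11, 12, 14]],
    [[0, 4, 5, 3, 6], [15, 14, 8, 9, 13, 12], [7, 2], [11]],
    [[2, 6, 5, 3, 4], [14, 15, 9, 12, 8, 13], [7, 0], [10]],
    [[6, 4, 3], [14, 9, 11, 8], [5, 2, 0, 7], [10, 13, 15]],
    [[0, 2, 3], [15, 12, 10, 9], [5, 4, 6, 7], [11, 8, 14]],
    [[4], [9, 12], [3, 2, 6, 7, 5, 0], [13, 8, 10, 15, 11]],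
    [[6], [12, 13], [3, 0, 4, 7, 5, 2], [8, 9, 11, 14, 10]]],
   [[[12, 1, 13], [11, 3, 10, 4, 9, 5, 8, 6, 15, 7, 14]],
    [[10, 7, 9, 4, 8], [15, 5, 12, 0, 13, 3, 14, 6, 11]],
    [],
    [[13, 1, 14, 4, 15], [8, 7, 11, 0, 10, 5, 9, 6, 12]],
    [[8, 1, 9, 0, 10, 7, 11, 6, 12, 5, 13], [15, 3, 14]],
    [[14, 7, 13, 4, 12, 1, 15, 6, 10, 3, 9, 0, 8], [11]],
    [[14, 1, 11, 4, 12, 3, 9], [13, 7, 8, 0, 15, 5, 10]],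
    [[9, 1, 10, 4, 11, 3, 8, 6, 13, 5, 14, 0, 15], [12]],
    [[3, 7, 6, 0, 5], [11, 12, 10, 9, 13, 14], [4, 1], [15]],
    [[7, 1, 4, 0, 5, 3, 6], [13, 8, 10, 11, 15, 14, 12]],
    [[1, 7, 4, 0, 3, 5, 6], [14, 15, 13, 12, 8, 9, 11]],
    [[5], [14, 13], [0, 3, 7, 4, 6, 1], [10, 9, 15, 12, 8]],
    [[7], [9, 14], [0, 1, 5, 4, 6, 3], [13, 10, 8, 11, 15]],
    [[3, 1, 0], [11, 14, 8, 9], [6, 7, 5, 4], [15, 10, 12]],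
    [[5, 7, 0], [12, 9, 15, 10], [6, 1, 3, 4], [8, 13, 11]],
    [[1, 5, 6, 0, 7], [12, 11, 9, 14, 10, 13], [4, 3], [8]]],
   [[[14, 6, 15, 1, 8, 4, 13, 7, 10, 2, 11, 5, 12], [9]],
    [[12, 4, 11, 5, 10, 6, 9, 7, 8, 0, 15], [13, 2, 14]],
    [[12, 6, 9, 5, 10, 0, 11, 7, 8], [15, 4, 14, 1, 13]],
    [],
    [[10, 6, 11, 1, 12], [13, 0, 8, 5, 15, 2, 14, 7, 9]],
    [[8, 4, 15], [9, 2, 10, 1, 11, 0, 12, 7, 13, 6, 14]],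
    [[8], [11, 4, 10, 1, 9, 2, 12, 7, 15, 0, 14, 5, 13]],
    [[14, 4, 9, 1, 8, 2, 11], [15, 6, 12, 5, 13, 0, 10]],
    [[6], [11, 14], [5, 4, 0, 1, 7, 2], [15, 10, 12, 9, 13]],
    [[5, 2, 6, 1, 7, 4], [10, 11, 13, 8, 12], [0], [14, 15]],
    [[4, 6, 1, 5, 2, 0, 7], [14, 13, 15, 8, 12, 11, 9]],
    [[6, 4, 1, 5, 0, 2, 7], [15, 12, 10, 9, 13, 14, 8]],
    [[2, 6, 7, 5, 0], [9, 8, 10, 11, 15, 14], [1, 4], [13]],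
    [[1, 2], [12], [4, 0, 7, 5, 6], [8, 9, 11, 14, 10, 15]],
    [[0, 6, 5], [8, 11, 13, 10], [7, 4, 2, 1], [12, 15, 9]],
    [[2, 4, 5], [9, 14, 12, 11], [7, 6, 0, 1], [13, 10, 8]]],
   [[[8, 3, 13, 6, 14, 5, 11], [15, 1, 10, 2, 9, 7, 12]],
    [[11, 3, 12, 6, 13, 5, 10, 0, 15, 7, 8, 2, 9], [14]],
    [[14, 3, 15], [13, 5, 12, 6, 11, 7, 10, 0, 9, 1, 8]],
    [[9, 7, 14, 2, 15, 5, 8, 0, 13], [12, 1, 11, 6, 10]],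
    [],
    [[15, 3, 8, 6, 9], [10, 1, 13, 2, 12, 7, 11, 0, 14]],
    [[10, 3, 11, 2, 12, 1, 13, 0, 14, 7, 15], [9, 5, 8]],
    [[13], [8, 1, 15, 6, 14, 3, 9, 0, 12, 5, 11, 2, 10]],
    [[7, 1, 2], [14, 11, 9, 12], [0, 3, 5, 6], [10, 15, 13]],
    [[6, 5], [10], [3, 7, 0, 2, 1], [14, 13, 11, 8, 12, 15]],
    [[6, 3], [9], [5, 1, 0, 2, 7], [13, 14, 12, 11, 15, 8]],
    [[1, 3, 6, 2, 7, 5, 0], [15, 10, 12, 13, 9, 8, 14]],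
    [[3, 1, 6, 2, 5, 7, 0], [8, 9, 15, 14, 10, 11, 13]],
    [[2, 5, 1, 6, 0, 3], [12, 11, 9, 14, 10], [7], [8, 15]],
    [[2, 3, 7, 6, 0, 5], [15, 12, 10, 13, 9], [1], [11, 8]],
    [[5, 3, 2], [13, 8, 10, 11], [0, 1, 7, 6], [9, 12, 14]]],
   [[[10], [13, 6, 12, 3, 11, 4, 14, 1, 9, 2, 8, 7, 15]],
    [[9, 0, 14, 7, 15, 2, 12], [8, 6, 11, 3, 10, 4, 13]],
    [[11], [8, 0, 9, 3, 10, 6, 15, 1, 12, 4, 13, 7, 14]],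
    [[14, 6, 13, 7, 12, 0, 11, 1, 10, 2, 9], [15, 4, 8]],
    [[14, 0, 11, 7, 12, 2, 13, 1, 10], [9, 6, 8, 3, 15]],
    [],
    [[15, 2, 10, 7, 9, 4, 8, 1, 11], [12, 0, 13, 3, 14]],
    [[10, 6, 9], [11, 4, 12, 3, 13, 2, 14, 1, 15, 0, 8]],
    [[2, 0, 7], [10, 13, 15, 12], [1, 6, 4, 3], [14, 9, 11]],
    [[4, 6, 7], [11, 8, 14, 13], [1, 0, 2, 3], [15, 12, 10]],
    [[0], [13, 8], [7, 6, 2, 3, 1, 4], [9, 12, 14, 11, 15]],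
    [[2], [8, 9], [7, 4, 0, 3, 1, 6], [12, 13, 15, 10, 14]],
    [[6, 0, 3, 7, 4, 2, 1], [8, 15, 9, 10, 14, 13, 11]],
    [[0, 6, 3, 7, 2, 4, 1], [9, 14, 12, 11, 15, 8, 10]],
    [[4, 0, 1, 7, 2], [11, 10, 12, 13, 9, 8], [3, 6], [15]],
    [[6, 2, 1, 7, 0], [10, 11, 13, 8, 12, 9], [3, 4], [14]]],
   [[[12, 5, 13, 4, 14, 3, 15, 2, 8, 1, 9], [11, 7, 10]],
    [[10, 3, 9, 0, 8, 5, 11, 2, 14, 7, 13, 4, 12], [15]],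
    [[10, 5, 15, 0, 8, 7, 13], [9, 3, 12, 4, 11, 1, 14]],
    [[13, 5, 14, 0, 15, 7, 12, 2, 9, 1, 10, 4, 11], [8]],
    [[8, 5, 9], [15, 7, 14, 0, 13, 1, 12, 2, 11, 3, 10]],
    [[14, 3, 13, 0, 12], [11, 1, 8, 4, 9, 7, 10, 2, 15]],
    [],
    [[9, 5, 10, 0, 11], [12, 3, 15, 4, 14, 1, 13, 2, 8]],
    [[3], [13, 10], [4, 5, 1, 0, 2, 7], [9, 14, 12, 15, 11]],
    [[7, 5, 4], [15, 10, 12, 13], [2, 3, 1, 0], [11, 14, 8]],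
    [[1, 3, 4], [8, 13, 11, 14], [2, 5, 7, 0], [12, 9, 15]],
    [[5, 1, 2, 4, 3], [8, 15, 13, 10, 14, 9], [0, 7], [12]],
    [[7, 3, 2, 4, 1], [15, 8, 14, 13, 9, 10], [0, 5], [11]],
    [[3, 5, 0, 4, 1, 7, 2], [9, 12, 14, 15, 11, 10, 8]],
    [[5, 3, 0, 4, 7, 1, 2], [10, 11, 9, 8, 12, 13, 15]],
    [[1], [10, 9], [4, 7, 3, 0, 2, 5], [14, 13, 11, 8, 12]]],
   [[[14, 2, 15, 5, 8], [9, 4, 12, 1, 11, 6, 10, 3, 13]],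
    [[12, 0, 11], [13, 6, 14, 5, 15, 4, 8, 3, 9, 2, 10]],
    [[12], [15, 0, 14, 5, 13, 6, 8, 3, 11, 4, 10, 1, 9]],
    [[10, 0, 13, 5, 12, 6, 15], [11, 2, 8, 1, 9, 4, 14]],
    [[10, 2, 11, 5, 12, 0, 9, 3, 14, 6, 15, 1, 8], [13]],
    [[8, 0, 15, 1, 14, 2, 13, 3, 12, 4, 11], [9, 6, 10]],
    [[8, 2, 13, 1, 14, 4, 15, 3, 12], [11, 0, 10, 5, 9]],
    [],
    [[6, 2, 3, 1, 4], [13, 12, 14, 15, 11, 10], [5, 0], [9]],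
    [[5, 6], [8], [0, 4, 3, 1, 2], [12, 13, 15, 10, 14, 11]],
    [[4, 2, 1], [12, 15, 9, 14], [3, 0, 6, 5], [8, 11, 13]],
    [[6, 0, 1], [13, 10, 8, 15], [3, 2, 4, 5], [9, 14, 12]],
    [[2], [15, 10], [1, 0, 4, 5, 3, 6], [11, 14, 8, 13, 9]],
    [[1, 6, 2, 5, 3, 0], [14, 15, 9, 12, 8], [4], [10, 11]],
    [[0, 2, 5, 1, 6, 4, 3], [10, 9, 11, 12, 8, 15, 13]],
    [[2, 0, 5, 1, 4, 6, 3], [11, 8, 14, 13, 9, 10, 12]]],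
   [[[9, 15, 14, 10, 11, 13, 12], [4, 3, 1, 6, 2, 5, 7]],
    [[15, 9, 10, 14, 13, 11, 12], [5, 6, 0, 3, 7, 4, 2]],
    [[15], [1, 4], [14, 13, 9, 10, 12, 11], [5, 0, 6, 7, 3]],
    [[13, 9, 12, 10, 15], [2, 7, 1, 0, 4, 5], [14, 11], [6]],
    [[13, 15, 10], [6, 5, 3, 0], [12, 9, 11, 14], [2, 1, 7]],
    [[11, 9, 14], [3, 4, 6, 1], [12, 15, 13, 10], [7, 0, 2]],
    [[11, 15, 12, 14, 9], [7, 2, 0, 1, 5, 4], [10, 13], [3]],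
    [[9], [0, 5], [10, 11, 15, 14, 12, 13], [4, 1, 3, 2, 6]],
    [],
    [[7], [0, 15, 1, 10, 2, 13, 3, 12, 4, 11, 5, 14, 6]],
    [[6, 13, 5], [7, 11, 0, 14, 1, 9, 2, 12, 3, 15, 4]],
    [[6, 15, 7, 10, 0, 13, 1, 12, 2], [5, 9, 4, 14, 3]],
    [[4, 9, 3, 10, 2, 11, 1], [5, 15, 6, 14, 7, 13, 0]],
    [[3, 9, 2, 14, 1, 11, 0, 12, 7], [4, 15, 5, 10, 6]],
    [[2, 13, 1, 10, 0, 15, 7, 12, 6, 9, 5], [3, 11, 4]],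
    [[2], [1, 9, 0, 14, 7, 11, 6, 12, 5, 13, 4, 10, 3]]],
   [[[11, 12], [3], [14, 10, 13, 15, 8], [7, 4, 2, 5, 1, 6]],
    [[14, 12, 11, 15, 8, 10, 13], [5, 0, 6, 3, 7, 2, 4]],
    [[12, 14, 15, 11, 10, 8, 13], [6, 3, 5, 0, 4, 1, 7]],
    [[15, 14], [0], [12, 8, 13, 11, 10], [4, 7, 1, 6, 2, 5]],
    [[15, 12, 8, 11, 13, 14], [1, 2, 0, 7, 3], [10], [5, 6]],
    [[10, 12, 15], [3, 2, 0, 1], [13, 14, 8, 11], [7, 6, 4]],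
    [[8, 14, 11], [0, 1, 3, 2], [13, 12, 10, 15], [4, 5, 7]],
    [[11, 14, 10, 15, 13, 12], [2, 1, 3, 4, 0], [8], [6, 5]],
    [[6, 14, 5, 11, 4, 12, 3, 13, 2, 10, 1, 15, 0], [7]],
    [],
    [[5, 12, 6, 15, 7, 14, 0, 13, 1, 8, 2, 11, 3], [4]],
    [[0, 12, 1, 15, 2, 10, 3, 13, 4, 8, 5], [7, 14, 6]],
    [[2, 14, 1, 11, 0], [3, 8, 4, 15, 5, 10, 6, 13, 7]],
    [[5, 14, 4, 11, 3, 8, 2], [6, 12, 7, 15, 0, 10, 1]],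
    [[1, 12, 2, 15, 3], [0, 10, 7, 11, 6, 8, 5, 13, 4]],
    [[4, 12, 5], [3, 14, 2, 11, 1, 8, 0, 13, 7, 10, 6]]],
   [[[12, 15], [5], [13, 9, 14, 8, 11], [1, 4, 2, 3, 7, 6]],
    [[11], [2, 7], [12, 13, 9, 8, 14, 15], [6, 3, 5, 4, 0]],
    [[11, 9, 8, 12, 13, 15, 14], [6, 5, 3, 0, 4, 7, 1]],
    [[9, 11, 12, 8, 15, 13, 14], [7, 0, 2, 5, 1, 6, 4]],
    [[8, 15, 11, 12, 14, 13], [7, 2, 0, 1, 5], [9], [3, 6]],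
    [[15, 11, 14, 12, 9], [4, 1, 3, 2, 6, 7], [8, 13], [0]],
    [[15, 9, 12], [0, 7, 5, 2], [14, 11, 13, 8], [4, 3, 1]],
    [[13, 11, 8], [5, 6, 0, 3], [14, 9, 15, 12], [1, 2, 4]],
    [[4, 15, 3, 12, 2, 9, 1, 14, 0, 11, 7], [5, 13, 6]],
    [[4], [3, 11, 2, 8, 1, 13, 0, 14, 7, 15, 6, 12, 5]],
    [],
    [[1], [2, 9, 3, 12, 4, 15, 5, 14, 6, 13, 7, 8, 0]],
    [[0, 15, 7], [1, 13, 2, 8, 3, 11, 4, 14, 5, 9, 6]],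
    [[0, 9, 1, 12, 2, 15, 3, 14, 4], [7, 11, 6, 8, 5]],
    [[6, 11, 5, 12, 4, 13, 3], [7, 9, 0, 8, 1, 15, 2]],
    [[5, 11, 4, 8, 3, 13, 2, 14, 1], [6, 9, 7, 12, 0]]],
   [[[10, 8, 13], [2, 3, 5, 4], [15, 14, 12, 9], [6, 7, 1]],
    [[10], [0, 7], [13, 8, 12, 9, 15, 14], [4, 3, 5, 6, 2]],
    [[8, 12, 15, 9, 10], [1, 6, 4, 7, 3, 0], [13, 14], [5]],
    [[8, 14, 13, 9, 10, 12, 15], [7, 2, 0, 5, 1, 4, 6]],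
    [[14, 8, 9, 13, 12, 10, 15], [0, 5, 7, 2, 6, 3, 1]],
    [[14, 10, 15, 13, 12], [6, 1, 3, 0, 4, 7], [9, 8], [2]],
    [[12], [7, 0], [9, 14, 10, 13, 15, 8], [3, 4, 2, 1, 5]],
    [[12, 14, 9], [5, 4, 2, 3], [15, 8, 10, 13], [1, 0, 6]],
    [[3, 14, 4, 9, 5], [2, 12, 1, 13, 0, 10, 7, 15, 6]],
    [[6, 14, 7], [5, 8, 4, 13, 3, 10, 2, 15, 1, 12, 0]],
    [[0, 8, 7, 13, 6, 14, 5, 15, 4, 12, 3, 9, 2], [1]],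
    [],
    [[7, 14, 0, 9, 1, 8, 2, 15, 3, 10, 4, 13, 5], [6]],
    [[2, 14, 3, 9, 4, 12, 5, 15, 6, 10, 7], [1, 8, 0]],
    [[4, 8, 3, 13, 2], [5, 10, 6, 9, 7, 12, 0, 15, 1]],
    [[0, 14, 1, 9, 2, 12, 3], [7, 8, 6, 13, 5, 10, 4]]],
   [[[9, 11, 14], [2, 1, 7, 4], [8, 13, 15, 10], [6, 5, 3]],
    [[15, 13, 10], [7, 0, 2, 5], [8, 11, 9, 14], [3, 4, 6]],
    [[15, 11, 8, 10, 13], [3, 6, 4, 5, 1, 0], [14, 9], [7]],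
    [[13], [4, 1], [14, 15, 11, 10, 8, 9], [0, 5, 7, 6, 2]],
    [[13, 11, 10, 14, 15, 9, 8], [0, 7, 5, 2, 6, 1, 3]],
    [[11, 13, 14, 10, 9, 15, 8], [1, 2, 4, 7, 3, 0, 6]],
    [[11], [5, 0], [10, 9, 13, 14, 8, 15], [1, 4, 2, 3, 7]],
    [[9, 13, 8, 14, 11], [6, 3, 5, 4, 0, 1], [10, 15], [2]],
    [[0, 13, 7, 14, 6, 15, 5], [1, 11, 2, 10, 3, 9, 4]],
    [[7, 13, 6, 10, 5, 15, 4, 8, 3], [0, 11, 1, 14, 2]],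
    [[6, 9, 5, 14, 4, 11, 3, 8, 2, 13, 1], [7, 15, 0]],
    [[6], [5, 13, 4, 10, 3, 15, 2, 8, 1, 9, 0, 14, 7]],
    [],
    [[3], [4, 11, 5, 14, 6, 9, 7, 8, 0, 15, 1, 10, 2]],
    [[2, 9, 1], [3, 15, 4, 10, 5, 13, 6, 8, 7, 11, 0]],
    [[2, 11, 3, 14, 4, 9, 5, 8, 6], [1, 13, 0, 10, 7]]],
   [[[11, 8, 12, 15, 9, 10], [5, 6, 4, 3, 7], [14], [1, 2]],
    [[14, 8, 11], [7, 6, 4, 5], [9, 10, 12, 15], [3, 2, 0]],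
    [[12, 10, 15], [4, 5, 7, 6], [9, 8, 14, 11], [0, 1, 3]],
    [[15, 10, 14, 11, 9, 8], [6, 5, 7, 0, 4], [12], [2, 1]],
    [[15, 8], [7], [10, 14, 9, 11, 12], [3, 0, 6, 1, 5, 2]],
    [[10, 8, 15, 11, 12, 14, 9], [1, 4, 2, 7, 3, 6, 0]],
    [[8, 10, 11, 15, 14, 12, 9], [2, 7, 1, 4, 0, 5, 3]],
    [[11, 10], [4], [8, 12, 9, 15, 14], [0, 3, 5, 2, 6, 1]],
    [[6, 10, 5, 15, 4], [7, 12, 0, 11, 1, 14, 2, 9, 3]],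
    [[1, 10, 0, 15, 7, 12, 6], [2, 8, 3, 11, 4, 14, 5]],
    [[5, 8, 6, 11, 7], [4, 14, 3, 15, 2, 12, 1, 9, 0]],
    [[0, 8, 1], [7, 10, 6, 15, 5, 12, 4, 9, 3, 14, 2]],
    [[2, 10, 1, 15, 0, 8, 7, 9, 6, 14, 5, 11, 4], [3]],
    [],
    [[1, 8, 2, 11, 3, 10, 4, 9, 5, 12, 6, 15, 7], [0]],
    [[4, 8, 5, 11, 6, 14, 7, 9, 0, 12, 1], [3, 10, 2]]],
   [[[12, 11, 15, 8, 10, 9], [3, 6, 4, 5, 1], [13], [7, 2]],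
    [[11, 15, 10, 8, 13], [0, 5, 7, 6, 2, 3], [12, 9], [4]],
    [[11, 13, 8], [4, 3, 1, 6], [10, 15, 9, 12], [0, 7, 5]],
    [[9, 15, 12], [1, 2, 4, 7], [10, 13, 11, 8], [5, 6, 0]],
    [[8, 11], [1], [9, 13, 10, 12, 15], [5, 0, 6, 7, 3, 2]],
    [[15], [6, 3], [8, 9, 13, 12, 10, 11], [2, 7, 1, 0, 4]],
    [[15, 13, 12, 8, 9, 11, 10], [2, 1, 7, 4, 0, 3, 5]],
    [[13, 15, 8, 12, 11, 9, 10], [3, 4, 6, 1, 5, 2, 0]],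
    [[4, 11, 3], [5, 9, 6, 12, 7, 15, 0, 10, 1, 13, 2]],
    [[4, 13, 5, 8, 6, 11, 7, 10, 0], [3, 15, 2, 12, 1]],
    [[2, 15, 1, 8, 0, 9, 7], [3, 13, 4, 12, 5, 11, 6]],
    [[1, 15, 0, 12, 7, 9, 6, 10, 5], [2, 13, 3, 8, 4]],
    [[0, 11, 7, 8, 6, 13, 5, 10, 4, 15, 3], [1, 9, 2]],
    [[0], [7, 15, 6, 12, 5, 9, 4, 10, 3, 11, 2, 8, 1]],
    [],
    [[5], [6, 13, 7, 8, 0, 11, 1, 10, 2, 9, 3, 12, 4]]],
   [[[10, 12, 13, 9, 8, 14, 11], [4, 1, 3, 6, 2, 7, 5]],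
    [[10, 14, 11, 9, 8], [2, 5, 7, 4, 0, 3], [13, 12], [6]],
    [[8], [3, 4], [13, 10, 14, 9, 11, 12], [7, 0, 6, 5, 1]],
    [[8, 10, 13], [1, 0, 6, 7], [11, 12, 14, 9], [5, 4, 2]],
    [[14, 12, 9], [6, 7, 1, 0], [11, 10, 8, 13], [2, 3, 5]],
    [[14], [4, 3], [9, 12, 8, 13, 11, 10], [0, 7, 1, 2, 6]],
    [[12, 8, 11, 13, 14], [5, 2, 0, 3, 7, 4], [9, 10], [1]],
    [[12, 10, 9, 13, 14, 8, 11], [3, 6, 4, 1, 5, 0, 2]],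
    [[3, 10, 4, 13, 5, 12, 6, 11, 7, 14, 0, 9, 1], [2]],
    [[6, 10, 7, 13, 0, 8, 1, 11, 2, 14, 3], [5, 12, 4]],
    [[0, 12, 7, 9, 6], [1, 14, 2, 13, 3, 8, 4, 11, 5]],
    [[4, 10, 5, 13, 6, 8, 7], [3, 12, 2, 9, 1, 14, 0]],
    [[7, 10, 0, 13, 1], [6, 8, 5, 9, 4, 14, 3, 11, 2]],
    [[2, 10, 3], [1, 12, 0, 9, 7, 14, 6, 11, 5, 8, 4]],
    [[4, 12, 3, 9, 2, 10, 1, 11, 0, 8, 7, 13, 6], [5]],
    []]]

/-- Strand `k` of the pair. -/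
def sd (x z k : ℕ) : List ℕ := nth [] (nth [] (nth [] SD x) z) k

/-- Consecutive elements of `a :: l` are joined by regular blocks through `x`, `z`; all are less than `16`. -/
def chR (x z : ℕ) : List ℕ → ℕ → Bool
  | [], _ => true
  | b :: l, a => cond (Nat.ble b 15) (cond (rb x z a b) (chR x z l b) false) false

/-- The last element of `a :: l`. -/
def la : List ℕ → ℕ → ℕ
  | [], a => a
  | b :: l, _ => la l b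

/-- Membership. -/
def me (v : ℕ) : List ℕ → Bool
  | [] => false
  | b :: l => cond (Nat.beq v b) true (me v l)

/-- Parity of the length. -/
def pa : List ℕ → Bool
  | [] => false
  | _ :: l => xor true (pa l)

/-- Both. -/
def an (a b : Bool) : Bool := cond a b false

/-- One of both. -/
def oo (a b : Bool) : Bool := cond a true b

/-- The opposite. -/
def no (a : Bool) : Bool := cond a false true

/-- Implication. -/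
def im (a b : Bool) : Bool := cond a b true

/-- A strand `w :: l` ending in `y`. -/
def ckl (x z w y : ℕ) (l : List ℕ) : Bool :=
  an (Nat.ble w 15) (an (chR x z l w) (Nat.beq (la l w) y))

/-- Check of a pure pair. -/
def ckP (x z w y' w' y : ℕ) (l l' : List ℕ) : Bool :=
  an (ckl x z w y' l) (an (ckl x z w' y l') (an (sb x y z w) (an (sb x y' z w')
    (an (no (an (Nat.beq y y') (Nat.beq w w')))
    (an (lp 16 fun p => lp 16 fun q => im (sb x p z q)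
      (oo (an (Nat.beq p y) (Nat.beq q w)) (an (Nat.beq p y') (Nat.beq q w'))))
    (lp 16 fun v => oo (Nat.beq v x) (oo (Nat.beq v z) (oo (Nat.beq v w) (oo (Nat.beq v w')
      (oo (me v l) (me v l')))))))))))

/-- Check of a mixed pair. -/
def ckM (x z w a d y' w' a' d' y : ℕ) (l₁ l₂ l₃ l₄ : List ℕ) : Bool :=
  an (ckl x z w a l₁) (an (ckl x z d y' l₂) (an (ckl x z w' a' l₃) (an (ckl x z d' y l₄)
  (an (sb x y z w) (an (sb x y' z w')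
    (an (no (an (Nat.beq y y') (Nat.beq w w')))
    (an (lp 16 fun p => lp 16 fun q => im (sb x p z q)
      (oo (an (Nat.beq p y) (Nat.beq q w)) (an (Nat.beq p y') (Nat.beq q w'))))
    (an (sb x z a d) (an (sb x z a' d') (an (no (xor (hb a) (hb x))) (an (no (xor (hb a') (hb x)))
    (an (lp 16 fun p => lp 16 fun q => im (an (sb x z p q) (no (xor (hb p) (hb x))))
      (oo (an (Nat.beq p a) (Nat.beq q d)) (an (Nat.beq p a') (Nat.beq q d'))))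
    (an (xor (tb BT x z a d) (tb BT x z a' d'))
    (an (lp 16 fun v => oo (Nat.beq v x) (oo (Nat.beq v z) (oo (Nat.beq v w) (oo (Nat.beq v w')
      (oo (Nat.beq v d) (oo (Nat.beq v d') (oo (me v l₁) (oo (me v l₂) (oo (me v l₃)
        (me v l₄))))))))))
    (an (xor (pa l₁) (pa l₂)) (xor (pa l₃) (pa l₄)))))))))))))))))

/-- Check of a boundary pair. -/
def ckD (x z w a d y : ℕ) (l₁ l₂ : List ℕ) : Bool :=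
  an (ckl x z w a l₁) (an (ckl x z d y l₂) (an (sb x y z w)
    (an (lp 16 fun p => lp 16 fun q => im (sb x p z q) (an (Nat.beq p y) (Nat.beq q w)))
    (an (sb x z a d) (an (no (xor (hb a) (hb x)))
    (an (lp 16 fun p => lp 16 fun q => im (an (sb x z p q) (no (xor (hb p) (hb x))))
      (an (Nat.beq p a) (Nat.beq q d)))
    (an (xor (ub CT x z) (tb BT x z a d))
    (an (lp 16 fun v => oo (Nat.beq v x) (oo (Nat.beq v z) (oo (Nat.beq v w)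
      (oo (Nat.beq v d) (oo (me v l₁) (me v l₂))))))
    (no (xor (pa l₁) (pa l₂)))))))))))

/-- First element. -/
def hd (l : List ℕ) : ℕ := nth 0 l 0

/-- The rest. -/
def tl : List ℕ → List ℕ
  | [] => []
  | _ :: l => l

/-- Last element of a list. -/
def ls (l : List ℕ) : ℕ := la (tl l) (hd l)

/-- Check of one pair. -/
def ckA (x z : ℕ) : Bool :=
  cond (Nat.beq x z) true
    (cond (xor (hb x) (hb z))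
      (cond (fb x z)
        (ckD x z (hd (sd x z 0)) (ls (sd x z 0)) (hd (sd x z 1)) (ls (sd x z 1))
          (tl (sd x z 0)) (tl (sd x z 1)))
        (ckM x z (hd (sd x z 0)) (ls (sd x z 0)) (hd (sd x z 1)) (ls (sd x z 1))
          (hd (sd x z 2)) (ls (sd x z 2)) (hd (sd x z 3)) (ls (sd x z 3))
          (tl (sd x z 0)) (tl (sd x z 1)) (tl (sd x z 2)) (tl (sd x z 3))))
      (ckP x z (hd (sd x z 0)) (ls (sd x z 0)) (hd (sd x z 1)) (ls (sd x z 1))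
        (tl (sd x z 0)) (tl (sd x z 1))))

end Pool.Agent.Lib.H97Z.Base
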