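import Pool.Agent.Lib.H97Z.Z5

/-! Base level: rotations, connectedness, and checks. -/

set_option autoImplicit false

namespace Pool.Agent.Lib.H97Z.Base

/-- Rotations: vertices. -/
def RV : List (List ℕ) :=
  [[8, 7, 13, 2, 14, 1, 11, 4, 12, 3, 9, 6, 10, 5, 15],
   [8, 2, 11, 7, 10, 0, 13, 5, 12, 6, 15, 3, 14, 4, 9],
   [9, 7, 12, 0, 11, 5, 14, 6, 13, 3, 8, 4, 15, 1, 10],
   [10, 4, 13, 1, 12, 2, 15, 7, 14, 0, 9, 5, 8, 6, 11],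
   [11, 1, 14, 2, 13, 7, 8, 0, 15, 5, 10, 6, 9, 3, 12],
   [12, 6, 15, 3, 14, 4, 9, 1, 8, 2, 11, 7, 10, 0, 13],
   [13, 3, 8, 4, 15, 1, 10, 2, 9, 7, 12, 0, 11, 5, 14],
   [14, 0, 9, 5, 8, 6, 11, 3, 10, 4, 13, 1, 12, 2, 15],
   [0, 9, 7, 10, 6, 11, 5, 12, 4, 13, 3, 14, 2, 15, 1],
   [1, 14, 0, 11, 7, 8, 6, 13, 5, 10, 4, 15, 3, 12, 2],
   [2, 11, 1, 12, 0, 13, 7, 14, 6, 15, 5, 8, 4, 9, 3],
   [3, 8, 2, 13, 1, 10, 0, 15, 7, 12, 6, 9, 5, 14, 4],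
   [4, 13, 3, 14, 2, 15, 1, 8, 0, 9, 7, 10, 6, 11, 5],
   [5, 10, 4, 15, 3, 12, 2, 9, 1, 14, 0, 11, 7, 8, 6],
   [6, 15, 5, 8, 4, 9, 3, 10, 2, 11, 1, 12, 0, 13, 7],
   [0, 10, 1, 13, 2, 8, 3, 11, 4, 14, 5, 9, 6, 12, 7]]

/-- Rotations: fourth vertices of the blocks. -/
def RY : List (List ℕ) :=
  [[9, 14, 11, 12, 13, 10, 15, 8, 9, 14, 11, 12, 13, 10],
   [15, 10, 13, 12, 11, 14, 9, 8, 15, 10, 13, 12, 11, 14],
   [12, 15, 14, 13, 8, 11, 10, 9, 12, 15, 14, 13, 8, 11],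
   [9, 12, 15, 14, 13, 8, 11, 10, 9, 12, 15, 14, 13, 8],
   [14, 9, 8, 15, 10, 13, 12, 11, 14, 9, 8, 15, 10, 13],
   [11, 14, 9, 8, 15, 10, 13, 12, 11, 14, 9, 8, 15, 10],
   [8, 11, 10, 9, 12, 15, 14, 13, 8, 11, 10, 9, 12, 15],
   [13, 8, 11, 10, 9, 12, 15, 14, 13, 8, 11, 10, 9, 12],
   [7, 6, 5, 4, 3, 2, 1, 0, 7, 6, 5, 4, 3, 2],
   [4, 3, 6, 5, 0, 7, 2, 1, 4, 3, 6, 5, 0, 7],
   [1, 0, 7, 6, 5, 4, 3, 2, 1, 0, 7, 6, 5, 4],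
   [6, 5, 0, 7, 2, 1, 4, 3, 6, 5, 0, 7, 2, 1],
   [3, 2, 1, 0, 7, 6, 5, 4, 3, 2, 1, 0, 7, 6],
   [0, 7, 2, 1, 4, 3, 6, 5, 0, 7, 2, 1, 4, 3],
   [5, 4, 3, 2, 1, 0, 7, 6, 5, 4, 3, 2, 1, 0],
   [5, 6, 3, 4, 1, 2, 7, 0, 5, 6, 3, 4, 1, 2]]

/-- A path through all vertices. -/
def CO : List ℕ := [0, 9, 3, 8, 2, 11, 1, 10, 4, 13, 7, 12, 6, 15, 5, 14]

/-- Paths through the vertices of the other hue. -/
def NV : List (List ℕ) :=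
  [[8, 9, 10, 11, 12, 13, 15, 14],
   [8, 9, 10, 12, 11, 13, 14, 15],
   [8, 9, 10, 11, 12, 13, 14, 15],
   [8, 9, 10, 11, 12, 14, 13, 15],
   [8, 9, 11, 10, 12, 13, 14, 15],
   [8, 9, 10, 11, 12, 14, 13, 15],
   [8, 9, 10, 11, 13, 12, 14, 15],
   [8, 10, 9, 11, 12, 13, 14, 15],
   [0, 1, 2, 3, 4, 5, 6, 7],
   [0, 1, 2, 3, 4, 5, 6, 7],
   [0, 1, 2, 3, 4, 5, 6, 7],
   [0, 1, 2, 3, 4, 5, 6, 7],
   [0, 1, 2, 3, 4, 5, 6, 7],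
   [0, 1, 2, 3, 4, 5, 6, 7],
   [0, 1, 2, 3, 4, 5, 6, 7],
   [0, 1, 2, 3, 4, 5, 6, 7]]

/-- Third vertices. -/
def NZ : List (List ℕ) :=
  [[15, 13, 8, 14, 15, 12, 8],
   [15, 8, 13, 9, 8, 8, 11],
   [10, 11, 9, 8, 10, 8, 10],
   [12, 11, 9, 15, 15, 10, 10],
   [11, 8, 12, 11, 11, 9, 12],
   [14, 12, 14, 13, 13, 12, 8],
   [14, 15, 14, 15, 14, 13, 13],
   [11, 15, 14, 14, 9, 15, 8],
   [3, 4, 7, 0, 3, 1, 2],
   [6, 4, 5, 7, 6, 4, 5],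
   [4, 7, 5, 6, 1, 2, 0],
   [7, 6, 7, 1, 0, 1, 0],
   [2, 0, 6, 1, 7, 0, 3],
   [2, 3, 1, 0, 2, 3, 2],
   [5, 6, 4, 2, 0, 3, 4],
   [3, 5, 4, 2, 3, 2, 3]]

/-- The rotation at `x`: consecutive elements `z, w` of `a :: l` with `S x y z w`, `y` from the second list. -/
def chS (x : ℕ) : List ℕ → List ℕ → ℕ → Bool
  | [], _, _ => true
  | _ :: _, [], _ => false
  | b :: l, y :: m, a => an (Nat.ble b 15) (an (Nat.ble y 15) (an (sb x y a b) (chS x l m b)))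

/-- The sum of the bits along the rotation. -/
def suS (x : ℕ) : List ℕ → List ℕ → ℕ → Bool
  | [], _, _ => false
  | _ :: _, [], _ => false
  | b :: l, y :: m, a => xor (tb BT a b x y) (suS x l m b)

/-- Check of the rotation at `x`, from `u` to `u'`. -/
def ckO (x u u' : ℕ) (l m : List ℕ) : Bool :=
  an (Nat.ble u 15) (an (chS x l m u) (an (Nat.beq (la l u) u') (an (fb x u) (an (fb x u')
    (an (no (Nat.beq u u'))
    (an (lp 16 fun v => im (fb x v) (oo (Nat.beq v u) (Nat.beq v u')))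
    (an (lp 16 fun v => oo (Nat.beq v x) (oo (Nat.beq v u) (me v l)))
    (an (no (pa l))
    (an (no (xor (suS x l m u) (no (xor (ub CT x u) (ub CT x u')))))
    (xor (ub CL x u) (ub CL x u')))))))))))

/-- A path of mixed pairs which are not boundary pairs. -/
def chM : List ℕ → ℕ → Bool
  | [], _ => true
  | b :: l, a => an (Nat.ble b 15) (an (xor (hb a) (hb b)) (an (no (fb a b)) (chM l b)))

/-- Check of the path. -/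
def ckC (a : ℕ) (l : List ℕ) : Bool :=
  an (Nat.ble a 15) (an (chM l a) (lp 16 fun v => oo (Nat.beq v a) (me v l)))

/-- A path of vertices `x, y` with `R x y z d`, `z` from the second list. -/
def chN (d : ℕ) : List ℕ → List ℕ → ℕ → Bool
  | [], _, _ => true
  | _ :: _, [], _ => false
  | b :: l, z :: m, a => an (Nat.ble b 15) (an (Nat.ble z 15) (an (rb a b z d)
      (an (xor (hb a) (hb d)) (an (xor (hb b) (hb d)) (chN d l m b)))))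

/-- Check of the path for `d`. -/
def ckN (d a : ℕ) (l m : List ℕ) : Bool :=
  an (Nat.ble a 15) (an (chN d l m a)
    (lp 16 fun v => im (xor (hb v) (hb d)) (oo (Nat.beq v a) (me v l))))

/-- `f k` for some `k < n`. -/
def ex (n : ℕ) (f : ℕ → Bool) : Bool := Nat.rec false (fun k r => cond (f k) true r) n

/-- Check of `ni2` for `x`, `d`. -/
def ckI (x d : ℕ) : Bool :=
  im (xor (hb x) (hb d))
    (ex 16 fun y => an (no (xor (hb x) (hb y))) (ex 16 fun z => rb x y z d))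

end Pool.Agent.Lib.H97Z.Base
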