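import Pool.Agent.Lib.H97Z.Z6

/-! Base level: evaluation of the checks. -/

set_option autoImplicit false

namespace Pool.Agent.Lib.H97Z.Base

theorem ckO_all : lp 16 (fun x => ckO x (hd (nth [] RV x)) (ls (nth [] RV x))
    (tl (nth [] RV x)) (nth [] RY x)) = true := by
  decide +kernel

theorem ckC_all : ckC (hd CO) (tl CO) = true := by
  decide +kernel

theorem ckN_all : lp 16 (fun d => ckN d (hd (nth [] NV d)) (tl (nth [] NV d)) (nth [] NZ d)) =
    true := by
  decide +kernel

theorem ckI_all : lp 16 (fun x => lp 16 fun d => ckI x d) = true := by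
  decide +kernel

end Pool.Agent.Lib.H97Z.Base
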