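import Pool.Agent.Lib.H97Z.Z5

/-! Chunk Z7: base level: chains -/

set_option autoImplicit false

namespace Pool.Agent.Lib.H97Z.Base

theorem z7_an {a b : Bool} : an a b = true ↔ a = true ∧ b = true := by
  cases a <;> cases b <;> simp [an]

theorem z7_oo {a b : Bool} : oo a b = true ↔ a = true ∨ b = true := by
  cases a <;> cases b <;> simp [oo]

theorem z7_no {a : Bool} : no a = true ↔ a = false := by
  cases a <;> simp [no]

theorem z7_im {a b : Bool} : im a b = true ↔ (a = true → b = true) := by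
  cases a <;> cases b <;> simp [im]

theorem z7_xor (a b : Bool) : z2 (xor a b) = z2 a + z2 b := by
  revert a b; decide

/-- The parity of the length of a list, in `ZMod 2`.
PROOF. Induction. -/
theorem chR_spec {x z : Fin 16} : ∀ (l : List ℕ) (a : Fin 16), chR x.val z.val l a.val = true →
    ∃ b : Fin 16, b.val = la l a.val ∧ (∀ f, RC L0 x z f → f b = f a) ∧
      (∀ f, One L0 x z f → f b = f a + z2 (pa l)) ∧
      (∀ v : Fin 16, me v.val l = true → ∀ f, RC L0 x z f → f v = f a) := by
  -- induction on `l`; for `b :: l`: `b ≤ 15`, `rb x z a b` is `L0.R x z a b`, so `f a = f b` (`RC`) and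
  -- `f a + f b = 1` (`One`); `me v (b :: l)`: `v = b` or `me v l`
  intro l
  induction l with
  | nil =>
    intro a _
    refine ⟨a, rfl, fun f _ => rfl, fun f _ => ?_, ?_⟩
    · show f a = f a + z2 false
      simp [z2]
    · intro v hv
      exact absurd hv (by simp [me])
  | cons c l ih =>
    intro a h
    have h1 : an (Nat.ble c 15) (an (rb x.val z.val a.val c) (chR x.val z.val l c)) = true := by
      show cond (Nat.ble c 15) (cond (rb x.val z.val a.val c) (chR x.val z.val l c) false)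
        false = true
      exact h
    obtain ⟨h2, h3⟩ := z7_an.1 h1
    obtain ⟨h3, h4⟩ := z7_an.1 h3
    have hc : c < 16 := Nat.lt_succ_of_le (Nat.le_of_ble_eq_true h2)
    obtain ⟨b, hb, p1, p2, p3⟩ := ih ⟨c, hc⟩ h4
    have hR : L0.R x z a ⟨c, hc⟩ := h3
    refine ⟨b, hb, ?_, ?_, ?_⟩
    · intro f hf
      rw [p1 f hf]
      exact (hf _ _ hR).symm
    · intro f hf
      rw [p2 f hf]
      have h5 := hf _ _ hR
      have h6 : pa (c :: l) = xor true (pa l) := rfl
      rw [h6, z7_xor]
      have h7 : f ⟨c, hc⟩ = f a + 1 := by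
        have : f ⟨c, hc⟩ = (f a + f ⟨c, hc⟩) - f a := by ring
        rw [this, h5]
        have h8 : ∀ t : ZMod 2, 1 - t = t + 1 := by decide
        exact h8 _
      rw [h7]
      show f a + 1 + z2 (pa l) = f a + (1 + z2 (pa l))
      ring
    · intro v hv f hf
      have h5 : oo (Nat.beq v.val c) (me v.val l) = true := hv
      rcases z7_oo.1 h5 with h6 | h6
      · have h7 : v = ⟨c, hc⟩ := Fin.ext (Nat.eq_of_beq_eq_true h6)
        rw [h7]
        exact (hf _ _ hR).symm
      · rw [p3 v h6 f hf]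
        exact (hf _ _ hR).symm

/-- PROOF. `chR_spec`. -/
theorem ckl_spec {x z : Fin 16} {w y : ℕ} {l : List ℕ} (h : ckl x.val z.val w y l = true) :
    ∃ W Y : Fin 16, W.val = w ∧ Y.val = y ∧ (∀ f, RC L0 x z f → f Y = f W) ∧
      (∀ f, One L0 x z f → f Y = f W + z2 (pa l)) ∧
      (∀ v : Fin 16, me v.val l = true → ∀ f, RC L0 x z f → f v = f W) := by
  obtain ⟨h1, h2⟩ := z7_an.1 h
  obtain ⟨h2, h3⟩ := z7_an.1 h2
  have hw : w < 16 := Nat.lt_succ_of_le (Nat.le_of_ble_eq_true h1)
  obtain ⟨b, hb, p1, p2, p3⟩ := chR_spec (x := x) (z := z) l ⟨w, hw⟩ h2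
  have h4 : la l w = y := Nat.eq_of_beq_eq_true h3
  exact ⟨⟨w, hw⟩, b, rfl, hb.trans h4, p1, p2, p3⟩

end Pool.Agent.Lib.H97Z.Base
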